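import Pool.Agent.Y231.N4.Defs2

set_option autoImplicit false

/-!
# Part AZ: from the facets to all faces, four variables
-/

namespace Pool.Agent.Y231.N4.AZ

open Pool.Agent.W426.SM (gord face IsRay)
open Pool.Agent.W425.BF (B1)
open Pool.Agent.TH216.MF (Pt Forced SimR ray_of_vertex)
open Pool.Agent.TH216.LX (Vert vert2 rel3)
open Pool.Agent.Y231.N4

variable {r : ℕ}

/-! ### Four coordinates -/

lemma four_univ : ∀ i l m n : Fin 4, i ≠ l → i ≠ m → i ≠ n → l ≠ m → l ≠ n → m ≠ n →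
    (Finset.univ : Finset (Fin 4)) = {i, l, m, n} := by decide

lemma four_mem {i l m n : Fin 4} (h1 : i ≠ l) (h2 : i ≠ m) (h3 : i ≠ n) (h4 : l ≠ m)
    (h5 : l ≠ n) (h6 : m ≠ n) (x : Fin 4) : x = i ∨ x = l ∨ x = m ∨ x = n := by
  have h : x ∈ (Finset.univ : Finset (Fin 4)) := Finset.mem_univ x
  rw [four_univ i l m n h1 h2 h3 h4 h5 h6] at h
  simpa using h

lemma four_sum {i l m n : Fin 4} (h1 : i ≠ l) (h2 : i ≠ m) (h3 : i ≠ n) (h4 : l ≠ m)
    (h5 : l ≠ n) (h6 : m ≠ n) (f : Fin 4 → ℚ) : ∑ x, f x = f i + f l + f m + f n := by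
  rw [four_univ i l m n h1 h2 h3 h4 h5 h6, Finset.sum_insert (by simp [h1, h2, h3]),
    Finset.sum_insert (by simp [h4, h5]), Finset.sum_insert (by simp [h6]), Finset.sum_singleton]
  ring

lemma others2 : ∀ i l : Fin 4, i ≠ l → ∃ m n : Fin 4, i ≠ m ∧ i ≠ n ∧ l ≠ m ∧ l ≠ n ∧ m ≠ n := by
  decide

lemma others3 : ∀ i x y : Fin 4, i ≠ x → i ≠ y → x ≠ y →
    ∃ z : Fin 4, i ≠ z ∧ x ≠ z ∧ y ≠ z := by
  decide

/-! ### Collinear vertices -/

/-- no three vertices are collinear -/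
lemma col3 {v : Fin r → Fin 4 → ℕ} (hV : Vert v) {j k l : Fin r} (hjk : j ≠ k) (hjl : j ≠ l)
    (hkl : k ≠ l)
    (h : ∀ x y, ((v k x : ℚ) - v j x) * ((v l y : ℚ) - v j y) =
      ((v k y : ℚ) - v j y) * ((v l x : ℚ) - v j x)) : False := by
  apply vert2 hV hjk
  intro x
  have h1 := rel3 hV hjk hjl hkl ((v k x : ℚ) - v l x) ((v l x : ℚ) - v j x)
    ((v j x : ℚ) - v k x) (by ring) fun y => by
      have := h x y
      linear_combination -this
  have h2 : (v k x : ℚ) = v j x := by linarith [h1.2.2]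
  exact le_of_eq (by exact_mod_cast h2)

/-- two different vertices differ -/
lemma vne {v : Fin r → Fin 4 → ℕ} (hV : Vert v) {j k : Fin r} (hjk : j ≠ k)
    (h : ∀ x, (v j x : ℚ) = v k x) : False := by
  apply vert2 hV hjk
  intro x
  exact le_of_eq (by exact_mod_cast (h x).symm)

lemma other_of_sum {f : Fin r → ℚ} (h : ∑ j, f j = 0) {j : Fin r} (hj : f j ≠ 0) :
    ∃ k, k ≠ j ∧ f k ≠ 0 := by
  by_contra hcon
  push Not at hcon
  apply hj
  rw [← h]
  exact (Finset.sum_eq_single j (fun k _ hk => hcon k hk) (by simp)).symm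

/-- the sum of the coefficients of the relation is zero -/
lemma sum_w {v : Fin r → Fin 4 → ℕ} {A : Finset (Fin 4)} {Z : Finset (Fin r)} {a : Fin 4 → ℚ}
    (ha : a ∈ Pt v A Z) {w : Fin r → ℚ} (hw : ∀ i ∈ A, ∑ j, w j * (v j i : ℚ) = 0)
    (hwZ : ∀ j ∈ Z, w j = 0) : ∑ j, w j = 0 := by
  have h1 : ∀ j, w j = w j * ∑ i, a i * (v j i : ℚ) := by
    intro j
    by_cases hj : j ∈ Z
    · rw [hwZ j hj, zero_mul]
    · rw [ha.2.2.2 j hj, mul_one]
  rw [Finset.sum_congr rfl fun j _ => h1 j]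
  simp only [Finset.mul_sum]
  rw [Finset.sum_comm]
  refine Finset.sum_eq_zero fun i _ => ?_
  by_cases hi : i ∈ A
  · have h2 := hw i hi
    have h3 : ∑ j, w j * (a i * (v j i : ℚ)) = a i * ∑ j, w j * (v j i : ℚ) := by
      rw [Finset.mul_sum]
      exact Finset.sum_congr rfl fun j _ => by ring
    rw [h3, h2, mul_zero]
  · refine Finset.sum_eq_zero fun j _ => ?_
    rw [ha.2.1 i hi]
    ring

/-- a relation between two vertices -/
lemma two_supp {v : Fin r → Fin 4 → ℕ} {A : Finset (Fin 4)} {w : Fin r → ℚ}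
    (hw : ∀ i ∈ A, ∑ j, w j * (v j i : ℚ) = 0) (hs : ∑ j, w j = 0) {j k : Fin r} (hjk : j ≠ k)
    (hj : w j ≠ 0) (h : ∀ l, l ≠ j → l ≠ k → w l = 0) {x : Fin 4} (hx : x ∈ A) :
    (v j x : ℚ) = v k x := by
  have e : ∀ f : Fin r → ℚ, (∀ l, l ≠ j → l ≠ k → f l = 0) → ∑ l, f l = f j + f k := by
    intro f hf
    have h1 : ∑ l, f l = ∑ l ∈ ({j, k} : Finset (Fin r)), f l := by
      symm
      apply Finset.sum_subset (Finset.subset_univ _)
      intro l _ hl
      simp only [Finset.mem_insert, Finset.mem_singleton, not_or] at hl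
      exact hf l hl.1 hl.2
    rw [h1, Finset.sum_pair hjk]
  rw [e w h] at hs
  have h2 := hw x hx
  rw [e _ fun l h1 h2 => by rw [h l h1 h2, zero_mul]] at h2
  have h3 : w k = - w j := by linarith
  rw [h3] at h2
  have h4 : w j * ((v j x : ℚ) - v k x) = 0 := by linarith
  have h5 := (mul_eq_zero.1 h4).resolve_left hj
  linarith

/-! ### B1 -/

/-- if the minors do not vanish then the two points agree -/
lemma minor_eq {v : Fin r → Fin 4 → ℕ} {i x y z : Fin 4} (h1 : i ≠ x) (h2 : i ≠ y) (h3 : i ≠ z)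
    (h4 : x ≠ y) (h5 : x ≠ z) (h6 : y ≠ z) {a a' : Fin 4 → ℚ} {j k l : Fin r}
    (hsum : ∑ t, a t = ∑ t, a' t)
    (hj : v j i = 0) (hk : v k i = 0) (hl : v l i = 0)
    (haj : ∑ t, a t * (v j t : ℚ) = 1) (hak : ∑ t, a t * (v k t : ℚ) = 1)
    (hal : ∑ t, a t * (v l t : ℚ) = 1)
    (haj' : ∑ t, a' t * (v j t : ℚ) = 1) (hak' : ∑ t, a' t * (v k t : ℚ) = 1)
    (hal' : ∑ t, a' t * (v l t : ℚ) = 1)
    (hm : ((v k x : ℚ) - v j x) * ((v l y : ℚ) - v j y) ≠
      ((v k y : ℚ) - v j y) * ((v l x : ℚ) - v j x)) : ∀ t, a t = a' t := by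
  rw [four_sum h1 h2 h3 h4 h5 h6] at haj hak hal haj' hak' hal' hsum
  rw [four_sum h1 h2 h3 h4 h5 h6] at hsum
  rw [hj] at haj haj'
  rw [hk] at hak hak'
  rw [hl] at hal hal'
  simp only [Nat.cast_zero, mul_zero, zero_add] at haj hak hal haj' hak' hal'
  set M : ℚ := ((v k x : ℚ) - v j x) * ((v l y : ℚ) - v j y) -
      ((v k y : ℚ) - v j y) * ((v l x : ℚ) - v j x) with hM
  have hM0 : M ≠ 0 := sub_ne_zero.2 hm
  set P : ℚ := ((v k z : ℚ) - v j z) * ((v l y : ℚ) - v j y) -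
      ((v k y : ℚ) - v j y) * ((v l z : ℚ) - v j z) with hP
  set Q : ℚ := ((v k x : ℚ) - v j x) * ((v l z : ℚ) - v j z) -
      ((v k z : ℚ) - v j z) * ((v l x : ℚ) - v j x) with hQ
  have ax : a x * M = - a z * P := by
    rw [hM, hP]
    linear_combination ((v l y : ℚ) - v j y) * (hak - haj) - ((v k y : ℚ) - v j y) * (hal - haj)
  have ay : a y * M = - a z * Q := by
    rw [hM, hQ]
    linear_combination ((v k x : ℚ) - v j x) * (hal - haj) - ((v l x : ℚ) - v j x) * (hak - haj)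
  have ax' : a' x * M = - a' z * P := by
    rw [hM, hP]
    linear_combination ((v l y : ℚ) - v j y) * (hak' - haj') - ((v k y : ℚ) - v j y) * (hal' - haj')
  have ay' : a' y * M = - a' z * Q := by
    rw [hM, hQ]
    linear_combination ((v k x : ℚ) - v j x) * (hal' - haj') - ((v l x : ℚ) - v j x) * (hak' - haj')
  have e1 : a z * (- P * (v j x : ℚ) - Q * (v j y : ℚ) + M * (v j z : ℚ)) = M := by
    linear_combination M * haj - (v j x : ℚ) * ax - (v j y : ℚ) * ay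
  have e2 : a' z * (- P * (v j x : ℚ) - Q * (v j y : ℚ) + M * (v j z : ℚ)) = M := by
    linear_combination M * haj' - (v j x : ℚ) * ax' - (v j y : ℚ) * ay'
  have hT : (- P * (v j x : ℚ) - Q * (v j y : ℚ) + M * (v j z : ℚ)) ≠ 0 := by
    intro h
    rw [h, mul_zero] at e1
    exact hM0 e1.symm
  have hz : a z = a' z := mul_right_cancel₀ hT (e1.trans e2.symm)
  have hx : a x = a' x := by
    apply mul_right_cancel₀ hM0
    rw [ax, ax', hz]
  have hy : a y = a' y := by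
    apply mul_right_cancel₀ hM0
    rw [ay, ay', hz]
  have hi : a i = a' i := by linarith
  intro t
  rcases four_mem h1 h2 h3 h4 h5 h6 t with rfl | rfl | rfl | rfl
  · exact hi
  · exact hx
  · exact hy
  · exact hz

/-- **B1**: the polyhedron is one point. -/
lemma b1_unique {v : Fin r → Fin 4 → ℕ} (hV : Vert v) {A : Finset (Fin 4)} {Z : Finset (Fin r)}
    {a a' : Fin 4 → ℚ} (ha : a ∈ Pt v A Z) (ha' : a' ∈ Pt v A Z) (hsum : ∑ t, a t = ∑ t, a' t)
    {w : Fin r → ℚ} (hw : ∀ i ∈ A, ∑ j, w j * (v j i : ℚ) = 0)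
    (hwZ : ∀ j ∈ Z, w j = 0) {j1 : Fin r} (hj1 : w j1 ≠ 0) {i : Fin 4} (hi : i ∈ A)
    (h0 : ∀ j, w j ≠ 0 → v j i = 0) : ∀ t, a t = a' t := by
  by_contra hne
  have hs := sum_w ha hw hwZ
  have hZ : ∀ j, w j ≠ 0 → j ∉ Z := fun j hj h => hj (hwZ j h)
  obtain ⟨k, hk, hwk⟩ := other_of_sum hs hj1
  by_cases h3 : ∃ l, l ≠ j1 ∧ l ≠ k ∧ w l ≠ 0
  · obtain ⟨l, hlj, hlk, hwl⟩ := h3
    apply col3 hV hk.symm hlj.symm hlk.symm
    intro x y
    by_contra hm
    have hd : ∀ t, t = i → (v k t : ℚ) - v j1 t = 0 ∧ (v l t : ℚ) - v j1 t = 0 := by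
      rintro t rfl
      rw [h0 k hwk, h0 j1 hj1, h0 l hwl]
      simp
    have hix : i ≠ x := by
      rintro rfl
      apply hm
      rw [(hd i rfl).1, (hd i rfl).2]
      ring
    have hiy : i ≠ y := by
      rintro rfl
      apply hm
      rw [(hd i rfl).1, (hd i rfl).2]
      ring
    have hxy : x ≠ y := by
      rintro rfl
      apply hm
      ring
    obtain ⟨z, hiz, hxz, hyz⟩ := others3 i x y hix hiy hxy
    exact hne (minor_eq hix hiy hiz hxy hxz hyz hsum (h0 j1 hj1) (h0 k hwk) (h0 l hwl)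
      (ha.2.2.2 _ (hZ _ hj1)) (ha.2.2.2 _ (hZ _ hwk)) (ha.2.2.2 _ (hZ _ hwl))
      (ha'.2.2.2 _ (hZ _ hj1)) (ha'.2.2.2 _ (hZ _ hwk)) (ha'.2.2.2 _ (hZ _ hwl)) hm)
  · push Not at h3
    have heq : ∀ x ∈ A, (v j1 x : ℚ) = v k x := fun x hx =>
      two_supp hw hs hk.symm hj1 h3 hx
    by_cases h4 : ∃ x y : Fin 4, x ≠ y ∧ x ∉ A ∧ y ∉ A
    · obtain ⟨x, y, hxy, hx, hy⟩ := h4
      have hix : i ≠ x := by
        rintro rfl
        exact hx hi
      have hiy : i ≠ y := by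
        rintro rfl
        exact hy hi
      obtain ⟨z, hiz, hxz, hyz⟩ := others3 i x y hix hiy hxy
      have e1 := ha.2.2.2 _ (hZ _ hj1)
      have e2 := ha'.2.2.2 _ (hZ _ hj1)
      rw [four_sum hix hiy hiz hxy hxz hyz] at e1 e2 hsum
      rw [four_sum hix hiy hiz hxy hxz hyz] at hsum
      rw [ha.2.1 x hx, ha.2.1 y hy, h0 j1 hj1] at e1
      rw [ha'.2.1 x hx, ha'.2.1 y hy, h0 j1 hj1] at e2
      rw [ha.2.1 x hx, ha.2.1 y hy, ha'.2.1 x hx, ha'.2.1 y hy] at hsum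
      simp only [Nat.cast_zero, mul_zero, zero_mul, zero_add, add_zero] at e1 e2 hsum
      have hvz : (v j1 z : ℚ) ≠ 0 := by
        intro h
        rw [h, mul_zero] at e1
        exact zero_ne_one e1
      have hz : a z = a' z := mul_right_cancel₀ hvz (e1.trans e2.symm)
      apply hne
      intro t
      rcases four_mem hix hiy hiz hxy hxz hyz t with rfl | rfl | rfl | rfl
      · linarith
      · rw [ha.2.1 _ hx, ha'.2.1 _ hx]
      · rw [ha.2.1 _ hy, ha'.2.1 _ hy]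
      · exact hz
    · push Not at h4
      -- at most one coordinate outside `A`
      by_cases h5 : ∃ x, x ∉ A
      · obtain ⟨x, hx⟩ := h5
        have h6 : ∀ y, y ≠ x → v j1 y = v k y := by
          intro y hy
          have : y ∈ A := h4 x y hy.symm hx
          exact_mod_cast heq y this
        rcases le_total (v j1 x) (v k x) with h7 | h7
        · apply vert2 hV hk
          intro y
          by_cases hy : y = x
          · rw [hy]; exact h7
          · exact (h6 y hy).le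
        · apply vert2 hV hk.symm
          intro y
          by_cases hy : y = x
          · rw [hy]; exact h7
          · exact (h6 y hy).ge
      · push Not at h5
        exact vne hV hk.symm fun x => heq x (h5 x)

/-! ### B2 -/

/-- the points of the face with given coordinates `i`, `l` are on a line -/
lemma part_two {v : Fin r → Fin 4 → ℕ} (hV : Vert v) {i l m n : Fin 4} (h1 : i ≠ l) (h2 : i ≠ m)
    (h3 : i ≠ n) (h4 : l ≠ m) (h5 : l ≠ n) (h6 : m ≠ n) {a : Fin 4 → ℚ} (hn : a n ≠ 0)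
    {j k t : Fin r} (hjk : j ≠ k) (hjt : j ≠ t) (hkt : k ≠ t)
    (haj : ∑ t, a t * (v j t : ℚ) = 1) (hak : ∑ t, a t * (v k t : ℚ) = 1)
    (hat : ∑ x, a x * (v t x : ℚ) = 1) (hki : v k i = v j i) (hti : v t i = v j i)
    (hkl : v k l = v j l) (htl : v t l = v j l) : False := by
  rw [four_sum h1 h2 h3 h4 h5 h6] at haj hak hat
  rw [hki, hkl] at hak
  rw [hti, htl] at hat
  have e : ((v k m : ℚ) - v j m) * ((v t n : ℚ) - v j n) =
      ((v k n : ℚ) - v j n) * ((v t m : ℚ) - v j m) := by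
    apply mul_left_cancel₀ hn
    linear_combination ((v k m : ℚ) - v j m) * (hat - haj) - ((v t m : ℚ) - v j m) * (hak - haj)
  have z1 : (v k i : ℚ) - v j i = 0 := by rw [hki, sub_self]
  have z2 : (v t i : ℚ) - v j i = 0 := by rw [hti, sub_self]
  have z3 : (v k l : ℚ) - v j l = 0 := by rw [hkl, sub_self]
  have z4 : (v t l : ℚ) - v j l = 0 := by rw [htl, sub_self]
  apply col3 hV hjk hjt hkt
  intro x y
  rcases four_mem h1 h2 h3 h4 h5 h6 x with rfl | rfl | rfl | rfl <;>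
  rcases four_mem h1 h2 h3 h4 h5 h6 y with rfl | rfl | rfl | rfl <;>
  first
    | exact e
    | exact e.symm
    | ring1
    | simp only [z1, z2, z3, z4, mul_zero, zero_mul]

/-- data of a B2 facet: the points outside `Z` have coordinates `(1, 0)` or `(0, 1)` in the
directions `i`, `l`, and there are two of each kind -/
def Dat (v : Fin r → Fin 4 → ℕ) (Z : Finset (Fin r)) (i l : Fin 4) : Prop :=
  (∀ j, j ∉ Z → (v j i = 1 ∧ v j l = 0) ∨ (v j i = 0 ∧ v j l = 1)) ∧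
  (∃ p q, p ≠ q ∧ p ∉ Z ∧ q ∉ Z ∧ v p i = 1 ∧ v q i = 1) ∧
  ∃ p q, p ≠ q ∧ p ∉ Z ∧ q ∉ Z ∧ v p l = 1 ∧ v q l = 1

lemma Dat.symm {v : Fin r → Fin 4 → ℕ} {Z : Finset (Fin r)} {i l : Fin 4} (h : Dat v Z i l) :
    Dat v Z l i :=
  ⟨fun j hj => (h.1 j hj).elim (fun h => Or.inr ⟨h.2, h.1⟩) fun h => Or.inl ⟨h.2, h.1⟩, h.2.2, h.2.1⟩

/-- **B2**: the points outside `Z`. -/
lemma b2_dat {v : Fin r → Fin 4 → ℕ} (hV : Vert v) {A : Finset (Fin 4)} {Z : Finset (Fin r)}
    {a a' : Fin 4 → ℚ} {b : Fin 4 → ℕ} (ha : a ∈ Pt v A Z) (ha' : a' ∈ Pt v A Z)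
    (_hsum : ∑ t, a t = ∑ t, a' t) (hne : ¬ ∀ t, a t = a' t) (hray : IsRay v b)
    (hb0 : ∀ i, b i = 0 ↔ a i = 0) (hf : ∀ j, face v b j ↔ ∑ i, a i * (v j i : ℚ) = 1)
    (hprem : ∀ i ∈ A, ∃ j, j ∉ Z ∧ 0 < v j i)
    {w : Fin r → ℚ} (hw : ∀ i ∈ A, ∑ j, w j * (v j i : ℚ) = 0)
    (hwZ : ∀ j ∈ Z, w j = 0) {j1 : Fin r} (hj1 : w j1 ≠ 0) {i l : Fin 4}
    (hB : B2F v b i l) : Dat v Z i l ∧ ∀ j, face v b j → (v j i ≠ 0 ∨ v j l ≠ 0) → j ∉ Z := by
  obtain ⟨hbn, hil, hpat⟩ := hB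
  obtain ⟨m, n, him, hin, hlm, hln, hmn⟩ := others2 i l hil
  have hs := sum_w ha hw hwZ
  have hZ : ∀ j, w j ≠ 0 → j ∉ Z := fun j hj h => hj (hwZ j h)
  have hapos : ∀ x, a x ≠ 0 := fun x h => hbn x ((hb0 x).2 h)
  have hA : ∀ x, x ∈ A := by
    intro x
    by_contra hx
    exact hapos x (ha.2.1 x hx)
  have hfZ : ∀ j, j ∉ Z → face v b j := fun j hj => (hf j).2 (ha.2.2.2 j hj)
  have hL : ∀ j, face v b j → a i * (v j i : ℚ) + a l * (v j l : ℚ) + a m * (v j m : ℚ) +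
      a n * (v j n : ℚ) = 1 := by
    intro j hj
    rw [← four_sum hil him hin hlm hln hmn fun x => a x * (v j x : ℚ)]
    exact (hf j).1 hj
  have hL' : ∀ j, ∑ x, a' x * (v j x : ℚ) = 1 → a' i * (v j i : ℚ) + a' l * (v j l : ℚ) +
      a' m * (v j m : ℚ) + a' n * (v j n : ℚ) = 1 := by
    intro j hj
    rw [← four_sum hil him hin hlm hln hmn fun x => a' x * (v j x : ℚ)]
    exact hj
  -- the two points in the support of `w` in one part
  have hpair : ∀ j, w j ≠ 0 → ∃ k, k ≠ j ∧ w k ≠ 0 ∧ v k i = v j i ∧ v k l = v j l := by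
    intro j hj
    have hi := hw i (hA i)
    have hl := hw l (hA l)
    rcases hpat j (hfZ j (hZ j hj)) with ⟨e1, e2⟩ | ⟨e1, e2⟩ | ⟨e1, e2⟩
    · have h1 : ∑ t, (w t - w t * (v t i : ℚ) - w t * (v t l : ℚ)) = 0 := by
        rw [Finset.sum_sub_distrib, Finset.sum_sub_distrib, hs, hi, hl]
        ring
      obtain ⟨k, hk, hk2⟩ := other_of_sum h1 (j := j) (by
        rw [e1, e2]
        simpa using hj)
      have hwk : w k ≠ 0 := by
        intro h
        apply hk2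
        rw [h]
        ring
      refine ⟨k, hk, hwk, ?_⟩
      rcases hpat k (hfZ k (hZ k hwk)) with ⟨f1, f2⟩ | ⟨f1, f2⟩ | ⟨f1, f2⟩
      · rw [e1, e2, f1, f2]
        exact ⟨rfl, rfl⟩
      · exfalso
        apply hk2
        rw [f1, f2]
        simp
      · exfalso
        apply hk2
        rw [f1, f2]
        simp
    · obtain ⟨k, hk, hk2⟩ := other_of_sum hi (j := j) (by
        rw [e1]
        simpa using hj)
      have hwk : w k ≠ 0 := by
        intro h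
        apply hk2
        rw [h]
        ring
      refine ⟨k, hk, hwk, ?_⟩
      rcases hpat k (hfZ k (hZ k hwk)) with ⟨f1, f2⟩ | ⟨f1, f2⟩ | ⟨f1, f2⟩
      · exfalso
        apply hk2
        rw [f1]
        simp
      · rw [e1, e2, f1, f2]
        exact ⟨rfl, rfl⟩
      · exfalso
        apply hk2
        rw [f1]
        simp
    · obtain ⟨k, hk, hk2⟩ := other_of_sum hl (j := j) (by
        rw [e2]
        simpa using hj)
      have hwk : w k ≠ 0 := by
        intro h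
        apply hk2
        rw [h]
        ring
      refine ⟨k, hk, hwk, ?_⟩
      rcases hpat k (hfZ k (hZ k hwk)) with ⟨f1, f2⟩ | ⟨f1, f2⟩ | ⟨f1, f2⟩
      · exfalso
        apply hk2
        rw [f2]
        simp
      · exfalso
        apply hk2
        rw [f2]
        simp
      · rw [e1, e2, f1, f2]
        exact ⟨rfl, rfl⟩
  -- no three points in one part
  have hthree : ∀ j k t, face v b j → face v b k → face v b t → j ≠ k → j ≠ t → k ≠ t →
      v k i = v j i → v t i = v j i → v k l = v j l → v t l = v j l → False := by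
    intro j k t hj hk ht hjk hjt hkt e1 e2 e3 e4
    exact part_two hV hil him hin hlm hln hmn (hapos n) hjk hjt hkt ((hf j).1 hj) ((hf k).1 hk)
      ((hf t).1 ht) e1 e2 e3 e4
  -- the direction of the lines
  have hdet : a' m * a n = a' n * a m := by
    obtain ⟨k, hk, hwk, e1, e2⟩ := hpair j1 hj1
    have l1 := hL j1 (hfZ _ (hZ _ hj1))
    have l2 := hL k (hfZ _ (hZ _ hwk))
    have l3 := hL' j1 (ha'.2.2.2 _ (hZ _ hj1))
    have l4 := hL' k (ha'.2.2.2 _ (hZ _ hwk))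
    rw [e1, e2] at l2 l4
    by_contra hd
    have hm0 : (v k m : ℚ) - v j1 m = 0 := by
      apply (mul_eq_zero.1 _).resolve_left (sub_ne_zero.2 hd)
      linear_combination a n * (l4 - l3) - a' n * (l2 - l1)
    have hn0 : (v k n : ℚ) - v j1 n = 0 := by
      apply (mul_eq_zero.1 _).resolve_left (sub_ne_zero.2 hd)
      linear_combination -a m * (l4 - l3) + a' m * (l2 - l1)
    apply vne hV hk
    intro x
    rcases four_mem hil him hin hlm hln hmn x with rfl | rfl | rfl | rfl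
    · rw [e1]
    · rw [e2]
    · linarith
    · linarith
  have hpar : ∀ j k, face v b j → face v b k → v k i = v j i → v k l = v j l →
      ∑ x, a' x * (v j x : ℚ) = 1 → ∑ x, a' x * (v k x : ℚ) = 1 := by
    intro j k hj hk e1 e2 h1
    have l1 := hL j hj
    have l2 := hL k hk
    have l3 := hL' j h1
    rw [e1, e2] at l2
    rw [four_sum hil him hin hlm hln hmn, e1, e2]
    have : a n * (a' m * ((v k m : ℚ) - v j m) + a' n * ((v k n : ℚ) - v j n)) = 0 := by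
      linear_combination ((v k m : ℚ) - v j m) * hdet + a' n * (l2 - l1)
    have h2 := (mul_eq_zero.1 this).resolve_left (hapos n)
    linarith
  obtain ⟨p0, hp0Z, hp0⟩ := hprem i (hA i)
  obtain ⟨q0, hq0Z, hq0⟩ := hprem l (hA l)
  have hp0' : v p0 i = 1 ∧ v p0 l = 0 := by
    rcases hpat p0 (hfZ _ hp0Z) with h | h | h
    · omega
    · exact h
    · omega
  have hq0' : v q0 i = 0 ∧ v q0 l = 1 := by
    rcases hpat q0 (hfZ _ hq0Z) with h | h | h
    · omega
    · omega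
    · exact h
  -- no point of the third part
  have hV0 : ∀ j, face v b j → v j i = 0 → v j l = 0 → ∑ x, a' x * (v j x : ℚ) ≠ 1 := by
    intro j hj e1 e2 h1
    have hall : ∀ k, face v b k → ∑ x, a' x * (v k x : ℚ) = 1 := by
      intro k hk
      rcases hpat k hk with ⟨f1, f2⟩ | ⟨f1, f2⟩ | ⟨f1, f2⟩
      · exact hpar j k hj hk (by rw [e1, f1]) (by rw [e2, f2]) h1
      · exact hpar p0 k (hfZ _ hp0Z) hk (by rw [hp0'.1, f1]) (by rw [hp0'.2, f2])
          (ha'.2.2.2 _ hp0Z)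
      · exact hpar q0 k (hfZ _ hq0Z) hk (by rw [hq0'.1, f1]) (by rw [hq0'.2, f2])
          (ha'.2.2.2 _ hq0Z)
    have hbnz : ∀ x, b x ≠ 0 := hbn
    obtain ⟨ρ, hρ⟩ := hray.2 a' (fun x hx => absurd hx (hbnz x))
      (fun j j' hj hj' => by rw [hall j hj, hall j' hj'])
    obtain ⟨ρ', hρ'⟩ := hray.2 a (fun x hx => absurd hx (hbnz x))
      (fun j j' hj hj' => by rw [(hf j).1 hj, (hf j').1 hj'])
    apply hne
    intro t
    rw [hρ t, hρ' t]
    congr 1
    have e1 := (hf j).1 hj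
    have e3 : ρ' * ∑ x, (b x : ℚ) * (v j x : ℚ) = 1 := by
      rw [← e1, Finset.mul_sum]
      exact Finset.sum_congr rfl fun x _ => by rw [hρ' x]; ring
    have e4 : ρ * ∑ x, (b x : ℚ) * (v j x : ℚ) = 1 := by
      rw [← h1, Finset.mul_sum]
      exact Finset.sum_congr rfl fun x _ => by rw [hρ x]; ring
    have hS : ∑ x, (b x : ℚ) * (v j x : ℚ) ≠ 0 := by
      intro h
      rw [h, mul_zero] at e3
      exact zero_ne_one e3
    exact mul_right_cancel₀ hS (e3.trans e4.symm)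
  have hk1 : ∀ j, j ∉ Z → (v j i = 1 ∧ v j l = 0) ∨ (v j i = 0 ∧ v j l = 1) := by
    intro j hj
    rcases hpat j (hfZ j hj) with ⟨e1, e2⟩ | h | h
    · exact absurd (ha'.2.2.2 j hj) (hV0 j (hfZ j hj) e1 e2)
    · exact Or.inl h
    · exact Or.inr h
  -- the support of `w` is not contained in one part
  have hone : ∀ j, w j ≠ 0 → ∃ t, w t ≠ 0 ∧ ¬ (v t i = v j i ∧ v t l = v j l) := by
    intro j hj
    by_contra hcon
    push Not at hcon
    obtain ⟨k, hk, hwk, e1, e2⟩ := hpair j hj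
    have h2 : ∀ t, t ≠ j → t ≠ k → w t = 0 := by
      intro t htj htk
      by_contra hwt
      obtain ⟨e3, e4⟩ := hcon t hwt
      exact hthree j k t (hfZ _ (hZ _ hj)) (hfZ _ (hZ _ hwk)) (hfZ _ (hZ _ hwt)) hk.symm
        htj.symm htk.symm e1 e3 e2 e4
    exact vne hV hk.symm fun x => two_supp hw hs hk.symm hj h2 (hA x)
  -- both parts meet the support of `w`
  have hboth : (∃ p, w p ≠ 0 ∧ v p i = 1 ∧ v p l = 0) ∧ ∃ q, w q ≠ 0 ∧ v q i = 0 ∧ v q l = 1 := by
    obtain ⟨t, hwt, ht⟩ := hone j1 hj1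
    rcases hk1 j1 (hZ _ hj1) with ⟨e1, e2⟩ | ⟨e1, e2⟩ <;>
    rcases hk1 t (hZ _ hwt) with ⟨f1, f2⟩ | ⟨f1, f2⟩
    · exact absurd ⟨f1.trans e1.symm, f2.trans e2.symm⟩ ht
    · exact ⟨⟨j1, hj1, e1, e2⟩, t, hwt, f1, f2⟩
    · exact ⟨⟨t, hwt, f1, f2⟩, j1, hj1, e1, e2⟩
    · exact absurd ⟨f1.trans e1.symm, f2.trans e2.symm⟩ ht
  obtain ⟨⟨p, hwp, hp1, hp2⟩, q, hwq, hq1, hq2⟩ := hboth
  obtain ⟨p', hpp', hwp', hp1', hp2'⟩ := hpair p hwp
  obtain ⟨q', hqq', hwq', hq1', hq2'⟩ := hpair q hwq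
  refine ⟨⟨hk1, ⟨p, p', hpp'.symm, hZ _ hwp, hZ _ hwp', hp1, hp1'.trans hp1⟩,
    ⟨q, q', hqq'.symm, hZ _ hwq, hZ _ hwq', hq2, hq2'.trans hq2⟩⟩, ?_⟩
  intro j hj hjn
  rcases hpat j hj with ⟨e1, e2⟩ | ⟨e1, e2⟩ | ⟨e1, e2⟩
  · rcases hjn with h | h
    · exact absurd e1 h
    · exact absurd e2 h
  · by_cases h1 : j = p
    · rw [h1]; exact hZ _ hwp
    by_cases h2 : j = p'
    · rw [h2]; exact hZ _ hwp'
    exact (hthree p p' j (hfZ _ (hZ _ hwp)) (hfZ _ (hZ _ hwp')) hj hpp'.symm (Ne.symm h1)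
      (Ne.symm h2) hp1' (e1.trans hp1.symm) hp2' (e2.trans hp2.symm)).elim
  · by_cases h1 : j = q
    · rw [h1]; exact hZ _ hwq
    by_cases h2 : j = q'
    · rw [h2]; exact hZ _ hwq'
    exact (hthree q q' j (hfZ _ (hZ _ hwq)) (hfZ _ (hZ _ hwq')) hj hqq'.symm (Ne.symm h1)
      (Ne.symm h2) hq1' (e1.trans hq1.symm) hq2' (e2.trans hq2.symm)).elim

/-- two pairs of directions with a common direction -/
lemma dat_share {v : Fin r → Fin 4 → ℕ} (hV : Vert v) {A : Finset (Fin 4)} {Z : Finset (Fin r)}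
    {a : Fin 4 → ℚ} (ha : a ∈ Pt v A Z) (hpos : ∀ x, a x ≠ 0) {i l m : Fin 4} (h1 : i ≠ l)
    (h2 : i ≠ m) (h3 : l ≠ m) (hd : Dat v Z i l) (hd' : Dat v Z i m) : False := by
  obtain ⟨n, hin, hln, hmn⟩ := others3 i l m h1 h2 h3
  obtain ⟨p, q, hpq, hp, hq, hpi, hqi⟩ := hd.2.1
  have e : ∀ j, j ∉ Z → v j i = 1 → v j l = 0 ∧ v j m = 0 := by
    intro j hj hji
    refine ⟨?_, ?_⟩
    · rcases hd.1 j hj with h | h
      · exact h.2
      · omega
    · rcases hd'.1 j hj with h | h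
      · exact h.2
      · omega
  obtain ⟨ep1, ep2⟩ := e p hp hpi
  obtain ⟨eq1, eq2⟩ := e q hq hqi
  have l1 := ha.2.2.2 p hp
  have l2 := ha.2.2.2 q hq
  rw [four_sum h1 h2 hin h3 hln hmn] at l1 l2
  rw [hpi, ep1, ep2] at l1
  rw [hqi, eq1, eq2] at l2
  have hn : (v p n : ℚ) = v q n := by
    apply mul_left_cancel₀ (hpos n)
    linarith
  apply vne hV hpq
  intro x
  rcases four_mem h1 h2 hin h3 hln hmn x with rfl | rfl | rfl | rfl
  · rw [hpi, hqi]
  · rw [ep1, eq1]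
  · rw [ep2, eq2]
  · exact hn

/-- two disjoint pairs of directions -/
lemma dat_disj {v : Fin r → Fin 4 → ℕ} (hV : Vert v) {A : Finset (Fin 4)} {Z : Finset (Fin r)}
    {a : Fin 4 → ℚ} (ha : a ∈ Pt v A Z) {i l m n : Fin 4} (h1 : i ≠ l)
    (h2 : i ≠ m) (h3 : i ≠ n) (h4 : l ≠ m) (h5 : l ≠ n) (h6 : m ≠ n) (hd : Dat v Z i l)
    (hd' : Dat v Z m n) : ∑ x, a x = 2 := by
  have key : ∀ {i l : Fin 4}, i ≠ l → i ≠ m → i ≠ n → l ≠ m → l ≠ n → Dat v Z i l →
      ∃ p p', p ∉ Z ∧ p' ∉ Z ∧ v p i = 1 ∧ v p l = 0 ∧ v p' i = 1 ∧ v p' l = 0 ∧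
        v p m = 1 ∧ v p n = 0 ∧ v p' m = 0 ∧ v p' n = 1 := by
    intro i l h1 h2 h3 h4 h5 hd
    obtain ⟨p, q, hpq, hp, hq, hpi, hqi⟩ := hd.2.1
    have e : ∀ j, j ∉ Z → v j i = 1 → v j l = 0 := by
      intro j hj hji
      rcases hd.1 j hj with h | h
      · exact h.2
      · omega
    have hne : ¬ (v p m = v q m ∧ v p n = v q n) := by
      rintro ⟨e1, e2⟩
      apply vne hV hpq
      intro x
      rcases four_mem h1 h2 h3 h4 h5 h6 x with rfl | rfl | rfl | rfl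
      · rw [hpi, hqi]
      · rw [e p hp hpi, e q hq hqi]
      · rw [e1]
      · rw [e2]
    rcases hd'.1 p hp with ⟨f1, f2⟩ | ⟨f1, f2⟩ <;> rcases hd'.1 q hq with ⟨g1, g2⟩ | ⟨g1, g2⟩
    · exact absurd ⟨f1.trans g1.symm, f2.trans g2.symm⟩ hne
    · exact ⟨p, q, hp, hq, hpi, e p hp hpi, hqi, e q hq hqi, f1, f2, g1, g2⟩
    · exact ⟨q, p, hq, hp, hqi, e q hq hqi, hpi, e p hp hpi, g1, g2, f1, f2⟩
    · exact absurd ⟨f1.trans g1.symm, f2.trans g2.symm⟩ hne
  obtain ⟨p, -, hp, -, e1, e2, -, -, e3, e4, -, -⟩ := key h1 h2 h3 h4 h5 hd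
  obtain ⟨-, q, -, hq, -, -, g1, g2, -, -, g3, g4⟩ := key h1.symm h4 h5 h2 h3 hd.symm
  have l1 := ha.2.2.2 p hp
  have l2 := ha.2.2.2 q hq
  rw [four_sum h1 h2 h3 h4 h5 h6] at l1 l2 ⊢
  rw [e1, e2, e3, e4] at l1
  rw [g1, g2, g3, g4] at l2
  simp only [Nat.cast_one, Nat.cast_zero, mul_one, mul_zero, add_zero, zero_add] at l1 l2
  linarith

/-- **Part AZ.** -/
theorem main : StAZ := by
  intro r v hr hV σ _ hσ H A Z hne hconst hprem
  classical
  by_cases hF : Forced v A Z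
  · exact Or.inl hF
  right
  unfold Forced at hF
  push Not at hF
  obtain ⟨w, hw, hwZ, j1, hj1⟩ := hF
  have hsum : ∀ a ∈ Pt v A Z, ∀ a' ∈ Pt v A Z, ∑ t, a t = ∑ t, a' t := by
    intro a ha a' ha'
    have h1 := hconst a ha
    rw [← hconst a' ha'] at h1
    exact_mod_cast h1
  -- the rays
  have hray : ∀ (A' : Finset (Fin 4)) (Z' : Finset (Fin r)), A' ⊆ A → Z' ⊆ Z →
      (Pt v A' Z').Nonempty → ∃ (a : Fin 4 → ℚ) (b : Fin 4 → ℕ), a ∈ Pt v A' Z' ∧ a ∈ Pt v A Z ∧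
        (∀ i, b i = 0 ↔ a i = 0) ∧ IsRay v b ∧ (∀ j, face v b j ↔ ∑ i, a i * (v j i : ℚ) = 1) ∧
        ((∃ i, B1 v i b) ∨ ∃ i l, B2F v b i l) := by
    intro A' Z' hA' hZ' hne'
    obtain ⟨a, b, h1, h2, h3, h4, h5, h6⟩ := ray_of_vertex hr v A' Z' hne'
    have hm := Pool.Agent.TH216.MF.Pt.mono hA' hZ' h1
    refine ⟨a, b, h1, hm, h2, h3, h5, ?_⟩
    rcases H b h3 h4 (by
      rw [← hconst a hm, ← h6]
      push_cast
      rfl) with h7 | h7
    · exfalso
      refine hj1 (h7 w (fun j hj => ?_) (fun i hi => ?_) j1)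
      · apply hwZ
        by_contra hjZ
        exact hj ((h5 j).2 (hm.2.2.2 j hjZ))
      · apply hw
        by_contra hiA
        exact hi ((h2 i).2 (hm.2.1 i hiA))
    · exact h7
  by_cases hb1 : ∃ (a : Fin 4 → ℚ) (b : Fin 4 → ℕ) (i : Fin 4), a ∈ Pt v A Z ∧
      (∀ i, b i = 0 ↔ a i = 0) ∧ (∀ j, face v b j ↔ ∑ i, a i * (v j i : ℚ) = 1) ∧ B1 v i b
  · left
    obtain ⟨a, b, i, ha, hb0, hf, hbi, j0, hj0, hj0i, hj0u⟩ := hb1
    have hai : a i ≠ 0 := fun h => hbi ((hb0 i).2 h)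
    have hiA : i ∈ A := by
      by_contra h
      exact hai (ha.2.1 i h)
    have hf' : ∀ j, w j ≠ 0 → face v b j := fun j hj =>
      (hf j).2 (ha.2.2.2 j fun h => hj (hwZ j h))
    have hw0 : w j0 = 0 := by
      have h1 := hw i hiA
      rw [Finset.sum_eq_single j0 (fun j _ hj => by
        by_cases hwj : w j = 0
        · rw [hwj, zero_mul]
        · rw [hj0u j (hf' j hwj) hj, Nat.cast_zero, mul_zero]) (by simp), hj0i] at h1
      simpa using h1
    have h0 : ∀ j, w j ≠ 0 → v j i = 0 := by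
      intro j hj
      apply hj0u j (hf' j hj)
      rintro rfl
      exact hj hw0
    have huni : ∀ a' ∈ Pt v A Z, ∀ t, a t = a' t := fun a' ha' =>
      b1_unique hV ha ha' (hsum a ha a' ha') hw hwZ hj1 hiA h0
    refine ⟨i, hiA, j0, hj0i, fun a' ha' => ?_, fun j hj hji a' ha' h1 => ?_⟩
    · rw [← huni a' ha' i]
      exact hai
    · have h2 : ∑ x, a x * (v j x : ℚ) = 1 := by
        rw [← h1]
        exact Finset.sum_congr rfl fun x _ => by rw [huni a' ha' x]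
      have := hj0u j ((hf j).2 h2) hj
      omega
  · right
    have hray2 : ∀ (A' : Finset (Fin 4)) (Z' : Finset (Fin r)), A' ⊆ A → Z' ⊆ Z →
        (Pt v A' Z').Nonempty → ∃ (a : Fin 4 → ℚ) (b : Fin 4 → ℕ), a ∈ Pt v A' Z' ∧
          a ∈ Pt v A Z ∧ (∀ i, b i = 0 ↔ a i = 0) ∧ IsRay v b ∧
          (∀ j, face v b j ↔ ∑ i, a i * (v j i : ℚ) = 1) ∧ ∃ i l, B2F v b i l := by
      intro A' Z' hA' hZ' hne'
      obtain ⟨a, b, h1, h2, h3, h4, h5, h6⟩ := hray A' Z' hA' hZ' hne'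
      refine ⟨a, b, h1, h2, h3, h4, h5, h6.resolve_left ?_⟩
      rintro ⟨i, hi⟩
      exact hb1 ⟨a, b, i, h2, h3, h5, hi⟩
    -- all coordinates are nonzero
    have hpos : ∀ a ∈ Pt v A Z, ∀ x, a x ≠ 0 := by
      intro a ha x hx
      obtain ⟨a2, b2, h1, h2, h3, h4, h5, i, l, h6⟩ := hray2 (A.erase x) Z
        (Finset.erase_subset _ _) (Finset.Subset.refl _) ⟨a, ha.1, fun i' hi' => by
          by_cases h1 : i' = x
          · rw [h1]; exact hx
          · exact ha.2.1 i' fun h2 => hi' (Finset.mem_erase.2 ⟨h1, h2⟩), ha.2.2.1, ha.2.2.2⟩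
      exact h6.1 x ((h3 x).2 (h1.2.1 x (Finset.notMem_erase x A)))
    obtain ⟨a, b, -, ha, hb0, hrb, hf, i, l, hB⟩ := hray2 A Z (Finset.Subset.refl _)
      (Finset.Subset.refl _) hne
    have hA : ∀ x, x ∈ A := by
      intro x
      by_contra hx
      exact hpos a ha x (ha.2.1 x hx)
    refine ⟨i, hA i, l, hA l, hB.2.1, hpos, ?_⟩
    by_cases huni : ∀ a' ∈ Pt v A Z, ∀ t, a t = a' t
    · -- one point
      have hsame : ∀ a' ∈ Pt v A Z, ∀ j, ∑ x, a' x * (v j x : ℚ) = ∑ x, a x * (v j x : ℚ) := by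
        intro a' ha' j
        exact Finset.sum_congr rfl fun x _ => by rw [huni a' ha' x]
      refine ⟨Finset.univ.filter fun j => face v b j ∧ v j i = 1 ∧ v j l = 0,
        Finset.univ.filter fun j => face v b j ∧ v j i = 0 ∧ v j l = 1, ?_, ?_, ?_⟩
      · intro j hj
        obtain ⟨-, h1, h2, h3⟩ := Finset.mem_filter.1 hj
        refine ⟨h2, h3, fun a' ha' => ?_⟩
        rw [hsame a' ha' j]
        exact (hf j).1 h1
      · intro j hj
        obtain ⟨-, h1, h2, h3⟩ := Finset.mem_filter.1 hj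
        refine ⟨h2, h3, fun a' ha' => ?_⟩
        rw [hsame a' ha' j]
        exact (hf j).1 h1
      · intro j hj1 hj2 hj3 a' ha' h1
        rw [hsame a' ha' j] at h1
        have hfj := (hf j).2 h1
        rcases hB.2.2 j hfj with ⟨h2, h3⟩ | h2 | h2
        · rcases hj3 with h | h
          · exact h h2
          · exact h h3
        · exact hj1 (Finset.mem_filter.2 ⟨Finset.mem_univ _, hfj, h2⟩)
        · exact hj2 (Finset.mem_filter.2 ⟨Finset.mem_univ _, hfj, h2⟩)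
    · push Not at huni
      obtain ⟨a', ha', t0, ht0⟩ := huni
      have hDat : ∀ (a2 : Fin 4 → ℚ) (b2 : Fin 4 → ℕ) (i2 l2 : Fin 4), a2 ∈ Pt v A Z →
          (∀ i, b2 i = 0 ↔ a2 i = 0) → IsRay v b2 →
          (∀ j, face v b2 j ↔ ∑ i, a2 i * (v j i : ℚ) = 1) → B2F v b2 i2 l2 →
          Dat v Z i2 l2 ∧ ∀ j, face v b2 j → (v j i2 ≠ 0 ∨ v j l2 ≠ 0) → j ∉ Z := by
        intro a2 b2 i2 l2 ha2 hb2 hr2 hf2 hB2
        by_cases h1 : ∀ t, a2 t = a t
        · have h2 : ¬ ∀ t, a2 t = a' t := by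
            intro h2
            exact ht0 ((h1 t0).symm.trans (h2 t0))
          exact b2_dat hV ha2 ha' (hsum a2 ha2 a' ha') h2 hr2 hb2 hf2 hprem hw hwZ hj1 hB2
        · exact b2_dat hV ha2 ha (hsum a2 ha2 a ha) h1 hr2 hb2 hf2 hprem hw hwZ hj1 hB2
      obtain ⟨hD, hDf⟩ := hDat a b i l ha hb0 hrb hf hB
      have hil := hB.2.1
      refine ⟨Finset.univ.filter fun j => j ∉ Z ∧ v j i = 1,
        Finset.univ.filter fun j => j ∉ Z ∧ v j l = 1, ?_, ?_, ?_⟩
      · intro j hj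
        obtain ⟨-, h1, h2⟩ := Finset.mem_filter.1 hj
        refine ⟨h2, ?_, fun a2 ha2 => ha2.2.2.2 j h1⟩
        rcases hD.1 j h1 with h | h
        · exact h.2
        · omega
      · intro j hj
        obtain ⟨-, h1, h2⟩ := Finset.mem_filter.1 hj
        refine ⟨?_, h2, fun a2 ha2 => ha2.2.2.2 j h1⟩
        rcases hD.1 j h1 with h | h
        · omega
        · exact h.1
      · intro j hj1' hj2' hj3 a2 ha2 h1
        by_cases hjZ : j ∉ Z
        · rcases hD.1 j hjZ with h | h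
          · exact hj1' (Finset.mem_filter.2 ⟨Finset.mem_univ _, hjZ, h.1⟩)
          · exact hj2' (Finset.mem_filter.2 ⟨Finset.mem_univ _, hjZ, h.2⟩)
        apply hjZ
        obtain ⟨a3, b3, h2, h3, h4, h5, h6, i3, l3, h7⟩ := hray2 A (Z.erase j)
          (Finset.Subset.refl _) (Finset.erase_subset _ _)
          ⟨a2, ha2.1, ha2.2.1, ha2.2.2.1, fun j' hj' => by
            by_cases h8 : j' = j
            · rw [h8]; exact h1
            · exact ha2.2.2.2 j' fun h9 => hj' (Finset.mem_erase.2 ⟨h8, h9⟩)⟩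
        have hfj : face v b3 j := (h6 j).2 (h2.2.2.2 j (Finset.notMem_erase j Z))
        obtain ⟨hD3, hD3f⟩ := hDat a3 b3 i3 l3 h3 h4 h5 h6 h7
        have hil3 := h7.2.1
        apply hD3f j hfj
        obtain ⟨m, n, him, hin, hlm, hln, hmn⟩ := others2 i l hil
        have hσ2 : ∀ a ∈ Pt v A Z, ∑ x, a x ≠ 2 := by
          intro a ha h
          apply hσ
          rw [← hconst a ha, h]
          norm_num
        rcases four_mem hil him hin hlm hln hmn i3 with e | e | e | e <;>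
        rcases four_mem hil him hin hlm hln hmn l3 with e' | e' | e' | e' <;>
        subst e <;> subst e'
        · exact absurd rfl hil3
        · exact hj3
        · exact (dat_share hV ha (hpos a ha) hil him hlm hD hD3).elim
        · exact (dat_share hV ha (hpos a ha) hil hin hln hD hD3).elim
        · exact hj3.symm
        · exact absurd rfl hil3
        · exact (dat_share hV ha (hpos a ha) hil.symm hlm him hD.symm hD3).elim
        · exact (dat_share hV ha (hpos a ha) hil.symm hln hin hD.symm hD3).elim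
        · exact (dat_share hV ha (hpos a ha) hil him hlm hD hD3.symm).elim
        · exact (dat_share hV ha (hpos a ha) hil.symm hlm him hD.symm hD3.symm).elim
        · exact absurd rfl hil3
        · exact (hσ2 a ha (dat_disj hV ha hil him hin hlm hln hmn hD hD3)).elim
        · exact (dat_share hV ha (hpos a ha) hil hin hln hD hD3.symm).elim
        · exact (dat_share hV ha (hpos a ha) hil.symm hln hin hD.symm hD3.symm).elim
        · exact (hσ2 a ha (dat_disj hV ha hil him hin hlm hln hmn hD hD3.symm)).elim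
        · exact absurd rfl hil3

end Pool.Agent.Y231.N4.AZ
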