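import Pool.Agent.Y536.N4.Common

set_option autoImplicit false

/-! Part C4: a plane quadrangle and a further point. -/

namespace Pool.Agent.Y231.N4

open Pool.Agent.Y536.N4

section
variable {ι : Type} [Fintype ι] {v : ι → Fin 4 → ℕ} {a : Fin 4 → ℕ} {g : ℕ}

/-- a nontrivial relation has two positive coefficients -/
lemma two_pos (hP : Pos v (fun _ => 0) a g) (c : Fin 4 → ι) (hc : Function.Injective c)
    (y : Fin 4 → ℚ) (hrel : ∀ i, ∑ x, y x * (v (c x) i : ℚ) = 0) (hne : ∃ x, y x ≠ 0) :
    ∃ A B, A ≠ B ∧ 0 < y A ∧ 0 < y B := by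
  have hs := sum_zero' hP c hc y hrel
  obtain ⟨A, hA⟩ : ∃ A, 0 < y A := by
    by_contra hcon
    push Not at hcon
    obtain ⟨x, hx⟩ := hne
    exact hx ((Finset.sum_eq_zero_iff_of_nonpos fun z _ => hcon z).1 hs x (Finset.mem_univ _))
  by_contra hcon
  push Not at hcon
  exact no_single' hP c hc y hrel A hA fun x hx => hcon A x hx.symm hA

/-- a nontrivial relation has two negative coefficients -/
lemma two_neg (hP : Pos v (fun _ => 0) a g) (c : Fin 4 → ι) (hc : Function.Injective c)
    (y : Fin 4 → ℚ) (hrel : ∀ i, ∑ x, y x * (v (c x) i : ℚ) = 0) (hne : ∃ x, y x ≠ 0) :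
    ∃ A B, A ≠ B ∧ y A < 0 ∧ y B < 0 := by
  obtain ⟨A, B, h, hA, hB⟩ := two_pos hP c hc (fun x => -y x) (fun j => by
    have := hrel j
    simp only [neg_mul, Finset.sum_neg_distrib, this, neg_zero]) (by
    obtain ⟨x, hx⟩ := hne
    exact ⟨x, by simpa using hx⟩)
  exact ⟨A, B, h, by simpa using hA, by simpa using hB⟩

/-- three points are independent -/
lemma rel4 (hP : Pos v (fun _ => 0) a g) (c : Fin 4 → ι) (hc : Function.Injective c)
    (y : Fin 4 → ℚ) (hrel : ∀ i, ∑ x, y x * (v (c x) i : ℚ) = 0) (x0 : Fin 4) (h0 : y x0 = 0) :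
    ∀ x, y x = 0 := by
  by_contra hcon
  push Not at hcon
  obtain ⟨A, B, hAB, hA, hB⟩ := two_pos hP c hc y hrel hcon
  obtain ⟨C, D, hCD, hC, hD⟩ := two_neg hP c hc y hrel hcon
  have h1 : A ≠ C := by rintro rfl; linarith
  have h2 : A ≠ D := by rintro rfl; linarith
  have h3 : B ≠ C := by rintro rfl; linarith
  have h4 : B ≠ D := by rintro rfl; linarith
  have h5 : A ≠ x0 := by rintro rfl; linarith
  have h6 : B ≠ x0 := by rintro rfl; linarith
  have h7 : C ≠ x0 := by rintro rfl; linarith
  have h8 : D ≠ x0 := by rintro rfl; linarith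
  omega

/-- a point of the quadrangle is exchanged with `t` -/
lemma B1_four (hP : Pos v (fun _ => 0) a g) (hN : ¬ NonBS v (fun _ => 0)) (c : Fin 4 → ι) (t : ι)
    (hc : Function.Injective c) (hct : ∀ x, c x ≠ t)
    (hu : ∀ (y : Fin 4 → ℚ) (u : ℚ), (∀ i, ∑ x, y x * (v (c x) i : ℚ) + u * (v t i : ℚ) = 0) →
      u = 0) (x : Fin 4) :
    ∃ i : Fin 4, (v t i = 1 ∧ ∀ z, z ≠ x → v (c z) i = 0) ∨
      (v t i = 0 ∧ ∃ b : Fin 4, b ≠ x ∧ v (c b) i = 1 ∧ ∀ z, z ≠ x → z ≠ b → v (c z) i = 0) := by
  classical
  have hinj : Function.Injective (Function.update c x t) := by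
    intro p q hpq
    by_cases h1 : p = x <;> by_cases h2 : q = x
    · rw [h1, h2]
    · exfalso
      rw [h1, Function.update_self, Function.update_of_ne h2] at hpq
      exact hct q hpq.symm
    · exfalso
      rw [h2, Function.update_self, Function.update_of_ne h1] at hpq
      exact hct p hpq
    · rw [Function.update_of_ne h1, Function.update_of_ne h2] at hpq
      exact hc hpq
  obtain ⟨i, x0, h1, h2⟩ := exists_B1 hN (Function.update c x t) hinj (fun w hw => by
    have key : ∀ i, ∑ z, Function.update w x 0 z * (v (c z) i : ℚ) + w x * (v t i : ℚ) = 0 := by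
      intro i
      have h1 := hw i
      rw [← Finset.add_sum_erase _ _ (Finset.mem_univ x), Function.update_self] at h1
      rw [← Finset.add_sum_erase _ _ (Finset.mem_univ x), Function.update_self, zero_mul,
        zero_add, add_comm]
      refine Eq.trans ?_ h1
      congr 1
      refine Finset.sum_congr rfl fun z hz => ?_
      rw [Function.update_of_ne (Finset.ne_of_mem_erase hz),
        Function.update_of_ne (Finset.ne_of_mem_erase hz)]
    have hwx := hu _ _ key
    have h0 := rel4 hP c hc (Function.update w x 0) (fun i => by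
      have := key i
      rwa [hwx, zero_mul, add_zero] at this) x (Function.update_self ..)
    intro z
    by_cases hz : z = x
    · rw [hz, hwx]
    · have := h0 z
      rwa [Function.update_of_ne hz] at this)
  refine ⟨i, ?_⟩
  by_cases hx : x0 = x
  · left
    rw [hx, Function.update_self] at h1
    refine ⟨h1, fun z hz => ?_⟩
    have := h2 z (by rwa [hx])
    rwa [Function.update_of_ne hz] at this
  · right
    rw [Function.update_of_ne hx] at h1
    have := h2 x (Ne.symm hx)
    rw [Function.update_self] at this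
    refine ⟨this, x0, hx, h1, fun z hz hz2 => ?_⟩
    have := h2 z hz2
    rwa [Function.update_of_ne hz] at this

/-- the ordered case -/
lemma core4 (hP : Pos v (fun _ => 0) a g) (hC : ¬ CircS v (fun _ => 0))
    (c : Fin 4 → ι) (t : ι) (hc : Function.Injective c) (hct : ∀ x, c x ≠ t)
    (hu : ∀ (y : Fin 4 → ℚ) (u : ℚ), (∀ i, ∑ x, y x * (v (c x) i : ℚ) + u * (v t i : ℚ) = 0) →
      u = 0) (A C B D : Fin 4) (hAC : A ≠ C) (hAB : A ≠ B) (hAD : A ≠ D) (hCB : C ≠ B)
    (hCD : C ≠ D) (hBD : B ≠ D) (i l k n : Fin 4) (hil : i ≠ l) (hik : i ≠ k) (hin : i ≠ n)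
    (hlk : l ≠ k) (hln : l ≠ n) (hkn : k ≠ n) (m : ℕ) (hm : 2 ≤ m)
    (hrel : ∀ j, (v (c C) j : ℚ) = v (c A) j + v (c B) j / m - v (c D) j / m)
    (iA : v (c A) i = 1) (iB : v (c B) i = 0) (iD : v (c D) i = 0) (it : v t i = 0)
    (lA : v (c A) l = 0) (lB : v (c B) l = m) (lD : v (c D) l = 0) (lt : v t l = 0)
    (kA : v (c A) k = 1) (kB : v (c B) k = 0) (kD : v (c D) k = m) (kt : v t k = 0)
    (nt : 0 < v t n) : v t n = 1 ∧ ∀ x, v (c x) n = 0 := by
  classical
  have hm0 : (0 : ℚ) < m := by
    have : 0 < m := by omega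
    exact_mod_cast this
  have hm2 : (2 : ℚ) ≤ m := by exact_mod_cast hm
  have hnt : (0 : ℚ) < v t n := by exact_mod_cast nt
  have hnt1 : (1 : ℚ) ≤ v t n := by exact_mod_cast nt
  have hA0 : (0 : ℚ) ≤ v (c A) n := Nat.cast_nonneg _
  have hB0 : (0 : ℚ) ≤ v (c B) n := Nat.cast_nonneg _
  have hBm : (0 : ℚ) ≤ v (c B) n / m := div_nonneg hB0 hm0.le
  set st : ℚ := ((v (c A) n : ℚ) + v (c B) n / m - 1) / v t n with hst
  by_cases hneg : NegI st
  · -- then `t` is the only point with a nonzero coordinate `n`
    obtain ⟨r, hr, hr2⟩ := hneg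
    have hr1 : (1 : ℚ) ≤ r := by exact_mod_cast hr
    have h1 : (v (c A) n : ℚ) + v (c B) n / m - 1 = -(r : ℚ) * v t n := by
      rw [← hr2, hst]
      field_simp
    have h2 : (1 : ℚ) ≤ (r : ℚ) * v t n := by nlinarith
    have h3 : (r : ℚ) * v t n ≤ 1 := by linarith
    have h4 : (v t n : ℚ) ≤ 1 := by nlinarith
    have h5 : (v (c A) n : ℚ) = 0 := by linarith
    have h6 : (v (c B) n : ℚ) / m = 0 := by linarith
    have h7 : (v (c B) n : ℚ) = 0 := by
      rcases div_eq_zero_iff.1 h6 with h | h
      · exact h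
      · exact absurd h hm0.ne'
    have h8 := hrel n
    rw [h5, h7] at h8
    have hC0 : (0 : ℚ) ≤ v (c C) n := Nat.cast_nonneg _
    have hD0 : (0 : ℚ) ≤ v (c D) n / m := div_nonneg (Nat.cast_nonneg _) hm0.le
    have h9 : (v (c C) n : ℚ) = 0 := by
      rw [zero_div] at h8
      linarith
    have h10 : (v (c D) n : ℚ) / m = 0 := by
      rw [zero_div] at h8
      linarith
    have h11 : (v (c D) n : ℚ) = 0 := by
      rcases div_eq_zero_iff.1 h10 with h | h
      · exact h
      · exact absurd h hm0.ne'
    refine ⟨?_, fun x => ?_⟩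
    · have : v t n ≤ 1 := by exact_mod_cast h4
      omega
    · rcases all4 A C B D hAC hAB hAD hCB hCD hBD x with rfl | rfl | rfl | rfl
      · exact_mod_cast h5
      · exact_mod_cast h9
      · exact_mod_cast h7
      · exact_mod_cast h11
  · exfalso
    apply hC
    have hinj : Function.Injective (![c A, c B, c D, t] : Fin 4 → ι) := by
      have n1 : c A ≠ c B := fun h => hAB (hc h)
      have n2 : c A ≠ c D := fun h => hAD (hc h)
      have n3 : c B ≠ c D := fun h => hBD (hc h)
      have n4 := hct A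
      have n5 := hct B
      have n6 := hct D
      intro s r hsr
      fin_cases s <;> fin_cases r <;> first
        | rfl
        | exact absurd hsr n1
        | exact absurd hsr.symm n1
        | exact absurd hsr n2
        | exact absurd hsr.symm n2
        | exact absurd hsr n3
        | exact absurd hsr.symm n3
        | exact absurd hsr n4
        | exact absurd hsr.symm n4
        | exact absurd hsr n5
        | exact absurd hsr.symm n5
        | exact absurd hsr n6
        | exact absurd hsr.symm n6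
    have hk : ∀ x, (![c A, c B, c D, t] : Fin 4 → ι) x ≠ c C := by
      intro x
      fin_cases x
      · exact fun h => hAC (hc h)
      · exact fun h => hCB (hc h).symm
      · exact fun h => hCD (hc h).symm
      · exact fun h => hct C h.symm
    have hind : ∀ w : Fin 4 → ℚ,
        (∀ i, ∑ x, w x * (v ((![c A, c B, c D, t] : Fin 4 → ι) x) i : ℚ) = 0) →
        ∀ x, w x = 0 := by
      intro w hw
      set w' : Fin 4 → ℚ := fun x => if x = A then w 0 else if x = B then w 1 else
        if x = D then w 2 else 0 with hw'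
      have wA : w' A = w 0 := by simp [hw']
      have wB : w' B = w 1 := by simp [hw', hAB.symm]
      have wD : w' D = w 2 := by simp [hw', hAD.symm, hBD.symm]
      have wC : w' C = 0 := by simp [hw', hAC.symm, hCB, hCD]
      have key : ∀ i, ∑ x, w' x * (v (c x) i : ℚ) + w 3 * (v t i : ℚ) = 0 := by
        intro i
        have h1 := hw i
        rw [Fin.sum_univ_four] at h1
        simp only [Matrix.cons_val] at h1
        rw [sum4 A C B D hAC hAB hAD hCB hCD hBD, wA, wB, wC, wD]
        linarith
      have h3 := hu _ _ key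
      have h4 := rel4 hP c hc w' (fun i => by
        have := key i
        rwa [h3, zero_mul, add_zero] at this) C wC
      intro x
      fin_cases x
      · exact wA.symm.trans (h4 A)
      · exact wB.symm.trans (h4 B)
      · exact wD.symm.trans (h4 D)
      · exact h3
    refine circ_mk (![c A, c B, c D, t] : Fin 4 → ι) hinj (c C) hk hind
      ![-1, -1 / m, 0, st] ![1, 1 / m, -1 / m, 0] ?_ ?_ ?_ {2} ?_ {0} ?_ {2}
      (Finset.Subset.refl _) ?_ (by decide)
    · intro j
      rw [Fin.sum_univ_four]
      simp only [Matrix.cons_val]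
      rcases all4 i l k n hil hik hin hlk hln hkn j with rfl | rfl | rfl | rfl
      · rw [iA, iB, iD, it]
        push_cast
        ring
      · rw [lA, lB, lD, lt]
        push_cast
        field_simp
        ring
      · rw [kA, kB, kD, kt]
        push_cast
        ring
      · rw [hst]
        field_simp
        ring
    · intro j
      rw [Fin.sum_univ_four, hrel j]
      simp only [Matrix.cons_val]
      ring
    · intro x hx
      fin_cases x
      · simp
      · simp [hm0.ne']
      · simp [hm0.ne']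
      · exact absurd hx hneg
    · intro x hx
      rw [Finset.mem_singleton.1 hx]
      show (-1 : ℚ) / m < 0
      exact div_neg_of_neg_of_pos (by norm_num) hm0
    · intro x hx1 hx
      fin_cases x
      · simp
      · exfalso
        refine not_negI ?_ hx1
        show -1 < -1 / (m : ℚ)
        rw [lt_div_iff₀ hm0]
        linarith
      · simp at hx
      · exact absurd hx1 hneg
    · intro x hx
      rw [Finset.mem_singleton.1 hx]
      rfl

end

/-- **Part C4.** -/
theorem stC4 : StC4 := by
  intro ι _ v a g hP hN hC c t hc hct ⟨y, hyne, hrel⟩ hu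
  by_cases hO : ∃ i, v t i = 1 ∧ ∀ x, v (c x) i = 0
  · exact Or.inl hO
  right
  have hy0 : ∀ x, y x ≠ 0 := by
    intro x hx
    obtain ⟨z, hz⟩ := hyne
    exact hz (rel4 hP c hc y hrel x hx z)
  have hB : ∀ x, ∃ i : Fin 4, v t i = 0 ∧ ∃ b : Fin 4, b ≠ x ∧ v (c b) i = 1 ∧
      ∀ z, z ≠ x → z ≠ b → v (c z) i = 0 := by
    intro x
    obtain ⟨i, ⟨h1, h2⟩ | h⟩ := B1_four hP hN c t hc hct hu x
    · exfalso
      refine hO ⟨i, h1, fun z => ?_⟩
      by_cases hz : z = x
      · have h := hrel i
        rw [Finset.sum_eq_single x (fun z _ hz => by rw [h2 z hz]; simp) (by simp)] at h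
        rcases mul_eq_zero.1 h with h | h
        · exact absurd h (hy0 x)
        · rw [hz]
          exact_mod_cast h
      · exact h2 z hz
    · exact ⟨i, h⟩
  choose i hit b hb hb1 hb2 using hB
  have hpair : ∀ x, y x * (v (c x) (i x) : ℚ) + y (b x) = 0 := by
    intro x
    have h := hrel (i x)
    rw [Fintype.sum_eq_add x (b x) (hb x).symm (fun z hz => by
      rw [hb2 x z hz.1 hz.2]
      simp), hb1 x] at h
    push_cast at h
    linarith
  have hne : ∀ x, v (c x) (i x) ≠ 0 := by
    intro x h
    have h1 := hpair x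
    rw [h] at h1
    push_cast at h1
    exact hy0 (b x) (by linarith)
  obtain ⟨n, hn⟩ : ∃ n, 0 < v t n := by
    by_contra hcon
    push Not at hcon
    have h1 := hP.hyp t
    rw [Finset.sum_eq_zero fun i _ => by
      have := hcon i
      have h2 : v t i = 0 := by omega
      rw [h2, mul_zero]] at h1
    exact hP.gpos.ne h1
  have hni : ∀ x, i x ≠ n := by
    intro x h
    have := hit x
    rw [h] at this
    omega
  obtain ⟨x, x', hxx, hix⟩ : ∃ x x', x ≠ x' ∧ i x = i x' := by
    by_contra hcon
    push Not at hcon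
    have h1 : Function.Injective i := fun x x' h => by
      by_contra h2
      exact hcon x x' h2 h
    obtain ⟨x, hx⟩ := Finite.injective_iff_surjective.1 h1 n
    exact hni x hx
  have hbx : b x = x' := by
    by_contra hcon
    refine hne x' ?_
    rw [← hix]
    exact hb2 x x' hxx.symm fun h => hcon h.symm
  have hbx' : b x' = x := by
    by_contra hcon
    refine hne x ?_
    rw [hix]
    exact hb2 x' x hxx fun h => hcon h.symm
  have v1 : v (c x) (i x) = 1 := by
    have := hb1 x'
    rwa [hbx', ← hix] at this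
  have v2 : v (c x') (i x) = 1 := by
    have := hb1 x
    rwa [hbx] at this
  have v3 : ∀ z, z ≠ x → z ≠ x' → v (c z) (i x) = 0 := fun z h1 h2 =>
    hb2 x z h1 (by rwa [hbx])
  have hyx : y x + y x' = 0 := by
    have := hpair x
    rw [v1, hbx] at this
    push_cast at this
    linarith
  -- the ordered pair
  obtain ⟨A, C, hAC, hA, hC', vA, vC, vO, hyAC⟩ : ∃ A C : Fin 4, A ≠ C ∧ 0 < y A ∧ y C < 0 ∧
      v (c A) (i x) = 1 ∧ v (c C) (i x) = 1 ∧ (∀ z, z ≠ A → z ≠ C → v (c z) (i x) = 0) ∧
      y A + y C = 0 := by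
    rcases lt_or_gt_of_ne (hy0 x) with h | h
    · exact ⟨x', x, hxx.symm, by linarith, h, v2, v1, fun z h1 h2 => v3 z h2 h1, by linarith⟩
    · exact ⟨x, x', hxx, h, by linarith, v1, v2, v3, hyx⟩
  obtain ⟨B, hBA, hB⟩ : ∃ B, B ≠ A ∧ 0 < y B := by
    by_contra hcon
    push Not at hcon
    exact no_single' hP c hc y hrel A hA hcon
  obtain ⟨D, hDC, hD⟩ : ∃ D, D ≠ C ∧ y D < 0 := by
    by_contra hcon
    push Not at hcon
    refine no_single' hP c hc (fun x => -y x) (fun j => ?_) C (by simpa using hC') fun z hz => ?_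
    · have := hrel j
      simp only [neg_mul, Finset.sum_neg_distrib, this, neg_zero]
    · have := hcon z hz
      simpa using this
  have hBC : B ≠ C := by
    rintro rfl
    linarith
  have hDA : D ≠ A := by
    rintro rfl
    linarith
  have hBD : B ≠ D := by
    rintro rfl
    linarith
  have hsum := sum_zero' hP c hc y hrel
  rw [sum4 A C B D hAC hBA.symm hDA.symm hBC.symm hDC.symm hBD] at hsum
  have hyBD : y D = -y B := by linarith
  have hyC : y C = -y A := by linarith
  have iB := vO B hBA hBC
  have iD := vO D hDA hDC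
  have hall := all4 A C B D hAC hBA.symm hDA.symm hBC.symm hDC.symm hBD
  -- direction of `B`
  have pB := hpair B
  have hbB : b B = C ∨ b B = D := by
    rcases hall (b B) with h | h | h | h
    · exfalso
      rw [h] at pB
      have : 0 ≤ y B * (v (c B) (i B) : ℚ) := mul_nonneg hB.le (Nat.cast_nonneg _)
      linarith
    · exact Or.inl h
    · exact absurd h (hb B)
    · exact Or.inr h
  rcases hbB with hbB | hbB
  swap
  · -- `O2`
    have lD := hb1 B
    have lA := hb2 B A hBA.symm (by rw [hbB]; exact hDA.symm)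
    have lC := hb2 B C hBC.symm (by rw [hbB]; exact hDC.symm)
    rw [hbB] at lD pB
    have lB : v (c B) (i B) = 1 := by
      have h1 : y B * ((v (c B) (i B) : ℚ) - 1) = 0 := by
        rw [hyBD] at pB
        linarith
      rcases mul_eq_zero.1 h1 with h | h
      · exact absurd h hB.ne'
      · have : (v (c B) (i B) : ℚ) = 1 := by linarith
        exact_mod_cast this
    refine ⟨i x, i B, fun h => ?_, hit x, hit B, fun z => ?_⟩
    · rw [← h] at lA
      omega
    · rcases hall z with rfl | rfl | rfl | rfl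
      · exact Or.inl ⟨vA, lA⟩
      · exact Or.inl ⟨vC, lC⟩
      · exact Or.inr ⟨iB, lB⟩
      · exact Or.inr ⟨iD, lD⟩
  have lC := hb1 B
  have lA := hb2 B A hBA.symm (by rw [hbB]; exact hAC)
  have lD := hb2 B D hBD.symm (by rw [hbB]; exact hDC)
  rw [hbB] at lC pB
  -- direction of `D`
  have pD := hpair D
  have hbD : b D = A ∨ b D = B := by
    rcases hall (b D) with h | h | h | h
    · exact Or.inl h
    · exfalso
      rw [h] at pD
      have : y D * (v (c D) (i D) : ℚ) ≤ 0 :=
        mul_nonpos_of_nonpos_of_nonneg hD.le (Nat.cast_nonneg _)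
      linarith
    · exact Or.inr h
    · exact absurd h (hb D)
  rcases hbD with hbD | hbD
  swap
  · -- `O2`
    have kB := hb1 D
    have kA := hb2 D A hDA.symm (by rw [hbD]; exact hBA.symm)
    have kC := hb2 D C hDC.symm (by rw [hbD]; exact hBC.symm)
    rw [hbD] at kB pD
    have kD : v (c D) (i D) = 1 := by
      have h1 : y B * ((v (c D) (i D) : ℚ) - 1) = 0 := by
        rw [hyBD] at pD
        linarith
      rcases mul_eq_zero.1 h1 with h | h
      · exact absurd h hB.ne'
      · have : (v (c D) (i D) : ℚ) = 1 := by linarith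
        exact_mod_cast this
    refine ⟨i x, i D, fun h => ?_, hit x, hit D, fun z => ?_⟩
    · rw [← h] at kA
      omega
    · rcases hall z with rfl | rfl | rfl | rfl
      · exact Or.inl ⟨vA, kA⟩
      · exact Or.inl ⟨vC, kC⟩
      · exact Or.inr ⟨iB, kB⟩
      · exact Or.inr ⟨iD, kD⟩
  have kA := hb1 D
  have kB := hb2 D B hBD (by rw [hbD]; exact hBA)
  have kC := hb2 D C hDC.symm (by rw [hbD]; exact hAC.symm)
  rw [hbD] at kA pD
  -- the common value
  have hm : v (c D) (i D) = v (c B) (i B) := by
    have h1 : y B * ((v (c D) (i D) : ℚ) - v (c B) (i B)) = 0 := by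
      rw [hyBD] at pD
      rw [hyC] at pB
      linarith
    rcases mul_eq_zero.1 h1 with h | h
    · exact absurd h hB.ne'
    · have : (v (c D) (i D) : ℚ) = v (c B) (i B) := by linarith
      exact_mod_cast this
  have hm0 := hne B
  have hlk : i B ≠ i D := fun h => by
    rw [← h] at kA
    omega
  have hil : i x ≠ i B := fun h => by
    rw [← h] at lA
    omega
  have hik : i x ≠ i D := fun h => by
    rw [← h] at kC
    omega
  rcases Nat.lt_or_ge (v (c B) (i B)) 2 with h2 | h2
  · have h1 : v (c B) (i B) = 1 := by omega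
    refine ⟨i B, i D, hlk, hit B, hit D, fun z => ?_⟩
    rcases hall z with rfl | rfl | rfl | rfl
    · exact Or.inr ⟨lA, kA⟩
    · exact Or.inl ⟨lC, kC⟩
    · exact Or.inl ⟨h1, kB⟩
    · exact Or.inr ⟨lD, by rw [hm, h1]⟩
  · exfalso
    refine hO ⟨n, core4 hP hC c t hc hct hu A C B D hAC hBA.symm hDA.symm hBC.symm hDC.symm hBD
      (i x) (i B) (i D) n hil hik (hni x) hlk (hni B) (hni D) _ h2 ?_ vA iB iD (hit x) lA rfl lD
      (hit B) kA kB hm (hit D) hn⟩
    intro j
    have h := hrel j
    rw [sum4 A C B D hAC hBA.symm hDA.symm hBC.symm hDC.symm hBD, hyC, hyBD] at h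
    have hmq : (v (c B) (i B) : ℚ) ≠ 0 := by exact_mod_cast hm0
    have hyA : y A = y B * (v (c B) (i B) : ℚ) := by
      rw [hyC] at pB
      linarith
    rw [hyA] at h
    have h3 : y B * ((v (c B) (i B) : ℚ) * v (c A) j - (v (c B) (i B) : ℚ) * v (c C) j +
        v (c B) j - v (c D) j) = 0 := by linarith
    rcases mul_eq_zero.1 h3 with h | h
    · exact absurd h hB.ne'
    · field_simp
      linarith

end Pool.Agent.Y231.N4
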