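import Pool.Agent.Y536.N4.Common

set_option autoImplicit false

/-! Part C5: there are no five points in general position. -/

namespace Pool.Agent.Y231.N4

open Pool.Agent.Y536.N4

section
variable {ι : Type} [Fintype ι] {v : ι → Fin 4 → ℕ} {a : Fin 4 → ℕ} {g : ℕ}

/-- the circuit -/
lemma circ5 (q : Fin 5 → ι) (hq : Function.Injective q)
    (y : Fin 5 → ℚ) (hrel : ∀ i, ∑ x, y x * (v (q x) i : ℚ) = 0)
    (huniq : ∀ w : Fin 5 → ℚ, (∀ i, ∑ x, w x * (v (q x) i : ℚ) = 0) → (∃ x, w x = 0) →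
      ∀ x, w x = 0)
    (h0 : 0 < y 0) (h1 : y 1 = -y 0) (h2 : 0 < y 2) (h3 : y 3 < 0) (h4 : y 4 < 0)
    (i l k n : Fin 4) (hil : i ≠ l) (hik : i ≠ k) (hin : i ≠ n) (hlk : l ≠ k) (hln : l ≠ n)
    (hkn : k ≠ n) (β δ ε : ℕ) (hβ : 0 < β) (hδ : 0 < δ) (hε : 0 < ε)
    (i0 : v (q 0) i = 1) (i2 : v (q 2) i = 0) (i3 : v (q 3) i = 0) (i4 : v (q 4) i = 0)
    (l0 : v (q 0) l = 0) (l2 : v (q 2) l = β) (l3 : v (q 3) l = 0) (l4 : v (q 4) l = 0)
    (k0 : v (q 0) k = 1) (k2 : v (q 2) k = 0) (k3 : v (q 3) k = δ) (k4 : v (q 4) k = 0)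
    (n02 : (v (q 0) n = 1 ∧ v (q 2) n = 0) ∨ (v (q 0) n = 0 ∧ v (q 2) n = 1))
    (n3 : v (q 3) n = 0) (n4 : v (q 4) n = ε) : CircS v (fun _ => 0) := by
  have hβ' : (0 : ℚ) < β := by exact_mod_cast hβ
  have hδ' : (0 : ℚ) < δ := by exact_mod_cast hδ
  have hε' : (0 : ℚ) < ε := by exact_mod_cast hε
  have hinj : Function.Injective fun x => q ((![0, 2, 3, 4] : Fin 4 → Fin 5) x) :=
    hq.comp (by decide)
  have hk1 : ∀ x, q ((![0, 2, 3, 4] : Fin 4 → Fin 5) x) ≠ q 1 := by
    have key : ∀ x : Fin 4, (![0, 2, 3, 4] : Fin 4 → Fin 5) x ≠ 1 := by decide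
    exact fun x h => key x (hq h)
  have hind : ∀ w : Fin 4 → ℚ, (∀ i, ∑ x, w x * (v (q ((![0, 2, 3, 4] : Fin 4 → Fin 5) x)) i : ℚ) = 0) →
      ∀ x, w x = 0 := by
    intro w hw
    have h := huniq ![w 0, 0, w 1, w 2, w 3] (fun j => by
      have := hw j
      simp only [Fin.sum_univ_four, Fin.sum_univ_five] at this ⊢
      simpa using this) ⟨1, rfl⟩
    intro x
    fin_cases x
    · exact h 0
    · exact h 2
    · exact h 3
    · exact h 4
  have hc : ∀ j, ∑ x, (![1, y 2 / y 0, y 3 / y 0, y 4 / y 0] : Fin 4 → ℚ) x *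
      (v (q ((![0, 2, 3, 4] : Fin 4 → Fin 5) x)) j : ℚ) = v (q 1) j := by
    intro j
    have h := hrel j
    rw [Fin.sum_univ_five, h1] at h
    simp only [Fin.sum_univ_four]
    have h' : y 0 ≠ 0 := h0.ne'
    simp
    field_simp
    linarith
  -- the value at `E`
  obtain ⟨sE, hsE, hsE2⟩ : ∃ sE : ℚ, -(v (q 0) n : ℚ) - (v (q 2) n : ℚ) / β + sE * ε = -1 ∧
      (sE = 0 ∨ (2 ≤ β ∧ -1 < sE)) := by
    rcases n02 with ⟨h5, h6⟩ | ⟨h5, h6⟩
    · refine ⟨0, ?_, Or.inl rfl⟩
      rw [h5, h6]
      norm_num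
    · rcases Nat.lt_or_ge β 2 with hb | hb
      · have hb1 : β = 1 := by omega
        refine ⟨0, ?_, Or.inl rfl⟩
        rw [h5, h6, hb1]
        norm_num
      · refine ⟨(-1 + 1 / β) / ε, ?_, Or.inr ⟨hb, ?_⟩⟩
        · rw [h5, h6]
          field_simp
          push_cast
          ring
        · rw [lt_div_iff₀ hε']
          have h7 : (1 : ℚ) ≤ ε := by exact_mod_cast hε
          have h8 : 0 < 1 / (β : ℚ) := by positivity
          linarith
  have hs : ∀ j, ∑ x, (![-1, -1 / β, 0, sE] : Fin 4 → ℚ) x *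
      (v (q ((![0, 2, 3, 4] : Fin 4 → Fin 5) x)) j : ℚ) = -1 := by
    intro j
    simp only [Fin.sum_univ_four]
    rcases all4 i l k n hil hik hin hlk hln hkn j with rfl | rfl | rfl | rfl
    · simp [i0, i2, i3, i4]
    · simp [l0, l2, l3, l4, hβ.ne']
    · simp [k0, k2, k3, k4]
    · have : ((-1 : ℚ)) * (v (q 0) j : ℚ) + (-1 / β) * (v (q 2) j : ℚ) + 0 * (v (q 3) j : ℚ) +
          sE * (v (q 4) j : ℚ) = -1 := by
        rw [n4]
        linear_combination hsE
      simpa using this
  have hcneg : ∀ x : Fin 4, (![1, y 2 / y 0, y 3 / y 0, y 4 / y 0] : Fin 4 → ℚ) x ≠ 0 := by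
    intro x
    fin_cases x
    · simp
    · simp [h0.ne', h2.ne']
    · simp [h0.ne', h3.ne]
    · simp [h0.ne', h4.ne]
  have hG2 : (![1, y 2 / y 0, y 3 / y 0, y 4 / y 0] : Fin 4 → ℚ) 2 < 0 := by
    simpa using div_neg_of_neg_of_pos h3 h0
  have hG3 : (![1, y 2 / y 0, y 3 / y 0, y 4 / y 0] : Fin 4 → ℚ) 3 < 0 := by
    simpa using div_neg_of_neg_of_pos h4 h0
  rcases hsE2 with hz | ⟨hb, hz⟩
  · refine circ_mk _ hinj (q 1) hk1 hind _ _ hs hc (fun x _ => hcneg x) {2, 3} ?_ {0, 1} ?_ {2, 3}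
      (Finset.Subset.refl _) ?_ (by decide)
    · intro x hx
      rcases Finset.mem_insert.1 hx with rfl | hx
      · exact hG2
      · rw [Finset.mem_singleton.1 hx]
        exact hG3
    · have key : ∀ x : Fin 4, x ∉ ({2, 3} : Finset (Fin 4)) → x ∈ ({0, 1} : Finset (Fin 4)) := by
        decide
      exact fun x _ hx => key x hx
    · intro x hx
      rcases Finset.mem_insert.1 hx with rfl | hx
      · rfl
      · rw [Finset.mem_singleton.1 hx]
        simpa using hz
  · have hb' : (2 : ℚ) ≤ β := by exact_mod_cast hb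
    refine circ_mk _ hinj (q 1) hk1 hind _ _ hs hc (fun x _ => hcneg x) {2} ?_ {0} ?_ {2}
      (Finset.Subset.refl _) ?_ (by decide)
    · intro x hx
      rw [Finset.mem_singleton.1 hx]
      exact hG2
    · intro x hx1 hx
      fin_cases x
      · simp
      · exfalso
        refine not_negI ?_ hx1
        show -1 < -1 / (β : ℚ)
        rw [lt_div_iff₀ hβ']
        linarith
      · simp at hx
      · exfalso
        exact not_negI hz hx1
    · intro x hx
      rw [Finset.mem_singleton.1 hx]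
      rfl

/-- the directions -/
lemma B1_compl (hN : ¬ NonBS v (fun _ => 0)) (q : Fin 5 → ι) (hq : Function.Injective q)
    (huniq : ∀ w : Fin 5 → ℚ, (∀ i, ∑ x, w x * (v (q x) i : ℚ) = 0) → (∃ x, w x = 0) →
      ∀ x, w x = 0) (x : Fin 5) :
    ∃ (i : Fin 4) (b : Fin 5), b ≠ x ∧ v (q b) i = 1 ∧ ∀ z, z ≠ x → z ≠ b → v (q z) i = 0 := by
  obtain ⟨i, x0, h1, h2⟩ := exists_B1 hN (fun j => q (x.succAbove j))
    (hq.comp Fin.succAbove_right_injective) (fun w hw => by
      have h := huniq (x.insertNth (0 : ℚ) w : Fin 5 → ℚ) (fun i => by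
        rw [Fin.sum_univ_succAbove _ x]
        simp only [Fin.insertNth_apply_same, Fin.insertNth_apply_succAbove, zero_mul, zero_add]
        exact hw i) ⟨x, Fin.insertNth_apply_same ..⟩
      intro j
      have h3 := h (x.succAbove j)
      rwa [Fin.insertNth_apply_succAbove] at h3)
  refine ⟨i, x.succAbove x0, Fin.succAbove_ne _ _, h1, fun z hz hz2 => ?_⟩
  obtain ⟨j, rfl⟩ := Fin.exists_succAbove_eq hz
  exact h2 j fun h => hz2 (by rw [h])

/-- the ordered case -/
lemma core5 (hP : Pos v (fun _ => 0) a g) (hN : ¬ NonBS v (fun _ => 0))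
    (hC : ¬ CircS v (fun _ => 0)) (q : Fin 5 → ι) (hq : Function.Injective q)
    (y : Fin 5 → ℚ) (hrel : ∀ i, ∑ x, y x * (v (q x) i : ℚ) = 0)
    (huniq : ∀ w : Fin 5 → ℚ, (∀ i, ∑ x, w x * (v (q x) i : ℚ) = 0) → (∃ x, w x = 0) →
      ∀ x, w x = 0)
    (h0 : 0 < y 0) (h1 : y 1 < 0) (h2 : 0 < y 2) (h3 : y 3 < 0) (h4 : y 4 < 0)
    (i : Fin 4) (i0 : v (q 0) i = 1) (i1 : v (q 1) i = 1) (i2 : v (q 2) i = 0)
    (i3 : v (q 3) i = 0) (i4 : v (q 4) i = 0) : False := by
  have hsum := sum_zero' hP q hq y hrel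
  rw [Fin.sum_univ_five] at hsum
  have hr : ∀ j, y 0 * (v (q 0) j : ℚ) + y 1 * (v (q 1) j : ℚ) + y 2 * (v (q 2) j : ℚ) +
      y 3 * (v (q 3) j : ℚ) + y 4 * (v (q 4) j : ℚ) = 0 := fun j => by
    have h := hrel j
    rwa [Fin.sum_univ_five] at h
  have h01 : y 1 = -y 0 := by
    have h := hr i
    rw [i0, i1, i2, i3, i4] at h
    push_cast at h
    linarith
  -- direction of `B`
  obtain ⟨l, b, hb, hb1, hb2⟩ := B1_compl hN q hq huniq 2
  obtain ⟨l0, l1, l3, l4, hβ⟩ : v (q 0) l = 0 ∧ v (q 1) l = 1 ∧ v (q 3) l = 0 ∧ v (q 4) l = 0 ∧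
      0 < v (q 2) l := by
    have hnn : (0 : ℚ) ≤ v (q 2) l := Nat.cast_nonneg _
    have hsmall : ∀ t : ℚ, t < 0 → -t < y 2 → y 2 * (v (q 2) l : ℚ) + t = 0 → False := by
      intro t ht1 ht2 h
      have h5 : (v (q 2) l : ℚ) < 1 := by
        by_contra hcon
        push Not at hcon
        have := mul_le_mul_of_nonneg_left hcon h2.le
        linarith
      have h6 : v (q 2) l = 0 := by
        have : v (q 2) l < 1 := by exact_mod_cast h5
        omega
      rw [h6] at h
      push_cast at h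
      linarith
    have h := hr l
    fin_cases b
    · exfalso
      have e1 := hb2 1 (by decide) (by decide)
      have e3 := hb2 3 (by decide) (by decide)
      have e4 := hb2 4 (by decide) (by decide)
      have e0 : v (q 0) l = 1 := hb1
      rw [e0, e1, e3, e4] at h
      push_cast at h
      have := mul_nonneg h2.le hnn
      linarith
    · have e0 := hb2 0 (by decide) (by decide)
      have e3 := hb2 3 (by decide) (by decide)
      have e4 := hb2 4 (by decide) (by decide)
      have e1 : v (q 1) l = 1 := hb1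
      refine ⟨e0, e1, e3, e4, ?_⟩
      rcases Nat.eq_zero_or_pos (v (q 2) l) with h5 | h5
      · exfalso
        rw [e0, e1, e3, e4, h5] at h
        push_cast at h
        linarith
      · exact h5
    · exact absurd rfl hb
    · exfalso
      have e0 := hb2 0 (by decide) (by decide)
      have e1 := hb2 1 (by decide) (by decide)
      have e4 := hb2 4 (by decide) (by decide)
      have e3 : v (q 3) l = 1 := hb1
      rw [e0, e1, e3, e4] at h
      push_cast at h
      exact hsmall (y 3) h3 (by linarith) (by linarith)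
    · exfalso
      have e0 := hb2 0 (by decide) (by decide)
      have e1 := hb2 1 (by decide) (by decide)
      have e3 := hb2 3 (by decide) (by decide)
      have e4 : v (q 4) l = 1 := hb1
      rw [e0, e1, e3, e4] at h
      push_cast at h
      exact hsmall (y 4) h4 (by linarith) (by linarith)
  clear hb hb1 hb2
  -- direction of `D`
  obtain ⟨k, b', hb, hb1, hb2⟩ := B1_compl hN q hq huniq 3
  obtain ⟨k1, k4, k02, hδ⟩ : v (q 1) k = 0 ∧ v (q 4) k = 0 ∧
      ((v (q 0) k = 1 ∧ v (q 2) k = 0) ∨ (v (q 0) k = 0 ∧ v (q 2) k = 1)) ∧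
      0 < v (q 3) k := by
    have hnn : (0 : ℚ) ≤ v (q 3) k := Nat.cast_nonneg _
    have hnp : y 3 * (v (q 3) k : ℚ) ≤ 0 := mul_nonpos_of_nonpos_of_nonneg h3.le hnn
    have h := hr k
    have hpos : ∀ t : ℚ, 0 < t → y 3 * (v (q 3) k : ℚ) + t = 0 → 0 < v (q 3) k := by
      intro t ht h'
      rcases Nat.eq_zero_or_pos (v (q 3) k) with h5 | h5
      · exfalso
        rw [h5] at h'
        push_cast at h'
        linarith
      · exact h5
    fin_cases b'
    · have e1 := hb2 1 (by decide) (by decide)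
      have e2 := hb2 2 (by decide) (by decide)
      have e4 := hb2 4 (by decide) (by decide)
      have e0 : v (q 0) k = 1 := hb1
      rw [e0, e1, e2, e4] at h
      push_cast at h
      exact ⟨e1, e4, Or.inl ⟨e0, e2⟩, hpos (y 0) h0 (by linarith)⟩
    · exfalso
      have e0 := hb2 0 (by decide) (by decide)
      have e2 := hb2 2 (by decide) (by decide)
      have e4 := hb2 4 (by decide) (by decide)
      have e1 : v (q 1) k = 1 := hb1
      rw [e0, e1, e2, e4] at h
      push_cast at h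
      linarith
    · have e0 := hb2 0 (by decide) (by decide)
      have e1 := hb2 1 (by decide) (by decide)
      have e4 := hb2 4 (by decide) (by decide)
      have e2 : v (q 2) k = 1 := hb1
      rw [e0, e1, e2, e4] at h
      push_cast at h
      exact ⟨e1, e4, Or.inr ⟨e0, e2⟩, hpos (y 2) h2 (by linarith)⟩
    · exact absurd rfl hb
    · exfalso
      have e0 := hb2 0 (by decide) (by decide)
      have e1 := hb2 1 (by decide) (by decide)
      have e2 := hb2 2 (by decide) (by decide)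
      have e4 : v (q 4) k = 1 := hb1
      rw [e0, e1, e2, e4] at h
      push_cast at h
      linarith
  clear hb hb1 hb2
  -- direction of `E`
  obtain ⟨n, b'', hb, hb1, hb2⟩ := B1_compl hN q hq huniq 4
  obtain ⟨n1, n3, n02, hε⟩ : v (q 1) n = 0 ∧ v (q 3) n = 0 ∧
      ((v (q 0) n = 1 ∧ v (q 2) n = 0) ∨ (v (q 0) n = 0 ∧ v (q 2) n = 1)) ∧
      0 < v (q 4) n := by
    have hnn : (0 : ℚ) ≤ v (q 4) n := Nat.cast_nonneg _
    have hnp : y 4 * (v (q 4) n : ℚ) ≤ 0 := mul_nonpos_of_nonpos_of_nonneg h4.le hnn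
    have h := hr n
    have hpos : ∀ t : ℚ, 0 < t → y 4 * (v (q 4) n : ℚ) + t = 0 → 0 < v (q 4) n := by
      intro t ht h'
      rcases Nat.eq_zero_or_pos (v (q 4) n) with h5 | h5
      · exfalso
        rw [h5] at h'
        push_cast at h'
        linarith
      · exact h5
    fin_cases b''
    · have e1 := hb2 1 (by decide) (by decide)
      have e2 := hb2 2 (by decide) (by decide)
      have e3 := hb2 3 (by decide) (by decide)
      have e0 : v (q 0) n = 1 := hb1
      rw [e0, e1, e2, e3] at h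
      push_cast at h
      exact ⟨e1, e3, Or.inl ⟨e0, e2⟩, hpos (y 0) h0 (by linarith)⟩
    · exfalso
      have e0 := hb2 0 (by decide) (by decide)
      have e2 := hb2 2 (by decide) (by decide)
      have e3 := hb2 3 (by decide) (by decide)
      have e1 : v (q 1) n = 1 := hb1
      rw [e0, e1, e2, e3] at h
      push_cast at h
      linarith
    · have e0 := hb2 0 (by decide) (by decide)
      have e1 := hb2 1 (by decide) (by decide)
      have e3 := hb2 3 (by decide) (by decide)
      have e2 : v (q 2) n = 1 := hb1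
      rw [e0, e1, e2, e3] at h
      push_cast at h
      exact ⟨e1, e3, Or.inr ⟨e0, e2⟩, hpos (y 2) h2 (by linarith)⟩
    · exfalso
      have e0 := hb2 0 (by decide) (by decide)
      have e1 := hb2 1 (by decide) (by decide)
      have e2 := hb2 2 (by decide) (by decide)
      have e3 : v (q 3) n = 1 := hb1
      rw [e0, e1, e2, e3] at h
      push_cast at h
      linarith
    · exact absurd rfl hb
  clear hb hb1 hb2
  -- the directions are different
  have hil : i ≠ l := by
    rintro rfl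
    omega
  have hik : i ≠ k := by
    rintro rfl
    omega
  have hin : i ≠ n := by
    rintro rfl
    omega
  have hlk : l ≠ k := by
    rintro rfl
    omega
  have hln : l ≠ n := by
    rintro rfl
    omega
  have hkn : k ≠ n := by
    rintro rfl
    omega
  rcases k02 with ⟨k0, k2⟩ | ⟨k0, k2⟩
  · exact hC (circ5 q hq y hrel huniq h0 h01 h2 h3 h4 i l k n hil hik hin hlk hln hkn _ _ _ hβ hδ
      hε i0 i2 i3 i4 l0 rfl l3 l4 k0 k2 rfl k4 n02 n3 rfl)
  · rcases n02 with ⟨n0, n2⟩ | ⟨n0, n2⟩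
    · -- exchange `D` and `E`
      have hτ : Function.Injective (![0, 1, 2, 4, 3] : Fin 5 → Fin 5) := by decide
      refine hC (circ5 (fun x => q ((![0, 1, 2, 4, 3] : Fin 5 → Fin 5) x)) (hq.comp hτ)
        (fun x => y ((![0, 1, 2, 4, 3] : Fin 5 → Fin 5) x)) ?_ ?_ h0 h01 h2 h4 h3 i l n k hil hin
        hik hln hlk hkn.symm _ _ _ hβ hε hδ i0 i2 i4 i3 l0 rfl l4 l3 n0 n2 rfl n3
        (Or.inr ⟨k0, k2⟩) k4 rfl)
      · intro j
        have h := hrel j
        rw [Fin.sum_univ_five] at h ⊢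
        simp only [Matrix.cons_val]
        linarith
      · intro w hw hw0
        have h := huniq ![w 0, w 1, w 2, w 4, w 3] (fun j => by
          have := hw j
          rw [Fin.sum_univ_five] at this ⊢
          simp only [Matrix.cons_val] at this ⊢
          linarith) (by
          obtain ⟨x, hx⟩ := hw0
          fin_cases x
          · exact ⟨0, hx⟩
          · exact ⟨1, hx⟩
          · exact ⟨2, hx⟩
          · exact ⟨4, hx⟩
          · exact ⟨3, hx⟩)
        intro x
        fin_cases x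
        · exact h 0
        · exact h 1
        · exact h 2
        · exact h 4
        · exact h 3
    · have e0 := hyp4 hP i l k n hil hik hin hlk hln hkn (q 0)
      have e1 := hyp4 hP i l k n hil hik hin hlk hln hkn (q 1)
      rw [i0, l0, k0, n0] at e0
      rw [i1, l1, k1, n1] at e1
      push_cast at e0 e1
      have h5 : (0 : ℚ) < a l := by exact_mod_cast hP.apos l
      linarith

/-- renumbering -/
lemma use5 (hP : Pos v (fun _ => 0) a g) (hN : ¬ NonBS v (fun _ => 0))
    (hC : ¬ CircS v (fun _ => 0)) (p : Fin 5 → ι) (hp : Function.Injective p)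
    (y : Fin 5 → ℚ) (hrel : ∀ i, ∑ x, y x * (v (p x) i : ℚ) = 0)
    (huniq : ∀ w : Fin 5 → ℚ, (∀ i, ∑ x, w x * (v (p x) i : ℚ) = 0) → (∃ x, w x = 0) →
      ∀ x, w x = 0) (A C B D E : Fin 5)
    (hτ : Function.Injective (![A, C, B, D, E] : Fin 5 → Fin 5))
    (h0 : 0 < y A) (h1 : y C < 0) (h2 : 0 < y B) (h3 : y D < 0) (h4 : y E < 0)
    (i : Fin 4) (i0 : v (p A) i = 1) (i1 : v (p C) i = 1) (i2 : v (p B) i = 0)
    (i3 : v (p D) i = 0) (i4 : v (p E) i = 0) : False := by
  have hb : Function.Bijective (![A, C, B, D, E] : Fin 5 → Fin 5) :=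
    Finite.injective_iff_bijective.1 hτ
  refine core5 hP hN hC (fun x => p ((![A, C, B, D, E] : Fin 5 → Fin 5) x)) (hp.comp hτ)
    (fun x => y ((![A, C, B, D, E] : Fin 5 → Fin 5) x)) (fun j => ?_) ?_ h0 h1 h2 h3 h4 i i0 i1 i2
    i3 i4
  · rw [hb.sum_comp fun x => y x * (v (p x) j : ℚ)]
    exact hrel j
  · intro w hw hw0
    set e := Equiv.ofBijective _ hb with he
    have h := huniq (fun x => w (e.symm x)) (fun j => by
      rw [← hb.sum_comp fun x => w (e.symm x) * (v (p x) j : ℚ)]
      refine Eq.trans (Finset.sum_congr rfl fun x _ => ?_) (hw j)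
      have : e.symm ((![A, C, B, D, E] : Fin 5 → Fin 5) x) = x := e.symm_apply_apply x
      rw [this]) (by
      obtain ⟨x, hx⟩ := hw0
      exact ⟨e x, by rw [e.symm_apply_apply]; exact hx⟩)
    intro x
    have h5 := h (e x)
    rwa [e.symm_apply_apply] at h5

end

/-- **Part C5.** -/
theorem stC5 : StC5 := by
  intro ι _ v a g hP hN hC p hp ⟨y, hy0, hrel⟩ huniq
  choose i b hb hb1 hb2 using B1_compl hN p hp huniq
  have hpair : ∀ x, y x * (v (p x) (i x) : ℚ) + y (b x) = 0 := by
    intro x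
    have h := hrel (i x)
    rw [Fintype.sum_eq_add x (b x) (hb x).symm (fun z hz => by
      rw [hb2 x z hz.1 hz.2]
      simp), hb1 x] at h
    push_cast at h
    linarith
  have hne : ∀ x, v (p x) (i x) ≠ 0 := by
    intro x h
    have h1 := hpair x
    rw [h] at h1
    push_cast at h1
    exact hy0 (b x) (by linarith)
  obtain ⟨x, x', hxx, hix⟩ := Fintype.exists_ne_map_eq_of_card_lt i (by simp)
  have hbx : b x = x' := by
    by_contra hcon
    refine hne x' ?_
    rw [← hix]
    exact hb2 x x' hxx.symm fun h => hcon h.symm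
  have hbx' : b x' = x := by
    by_contra hcon
    refine hne x ?_
    rw [hix]
    exact hb2 x' x hxx fun h => hcon h.symm
  have v1 : v (p x) (i x) = 1 := by
    have := hb1 x'
    rwa [hbx', ← hix] at this
  have v2 : v (p x') (i x) = 1 := by
    have := hb1 x
    rwa [hbx] at this
  have v3 : ∀ z, z ≠ x → z ≠ x' → v (p z) (i x) = 0 := fun z h1 h2 =>
    hb2 x z h1 (by rwa [hbx])
  have hyx : y x + y x' = 0 := by
    have := hpair x
    rw [v1, hbx] at this
    push_cast at this
    linarith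
  -- the ordered pair
  obtain ⟨A, C, hAC, hA, hC', vA, vC, vO⟩ : ∃ A C : Fin 5, A ≠ C ∧ 0 < y A ∧ y C < 0 ∧
      v (p A) (i x) = 1 ∧ v (p C) (i x) = 1 ∧ ∀ z, z ≠ A → z ≠ C → v (p z) (i x) = 0 := by
    rcases lt_or_gt_of_ne (hy0 x) with h | h
    · exact ⟨x', x, hxx.symm, by linarith, h, v2, v1, fun z h1 h2 => v3 z h2 h1⟩
    · exact ⟨x, x', hxx, h, by linarith, v1, v2, v3⟩
  obtain ⟨B, hBA, hB⟩ : ∃ B, B ≠ A ∧ 0 < y B := by
    by_contra hcon
    push Not at hcon
    exact no_single' hP p hp y hrel A hA hcon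
  obtain ⟨D, hDC, hD⟩ : ∃ D, D ≠ C ∧ y D < 0 := by
    by_contra hcon
    push Not at hcon
    refine no_single' hP p hp (fun x => -y x) (fun j => ?_) C (by simpa using hC') fun z hz => ?_
    · have := hrel j
      simp only [neg_mul, Finset.sum_neg_distrib, this, neg_zero]
    · have := hcon z hz
      simpa using this
  have hBC : B ≠ C := by
    rintro rfl
    linarith
  have hDA : D ≠ A := by
    rintro rfl
    linarith
  have hBD : B ≠ D := by
    rintro rfl
    linarith
  obtain ⟨E, hEA, hEC, hEB, hED⟩ : ∃ E : Fin 5, E ≠ A ∧ E ≠ C ∧ E ≠ B ∧ E ≠ D := by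
    by_contra hcon
    push Not at hcon
    have h1 : (Finset.univ : Finset (Fin 5)) ⊆ {A, C, B, D} := by
      intro z _
      simp only [Finset.mem_insert, Finset.mem_singleton]
      by_contra h2
      push Not at h2
      exact h2.2.2.2 (hcon z h2.1 h2.2.1 h2.2.2.1)
    have h2 := Finset.card_le_card h1
    have h3 : ({A, C, B, D} : Finset (Fin 5)).card ≤ 4 := Finset.card_le_four
    rw [Finset.card_univ, Fintype.card_fin] at h2
    omega
  have inj : ∀ {A C B D E : Fin 5}, A ≠ C → B ≠ A → B ≠ C → D ≠ A → D ≠ C → B ≠ D → E ≠ A →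
      E ≠ C → E ≠ B → E ≠ D → Function.Injective (![A, C, B, D, E] : Fin 5 → Fin 5) := by
    intro A C B D E h1 h2 h3 h4 h5 h6 h7 h8 h9 h10 s t hst
    fin_cases s <;> fin_cases t <;> first
      | rfl
      | exact absurd hst h1
      | exact absurd hst.symm h1
      | exact absurd hst h2
      | exact absurd hst.symm h2
      | exact absurd hst h3
      | exact absurd hst.symm h3
      | exact absurd hst h4
      | exact absurd hst.symm h4
      | exact absurd hst h5
      | exact absurd hst.symm h5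
      | exact absurd hst h6
      | exact absurd hst.symm h6
      | exact absurd hst h7
      | exact absurd hst.symm h7
      | exact absurd hst h8
      | exact absurd hst.symm h8
      | exact absurd hst h9
      | exact absurd hst.symm h9
      | exact absurd hst h10
      | exact absurd hst.symm h10
  rcases lt_or_gt_of_ne (hy0 E) with h | h
  · exact use5 hP hN hC p hp y hrel huniq A C B D E
      (inj hAC hBA hBC hDA hDC hBD hEA hEC hEB hED) hA hC' hB hD h (i x) vA vC (vO B hBA hBC)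
      (vO D hDA hDC) (vO E hEA hEC)
  · refine use5 hP hN hC p hp (fun x => -y x) (fun j => ?_) huniq C A D B E
      (inj hAC.symm hDC hDA hBC hBA hBD.symm hEC hEA hED hEB) ?_ ?_ ?_ ?_ ?_ (i x) vC vA
      (vO D hDA hDC) (vO B hBA hBC) (vO E hEA hEC)
    · have := hrel j
      simp only [neg_mul, Finset.sum_neg_distrib, this, neg_zero]
    · simpa using hC'
    · simpa using hA
    · simpa using hD
    · simpa using hB
    · simpa using h

end Pool.Agent.Y231.N4
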