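import Pool.Agent.Y231.N4.Defs

/-!
# Part CA: compact facets in four variables
-/

set_option autoImplicit false

namespace Pool.Agent.Y231.N4.CAux

variable {ι : Type} [Fintype ι] {v : ι → Fin 4 → ℕ} {a : Fin 4 → ℕ} {g : ℕ}

/-- a point which is a convex combination of two others -/
theorem cvx (hpos : Pos v (fun _ => 0) a g) {p q r : ι} (hpq : p ≠ q) (hpr : p ≠ r)
    {s t : ℚ} (hs : 0 ≤ s) (ht : 0 ≤ t) (hst : s + t = 1)
    (h : ∀ i, (v p i : ℚ) = s * (v q i : ℚ) + t * (v r i : ℚ)) : False := by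
  classical
  apply hpos.vert p
  refine ⟨fun k => (if k = q then s else 0) + (if k = r then t else 0), ?_, ?_, ?_, ?_, ?_⟩
  · intro k
    by_cases h1 : k = q <;> by_cases h2 : k = r <;> simp only [h1, h2, if_true, if_false] <;>
      positivity
  · simp [hpq, hpr]
  · simp [Finset.sum_add_distrib, hst]
  · intro i
    rw [h i]
    simp [add_mul, Finset.sum_add_distrib]
  · simp

theorem f1 (hpos : Pos v (fun _ => 0) a g) {p q r : ι} {x y z : ℚ}
    (h : ∀ i, x * (v p i : ℚ) + y * (v q i : ℚ) + z * (v r i : ℚ) = 0) : x + y + z = 0 := by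
  have hp : ∑ i, (a i : ℚ) * (v p i : ℚ) = g := by exact_mod_cast hpos.hyp p
  have hq : ∑ i, (a i : ℚ) * (v q i : ℚ) = g := by exact_mod_cast hpos.hyp q
  have hr : ∑ i, (a i : ℚ) * (v r i : ℚ) = g := by exact_mod_cast hpos.hyp r
  have h1 : ∑ i, (a i : ℚ) * (x * (v p i : ℚ) + y * (v q i : ℚ) + z * (v r i : ℚ)) = 0 := by
    apply Finset.sum_eq_zero
    intro i _
    rw [h i, mul_zero]
  have h2 : ∑ i, (a i : ℚ) * (x * (v p i : ℚ) + y * (v q i : ℚ) + z * (v r i : ℚ)) =
      x * ∑ i, (a i : ℚ) * (v p i : ℚ) + y * ∑ i, (a i : ℚ) * (v q i : ℚ) +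
        z * ∑ i, (a i : ℚ) * (v r i : ℚ) := by
    rw [Finset.mul_sum, Finset.mul_sum, Finset.mul_sum, ← Finset.sum_add_distrib,
      ← Finset.sum_add_distrib]
    apply Finset.sum_congr rfl
    intro i _
    ring
  rw [h1, hp, hq, hr] at h2
  have hg : (g : ℚ) ≠ 0 := by exact_mod_cast hpos.gpos.ne'
  have h3 : (x + y + z) * (g : ℚ) = 0 := by linarith
  exact (mul_eq_zero.mp h3).resolve_right hg

theorem no3a (hpos : Pos v (fun _ => 0) a g) {p q r : ι} (hpq : p ≠ q) (hpr : p ≠ r)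
    {x y z : ℚ} (h : ∀ i, x * (v p i : ℚ) + y * (v q i : ℚ) + z * (v r i : ℚ) = 0)
    (hx : x ≠ 0) (h1 : y * x ≤ 0) (h2 : z * x ≤ 0) : False := by
  have hs := f1 hpos h
  have hx2 : 0 < x * x := mul_self_pos.mpr hx
  refine cvx hpos hpq hpr (s := -y / x) (t := -z / x) ?_ ?_ ?_ ?_
  · have : -y / x = -(y * x) / (x * x) := by field_simp
    rw [this]
    exact div_nonneg (by linarith) hx2.le
  · have : -z / x = -(z * x) / (x * x) := by field_simp
    rw [this]
    exact div_nonneg (by linarith) hx2.le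
  · field_simp
    linarith
  · intro i
    have := h i
    field_simp
    linarith

/-- **(F2)** three distinct points satisfy no nontrivial relation -/
theorem no3 (hpos : Pos v (fun _ => 0) a g) {p q r : ι} (hpq : p ≠ q) (hpr : p ≠ r) (hqr : q ≠ r)
    {x y z : ℚ} (h : ∀ i, x * (v p i : ℚ) + y * (v q i : ℚ) + z * (v r i : ℚ) = 0) :
    x = 0 ∧ y = 0 ∧ z = 0 := by
  have hs := f1 hpos h
  have hA : ¬ (x ≠ 0 ∧ y * x ≤ 0 ∧ z * x ≤ 0) := fun hh =>
    no3a hpos hpq hpr h hh.1 hh.2.1 hh.2.2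
  have hB : ¬ (y ≠ 0 ∧ x * y ≤ 0 ∧ z * y ≤ 0) := fun hh =>
    no3a hpos (p := q) (q := p) (r := r) (x := y) (y := x) (z := z) hpq.symm hqr
      (fun i => by have := h i; linarith) hh.1 hh.2.1 hh.2.2
  have hC : ¬ (z ≠ 0 ∧ x * z ≤ 0 ∧ y * z ≤ 0) := fun hh =>
    no3a hpos (p := r) (q := p) (r := q) (x := z) (y := x) (z := y) hpr.symm hqr.symm
      (fun i => by have := h i; linarith) hh.1 hh.2.1 hh.2.2
  have hx0 : x = 0 := by
    by_contra hx
    have hxx : 0 < x * x := mul_self_pos.mpr hx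
    rcases lt_or_ge 0 (y * x) with h1 | h1
    · have hy : y ≠ 0 := by
        rintro rfl
        simp at h1
      have hyy : 0 < y * y := mul_self_pos.mpr hy
      have e1 : z * x = -(x * x) - y * x := by linear_combination x * hs
      have e2 : z * y = -(y * y) - y * x := by linear_combination y * hs
      have hz : z ≠ 0 := by
        rintro rfl
        rw [zero_mul] at e1
        linarith
      exact hC ⟨hz, by linarith [mul_comm x z], by linarith [mul_comm y z]⟩
    · rcases lt_or_ge 0 (z * x) with h2 | h2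
      · have hz : z ≠ 0 := by
          rintro rfl
          simp at h2
        have hzz : 0 < z * z := mul_self_pos.mpr hz
        have e1 : y * x = -(x * x) - z * x := by linear_combination x * hs
        have e2 : z * y = -(z * z) - z * x := by linear_combination z * hs
        have hy : y ≠ 0 := by
          rintro rfl
          rw [zero_mul] at e1
          linarith
        exact hB ⟨hy, by linarith [mul_comm x y], by linarith⟩
      · exact hA ⟨hx, h1, h2⟩
  have hy0 : y = 0 := by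
    by_contra hy
    have e2 : z * y = -(y * y) := by
      rw [hx0] at hs
      linear_combination y * hs
    have hyy : 0 < y * y := mul_self_pos.mpr hy
    exact hB ⟨hy, by rw [hx0, zero_mul], by linarith⟩
  refine ⟨hx0, hy0, ?_⟩
  rw [hx0, hy0] at hs
  linarith

/-- equal points are equal -/
theorem eq_of (hpos : Pos v (fun _ => 0) a g) {p q : ι} (h : ∀ i, v p i = v q i) : p = q := by
  classical
  by_contra hne
  apply hpos.vert p
  refine ⟨fun k => if k = q then 1 else 0, ?_, ?_, ?_, ?_, ?_⟩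
  · intro k
    by_cases h1 : k = q <;> simp [h1]
  · simp [hne]
  · simp
  · intro i
    rw [h i]
    simp
  · simp

/-- points with three equal coordinates are equal -/
theorem eq3 (hpos : Pos v (fun _ => 0) a g) {p q : ι} (n : Fin 4)
    (h : ∀ i, i ≠ n → v p i = v q i) : p = q := by
  apply eq_of hpos
  intro i
  by_cases hi : i = n
  · subst hi
    have h1 := hpos.hyp p
    have h2 := hpos.hyp q
    rw [← Finset.add_sum_erase _ _ (Finset.mem_univ i)] at h1 h2
    have h3 : ∑ x ∈ Finset.univ.erase i, a x * v p x = ∑ x ∈ Finset.univ.erase i, a x * v q x := by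
      apply Finset.sum_congr rfl
      intro x hx
      rw [h x (Finset.ne_of_mem_erase hx)]
    have h4 : a i * v p i = a i * v q i := by omega
    exact Nat.eq_of_mul_eq_mul_left (hpos.apos i) h4
  · exact h i hi

theorem others : ∀ i l : Fin 4, i ≠ l → ∃ m n : Fin 4, m ≠ n ∧ i ≠ m ∧ i ≠ n ∧ l ≠ m ∧ l ≠ n ∧
    ∀ j, j = i ∨ j = l ∨ j = m ∨ j = n := by decide

/-- three distinct points do not have two fixed coordinates -/
theorem col (hpos : Pos v (fun _ => 0) a g) {p q r : ι} (hpq : p ≠ q) (hpr : p ≠ r) (hqr : q ≠ r)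
    {i l : Fin 4} (hil : i ≠ l) (h1 : v p i = v q i) (h2 : v p i = v r i) (h3 : v p l = v q l)
    (h4 : v p l = v r l) : False := by
  obtain ⟨m, n, hmn, him, hin, hlm, hln, hall⟩ := others i l hil
  have hsum : ∀ j : ι, (a i : ℚ) * v j i + (a l : ℚ) * v j l + (a m : ℚ) * v j m +
      (a n : ℚ) * v j n = g := by
    intro j
    have h5 : ∑ x, (a x : ℚ) * (v j x : ℚ) = g := by exact_mod_cast hpos.hyp j
    have h6 : (Finset.univ : Finset (Fin 4)) = {i, l, m, n} := by
      ext x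
      simp [hall x]
    rw [h6, Finset.sum_insert (by simp [hil, him, hin]), Finset.sum_insert (by simp [hlm, hln]),
      Finset.sum_insert (by simp [hmn]), Finset.sum_singleton] at h5
    linarith
  have hp := hsum p
  have hq := hsum q
  have hr := hsum r
  have e1 : (v p i : ℚ) = v q i := by exact_mod_cast h1
  have e2 : (v p i : ℚ) = v r i := by exact_mod_cast h2
  have e3 : (v p l : ℚ) = v q l := by exact_mod_cast h3
  have e4 : (v p l : ℚ) = v r l := by exact_mod_cast h4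
  rw [← e1, ← e3] at hq
  rw [← e2, ← e4] at hr
  have han : (a n : ℚ) ≠ 0 := by exact_mod_cast (hpos.apos n).ne'
  set Dq : ℚ := (v q m : ℚ) - v p m with hDq
  set Dr : ℚ := (v r m : ℚ) - v p m with hDr
  have hEq : (a n : ℚ) * ((v q n : ℚ) - v p n) = -(a m : ℚ) * Dq := by rw [hDq]; linarith
  have hEr : (a n : ℚ) * ((v r n : ℚ) - v p n) = -(a m : ℚ) * Dr := by rw [hDr]; linarith
  have hrel : ∀ j, (Dq - Dr) * (v p j : ℚ) + Dr * (v q j : ℚ) + (-Dq) * (v r j : ℚ) = 0 := by
    intro j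
    rcases hall j with hj | hj | hj | hj
    · rw [hj, ← e1, ← e2]; ring
    · rw [hj, ← e3, ← e4]; ring
    · rw [hj, hDq, hDr]; ring
    · rw [hj]
      apply mul_left_cancel₀ han
      linear_combination Dr * hEq - Dq * hEr
  obtain ⟨-, h6, h7⟩ := no3 hpos hpq hpr hqr hrel
  have h8 : Dq = 0 := by linarith
  apply hpq
  apply eq3 hpos n
  intro j hj
  rcases hall j with hj' | hj' | hj' | hj'
  · rw [hj', h1]
  · rw [hj', h3]
  · rw [hj']
    have : (v p m : ℚ) = v q m := by rw [hDq] at h8; linarith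
    exact_mod_cast this
  · exact absurd hj' hj

/-- `j` lies in the span of the points `c` -/
def InS (v : ι → Fin 4 → ℕ) (c : Fin 4 → ι) (j : ι) : Prop :=
  ∃ y : Fin 4 → ℚ, ∀ i, (v j i : ℚ) = ∑ x, y x * (v (c x) i : ℚ)

omit [Fintype ι] in
theorem inS_self (c : Fin 4 → ι) (x : Fin 4) : InS v c (c x) := by
  refine ⟨fun x' => if x' = x then 1 else 0, fun i => ?_⟩
  simp

/-- the conclusion of `StC4` for one family of points -/
def C4c (v : ι → Fin 4 → ℕ) : Prop := ∀ (c : Fin 4 → ι) (t : ι), Function.Injective c →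
  (∀ x, c x ≠ t) →
  (∃ y : Fin 4 → ℚ, (∃ x, y x ≠ 0) ∧ ∀ i, ∑ x, y x * (v (c x) i : ℚ) = 0) →
  (∀ (y : Fin 4 → ℚ) (u : ℚ), (∀ i, ∑ x, y x * (v (c x) i : ℚ) + u * (v t i : ℚ) = 0) → u = 0) →
  (∃ i, v t i = 1 ∧ ∀ x, v (c x) i = 0) ∨
  ∃ i l, i ≠ l ∧ v t i = 0 ∧ v t l = 0 ∧
    ∀ x, (v (c x) i = 1 ∧ v (c x) l = 0) ∨ (v (c x) i = 0 ∧ v (c x) l = 1)

/-- the conclusion of `StC5` for one family of points -/
def C5c (v : ι → Fin 4 → ℕ) : Prop := ∀ (p : Fin 5 → ι), Function.Injective p →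
  (∃ y : Fin 5 → ℚ, (∀ x, y x ≠ 0) ∧ ∀ i, ∑ x, y x * (v (p x) i : ℚ) = 0) →
  (∀ y : Fin 5 → ℚ, (∀ i, ∑ x, y x * (v (p x) i : ℚ) = 0) → (∃ x, y x = 0) → ∀ x, y x = 0) →
  False

/-- the wanted conclusion -/
def Goal (v : ι → Fin 4 → ℕ) : Prop := (∃ i, B1on v Finset.univ i) ∨ ∃ i l, B2on v i l

omit [Fintype ι] in
/-- alternative for a point outside the span -/
theorem alt (h4 : C4c v) {c : Fin 4 → ι} (hc : Function.Injective c)
    (hrel : ∃ y : Fin 4 → ℚ, (∃ x, y x ≠ 0) ∧ ∀ i, ∑ x, y x * (v (c x) i : ℚ) = 0) {t : ι}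
    (ht : ¬ InS v c t) : (∃ i, v t i = 1 ∧ ∀ x, v (c x) i = 0) ∨
    ∃ i l, i ≠ l ∧ v t i = 0 ∧ v t l = 0 ∧
      ∀ x, (v (c x) i = 1 ∧ v (c x) l = 0) ∨ (v (c x) i = 0 ∧ v (c x) l = 1) := by
  apply h4 c t hc _ hrel
  · intro y u h
    by_contra hu
    apply ht
    refine ⟨fun x => -y x / u, fun i => ?_⟩
    have h1 := h i
    have h2 : ∑ x, -y x / u * (v (c x) i : ℚ) = -(∑ x, y x * (v (c x) i : ℚ)) / u := by
      rw [← Finset.sum_neg_distrib, Finset.sum_div]
      apply Finset.sum_congr rfl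
      intro x _
      ring
    rw [h2, eq_div_iff hu]
    linarith
  · intro x hx
    exact ht (hx ▸ inS_self c x)

/-- two of three points have the same type -/
theorem pig (P : Fin 4 → Prop) : ∃ x y : Fin 4, x ≠ y ∧ (P x ↔ P y) := by
  by_cases h0 : P 0 <;> by_cases h1 : P 1 <;> by_cases h2 : P 2
  · exact ⟨0, 1, by decide, by tauto⟩
  · exact ⟨0, 1, by decide, by tauto⟩
  · exact ⟨0, 2, by decide, by tauto⟩
  · exact ⟨1, 2, by decide, by tauto⟩
  · exact ⟨1, 2, by decide, by tauto⟩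
  · exact ⟨0, 2, by decide, by tauto⟩
  · exact ⟨0, 1, by decide, by tauto⟩
  · exact ⟨0, 1, by decide, by tauto⟩

/-- if no three points have the same type then exactly two have each type -/
theorem pig2 (P : Fin 4 → Prop)
    (h : ∀ x y z : Fin 4, x ≠ y → x ≠ z → y ≠ z → ¬ (P x ∧ P y ∧ P z) ∧ ¬ (¬ P x ∧ ¬ P y ∧ ¬ P z)) :
    (∃ x y : Fin 4, x ≠ y ∧ P x ∧ P y) ∧ ∃ x y : Fin 4, x ≠ y ∧ ¬ P x ∧ ¬ P y := by
  have h012 := h 0 1 2 (by decide) (by decide) (by decide)
  have h013 := h 0 1 3 (by decide) (by decide) (by decide)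
  have h023 := h 0 2 3 (by decide) (by decide) (by decide)
  have h123 := h 1 2 3 (by decide) (by decide) (by decide)
  by_cases h0 : P 0 <;> by_cases h1 : P 1 <;> by_cases h2 : P 2 <;> by_cases h3 : P 3
  · exact absurd ⟨h0, h1, h2⟩ h012.1
  · exact absurd ⟨h0, h1, h2⟩ h012.1
  · exact absurd ⟨h0, h1, h3⟩ h013.1
  · exact ⟨⟨0, 1, by decide, h0, h1⟩, ⟨2, 3, by decide, h2, h3⟩⟩
  · exact absurd ⟨h0, h2, h3⟩ h023.1
  · exact ⟨⟨0, 2, by decide, h0, h2⟩, ⟨1, 3, by decide, h1, h3⟩⟩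
  · exact ⟨⟨0, 3, by decide, h0, h3⟩, ⟨1, 2, by decide, h1, h2⟩⟩
  · exact absurd ⟨h1, h2, h3⟩ h123.2
  · exact absurd ⟨h1, h2, h3⟩ h123.1
  · exact ⟨⟨1, 2, by decide, h1, h2⟩, ⟨0, 3, by decide, h0, h3⟩⟩
  · exact ⟨⟨1, 3, by decide, h1, h3⟩, ⟨0, 2, by decide, h0, h2⟩⟩
  · exact absurd ⟨h0, h2, h3⟩ h023.2
  · exact ⟨⟨2, 3, by decide, h2, h3⟩, ⟨0, 1, by decide, h0, h1⟩⟩
  · exact absurd ⟨h0, h1, h3⟩ h013.2
  · exact absurd ⟨h0, h1, h2⟩ h012.2
  · exact absurd ⟨h0, h1, h2⟩ h012.2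

theorem sum4 {i l m n : Fin 4} (hil : i ≠ l) (him : i ≠ m) (hin : i ≠ n) (hlm : l ≠ m)
    (hln : l ≠ n) (hmn : m ≠ n) (f : Fin 4 → ℕ) : ∑ x, f x = f i + f l + f m + f n := by
  have hall : ∀ i l m n : Fin 4, i ≠ l → i ≠ m → i ≠ n → l ≠ m → l ≠ n → m ≠ n →
      ∀ x : Fin 4, x = i ∨ x = l ∨ x = m ∨ x = n := by decide
  have h6 : (Finset.univ : Finset (Fin 4)) = {i, l, m, n} := by
    ext x
    simp [hall i l m n hil him hin hlm hln hmn x]
  rw [h6, Finset.sum_insert (by simp [hil, him, hin]), Finset.sum_insert (by simp [hlm, hln]),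
    Finset.sum_insert (by simp [hmn]), Finset.sum_singleton]
  ring

/-- points with three equal coordinates are equal -/
theorem eq3' (hpos : Pos v (fun _ => 0) a g) {p q : ι} {i l m : Fin 4} (hil : i ≠ l) (him : i ≠ m)
    (hlm : l ≠ m) (h1 : v p i = v q i) (h2 : v p l = v q l) (h3 : v p m = v q m) : p = q := by
  have key : ∀ i l m : Fin 4, i ≠ l → i ≠ m → l ≠ m →
      ∃ n : Fin 4, ∀ x, x ≠ n → x = i ∨ x = l ∨ x = m := by decide
  obtain ⟨n, hn⟩ := key i l m hil him hlm
  apply eq3 hpos n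
  intro x hx
  rcases hn x hx with rfl | rfl | rfl
  · exact h1
  · exact h2
  · exact h3

/-- all points have the coordinates `(1, 0)` or `(0, 1)` in the directions `i`, `l` -/
def Uv (v : ι → Fin 4 → ℕ) (c : Fin 4 → ι) (i l : Fin 4) : Prop :=
  ∀ x, (v (c x) i = 1 ∧ v (c x) l = 0) ∨ (v (c x) i = 0 ∧ v (c x) l = 1)

omit [Fintype ι] in
theorem Uv.symm {c : Fin 4 → ι} {i l : Fin 4} (h : Uv v c i l) : Uv v c l i := by
  intro x
  rcases h x with h1 | h1
  · exact Or.inr ⟨h1.2, h1.1⟩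
  · exact Or.inl ⟨h1.2, h1.1⟩

theorem zero_uv (hpos : Pos v (fun _ => 0) a g) {c : Fin 4 → ι} (hc : Function.Injective c)
    {i i' l' : Fin 4} (h0 : ∀ x, v (c x) i = 0) (hil : i' ≠ l') (hu : Uv v c i' l') : False := by
  have c01 : c 0 ≠ c 1 := hc.ne (by decide)
  have c02 : c 0 ≠ c 2 := hc.ne (by decide)
  have c12 : c 1 ≠ c 2 := hc.ne (by decide)
  by_cases h1 : i = i'
  · subst h1
    have h2 : ∀ x, v (c x) l' = 1 := by
      intro x
      rcases hu x with h | h
      · have := h0 x; omega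
      · exact h.2
    exact col hpos c01 c02 c12 hil (by rw [h0, h0]) (by rw [h0, h0]) (by rw [h2, h2])
      (by rw [h2, h2])
  by_cases h1' : i = l'
  · subst h1'
    have h2 : ∀ x, v (c x) i' = 1 := by
      intro x
      rcases hu x with h | h
      · exact h.1
      · have := h0 x; omega
    exact col hpos c01 c02 c12 hil (by rw [h2, h2]) (by rw [h2, h2]) (by rw [h0, h0])
      (by rw [h0, h0])
  · obtain ⟨x, y, hxy, hP⟩ := pig (fun x => v (c x) i' = 1)
    apply hxy
    apply hc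
    apply eq3' hpos h1 h1' hil
    · rw [h0, h0]
    · rcases hu x with h | h <;> rcases hu y with h' | h' <;> omega
    · rcases hu x with h | h <;> rcases hu y with h' | h' <;> omega

theorem uv_pig (hpos : Pos v (fun _ => 0) a g) {c : Fin 4 → ι} (hc : Function.Injective c)
    {i l : Fin 4} (hil : i ≠ l) (hu : Uv v c i l) :
    (∃ x y : Fin 4, x ≠ y ∧ (v (c x) i = 1 ∧ v (c x) l = 0) ∧ (v (c y) i = 1 ∧ v (c y) l = 0)) ∧
    ∃ x y : Fin 4, x ≠ y ∧ (v (c x) i = 0 ∧ v (c x) l = 1) ∧ (v (c y) i = 0 ∧ v (c y) l = 1) := by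
  obtain ⟨⟨x, y, h1, h2, h3⟩, x', y', h4, h5, h6⟩ := pig2 (fun x => v (c x) i = 1) (by
    intro x y z hxy hxz hyz
    constructor
    · rintro ⟨h1, h2, h3⟩
      refine col hpos (hc.ne hxy) (hc.ne hxz) (hc.ne hyz) hil (by rw [h1, h2]) (by rw [h1, h3])
        ?_ ?_
      · rcases hu x with h | h <;> rcases hu y with h' | h' <;> omega
      · rcases hu x with h | h <;> rcases hu z with h' | h' <;> omega
    · rintro ⟨h1, h2, h3⟩
      refine col hpos (hc.ne hxy) (hc.ne hxz) (hc.ne hyz) hil ?_ ?_ ?_ ?_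
      · rcases hu x with h | h <;> rcases hu y with h' | h' <;> omega
      · rcases hu x with h | h <;> rcases hu z with h' | h' <;> omega
      · rcases hu x with h | h <;> rcases hu y with h' | h' <;> omega
      · rcases hu x with h | h <;> rcases hu z with h' | h' <;> omega)
  have hux := hu x
  have huy := hu y
  have hux' := hu x'
  have huy' := hu y'
  refine ⟨⟨x, y, h1, ⟨h2, by omega⟩, ⟨h3, by omega⟩⟩, x', y', h4, ⟨by omega, by omega⟩,
    ⟨by omega, by omega⟩⟩

/-- the two directions with `i' = i` -/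
theorem uv_share (hpos : Pos v (fun _ => 0) a g) {c : Fin 4 → ι} (hc : Function.Injective c)
    {i l l' : Fin 4} (hil : i ≠ l) (hil' : i ≠ l') (hu : Uv v c i l) (hu' : Uv v c i l') :
    l = l' := by
  by_contra hne
  obtain ⟨⟨x, y, h1, h2, h3⟩, -⟩ := uv_pig hpos hc hil hu
  have hx := hu' x
  have hy := hu' y
  apply h1
  apply hc
  apply eq3' hpos hil hil' hne <;> omega

/-- two pairs of directions -/
theorem uv_two (hpos : Pos v (fun _ => 0) a g) (hsum : ∑ i, a i ≠ 2 * g) {c : Fin 4 → ι}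
    (hc : Function.Injective c) {i l i' l' : Fin 4} (hil : i ≠ l) (hil' : i' ≠ l')
    (hu : Uv v c i l) (hu' : Uv v c i' l') : (i' = i ∧ l' = l) ∨ (i' = l ∧ l' = i) := by
  by_cases h1 : i' = i
  · subst h1
    exact Or.inl ⟨rfl, (uv_share hpos hc hil hil' hu hu').symm⟩
  by_cases h2 : i' = l
  · subst h2
    exact Or.inr ⟨rfl, (uv_share hpos hc hil.symm hil' hu.symm hu').symm⟩
  by_cases h3 : l' = i
  · subst h3
    exact absurd (uv_share hpos hc hil hil'.symm hu hu'.symm).symm h2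
  by_cases h4 : l' = l
  · subst h4
    exact absurd (uv_share hpos hc hil.symm hil'.symm hu.symm hu'.symm).symm h1
  exfalso
  have hs : ∀ f : Fin 4 → ℕ, ∑ x, f x = f i + f l + f i' + f l' :=
    sum4 hil (Ne.symm h1) (Ne.symm h3) (Ne.symm h2) (Ne.symm h4) hil'
  obtain ⟨⟨x, y, k1, k2, k3⟩, x', y', k4, k5, k6⟩ := uv_pig hpos hc hil hu
  -- one of `x`, `y` is `(1, 0)` in the second pair
  have hA : ∃ z, v (c z) i = 1 ∧ v (c z) l = 0 ∧ v (c z) i' = 1 ∧ v (c z) l' = 0 := by
    rcases hu' x with h | h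
    · exact ⟨x, k2.1, k2.2, h.1, h.2⟩
    · rcases hu' y with h' | h'
      · exact ⟨y, k3.1, k3.2, h'.1, h'.2⟩
      · exfalso
        apply k1
        apply hc
        apply eq3' hpos hil (Ne.symm h1) (Ne.symm h2) <;> omega
  have hB : ∃ z, v (c z) i = 0 ∧ v (c z) l = 1 ∧ v (c z) i' = 0 ∧ v (c z) l' = 1 := by
    rcases hu' x' with h | h
    · rcases hu' y' with h' | h'
      · exfalso
        apply k4
        apply hc
        apply eq3' hpos hil (Ne.symm h1) (Ne.symm h2) <;> omega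
      · exact ⟨y', k6.1, k6.2, h'.1, h'.2⟩
    · exact ⟨x', k5.1, k5.2, h.1, h.2⟩
  obtain ⟨z, z1, z2, z3, z4⟩ := hA
  obtain ⟨z', w1, w2, w3, w4⟩ := hB
  have e1 := hpos.hyp (c z)
  have e2 := hpos.hyp (c z')
  rw [hs, z1, z2, z3, z4] at e1
  rw [hs, w1, w2, w3, w4] at e2
  apply hsum
  rw [hs]
  omega

/-- **the dichotomy** for a circuit -/
theorem dich (hpos : Pos v (fun _ => 0) a g) (h4 : C4c v) (hsum : ∑ i, a i ≠ 2 * g)
    {c : Fin 4 → ι} (hc : Function.Injective c)
    (hrel : ∃ y : Fin 4 → ℚ, (∃ x, y x ≠ 0) ∧ ∀ i, ∑ x, y x * (v (c x) i : ℚ) = 0)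
    (hT : ∃ t, ¬ InS v c t) :
    Goal v ∨ ∃ i, (∀ x, v (c x) i = 0) ∧ (∀ t, ¬ InS v c t → v t i = 1) ∧
      ∃ t t', t ≠ t' ∧ ¬ InS v c t ∧ ¬ InS v c t' := by
  classical
  have c01 : c 0 ≠ c 1 := hc.ne (by decide)
  have c02 : c 0 ≠ c 2 := hc.ne (by decide)
  have c12 : c 1 ≠ c 2 := hc.ne (by decide)
  by_cases hO : ∃ t i, ¬ InS v c t ∧ v t i = 1 ∧ ∀ x, v (c x) i = 0
  · obtain ⟨t0, i, ht0, hti, hci⟩ := hO
    have hall : ∀ t, ¬ InS v c t → v t i = 1 := by
      intro t ht
      rcases alt h4 hc hrel ht with ⟨i', h1, h2⟩ | ⟨i', l', h1, -, -, h2⟩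
      · by_cases hii : i' = i
        · rw [← hii]; exact h1
        · exfalso
          exact col hpos c01 c02 c12 hii (by rw [h2, h2]) (by rw [h2, h2]) (by rw [hci, hci])
            (by rw [hci, hci])
      · exact (zero_uv hpos hc hci h1 h2).elim
    by_cases hex : ∃ t', t0 ≠ t' ∧ ¬ InS v c t'
    · obtain ⟨t', h1, h2⟩ := hex
      exact Or.inr ⟨i, hci, hall, t0, t', h1, ht0, h2⟩
    · left; left
      refine ⟨i, t0, Finset.mem_univ _, hti, fun j _ hj => ?_⟩
      have hjs : InS v c j := by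
        by_contra h
        exact hex ⟨j, hj.symm, h⟩
      obtain ⟨y, hy⟩ := hjs
      have h1 := hy i
      have h2 : ∑ x, y x * (v (c x) i : ℚ) = 0 := by
        apply Finset.sum_eq_zero
        intro x _
        rw [hci x]
        simp
      rw [h2] at h1
      exact_mod_cast h1
  · left; right
    have hO2 : ∀ t, ¬ InS v c t → ∃ i l, i ≠ l ∧ v t i = 0 ∧ v t l = 0 ∧ Uv v c i l := by
      intro t ht
      rcases alt h4 hc hrel ht with ⟨i', h1, h2⟩ | h
      · exact absurd ⟨t, i', ht, h1, h2⟩ hO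
      · exact h
    obtain ⟨t0, ht0⟩ := hT
    obtain ⟨i, l, hil, hti, htl, hu⟩ := hO2 t0 ht0
    refine ⟨i, l, hil, fun j => ?_⟩
    by_cases hj : InS v c j
    · obtain ⟨y, hy⟩ := hj
      have hp : ∀ j, ∑ i, (a i : ℚ) * (v j i : ℚ) = g := fun j => by exact_mod_cast hpos.hyp j
      have hg : (g : ℚ) ≠ 0 := by exact_mod_cast hpos.gpos.ne'
      have h1 : ∑ x, y x = 1 := by
        have h2 := hp j
        have h3 : ∑ i, (a i : ℚ) * (v j i : ℚ) = ∑ x, y x * ∑ i, (a i : ℚ) * (v (c x) i : ℚ) := by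
          simp only [hy, Finset.mul_sum]
          rw [Finset.sum_comm]
          apply Finset.sum_congr rfl
          intro x _
          apply Finset.sum_congr rfl
          intro i _
          ring
        rw [h3] at h2
        simp only [hp] at h2
        rw [← Finset.sum_mul] at h2
        exact mul_right_cancel₀ hg (by rw [h2, one_mul])
      have h2 : (v j i : ℚ) + (v j l : ℚ) = 1 := by
        rw [hy i, hy l, ← Finset.sum_add_distrib, ← h1]
        apply Finset.sum_congr rfl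
        intro x _
        rcases hu x with ⟨h3, h4⟩ | ⟨h3, h4⟩
        · rw [h3, h4]; simp
        · rw [h3, h4]; simp
      have h3 : v j i + v j l = 1 := by exact_mod_cast h2
      omega
    · left
      obtain ⟨i', l', hil', hti', htl', hu'⟩ := hO2 j hj
      rcases uv_two hpos hsum hc hil hil' hu hu' with ⟨h1, h2⟩ | ⟨h1, h2⟩
      · rw [← h1, ← h2]; exact ⟨hti', htl'⟩
      · rw [← h1, ← h2]; exact ⟨htl', hti'⟩

/-- relations between `t, t', p, q, r` when the coordinates `i` are `1, 1, 0, 0, 0` -/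
theorem slab_rel (hpos : Pos v (fun _ => 0) a g) {t t' p q r : ι} (hpq : p ≠ q) (hpr : p ≠ r)
    (hqr : q ≠ r) {i : Fin 4} (ht : v t i = 1) (ht' : v t' i = 1) (hp : v p i = 0)
    (hq : v q i = 0) (hr : v r i = 0) {z0 z1 z2 z3 z4 : ℚ}
    (h : ∀ k, z0 * (v t k : ℚ) + z1 * (v t' k : ℚ) + z2 * (v p k : ℚ) + z3 * (v q k : ℚ) +
      z4 * (v r k : ℚ) = 0) :
    z1 = -z0 ∧ (z0 = 0 → z2 = 0 ∧ z3 = 0 ∧ z4 = 0) ∧ z2 + z3 + z4 = 0 := by
  have h1 : z1 = -z0 := by
    have := h i
    rw [ht, ht', hp, hq, hr] at this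
    push_cast at this
    linarith
  refine ⟨h1, ?_, ?_⟩
  · intro h0
    rw [h0, neg_zero] at h1
    apply no3 hpos hpq hpr hqr
    intro k
    have := h k
    rw [h0, h1] at this
    linarith
  · have hs : ∀ j, ∑ i, (a i : ℚ) * (v j i : ℚ) = g := fun j => by exact_mod_cast hpos.hyp j
    have hg : (g : ℚ) ≠ 0 := by exact_mod_cast hpos.gpos.ne'
    have h2 : ∑ k, (a k : ℚ) * (z0 * (v t k : ℚ) + z1 * (v t' k : ℚ) + z2 * (v p k : ℚ) +
        z3 * (v q k : ℚ) + z4 * (v r k : ℚ)) = 0 := by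
      apply Finset.sum_eq_zero
      intro k _
      rw [h k, mul_zero]
    have h3 : ∑ k, (a k : ℚ) * (z0 * (v t k : ℚ) + z1 * (v t' k : ℚ) + z2 * (v p k : ℚ) +
        z3 * (v q k : ℚ) + z4 * (v r k : ℚ)) = z0 * ∑ k, (a k : ℚ) * (v t k : ℚ) +
        z1 * ∑ k, (a k : ℚ) * (v t' k : ℚ) + z2 * ∑ k, (a k : ℚ) * (v p k : ℚ) +
        z3 * ∑ k, (a k : ℚ) * (v q k : ℚ) + z4 * ∑ k, (a k : ℚ) * (v r k : ℚ) := by
      simp only [Finset.mul_sum, ← Finset.sum_add_distrib]
      apply Finset.sum_congr rfl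
      intro k _
      ring
    rw [h2] at h3
    simp only [hs] at h3
    have h4 : (z2 + z3 + z4) * (g : ℚ) = 0 := by
      rw [h1] at h3
      linarith
    exact (mul_eq_zero.mp h4).resolve_right hg

omit [Fintype ι] in
/-- five vectors in dimension four are dependent -/
theorem dep5 (v : ι → Fin 4 → ℕ) (p : Fin 5 → ι) :
    ∃ y : Fin 5 → ℚ, (∀ i, ∑ x, y x * (v (p x) i : ℚ) = 0) ∧ ∃ x, y x ≠ 0 := by
  have hli : ¬ LinearIndependent ℚ (fun x : Fin 5 => fun i : Fin 4 => (v (p x) i : ℚ)) := by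
    intro h
    have := h.fintype_card_le_finrank
    simp at this
  rw [Fintype.not_linearIndependent_iff] at hli
  obtain ⟨y, h1, h2⟩ := hli
  refine ⟨y, fun i => ?_, h2⟩
  have := congrFun h1 i
  simpa [Finset.sum_apply] using this

theorem par (hpos : Pos v (fun _ => 0) a g) (h5 : C5c v) {t t' p q r : ι} (htt : t ≠ t')
    (hpq : p ≠ q) (hpr : p ≠ r)
    (hqr : q ≠ r) {i : Fin 4} (ht : v t i = 1) (ht' : v t' i = 1) (hp : v p i = 0)
    (hq : v q i = 0) (hr : v r i = 0) :
    ∃ μ : ℚ, μ ≠ 0 ∧ ((∀ k, (v t k : ℚ) - v t' k = μ * ((v p k : ℚ) - v q k)) ∨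
      (∀ k, (v t k : ℚ) - v t' k = μ * ((v p k : ℚ) - v r k)) ∨
      (∀ k, (v t k : ℚ) - v t' k = μ * ((v q k : ℚ) - v r k))) := by
  have htp : t ≠ p := by rintro rfl; omega
  have htq : t ≠ q := by rintro rfl; omega
  have htr : t ≠ r := by rintro rfl; omega
  have htp' : t' ≠ p := by rintro rfl; omega
  have htq' : t' ≠ q := by rintro rfl; omega
  have htr' : t' ≠ r := by rintro rfl; omega
  set P : Fin 5 → ι := ![t, t', p, q, r] with hP
  have hexp : ∀ (y : Fin 5 → ℚ) (k : Fin 4), ∑ x, y x * (v (P x) k : ℚ) =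
      y 0 * (v t k : ℚ) + y 1 * (v t' k : ℚ) + y 2 * (v p k : ℚ) + y 3 * (v q k : ℚ) +
      y 4 * (v r k : ℚ) := by
    intro y k
    rw [Fin.sum_univ_five]
    simp [hP]
  obtain ⟨y, hy, x0, hx0⟩ := dep5 v P
  have hy' := fun k => (hexp y k).symm.trans (hy k)
  obtain ⟨e1, e2, e3⟩ := slab_rel hpos hpq hpr hqr ht ht' hp hq hr hy'
  have hy0 : y 0 ≠ 0 := by
    intro h0
    obtain ⟨f2, f3, f4⟩ := e2 h0
    apply hx0
    rw [h0, neg_zero] at e1
    fin_cases x0
    · exact h0
    · exact e1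
    · exact f2
    · exact f3
    · exact f4
  have hy1 : y 1 ≠ 0 := by rw [e1]; exact neg_ne_zero.mpr hy0
  have hz : y 2 = 0 ∨ y 3 = 0 ∨ y 4 = 0 := by
    by_contra hcon
    push Not at hcon
    obtain ⟨g2, g3, g4⟩ := hcon
    have hyall : ∀ x, y x ≠ 0 := by
      intro x
      fin_cases x
      · exact hy0
      · exact hy1
      · exact g2
      · exact g3
      · exact g4
    refine h5 P ?_ ⟨y, hyall, hy⟩ ?_
    · intro x x' hxx
      fin_cases x <;> fin_cases x' <;> simp [hP] at hxx ⊢ <;>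
        first
          | exact htt hxx
          | exact htt hxx.symm
          | exact htp hxx
          | exact htp hxx.symm
          | exact htq hxx
          | exact htq hxx.symm
          | exact htr hxx
          | exact htr hxx.symm
          | exact htp' hxx
          | exact htp' hxx.symm
          | exact htq' hxx
          | exact htq' hxx.symm
          | exact htr' hxx
          | exact htr' hxx.symm
          | exact hpq hxx
          | exact hpq hxx.symm
          | exact hpr hxx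
          | exact hpr hxx.symm
          | exact hqr hxx
          | exact hqr hxx.symm
    · intro z hz ⟨x1, hx1⟩
      set κ : ℚ := z 0 / y 0 with hκ
      have hz' : ∀ k, (z 0 - κ * y 0) * (v t k : ℚ) + (z 1 - κ * y 1) * (v t' k : ℚ) +
          (z 2 - κ * y 2) * (v p k : ℚ) + (z 3 - κ * y 3) * (v q k : ℚ) +
          (z 4 - κ * y 4) * (v r k : ℚ) = 0 := by
        intro k
        have k1 := hy' k
        have k2 := (hexp z k).symm.trans (hz k)
        linear_combination k2 - κ * k1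
      obtain ⟨f1, f2, -⟩ := slab_rel hpos hpq hpr hqr ht ht' hp hq hr hz'
      have f0 : z 0 - κ * y 0 = 0 := by
        rw [hκ]
        field_simp
        ring
      obtain ⟨f3, f4, f5⟩ := f2 f0
      rw [f0, neg_zero] at f1
      have hall : ∀ x, z x = κ * y x := by
        intro x
        fin_cases x
        · exact sub_eq_zero.mp f0
        · exact sub_eq_zero.mp f1
        · exact sub_eq_zero.mp f3
        · exact sub_eq_zero.mp f4
        · exact sub_eq_zero.mp f5
      have hκ0 : κ = 0 := by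
        have := hall x1
        rw [hx1] at this
        exact (mul_eq_zero.mp this.symm).resolve_right (hyall x1)
      intro x
      rw [hall x, hκ0, zero_mul]
  have hne : ∀ μ : ℚ, ∀ s s' : ι, (∀ k, (v t k : ℚ) - v t' k = μ * ((v s k : ℚ) - v s' k)) →
      μ ≠ 0 := by
    intro μ s s' h h0
    apply htt
    apply eq_of hpos
    intro k
    have := h k
    rw [h0, zero_mul, sub_eq_zero] at this
    exact_mod_cast this
  rcases hz with h0 | h0 | h0
  · have key : ∀ k, (v t k : ℚ) - v t' k = (-(y 3) / y 0) * ((v q k : ℚ) - v r k) := by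
      intro k
      have k1 := hy' k
      have e4 : y 4 = -y 3 := by linarith
      rw [e1, h0, e4] at k1
      field_simp
      linarith
    exact ⟨_, hne _ _ _ key, Or.inr (Or.inr key)⟩
  · have key : ∀ k, (v t k : ℚ) - v t' k = (-(y 2) / y 0) * ((v p k : ℚ) - v r k) := by
      intro k
      have k1 := hy' k
      have e4 : y 4 = -y 2 := by linarith
      rw [e1, h0, e4] at k1
      field_simp
      linarith
    exact ⟨_, hne _ _ _ key, Or.inr (Or.inl key)⟩
  · have key : ∀ k, (v t k : ℚ) - v t' k = (-(y 2) / y 0) * ((v p k : ℚ) - v q k) := by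
      intro k
      have k1 := hy' k
      have e4 : y 3 = -y 2 := by linarith
      rw [e1, h0, e4] at k1
      field_simp
      linarith
    exact ⟨_, hne _ _ _ key, Or.inl key⟩

/-- the circuit `t, t', c u, c w` -/
theorem cir (hpos : Pos v (fun _ => 0) a g) (h4 : C4c v) (hsum : ∑ i, a i ≠ 2 * g)
    {c : Fin 4 → ι} (hc : Function.Injective c) {t t' : ι} (htt : t ≠ t') (ht : ¬ InS v c t)
    (ht' : ¬ InS v c t') {u w m : Fin 4} (huw : u ≠ w) (hum : u ≠ m) (hwm : w ≠ m) {μ : ℚ}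
    (hμ : ∀ k, (v t k : ℚ) - v t' k = μ * ((v (c u) k : ℚ) - v (c w) k)) (hg : ¬ Goal v) :
    ∃ i, v t i = 0 ∧ v t' i = 0 ∧ v (c u) i = 0 ∧ v (c w) i = 0 ∧
      ∀ r, u ≠ r → w ≠ r → v (c r) i = 1 := by
  have hne : ∀ x, t ≠ c x := fun x h => ht (h ▸ inS_self c x)
  have hne' : ∀ x, t' ≠ c x := fun x h => ht' (h ▸ inS_self c x)
  set c1 : Fin 4 → ι := ![t, t', c u, c w] with hc1
  have hexp : ∀ (y : Fin 4 → ℚ) (k : Fin 4), ∑ x, y x * (v (c1 x) k : ℚ) =
      y 0 * (v t k : ℚ) + y 1 * (v t' k : ℚ) + y 2 * (v (c u) k : ℚ) + y 3 * (v (c w) k : ℚ) := by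
    intro y k
    rw [Fin.sum_univ_four]
    simp [hc1]
  have hinj : Function.Injective c1 := by
    intro x x' hxx
    have hcuw : c u ≠ c w := hc.ne huw
    fin_cases x <;> fin_cases x' <;> simp [hc1] at hxx ⊢ <;>
      first
        | exact htt hxx
        | exact htt hxx.symm
        | exact hne _ hxx
        | exact hne _ hxx.symm
        | exact hne' _ hxx
        | exact hne' _ hxx.symm
        | exact hcuw hxx
        | exact hcuw hxx.symm
  have hrel : ∃ y : Fin 4 → ℚ, (∃ x, y x ≠ 0) ∧ ∀ i, ∑ x, y x * (v (c1 x) i : ℚ) = 0 := by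
    refine ⟨![1, -1, -μ, μ], ⟨0, by simp⟩, fun i => ?_⟩
    rw [hexp]
    have := hμ i
    simp only [Matrix.cons_val_zero, Matrix.cons_val_one, Matrix.cons_val]
    linarith
  have hout : ∀ r, u ≠ r → w ≠ r → ¬ InS v c1 (c r) := by
    rintro r hur hwr ⟨y, hy⟩
    have hy' := fun k => (hy k).trans (hexp y k)
    have h1 : ∀ k, (v (c r) k : ℚ) = (y 0 + y 1) * (v t k : ℚ) + (y 2 - y 1 * μ) * (v (c u) k : ℚ)
        + (y 3 + y 1 * μ) * (v (c w) k : ℚ) := by
      intro k
      rw [hy' k]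
      have := hμ k
      linear_combination (-y 1) * this
    by_cases h0 : y 0 + y 1 = 0
    · have h2 := no3 hpos (hc.ne hur).symm (hc.ne hwr).symm (hc.ne huw)
        (x := -1) (y := y 2 - y 1 * μ) (z := y 3 + y 1 * μ) (by
          intro k
          have := h1 k
          rw [h0] at this
          linarith)
      have := h2.1
      norm_num at this
    · apply ht
      refine ⟨fun x => (if x = r then 1 / (y 0 + y 1) else 0) +
        (if x = u then -(y 2 - y 1 * μ) / (y 0 + y 1) else 0) +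
        (if x = w then -(y 3 + y 1 * μ) / (y 0 + y 1) else 0), fun k => ?_⟩
      simp only [add_mul, ite_mul, zero_mul, Finset.sum_add_distrib, Finset.sum_ite_eq',
        Finset.mem_univ, if_true]
      have := h1 k
      field_simp
      linarith
  rcases dich hpos h4 hsum hinj hrel ⟨c m, hout m hum hwm⟩ with h | ⟨i, h1, h2, -⟩
  · exact absurd h hg
  · refine ⟨i, ?_, ?_, ?_, ?_, fun r hur hwr => h2 _ (hout r hur hwr)⟩
    · simpa [hc1] using h1 0
    · simpa [hc1] using h1 1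
    · simpa [hc1] using h1 2
    · simpa [hc1] using h1 3

theorem slab (hpos : Pos v (fun _ => 0) a g) (h4 : C4c v) (h5 : C5c v) (hsum : ∑ i, a i ≠ 2 * g)
    {c : Fin 4 → ι} (hc : Function.Injective c)
    (hs : ∃ i, (∀ x, v (c x) i = 0) ∧ (∀ t, ¬ InS v c t → v t i = 1) ∧
      ∃ t t', t ≠ t' ∧ ¬ InS v c t ∧ ¬ InS v c t') : Goal v := by
  by_contra hg
  obtain ⟨i, hci, hall, t, t', htt, ht, ht'⟩ := hs
  have hti := hall t ht
  have hti' := hall t' ht'
  have hpar : ∀ x1 x2 x3 : Fin 4, x1 ≠ x2 → x1 ≠ x3 → x2 ≠ x3 → ∃ μ : ℚ, μ ≠ 0 ∧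
      ((∀ k, (v t k : ℚ) - v t' k = μ * ((v (c x1) k : ℚ) - v (c x2) k)) ∨
      (∀ k, (v t k : ℚ) - v t' k = μ * ((v (c x1) k : ℚ) - v (c x3) k)) ∨
      (∀ k, (v t k : ℚ) - v t' k = μ * ((v (c x2) k : ℚ) - v (c x3) k))) := by
    intro x1 x2 x3 h12 h13 h23
    exact par hpos h5 htt (hc.ne h12) (hc.ne h13) (hc.ne h23) hti hti' (hci _) (hci _) (hci _)
  have hfst : ∃ u w : Fin 4, u ≠ w ∧ ∃ μ : ℚ, μ ≠ 0 ∧
      ∀ k, (v t k : ℚ) - v t' k = μ * ((v (c u) k : ℚ) - v (c w) k) := by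
    obtain ⟨μ, hμ, h | h | h⟩ := hpar 0 1 2 (by decide) (by decide) (by decide)
    · exact ⟨0, 1, by decide, μ, hμ, h⟩
    · exact ⟨0, 2, by decide, μ, hμ, h⟩
    · exact ⟨1, 2, by decide, μ, hμ, h⟩
  obtain ⟨u, w, huw, μ, hμ, h1⟩ := hfst
  obtain ⟨m, n, hmn, hum, hun, hwm, hwn, hcov⟩ := others u w huw
  -- the second pair
  have hbad : ∀ (μ' : ℚ) (x : Fin 4), u ≠ x → w ≠ x →
      (∀ k, (v t k : ℚ) - v t' k = μ' * ((v (c u) k : ℚ) - v (c x) k)) → False := by
    intro μ' x hux hwx h2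
    have h3 := no3 hpos (hc.ne huw) (hc.ne hux) (hc.ne hwx) (x := μ - μ') (y := -μ) (z := μ') (by
      intro k
      have := h1 k
      have := h2 k
      linarith)
    exact hμ (neg_eq_zero.mp h3.2.1)
  obtain ⟨μ', hμ', h2 | h2 | h2⟩ := hpar u m n hum hun hmn
  · exact hbad μ' m hum hwm h2
  · exact hbad μ' n hun hwn h2
  obtain ⟨i1, a1, a2, a3, a4, a5⟩ := cir hpos h4 hsum hc htt ht ht' huw hum hwm h1 hg
  obtain ⟨i2, b1, b2, b3, b4, b5⟩ := cir hpos h4 hsum hc htt ht ht' hmn hum.symm hun.symm h2 hg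
  have hi1 : i ≠ i1 := by rintro rfl; omega
  have hi2 : i ≠ i2 := by rintro rfl; omega
  have h12 : i1 ≠ i2 := by
    rintro rfl
    have := a5 m hum hwm
    omega
  exact htt (eq3' hpos hi1 hi2 h12 (by rw [hti, hti']) (by rw [a1, a2]) (by rw [b1, b2]))

end Pool.Agent.Y231.N4.CAux

namespace Pool.Agent.Y231.N4

open CAux

theorem CA (h4 : StC4) (h5 : StC5) : StCA := by
  classical
  intro ι _ v a g hpos hnb hcs hD hsum
  by_cases hI : IndOn v Finset.univ
  · exact Or.inl hI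
  right
  have h4' : C4c v := h4 v a g hpos hnb hcs
  have h5' : C5c v := h5 v a g hpos hnb hcs
  obtain ⟨D, hD4, hDI⟩ := hD
  -- enumeration of `D`
  let e := D.equivFinOfCardEq hD4
  let d : Fin 4 → ι := fun x => (e.symm x : ι)
  have hdD : ∀ x, d x ∈ D := fun x => (e.symm x).2
  have hdi : Function.Injective d := by
    intro x y h
    exact e.symm.injective (Subtype.ext h)
  have hdI : ∀ y : Fin 4 → ℚ, (∀ i, ∑ x, y x * (v (d x) i : ℚ) = 0) → ∀ x, y x = 0 := by
    intro y hy x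
    have h1 := hDI (fun j => ∑ x, if d x = j then y x else 0) (by
      intro j hj
      apply Finset.sum_eq_zero
      intro x _
      rw [if_neg]
      rintro rfl
      exact hj (hdD x)) (by
      intro i
      refine Eq.trans ?_ (hy i)
      have h2 : ∀ j : ι, (∑ x, if d x = j then y x else 0) * (v j i : ℚ) =
          ∑ x, if d x = j then y x * (v (d x) i : ℚ) else 0 := by
        intro j
        rw [Finset.sum_mul]
        apply Finset.sum_congr rfl
        intro x _
        by_cases hx : d x = j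
        · rw [if_pos hx, if_pos hx, hx]
        · rw [if_neg hx, if_neg hx, zero_mul]
      rw [Finset.sum_congr rfl (fun j _ => h2 j), Finset.sum_comm]
      apply Finset.sum_congr rfl
      intro x _
      simp) (d x)
    have h2 : ∑ x', (if d x' = d x then y x' else 0) = y x := by
      rw [Finset.sum_eq_single x]
      · simp
      · intro b _ hb
        rw [if_neg (hdi.ne hb)]
      · intro h
        exact absurd (Finset.mem_univ x) h
    exact h2.symm.trans h1
  have hex : ∃ p, p ∉ D := by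
    by_contra hcon
    push Not at hcon
    apply hI
    have : D = Finset.univ := by
      ext x
      simp [hcon x]
    rw [← this]
    exact hDI
  obtain ⟨p, hp⟩ := hex
  have hpd : ∀ x, d x ≠ p := fun x h => hp (h ▸ hdD x)
  set P : Fin 5 → ι := Fin.cons p d with hP
  have hexp : ∀ (y : Fin 5 → ℚ) (k : Fin 4), ∑ x, y x * (v (P x) k : ℚ) =
      y 0 * (v p k : ℚ) + ∑ x : Fin 4, y x.succ * (v (d x) k : ℚ) := by
    intro y k
    rw [Fin.sum_univ_succ]
    simp [hP]
  obtain ⟨z, hz, x0, hx0⟩ := dep5 v P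
  have hz' := fun k => (hexp z k).symm.trans (hz k)
  have hz0 : z 0 ≠ 0 := by
    intro h0
    apply hx0
    have h1 := hdI (fun x => z x.succ) (by
      intro i
      have := hz' i
      rw [h0, zero_mul, zero_add] at this
      exact this)
    refine Fin.cases h0 (fun x => h1 x) x0
  have hex0 : ∃ t0 : Fin 4, z t0.succ = 0 := by
    by_contra hcon
    push Not at hcon
    have hzall : ∀ x, z x ≠ 0 := fun x => Fin.cases hz0 (fun x => hcon x) x
    refine h5' P ?_ ⟨z, hzall, hz⟩ ?_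
    · rw [hP, Fin.cons_injective_iff]
      refine ⟨?_, hdi⟩
      rintro ⟨x, hx⟩
      exact hpd x hx
    · intro y hy ⟨x1, hx1⟩
      have hy' := fun k => (hexp y k).symm.trans (hy k)
      have h1 := hdI (fun x => y x.succ - y 0 / z 0 * z x.succ) (by
        intro i
        have k1 := hz' i
        have k2 := hy' i
        simp only [sub_mul, Finset.sum_sub_distrib, mul_assoc, ← Finset.mul_sum]
        have k3 : ∑ x : Fin 4, z x.succ * (v (d x) i : ℚ) = -(z 0 * (v p i : ℚ)) := by linarith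
        rw [k3]
        field_simp
        linarith)
      have hall : ∀ x, y x = y 0 / z 0 * z x := by
        intro x
        refine Fin.cases ?_ (fun x => ?_) x
        · field_simp
        · exact sub_eq_zero.mp (h1 x)
      have hκ : y 0 / z 0 = 0 := by
        have := hall x1
        rw [hx1] at this
        exact (mul_eq_zero.mp this.symm).resolve_right (hzall x1)
      intro x
      rw [hall x, hκ, zero_mul]
  obtain ⟨t0, ht0⟩ := hex0
  set c : Fin 4 → ι := Function.update d t0 p with hc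
  have hct : c t0 = p := by simp [hc]
  have hcx : ∀ x, x ≠ t0 → c x = d x := by
    intro x hx
    simp [hc, hx]
  have hci : Function.Injective c := by
    intro x y hxy
    by_cases hx : x = t0 <;> by_cases hy : y = t0
    · rw [hx, hy]
    · rw [hx, hct, hcx y hy] at hxy
      exact absurd hxy.symm (hpd y)
    · rw [hy, hct, hcx x hx] at hxy
      exact absurd hxy (hpd x)
    · rw [hcx x hx, hcx y hy] at hxy
      exact hdi hxy
  have hsplit : ∀ (y : Fin 4 → ℚ) (k : Fin 4), ∑ x, y x * (v (c x) k : ℚ) = y t0 * (v p k : ℚ) +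
      ∑ x ∈ Finset.univ.erase t0, y x * (v (d x) k : ℚ) := by
    intro y k
    rw [← Finset.add_sum_erase _ _ (Finset.mem_univ t0), hct]
    congr 1
    apply Finset.sum_congr rfl
    intro x hx
    rw [hcx x (Finset.ne_of_mem_erase hx)]
  have hpz : ∀ k, z 0 * (v p k : ℚ) +
      ∑ x ∈ Finset.univ.erase t0, z x.succ * (v (d x) k : ℚ) = 0 := by
    intro k
    have h1 := hz' k
    rw [← Finset.add_sum_erase _ _ (Finset.mem_univ t0), ht0, zero_mul, zero_add] at h1
    exact h1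
  have hrel : ∃ y : Fin 4 → ℚ, (∃ x, y x ≠ 0) ∧ ∀ i, ∑ x, y x * (v (c x) i : ℚ) = 0 := by
    refine ⟨fun x => if x = t0 then z 0 else z x.succ, ⟨t0, by simpa using hz0⟩, fun i => ?_⟩
    rw [hsplit, if_pos rfl, ← hpz i]
    congr 1
    apply Finset.sum_congr rfl
    intro x hx
    rw [if_neg (Finset.ne_of_mem_erase hx)]
  have hT : ∃ t, ¬ InS v c t := by
    refine ⟨d t0, ?_⟩
    rintro ⟨y, hy⟩
    have h1 := hdI (fun x => if x = t0 then -1 else y x - y t0 / z 0 * z x.succ) (by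
      intro k
      rw [← Finset.add_sum_erase _ _ (Finset.mem_univ t0), if_pos rfl]
      have h2 : ∑ x ∈ Finset.univ.erase t0,
          (if x = t0 then -1 else y x - y t0 / z 0 * z x.succ) * (v (d x) k : ℚ) =
          ∑ x ∈ Finset.univ.erase t0, y x * (v (d x) k : ℚ) -
          y t0 / z 0 * ∑ x ∈ Finset.univ.erase t0, z x.succ * (v (d x) k : ℚ) := by
        rw [Finset.mul_sum, ← Finset.sum_sub_distrib]
        apply Finset.sum_congr rfl
        intro x hx
        rw [if_neg (Finset.ne_of_mem_erase hx)]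
        ring
      rw [h2]
      have h3 := hy k
      rw [hsplit] at h3
      have h4 : ∑ x ∈ Finset.univ.erase t0, z x.succ * (v (d x) k : ℚ) = -(z 0 * (v p k : ℚ)) := by
        have := hpz k
        linarith
      rw [h4]
      field_simp
      linarith) t0
    simp at h1
  rcases dich hpos h4' hsum hci hrel hT with h | h
  · exact h
  · exact slab hpos h4' h5' hsum hci h

end Pool.Agent.Y231.N4
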