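import Pool.Agent.Y231.N4.Defs2
import Pool.Agent.W398.MM.A6

/-!
# The facets in four variables: the face of a ray as a configuration of points
(job N4-FAC, helper203)
-/

set_option autoImplicit false
set_option linter.unusedSectionVars false

namespace Pool.Agent.Y231.N4.FAC

open Pool.Agent.W426.SM (gord face IsRay)
open Pool.Agent.W425.BF (B1)
open Pool.Agent.TH216.MF (SimR)
open Pool.Agent.TH216.LX (Vert nonB_of case1)
open Finset

variable {r N : ℕ}

/-! ### The indices of the face -/

/-- the indices of the face -/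
abbrev Fc (v : Fin r → Fin N → ℕ) (a : Fin N → ℕ) : Type := {j : Fin r // face v a j}

/-- extension by zero -/
noncomputable def ext (v : Fin r → Fin N → ℕ) (a : Fin N → ℕ) (w : Fc v a → ℚ) (j : Fin r) : ℚ :=
  if h : face v a j then w ⟨j, h⟩ else 0

variable {v : Fin r → Fin N → ℕ} {a : Fin N → ℕ}

theorem ext_in (w : Fc v a → ℚ) (j : Fc v a) : ext v a w j.1 = w j := by
  unfold ext
  rw [dif_pos j.2]

theorem ext_in' (w : Fc v a → ℚ) {j : Fin r} (h : face v a j) : ext v a w j = w ⟨j, h⟩ := by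
  unfold ext
  rw [dif_pos h]

theorem ext_out (w : Fc v a → ℚ) {j : Fin r} (h : ¬ face v a j) : ext v a w j = 0 := by
  unfold ext
  rw [dif_neg h]

theorem sum_face (w : Fin r → ℚ) (hw : ∀ j, ¬ face v a j → w j = 0) (f : Fin r → ℚ) :
    ∑ j, w j * f j = ∑ j : Fc v a, w j.1 * f j.1 := by
  classical
  rw [← Finset.sum_subtype (Finset.univ.filter fun j => face v a j) (by simp)
    (fun j => w j * f j)]
  symm
  refine Finset.sum_subset (Finset.subset_univ _) fun j _ hj => ?_
  rw [hw j (fun h => hj (by simp [h])), zero_mul]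

theorem sum_ext (w : Fc v a → ℚ) (f : Fin r → ℚ) :
    ∑ j, ext v a w j * f j = ∑ j : Fc v a, w j * f j.1 := by
  rw [sum_face (ext v a w) (fun j hj => ext_out w hj) f]
  refine Finset.sum_congr rfl fun j _ => ?_
  rw [ext_in]

theorem sum_ext' (w : Fc v a → ℚ) : ∑ j, ext v a w j = ∑ j : Fc v a, w j := by
  have h := sum_ext w (fun _ => 1)
  simpa using h

/-- the finset of indices -/
def up (D : Finset (Fc v a)) : Finset (Fin r) := D.map (Function.Embedding.subtype _)

theorem mem_up {D : Finset (Fc v a)} {j : Fin r} :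
    j ∈ up D ↔ ∃ h : face v a j, (⟨j, h⟩ : Fc v a) ∈ D := by
  simp [up]

theorem mem_up' {D : Finset (Fc v a)} {j : Fc v a} : j.1 ∈ up D ↔ j ∈ D := by
  rw [mem_up]
  exact ⟨fun ⟨_, h⟩ => h, fun h => ⟨j.2, h⟩⟩

theorem card_up (D : Finset (Fc v a)) : (up D).card = D.card := Finset.card_map _

theorem face_up {D : Finset (Fc v a)} {j : Fin r} (h : j ∈ up D) : face v a j :=
  (mem_up.1 h).1

theorem off_face {D : Finset (Fc v a)} {w : Fin r → ℚ} (hw : ∀ j, j ∉ up D → w j = 0) :
    ∀ j, ¬ face v a j → w j = 0 := fun j hj => hw j fun h => hj (face_up h)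

theorem off_res {D : Finset (Fc v a)} {w : Fin r → ℚ} (hw : ∀ j, j ∉ up D → w j = 0)
    (j : Fc v a) (hj : j ∉ D) : w j.1 = 0 := hw _ fun h => hj (mem_up'.1 h)

theorem off_ext {D : Finset (Fc v a)} {w : Fc v a → ℚ} (hw : ∀ j, j ∉ D → w j = 0)
    (j : Fin r) (hj : j ∉ up D) : ext v a w j = 0 := by
  by_cases h : face v a j
  · rw [ext_in' w h]
    exact hw _ fun h' => hj (mem_up.2 ⟨h, h'⟩)
  · exact ext_out w h

/-! ### The coordinates -/

/-- `e` enumerates the `i` with `a i ≠ 0`, `e0` the `i` with `a i = 0` -/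
structure En (a : Fin N → ℕ) {d d0 : ℕ} (e : Fin d → Fin N) (e0 : Fin d0 → Fin N) : Prop where
  inj : Function.Injective e
  inj0 : Function.Injective e0
  rng : ∀ i, a i ≠ 0 ↔ ∃ x, e x = i
  rng0 : ∀ i, a i = 0 ↔ ∃ x, e0 x = i

theorem exists_en (a : Fin N → ℕ) {d d0 : ℕ}
    (hd : (Finset.univ.filter fun i => a i ≠ 0).card = d) (hd0 : d + d0 = N) :
    ∃ (e : Fin d → Fin N) (e0 : Fin d0 → Fin N), En a e e0 := by
  classical
  have h1 : (Finset.univ.filter fun i => a i = 0).card = d0 := by
    have h := Finset.card_filter_add_card_filter_not (s := (Finset.univ : Finset (Fin N)))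
      (fun i => a i = 0)
    rw [Finset.card_univ, Fintype.card_fin] at h
    have h2 : (Finset.univ.filter fun i => ¬ a i = 0).card = d := hd
    omega
  refine ⟨(Finset.univ.filter fun i => a i ≠ 0).orderEmbOfFin hd,
    (Finset.univ.filter fun i => a i = 0).orderEmbOfFin h1, ⟨?_, ?_, fun i => ?_, fun i => ?_⟩⟩
  · exact ((Finset.univ.filter fun i => a i ≠ 0).orderEmbOfFin hd).injective
  · exact ((Finset.univ.filter fun i => a i = 0).orderEmbOfFin h1).injective
  · have h := Finset.range_orderEmbOfFin (Finset.univ.filter fun i => a i ≠ 0) hd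
    have h2 := Set.ext_iff.1 h i
    rw [Set.mem_range] at h2
    rw [h2]
    simp
  · have h := Finset.range_orderEmbOfFin (Finset.univ.filter fun i => a i = 0) h1
    have h2 := Set.ext_iff.1 h i
    rw [Set.mem_range] at h2
    rw [h2]
    simp

section
variable {d d0 : ℕ} {e : Fin d → Fin N} {e0 : Fin d0 → Fin N}

theorem En.ne (hE : En a e e0) (x : Fin d) : a (e x) ≠ 0 := (hE.rng _).2 ⟨x, rfl⟩

theorem En.eq0 (hE : En a e e0) (x : Fin d0) : a (e0 x) = 0 := (hE.rng0 _).2 ⟨x, rfl⟩

theorem En.card (hE : En a e e0) : (Finset.univ.filter fun i => a i ≠ 0).card = d := by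
  classical
  have h : (Finset.univ.filter fun i => a i ≠ 0) = Finset.univ.map ⟨e, hE.inj⟩ := by
    ext i
    simp only [mem_filter, mem_univ, true_and, mem_map, Function.Embedding.coeFn_mk]
    exact hE.rng i
  rw [h, Finset.card_map, Finset.card_univ, Fintype.card_fin]

theorem En.sum {M : Type*} [AddCommMonoid M] (hE : En a e e0) (f : Fin N → M) :
    ∑ i, f i = ∑ x, f (e x) + ∑ x, f (e0 x) := by
  classical
  have h1 : ∑ x, f (e x) = ∑ i ∈ Finset.univ.filter fun i => a i ≠ 0, f i := by
    have h : (Finset.univ.filter fun i => a i ≠ 0) = Finset.univ.map ⟨e, hE.inj⟩ := by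
      ext i
      simp only [mem_filter, mem_univ, true_and, mem_map, Function.Embedding.coeFn_mk]
      exact hE.rng i
    rw [h, Finset.sum_map]
    rfl
  have h2 : ∑ x, f (e0 x) = ∑ i ∈ Finset.univ.filter fun i => a i = 0, f i := by
    have h : (Finset.univ.filter fun i => a i = 0) = Finset.univ.map ⟨e0, hE.inj0⟩ := by
      ext i
      simp only [mem_filter, mem_univ, true_and, mem_map, Function.Embedding.coeFn_mk]
      exact hE.rng0 i
    rw [h, Finset.sum_map]
    rfl
  rw [h1, h2, add_comm]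
  exact (Finset.sum_filter_add_sum_filter_not Finset.univ (fun i => a i = 0) f).symm

theorem En.sum_ne {M : Type*} [AddCommMonoid M] (hE : En a e e0) (f : Fin N → M)
    (hf : ∀ i, a i = 0 → f i = 0) : ∑ i, f i = ∑ x, f (e x) := by
  rw [hE.sum f]
  have : ∑ x, f (e0 x) = 0 := Finset.sum_eq_zero fun x _ => hf _ (hE.eq0 x)
  rw [this, add_zero]

theorem En.htA (hE : En a e e0) (j : Fin r) : htA v a j = ∑ x, (v j (e0 x) : ℚ) := by
  unfold N4.htA
  rw [hE.sum]
  have h1 : ∑ x, (if a (e x) = 0 then (v j (e x) : ℚ) else 0) = 0 :=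
    Finset.sum_eq_zero fun x _ => if_neg (hE.ne x)
  rw [h1, zero_add]
  exact Finset.sum_congr rfl fun x _ => if_pos (hE.eq0 x)

/-- the coordinates `i` with `a i ≠ 0` of the points of the face -/
def vr (v : Fin r → Fin N → ℕ) (a : Fin N → ℕ) {d : ℕ} (e : Fin d → Fin N) :
    Fc v a → Fin d → ℕ := fun j x => v j.1 (e x)

/-! ### Transfer -/

theorem nonB_tr (hE : En a e e0) (z : Fc v a → ℚ) (hz : ∀ j, z j = htA v a j.1)
    (h : NonBS (vr v a e) z) : Pool.Agent.W425.MM.NonB v True a := by
  obtain ⟨D, hc, hI, hL, hB⟩ := h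
  refine nonB_of v a (up D) ?_ (fun j hj => face_up hj) (fun w hw h => ?_) (fun i hi => ?_)
    (fun l hl c hc' h => ?_)
  · rw [card_up, hc, hE.card]
  · have h1 := hI (fun j => w j.1) (fun j hj => off_res hw j hj) (fun x => by
      rw [← h (e x) (hE.ne x), sum_face w (off_face hw)]
      rfl)
    intro j
    by_cases hj : face v a j
    · exact h1 ⟨j, hj⟩
    · exact off_face hw j hj
  · obtain ⟨x, rfl⟩ := (hE.rng i).1 hi
    rintro ⟨j0, hj0, h1, h2⟩
    obtain ⟨hf0, hD0⟩ := mem_up.1 hj0
    exact hB x ⟨⟨j0, hf0⟩, hD0, h1, fun j hj hne => h2 j.1 (mem_up'.2 hj) fun hh =>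
      hne (Subtype.ext hh)⟩
  · have h1 := hL ⟨l, hl⟩ (fun j => c j.1) (fun j hj => off_res hc' j hj) (fun x => by
      have h2 := h (e x) (hE.ne x)
      rw [sum_face c (off_face hc')] at h2
      exact h2)
    rw [hz] at h1
    rw [sum_face c (off_face hc')]
    refine le_trans (le_of_eq ?_) h1
    refine Finset.sum_congr rfl fun j _ => ?_
    rw [hz]
    rfl

theorem circ_tr (hE : En a e e0) (z : Fc v a → ℚ) (hz : ∀ j, z j = htA v a j.1)
    (h : CircS (vr v a e) z) : CircP v a := by
  classical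
  obtain ⟨D, k, s, c, G, hk, hc, hI, hL, hs0, hs1, hc0, hck, hcr, hneg, hG, hcard, hlast⟩ := h
  have hofc : ∀ j, j ∉ up D → j ≠ k.1 → ext v a c j = 0 := by
    intro j hj hjk
    by_cases hf : face v a j
    · rw [ext_in' c hf]
      exact hc0 _ (fun h' => hj (mem_up.2 ⟨hf, h'⟩)) fun hh => hjk (by rw [← hh])
    · exact ext_out c hf
  have hLow : ∀ l, face v a l → ∀ α : Fin r → ℚ, (∀ j, j ∉ up D → α j = 0) →
      (∀ i, a i ≠ 0 → ∑ j, α j * (v j i : ℚ) = (v l i : ℚ)) → ∀ x,
      ∑ j : Fc v a, α j.1 * (vr v a e j x : ℚ) = (v l (e x) : ℚ) := by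
    intro l hl α hα h x
    rw [← h (e x) (hE.ne x), sum_face α (off_face hα)]
    rfl
  refine ⟨up D, k.1, ext v a s, ext v a c, up G, fun h => hk (mem_up'.1 h), ?_,
    fun j hj => face_up hj, k.2, ?_, ?_, off_ext hs0, fun i hi => ?_, hofc, ?_, fun i hi => ?_,
    fun j hj => ?_, fun j hj => ?_, ?_, ?_⟩
  · rw [card_up, hc, hE.card]
  · intro w hw h
    have h1 := hI (fun j => w j.1) (fun j hj => off_res hw j hj) (fun x => by
      rw [← h (e x) (hE.ne x), sum_face w (off_face hw)]
      rfl)
    intro j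
    by_cases hj : face v a j
    · exact h1 ⟨j, hj⟩
    · exact off_face hw j hj
  · intro l hl α hα h
    have h1 := hL ⟨l, hl⟩ (fun j => α j.1) (fun j hj => off_res hα j hj) (hLow l hl α hα h)
    rw [hz] at h1
    rw [sum_face α (off_face hα)]
    refine le_trans (le_of_eq ?_) h1
    refine Finset.sum_congr rfl fun j _ => ?_
    rw [hz]
  · obtain ⟨x, rfl⟩ := (hE.rng i).1 hi
    rw [sum_ext]
    exact hs1 x
  · rw [ext_in, hck]
  · obtain ⟨x, rfl⟩ := (hE.rng i).1 hi
    rw [sum_ext]
    exact hcr x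
  · by_cases hf : face v a j
    · rw [ext_in' s hf] at hj
      rw [ext_in' c hf]
      exact hneg _ hj
    · rw [ext_out s hf] at hj
      obtain ⟨m, hm, h0⟩ := hj
      have hm' : (0 : ℚ) < m := by exact_mod_cast hm
      linarith
  · obtain ⟨hf, hj'⟩ := mem_up.1 hj
    rw [ext_in' c hf]
    exact hG _ hj'
  · have e1 : (Finset.univ.filter fun j => NegI (ext v a s j) ∧ j ∉ up G) =
        up (Finset.univ.filter fun j : Fc v a => NegI (s j) ∧ j ∉ G) := by
      ext j
      rw [mem_up]
      simp only [mem_filter, mem_univ, true_and]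
      constructor
      · rintro ⟨h1, h2⟩
        by_cases hf : face v a j
        · refine ⟨hf, ?_, fun h3 => h2 (mem_up.2 ⟨hf, h3⟩)⟩
          rwa [ext_in' s hf] at h1
        · rw [ext_out s hf] at h1
          obtain ⟨m, hm, h0⟩ := h1
          have hm' : (0 : ℚ) < m := by exact_mod_cast hm
          linarith
      · rintro ⟨hf, h1, h2⟩
        refine ⟨?_, fun h3 => h2 (mem_up.1 h3).2⟩
        rwa [ext_in' s hf]
    have e2 : ((up G).filter fun j => ext v a s j = 0) = up (G.filter fun j => s j = 0) := by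
      ext j
      rw [mem_up]
      simp only [mem_filter]
      constructor
      · rintro ⟨h1, h2⟩
        obtain ⟨hf, h3⟩ := mem_up.1 h1
        rw [ext_in' s hf] at h2
        exact ⟨hf, h3, h2⟩
      · rintro ⟨hf, h1, h2⟩
        refine ⟨mem_up.2 ⟨hf, h1⟩, ?_⟩
        rwa [ext_in' s hf]
    have h3 : (up (Finset.univ.filter fun j : Fc v a => NegI (s j) ∧ j ∉ G)).card <
        (up (G.filter fun j => s j = 0)).card := by
      rw [card_up, card_up]
      convert hcard
    rw [← e1, ← e2] at h3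
    convert h3
  · intro l hl α hα h j hj hjk hneg'
    obtain ⟨hf, hj'⟩ := mem_up.1 hj
    have h1 := hlast ⟨l, hl⟩ (fun j => α j.1) (fun j hj => off_res hα j hj) (hLow l hl α hα h)
      ⟨j, hf⟩ hj' (fun hh => hjk (by rw [← hh])) hneg'
    rw [sum_ext, sum_face α (off_face hα), ext_in' c hf]
    have e1 : ∑ m, c m * z m = ∑ m : Fc v a, c m * htA v a m.1 :=
      Finset.sum_congr rfl fun m _ => by rw [hz]
    have e2 : ∑ m : Fc v a, α m.1 * z m = ∑ m : Fc v a, α m.1 * htA v a m.1 :=
      Finset.sum_congr rfl fun m _ => by rw [hz]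
    rw [e1, e2, hz] at h1
    exact h1

theorem sim_tr (hE : En a e e0) (h : IndOn (vr v a e) Finset.univ) : SimR v a := by
  intro w hw h1
  have h2 := h (fun j => w j.1) (fun j hj => absurd (Finset.mem_univ _) hj) (fun x => by
    rw [← h1 (e x) (hE.ne x), sum_face w hw]
    rfl)
  intro j
  by_cases hj : face v a j
  · exact h2 ⟨j, hj⟩
  · exact hw j hj

theorem b1_tr (hE : En a e e0) {x : Fin d} (h : B1on (vr v a e) Finset.univ x) :
    B1 v (e x) a := by
  obtain ⟨j0, -, h1, h2⟩ := h
  exact ⟨hE.ne x, j0.1, j0.2, h1, fun j hj hne => h2 ⟨j, hj⟩ (Finset.mem_univ _)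
    fun hh => hne (by rw [← hh])⟩

/-- the vertices -/
theorem vert_tr (hV : Vert v) (hE : En a e e0) (j : Fc v a) :
    ¬ ∃ l : Fc v a → ℚ, (∀ k, 0 ≤ l k) ∧ l j = 0 ∧ ∑ k, l k = 1 ∧
      (∀ x, ∑ k, l k * (vr v a e k x : ℚ) = (vr v a e j x : ℚ)) ∧
      ∀ x, ∑ k : Fc v a, l k * (v k.1 (e0 x) : ℚ) ≤ (v j.1 (e0 x) : ℚ) := by
  rintro ⟨l, h0, h1, h2, h3, h4⟩
  refine hV j.1 ⟨fun k => (ext v a l k : ℝ), fun k => ?_, ?_, ?_, fun i => ?_⟩
  · show (0 : ℝ) ≤ (ext v a l k : ℝ)
    by_cases hf : face v a k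
    · rw [ext_in' l hf]
      exact_mod_cast h0 _
    · rw [ext_out l hf]
      simp
  · simp only
    rw [ext_in, h1]
    simp
  · have := sum_ext' l
    rw [h2] at this
    show ∑ k, (ext v a l k : ℝ) = 1
    exact_mod_cast this
  · have key : ∑ k, ext v a l k * (v k i : ℚ) ≤ (v j.1 i : ℚ) := by
      rw [sum_ext]
      by_cases hi : a i = 0
      · obtain ⟨x, rfl⟩ := (hE.rng0 i).1 hi
        exact h4 x
      · obtain ⟨x, rfl⟩ := (hE.rng i).1 hi
        exact (h3 x).le
    show ∑ k, (ext v a l k : ℝ) * (v k i : ℝ) ≤ (v j.1 i : ℝ)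
    exact_mod_cast key

theorem hyp_tr (hE : En a e e0) (j : Fc v a) : ∑ x, a (e x) * vr v a e j x = gord v a := by
  have h : ∑ i, a i * v j.1 i = gord v a := j.2
  rw [← h, hE.sum_ne (fun i => a i * v j.1 i) (fun i hi => by simp [hi])]
  rfl

end

/-! ### The lower simplex -/

open Pool.Agent.W398.MM.A6 in
open Classical in
/-- there is a simplex in the lower hull -/
theorem low_ex (hr : 0 < r) (hray : IsRay v a) (hg : 0 < gord v a) :
    ∃ J : Finset (Fin r), J.card = (Finset.univ.filter fun i => a i ≠ 0).card ∧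
      (∀ j ∈ J, face v a j) ∧
      (∀ w : Fin r → ℚ, (∀ j, j ∉ J → w j = 0) →
        (∀ i, a i ≠ 0 → ∑ j, w j * (v j i : ℚ) = 0) → ∀ j, w j = 0) ∧
      (∀ l, face v a l → ∀ c : Fin r → ℚ, (∀ j, j ∉ J → c j = 0) →
        (∀ i, a i ≠ 0 → ∑ j, c j * (v j i : ℚ) = (v l i : ℚ)) →
        ∑ j, c j * htA v a j ≤ htA v a l) := by
  obtain ⟨u, hu, hP, hgood⟩ := claim2 hr hray hg
  let W : Fin r → ({i // a i ≠ 0} → ℚ) := fun j i => (v j i : ℚ)
  obtain ⟨b, hbt, -, hspan, hli⟩ := exists_linearIndepOn_extension (K := ℚ) (v := W)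
    (linearIndepOn_empty ℚ W) (Set.empty_subset {l | face v a l ∧ dot v u l = ht v a l})
  have htop : Submodule.span ℚ (W '' {l | face v a l ∧ dot v u l = ht v a l}) = ⊤ := by
    by_contra hlt
    obtain ⟨f, hf0, hf⟩ := Submodule.exists_le_ker_of_lt_top _ (lt_top_iff_ne_top.2 hlt)
    let w : Fin N → ℚ := fun i => if h : a i ≠ 0 then f (Pi.single ⟨i, h⟩ 1) else 0
    have hfw : ∀ j, f (W j) = dot v w j := by
      intro j
      have h1 : W j = ∑ i : {i // a i ≠ 0}, (v j i : ℚ) • (Pi.single i (1 : ℚ) :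
          {i // a i ≠ 0} → ℚ) := by
        funext i
        simp [W, Finset.sum_apply, Pi.single_apply]
      rw [h1, map_sum]
      unfold dot
      have h2 : ∑ i, w i * (v j i : ℚ) = ∑ i : {i // a i ≠ 0}, w i * (v j i : ℚ) := by
        rw [← Finset.sum_subtype (Finset.univ.filter fun i => a i ≠ 0) (by simp)
          (fun i => w i * (v j i : ℚ))]
        symm
        refine Finset.sum_filter_of_ne fun i _ hne' => ?_
        intro h0
        apply hne'
        have : w i = 0 := by simp [w, h0]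
        rw [this, zero_mul]
      rw [h2]
      refine Finset.sum_congr rfl fun i _ => ?_
      rw [map_smul, smul_eq_mul, mul_comm]
      congr 1
      simp only [w]
      rw [dif_pos i.2]
    have hw : w = 0 := by
      refine hgood w (fun i hi => by simp [w, hi]) ?_
      intro l hl ht
      rw [← hfw l]
      exact hf (Submodule.subset_span ⟨l, ⟨hl, ht⟩, rfl⟩)
    apply hf0
    apply LinearMap.pi_ext'
    intro i
    ext
    have := congrFun hw i
    simp only [w] at this
    rw [dif_pos i.2] at this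
    simpa using this
  have hspan' : Submodule.span ℚ (W '' b) = ⊤ := by
    rw [eq_top_iff, ← htop]
    exact Submodule.span_le.2 hspan
  have hcard : Fintype.card b = Fintype.card {i // a i ≠ 0} := by
    have h1 := finrank_span_eq_card hli
    have h2 : Set.range (fun x : b => W x) = W '' b := by
      ext x; simp
    rw [h2, hspan', finrank_top, Module.finrank_fintype_fun_eq_card] at h1
    exact h1.symm
  refine ⟨b.toFinset, ?_, ?_, ?_, ?_⟩
  · rw [Set.toFinset_card, hcard, Fintype.card_subtype]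
  · intro j hj
    exact (hbt (Set.mem_toFinset.1 hj)).1
  · intro w hw h j
    by_cases hj : j ∈ b
    · have h3 := (Fintype.linearIndependent_iff.1 hli) (fun x => w x.1) (by
        funext i
        rw [Finset.sum_apply]
        simp only [Pi.smul_apply, smul_eq_mul, Pi.zero_apply, W]
        rw [← h i.1 i.2]
        have e1 : ∑ j, w j * (v j i.1 : ℚ) = ∑ j ∈ b.toFinset, w j * (v j i.1 : ℚ) := by
          symm
          refine Finset.sum_subset (Finset.subset_univ _) fun j _ hj => ?_
          rw [hw j hj, zero_mul]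
        rw [e1]
        exact (Finset.sum_subtype b.toFinset (fun x => Set.mem_toFinset)
          (fun j => w j * (v j i.1 : ℚ))).symm)
      exact h3 ⟨j, hj⟩
    · exact hw j (fun h => hj (Set.mem_toFinset.1 h))
  · intro l hl c hc hcl
    have h1 : ∑ j, c j * dot v u j = dot v u l := by
      have h2 : dot v u l = ∑ i, u i * ∑ j, c j * (v j i : ℚ) := by
        unfold dot
        refine Finset.sum_congr rfl fun i _ => ?_
        by_cases hi : a i = 0
        · rw [hu i hi, zero_mul, zero_mul]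
        · rw [hcl i hi]
      rw [h2]
      unfold dot
      simp_rw [Finset.mul_sum]
      rw [Finset.sum_comm]
      refine Finset.sum_congr rfl fun i _ => Finset.sum_congr rfl fun j _ => by ring
    have h3 : ∑ j, c j * htA v a j = ∑ j, c j * dot v u j := by
      refine Finset.sum_congr rfl fun j _ => ?_
      by_cases hj : j ∈ b
      · have := (hbt hj).2
        rw [this]
        rfl
      · rw [hc j (fun h => hj (Set.mem_toFinset.1 h)), zero_mul, zero_mul]
    rw [h3, h1]
    exact hP l hl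

section
variable {d d0 : ℕ} {e : Fin d → Fin N} {e0 : Fin d0 → Fin N}

theorem low_tr (hr : 0 < r) (hray : IsRay v a) (hg : 0 < gord v a) (hE : En a e e0)
    (z : Fc v a → ℚ) (hz : ∀ j, z j = htA v a j.1) :
    ∃ D : Finset (Fc v a), D.card = d ∧ IndOn (vr v a e) D ∧ Low (vr v a e) z D := by
  classical
  obtain ⟨J, hc, hf, hI, hL⟩ := low_ex hr hray hg
  have hJ : up (J.subtype (face v a)) = J := by
    ext j
    rw [mem_up]
    simp only [Finset.mem_subtype]
    exact ⟨fun ⟨_, h⟩ => h, fun h => ⟨hf j h, h⟩⟩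
  have hoff : ∀ w : Fc v a → ℚ, (∀ j, j ∉ J.subtype (face v a) → w j = 0) →
      ∀ j, j ∉ J → ext v a w j = 0 := by
    intro w hw j hj
    refine off_ext hw j ?_
    rwa [hJ]
  refine ⟨J.subtype (face v a), ?_, fun w hw h => ?_, fun l α hα h => ?_⟩
  · rw [← card_up, hJ, hc, hE.card]
  · have h1 := hI (ext v a w) (hoff w hw) (fun i hi => by
      obtain ⟨x, rfl⟩ := (hE.rng i).1 hi
      rw [sum_ext]
      exact h x)
    intro j
    rw [← ext_in w j]
    exact h1 j.1
  · have h1 := hL l.1 l.2 (ext v a α) (hoff α hα) (fun i hi => by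
      obtain ⟨x, rfl⟩ := (hE.rng i).1 hi
      rw [sum_ext]
      exact h x)
    rw [sum_ext] at h1
    rw [hz]
    refine le_trans (le_of_eq ?_) h1
    exact Finset.sum_congr rfl fun j _ => by rw [hz]

end

end Pool.Agent.Y231.N4.FAC

namespace Pool.Agent.Y231.N4

open Pool.Agent.W426.SM (gord face IsRay)
open Pool.Agent.W425.BF (B1)
open Pool.Agent.TH216.MF (SimR)
open Pool.Agent.TH216.LX (Vert nonB_of case1)
open FAC Finset

theorem FAC (hCA : StCA) (hHA : StHA) (hT : StT) : StFac := by
  classical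
  intro r v hr hV a hray hg hne1 hne2
  by_cases hNB : Pool.Agent.W425.MM.NonB v True a
  · exact Or.inl hNB
  by_cases hCP : CircP v a
  · exact Or.inr (Or.inl hCP)
  have hcard4 : (Finset.univ.filter fun i => a i ≠ 0).card ≤ 4 := by
    have := Finset.card_le_univ (Finset.univ.filter fun i => a i ≠ 0)
    rwa [Fintype.card_fin] at this
  have hc0 : (Finset.univ.filter fun i => a i ≠ 0).card ≠ 0 := by
    intro h
    rw [Finset.card_eq_zero] at h
    apply hray.1
    funext i
    by_contra hi
    have : i ∈ (Finset.univ.filter fun i => a i ≠ 0) := by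
      simp only [mem_filter, mem_univ, true_and]
      exact hi
    rw [h] at this
    simp at this
  obtain hc | hc | hc | hc : (Finset.univ.filter fun i => a i ≠ 0).card = 1 ∨
      (Finset.univ.filter fun i => a i ≠ 0).card = 2 ∨
      (Finset.univ.filter fun i => a i ≠ 0).card = 3 ∨
      (Finset.univ.filter fun i => a i ≠ 0).card = 4 := by omega
  · -- one coordinate
    obtain ⟨i0, hi0⟩ := Finset.card_eq_one.1 hc
    have h := case1 v a hr hg i0 (fun i => by
      have := Finset.ext_iff.1 hi0 i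
      simpa using this)
    rcases h with h | h
    · exact absurd h hne1
    · exact Or.inl h
  · -- two coordinates
    obtain ⟨e, e0, hE⟩ := exists_en a (d := 2) (d0 := 2) hc rfl
    have hht : ∀ j : Fc v a, (((fun (j : Fc v a) (x : Fin 2) => v j.1 (e0 x)) j 0 : ℕ) : ℚ) +
        (((fun (j : Fc v a) (x : Fin 2) => v j.1 (e0 x)) j 1 : ℕ) : ℚ) = htA v a j.1 := by
      intro j
      rw [hE.htA, Fin.sum_univ_two]
    have h := hT (vr v a e) (fun j x => v j.1 (e0 x)) (fun x => a (e x)) (gord v a)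
      (fun x => Nat.pos_of_ne_zero (hE.ne x)) hg (fun j => hyp_tr hE j)
      (fun j => vert_tr hV hE j) ?_ (fun h => hNB (nonB_tr hE _ hht h)) ?_ ?_
    · rcases h with h | ⟨x, h⟩ | ⟨E, s, u, w, κ, h1, h2, h3, h4, h5, h6, h7⟩
      · exact Or.inr (Or.inr (Or.inr (Or.inl (sim_tr hE h))))
      · exact Or.inr (Or.inr (Or.inr (Or.inr (Or.inl ⟨e x, b1_tr hE h⟩))))
      · refine Or.inr (Or.inr (Or.inl ?_))
        have hnr : ∀ x, ¬ ∃ y, e y = e0 x := fun x h => (hE.rng _).2 h (hE.eq0 x)
        have hw1 : ∀ x, Function.extend e u (Function.extend e0 w 0) (e x) = u x := fun x =>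
          hE.inj.extend_apply _ _ x
        have hw2 : ∀ x, Function.extend e u (Function.extend e0 w 0) (e0 x) = w x := by
          intro x
          rw [Function.extend_apply' _ _ _ (hnr x)]
          exact hE.inj0.extend_apply _ _ x
        have hws : ∀ j, ∑ i, Function.extend e u (Function.extend e0 w 0) i * (v j i : ℚ) =
            ∑ x : Fin 2, (u x * (v j (e x) : ℚ) + w x * (v j (e0 x) : ℚ)) := by
          intro j
          rw [hE.sum, Finset.sum_add_distrib]
          congr 1
          · exact Finset.sum_congr rfl fun x _ => by rw [hw1]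
          · exact Finset.sum_congr rfl fun x _ => by rw [hw2]
        refine ⟨up E, ext v a s, Function.extend e u (Function.extend e0 w 0), κ,
          fun j hj => face_up hj, fun i hi => ?_, fun j hj => ?_, fun j hj => ?_,
          fun c hc hr' => ?_, off_ext h2, fun i hi => ?_, fun j hj => ?_⟩
        · obtain ⟨x, rfl⟩ := (hE.rng0 i).1 hi
          rw [hw2]
          exact h1 x
        · obtain ⟨hf, hj'⟩ := mem_up.1 hj
          rw [hws]
          exact h6 _ hj'
        · rw [hws]
          exact h7 ⟨j, hj⟩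
        · have h8 := h5 (fun j => c j.1) (fun j hj => off_res hc j hj) (fun x => by
            rw [← hr' (e x), sum_face c (off_face hc)]
            rfl) (fun x => by
            rw [← hr' (e0 x), sum_face c (off_face hc)])
          intro j
          by_cases hj : face v a j
          · exact h8 ⟨j, hj⟩
          · exact off_face hc j hj
        · obtain ⟨x, rfl⟩ := (hE.rng i).1 hi
          rw [sum_ext]
          exact h4 x
        · by_cases hf : face v a j
          · rw [ext_in' s hf] at hj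
            exact h3 _ hj
          · rw [ext_out s hf] at hj
            obtain ⟨m, hm, h0⟩ := hj
            have hm' : (0 : ℚ) < m := by exact_mod_cast hm
            linarith
    · -- the points are not all equal
      by_contra hcon
      push Not at hcon
      obtain ⟨ρ, hρ⟩ := hray.2 (Pi.single (e 0) 1) (fun i hi => by
        rw [Pi.single_eq_of_ne]
        rintro rfl
        exact hE.ne 0 hi) (fun j j' hj hj' => by
        have h1 : v j (e 0) = v j' (e 0) := congrFun (hcon ⟨j, hj⟩ ⟨j', hj'⟩) 0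
        rw [Finset.sum_eq_single (e 0) (fun i _ hi => by
            rw [Pi.single_eq_of_ne hi, zero_mul]) (by simp),
          Finset.sum_eq_single (e 0) (fun i _ hi => by
            rw [Pi.single_eq_of_ne hi, zero_mul]) (by simp), h1])
      have h1 := hρ (e 1)
      have h2 := hρ (e 0)
      have h01 : e 1 ≠ e 0 := fun h => by
        have := hE.inj h
        simp at this
      rw [Pi.single_eq_of_ne h01] at h1
      rw [Pi.single_eq_same] at h2
      have h3 : ρ = 0 := by
        rcases mul_eq_zero.1 h1.symm with h | h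
        · exact h
        · exact absurd (by exact_mod_cast h) (hE.ne 1)
      rw [h3, zero_mul] at h2
      exact one_ne_zero h2
    · intro h
      apply hne1
      rw [hE.sum_ne a (fun i hi => hi)]
      exact h
    · intro h
      apply hne2
      rw [hE.sum_ne a (fun i hi => hi)]
      exact h
  · -- three coordinates
    obtain ⟨e, e0, hE⟩ := exists_en a (d := 3) (d0 := 1) hc rfl
    have hht : ∀ j : Fc v a, (v j.1 (e0 0) : ℚ) = htA v a j.1 := by
      intro j
      rw [hE.htA, Fin.sum_univ_one]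
    have hP : Pos (vr v a e) (fun j => (v j.1 (e0 0) : ℚ)) (fun x => a (e x)) (gord v a) :=
      { apos := fun x => Nat.pos_of_ne_zero (hE.ne x)
        gpos := hg
        hyp := fun j => hyp_tr hE j
        vert := fun j => by
          rintro ⟨l, h0, h1, h2, h3, h4⟩
          exact vert_tr hV hE j ⟨l, h0, h1, h2, h3, fun x => by
            rw [Subsingleton.elim x 0]
            exact h4⟩ }
    have h := hHA (vr v a e) _ _ _ hP (fun h => hNB (nonB_tr hE _ hht h))
      (fun h => hCP (circ_tr hE _ hht h)) (fun h => hne2 (by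
        rw [hE.sum_ne a (fun i hi => hi)]
        exact h)) (low_tr hr hray hg hE _ hht)
    rcases h with h | ⟨x, h⟩
    · exact Or.inr (Or.inr (Or.inr (Or.inl (sim_tr hE h))))
    · exact Or.inr (Or.inr (Or.inr (Or.inr (Or.inl ⟨e x, b1_tr hE h⟩))))
  · -- four coordinates
    obtain ⟨e, e0, hE⟩ := exists_en a (d := 4) (d0 := 0) hc rfl
    have hht : ∀ j : Fc v a, (fun _ : Fc v a => (0 : ℚ)) j = htA v a j.1 := by
      intro j
      rw [hE.htA]
      simp
    have hP : Pos (vr v a e) (fun _ => (0 : ℚ)) (fun x => a (e x)) (gord v a) :=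
      { apos := fun x => Nat.pos_of_ne_zero (hE.ne x)
        gpos := hg
        hyp := fun j => hyp_tr hE j
        vert := fun j => by
          rintro ⟨l, h0, h1, h2, h3, h4⟩
          exact vert_tr hV hE j ⟨l, h0, h1, h2, h3, fun x => x.elim0⟩ }
    obtain ⟨D, hD1, hD2, -⟩ := low_tr hr hray hg hE _ hht
    have h := hCA (vr v a e) _ _ hP (fun h => hNB (nonB_tr hE _ hht h))
      (fun h => hCP (circ_tr hE _ hht h)) ⟨D, hD1, hD2⟩ (fun h => hne2 (by
        rw [hE.sum_ne a (fun i hi => hi)]
        exact h))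
    rcases h with h | ⟨x, h⟩ | ⟨x, y, hxy, h⟩
    · exact Or.inr (Or.inr (Or.inr (Or.inl (sim_tr hE h))))
    · exact Or.inr (Or.inr (Or.inr (Or.inr (Or.inl ⟨e x, b1_tr hE h⟩))))
    · refine Or.inr (Or.inr (Or.inr (Or.inr (Or.inr ⟨e x, e y, ?_, fun h' => hxy (hE.inj h'),
        fun j hj => h ⟨j, hj⟩⟩))))
      intro i hi
      obtain ⟨x, -⟩ := (hE.rng0 i).1 hi
      exact x.elim0

end Pool.Agent.Y231.N4
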