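import Pool.Agent.Y231.N4.Defs

/-! Facets with three coordinates: assembly (job N4-HA, helper203). -/

set_option autoImplicit false
set_option linter.unusedSectionVars false

namespace Pool.Agent.Y231.N4.HA

open Finset

variable {ι : Type} [Fintype ι] [DecidableEq ι] {v : ι → Fin 3 → ℕ} {z : ι → ℚ}
  {a : Fin 3 → ℕ} {g : ℕ}

theorem sum3 {p q x : ι} (hpq : p ≠ q) (hpx : p ≠ x) (hqx : q ≠ x) (w f : ι → ℚ)
    (hw : ∀ j, j ∉ ({p, q, x} : Finset ι) → w j = 0) :
    ∑ j, w j * f j = w p * f p + w q * f q + w x * f x := by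
  rw [← Finset.sum_subset (Finset.subset_univ ({p, q, x} : Finset ι))
    (fun j _ hj => by rw [hw j hj, zero_mul])]
  rw [Finset.sum_insert (by simp [hpq, hpx]), Finset.sum_insert (by simp [hqx]),
    Finset.sum_singleton]
  ring

/-- the function with values `A, B, C` at `p, q, x` and zero elsewhere -/
def fn (p q x : ι) (A B C : ℚ) : ι → ℚ :=
  fun j => if j = p then A else if j = q then B else if j = x then C else 0

theorem fn_off {p q x : ι} (A B C : ℚ) (j : ι) (hj : j ∉ ({p, q, x} : Finset ι)) :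
    fn p q x A B C j = 0 := by
  simp only [mem_insert, mem_singleton, not_or] at hj
  simp [fn, hj.1, hj.2.1, hj.2.2]

theorem fn_p (p q x : ι) (A B C : ℚ) : fn p q x A B C p = A := by simp [fn]

theorem fn_q {p q x : ι} (hpq : p ≠ q) (A B C : ℚ) : fn p q x A B C q = B := by
  simp [fn, hpq.symm]

theorem fn_x {p q x : ι} (hpx : p ≠ x) (hqx : q ≠ x) (A B C : ℚ) : fn p q x A B C x = C := by
  simp [fn, hpx.symm, hqx.symm]

theorem ind_use {p q x : ι} (hpq : p ≠ q) (hpx : p ≠ x) (hqx : q ≠ x)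
    (h : IndOn v {p, q, x}) (A B C : ℚ)
    (hr : ∀ i, A * (v p i : ℚ) + B * (v q i : ℚ) + C * (v x i : ℚ) = 0) :
    A = 0 ∧ B = 0 ∧ C = 0 := by
  have h1 := h (fn p q x A B C) (fn_off A B C) (fun i => by
    rw [sum3 hpq hpx hqx _ _ (fn_off A B C), fn_p, fn_q hpq, fn_x hpx hqx]
    exact hr i)
  have e1 := h1 p
  have e2 := h1 q
  have e3 := h1 x
  rw [fn_p] at e1
  rw [fn_q hpq] at e2
  rw [fn_x hpx hqx] at e3
  exact ⟨e1, e2, e3⟩

theorem low_use {p q x : ι} (hpq : p ≠ q) (hpx : p ≠ x) (hqx : q ≠ x)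
    (h : Low v z {p, q, x}) (l : ι) (A B C : ℚ)
    (hr : ∀ i, A * (v p i : ℚ) + B * (v q i : ℚ) + C * (v x i : ℚ) = (v l i : ℚ)) :
    A * z p + B * z q + C * z x ≤ z l := by
  have h1 := h l (fn p q x A B C) (fn_off A B C) (fun i => by
    rw [sum3 hpq hpx hqx _ _ (fn_off A B C), fn_p, fn_q hpq, fn_x hpx hqx]
    exact hr i)
  rw [sum3 hpq hpx hqx _ _ (fn_off A B C), fn_p, fn_q hpq, fn_x hpx hqx] at h1
  exact h1

/-- coordinates -/
theorem coords {p q x : ι} (hpq : p ≠ q) (hpx : p ≠ x) (hqx : q ≠ x)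
    (h : IndOn v {p, q, x}) (l : ι) :
    ∃ A B C : ℚ, ∀ i, (v l i : ℚ) = A * (v p i : ℚ) + B * (v q i : ℚ) + C * (v x i : ℚ) := by
  let u : Fin 3 → (Fin 3 → ℚ) :=
    ![fun i => (v p i : ℚ), fun i => (v q i : ℚ), fun i => (v x i : ℚ)]
  have hu : LinearIndependent ℚ u := by
    rw [Fintype.linearIndependent_iff]
    intro c hc
    have h1 : ∀ i, c 0 * (v p i : ℚ) + c 1 * (v q i : ℚ) + c 2 * (v x i : ℚ) = 0 := by
      intro i
      have := congrFun hc i
      simpa [u, Fin.sum_univ_three] using this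
    obtain ⟨h2, h3, h4⟩ := ind_use hpq hpx hqx h _ _ _ h1
    intro m
    fin_cases m
    · exact h2
    · exact h3
    · exact h4
  have hs := hu.span_eq_top_of_card_eq_finrank' (by simp)
  have hm : (fun i => (v l i : ℚ)) ∈ Submodule.span ℚ (Set.range u) := by
    rw [hs]; trivial
  obtain ⟨c, hc⟩ := (Submodule.mem_span_range_iff_exists_fun ℚ).1 hm
  refine ⟨c 0, c 1, c 2, fun i => ?_⟩
  have := congrFun hc i
  simp [u, Fin.sum_univ_three] at this
  rw [← this]

theorem univ3 : ∀ i j k : Fin 3, i ≠ j → i ≠ k → j ≠ k →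
    (Finset.univ : Finset (Fin 3)) = {i, j, k} := by decide

theorem all3 : ∀ i j k : Fin 3, i ≠ j → i ≠ k → j ≠ k → ∀ m, m = i ∨ m = j ∨ m = k := by decide

theorem third : ∀ i j : Fin 3, i ≠ j → ∃ k, i ≠ k ∧ j ≠ k := by decide

theorem hyp3 (hP : Pos v z a g) {i j k : Fin 3} (hij : i ≠ j) (hik : i ≠ k) (hjk : j ≠ k)
    (x : ι) : a i * v x i + a j * v x j + a k * v x k = g := by
  have h := hP.hyp x
  rw [univ3 i j k hij hik hjk, Finset.sum_insert (by simp [hij, hik]),
    Finset.sum_insert (by simp [hjk]), Finset.sum_singleton] at h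
  omega

/-- different points have different vectors -/
theorem inj (hP : Pos v z a g) {x y : ι} (h : ∀ i, v x i = v y i) : x = y := by
  by_contra hxy
  have key : ∀ x y : ι, x ≠ y → (∀ i, v x i = v y i) → z x ≤ z y → False := by
    intro x y hxy h hz
    refine hP.vert y ⟨Pi.single x 1, fun k => ?_, ?_, ?_, fun i => ?_, ?_⟩
    · by_cases hk : k = x
      · subst hk; simp
      · rw [Pi.single_eq_of_ne hk]
    · rw [Pi.single_eq_of_ne (Ne.symm hxy)]
    · rw [Finset.sum_pi_single']; simp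
    · rw [Finset.sum_eq_single x]
      · rw [Pi.single_eq_same, one_mul, h i]
      · intro b _ hb
        rw [Pi.single_eq_of_ne hb, zero_mul]
      · simp
    · rw [Finset.sum_eq_single x]
      · rw [Pi.single_eq_same, one_mul]; exact hz
      · intro b _ hb
        rw [Pi.single_eq_of_ne hb, zero_mul]
      · simp
  rcases le_total (z x) (z y) with hz | hz
  · exact key x y hxy h hz
  · exact key y x (Ne.symm hxy) (fun i => (h i).symm) hz

/-- two equal coordinates are enough -/
theorem inj2 (hP : Pos v z a g) {i j k : Fin 3} (hij : i ≠ j) (hik : i ≠ k) (hjk : j ≠ k)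
    {x y : ι} (h1 : v x i = v y i) (h2 : v x j = v y j) : x = y := by
  refine inj hP fun m => ?_
  have e1 := hyp3 hP hij hik hjk x
  have e2 := hyp3 hP hij hik hjk y
  have ak := hP.apos k
  have h3 : v x k = v y k := by
    rw [h1, h2] at e1
    have : a k * v x k = a k * v y k := by omega
    exact Nat.eq_of_mul_eq_mul_left ak this
  rcases all3 i j k hij hik hjk m with rfl | rfl | rfl
  · exact h1
  · exact h2
  · exact h3

/-- the sum of the coefficients is one -/
theorem coef_sum (hP : Pos v z a g) {p q x l : ι} {A B C : ℚ}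
    (hr : ∀ i, (v l i : ℚ) = A * (v p i : ℚ) + B * (v q i : ℚ) + C * (v x i : ℚ)) :
    A + B + C = 1 := by
  have e : ∀ y : ι, (a 0 : ℚ) * v y 0 + a 1 * v y 1 + a 2 * v y 2 = g := by
    intro y
    have := hP.hyp y
    rw [Fin.sum_univ_three] at this
    exact_mod_cast this
  have g0 : (g : ℚ) ≠ 0 := by exact_mod_cast hP.gpos.ne'
  have h0 := hr 0
  have h1 := hr 1
  have h2 := hr 2
  have el := e l
  rw [h0, h1, h2] at el
  have : (A + B + C) * g = 1 * g := by
    linear_combination el - A * e p - B * e q - C * e x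
  exact mul_right_cancel₀ g0 this

/-- walking along the line `v_i = 0` in the direction of increasing `v_j` -/
theorem upper (h4 : StH4) (hn : StHN) (hP : Pos v z a g) (hNB : ¬ NonBS v z)
    (hCS : ¬ CircS v z) (hsum : ∑ i, a i ≠ 2 * g) {i j k : Fin 3} (hij : i ≠ j) (hik : i ≠ k)
    (hjk : j ≠ k) {p u₀ w₀ y₀ : ι} (hp : v p i = 1) (hu : v u₀ i = 0) (hw : v w₀ i = 0)
    (hy : v y₀ i = 0) (huw : v u₀ j < v w₀ j) (hyu : v y₀ j < v u₀ j)
    (hI : IndOn v {p, u₀, w₀}) (hL : Low v z {p, u₀, w₀}) :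
    ∃ u w : ι, v u i = 0 ∧ v w i = 0 ∧ v u j < v w j ∧ v w₀ j ≤ v w j ∧
      p ≠ u ∧ p ≠ w ∧ u ≠ w ∧ IndOn v {p, u, w} ∧
      ∀ (l : ι) (A B C : ℚ),
        (∀ m, (v l m : ℚ) = A * (v p m : ℚ) + B * (v u m : ℚ) + C * (v w m : ℚ)) → 0 ≤ B := by
  classical
  let R : ι × ι → Prop := fun e => v e.1 i = 0 ∧ v e.2 i = 0 ∧ v e.1 j < v e.2 j ∧
    IndOn v {p, e.1, e.2} ∧ Low v z {p, e.1, e.2} ∧ ∃ y, v y i = 0 ∧ v y j < v e.1 j
  have hR0 : R (u₀, w₀) := ⟨hu, hw, huw, hI, hL, y₀, hy, hyu⟩
  obtain ⟨⟨u, w⟩, hmem, hmax⟩ := Finset.exists_max_image (univ.filter fun e => R e)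
    (fun e => v e.2 j) ⟨(u₀, w₀), by simp [hR0]⟩
  have hR : R (u, w) := (mem_filter.1 hmem).2
  obtain ⟨h1, h2, h3, h5, h6, y, h7, h8⟩ := hR
  simp only at h1 h2 h3 h5 h6 h7 h8
  have hmax' : ∀ e, R e → v e.2 j ≤ v w j := fun e he =>
    hmax e (by simp [he])
  have hpu : p ≠ u := by
    rintro rfl
    omega
  have hpw : p ≠ w := by
    rintro rfl
    omega
  have huw' : u ≠ w := by
    rintro rfl
    omega
  refine ⟨u, w, h1, h2, h3, hmax' _ hR0, hpu, hpw, huw', h5, ?_⟩
  intro l A B C hl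
  by_contra hB
  push Not at hB
  have hset : ({p, w, u} : Finset ι) = {p, u, w} := by rw [Finset.pair_comm w u]
  obtain ⟨l', A', B', C', hC', hlp, hlw, hlu, hl', hI', hL'⟩ :=
    hn v z a g hP p w u l hpw hpu (Ne.symm huw') (by rw [hset]; exact h5) (by rw [hset]; exact h6)
      A C B hB (fun m => by rw [hl m]; ring)
  have hs := coef_sum hP hl'
  obtain ⟨m, hm⟩ := h4 v z a g hP hNB hCS hsum p w u l' hpw hpu (Ne.symm hlp) (Ne.symm huw')
    (Ne.symm hlw) (Ne.symm hlu) (by rw [hset]; exact h5) (by rw [hset]; exact h6) hI' hL'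
    A' B' C' hC' hl'
  rcases hm with ⟨m1, m2, m3, m4⟩ | ⟨m1, m2, m3, m4⟩
  · -- apex `p`
    have hmi : m = i := by
      by_contra hmi
      rcases all3 i j k hij hik hjk m with rfl | rfl | rfl
      · exact hmi rfl
      · exact huw' (inj2 hP hij hik hjk (by rw [h1, h2]) (by rw [m3, m2]))
      · exact huw' (inj2 hP hik hij (Ne.symm hjk) (by rw [h1, h2]) (by rw [m3, m2]))
    subst hmi
    have hA' : A' = 0 := by
      have e := hl' m
      rw [m4, m1, m2, m3] at e
      push_cast at e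
      linarith
    have hj := hl' j
    rw [hA'] at hj hs
    have hlt : v w j < v l' j := by
      have e3 : (v u j : ℚ) < (v w j : ℚ) := by exact_mod_cast h3
      have : (v w j : ℚ) < (v l' j : ℚ) := by
        rw [hj]
        have hB' : B' = 1 - C' := by linarith
        rw [hB']
        nlinarith
      exact_mod_cast this
    have := hmax' (w, l') ⟨h2, m4, hlt, hI', hL', u, h1, h3⟩
    simp only at this
    omega
  · -- apex `w`
    rcases all3 i j k hij hik hjk m with rfl | rfl | rfl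
    · omega
    · omega
    · have e1 := hyp3 hP hij hik hjk u
      have e2 := hyp3 hP hij hik hjk w
      rw [h1, m3] at e1
      rw [h2, m2] at e2
      have aj := hP.apos j
      have := Nat.mul_lt_mul_of_pos_left h3 aj
      have ak := hP.apos m
      omega

/-- the end of the proof -/
theorem final (h4 : StH4) (hn : StHN) (hP : Pos v z a g) (hNB : ¬ NonBS v z)
    (hCS : ¬ CircS v z) (hsum : ∑ i, a i ≠ 2 * g) {i j k : Fin 3} (hij : i ≠ j) (hik : i ≠ k)
    (hjk : j ≠ k) {p q x y : ι} (hp : v p i = 1) (hq : v q i = 0) (hx : v x i = 0)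
    (hy : v y i = 0) (hxq : v x j < v q j) (hqy : v q j < v y j)
    (hI : IndOn v {p, q, x}) (hL : Low v z {p, q, x})
    (hI' : IndOn v {p, q, y}) (hL' : Low v z {p, q, y}) : B1on v Finset.univ i := by
  obtain ⟨u, w, h1, h2, h3, h5, hpu, hpw, huw, hIu, hB⟩ :=
    upper h4 hn hP hNB hCS hsum hij hik hjk hp hq hy hx hqy hxq hI' hL'
  -- the other direction
  have conv : ∀ s t : ι, v s i = 0 → v t i = 0 → v s j < v t j → v t k < v s k := by
    intro s t hs ht hst
    have e1 := hyp3 hP hij hik hjk s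
    have e2 := hyp3 hP hij hik hjk t
    rw [hs] at e1
    rw [ht] at e2
    have aj := hP.apos j
    have := Nat.mul_lt_mul_of_pos_left hst aj
    by_contra hcon
    push Not at hcon
    have := Nat.mul_le_mul_left (a k) hcon
    omega
  have conv' : ∀ s t : ι, v s i = 0 → v t i = 0 → v s k < v t k → v t j < v s j := by
    intro s t hs ht hst
    have e1 := hyp3 hP hij hik hjk s
    have e2 := hyp3 hP hij hik hjk t
    rw [hs] at e1
    rw [ht] at e2
    have ak := hP.apos k
    have := Nat.mul_lt_mul_of_pos_left hst ak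
    by_contra hcon
    push Not at hcon
    have := Nat.mul_le_mul_left (a j) hcon
    omega
  obtain ⟨u', w', h1', h2', h3', h5', hpu', hpw', huw', hIu', hB'⟩ :=
    upper h4 hn hP hNB hCS hsum hik hij (Ne.symm hjk) hp hq hx hy (conv _ _ hx hq hxq)
      (conv _ _ hq hy hqy) hI hL
  have h3j := conv' _ _ h1' h2' h3'
  have h5j : v w' j ≤ v x j := by
    by_contra hcon
    push Not at hcon
    have := conv _ _ hx h2' hcon
    omega
  refine ⟨p, Finset.mem_univ _, hp, fun l _ hlp => ?_⟩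
  by_contra hl
  obtain ⟨A, B, C, hc⟩ := coords hpu hpw huw hIu l
  obtain ⟨A', B', C', hc'⟩ := coords hpu' hpw' huw' hIu' l
  have hB0 := hB l A B C hc
  have hB0' := hB' l A' B' C' hc'
  have s1 := coef_sum hP hc
  have s2 := coef_sum hP hc'
  have ei := hc i
  have ei' := hc' i
  rw [hp, h1, h2] at ei
  rw [hp, h1', h2'] at ei'
  push_cast at ei ei'
  have eA : A = (v l i : ℚ) := by linarith
  have eA' : A' = (v l i : ℚ) := by linarith
  have ej := hc j
  have ej' := hc' j
  have hl1 : (1 : ℚ) ≤ (v l i : ℚ) := by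
    exact_mod_cast Nat.one_le_iff_ne_zero.2 hl
  have q1 : (v u j : ℚ) < v w j := by exact_mod_cast h3
  have q2 : (v w' j : ℚ) < v u' j := by exact_mod_cast h3j
  have q3 : (v w' j : ℚ) < v w j := by
    have : v w' j < v w j := by omega
    exact_mod_cast this
  have eC : C = 1 - A - B := by linarith
  have eC' : C' = 1 - A' - B' := by linarith
  have b1 : 0 ≤ B * ((v w j : ℚ) - v u j) := mul_nonneg hB0 (by linarith)
  have b2 : 0 ≤ B' * ((v u' j : ℚ) - v w' j) := mul_nonneg hB0' (by linarith)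
  have f1 : (v l j : ℚ) = A * v p j + (1 - A) * v w j - B * ((v w j : ℚ) - v u j) := by
    rw [ej, eC]; ring
  have f2 : (v l j : ℚ) = A * v p j + (1 - A) * v w' j + B' * ((v u' j : ℚ) - v w' j) := by
    rw [ej', eC', eA', eA]; ring
  have f3 : (1 - A) * ((v w' j : ℚ) - v w j) ≤ 0 := by
    have : (1 - A) * ((v w' j : ℚ) - v w j) = (1 - A) * v w' j - (1 - A) * v w j := by ring
    linarith
  have f4 : A = 1 := by
    by_contra hA
    have hA1 : 1 < A := lt_of_le_of_ne (by rw [eA]; exact hl1) (Ne.symm hA)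
    have : 0 < (1 - A) * ((v w' j : ℚ) - v w j) := mul_pos_of_neg_of_neg (by linarith) (by linarith)
    linarith
  have f5 : (v l j : ℚ) = v p j := by
    rw [f4] at f1 f2
    apply le_antisymm <;> linarith
  have f6 : v l i = v p i := by
    rw [f4] at eA
    rw [hp]
    exact_mod_cast eA.symm
  have f7 : v l j = v p j := by exact_mod_cast f5
  exact hlp (inj2 hP hij hik hjk f6 f7)

/-- one side -/
theorem side (h4 : StH4) (hn : StHN) (hP : Pos v z a g) (hNB : ¬ NonBS v z)
    (hCS : ¬ CircS v z) (hsum : ∑ i, a i ≠ 2 * g) {i : Fin 3}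
    {p q x y : ι} (hp : v p i = 1) (hq : v q i = 0) (hx : v x i = 0)
    (hy : v y i = 0) (hxy : x ≠ y)
    (hI : IndOn v {p, q, x}) (hL : Low v z {p, q, x})
    (hI' : IndOn v {p, q, y}) (hL' : Low v z {p, q, y}) {A B C : ℚ} (hC : C < 0)
    (hr : ∀ m, (v y m : ℚ) = A * (v p m : ℚ) + B * (v q m : ℚ) + C * (v x m : ℚ)) :
    B1on v Finset.univ i := by
  have hex : ∀ m : Fin 3, ∃ j : Fin 3, m ≠ j := by decide
  obtain ⟨j, hij⟩ := hex i
  obtain ⟨k, hik, hjk⟩ := third i j hij
  have hs := coef_sum hP hr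
  have ei := hr i
  rw [hp, hq, hx, hy] at ei
  push_cast at ei
  have hA : A = 0 := by linarith
  have hB : B = 1 - C := by linarith
  have ej := hr j
  rw [hA, hB] at ej
  rcases lt_trichotomy (v x j) (v y j) with h | h | h
  · have h' : (v x j : ℚ) < v y j := by exact_mod_cast h
    have h1 : v x j < v q j := by
      have : (v x j : ℚ) < v q j := by
        by_contra hcon
        push Not at hcon
        nlinarith
      exact_mod_cast this
    have h2 : v q j < v y j := by
      have : (v q j : ℚ) < v y j := by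
        by_contra hcon
        push Not at hcon
        have : (v x j : ℚ) < v q j := by exact_mod_cast h1
        nlinarith
      exact_mod_cast this
    exact final h4 hn hP hNB hCS hsum hij hik hjk hp hq hx hy h1 h2 hI hL hI' hL'
  · exact (hxy (inj2 hP hij hik hjk (by rw [hx, hy]) h)).elim
  · have h' : (v y j : ℚ) < v x j := by exact_mod_cast h
    have h1 : v q j < v x j := by
      have : (v q j : ℚ) < v x j := by
        by_contra hcon
        push Not at hcon
        nlinarith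
      exact_mod_cast this
    have h2 : v y j < v q j := by
      have : (v y j : ℚ) < v q j := by
        by_contra hcon
        push Not at hcon
        have : (v q j : ℚ) < v x j := by exact_mod_cast h1
        nlinarith
      exact_mod_cast this
    exact final h4 hn hP hNB hCS hsum hij hik hjk hp hq hy hx h2 h1 hI' hL' hI hL

/-- the step from a point outside with a negative coordinate -/
theorem step (h4 : StH4) (hn : StHN) (hP : Pos v z a g) (hNB : ¬ NonBS v z)
    (hCS : ¬ CircS v z) (hsum : ∑ i, a i ≠ 2 * g)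
    {p q x w : ι} (hpq : p ≠ q) (hpx : p ≠ x) (hqx : q ≠ x)
    (hI : IndOn v {p, q, x}) (hL : Low v z {p, q, x}) {A B C : ℚ} (hC : C < 0)
    (hr : ∀ m, (v w m : ℚ) = A * (v p m : ℚ) + B * (v q m : ℚ) + C * (v x m : ℚ)) :
    ∃ i, B1on v Finset.univ i := by
  obtain ⟨y, A', B', C', hC', hyp, hyq, hyx, hr', hI', hL'⟩ :=
    hn v z a g hP p q x w hpq hpx hqx hI hL A B C hC hr
  obtain ⟨i, hi⟩ := h4 v z a g hP hNB hCS hsum p q x y hpq hpx (Ne.symm hyp) hqx
    (Ne.symm hyq) (Ne.symm hyx) hI hL hI' hL' A' B' C' hC' hr'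
  refine ⟨i, ?_⟩
  rcases hi with ⟨m1, m2, m3, m4⟩ | ⟨m1, m2, m3, m4⟩
  · exact side h4 hn hP hNB hCS hsum m1 m2 m3 m4 (Ne.symm hyx) hI hL hI' hL' hC' hr'
  · have e1 : ({q, p, x} : Finset ι) = {p, q, x} := Finset.insert_comm _ _ _
    have e2 : ({q, p, y} : Finset ι) = {p, q, y} := Finset.insert_comm _ _ _
    exact side h4 hn hP hNB hCS hsum m2 m1 m3 m4 (Ne.symm hyx) (by rw [e1]; exact hI)
      (by rw [e1]; exact hL) (by rw [e2]; exact hI') (by rw [e2]; exact hL') hC'
      (A := B') (B := A') (fun m => by rw [hr' m]; ring)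

end Pool.Agent.Y231.N4.HA

namespace Pool.Agent.Y231.N4

open Finset HA in
/-- **Facets with three coordinates.** -/
theorem HA (h4 : StH4) (hn : StHN) : StHA := by
  intro ι _ v z a g hP hNB hCS hsum ⟨D, hD, hI, hL⟩
  classical
  by_cases hU : IndOn v Finset.univ
  · exact Or.inl hU
  right
  obtain ⟨p, q, x, hpq, hpx, hqx, rfl⟩ := Finset.card_eq_three.1 hD
  obtain ⟨w, hw⟩ : ∃ w, w ∉ ({p, q, x} : Finset ι) := by
    by_contra hcon
    push Not at hcon
    apply hU
    rwa [Finset.eq_univ_iff_forall.2 hcon] at hI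
  obtain ⟨A, B, C, hr⟩ := coords hpq hpx hqx hI w
  have hs := coef_sum hP hr
  have hneg : A < 0 ∨ B < 0 ∨ C < 0 := by
    by_contra hcon
    push Not at hcon
    obtain ⟨hA, hB, hC⟩ := hcon
    refine hP.vert w ⟨fn p q x A B C, fun k => ?_, fn_off A B C w hw, ?_, fun i => ?_, ?_⟩
    · unfold fn
      split_ifs <;> first | assumption | exact le_rfl
    · have := sum3 hpq hpx hqx _ (fun _ => (1 : ℚ)) (fn_off A B C)
      simp only [mul_one] at this
      rw [this, fn_p, fn_q hpq, fn_x hpx hqx, hs]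
    · rw [sum3 hpq hpx hqx _ _ (fn_off A B C), fn_p, fn_q hpq, fn_x hpx hqx, hr i]
    · rw [sum3 hpq hpx hqx _ _ (fn_off A B C), fn_p, fn_q hpq, fn_x hpx hqx]
      exact low_use hpq hpx hqx hL w A B C (fun i => (hr i).symm)
  rcases hneg with h | h | h
  · -- `{q, x, p}`
    have e : ({q, x, p} : Finset ι) = {p, q, x} := by
      ext t
      simp only [mem_insert, mem_singleton]
      tauto
    exact step h4 hn hP hNB hCS hsum hqx (Ne.symm hpq) (Ne.symm hpx) (by rw [e]; exact hI)
      (by rw [e]; exact hL) h (A := B) (B := C) (fun m => by rw [hr m]; ring)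
  · have e : ({p, x, q} : Finset ι) = {p, q, x} := by
      rw [Finset.pair_comm x q]
    exact step h4 hn hP hNB hCS hsum hpx hpq (Ne.symm hqx) (by rw [e]; exact hI)
      (by rw [e]; exact hL) h (A := A) (B := C) (fun m => by rw [hr m]; ring)
  · exact step h4 hn hP hNB hCS hsum hpq hpx hqx hI hL h hr

end Pool.Agent.Y231.N4
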