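import Pool.Agent.Y231.N4.Defs

/-!
# Facets of Newton polyhedra in four variables: the neighbour of a lower triangle

Three points in three coordinates: sums supported on a triple, coordinates of a point with respect
to an independent triple, and the proof of the statement `StHN`.
-/

set_option autoImplicit false

namespace Pool.Agent.Y231.N4

section Tri
variable {ι : Type} [Fintype ι] [DecidableEq ι]

theorem sum3 {p q x : ι} (hpq : p ≠ q) (hpx : p ≠ x) (hqx : q ≠ x) (w F : ι → ℚ)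
    (hw : ∀ j, j ∉ ({p, q, x} : Finset ι) → w j = 0) :
    ∑ j, w j * F j = w p * F p + w q * F q + w x * F x := by
  have h1 : ∑ j, w j * F j = ∑ j ∈ ({p, q, x} : Finset ι), w j * F j := by
    symm
    apply Finset.sum_subset (Finset.subset_univ _)
    intro j _ hj
    rw [hw j hj, zero_mul]
  have hx1 : q ∉ ({x} : Finset ι) := by simpa using hqx
  have hx2 : p ∉ ({q, x} : Finset ι) := by
    simp only [Finset.mem_insert, Finset.mem_singleton, not_or]
    exact ⟨hpq, hpx⟩
  rw [h1, Finset.sum_insert hx2, Finset.sum_insert hx1, Finset.sum_singleton]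
  ring

/-- the function with the values `α`, `β`, `γ` at `p`, `q`, `x` -/
def fn3 (p q x : ι) (α β γ : ℚ) : ι → ℚ :=
  fun j => if j = p then α else if j = q then β else if j = x then γ else 0

omit [Fintype ι] in
theorem fn3_off {p q x : ι} (α β γ : ℚ) (j : ι) (hj : j ∉ ({p, q, x} : Finset ι)) :
    fn3 p q x α β γ j = 0 := by
  simp only [Finset.mem_insert, Finset.mem_singleton, not_or] at hj
  simp [fn3, hj.1, hj.2.1, hj.2.2]

omit [Fintype ι] in
theorem fn3_p {p q x : ι} (α β γ : ℚ) : fn3 p q x α β γ p = α := by simp [fn3]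

omit [Fintype ι] in
theorem fn3_q {p q x : ι} (hpq : p ≠ q) (α β γ : ℚ) : fn3 p q x α β γ q = β := by
  simp [fn3, hpq.symm]

omit [Fintype ι] in
theorem fn3_x {p q x : ι} (hpx : p ≠ x) (hqx : q ≠ x) (α β γ : ℚ) :
    fn3 p q x α β γ x = γ := by
  simp [fn3, hpx.symm, hqx.symm]

theorem sum_fn3 {p q x : ι} (hpq : p ≠ q) (hpx : p ≠ x) (hqx : q ≠ x) (α β γ : ℚ) (F : ι → ℚ) :
    ∑ j, fn3 p q x α β γ j * F j = α * F p + β * F q + γ * F x := by
  rw [sum3 hpq hpx hqx _ F (fn3_off α β γ), fn3_p, fn3_q hpq, fn3_x hpx hqx]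

theorem ind3 {d : ℕ} {v : ι → Fin d → ℕ} {p q x : ι} (hpq : p ≠ q) (hpx : p ≠ x) (hqx : q ≠ x) :
    IndOn v {p, q, x} ↔ ∀ α β γ : ℚ,
      (∀ i, α * (v p i : ℚ) + β * (v q i : ℚ) + γ * (v x i : ℚ) = 0) → α = 0 ∧ β = 0 ∧ γ = 0 := by
  constructor
  · intro h α β γ hr
    have h1 := h (fn3 p q x α β γ) (fn3_off α β γ) (by
      intro i
      rw [sum_fn3 hpq hpx hqx α β γ (fun j => (v j i : ℚ))]
      exact hr i)
    refine ⟨?_, ?_, ?_⟩
    · have := h1 p; rwa [fn3_p] at this
    · have := h1 q; rwa [fn3_q hpq] at this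
    · have := h1 x; rwa [fn3_x hpx hqx] at this
  · intro h w hw hr j
    have h1 := h (w p) (w q) (w x) (by
      intro i
      rw [← sum3 hpq hpx hqx w (fun j => (v j i : ℚ)) hw]
      exact hr i)
    by_cases hj : j ∈ ({p, q, x} : Finset ι)
    · simp only [Finset.mem_insert, Finset.mem_singleton] at hj
      rcases hj with rfl | rfl | rfl
      · exact h1.1
      · exact h1.2.1
      · exact h1.2.2
    · exact hw j hj

theorem low3 {d : ℕ} {v : ι → Fin d → ℕ} {z : ι → ℚ} {p q x : ι}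
    (hpq : p ≠ q) (hpx : p ≠ x) (hqx : q ≠ x) :
    Low v z {p, q, x} ↔ ∀ (l : ι) (α β γ : ℚ),
      (∀ i, (v l i : ℚ) = α * (v p i : ℚ) + β * (v q i : ℚ) + γ * (v x i : ℚ)) →
      α * z p + β * z q + γ * z x ≤ z l := by
  constructor
  · intro h l α β γ hr
    have h1 := h l (fn3 p q x α β γ) (fn3_off α β γ) (by
      intro i
      rw [sum_fn3 hpq hpx hqx α β γ (fun j => (v j i : ℚ))]
      exact (hr i).symm)
    rwa [sum_fn3 hpq hpx hqx α β γ z] at h1
  · intro h l w hw hr
    rw [sum3 hpq hpx hqx w z hw]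
    apply h
    intro i
    rw [← sum3 hpq hpx hqx w (fun j => (v j i : ℚ)) hw]
    exact (hr i).symm

theorem uniq3 {d : ℕ} {v : ι → Fin d → ℕ} {p q x : ι} (hpq : p ≠ q) (hpx : p ≠ x) (hqx : q ≠ x)
    (hI : IndOn v {p, q, x}) {α β γ α' β' γ' : ℚ}
    (h : ∀ i, α * (v p i : ℚ) + β * (v q i : ℚ) + γ * (v x i : ℚ) =
      α' * (v p i : ℚ) + β' * (v q i : ℚ) + γ' * (v x i : ℚ)) : α = α' ∧ β = β' ∧ γ = γ' := by
  have h1 := (ind3 hpq hpx hqx).1 hI (α - α') (β - β') (γ - γ') (by
    intro i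
    linear_combination h i)
  exact ⟨by linarith [h1.1], by linarith [h1.2.1], by linarith [h1.2.2]⟩

theorem rep3 {v : ι → Fin 3 → ℕ} {p q x : ι} (hpq : p ≠ q) (hpx : p ≠ x) (hqx : q ≠ x)
    (hI : IndOn v {p, q, x}) (t : Fin 3 → ℚ) :
    ∃ α β γ : ℚ, ∀ i, t i = α * (v p i : ℚ) + β * (v q i : ℚ) + γ * (v x i : ℚ) := by
  let M : Matrix (Fin 3) (Fin 3) ℚ := fun i k => ![(v p i : ℚ), (v q i : ℚ), (v x i : ℚ)] k
  have hM : ∀ (y : Fin 3 → ℚ) (i : Fin 3), M.mulVec y i =
      y 0 * (v p i : ℚ) + y 1 * (v q i : ℚ) + y 2 * (v x i : ℚ) := by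
    intro y i
    simp only [Matrix.mulVec, dotProduct, Fin.sum_univ_three, M, Matrix.cons_val_zero,
      Matrix.cons_val_one, Matrix.cons_val]
    ring
  have hdet : M.det ≠ 0 := by
    intro h0
    obtain ⟨y, hy0, hy⟩ := Matrix.exists_mulVec_eq_zero_iff.2 h0
    have h1 := (ind3 hpq hpx hqx).1 hI (y 0) (y 1) (y 2) (by
      intro i
      rw [← hM y i, hy]
      rfl)
    apply hy0
    funext i
    fin_cases i
    · exact h1.1
    · exact h1.2.1
    · exact h1.2.2
  have hu : IsUnit M.det := isUnit_iff_ne_zero.2 hdet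
  refine ⟨M⁻¹.mulVec t 0, M⁻¹.mulVec t 1, M⁻¹.mulVec t 2, ?_⟩
  intro i
  rw [← hM, Matrix.mulVec_mulVec, Matrix.mul_nonsing_inv _ hu, Matrix.one_mulVec]

end Tri

/-- **Part HN.** -/
theorem stHN : Pool.Agent.Y231.N4.StHN := by
  intro ι _ _ v z a g _ p q x w hpq hpx hqx hI hL α β γ hγ hw
  have hrep : ∀ l : ι, ∃ α β γ : ℚ, ∀ i, (v l i : ℚ) =
      α * (v p i : ℚ) + β * (v q i : ℚ) + γ * (v x i : ℚ) := fun l =>
    rep3 hpq hpx hqx hI (fun i => (v l i : ℚ))
  choose A B C hABC using hrep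
  have hu : ∀ (l : ι) (α β γ : ℚ), (∀ i, (v l i : ℚ) =
      α * (v p i : ℚ) + β * (v q i : ℚ) + γ * (v x i : ℚ)) → α = A l ∧ β = B l ∧ γ = C l := by
    intro l α β γ h
    apply uniq3 hpq hpx hqx hI
    intro i
    rw [← h i, ← hABC l i]
  let Δ : ι → ℚ := fun l => z l - (A l * z p + B l * z q + C l * z x)
  have hΔ : ∀ l, 0 ≤ Δ l := by
    intro l
    have := (low3 hpq hpx hqx).1 hL l (A l) (B l) (C l) (hABC l)
    simp only [Δ]
    linarith
  have hne : (Finset.univ.filter fun l => C l < 0).Nonempty := by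
    refine ⟨w, ?_⟩
    simp only [Finset.mem_filter, Finset.mem_univ, true_and]
    rw [← (hu w α β γ hw).2.2]
    exact hγ
  obtain ⟨y, hy, hmin⟩ := Finset.exists_min_image _ (fun l => Δ l / (-C l)) hne
  simp only [Finset.mem_filter, Finset.mem_univ, true_and] at hy hmin
  have hyp : y ≠ p := by
    rintro rfl
    have := (hu y 1 0 0 (by intro i; ring)).2.2
    rw [← this] at hy
    exact lt_irrefl _ hy
  have hyq : y ≠ q := by
    rintro rfl
    have := (hu y 0 1 0 (by intro i; ring)).2.2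
    rw [← this] at hy
    exact lt_irrefl _ hy
  have hyx : y ≠ x := by
    rintro rfl
    have := (hu y 0 0 1 (by intro i; ring)).2.2
    rw [← this] at hy
    linarith
  refine ⟨y, A y, B y, C y, hy, hyp, hyq, hyx, hABC y, ?_, ?_⟩
  · rw [ind3 hpq hyp.symm hyq.symm]
    intro a' b' c' h
    have h1 := (ind3 hpq hpx hqx).1 hI (a' + c' * A y) (b' + c' * B y) (c' * C y) (by
      intro i
      have h2 := h i
      rw [hABC y i] at h2
      linear_combination h2)
    have hc : c' = 0 := by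
      rcases mul_eq_zero.1 h1.2.2 with h3 | h3
      · exact h3
      · exact absurd h3 (ne_of_lt hy)
    subst hc
    refine ⟨by linarith [h1.1], by linarith [h1.2.1], rfl⟩
  · rw [low3 hpq hyp.symm hyq.symm]
    intro l a' b' c' h
    have h1 := hu l (a' + c' * A y) (b' + c' * B y) (c' * C y) (by
      intro i
      have h2 := h i
      rw [hABC y i] at h2
      linear_combination h2)
    have key : c' * Δ y ≤ Δ l := by
      by_cases hl : C l < 0
      · have h3 := hmin l hl
        have h4 : 0 < -C l := by linarith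
        have h5 : 0 < -C y := by linarith
        rw [div_le_div_iff₀ h5 h4] at h3
        have h6 : c' * (-C y) = -C l := by rw [← h1.2.2]; ring
        have h7 : (c' * Δ y) * (-C y) ≤ Δ l * (-C y) := by
          calc (c' * Δ y) * (-C y) = Δ y * (c' * (-C y)) := by ring
            _ = Δ y * (-C l) := by rw [h6]
            _ ≤ Δ l * (-C y) := h3
        exact le_of_mul_le_mul_right h7 h5
      · have h3 : 0 ≤ C l := not_lt.1 hl
        have h4 : c' ≤ 0 := by
          by_contra hc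
          have hc' : 0 < c' := not_le.1 hc
          have : c' * C y < 0 := mul_neg_of_pos_of_neg hc' hy
          rw [h1.2.2] at this
          linarith
        have h5 : c' * Δ y ≤ 0 := mul_nonpos_of_nonpos_of_nonneg h4 (hΔ y)
        linarith [hΔ l]
    have e1 : a' = A l - c' * A y := by linarith [h1.1]
    have e2 : b' = B l - c' * B y := by linarith [h1.2.1]
    have e3 : C l = c' * C y := h1.2.2.symm
    simp only [Δ] at key
    rw [e1, e2]
    rw [e3] at key
    nlinarith [key]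

end Pool.Agent.Y231.N4
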