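import Pool.Agent.Y231.N4.RC

/-!
# The root of a circuit of the lower hull of a facet
-/

set_option autoImplicit false

namespace Pool.Agent.Y231.N4

open MvPolynomial Pool.Agent.W571.MM Pool.Agent.W425.SV
open Pool.Agent.TH216.LX (lin lin_X lin_C lin_X0 NM lin_dm lin_dm_dvd lin_dm_fac lin_el off_face)
open Pool.Agent.W426.SM (gord face)
open Pool.Agent.H628R4.TZ (el)
open Pool.Agent.W425.SM (dm)

variable {r N : ℕ}

theorem NM.negI {M : ℕ} {x : ℚ} (h : NM M x) : NegI x := by
  obtain ⟨m, -, h⟩ := h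
  exact ⟨m + 1, Nat.succ_pos m, h⟩

theorem NegI.ne0 {x : ℚ} (h : NegI x) : x ≠ 0 := by
  obtain ⟨m, hm, rfl⟩ := h
  have : (m : ℚ) ≠ 0 := by exact_mod_cast hm.ne'
  simpa using this

/-- the terms of the second kind: the signs on `G` -/
theorem signs (v : Fin r → Fin N → ℕ) (a : Fin N → ℕ) (D : Finset (Fin r)) (k : Fin r)
    (hk : k ∉ D) (hDf : ∀ j ∈ D, face v a j) (hkf : face v a k)
    (α : Fin r → Fin r → ℚ) (hα0 : ∀ l j, j ∉ D → α l j = 0)
    (hrel : ∀ w : Fin r → ℝ, (∀ i, a i ≠ 0 → ∑ j, w j * (v j i : ℝ) = 0) →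
      ∀ j ∈ D, w j = -∑ l ∈ Dᶜ, w l * (α l j : ℝ))
    (hlow : ∀ l, face v a l → ∑ j, α l j * htA v a j ≤ htA v a l)
    (G : Finset (Fin r)) (hGD : ∀ j ∈ G, j ≠ k → j ∈ D ∧ α k j < 0)
    (hht : ∀ l, face v a l → ∀ j ∈ G, j ≠ k → α l j < 0 →
      (htA v a k - ∑ m, α k m * htA v a m) * (-α l j) ≤
        (htA v a l - ∑ m, α l m * htA v a m) * (-α k j))
    (c0 : Fin r → ℤ) (l : Fin r → ℝ) (hl : ∀ j, 0 ≤ l j)
    (hl1 : ∑ j, ((c0 j : ℝ) + l j) = 0)
    (hl2 : ∀ i, ∑ j, ((c0 j : ℝ) + l j) * (v j i : ℝ) ≤ 0)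
    (hl3 : ∃ i, ∑ j, ((c0 j : ℝ) + l j) * (v j i : ℝ) < 0)
    (hex : ∀ j, c0 j < 0 → j ∈ D ∨ j = k) :
    ∀ j ∈ G, c0 j < 0 := by
  classical
  set w : Fin r → ℝ := fun j => (c0 j : ℝ) + l j with hw
  have hwj : ∀ j, w j = (c0 j : ℝ) + l j := fun j => rfl
  simp only [← hwj] at hl1 hl2 hl3
  have hwnn : ∀ j, j ∉ D → j ≠ k → 0 ≤ w j := by
    intro j hj hjk
    have h1 : 0 ≤ c0 j := by
      by_contra h
      rcases hex j (not_le.1 h) with h2 | h2
      · exact hj h2
      · exact hjk h2
    have h2 : (0 : ℝ) ≤ (c0 j : ℝ) := by exact_mod_cast h1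
    rw [hwj]
    linarith [hl j]
  -- the weighted sum
  have hface : ∀ j, face v a j → ∑ i, (a i : ℝ) * (v j i : ℝ) = (gord v a : ℝ) := by
    intro j hj
    unfold face at hj
    exact_mod_cast hj
  have hnf : ∀ j, ¬ face v a j → (gord v a : ℝ) < ∑ i, (a i : ℝ) * (v j i : ℝ) := by
    intro j hj
    have h1 := lt_of_le_of_ne (gord_le v a j) fun h => hj h.symm
    exact_mod_cast h1
  have hfD : ∀ j, ¬ face v a j → j ∉ D ∧ j ≠ k := by
    intro j hj
    refine ⟨fun h => hj (hDf j h), ?_⟩
    rintro rfl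
    exact hj hkf
  have e1 : ∑ i, (a i : ℝ) * ∑ j, w j * (v j i : ℝ) =
      ∑ j, w j * ((∑ i, (a i : ℝ) * (v j i : ℝ)) - gord v a) := by
    rw [wsum v (fun i => (a i : ℝ)) w]
    simp only [mul_sub, Finset.sum_sub_distrib]
    rw [← Finset.sum_mul, hl1, zero_mul, sub_zero]
  have hterm : ∀ j, 0 ≤ w j * ((∑ i, (a i : ℝ) * (v j i : ℝ)) - gord v a) := by
    intro j
    by_cases hj : face v a j
    · rw [hface j hj, sub_self, mul_zero]
    · obtain ⟨h1, h2⟩ := hfD j hj
      exact mul_nonneg (hwnn j h1 h2) (by linarith [hnf j hj])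
  have hle0 : ∀ i, (a i : ℝ) * ∑ j, w j * (v j i : ℝ) ≤ 0 := fun i =>
    mul_nonpos_of_nonneg_of_nonpos (by positivity) (hl2 i)
  have hsum0 : ∑ i, (a i : ℝ) * ∑ j, w j * (v j i : ℝ) = 0 := by
    apply le_antisymm (Finset.sum_nonpos fun i _ => hle0 i)
    rw [e1]
    exact Finset.sum_nonneg fun j _ => hterm j
  have hI : ∀ i, a i ≠ 0 → ∑ j, w j * (v j i : ℝ) = 0 := by
    intro i hi
    have h1 := (Finset.sum_eq_zero_iff_of_nonpos fun i _ => hle0 i).1 hsum0 i (Finset.mem_univ i)
    rcases mul_eq_zero.1 h1 with h2 | h2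
    · exact absurd (by exact_mod_cast h2) hi
    · exact h2
  have hoff : ∀ j, ¬ face v a j → w j = 0 := by
    intro j hj
    rw [e1] at hsum0
    have h1 := (Finset.sum_eq_zero_iff_of_nonneg fun j _ => hterm j).1 hsum0 j (Finset.mem_univ j)
    rcases mul_eq_zero.1 h1 with h2 | h2
    · exact h2
    · have := hnf j hj
      linarith
  -- the heights
  have hht0 : ∑ j, w j * (htA v a j : ℝ) < 0 := by
    have h1 : ∑ j, w j * (htA v a j : ℝ) =
        ∑ i, (if a i = 0 then ∑ j, w j * (v j i : ℝ) else 0) := by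
      have h2 : ∀ j, (htA v a j : ℝ) = ∑ i, (if a i = 0 then (1 : ℝ) else 0) * (v j i : ℝ) := by
        intro j
        unfold htA
        push_cast
        refine Finset.sum_congr rfl fun i _ => ?_
        by_cases hi : a i = 0
        · simp [hi]
        · simp [hi]
      simp only [h2]
      rw [← wsum v (fun i => if a i = 0 then (1 : ℝ) else 0) w]
      refine Finset.sum_congr rfl fun i _ => ?_
      by_cases hi : a i = 0
      · simp [hi]
      · simp [hi]
    rw [h1]
    obtain ⟨i0, hi0⟩ := hl3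
    refine Finset.sum_neg' (fun i _ => ?_) ⟨i0, Finset.mem_univ i0, ?_⟩
    · by_cases hi : a i = 0
      · rw [if_pos hi]; exact hl2 i
      · rw [if_neg hi]
    · have ha0 : a i0 = 0 := by
        by_contra h
        have := hI i0 h
        linarith
      rw [if_pos ha0]
      exact hi0
  have hD1 := hrel w hI
  set Δ : Fin r → ℝ := fun l => ((htA v a l - ∑ m, α l m * htA v a m : ℚ) : ℝ) with hΔ
  have hΔl : ∀ l, Δ l = ((htA v a l - ∑ m, α l m * htA v a m : ℚ) : ℝ) := fun l => rfl
  have hΔnn : ∀ l, face v a l → 0 ≤ Δ l := by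
    intro l hlf
    rw [hΔl]
    have := hlow l hlf
    exact_mod_cast (by linarith : (0 : ℚ) ≤ htA v a l - ∑ m, α l m * htA v a m)
  have hsumΔ : ∑ j, w j * (htA v a j : ℝ) = ∑ l ∈ Dᶜ, w l * Δ l := by
    rw [← Finset.sum_add_sum_compl D]
    have h1 : ∑ j ∈ D, w j * (htA v a j : ℝ) =
        -∑ l ∈ Dᶜ, w l * ∑ m, (α l m : ℝ) * (htA v a m : ℝ) := by
      have h2 : ∀ j ∈ D, w j * (htA v a j : ℝ) =
          -∑ l ∈ Dᶜ, w l * ((α l j : ℝ) * (htA v a j : ℝ)) := by
        intro j hj
        rw [hD1 j hj, neg_mul, Finset.sum_mul]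
        congr 1
        exact Finset.sum_congr rfl fun l _ => by ring
      rw [Finset.sum_congr rfl h2, Finset.sum_neg_distrib, Finset.sum_comm]
      congr 1
      refine Finset.sum_congr rfl fun l _ => ?_
      rw [← Finset.mul_sum]
      congr 1
      refine Finset.sum_subset (Finset.subset_univ D) fun j _ hj => ?_
      rw [hα0 l j hj]
      simp
    rw [h1, neg_add_eq_sub, ← Finset.sum_sub_distrib]
    refine Finset.sum_congr rfl fun l _ => ?_
    rw [hΔl]
    push_cast
    ring
  rw [hsumΔ] at hht0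
  have hkc : k ∈ Dᶜ := Finset.mem_compl.2 hk
  rw [← Finset.add_sum_erase _ _ hkc] at hht0
  set S : ℝ := ∑ l ∈ Dᶜ.erase k, w l * Δ l with hS
  have hS0 : 0 ≤ S := by
    refine Finset.sum_nonneg fun l hl' => ?_
    have h1 := Finset.mem_compl.1 (Finset.mem_of_mem_erase hl')
    have h2 := Finset.ne_of_mem_erase hl'
    by_cases hf : face v a l
    · exact mul_nonneg (hwnn l h1 h2) (hΔnn l hf)
    · rw [hoff l hf, zero_mul]
  have hΔk := hΔnn k hkf
  have hwk : w k < 0 := by
    by_contra h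
    have := mul_nonneg (not_lt.1 h) hΔk
    linarith
  have hΔk' : 0 < Δ k := by
    rcases hΔk.lt_or_eq with h | h
    · exact h
    · rw [← h, mul_zero] at hht0
      linarith
  intro j hj
  by_cases hjk : j = k
  · rw [hjk]
    have h1 : (c0 k : ℝ) < 0 := by
      have := hwj k
      linarith [hl k]
    exact_mod_cast h1
  obtain ⟨hjD, hαj⟩ := hGD j hj hjk
  have hαj' : (α k j : ℝ) < 0 := by exact_mod_cast hαj
  have h1 := hD1 j hjD
  rw [← Finset.add_sum_erase _ _ hkc] at h1
  have h2 : Δ k * (-∑ l ∈ Dᶜ.erase k, w l * (α l j : ℝ)) ≤ S * (-(α k j : ℝ)) := by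
    rw [← Finset.sum_neg_distrib, Finset.mul_sum, hS, Finset.sum_mul]
    refine Finset.sum_le_sum fun l hl' => ?_
    have h3 := Finset.mem_compl.1 (Finset.mem_of_mem_erase hl')
    have h4 := Finset.ne_of_mem_erase hl'
    by_cases hf : face v a l
    · have hwl := hwnn l h3 h4
      have hΔl0 := hΔnn l hf
      by_cases hαl : α l j < 0
      · have h5 := hht l hf j hj hjk hαl
        have h6 : Δ k * (-(α l j : ℝ)) ≤ Δ l * (-(α k j : ℝ)) := by
          rw [hΔl, hΔl]
          exact_mod_cast h5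
        have h7 := mul_le_mul_of_nonneg_left h6 hwl
        linarith
      · have h5 : (0 : ℝ) ≤ (α l j : ℝ) := by exact_mod_cast not_lt.1 hαl
        have h6 : 0 ≤ Δ k * (w l * (α l j : ℝ)) := mul_nonneg hΔk (mul_nonneg hwl h5)
        have h7 : 0 ≤ w l * Δ l * (-(α k j : ℝ)) :=
          mul_nonneg (mul_nonneg hwl hΔl0) (by linarith)
        linarith
    · rw [hoff l hf]
      simp
  have h3 : Δ k * w j < 0 := by
    have h4 : Δ k * w j = -(w k * Δ k * (α k j : ℝ)) +
        Δ k * (-∑ l ∈ Dᶜ.erase k, w l * (α l j : ℝ)) := by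
      rw [h1]; ring
    have h5 : S * (-(α k j : ℝ)) < -(w k * Δ k) * (-(α k j : ℝ)) :=
      mul_lt_mul_of_pos_right (by linarith) (by linarith)
    rw [h4]
    linarith
  have h4 : w j < 0 := by
    by_contra h
    have := mul_nonneg hΔk (not_lt.1 h)
    linarith
  have h5 : (c0 j : ℝ) < 0 := by
    have := hwj j
    linarith [hl j]
  exact_mod_cast h5

/-- **Part R1.** -/
theorem stR1 : Pool.Agent.Y231.N4.StR1 := by
  classical
  intro r N v a hg hC
  obtain ⟨D, k, s, c, G, hk, hDcard, hDf, hkf, hind, hlow, hs0, hs, hc0, hck, hc, hP, hG0, hcount,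
    hht⟩ := hC
  -- coordinates
  let J := {i : Fin N // a i ≠ 0}
  let V : Fin r → J → ℚ := fun j i => (v j i.1 : ℚ)
  have hindV : ∀ w : Fin r → ℚ, (∀ j, j ∉ D → w j = 0) → (∀ i, ∑ j, w j * V j i = 0) →
      ∀ j, w j = 0 := fun w hw h => hind w hw fun i hi => h ⟨i, hi⟩
  obtain ⟨f, hf⟩ := dualF V D hindV
  have hcardJ : D.card = Fintype.card J := by
    rw [hDcard, Fintype.card_subtype]
  set α : Fin r → Fin r → ℚ := cf V f D with hα
  have hα0 : ∀ l j, j ∉ D → α l j = 0 := cf_off V f D
  have hfull : ∀ l i, a i ≠ 0 → ∑ j, α l j * (v j i : ℚ) = (v l i : ℚ) := fun l i hi =>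
    cf_full V f D hcardJ hindV hf l ⟨i, hi⟩
  have hrel : ∀ w : Fin r → ℝ, (∀ i, a i ≠ 0 → ∑ j, w j * (v j i : ℝ) = 0) →
      ∀ j ∈ D, w j = -∑ l ∈ Dᶜ, w l * (α l j : ℝ) := by
    intro w hw
    apply rel_real V f D hf w
    intro i
    have := hw i.1 i.2
    simpa [V] using this
  -- the coefficients of the circuit
  have hcα : ∀ j ∈ D, c j = α k j := by
    intro j hj
    have h1 := hrel (fun j => (c j : ℝ)) (fun i hi => by
      have := congrArg (fun q : ℚ => (q : ℝ)) (hc i hi)
      push_cast at this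
      exact this) j hj
    have h2 : ∑ l ∈ Dᶜ, (c l : ℝ) * (α l j : ℝ) = (c k : ℝ) * (α k j : ℝ) := by
      refine Finset.sum_eq_single k (fun l hl hlk => ?_) fun h => ?_
      · rw [hc0 l (Finset.mem_compl.1 hl) hlk]; simp
      · exact absurd (Finset.mem_compl.2 hk) h
    rw [h2, hck] at h1
    have h3 : (c j : ℝ) = (α k j : ℝ) := by
      rw [h1]; push_cast; ring
    exact_mod_cast h3
  have hcsumF : ∀ F : Fin r → ℚ, ∑ m, c m * F m = (∑ m, α k m * F m) - F k := by
    intro F
    have h1 : ∀ m, c m * F m = α k m * F m + (if m = k then -F k else 0) := by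
      intro m
      by_cases hmk : m = k
      · subst hmk
        rw [hck, hα0 m m hk, if_pos rfl]; ring
      · rw [if_neg hmk, add_zero]
        by_cases hmD : m ∈ D
        · rw [hcα m hmD]
        · rw [hc0 m hmD hmk, hα0 k m hmD]
    rw [Finset.sum_congr rfl fun m _ => h1 m, Finset.sum_add_distrib]
    simp [sub_eq_add_neg]
  obtain ⟨θ, hθ, hθc⟩ := heightsA D α hα0 k hk
  refine ⟨θ, hθ, ?_⟩
  rintro p ⟨M, n, n0, ck, B, q, c0, q0, hK1, hK0, hrelp⟩
  have hg' : (gord v a : ℚ) ≠ 0 := by exact_mod_cast hg.ne'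
  have hsf : ∀ j, s j ≠ 0 → face v a j := fun j hj => by
    by_contra h
    exact hj (hs0 j fun h' => h (hDf j h'))
  have hcf : ∀ j, c j ≠ 0 → face v a j := fun j hj => by
    by_contra h
    refine hj (hc0 j (fun h' => h (hDf j h')) ?_)
    rintro rfl
    exact h hkf
  have hoff : ∀ j, ¬ face v a j → lin s c (X j) = 0 := fun j hj => by
    refine lin_X0 s c j ?_ ?_
    · by_contra h
      exact hj (hsf j h)
    · by_contra h
      exact hj (hcf j h)
  have hssum : ∑ j, s j = -(((∑ i, a i : ℕ) : ℚ) / gord v a) := by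
    have h1 := sum_of_faceA v a s hsf (-1) hs
    rw [← neg_div, eq_div_iff hg']
    linarith
  have hcsum : ∑ j, c j = 0 := by
    have h1 := sum_of_faceA v a c hcf 0 hc
    rw [zero_mul] at h1
    exact (mul_eq_zero.1 h1).resolve_right hg'
  -- the value of `∑ X_j`
  have hsumX : lin s c (∑ j, X j) = Polynomial.C (-(((∑ i, a i : ℕ) : ℂ) / gord v a)) := by
    rw [map_sum]
    simp only [lin_X]
    rw [Finset.sum_add_distrib, ← Finset.sum_mul, ← map_sum, ← map_sum]
    have h1 : ∑ j, (s j : ℂ) = -(((∑ i, a i : ℕ) : ℂ) / gord v a) := by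
      have := congrArg (fun q : ℚ => (q : ℂ)) hssum
      push_cast at this ⊢
      exact this
    have h2 : ∑ j, (c j : ℂ) = 0 := by
      have := congrArg (fun q : ℚ => (q : ℂ)) hcsum
      push_cast at this
      exact this
    rw [h1, h2]
    simp
  -- the product of the `dm`
  choose H hH0 hH using fun j => lin_dm_fac s c M j fun h => hP j (NM.negI h)
  set e : ℕ := (Finset.univ.filter fun j => NM M (s j)).card with he
  have hprod : lin s c (∏ j, dm M j) = Polynomial.X ^ e * ∏ j, H j := by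
    rw [map_prod]
    simp only [hH]
    rw [Finset.prod_mul_distrib, Finset.prod_pow_eq_pow_sum, he, Finset.card_filter]
  -- the terms
  have hfac : ∀ (c' : Fin r → ℤ) (j : Fin r), c' j < 0 →
      lin s c (X j * dm M j) ∣ lin s c (∏ j, if c' j < 0 then X j * dm M j else 1) := by
    intro c' j hj
    rw [map_prod]
    refine Dvd.dvd.trans ?_ (Finset.dvd_prod_of_mem _ (Finset.mem_univ j))
    rw [if_pos hj]
  have hoffz : ∀ (c' : Fin r → ℤ) (j : Fin r), c' j < 0 → lin s c (X j) = 0 →
      lin s c (∏ j, if c' j < 0 then X j * dm M j else 1) = 0 := by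
    intro c' j hj h0
    have := hfac c' j hj
    rw [map_mul, h0, zero_mul] at this
    exact zero_dvd_iff.1 this
  have hterm1 : ∀ k', lin s c ((∏ i ∈ B k', el v i) *
      ((∏ j, if ck k' j < 0 then X j * dm M j else 1) * q k')) = 0 := by
    intro k'
    rw [map_mul, map_mul]
    by_cases hB : ∃ i ∈ B k', a i ≠ 0
    · obtain ⟨i, hi, hai⟩ := hB
      rw [map_prod, Finset.prod_eq_zero hi (lin_el s c v i (hs i hai) (hc i hai)), zero_mul]
    · push Not at hB
      obtain ⟨l, hl, hl1, hlB⟩ := hK1 k'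
      obtain ⟨j, hj, hjf⟩ := off_face v a (ck k') l hl 1 hl1 (by
        rw [one_mul]
        refine lt_of_le_of_lt (Finset.sum_nonpos fun i _ => ?_)
          (by exact_mod_cast hg : (0 : ℝ) < gord v a)
        by_cases hi : i ∈ B k'
        · rw [hB i hi]; simp
        · exact mul_nonpos_of_nonneg_of_nonpos (by positivity) (hlB i hi))
      rw [hoffz (ck k') j hj (hoff j hjf)]
      ring
  have hterm0 : ∀ k', Polynomial.X ^ (e + 1) ∣ lin s c ((∏ j, if c0 k' j < 0 then
      X j * dm M j else 1) * q0 k') := by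
    intro k'
    rw [map_mul]
    apply Dvd.dvd.mul_right
    by_cases hex : ∃ j, c0 k' j < 0 ∧ lin s c (X j) = 0
    · obtain ⟨j, hj, h0⟩ := hex
      rw [hoffz (c0 k') j hj h0]
      exact dvd_zero _
    push Not at hex
    have hexD : ∀ j, c0 k' j < 0 → j ∈ D ∨ j = k := by
      intro j hj
      by_contra hcon
      rw [not_or] at hcon
      exact hex j hj (lin_X0 s c j (hs0 j hcon.1) (hc0 j hcon.1 hcon.2))
    have hneg : ∀ j ∈ G, c0 k' j < 0 := by
      rcases hK0 k' with ⟨-, h2, h3⟩ | ⟨-, l, hl, hl1, hl2, hl3⟩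
      · have h4 := hθc (c0 k') (hrel (fun j => (c0 k' j : ℝ)) fun i _ => by
          exact_mod_cast h2 i) h3 fun j hjD hjk => by
          by_contra hcon
          rcases hexD j (not_le.1 hcon) with h | h
          · exact hjD h
          · exact hjk h
        intro j hj
        by_cases hjk : j = k
        · rw [hjk]; exact h4.1
        · have hjD : j ∈ D := by
            by_contra hcon
            have := hG0 j hj
            rw [hc0 j hcon hjk] at this
            exact lt_irrefl _ this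
          refine h4.2 j hjD ?_
          rw [← hcα j hjD]
          exact hG0 j hj
      · refine signs v a D k hk hDf hkf α hα0 hrel
          (fun l hlf => hlow l hlf (α l) (hα0 l) (hfull l)) G (fun j hj hjk => ?_)
          (fun l hlf j hj hjk hneg => ?_) (c0 k') l hl hl1 hl2 hl3 hexD
        · have hjD : j ∈ D := by
            by_contra hcon
            have := hG0 j hj
            rw [hc0 j hcon hjk] at this
            exact lt_irrefl _ this
          refine ⟨hjD, ?_⟩
          rw [← hcα j hjD]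
          exact hG0 j hj
        · have h1 := hht l hlf (α l) (hα0 l) (hfull l) j hj hjk hneg
          have hjD : j ∈ D := by
            by_contra hcon
            have := hG0 j hj
            rw [hc0 j hcon hjk] at this
            exact lt_irrefl _ this
          rw [hcsumF (htA v a), hcα j hjD] at h1
          rw [neg_sub] at h1
          exact h1
    -- the factors
    set T : Finset (Fin r) := G.filter fun j => s j = 0 ∨ NM M (s j) with hT
    have h5 : Polynomial.X ^ T.card ∣
        lin s c (∏ j, if c0 k' j < 0 then X j * dm M j else 1) := by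
      rw [map_prod]
      refine Dvd.dvd.trans ?_ (Finset.prod_dvd_prod_of_subset T Finset.univ _
        (Finset.subset_univ T))
      rw [← Finset.prod_const]
      refine Finset.prod_dvd_prod_of_dvd _ _ fun j hj => ?_
      obtain ⟨hjG, hsj⟩ := Finset.mem_filter.1 hj
      rw [if_pos (hneg j hjG), map_mul]
      rcases hsj with hsj | hsj
      · apply Dvd.dvd.mul_right
        rw [lin_X, hsj]
        simp
      · exact (lin_dm_dvd s c M j hsj).mul_left _
    refine Dvd.dvd.trans (pow_dvd_pow _ ?_) h5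
    -- counting
    have h6 : (G.filter fun j => s j = 0).card + (G.filter fun j => NM M (s j)).card =
        T.card := by
      rw [← Finset.card_union_of_disjoint]
      · congr 1
        ext j
        simp only [hT, Finset.mem_union, Finset.mem_filter]
        tauto
      · rw [Finset.disjoint_left]
        intro j hj hj'
        exact (NM.negI (Finset.mem_filter.1 hj').2).ne0 (Finset.mem_filter.1 hj).2
    have h7 : e ≤ (G.filter fun j => NM M (s j)).card +
        (Finset.univ.filter fun j => NegI (s j) ∧ j ∉ G).card := by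
      rw [he]
      refine le_trans (Finset.card_le_card ?_) (Finset.card_union_le _ _)
      intro j hj
      have h8 := (Finset.mem_filter.1 hj).2
      simp only [Finset.mem_union, Finset.mem_filter, Finset.mem_univ, true_and]
      by_cases h9 : j ∈ G
      · exact Or.inl ⟨h9, h8⟩
      · exact Or.inr ⟨NM.negI h8, h9⟩
    have h8 : (Finset.univ.filter fun j => NegI (s j) ∧ j ∉ G).card <
        (G.filter fun j => s j = 0).card := by
      refine lt_of_le_of_lt (Finset.card_le_card fun j hj => ?_)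
        (lt_of_lt_of_le hcount (Finset.card_le_card fun j hj => ?_))
      · simpa only [Finset.mem_filter, Finset.mem_univ, true_and] using hj
      · simpa only [Finset.mem_filter] using hj
    omega
  -- the conclusion
  have h1 := congrArg (lin s c) hrelp
  rw [map_mul, hprod, map_add, map_sum, map_sum, Finset.sum_eq_zero fun k' _ => hterm1 k',
    zero_add, ← Polynomial.aeval_algHom_apply, hsumX] at h1
  have h2 : Polynomial.X ^ (e + 1) ∣ Polynomial.aeval
      (Polynomial.C (-(((∑ i, a i : ℕ) : ℂ) / gord v a))) p *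
        (Polynomial.X ^ e * ∏ j, H j) := by
    rw [h1]
    exact Finset.dvd_sum fun k' _ => hterm0 k'
  have h3 : Polynomial.aeval (Polynomial.C (-(((∑ i, a i : ℕ) : ℂ) / gord v a))) p =
      Polynomial.C (p.eval (-(((∑ i, a i : ℕ) : ℂ) / gord v a))) := by
    have h4 : (Polynomial.C (-(((∑ i, a i : ℕ) : ℂ) / gord v a)) : Polynomial ℂ) =
        (Algebra.ofId ℂ (Polynomial ℂ)) (-(((∑ i, a i : ℕ) : ℂ) / gord v a)) := rfl
    rw [h4, Polynomial.aeval_algHom_apply]
    rfl
  rw [h3, mul_left_comm, pow_succ, mul_dvd_mul_iff_left (pow_ne_zero _ Polynomial.X_ne_zero),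
    Polynomial.X_dvd_iff, Polynomial.coeff_zero_eq_eval_zero, Polynomial.eval_mul,
    Polynomial.eval_C, Polynomial.eval_prod] at h2
  exact (mul_eq_zero.1 h2).resolve_right (Finset.prod_ne_zero_iff.2 fun j _ => hH0 j)

end Pool.Agent.Y231.N4
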