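import Pool.Agent.Y231.N4.RC

/-!
# The root of a point
-/

set_option autoImplicit false

namespace Pool.Agent.Y231.N4

open MvPolynomial Pool.Agent.W571.MM Pool.Agent.W425.SV
open Pool.Agent.TH216.LX (off_face)
open Pool.Agent.W426.SM (gord face)
open Pool.Agent.H628R4.TZ (el)
open Pool.Agent.W425.SM (dm)

variable {r N : ℕ}

/-- the value of a linear form at a point -/
theorem eval_el (v : Fin r → Fin N → ℕ) (s : Fin r → ℚ) (i : Fin N)
    (hs : ∑ j, s j * (v j i : ℚ) = -1) :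
    MvPolynomial.eval (fun j => (s j : ℂ)) (el v i) = 0 := by
  have e : el v i = 1 + ∑ j, C ((v j i : ℕ) : ℂ) * X j := rfl
  rw [e, map_add, map_one, map_sum]
  simp only [map_mul, eval_C, eval_X]
  have h := congrArg (fun q : ℚ => (q : ℂ)) hs
  push_cast at h
  rw [Finset.sum_congr rfl fun j _ => mul_comm _ _, h]
  ring

/-- a small number -/
theorem eps_ex (v : Fin r → Fin N → ℕ) (a : Fin N → ℕ) (w : Fin N → ℚ) (κ : ℚ) :
    ∃ ε : ℝ, 0 < ε ∧ (∀ i, ε * |(w i : ℝ)| < 1) ∧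
      ∀ j, ε * |(κ : ℝ) - ∑ i, (w i : ℝ) * (v j i : ℝ)| < 1 := by
  set A : ℝ := 1 + ∑ i, |(w i : ℝ)| + ∑ j, |(κ : ℝ) - ∑ i, (w i : ℝ) * (v j i : ℝ)| with hA
  have h1 : 0 ≤ ∑ i, |(w i : ℝ)| := Finset.sum_nonneg fun i _ => abs_nonneg _
  have h2 : 0 ≤ ∑ j, |(κ : ℝ) - ∑ i, (w i : ℝ) * (v j i : ℝ)| :=
    Finset.sum_nonneg fun i _ => abs_nonneg _
  have hA0 : 0 < A := by rw [hA]; linarith
  refine ⟨A⁻¹, inv_pos.2 hA0, fun i => ?_, fun j => ?_⟩
  · rw [inv_mul_lt_iff₀ hA0, mul_one]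
    have := Finset.single_le_sum (f := fun i => |(w i : ℝ)|) (fun i _ => abs_nonneg _)
      (Finset.mem_univ i)
    have h3 : |(w i : ℝ)| ≤ ∑ i, |(w i : ℝ)| := this
    rw [hA]
    linarith
  · rw [inv_mul_lt_iff₀ hA0, mul_one]
    have := Finset.single_le_sum (f := fun j => |(κ : ℝ) - ∑ i, (w i : ℝ) * (v j i : ℝ)|)
      (fun i _ => abs_nonneg _) (Finset.mem_univ j)
    have h3 : |(κ : ℝ) - ∑ i, (w i : ℝ) * (v j i : ℝ)| ≤
      ∑ j, |(κ : ℝ) - ∑ i, (w i : ℝ) * (v j i : ℝ)| := this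
    rw [hA]
    linarith

/-- the terms of the second kind -/
theorem offE (v : Fin r → Fin N → ℕ) (a : Fin N → ℕ) (E : Finset (Fin r)) (w : Fin N → ℚ) (κ : ℚ)
    (hEf : ∀ j ∈ E, face v a j) (hw0 : ∀ i, a i = 0 → 0 < w i)
    (hwE : ∀ j ∈ E, ∑ i, w i * (v j i : ℚ) = κ)
    (hwf : ∀ j, face v a j → κ ≤ ∑ i, w i * (v j i : ℚ))
    (c0 : Fin r → ℤ) (l : Fin r → ℝ) (hl : ∀ j, 0 ≤ l j)
    (hl1 : ∑ j, ((c0 j : ℝ) + l j) = 0)
    (hl2 : ∀ i, ∑ j, ((c0 j : ℝ) + l j) * (v j i : ℝ) ≤ 0)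
    (hl3 : ∃ i, ∑ j, ((c0 j : ℝ) + l j) * (v j i : ℝ) < 0) :
    ∃ j, j ∉ E ∧ c0 j < 0 := by
  by_contra hcon
  push Not at hcon
  obtain ⟨ε, hε, hε1, hε2⟩ := eps_ex v a w κ
  set b : Fin N → ℝ := fun i => (a i : ℝ) + ε * (w i : ℝ) with hb
  have hb0 : ∀ i, 0 < b i := by
    intro i
    simp only [hb]
    by_cases hi : a i = 0
    · rw [hi]
      have h1 : (0 : ℝ) < (w i : ℝ) := by exact_mod_cast hw0 i hi
      simp only [Nat.cast_zero, zero_add]
      positivity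
    · have h1 : (1 : ℝ) ≤ (a i : ℝ) := by exact_mod_cast Nat.one_le_iff_ne_zero.2 hi
      have h2 := hε1 i
      have h3 := neg_abs_le (w i : ℝ)
      have h4 : ε * (-|(w i : ℝ)|) ≤ ε * (w i : ℝ) := mul_le_mul_of_nonneg_left h3 hε.le
      linarith
  have hbv : ∀ j, ∑ i, b i * (v j i : ℝ) =
      (∑ i, (a i : ℝ) * (v j i : ℝ)) + ε * ∑ i, (w i : ℝ) * (v j i : ℝ) := by
    intro j
    rw [Finset.mul_sum, ← Finset.sum_add_distrib]
    exact Finset.sum_congr rfl fun i _ => by simp only [hb]; ring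
  have hface : ∀ j, face v a j → ∑ i, (a i : ℝ) * (v j i : ℝ) = (gord v a : ℝ) := by
    intro j hj
    unfold face at hj
    exact_mod_cast hj
  set μ : ℝ := (gord v a : ℝ) + ε * (κ : ℝ) with hμ
  have hE : ∀ j ∈ E, ∑ i, b i * (v j i : ℝ) = μ := by
    intro j hj
    rw [hbv, hface j (hEf j hj), hμ]
    have := congrArg (fun q : ℚ => (q : ℝ)) (hwE j hj)
    push_cast at this
    rw [this]
  have hge : ∀ j, μ ≤ ∑ i, b i * (v j i : ℝ) := by
    intro j
    rw [hbv, hμ]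
    by_cases hj : face v a j
    · rw [hface j hj]
      have h1 : (κ : ℝ) ≤ ∑ i, (w i : ℝ) * (v j i : ℝ) := by
        have := hwf j hj
        exact_mod_cast this
      have := mul_le_mul_of_nonneg_left h1 hε.le
      linarith
    · have h1 := lt_of_le_of_ne (gord_le v a j) fun h => hj h.symm
      have h2 : (gord v a : ℝ) + 1 ≤ ∑ i, (a i : ℝ) * (v j i : ℝ) := by
        exact_mod_cast h1
      have h3 := hε2 j
      have h4 := le_abs_self ((κ : ℝ) - ∑ i, (w i : ℝ) * (v j i : ℝ))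
      have h5 := mul_le_mul_of_nonneg_left h4 hε.le
      rw [mul_sub] at h5
      linarith
  have e1 : ∑ i, b i * ∑ j, ((c0 j : ℝ) + l j) * (v j i : ℝ) =
      ∑ j, ((c0 j : ℝ) + l j) * ((∑ i, b i * (v j i : ℝ)) - μ) := by
    rw [wsum v b fun j => (c0 j : ℝ) + l j]
    simp only [mul_sub, Finset.sum_sub_distrib]
    rw [← Finset.sum_mul, hl1, zero_mul, sub_zero]
  have h1 : 0 ≤ ∑ i, b i * ∑ j, ((c0 j : ℝ) + l j) * (v j i : ℝ) := by
    rw [e1]
    refine Finset.sum_nonneg fun j _ => ?_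
    by_cases hj : j ∈ E
    · rw [hE j hj, sub_self, mul_zero]
    · have h2 : (0 : ℝ) ≤ (c0 j : ℝ) := by exact_mod_cast hcon j hj
      exact mul_nonneg (by linarith [hl j]) (by linarith [hge j])
  obtain ⟨i0, hi0⟩ := hl3
  have h2 : ∑ i, b i * ∑ j, ((c0 j : ℝ) + l j) * (v j i : ℝ) < 0 :=
    Finset.sum_neg' (fun i _ => mul_nonpos_of_nonneg_of_nonpos (hb0 i).le (hl2 i))
      ⟨i0, Finset.mem_univ i0, mul_neg_of_pos_of_neg (hb0 i0) hi0⟩
  linarith

/-- **Part R2.** -/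
theorem stR2 : Pool.Agent.Y231.N4.StR2 := by
  classical
  intro r N v a hg hC
  obtain ⟨E, s, w, κ, hEf, hw0, hwE, hwf, hind, hs0, hs, hP⟩ := hC
  let V : Fin r → Fin N → ℚ := fun j i => (v j i : ℚ)
  obtain ⟨f, hf⟩ := dualF V E hind
  set α : Fin r → Fin r → ℚ := cf V f E with hα
  obtain ⟨θ, hθ, hθc⟩ := heightsE E α (cf_off V f E)
  refine ⟨θ, hθ, ?_⟩
  rintro p ⟨M, n, n0, ck, B, q, c0, q0, hK1, hK0, hrelp⟩
  have hg' : (gord v a : ℚ) ≠ 0 := by exact_mod_cast hg.ne'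
  have hsf : ∀ j, s j ≠ 0 → face v a j := fun j hj => by
    by_contra h
    exact hj (hs0 j fun h' => h (hEf j h'))
  have hssum : ∑ j, s j = -(((∑ i, a i : ℕ) : ℚ) / gord v a) := by
    have h1 := sum_of_faceA v a s hsf (-1) hs
    rw [← neg_div, eq_div_iff hg']
    linarith
  set ev : MvPolynomial (Fin r) ℂ →+* ℂ := MvPolynomial.eval (fun j => (s j : ℂ)) with hev
  have hsumX : ev (∑ j, X j) = -(((∑ i, a i : ℕ) : ℂ) / gord v a) := by
    rw [map_sum]
    simp only [hev, eval_X]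
    have := congrArg (fun q : ℚ => (q : ℂ)) hssum
    push_cast at this ⊢
    exact this
  have hzero : ∀ (c' : Fin r → ℤ) (j : Fin r), c' j < 0 → s j = 0 →
      ev (∏ j, if c' j < 0 then X j * dm M j else 1) = 0 := by
    intro c' j hj h0
    rw [map_prod]
    refine Finset.prod_eq_zero (Finset.mem_univ j) ?_
    rw [if_pos hj, map_mul]
    simp only [hev, eval_X, h0, Rat.cast_zero, zero_mul]
  have hterm1 : ∀ k', ev ((∏ i ∈ B k', el v i) *
      ((∏ j, if ck k' j < 0 then X j * dm M j else 1) * q k')) = 0 := by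
    intro k'
    rw [map_mul, map_mul]
    by_cases hB : ∃ i ∈ B k', a i ≠ 0
    · obtain ⟨i, hi, hai⟩ := hB
      rw [map_prod, Finset.prod_eq_zero hi (eval_el v s i (hs i hai)), zero_mul]
    · push Not at hB
      obtain ⟨l, hl, hl1, hlB⟩ := hK1 k'
      obtain ⟨j, hj, hjf⟩ := off_face v a (ck k') l hl 1 hl1 (by
        rw [one_mul]
        refine lt_of_le_of_lt (Finset.sum_nonpos fun i _ => ?_)
          (by exact_mod_cast hg : (0 : ℝ) < gord v a)
        by_cases hi : i ∈ B k'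
        · rw [hB i hi]; simp
        · exact mul_nonpos_of_nonneg_of_nonpos (by positivity) (hlB i hi))
      have h0 : s j = 0 := by
        by_contra h
        exact hjf (hsf j h)
      rw [hzero (ck k') j hj h0]
      ring
  have hterm0 : ∀ k', ev ((∏ j, if c0 k' j < 0 then X j * dm M j else 1) * q0 k') = 0 := by
    intro k'
    rw [map_mul]
    have hex : ∃ j, j ∉ E ∧ c0 k' j < 0 := by
      rcases hK0 k' with ⟨-, h2, h3⟩ | ⟨-, l, hl, hl1, hl2, hl3⟩
      · exact hθc (c0 k') (rel_real V f E hf (fun j => (c0 k' j : ℝ)) fun i => by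
          have h4 := h2 i
          simp only [V, Rat.cast_natCast]
          exact_mod_cast h4) h3
      · exact offE v a E w κ hEf hw0 hwE hwf (c0 k') l hl hl1 hl2 hl3
    obtain ⟨j, hjE, hj⟩ := hex
    rw [hzero (c0 k') j hj (hs0 j hjE), zero_mul]
  have hdm : ev (∏ j, dm M j) ≠ 0 := by
    rw [map_prod]
    refine Finset.prod_ne_zero_iff.2 fun j _ => ?_
    unfold dm
    rw [map_prod]
    refine Finset.prod_ne_zero_iff.2 fun m _ => ?_
    rw [map_add]
    simp only [hev, eval_X, eval_C]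
    intro h0
    apply hP j
    refine ⟨m + 1, Nat.succ_pos m, ?_⟩
    have h1 : ((s j + ((m + 1 : ℕ) : ℚ) : ℚ) : ℂ) = ((0 : ℚ) : ℂ) := by
      push_cast
      push_cast at h0
      exact h0
    have h2 : s j + ((m + 1 : ℕ) : ℚ) = 0 := by exact_mod_cast h1
    linarith
  have h1 := congrArg ev hrelp
  rw [map_mul, map_add, map_sum, map_sum, Finset.sum_eq_zero fun k' _ => hterm1 k',
    Finset.sum_eq_zero fun k' _ => hterm0 k', add_zero] at h1
  have h2 := (mul_eq_zero.1 h1).resolve_right hdm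
  have h3 : ev (Polynomial.aeval (∑ j, X j : MvPolynomial (Fin r) ℂ) p) =
      p.eval (ev (∑ j, X j)) := by
    rw [Polynomial.aeval_def, Polynomial.hom_eval₂]
    have h4 : ev.comp (algebraMap ℂ (MvPolynomial (Fin r) ℂ)) = RingHom.id ℂ := by
      ext z
      simp [hev, MvPolynomial.algebraMap_eq]
    rw [h4]
    rfl
  rw [h3, hsumX] at h2
  exact h2

end Pool.Agent.Y231.N4
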