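import Pool.Agent.Y231.N4.Defs

/-! Facets with two coordinates and two heights (job N4-T, helper203). -/

set_option autoImplicit false
set_option linter.unusedSectionVars false

namespace Pool.Agent.Y231.N4.T2

open Finset

variable {ι : Type} [Fintype ι] [DecidableEq ι] {v h : ι → Fin 2 → ℕ} {z : ι → ℚ}
  {a : Fin 2 → ℕ} {g : ℕ}

theorem sum2 {p q : ι} (hpq : p ≠ q) (w f : ι → ℚ)
    (hw : ∀ j, j ∉ ({p, q} : Finset ι) → w j = 0) :
    ∑ j, w j * f j = w p * f p + w q * f q := by
  rw [← Finset.sum_subset (Finset.subset_univ ({p, q} : Finset ι))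
    (fun j _ hj => by rw [hw j hj, zero_mul])]
  rw [Finset.sum_insert (by simp [hpq]), Finset.sum_singleton]

theorem sum3 {p q x : ι} (hpq : p ≠ q) (hpx : p ≠ x) (hqx : q ≠ x) (w f : ι → ℚ)
    (hw : ∀ j, j ∉ ({p, q, x} : Finset ι) → w j = 0) :
    ∑ j, w j * f j = w p * f p + w q * f q + w x * f x := by
  rw [← Finset.sum_subset (Finset.subset_univ ({p, q, x} : Finset ι))
    (fun j _ hj => by rw [hw j hj, zero_mul])]
  rw [Finset.sum_insert (by simp [hpq, hpx]), Finset.sum_insert (by simp [hqx]),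
    Finset.sum_singleton]
  ring

/-- the pair of neighbouring points is independent and lower -/
theorem pair (ha : ∀ i, 0 < a i) (hg : 0 < g) (hyp : ∀ j, ∑ i, a i * v j i = g) {p q : ι}
    (hpq : v q 0 < v p 0)
    (hs : ∀ l, (z q - z p) * ((v p 0 : ℚ) - v l 0) ≤ (z l - z p) * ((v p 0 : ℚ) - v q 0)) :
    IndOn v {p, q} ∧ Low v z {p, q} := by
  have hne : p ≠ q := by
    rintro rfl
    omega
  have e : ∀ y : ι, (a 0 : ℚ) * v y 0 + a 1 * v y 1 = g := by
    intro y
    have := hyp y
    rw [Fin.sum_univ_two] at this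
    exact_mod_cast this
  have g0 : (g : ℚ) ≠ 0 := by exact_mod_cast hg.ne'
  have hPQ : (v q 0 : ℚ) < v p 0 := by exact_mod_cast hpq
  constructor
  · intro w hw hr j
    have r0 := hr 0
    have r1 := hr 1
    rw [sum2 hne w _ hw] at r0 r1
    have hsum : (w p + w q) * g = 0 := by
      linear_combination (a 0 : ℚ) * r0 + (a 1 : ℚ) * r1 - w p * e p - w q * e q
    have h1 : w p + w q = 0 := by
      rcases mul_eq_zero.1 hsum with h | h
      · exact h
      · exact (g0 h).elim
    have h2 : w q * ((v q 0 : ℚ) - v p 0) = 0 := by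
      have : w p = - w q := by linarith
      rw [this] at r0
      linarith
    have h3 : w q = 0 := by
      rcases mul_eq_zero.1 h2 with h | h
      · exact h
      · linarith
    have h4 : w p = 0 := by linarith
    by_cases hj : j ∈ ({p, q} : Finset ι)
    · simp only [mem_insert, mem_singleton] at hj
      rcases hj with rfl | rfl
      · exact h4
      · exact h3
    · exact hw j hj
  · intro l α hα hr
    have r0 := hr 0
    have r1 := hr 1
    rw [sum2 hne α _ hα] at r0 r1 ⊢
    have hsum : (α p + α q) * g = 1 * g := by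
      linear_combination (a 0 : ℚ) * r0 + (a 1 : ℚ) * r1 - α p * e p - α q * e q + e l
    have h1 : α p + α q = 1 := mul_right_cancel₀ g0 hsum
    have hp : α p = 1 - α q := by linarith
    rw [hp] at r0 ⊢
    have h2 : α q * ((v p 0 : ℚ) - v q 0) = (v p 0 : ℚ) - v l 0 := by linarith
    have h3 := hs l
    rw [← h2] at h3
    have h4 : (α q * (z q - z p)) * ((v p 0 : ℚ) - v q 0) ≤
        (z l - z p) * ((v p 0 : ℚ) - v q 0) := by
      calc (α q * (z q - z p)) * ((v p 0 : ℚ) - v q 0) =
          (z q - z p) * (α q * ((v p 0 : ℚ) - v q 0)) := by ring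
        _ ≤ _ := h3
    have h5 := le_of_mul_le_mul_right h4 (by linarith)
    linarith

theorem anti (ha : ∀ i, 0 < a i) (hyp : ∀ j, ∑ i, a i * v j i = g) {x y : ι}
    (hxy : v x 0 < v y 0) : v y 1 < v x 1 := by
  have e1 := hyp x
  have e2 := hyp y
  rw [Fin.sum_univ_two] at e1 e2
  have := Nat.mul_lt_mul_of_pos_left hxy (ha 0)
  by_contra hcon
  push Not at hcon
  have := Nat.mul_le_mul_left (a 1) hcon
  omega

theorem same (ha : ∀ i, 0 < a i) (hyp : ∀ j, ∑ i, a i * v j i = g) {i i' : Fin 2} (hi : i ≠ i')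
    {x y : ι} (hxy : v x i = v y i) : v x i' = v y i' := by
  have e1 := hyp x
  have e2 := hyp y
  rw [Fin.sum_univ_two] at e1 e2
  have key : a i' * v x i' = a i' * v y i' := by
    revert hi hxy
    fin_cases i <;> fin_cases i' <;> intro hi hxy
    · exact (hi rfl).elim
    · simp only [Fin.zero_eta, Fin.mk_one, Fin.isValue] at hxy ⊢
      rw [hxy] at e1
      omega
    · simp only [Fin.zero_eta, Fin.mk_one, Fin.isValue] at hxy ⊢
      rw [hxy] at e1
      omega
    · exact (hi rfl).elim
  exact Nat.eq_of_mul_eq_mul_left (ha i') key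

/-- one of the coordinates takes exactly the values zero and one -/
theorem zeroOne (ha : ∀ i, 0 < a i) (hg : 0 < g) (hyp : ∀ j, ∑ i, a i * v j i = g)
    (hex : ∃ j j', v j ≠ v j') (hNB : ¬ NonBS v z) (hsum : ∑ i, a i ≠ g) :
    ∃ i i' : Fin 2, i ≠ i' ∧ (∀ j, v j i = 0 ∨ v j i = 1) ∧ (∃ j, v j i = 0) ∧
      ∃ j, v j i = 1 := by
  obtain ⟨j₁, j₂, hj⟩ := hex
  have hB1 : ∀ D : Finset ι, D.card = 2 → IndOn v D → Low v z D → ∃ i, B1on v D i := by
    intro D h1 h2 h3
    by_contra hcon
    push Not at hcon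
    exact hNB ⟨D, h1, h2, h3, hcon⟩
  -- the first point
  obtain ⟨p₁, _, hp₁⟩ := Finset.exists_max_image univ (fun j => v j 0) ⟨j₁, mem_univ _⟩
  obtain ⟨p, hpm, hpz⟩ := Finset.exists_min_image (univ.filter fun j => v j 0 = v p₁ 0) z
    ⟨p₁, by simp⟩
  have hp0 : v p 0 = v p₁ 0 := (mem_filter.1 hpm).2
  have hmax : ∀ l, v l 0 ≤ v p 0 := fun l => by rw [hp0]; exact hp₁ l (mem_univ _)
  have hmin : ∀ l, v l 0 = v p 0 → z p ≤ z l := fun l hl =>
    hpz l (by simp [hl, hp0])
  -- the second point
  have hne : (univ.filter fun j => v j 0 < v p 0).Nonempty := by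
    by_contra hcon
    rw [Finset.not_nonempty_iff_eq_empty, Finset.filter_eq_empty_iff] at hcon
    apply hj
    have h0 : ∀ l, v l 0 = v p 0 := fun l => le_antisymm (hmax l) (not_lt.1 (hcon (mem_univ l)))
    have h1 : v j₁ 0 = v j₂ 0 := by rw [h0 j₁, h0 j₂]
    funext m
    have h2 := same ha hyp (i := 0) (i' := 1) (by decide) h1
    fin_cases m
    · exact h1
    · exact h2
  obtain ⟨q, hqm, hqs⟩ := Finset.exists_min_image _
    (fun j => (z j - z p) / ((v p 0 : ℚ) - v j 0)) hne
  have hq0 : v q 0 < v p 0 := (mem_filter.1 hqm).2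
  have hq0' : (v q 0 : ℚ) < v p 0 := by exact_mod_cast hq0
  have hs : ∀ l, (z q - z p) * ((v p 0 : ℚ) - v l 0) ≤ (z l - z p) * ((v p 0 : ℚ) - v q 0) := by
    intro l
    rcases lt_or_eq_of_le (hmax l) with hl | hl
    · have hl' : (v l 0 : ℚ) < v p 0 := by exact_mod_cast hl
      have h1 := hqs l (by simp [hl])
      rwa [div_le_div_iff₀ (by linarith) (by linarith)] at h1
    · have h1 := hmin l hl
      rw [hl]
      have h2 : 0 ≤ (z l - z p) * ((v p 0 : ℚ) - v q 0) :=
        mul_nonneg (by linarith) (by linarith)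
      linarith
  have hpq : p ≠ q := by
    rintro rfl
    omega
  obtain ⟨hI, hL⟩ := pair ha hg hyp hq0 hs
  obtain ⟨i, j0, hj0, h1, h0⟩ := hB1 {p, q} (by rw [Finset.card_pair hpq]) hI hL
  have anti' := anti ha hyp hq0
  fin_cases i
  · -- coordinate `0`
    simp only [Fin.zero_eta, Fin.isValue] at h1 h0
    have hp1 : v p 0 = 1 := by
      simp only [mem_insert, mem_singleton] at hj0
      rcases hj0 with rfl | rfl
      · exact h1
      · have := h0 p (by simp) hpq
        omega
    refine ⟨0, 1, by decide, fun j => ?_, ⟨q, by omega⟩, ⟨p, hp1⟩⟩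
    have := hmax j
    omega
  · -- coordinate `1`
    simp only [Fin.mk_one, Fin.isValue] at h1 h0
    have hq1 : v q 1 = 1 ∧ v p 1 = 0 := by
      simp only [mem_insert, mem_singleton] at hj0
      rcases hj0 with rfl | rfl
      · have := h0 q (by simp) (Ne.symm hpq)
        omega
      · exact ⟨h1, h0 p (by simp) hpq⟩
    -- nothing below `q`
    have hlow : ∀ l, v q 0 ≤ v l 0 := by
      by_contra hcon
      push Not at hcon
      obtain ⟨l₀, hl₀⟩ := hcon
      obtain ⟨r, hrm, hrs⟩ := Finset.exists_min_image (univ.filter fun j => v j 0 < v q 0)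
        (fun j => (z j - z q) / ((v q 0 : ℚ) - v j 0)) ⟨l₀, by simp [hl₀]⟩
      have hr0 : v r 0 < v q 0 := (mem_filter.1 hrm).2
      have hr0' : (v r 0 : ℚ) < v q 0 := by exact_mod_cast hr0
      have hs' : ∀ l, (z r - z q) * ((v q 0 : ℚ) - v l 0) ≤
          (z l - z q) * ((v q 0 : ℚ) - v r 0) := by
        intro l
        rcases lt_trichotomy (v l 0) (v q 0) with hl | hl | hl
        · have hl' : (v l 0 : ℚ) < v q 0 := by exact_mod_cast hl
          have h1 := hrs l (by simp [hl])
          rwa [div_le_div_iff₀ (by linarith) (by linarith)] at h1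
        · have h1 := hs l
          rw [hl] at h1 ⊢
          have h2 := le_of_mul_le_mul_right h1 (by linarith)
          have h3 : 0 ≤ (z l - z q) * ((v q 0 : ℚ) - v r 0) :=
            mul_nonneg (by linarith) (by linarith)
          linarith
        · have hl' : (v q 0 : ℚ) < v l 0 := by exact_mod_cast hl
          have e1 := hs l
          have e2 := hs r
          have f1 : (z q - z p) * ((v q 0 : ℚ) - v l 0) ≤
              (z l - z q) * ((v p 0 : ℚ) - v q 0) := by linarith
          have f2 : (z q - z p) * ((v q 0 : ℚ) - v r 0) ≤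
              (z r - z q) * ((v p 0 : ℚ) - v q 0) := by linarith
          have g1 := mul_le_mul_of_nonneg_right f1
            (show (0 : ℚ) ≤ (v q 0 : ℚ) - v r 0 by linarith)
          have g2 := mul_le_mul_of_nonpos_right f2
            (show ((v q 0 : ℚ) - v l 0) ≤ 0 by linarith)
          have g3 : ((z r - z q) * ((v q 0 : ℚ) - v l 0)) * ((v p 0 : ℚ) - v q 0) ≤
              ((z l - z q) * ((v q 0 : ℚ) - v r 0)) * ((v p 0 : ℚ) - v q 0) := by
            calc ((z r - z q) * ((v q 0 : ℚ) - v l 0)) * ((v p 0 : ℚ) - v q 0) =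
                (z r - z q) * ((v p 0 : ℚ) - v q 0) * ((v q 0 : ℚ) - v l 0) := by ring
              _ ≤ (z q - z p) * ((v q 0 : ℚ) - v r 0) * ((v q 0 : ℚ) - v l 0) := g2
              _ = (z q - z p) * ((v q 0 : ℚ) - v l 0) * ((v q 0 : ℚ) - v r 0) := by ring
              _ ≤ _ := g1
              _ = _ := by ring
          exact le_of_mul_le_mul_right g3 (by linarith)
      obtain ⟨hI', hL'⟩ := pair ha hg hyp hr0 hs'
      have hqr : q ≠ r := by
        rintro rfl
        omega
      obtain ⟨i, j0, hj0, k1, k0⟩ := hB1 {q, r} (by rw [Finset.card_pair hqr]) hI' hL'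
      have anti'' := anti ha hyp hr0
      simp only [mem_insert, mem_singleton] at hj0
      fin_cases i
      · simp only [Fin.zero_eta, Fin.isValue] at k1 k0
        have hq01 : v q 0 = 1 := by
          rcases hj0 with rfl | rfl
          · exact k1
          · have := k0 q (by simp) hqr
            omega
        apply hsum
        have e1 := hyp q
        rw [Fin.sum_univ_two, hq01, hq1.1] at e1
        rw [Fin.sum_univ_two]
        omega
      · simp only [Fin.mk_one, Fin.isValue] at k1 k0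
        rcases hj0 with rfl | rfl
        · have := k0 r (by simp) (Ne.symm hqr)
          omega
        · have := k0 q (by simp) hqr
          omega
    refine ⟨1, 0, by decide, fun j => ?_, ⟨p, hq1.2⟩, ⟨q, hq1.1⟩⟩
    have h2 : v j 1 ≤ v q 1 := by
      rcases lt_or_eq_of_le (hlow j) with hl | hl
      · exact (anti ha hyp hl).le
      · exact (same ha hyp (i := 0) (i' := 1) (by decide) hl.symm).le
    omega

theorem negI_zero : ¬ NegI 0 := by
  rintro ⟨m, hm, h⟩
  have : (m : ℚ) = 0 := by linarith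
  have : m = 0 := by exact_mod_cast this
  omega

theorem negI_half : ¬ NegI (-(1 / 2)) := by
  rintro ⟨m, hm, h⟩
  have : (2 * m : ℚ) = 1 := by linarith
  have : 2 * m = 1 := by exact_mod_cast this
  omega

theorem univ2 : ∀ i i' : Fin 2, i ≠ i' → (Finset.univ : Finset (Fin 2)) = {i, i'} := by decide

end Pool.Agent.Y231.N4.T2

namespace Pool.Agent.Y231.N4

open Finset T2 in
/-- **Facets with two coordinates.** -/
theorem T2 : StT := by
  intro ι _ v h a g ha hg hyp hvert hex hNB hsum1 hsum2
  classical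
  obtain ⟨i, i', hii, h01, ⟨jz, hjz⟩, ⟨jo, hjo⟩⟩ := zeroOne ha hg hyp hex hNB hsum1
  right
  have s2 : ∀ f : Fin 2 → ℚ, ∑ m, f m = f i + f i' := by
    intro f
    rw [univ2 i i' hii, Finset.sum_insert (by simp [hii]), Finset.sum_singleton]
  have s2n : ∀ f : Fin 2 → ℕ, ∑ m, f m = f i + f i' := by
    intro f
    rw [univ2 i i' hii, Finset.sum_insert (by simp [hii]), Finset.sum_singleton]
  have all2 : ∀ m : Fin 2, m = i ∨ m = i' := by
    intro m
    have : m ∈ (Finset.univ : Finset (Fin 2)) := mem_univ _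
    rw [univ2 i i' hii] at this
    simpa using this
  -- points over the same vector are incomparable
  have hinc : ∀ x y : ι, x ≠ y → v x = v y → ¬ ∀ m, h x m ≤ h y m := by
    intro x y hxy hv hh
    refine hvert y ⟨Pi.single x 1, fun k => ?_, ?_, ?_, fun m => ?_, fun m => ?_⟩
    · by_cases hk : k = x
      · subst hk; simp
      · rw [Pi.single_eq_of_ne hk]
    · rw [Pi.single_eq_of_ne (Ne.symm hxy)]
    · rw [Finset.sum_pi_single']; simp
    · rw [Finset.sum_eq_single x]
      · rw [Pi.single_eq_same, one_mul, hv]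
      · intro b _ hb
        rw [Pi.single_eq_of_ne hb, zero_mul]
      · simp
    · rw [Finset.sum_eq_single x]
      · rw [Pi.single_eq_same, one_mul]
        exact_mod_cast hh m
      · intro b _ hb
        rw [Pi.single_eq_of_ne hb, zero_mul]
      · simp
  have hveq : ∀ x y : ι, v x i = v y i → v x = v y := by
    intro x y hxy
    funext m
    rcases all2 m with rfl | rfl
    · exact hxy
    · exact same ha hyp hii hxy
  by_cases hone : ∀ l, v l i = 1 → l = jo
  · left
    refine ⟨i, jo, mem_univ _, hjo, fun j _ hj => ?_⟩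
    rcases h01 j with h | h
    · exact h
    · exact (hj (hone j h)).elim
  right
  push Not at hone
  obtain ⟨l₀, hl₀, hl₀'⟩ := hone
  -- the point `p`
  obtain ⟨p, hpm, hpmin⟩ := Finset.exists_min_image (univ.filter fun j => v j i = 1)
    (fun j => h j 0) ⟨jo, by simp [hjo]⟩
  have hp1 : v p i = 1 := (mem_filter.1 hpm).2
  have hpl : ∀ l, v l i = 1 → l ≠ p → h p 0 < h l 0 ∧ h l 1 < h p 1 := by
    intro l hl hlp
    have h0 : h p 0 ≤ h l 0 := hpmin l (by simp [hl])
    have hv : v p = v l := hveq p l (by rw [hp1, hl])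
    have hlt : h l 1 < h p 1 := by
      by_contra hcon
      push Not at hcon
      apply hinc p l (Ne.symm hlp) hv
      intro m
      fin_cases m
      · exact h0
      · exact hcon
    refine ⟨lt_of_le_of_ne h0 fun heq => ?_, hlt⟩
    apply hinc l p hlp hv.symm
    intro m
    fin_cases m
    · exact heq.ge
    · exact hlt.le
  -- the point `p'`
  have hne : (univ.filter fun j => v j i = 1 ∧ j ≠ p).Nonempty := by
    by_cases hlp : l₀ = p
    · refine ⟨jo, ?_⟩
      simp only [mem_filter, mem_univ, true_and]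
      exact ⟨hjo, fun he => hl₀' (by rw [hlp, he])⟩
    · exact ⟨l₀, by simp [hl₀, hlp]⟩
  obtain ⟨p', hpm', hpmin'⟩ := Finset.exists_min_image _
    (fun j => ((h j 1 : ℚ) - h p 1) / ((h j 0 : ℚ) - h p 0)) hne
  obtain ⟨hp1', hpp'⟩ : v p' i = 1 ∧ p' ≠ p := (mem_filter.1 hpm').2
  obtain ⟨c0, c1⟩ := hpl p' hp1' hpp'
  have c0' : (h p 0 : ℚ) < h p' 0 := by exact_mod_cast c0
  have c1' : (h p' 1 : ℚ) < h p 1 := by exact_mod_cast c1
  obtain ⟨w0, hw0⟩ : ∃ x : ℚ, x = (h p 1 : ℚ) - h p' 1 := ⟨_, rfl⟩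
  obtain ⟨w1, hw1⟩ : ∃ x : ℚ, x = (h p' 0 : ℚ) - h p 0 := ⟨_, rfl⟩
  have hw0p : 0 < w0 := by linarith
  have hw1p : 0 < w1 := by linarith
  have hV1 : ∀ l, v l i = 1 → w0 * h p 0 + w1 * h p 1 ≤ w0 * h l 0 + w1 * h l 1 := by
    intro l hl
    by_cases hlp : l = p
    · rw [hlp]
    obtain ⟨d0, d1⟩ := hpl l hl hlp
    have d0' : (h p 0 : ℚ) < h l 0 := by exact_mod_cast d0
    have e := hpmin' l (by simp [hl, hlp])
    rw [div_le_div_iff₀ (by linarith) (by linarith)] at e
    rw [hw0, hw1]
    linarith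
  have hVp : w0 * h p 0 + w1 * h p 1 = w0 * h p' 0 + w1 * h p' 1 := by
    rw [hw0, hw1]; ring
  -- the point `q`
  obtain ⟨q, hqm, hqmin⟩ := Finset.exists_min_image (univ.filter fun j => v j i = 0)
    (fun j => w0 * (h j 0 : ℚ) + w1 * h j 1) ⟨jz, by simp [hjz]⟩
  have hq0 : v q i = 0 := (mem_filter.1 hqm).2
  have hqp : q ≠ p := by
    rintro rfl
    omega
  have hqp' : q ≠ p' := by
    rintro rfl
    omega
  have hbp := same ha hyp hii (show v p' i = v p i by rw [hp1, hp1'])
  have eq1 := hyp q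
  rw [s2n, hq0] at eq1
  have eq2 := hyp p
  rw [s2n, hp1] at eq2
  have hb : 0 < v q i' := by
    by_contra hcon
    have : v q i' = 0 := by omega
    rw [this] at eq1
    omega
  have hb' : (v q i' : ℚ) ≠ 0 := by exact_mod_cast hb.ne'
  have hnq : ¬ NegI (((v p i' : ℚ) - 1) / v q i') := by
    rintro ⟨m, hm, he⟩
    rw [div_eq_iff hb'] at he
    have h1 : (m : ℚ) * v q i' + v p i' = 1 := by linarith
    have h2 : m * v q i' + v p i' = 1 := by exact_mod_cast h1
    have h3 : 1 ≤ m * v q i' := Nat.mul_pos hm hb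
    have h4 : v p i' = 0 := by omega
    have h5 : m * v q i' = 1 := by omega
    have h6 : v q i' = 1 := Nat.eq_one_of_mul_eq_one_left h5
    apply hsum2
    rw [s2n]
    rw [h6] at eq1
    rw [h4] at eq2
    omega
  obtain ⟨κ, hκ⟩ : ∃ x : ℚ, x = w0 * (h q 0 : ℚ) + w1 * h q 1 := ⟨_, rfl⟩
  obtain ⟨U, hU⟩ : ∃ x : ℚ, x = κ - (w0 * (h p 0 : ℚ) + w1 * h p 1) := ⟨_, rfl⟩
  let s : ι → ℚ := fun j => if j = p then -(1 / 2) else if j = p' then -(1 / 2) else
    if j = q then ((v p i' : ℚ) - 1) / v q i' else 0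
  have sp : s p = -(1 / 2) := by simp [s]
  have sp' : s p' = -(1 / 2) := by simp [s]
  have sq : s q = ((v p i' : ℚ) - 1) / v q i' := by simp [s, hqp, hqp']
  have soff : ∀ j, j ∉ ({p, p', q} : Finset ι) → s j = 0 := by
    intro j hj
    simp only [mem_insert, mem_singleton, not_or] at hj
    simp [s, hj.1, hj.2.1, hj.2.2]
  refine ⟨{p, p', q}, s, fun m => if m = i then U else 0, ![w0, w1], κ, ?_, soff, ?_, ?_, ?_, ?_, ?_⟩
  · intro m
    fin_cases m
    · exact hw0p
    · exact hw1p
  · intro j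
    by_cases hj : j ∈ ({p, p', q} : Finset ι)
    · simp only [mem_insert, mem_singleton] at hj
      rcases hj with rfl | rfl | rfl
      · rw [sp]; exact negI_half
      · rw [sp']; exact negI_half
      · rw [sq]; exact hnq
    · rw [soff j hj]; exact negI_zero
  · intro m
    rw [T2.sum3 (Ne.symm hpp') (Ne.symm hqp) (Ne.symm hqp') s _ soff, sp, sp', sq]
    rcases all2 m with rfl | rfl
    · rw [hp1, hp1', hq0]; norm_num
    · rw [hbp, div_mul_cancel₀ _ hb']; ring
  · intro c hc hcv hch j
    have r0 := hcv i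
    have r1 := hcv i'
    have r2 := hch 0
    rw [T2.sum3 (Ne.symm hpp') (Ne.symm hqp) (Ne.symm hqp') c _ hc] at r0 r1 r2
    rw [hp1, hp1', hq0] at r0
    rw [hbp] at r1
    push_cast at r0
    have k1 : c p' = - c p := by linarith
    have k2 : c q * (v q i' : ℚ) = 0 := by
      rw [k1] at r1
      linarith
    have k3 : c q = 0 := by
      rcases mul_eq_zero.1 k2 with hh | hh
      · exact hh
      · exact (hb' hh).elim
    have k4 : c p * ((h p 0 : ℚ) - h p' 0) = 0 := by
      rw [k1, k3] at r2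
      linarith
    have k5 : c p = 0 := by
      rcases mul_eq_zero.1 k4 with hh | hh
      · exact hh
      · linarith
    by_cases hj : j ∈ ({p, p', q} : Finset ι)
    · simp only [mem_insert, mem_singleton] at hj
      rcases hj with rfl | rfl | rfl
      · exact k5
      · rw [k1, k5, neg_zero]
      · exact k3
    · exact hc j hj
  · have hval : ∀ j, ∑ m, ((if m = i then U else 0) * (v j m : ℚ) +
        (![w0, w1] : Fin 2 → ℚ) m * (h j m : ℚ)) = U * v j i + (w0 * h j 0 + w1 * h j 1) := by
      intro j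
      rw [Finset.sum_add_distrib, s2, Fin.sum_univ_two]
      simp [Ne.symm hii]
    intro j hj
    rw [hval]
    simp only [mem_insert, mem_singleton] at hj
    rcases hj with rfl | rfl | rfl
    · rw [hp1, hU]; push_cast; ring
    · rw [hp1', hU, ← hVp]; push_cast; ring
    · rw [hq0, hκ]; push_cast; ring
  · have hval : ∀ j, ∑ m, ((if m = i then U else 0) * (v j m : ℚ) +
        (![w0, w1] : Fin 2 → ℚ) m * (h j m : ℚ)) = U * v j i + (w0 * h j 0 + w1 * h j 1) := by
      intro j
      rw [Finset.sum_add_distrib, s2, Fin.sum_univ_two]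
      simp [Ne.symm hii]
    intro j
    rw [hval]
    rcases h01 j with hj | hj
    · rw [hj, hκ]
      have := hqmin j (by simp [hj])
      push_cast
      linarith
    · rw [hj, hU]
      have := hV1 j hj
      push_cast
      linarith

end Pool.Agent.Y231.N4
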