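import Pool.Agent.Y231.N4.F2
import Pool.Agent.Y231.N4.C4
import Pool.Agent.Y231.N4.C5
import Pool.Agent.Y231.N4.CA
import Pool.Agent.Y231.N4.H4
import Pool.Agent.Y231.N4.HN
import Pool.Agent.Y231.N4.HA
import Pool.Agent.Y231.N4.T2
import Pool.Agent.Y231.N4.R1
import Pool.Agent.Y231.N4.R2
import Pool.Agent.Y231.N4.AZ
import Pool.Agent.Y231.N4.FAC

/-!
# Four variables: the theorem
-/

set_option autoImplicit false

namespace Pool.Agent.Y231.N4

open MvPolynomial Pool.Agent.H628R4.TP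
open Pool.Agent.TH216.HD (poly InPoly map_poly)
open Pool.Agent.TH216.HDL (Vertices)
open Pool.Agent.W428.MOT (Pt Constr ratRing)
open Pool.Agent.W375.MG (zetaG Good)

/-- **The facets in four variables.** -/
theorem fac : StFac := FAC (CA stC4 stC5) (HA stH4 stHN) T2

/-- **The theorem in four variables.** -/
theorem main4 {r : ℕ}
    {F : Type} [Field F] [Algebra F ℂ] (hr : 0 < r)
    (v : Fin r → Fin 4 → ℕ) (hV : Vertices v) (hv : Function.Injective v) (hv0 : ∀ j, v j ≠ 0)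
    (h : MvPolynomial (Fin 4) F) (hh : ∀ w ∈ h.support, InPoly v w) :
    ∃ g : MvPolynomial (Fin r) F, g ≠ 0 ∧ ∀ (k : Type) [Field k] [Algebra F k] [Algebra k ℂ]
      [IsScalarTower F k ℂ] (c : Fin r → k), aeval c g ≠ 0 →
      ∃ S : Finset (ℤ × ℤ),
        (∀ p ∈ S, p.1 < 0 ∧ 0 < p.2 ∧ (p.1 = -2 * p.2 ∨ ∀ b : Polynomial ℂ,
          IsLocalBFunction (poly v (fun j => algebraMap k ℂ (c j)) h) b →
            b.eval ((p.1 : ℂ) / p.2) = 0)) ∧
        (∀ (K : Type) [Field K] [Algebra k K] (W : Set (Pt K (Fin 4)))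
          (E : Set (AlgebraicClosure K)), Constr W → Good E → (∀ z ∈ W, ∀ i, z i = 0) →
          zetaG (MvPolynomial.map (algebraMap k K) (poly v c h)) W E ∈ ratRing K S) :=
  gen4P stR1 stR2 AZ.main fac hr v hV hv hv0 h hh

end Pool.Agent.Y231.N4
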