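import Pool.Agent.Y231.N4.X1

/-!
# The decomposition of the classes
-/

set_option autoImplicit false

namespace Pool.Agent.Y231.N4

open Pool.Agent.TH216.MF
open Pool.Agent.W426.SM (gord face)
open Pool.Agent.W428.MOT (amin free)

variable {r : ℕ} {R : Type} [CommRing R]

/-- faces -/
def Fc (m : Fin r → Fin 4 → ℕ) (τ : Finset (Fin r)) : Prop :=
  τ = ∅ ∨ ∃ u : Fin 4 → ℕ, (∀ i, 0 < u i) ∧ amin m u = τ

lemma fc_step (m : Fin r → Fin 4 → ℕ) (i : Fin 4) (j0 : Fin r) (hj0 : m j0 i = 1)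
    (τ : Finset (Fin r)) (hτ : ∀ j ∈ τ, m j i = 0) (h : Fc m (insert j0 τ)) : Fc m τ := by
  classical
  rcases h with h | ⟨u, hu, h⟩
  · exact absurd h (Finset.insert_ne_empty _ _)
  · rcases τ.eq_empty_or_nonempty with h0 | hne
    · exact Or.inl h0
    · right
      obtain ⟨u', h1, h2⟩ := sub_face m u hu (fun l => if l = i then 1 else 0) 0 τ
        (by rw [h]; exact Finset.subset_insert _ _) hne (fun j hj => by
          simp only [ite_mul, one_mul, zero_mul, Finset.sum_ite_eq', Finset.mem_univ, if_true]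
          exact_mod_cast hτ j hj) (fun j hj hj' => by
          simp only [ite_mul, one_mul, zero_mul, Finset.sum_ite_eq', Finset.mem_univ, if_true]
          rw [h] at hj
          rcases Finset.mem_insert.1 hj with rfl | h3
          · rw [hj0]
            norm_num
          · exact absurd h3 hj')
      exact ⟨u', h1, h2⟩

lemma fc_bas (m : Fin r → Fin 4 → ℕ) : ∀ τ, Fc m τ → Fc m (bas m Finset.univ τ) := by
  classical
  refine step_ind m Finset.univ _ (fun τ h hF => ?_) fun i hi j0 hj0 τ hτ ih hF => ?_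
  · rw [bas_apf m _ τ h]
    exact hF
  · rw [bas_step m _ i hi j0 hj0 τ hτ]
    exact ih (fc_step m i j0 hj0 τ hτ hF)

lemma sum_PK (u : Rˣ) (m : Fin r → Fin 4 → ℕ) (τ ρ : Finset (Fin r)) (n : ℕ)
    (f : Finset (Fin r) → R) : ∑ κ, evL u (PK m κ τ ρ n) * f κ =
      (-1) ^ (τ.card + (bas m Finset.univ ρ).card + n) *
        ((u : R) - 1) ^ (mx m Finset.univ (bas m Finset.univ ρ) + n -
          (frc m Finset.univ τ + τ.card)) * f (bas m Finset.univ ρ) := by
  classical
  have hX : evL u Polynomial.X = (u : R) - 1 := by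
    unfold evL
    simp
  rw [Finset.sum_eq_single (bas m Finset.univ ρ)]
  · unfold PK
    rw [if_pos rfl, map_mul, map_pow, map_pow, map_neg, map_one, hX]
  · intro κ _ hκ
    unfold PK
    rw [if_neg (Ne.symm hκ), map_zero, zero_mul]
  · intro h
    exact absurd (Finset.mem_univ _) h

/-- the coefficients -/
lemma coef_eq (t : R) (m : Fin r → Fin 4 → ℕ) (τ ρ : Finset (Fin r)) (n k : ℕ)
    (hn : (bas m Finset.univ τ).card = ρ.card + n + k)
    (hf : frc m Finset.univ (bas m Finset.univ τ) + k ≤ frc m Finset.univ ρ) :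
    ((-1) ^ (τ.card + (bas m Finset.univ τ).card) *
      t ^ (mx m Finset.univ (bas m Finset.univ τ) - (frc m Finset.univ τ + τ.card))) *
      (t ^ (frc m Finset.univ ρ - (frc m Finset.univ (bas m Finset.univ τ) + k)) *
      ((-1) ^ (ρ.card + (bas m Finset.univ ρ).card) *
        t ^ (mx m Finset.univ (bas m Finset.univ ρ) - (frc m Finset.univ ρ + ρ.card)))) =
      (-1) ^ k * ((-1) ^ (τ.card + (bas m Finset.univ ρ).card + n) *
        t ^ (mx m Finset.univ (bas m Finset.univ ρ) + n - (frc m Finset.univ τ + τ.card))) := by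
  have h1 := bas_frc (v := m) τ
  have h2 := le_mx m Finset.univ ρ
  have h3 : mx m Finset.univ (bas m Finset.univ τ) =
    frc m Finset.univ (bas m Finset.univ τ) + (bas m Finset.univ τ).card := rfl
  set σ := bas m Finset.univ τ
  have e1 : (-1 : R) ^ (τ.card + σ.card) * (-1) ^ (ρ.card + (bas m Finset.univ ρ).card) =
      (-1) ^ k * (-1) ^ (τ.card + (bas m Finset.univ ρ).card + n) := by
    rw [hn]
    have : (-1 : R) ^ ρ.card * (-1) ^ ρ.card = 1 := by
      rw [← mul_pow, neg_one_mul, neg_neg, one_pow]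
    simp only [pow_add]
    linear_combination ((-1) ^ τ.card * (-1) ^ n * (-1) ^ k *
      (-1) ^ (bas m Finset.univ ρ).card) * this
  have e2 : t ^ (mx m Finset.univ σ - (frc m Finset.univ τ + τ.card)) *
      (t ^ (frc m Finset.univ ρ - (frc m Finset.univ σ + k)) *
        t ^ (mx m Finset.univ (bas m Finset.univ ρ) - (frc m Finset.univ ρ + ρ.card))) =
      t ^ (mx m Finset.univ (bas m Finset.univ ρ) + n - (frc m Finset.univ τ + τ.card)) := by
    rw [← pow_add, ← pow_add]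
    congr 1
    omega
  rw [← e2]
  linear_combination (t ^ (mx m Finset.univ σ - (frc m Finset.univ τ + τ.card)) *
      (t ^ (frc m Finset.univ ρ - (frc m Finset.univ σ + k)) *
        t ^ (mx m Finset.univ (bas m Finset.univ ρ) - (frc m Finset.univ ρ + ρ.card)))) * e1

/-- the relations for the classes -/
structure ClR (u : Rˣ) (m : Fin r → Fin 4 → ℕ) (w : R) (b : Finset (Fin r) → R) : Prop where
  one : ∀ i, ∀ j0, m j0 i = 1 → ∀ τ, (∀ j ∈ τ, m j i = 0) →
      b (insert j0 τ) = w * ((u : R) - 1) ^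
        ((Finset.univ : Finset (Fin 4)).card - frc m Finset.univ (insert j0 τ) - 1) -
        ((u : R) - 1) ^ (frc m Finset.univ τ - frc m Finset.univ (insert j0 τ) - 1) * b τ
  two : ∀ i k : Fin 4, i ≠ k → ∀ τ0 τ1 τ2 : Finset (Fin r),
    (∀ j ∈ τ0, m j i = 0 ∧ m j k = 0) → (∀ j ∈ τ1, m j i = 1 ∧ m j k = 0) →
    (∀ j ∈ τ2, m j i = 0 ∧ m j k = 1) → τ1.Nonempty → τ2.Nonempty →
    (∃ x : Fin 4 → ℕ, (∀ i, 0 < x i) ∧ amin m x = τ0 ∪ (τ1 ∪ τ2)) →
    b (τ0 ∪ (τ1 ∪ τ2)) +
      (((u : R) - 1) ^ (frc m Finset.univ (τ0 ∪ τ1) -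
          (frc m Finset.univ (τ0 ∪ (τ1 ∪ τ2)) + 1)) * b (τ0 ∪ τ1) +
      ((u : R) - 1) ^ (frc m Finset.univ (τ0 ∪ τ2) -
          (frc m Finset.univ (τ0 ∪ (τ1 ∪ τ2)) + 1)) * b (τ0 ∪ τ2)) +
      ((u : R) - 1) ^ (frc m Finset.univ τ0 -
          (frc m Finset.univ (τ0 ∪ (τ1 ∪ τ2)) + 2)) * b τ0 =
      w * ((u : R) - 1) ^ ((Finset.univ : Finset (Fin 4)).card -
        (frc m Finset.univ (τ0 ∪ (τ1 ∪ τ2)) + 2)) * (u : R)

/-- **The decomposition.** -/
theorem decomp4 (u : Rˣ) (m : Fin r → Fin 4 → ℕ) (w : R) (b : Finset (Fin r) → R)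
    (hb : ClR u m w b) (τ : Finset (Fin r))
    (hτ : Fc m τ) : b τ - cW u w m Finset.univ τ =
      ∑ κ, evL u (pB m κ τ) * (b κ - cW u w m Finset.univ κ) := by
  classical
  set t : R := (u : R) - 1 with ht
  set b' : Finset (Fin r) → R := fun τ => b τ - cW u w m Finset.univ τ with hb'
  have huY : (u : R) * ((u⁻¹ : Rˣ) : R) = 1 := Units.mul_inv u
  -- the first relations
  have hhom : ∀ τ, b' τ = (-1) ^ (τ.card + (bas m Finset.univ τ).card) *
      t ^ (mx m Finset.univ (bas m Finset.univ τ) - (frc m Finset.univ τ + τ.card)) *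
          b' (bas m Finset.univ τ) := by
    intro τ
    refine decomp (u : R) m Finset.univ (fun _ => True) (fun _ _ _ _ => trivial) b' ?_ τ trivial
    intro i hi j0 hj0 τ hτ _
    have h1 := free_step m Finset.univ i hi j0 hj0 τ hτ
    have h2 := frc_le m Finset.univ τ
    simp only [hb', cW]
    rw [hb.one i j0 hj0 τ hτ]
    set c4 := (Finset.univ : Finset (Fin 4)).card with hc4
    set a := c4 - frc m Finset.univ (insert j0 τ) - 1 with ha
    set d := frc m Finset.univ τ - frc m Finset.univ (insert j0 τ) - 1 with hd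
    have e1 : c4 - frc m Finset.univ (insert j0 τ) = a + 1 := by omega
    have e2 : d + (c4 - frc m Finset.univ τ) = a := by omega
    rw [e1, ← e2, pow_succ, pow_add]
    linear_combination (-(w * ((u : R) - 1) ^ d *
      ((u : R) - 1) ^ (c4 - frc m Finset.univ τ))) * huY
  -- the second relations
  have htwo : ∀ i k : Fin 4, i ≠ k → ∀ τ0 τ1 τ2 : Finset (Fin r),
      (∀ j ∈ τ0, m j i = 0 ∧ m j k = 0) → (∀ j ∈ τ1, m j i = 1 ∧ m j k = 0) →
      (∀ j ∈ τ2, m j i = 0 ∧ m j k = 1) → τ1.Nonempty → τ2.Nonempty →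
      (∃ x : Fin 4 → ℕ, (∀ i, 0 < x i) ∧ amin m x = τ0 ∪ (τ1 ∪ τ2)) →
      b' (τ0 ∪ (τ1 ∪ τ2)) +
        (t ^ (frc m Finset.univ (τ0 ∪ τ1) -
            (frc m Finset.univ (τ0 ∪ (τ1 ∪ τ2)) + 1)) * b' (τ0 ∪ τ1) +
        t ^ (frc m Finset.univ (τ0 ∪ τ2) -
            (frc m Finset.univ (τ0 ∪ (τ1 ∪ τ2)) + 1)) * b' (τ0 ∪ τ2)) +
        t ^ (frc m Finset.univ τ0 -
            (frc m Finset.univ (τ0 ∪ (τ1 ∪ τ2)) + 2)) * b' τ0 = 0 := by
    intro i k hik τ0 τ1 τ2 t0 t1 t2 hn1 hn2 hx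
    have h1 := hb.two i k hik τ0 τ1 τ2 t0 t1 t2 hn1 hn2 hx
    simp only [hb', cW]
    obtain ⟨j1, hj1⟩ := hn1
    obtain ⟨j2, hj2⟩ := hn2
    have f1 : frc m Finset.univ (τ0 ∪ (τ1 ∪ τ2)) + 1 ≤ frc m Finset.univ (τ0 ∪ τ1) := by
      refine frc_lt m (Finset.union_subset_union (Finset.Subset.refl _)
        Finset.subset_union_left) {k} (fun x hx j hj => ?_) (fun x hx => ?_)
      · rw [Finset.mem_singleton.1 hx]
        rcases Finset.mem_union.1 hj with h | h
        · exact (t0 j h).2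
        · exact (t1 j h).2
      · rw [Finset.mem_singleton.1 hx]
        refine ⟨j2, by simp [hj2], ?_⟩
        rw [(t2 j2 hj2).2]
        exact one_ne_zero
    have f2 : frc m Finset.univ (τ0 ∪ (τ1 ∪ τ2)) + 1 ≤ frc m Finset.univ (τ0 ∪ τ2) := by
      refine frc_lt m (Finset.union_subset_union (Finset.Subset.refl _)
        Finset.subset_union_right) {i} (fun x hx j hj => ?_) (fun x hx => ?_)
      · rw [Finset.mem_singleton.1 hx]
        rcases Finset.mem_union.1 hj with h | h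
        · exact (t0 j h).1
        · exact (t2 j h).1
      · rw [Finset.mem_singleton.1 hx]
        refine ⟨j1, by simp [hj1], ?_⟩
        rw [(t1 j1 hj1).1]
        exact one_ne_zero
    have f3 : frc m Finset.univ (τ0 ∪ (τ1 ∪ τ2)) + 2 ≤ frc m Finset.univ τ0 := by
      have := frc_lt m (σ := τ0) (τ := τ0 ∪ (τ1 ∪ τ2)) Finset.subset_union_left {i, k}
        (fun x hx j hj => ?_) (fun x hx => ?_)
      · rwa [Finset.card_pair hik] at this
      · rcases Finset.mem_insert.1 hx with rfl | hx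
        · exact (t0 j hj).1
        · rw [Finset.mem_singleton.1 hx]
          exact (t0 j hj).2
      · rcases Finset.mem_insert.1 hx with rfl | hx
        · refine ⟨j1, by simp [hj1], ?_⟩
          rw [(t1 j1 hj1).1]
          exact one_ne_zero
        · rw [Finset.mem_singleton.1 hx]
          refine ⟨j2, by simp [hj2], ?_⟩
          rw [(t2 j2 hj2).2]
          exact one_ne_zero
    have g1 := frc_le m Finset.univ (τ0 ∪ τ1)
    have g2 := frc_le m Finset.univ (τ0 ∪ τ2)
    have g3 := frc_le m Finset.univ τ0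
    set c4 := (Finset.univ : Finset (Fin 4)).card with hc4
    set f := frc m Finset.univ (τ0 ∪ (τ1 ∪ τ2)) with hf
    set f01 := frc m Finset.univ (τ0 ∪ τ1) with hf01
    set f02 := frc m Finset.univ (τ0 ∪ τ2) with hf02
    set f0 := frc m Finset.univ τ0 with hf0
    have e0 : c4 - f = (c4 - (f + 2)) + 2 := by omega
    have e1 : t ^ (f01 - (f + 1)) * t ^ (c4 - f01) = t ^ (c4 - (f + 2)) * t := by
      rw [← pow_add, ← pow_succ]
      congr 1
      omega
    have e2 : t ^ (f02 - (f + 1)) * t ^ (c4 - f02) = t ^ (c4 - (f + 2)) * t := by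
      rw [← pow_add, ← pow_succ]
      congr 1
      omega
    have e3 : t ^ (f0 - (f + 2)) * t ^ (c4 - f0) = t ^ (c4 - (f + 2)) := by
      rw [← pow_add]
      congr 1
      omega
    rw [e0, pow_add]
    have ht1 : (u : R) = t + 1 := by rw [ht]; ring
    set Y : R := ((u⁻¹ : Rˣ) : R) with hY
    have h5 : w * Y * t ^ (c4 - (f + 2)) * (t + 1) ^ 2 = w * t ^ (c4 - (f + 2)) * (u : R) := by
      rw [← ht1]
      linear_combination (w * t ^ (c4 - (f + 2)) * (u : R)) * huY
    linear_combination h1 - w * Y * e1 - w * Y * e2 - w * Y * e3 - h5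
  -- the normal form
  unfold pB
  by_cases hS : ∃ p : Fin 4 × Fin 4, St2 m (bas m Finset.univ τ) p.1 p.2
  swap
  · simp only [dif_neg hS]
    have h1 := sum_PK u m τ (bas m Finset.univ τ) 0 b'
    rw [bas_bas, add_zero, add_zero] at h1
    rw [h1]
    exact hhom τ
  simp only [dif_pos hS]
  obtain ⟨hT, hc1, hc2⟩ := hS.choose_spec
  set i := hS.choose.1 with hi
  set l := hS.choose.2 with hl
  set σ := bas m Finset.univ τ with hσ
  have hFσ := fc_bas m τ hτ
  rw [← hσ] at hFσ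
  obtain ⟨j1, hj1, -⟩ := two_of_card hc1
  obtain ⟨j2, hj2, -⟩ := two_of_card hc2
  have hsplit : σ = P0 m i l σ ∪ (P1 m i l σ ∪ P1 m l i σ) := by
    ext j
    rw [Finset.mem_union, Finset.mem_union, mem_P0, mem_P1, mem_P1]
    constructor
    · intro hj
      rcases hT.2 j hj with h3 | h3 | h3
      · exact Or.inl ⟨hj, h3⟩
      · exact Or.inr (Or.inl ⟨hj, h3⟩)
      · exact Or.inr (Or.inr ⟨hj, h3.2, h3.1⟩)
    · rintro (h3 | h3 | h3) <;> exact h3.1
  have hface : ∃ x : Fin 4 → ℕ, (∀ i, 0 < x i) ∧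
      amin m x = P0 m i l σ ∪ (P1 m i l σ ∪ P1 m l i σ) := by
    rw [← hsplit]
    rcases hFσ with h | h
    · exfalso
      rw [mem_P1, h] at hj1
      exact absurd hj1.1 (Finset.notMem_empty _)
    · exact h
  have h1 := htwo i l hT.1 (P0 m i l σ) (P1 m i l σ) (P1 m l i σ)
    (fun j hj => ((mem_P0 m).1 hj).2) (fun j hj => ((mem_P1 m).1 hj).2)
    (fun j hj => ⟨((mem_P1 m).1 hj).2.2, ((mem_P1 m).1 hj).2.1⟩) ⟨j1, hj1⟩ ⟨j2, hj2⟩ hface
  rw [← hsplit] at h1
  have hpc := part_card hT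
  have hd01 : (P0 m i l σ ∪ P1 m i l σ).card = (P0 m i l σ).card + (P1 m i l σ).card := by
    refine Finset.card_union_of_disjoint ?_
    rw [Finset.disjoint_left]
    intro j hj hj'
    rw [mem_P0] at hj
    rw [mem_P1] at hj'
    omega
  have hd02 : (P0 m i l σ ∪ P1 m l i σ).card = (P0 m i l σ).card + (P1 m l i σ).card := by
    refine Finset.card_union_of_disjoint ?_
    rw [Finset.disjoint_left]
    intro j hj hj'
    rw [mem_P0] at hj
    rw [mem_P1] at hj'
    omega
  have f1 : frc m Finset.univ σ + 1 ≤ frc m Finset.univ (P0 m i l σ ∪ P1 m i l σ) := by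
    refine frc_lt m (Finset.union_subset (Finset.filter_subset _ _) (Finset.filter_subset _ _))
      {l} (fun x hx j hj => ?_) (fun x hx => ?_)
    · rw [Finset.mem_singleton.1 hx]
      rcases Finset.mem_union.1 hj with h | h
      · exact ((mem_P0 m).1 h).2.2
      · exact ((mem_P1 m).1 h).2.2
    · rw [Finset.mem_singleton.1 hx]
      rw [mem_P1] at hj2
      refine ⟨j2, hj2.1, ?_⟩
      rw [hj2.2.1]
      exact one_ne_zero
  have f2 : frc m Finset.univ σ + 1 ≤ frc m Finset.univ (P0 m i l σ ∪ P1 m l i σ) := by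
    refine frc_lt m (Finset.union_subset (Finset.filter_subset _ _) (Finset.filter_subset _ _))
      {i} (fun x hx j hj => ?_) (fun x hx => ?_)
    · rw [Finset.mem_singleton.1 hx]
      rcases Finset.mem_union.1 hj with h | h
      · exact ((mem_P0 m).1 h).2.1
      · exact ((mem_P1 m).1 h).2.2
    · rw [Finset.mem_singleton.1 hx]
      rw [mem_P1] at hj1
      refine ⟨j1, hj1.1, ?_⟩
      rw [hj1.2.1]
      exact one_ne_zero
  have f3 : frc m Finset.univ σ + 2 ≤ frc m Finset.univ (P0 m i l σ) := by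
    have := frc_lt m (σ := P0 m i l σ) (τ := σ) (Finset.filter_subset _ _) {i, l}
      (fun x hx j hj => ?_) (fun x hx => ?_)
    · rwa [Finset.card_pair hT.1] at this
    · rcases Finset.mem_insert.1 hx with rfl | hx
      · exact ((mem_P0 m).1 hj).2.1
      · rw [Finset.mem_singleton.1 hx]
        exact ((mem_P0 m).1 hj).2.2
    · rcases Finset.mem_insert.1 hx with rfl | hx
      · rw [mem_P1] at hj1
        refine ⟨j1, hj1.1, ?_⟩
        rw [hj1.2.1]
        exact one_ne_zero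
      · rw [Finset.mem_singleton.1 hx]
        rw [mem_P1] at hj2
        refine ⟨j2, hj2.1, ?_⟩
        rw [hj2.2.1]
        exact one_ne_zero
  have hc1' : 2 ≤ (P1 m i l σ).card := hc1
  have hc2' : 2 ≤ (P1 m l i σ).card := hc2
  have k1 := coef_eq t m τ (P0 m i l σ ∪ P1 m i l σ) ((P1 m l i σ).card - 1) 1
    (by rw [← hσ, hd01]; omega) (by rw [← hσ]; exact f1)
  have k2 := coef_eq t m τ (P0 m i l σ ∪ P1 m l i σ) ((P1 m i l σ).card - 1) 1
    (by rw [← hσ, hd02]; omega) (by rw [← hσ]; exact f2)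
  have k3 := coef_eq t m τ (P0 m i l σ) ((P1 m i l σ).card + (P1 m l i σ).card - 2) 2
    (by rw [← hσ]; omega) (by rw [← hσ]; exact f3)
  rw [← hσ] at k1 k2 k3
  have s1 := sum_PK u m τ (P0 m i l σ ∪ P1 m i l σ) ((P1 m l i σ).card - 1) b'
  have s2 := sum_PK u m τ (P0 m i l σ ∪ P1 m l i σ) ((P1 m i l σ).card - 1) b'
  have s3 := sum_PK u m τ (P0 m i l σ) ((P1 m i l σ).card + (P1 m l i σ).card - 2) b'
  rw [← ht] at s1 s2 s3
  have hsum : ∑ κ, evL u (valP m κ τ σ i l) * b' κ =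
      -(∑ κ, evL u (PK m κ τ (P0 m i l σ) ((P1 m i l σ).card + (P1 m l i σ).card - 2)) * b' κ) +
      (∑ κ, evL u (PK m κ τ (P0 m i l σ ∪ P1 m i l σ) ((P1 m l i σ).card - 1)) * b' κ) +
      ∑ κ, evL u (PK m κ τ (P0 m i l σ ∪ P1 m l i σ) ((P1 m i l σ).card - 1)) * b' κ := by
    rw [← Finset.sum_neg_distrib, ← Finset.sum_add_distrib, ← Finset.sum_add_distrib]
    refine Finset.sum_congr rfl fun κ _ => ?_
    unfold valP
    rw [map_add, map_add, map_neg]
    ring
  change b' τ = ∑ κ, evL u (valP m κ τ σ i l) * b' κ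
  rw [hsum, s1, s2, s3, hhom τ, ← hσ]
  have h2 := hhom (P0 m i l σ ∪ P1 m i l σ)
  have h3 := hhom (P0 m i l σ ∪ P1 m l i σ)
  have h4 := hhom (P0 m i l σ)
  set cτ := (-1) ^ (τ.card + σ.card) * t ^ (mx m Finset.univ σ -
    (frc m Finset.univ τ + τ.card)) with hcτ
  rw [h2, h3, h4] at h1
  linear_combination cτ * h1 - b' (bas m Finset.univ (P0 m i l σ ∪ P1 m i l σ)) * k1 -
    b' (bas m Finset.univ (P0 m i l σ ∪ P1 m l i σ)) * k2 -
    b' (bas m Finset.univ (P0 m i l σ)) * k3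

end Pool.Agent.Y231.N4
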