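import Pool.Agent.Y231.N4.F8
import Pool.Agent.Y228.ND4.H1

/-!
# Four variables: homogeneous polynomials, all points
-/

set_option autoImplicit false

namespace Pool.Agent.Y231.N4

open MvPolynomial Pool.Agent.W428.MOT Pool.Agent.W375.MG Pool.Agent.W425.MM
open Pool.Agent.TH216.HD (poly InPoly map_poly)
open Pool.Agent.TH216.HDL (Vertices)

variable {r n : ℕ}

/-- `f(0) = 0` -/
theorem eval_poly_zero {F k : Type} [Field F] [Field k] [Algebra F k] (v : Fin r → Fin n → ℕ)
    (hv0 : ∀ j, v j ≠ 0) (h : MvPolynomial (Fin n) F) (hh : ∀ w ∈ h.support, InPoly v w)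
    (c : Fin r → k) : constantCoeff (poly v c h) = 0 := by
  unfold poly
  rw [map_add, map_sum]
  have h1 : ∀ j, constantCoeff (C (c j) * ∏ i, X i ^ v j i : MvPolynomial (Fin n) k) = 0 := by
    intro j
    obtain ⟨i, hi⟩ : ∃ i, v j i ≠ 0 := by
      by_contra hcon
      push Not at hcon
      exact hv0 j (funext hcon)
    rw [map_mul, map_prod, Finset.prod_eq_zero (Finset.mem_univ i) (by
      rw [map_pow, constantCoeff_X, zero_pow hi]), mul_zero]
  rw [Finset.sum_eq_zero fun j _ => h1 j, zero_add, constantCoeff_map]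
  by_contra hcon
  have h2 : (0 : Fin n →₀ ℕ) ∈ h.support := by
    rw [mem_support_iff]
    intro h3
    apply hcon
    rw [constantCoeff_eq, h3, map_zero]
  obtain ⟨l, hl0, hl1, hl2⟩ := hh _ h2
  obtain ⟨j, hj⟩ : ∃ j, 0 < l j := by
    by_contra hc
    push Not at hc
    have : ∑ j, l j ≤ 0 := Finset.sum_nonpos fun j _ => hc j
    linarith
  obtain ⟨i, hi⟩ : ∃ i, v j i ≠ 0 := by
    by_contra hcon
    push Not at hcon
    exact hv0 j (funext hcon)
  have h3 := hl2 i
  have h4 : l j * (v j i : ℝ) ≤ ∑ j, l j * (v j i : ℝ) :=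
    Finset.single_le_sum (f := fun j => l j * (v j i : ℝ))
      (fun k _ => mul_nonneg (hl0 k) (Nat.cast_nonneg _)) (Finset.mem_univ j)
  have h5 : 0 < l j * (v j i : ℝ) := mul_pos hj (by exact_mod_cast Nat.pos_of_ne_zero hi)
  simp only [Finsupp.coe_zero, Pi.zero_apply, Nat.cast_zero] at h3
  linarith

theorem hom_pos {k : Type} [Field k] {f : MvPolynomial (Fin n) k} (h0 : constantCoeff f = 0)
    {d : ℕ} (hd : f.IsHomogeneous d) : ∃ e, 0 < e ∧ f.IsHomogeneous e := by
  rcases Nat.eq_zero_or_pos d with rfl | h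
  · have h1 : f = 0 := by
      have h2 : f.totalDegree = 0 := Nat.le_zero.1 hd.totalDegree_le
      rw [totalDegree_eq_zero_iff_eq_C.1 h2, ← constantCoeff_eq, h0, map_zero]
    exact ⟨1, one_pos, h1 ▸ isHomogeneous_zero _ _ _⟩
  · exact ⟨d, h, hd⟩

/-- **The theorem in four variables: the origin, and all points.** -/
theorem main8 {F : Type} [Field F] [Algebra F ℂ] (hr : 0 < r)
    (v : Fin r → Fin 4 → ℕ) (hV : Vertices v) (hv : Function.Injective v) (hv0 : ∀ j, v j ≠ 0)
    (h : MvPolynomial (Fin 4) F) (hh : ∀ w ∈ h.support, InPoly v w) :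
    ∃ g : MvPolynomial (Fin r) F, g ≠ 0 ∧ ∀ Gl E2 : Prop, (Gl → GlobOK v h) →
      (Gl → ¬ E2 → NoP2 v) → ∀ (k : Type) [Field k] [Algebra F k] [Algebra k ℂ]
      [IsScalarTower F k ℂ] (c : Fin r → k), aeval c g ≠ 0 →
      ∃ S : Finset (ℤ × ℤ),
        (∀ p ∈ S, p.1 < 0 ∧ 0 < p.2 ∧ ((E2 ∧ p.1 = -2 * p.2) ∨ ∀ b : Polynomial ℂ,
          Pool.Agent.H628R4.TP.IsLocalBFunction (poly v (fun j => algebraMap k ℂ (c j)) h) b →
            b.eval ((p.1 : ℂ) / p.2) = 0)) ∧
        ∀ (K : Type) [Field K] [Algebra k K] (E : Set (AlgebraicClosure K)), Good E →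
          zetaG (MvPolynomial.map (algebraMap k K) (poly v c h)) {0} E ∈ ratRing K S ∧
          ((∃ d, (poly v c h).IsHomogeneous d) ∨ Gl →
            zetaG (MvPolynomial.map (algebraMap k K) (poly v c h)) Set.univ E ∈
              ratRing K S) := by
  obtain ⟨g, hg, hgz⟩ := main7 (F := F) hr v hV hv hv0 h hh
  refine ⟨g, hg, fun Gl E2 hGl hE2 k _ _ _ _ c hc => ?_⟩
  obtain ⟨S, hS, hz, -⟩ := hgz Gl E2 hGl hE2 k c hc
  refine ⟨S, hS, fun K _ _ E hE => ?_⟩
  have hkc : CharZero k := RingHom.charZero (algebraMap k ℂ)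
  have hK : CharZero K := charZero_of_injective_algebraMap (algebraMap k K).injective
  have hW : Constr ({0} : Set (Pt K (Fin 4))) := by
    have h1 := constr_pt (K := K) (0 : Fin 4 → K)
    have e : ({fun i => algebraMap K (AlgebraicClosure K) ((0 : Fin 4 → K) i)} :
        Set (Pt K (Fin 4))) = {0} := by
      congr 1
      funext i
      simp
    rwa [e] at h1
  have h0 : zetaG (MvPolynomial.map (algebraMap k K) (poly v c h)) {0} E ∈ ratRing K S :=
    hz K {0} E hW hE (Or.inl fun z hz i => by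
      rw [Set.mem_singleton_iff.1 hz]
      rfl)
  refine ⟨h0, fun hG => ?_⟩
  rcases hG with ⟨d, hd⟩ | hG
  · obtain ⟨e, he, hde⟩ := hom_pos (eval_poly_zero v hv0 h hh c) hd
    exact Pool.Agent.Y228.ND4.global_of_local he (hde.map _) hE hW S (fun p hp => (hS p hp).2.1) h0
  · exact hz K Set.univ E Constr.univ hE (Or.inr hG)

end Pool.Agent.Y231.N4
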