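import Pool.Agent.Y231.N4.G1

/-!
# The equivariant motivic zeta function, over `X_s` and at the origin
-/

set_option autoImplicit false

namespace Pool.Agent.Y231.N4

open MvPolynomial Pool.Agent.W428.MOT
open Pool.Agent.W63.MEFin (mapEMeas)

section

variable {k : Type} [Field k] {n : ℕ}

theorem constr_base {ι : Type} (β : Fin n → Option ι) :
    Constr {z : Pt k ι | cbase β z = 0} := by
  have e : {z : Pt k ι | cbase β z = 0} = {z | ∀ i : Fin n, (β i).elim 0 z = 0} := by
    ext z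
    constructor
    · intro h i
      exact congrFun h i
    · intro h
      exact funext h
  rw [e]
  refine Constr.all fun i => ?_
  cases β i with
  | none => exact Constr.eqz IsPF.zero
  | some j => exact Constr.eqz (IsPF.coord j)

/-- `X_s`-varieties, restricted to the points over the origin, as varieties over the point -/
theorem valid0 {f : MvPolynomial (Fin n) k} {ι : Type} {S : Set (Pt k ι)} {ρ : ι → ℤ} {d : ℕ}
    {β : Fin n → Option ι} (h : Valid f S ρ d β) :
    Valid (0 : MvPolynomial (Fin 0) k) (S ∩ {z | cbase β z = 0}) ρ d Fin.elim0 where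
  constr := h.constr.inter (constr_base β)
  pos := h.pos
  stable := fun l hl z hz => ⟨h.stable l hl z hz.1, by
    have h1 := hz.2
    funext i
    have h2 := congrFun h1 i
    simp only [cbase] at h2 ⊢
    cases hb : β i with
    | none => rfl
    | some j =>
      rw [hb] at h2
      simp only [Option.elim, dact, h.inv i j hb, zpow_zero, one_mul] at h2 ⊢
      exact h2⟩
  base := fun z _ => map_zero _
  inv := fun i => i.elim0

/-- The set `X_{N,1,0}` of the `N`-jets `ψ` with `ψ(0) = 0` and `f(ψ) = t ^ N mod t ^ (N + 1)`. -/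
def JetE0 (f : MvPolynomial (Fin n) k) (N : ℕ) : Set (Pt k (Fin n × Fin (N + 1))) :=
  {z | z ∈ JetE f N ∧ ∀ i, z (i, 0) = 0}

theorem jetE0_eq (f : MvPolynomial (Fin n) k) (N : ℕ) :
    JetE f N ∩ {z | cbase (jb n N) z = 0} = JetE0 f N := by
  ext z
  constructor
  · rintro ⟨h1, h2⟩
    exact ⟨h1, fun i => congrFun h2 i⟩
  · rintro ⟨h1, h2⟩
    exact ⟨h1, funext h2⟩

/-- The jets `X_{N,1,0}` form a `k`-variety with action `ψ(t) ↦ ψ(λ t)` of `μ_N`. -/
theorem jetValid0 (f : MvPolynomial (Fin n) k) (N : ℕ) (hN : 0 < N) :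
    Valid (0 : MvPolynomial (Fin 0) k) (JetE0 f N)
      (fun p : Fin n × Fin (N + 1) => ((p.2 : ℕ) : ℤ)) N Fin.elim0 := by
  rw [← jetE0_eq]
  exact valid0 (jetValid f N hN)

/-- The equivariant local motivic zeta function `Z_{f,0}(T) = ∑_{N ≥ 1} [X_{N,1,0}] 𝕃 ^ (- n N) T ^ N`
at the origin; the coefficients are in the Grothendieck ring of `k`-varieties with good action of
`μ̂`, localised at `𝕃`. -/
noncomputable def zetaE0 (f : MvPolynomial (Fin n) k) :
    PowerSeries (MKMu (0 : MvPolynomial (Fin 0) k)) :=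
  genR n (LuMu (0 : MvPolynomial (Fin 0) k)) fun N h =>
    algebraMap (K0Mu (0 : MvPolynomial (Fin 0) k)) (MKMu (0 : MvPolynomial (Fin 0) k))
      (K0Mu.mk (diagVar (jetValid0 f N h)))

/-- the part over the origin -/
def restr0 {R : Type} [CommRing R] (f : MvPolynomial (Fin n) k)
    (M : EMeas (0 : MvPolynomial (Fin 0) k) R) : EMeas f R where
  χ ι _ S ρ d β := M.χ ι (S ∩ {z | cbase β z = 0}) ρ d Fin.elim0
  L := M.L
  iso S T ρ ρ' d d' β β' h1 h2 φ ψ h3 h4 h5 h6 h7 h8 h9 h10 := by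
    refine M.iso _ _ ρ ρ' d d' _ _ (valid0 h1) (valid0 h2) φ ψ ?_ ?_ ?_ ?_ ?_ ?_ ?_ ?_
    · intro i
      obtain ⟨P, Q, h⟩ := h3 i
      exact ⟨P, Q, fun z hz => h z hz.1⟩
    · intro i
      obtain ⟨P, Q, h⟩ := h4 i
      exact ⟨P, Q, fun z hz => h z hz.1⟩
    · rintro z ⟨hz, hz'⟩
      refine ⟨h5 hz, ?_⟩
      change cbase β' (φ z) = 0
      rw [h9 z hz]
      exact hz'
    · rintro w ⟨hw, hw'⟩
      refine ⟨h6 hw, ?_⟩
      change cbase β (ψ w) = 0
      rw [← h9 (ψ w) (h6 hw), h8 w hw]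
      exact hw'
    · exact fun z hz => h7 z hz.1
    · exact fun w hw => h8 w hw.1
    · exact fun z _ => Subsingleton.elim _ _
    · exact fun l hl z hz => h10 l hl z hz.1
  add S T ρ d β h1 h2 h3 := by
    rw [← M.add _ _ ρ d _ (valid0 h1) (valid0 h2)
      (h3.mono Set.inter_subset_left Set.inter_subset_left), Set.union_inter_distrib_right]
  aff {ι κ} _ _ S ρ ρ' d β h := by
    have h1 := M.aff (κ := κ) (S ∩ {z | cbase β z = 0}) ρ ρ' d Fin.elim0 (valid0 h)
    have e1 : (fun i => Option.map Sum.inl ((Fin.elim0 : Fin 0 → Option ι) i)) =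
      (Fin.elim0 : Fin 0 → Option (ι ⊕ κ)) := Subsingleton.elim _ _
    rw [e1] at h1
    rw [← h1]
    congr 1
    ext z
    simp only [Set.mem_inter_iff, Set.mem_ofPred_eq]
    refine and_congr_right fun _ => ?_
    have e2 : cbase (fun i => Option.map Sum.inl (β i)) z = cbase β (fun i => z (Sum.inl i)) := by
      funext i
      simp only [cbase]
      cases β i <;> rfl
    rw [e2]

theorem origM_restr0 {R : Type} [CommRing R] (f : MvPolynomial (Fin n) k)
    (M : EMeas (0 : MvPolynomial (Fin 0) k) R) : OrigM (restr0 f M) := by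
  intro ι _ S ρ d β hS h0
  change M.χ ι (S ∩ {z | cbase β z = 0}) ρ d Fin.elim0 = 0
  have e : S ∩ {z | cbase β z = 0} = ∅ := by
    ext z
    simp only [Set.mem_inter_iff, Set.mem_empty_iff_false, iff_false]
    rintro ⟨h1, h2⟩
    exact h0 z h1 h2
  have hv := valid0 hS
  rw [e] at hv ⊢
  have h1 := M.add ∅ ∅ ρ d Fin.elim0 hv hv (Set.disjoint_empty _)
  rw [Set.union_empty] at h1
  exact left_eq_add.1 h1

end

section

variable {k : Type} [Field k] [CharZero k] {n : ℕ}

theorem serM_zetaE (f : MvPolynomial (Fin n) k) :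
    ∃ M : EMeas f (MKMu f), M.L = ((LuMu f : (MKMu f)ˣ) : MKMu f) ∧
      serM M (LuMu f) = zetaE f := by
  have h1 : S_EK0 := Pool.Agent.W358.ME.EK0.main
  obtain ⟨M₀, hL₀, hM₀⟩ := h1 k f
  refine ⟨mapEMeas M₀ (algebraMap (K0Mu f) (MKMu f)), ?_, ?_⟩
  · change algebraMap (K0Mu f) (MKMu f) M₀.L = _
    rw [hL₀]
    rfl
  · ext N
    rw [serM, zetaE, genR, PowerSeries.coeff_mk, PowerSeries.coeff_mk]
    by_cases hN : 0 < N
    · rw [if_pos hN, dif_pos hN, zpow_neg, zpow_natCast, ← inv_pow, Units.val_pow_eq_pow_val]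
      congr 1
      exact congrArg (algebraMap (K0Mu f) (MKMu f)) (hM₀ _ _ _ _ _ (jetValid f N hN))
    · rw [if_neg hN, dif_neg hN]

theorem serM_zetaE0 (f : MvPolynomial (Fin n) k) :
    ∃ M : EMeas f (MKMu (0 : MvPolynomial (Fin 0) k)), OrigM M ∧
      M.L = ((LuMu (0 : MvPolynomial (Fin 0) k) : (MKMu (0 : MvPolynomial (Fin 0) k))ˣ) :
        MKMu (0 : MvPolynomial (Fin 0) k)) ∧
      serM M (LuMu (0 : MvPolynomial (Fin 0) k)) = zetaE0 f := by
  have h1 : S_EK0 := Pool.Agent.W358.ME.EK0.main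
  obtain ⟨M₀, hL₀, hM₀⟩ := h1 k (0 : MvPolynomial (Fin 0) k)
  refine ⟨restr0 f (mapEMeas M₀ (algebraMap _ (MKMu (0 : MvPolynomial (Fin 0) k)))),
    origM_restr0 _ _, ?_, ?_⟩
  · change algebraMap _ (MKMu (0 : MvPolynomial (Fin 0) k)) M₀.L = _
    rw [hL₀]
    rfl
  · ext N
    rw [serM, zetaE0, genR, PowerSeries.coeff_mk, PowerSeries.coeff_mk]
    by_cases hN : 0 < N
    · rw [if_pos hN, dif_pos hN, zpow_neg, zpow_natCast, ← inv_pow, Units.val_pow_eq_pow_val]
      congr 1
      change algebraMap _ (MKMu (0 : MvPolynomial (Fin 0) k))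
        (M₀.χ _ (JetE f N ∩ {z | cbase (jb n N) z = 0}) (jw n N) N Fin.elim0) = _
      rw [jetE0_eq]
      exact congrArg (algebraMap _ (MKMu (0 : MvPolynomial (Fin 0) k)))
        (hM₀ _ _ _ _ _ (jetValid0 f N hN))
    · rw [if_neg hN, dif_neg hN]

end

end Pool.Agent.Y231.N4
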