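import Pool.Agent.Y231.N4.X3

/-!
# The relation for two directions, equivariant classes of the bases
-/

set_option autoImplicit false

namespace Pool.Agent.Y231.N4

open MvPolynomial
open Pool.Agent.W428.MOT Pool.Agent.W749.MT Pool.Agent.W749.ME
open Pool.Agent.W605.MEInd (dact_gbar dact_prod ne_zero_of_pow)
open Pool.Agent.W426.SM (gord ford face)
open Pool.Agent.TH216.MC
open Pool.Agent.TH216.MF (frc frc_le)

variable {k : Type} [Field k] {n r : ℕ} {R : Type} [CommRing R]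

/-- the weight of the coefficient of `x_i` -/
lemma gp_wt (m : Fin r → Fin n → ℕ) (c : Fin r → k) (u : Fin n → ℕ) (N : ℕ)
    (T : Finset (Fin n)) (σ : Finset (Fin r)) (i : Fin n) (hiT : i ∉ T)
    (h1 : ∀ j ∈ σ, m j i = 1) (hσ : ∀ j ∈ σ, ∑ l, u l * m j l = gord m u)
    (hT : ∀ l ∈ T, ∀ j ∈ σ, m j l = 0) (l : AlgebraicClosure k) (hl : l ≠ 0)
    (z : Pt k (Option (Fin n))) :
    gp m (cb c) σ i (fun x => dact (rw' T u N) l z (some x)) =
      l ^ ((gord m u : ℤ) - (u i : ℤ)) * gp m (cb c) σ i (fun x => z (some x)) := by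
  classical
  unfold gp
  rw [Finset.mul_sum]
  refine Finset.sum_congr rfl fun j hj => ?_
  have hwt : ∑ x ∈ Finset.univ.erase i, rw' T u N (some x) * (m j x : ℤ) =
      (gord m u : ℤ) - (u i : ℤ) := by
    have e1 := dot_rw m u N T (m j) fun x hx => hT x hx j hj
    rw [hσ j hj, ← Finset.add_sum_erase _ _ (Finset.mem_univ i), h1 j hj] at e1
    have e2 : rw' T u N (some i) = (u i : ℤ) := if_neg hiT
    rw [e2] at e1
    push_cast at e1
    linarith
  simp only [dact, mul_pow, Finset.prod_mul_distrib]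
  rw [← hwt, Pool.Agent.W605.MEInd.zpow_sum' l hl]
  have e2 : ∏ x ∈ Finset.univ.erase i, (l ^ rw' T u N (some x)) ^ m j x =
      ∏ x ∈ Finset.univ.erase i, l ^ (rw' T u N (some x) * (m j x : ℤ)) :=
    Finset.prod_congr rfl fun x _ => by rw [zpow_mul, zpow_natCast]
  rw [e2]
  ring

theorem XE_two (hFree : S_EFree) (hSub : S_ESub) {m : Fin r → Fin n → ℕ} {c : Fin r → k}
    (M : EMeas (sp 0 m c 1) R) {J : Finset (Fin n)} {u : Fin n → ℕ}
    {N : ℕ} (h : Dat m c J u N)
    {d : Pt k (Option (Fin n)) → AlgebraicClosure k} (hd : IsPF d)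
    (hd' : ∀ z w : Pt k (Option (Fin n)), w none = z none → d w = d z)
    (hdw : ∀ T : Finset (Fin n), ∀ l : AlgebraicClosure k, l ^ N = 1 → ∀ z,
      d (dact (rw' T u N) l z) = l ^ (gord m u : ℤ) * d z)
    (i x : Fin n) (hi : i ∈ J) (hx : x ∈ J) (hix : i ≠ x) (τ0 τ1 τ2 : Finset (Fin r))
    (t0 : ∀ j ∈ τ0, m j i = 0 ∧ m j x = 0)
    (t1 : ∀ j ∈ τ1, m j i = 1 ∧ m j x = 0) (t2 : ∀ j ∈ τ2, m j i = 0 ∧ m j x = 1)
    (hn1 : τ1.Nonempty) (hn2 : τ2.Nonempty)
    (hτu : ∀ j ∈ τ0 ∪ (τ1 ∪ τ2), ∑ i, u i * m j i = gord m u)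
    (hnc : ∀ z : Fin n → AlgebraicClosure k, (∀ l, l ≠ i → l ≠ x → z l ≠ 0) →
      gp m (cb c) τ1 i z ≠ 0 ∨ gp m (cb c) τ2 x z ≠ 0) :
    cX M J d (τ0 ∪ (τ1 ∪ τ2)) u N +
      ((M.L - 1) ^ (frc m J (τ0 ∪ τ1) - (frc m J (τ0 ∪ (τ1 ∪ τ2)) + 1)) *
        cX M J d (τ0 ∪ τ1) u N +
      (M.L - 1) ^ (frc m J (τ0 ∪ τ2) - (frc m J (τ0 ∪ (τ1 ∪ τ2)) + 1)) *
        cX M J d (τ0 ∪ τ2) u N) +
      (M.L - 1) ^ (frc m J τ0 - (frc m J (τ0 ∪ (τ1 ∪ τ2)) + 2)) *
        cX M J d τ0 u N =
      M.χ _ (ZE k J {z | z none = 1}) (rw' J u N) N (bb1 J) *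
        (M.L - 1) ^ (J.card - (frc m J (τ0 ∪ (τ1 ∪ τ2)) + 2)) * M.L := by
  classical
  set τ := τ0 ∪ (τ1 ∪ τ2) with hτ
  set T := free 0 m J τ with hT
  have hmem := mem_free0 m J
  obtain ⟨j1, hj1⟩ := hn1
  obtain ⟨j2, hj2⟩ := hn2
  have hs0 : τ0 ⊆ τ := Finset.subset_union_left
  have hs1 : τ1 ⊆ τ := Finset.subset_union_left.trans Finset.subset_union_right
  have hs2 : τ2 ⊆ τ := Finset.subset_union_right.trans Finset.subset_union_right
  have hiT : i ∉ T := by
    rw [hT, hmem]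
    rintro ⟨-, h⟩
    have h3 := h j1 (hs1 hj1)
    have h4 := t1 j1 hj1
    omega
  have hxT : x ∉ T := by
    rw [hT, hmem]
    rintro ⟨-, h⟩
    have h3 := h j2 (hs2 hj2)
    have h4 := t2 j2 hj2
    omega
  have hTJ : ∀ y ∈ T, y ∈ J := fun y hy => ((hmem _ y).1 hy).1
  have hTm : ∀ y ∈ T, ∀ j ∈ τ, m j y = 0 := fun y hy j hj => ((hmem _ y).1 hy).2 j hj
  have hTs : ∀ σ, σ ⊆ τ → ∀ y ∈ T, y ∈ free 0 m J σ := fun σ hσ y hy =>
    (hmem _ y).2 ⟨hTJ y hy, fun j hj => hTm y hy j (hσ hj)⟩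
  -- the functions
  have hskey : ∀ z w : Pt k (Option (Fin n)), (∀ o, o ≠ some i → o ≠ some x → w o = z o) →
      w none = z none ∧ ∀ l, l ≠ i → l ≠ x → w (some l) = z (some l) := by
    intro z w hw
    refine ⟨hw none (fun h => Option.some_ne_none _ h.symm) (fun h => Option.some_ne_none _ h.symm),
      fun l h1 h2 => ?_⟩
    exact hw _ (fun h => h1 (Option.some_injective _ h)) (fun h => h2 (Option.some_injective _ h))
  have hgpPF : ∀ (σ : Finset (Fin r)) (i : Fin n), IsPF (fun z : Pt k (Option (Fin n)) =>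
      gp m (cb c) σ i (fun l => z (some l))) := by
    intro σ i
    unfold gp
    exact IsPF.sum _ _ fun x _ => (IsPF_cb c x).mul
      (IsPF.prod _ _ fun l _ => (IsPF.coord _).pow _)
  set B : Set (Pt k (Option (Fin n))) :=
    {z | (∀ l, l ≠ i → l ≠ x → z (some l) ≠ 0) ∧ (∀ l ∈ T, z (some l) = 1) ∧ z none = 1} with hB
  have hBc : Constr B := Constr.and (Constr.all fun l =>
    Constr.imp' fun _ => Constr.imp' fun _ => Constr.ne (IsPF.coord _) IsPF.zero) (Constr.and
    (Constr.ballFinset _ fun _ _ => Constr.eq (IsPF.coord _) IsPF.one)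
      (Constr.eq (IsPF.coord none) IsPF.one))
  have hinv : ∀ z w : Pt k (Option (Fin n)), (∀ o, o ≠ some i → o ≠ some x → w o = z o) →
      z ∈ B → w ∈ B := by
    rintro z w hw ⟨a2, a3, a4⟩
    obtain ⟨h3, h4⟩ := hskey z w hw
    refine ⟨fun l h5 h6 => ?_, fun l hl => ?_, ?_⟩
    · rw [h4 l h5 h6]
      exact a2 l h5 h6
    · rw [h4 l (fun h => hiT (h ▸ hl)) (fun h => hxT (h ▸ hl))]
      exact a3 l hl
    · rw [h3]
      exact a4
  have hg0inv : ∀ z w : Pt k (Option (Fin n)), (∀ l, l ≠ i → l ≠ x → w (some l) = z (some l)) →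
      gbar m (cb c) τ0 (fun l => w (some l)) = gbar m (cb c) τ0 (fun l => z (some l)) := by
    intro z w h4
    refine gbar_update m (cb c) τ0 _ _ fun l hl => ?_
    obtain ⟨j, hj, hjl⟩ := hl
    refine h4 l ?_ ?_
    · rintro rfl
      exact hjl (t0 j hj).1
    · rintro rfl
      exact hjl (t0 j hj).2
  set ρ := rw' T u N with hρ
  have hρn : ρ none = (N : ℤ) := rfl
  have hρs : ∀ y, ρ (some y) = if y ∈ T then (0 : ℤ) else (u y : ℤ) := fun y => rfl
  have hctx : Ctx (sp 0 m c 1) ρ N (bb1 J) (some i : Option (Fin n)) (some x) :=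
    ⟨fun h' => hix (Option.some_injective _ h'), h.N_pos, fun y hy => by
      unfold bb1 at hy
      split_ifs at hy with h0
      rw [Option.some_injective _ (Option.some.inj hy)] at h0
      exact h0 hi, fun y hy => by
      unfold bb1 at hy
      split_ifs at hy with h0
      rw [Option.some_injective _ (Option.some.inj hy)] at h0
      exact h0 hx, h.inv T⟩
  have hBs : Stab (sp 0 m c 1) ρ N (bb1 J) B := ⟨hBc, fun z _ => h.base z,
    fun l hl z hz => by
      have hl0 := ne_zero_of_pow h.N_pos hl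
      refine ⟨fun y h1 h2 => mul_ne_zero (zpow_ne_zero _ hl0) (hz.1 y h1 h2), fun y hy => ?_, ?_⟩
      · rw [dact_ap, hρs, if_pos hy, zpow_zero, one_mul]
        exact hz.2.1 y hy
      · rw [dact_ap, hρn, hz.2.2, zpow_natCast, hl, one_mul]⟩
  have key := erel hFree hSub M hctx B hBs hinv
    (fun z => gp m (cb c) τ1 i (fun l => z (some l)))
    (fun z => gp m (cb c) τ2 x (fun l => z (some l)))
    (fun z => d z - gbar m (cb c) τ0 (fun l => z (some l))) (hgpPF τ1 i) (hgpPF τ2 x)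
    (hd.sub (IsPF_gbar m c τ0 some))
    (fun z w hw => gp_inv m (cb c) τ1 i x (fun j hj => (t1 j hj).2) _ _ (hskey z w hw).2)
    (fun z w hw => gp_inv m (cb c) τ2 x i (fun j hj => (t2 j hj).1) _ _
      fun l h3 h4 => (hskey z w hw).2 l h4 h3)
    (fun z w hw => by
      beta_reduce
      rw [hd' z w (hskey z w hw).1, hg0inv z w (hskey z w hw).2])
    (fun z hz => hnc (fun l => z (some l)) hz.1) (u i : ℤ) (u x : ℤ) (gord m u : ℤ)
    (fun l hl z => gp_wt m c u N T τ1 i hiT (fun j hj => (t1 j hj).1)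
      (fun j hj => hτu j (hs1 hj)) (fun y hy j hj => hTm y hy j (hs1 hj)) l
      (ne_zero_of_pow h.N_pos hl) z)
    (fun l hl z => gp_wt m c u N T τ2 x hxT (fun j hj => (t2 j hj).2)
      (fun j hj => hτu j (hs2 hj)) (fun y hy j hj => hTm y hy j (hs2 hj)) l
      (ne_zero_of_pow h.N_pos hl) z)
    (fun l hl z => by
      beta_reduce
      rw [hdw T l hl z, gbar_wt m c u N T τ0 (fun j hj => hτu j (hs0 hj))
        (fun y hy j hj => hTm y hy j (hs0 hj)) l (ne_zero_of_pow h.N_pos hl) z]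
      ring)
  beta_reduce at key
  -- the weights
  have w1 : wgt ρ (some i) (some x) (u i : ℤ) (u x : ℤ) = rw' T u N := by
    funext o
    by_cases h1 : o = some x
    · rw [h1, wgt_j]
      exact (if_neg hxT).symm
    · by_cases h2 : o = some i
      · rw [h2, wgt_i ρ hctx.ne]
        exact (if_neg hiT).symm
      · rw [wgt_o ρ h2 h1]
  have wins : ∀ (y : Fin n) (T' : Finset (Fin n)) (o : Option (Fin n)), o ≠ some y →
      rw' (insert y T') u N o = rw' T' u N o := by
    intro y T' o ho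
    cases o with
    | none => rfl
    | some l =>
      have hl : l ≠ y := fun h => ho (by rw [h])
      show (if l ∈ insert y T' then (0 : ℤ) else (u l : ℤ)) = if l ∈ T' then (0 : ℤ) else (u l : ℤ)
      have : l ∈ insert y T' ↔ l ∈ T' := by
        rw [Finset.mem_insert]
        exact ⟨fun h => h.resolve_left hl, Or.inr⟩
      simp only [this]
  have wins' : ∀ (y : Fin n) (T' : Finset (Fin n)), rw' (insert y T') u N (some y) = 0 :=
    fun y T' => if_pos (Finset.mem_insert_self _ _)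
  have w2 : wgt ρ (some i) (some x) (u i : ℤ) 0 = rw' (insert x T) u N := by
    funext o
    by_cases h1 : o = some x
    · rw [h1, wgt_j, wins']
    · rw [wins x T o h1]
      by_cases h2 : o = some i
      · rw [h2, wgt_i ρ hctx.ne]
        exact (if_neg hiT).symm
      · rw [wgt_o ρ h2 h1]
  have w3 : wgt ρ (some i) (some x) 0 (u x : ℤ) = rw' (insert i T) u N := by
    funext o
    by_cases h2 : o = some i
    · rw [h2, wgt_i ρ hctx.ne, wins']
    · rw [wins i T o h2]
      by_cases h1 : o = some x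
      · rw [h1, wgt_j]
        exact (if_neg hxT).symm
      · rw [wgt_o ρ h2 h1]
  have w4 : wgt ρ (some i) (some x) 0 0 = rw' (insert i (insert x T)) u N := by
    funext o
    by_cases h2 : o = some i
    · rw [h2, wgt_i ρ hctx.ne, wins']
    · rw [wins i _ o h2]
      by_cases h1 : o = some x
      · rw [h1, wgt_j, wins']
      · rw [wins x T o h1, wgt_o ρ h2 h1]
  rw [w1, w2, w3, w4] at key
  -- the sums
  have hd01 : Disjoint τ0 τ1 := by
    rw [Finset.disjoint_left]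
    intro j hj hj'
    have a1 := t0 j hj
    have a2 := t1 j hj'
    omega
  have hd02 : Disjoint τ0 τ2 := by
    rw [Finset.disjoint_left]
    intro j hj hj'
    have a1 := t0 j hj
    have a2 := t2 j hj'
    omega
  have hd12 : Disjoint τ1 τ2 := by
    rw [Finset.disjoint_left]
    intro j hj hj'
    have a1 := t1 j hj
    have a2 := t2 j hj'
    omega
  have hun : ∀ (σ σ' : Finset (Fin r)), Disjoint σ σ' → ∀ z : Fin n → AlgebraicClosure k,
      gbar m (cb c) (σ ∪ σ') z = gbar m (cb c) σ z + gbar m (cb c) σ' z := by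
    intro σ σ' h z
    unfold gbar
    exact Finset.sum_union h
  have hg1 : ∀ z : Fin n → AlgebraicClosure k, gbar m (cb c) τ1 z =
      z i * gp m (cb c) τ1 i z := gbar_gp m (cb c) τ1 i fun j hj => (t1 j hj).1
  have hg2 : ∀ z : Fin n → AlgebraicClosure k, gbar m (cb c) τ2 z =
      z x * gp m (cb c) τ2 x z := gbar_gp m (cb c) τ2 x fun j hj => (t2 j hj).2
  have e1 : {z | z ∈ B ∧ z (some i) ≠ 0 ∧ z (some x) ≠ 0 ∧
        z (some i) * gp m (cb c) τ1 i (fun l => z (some l)) +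
          z (some x) * gp m (cb c) τ2 x (fun l => z (some l)) =
            d z - gbar m (cb c) τ0 (fun l => z (some l))} =
      ZE k T (XE m c d τ) := by
    ext z
    simp only [ZE, XE, hB, Set.mem_ofPred_eq, hτ,
      hun _ _ (Finset.disjoint_union_right.2 ⟨hd01, hd02⟩), hun _ _ hd12, hg1, hg2]
    constructor
    · rintro ⟨⟨a2, a3, a4⟩, a5, a6, a7⟩
      refine ⟨fun l => ?_, a3, by linear_combination a7, a4⟩
      by_cases hli : l = i
      · rw [hli]; exact a5
      · by_cases hlk : l = x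
        · rw [hlk]; exact a6
        · exact a2 l hli hlk
    · rintro ⟨a2, a3, a7, a4⟩
      exact ⟨⟨fun l _ _ => a2 l, a3, a4⟩, a2 i, a2 x, by linear_combination a7⟩
  have e2 : {z | z ∈ B ∧ z (some i) ≠ 0 ∧ z (some x) = 1 ∧
        z (some i) * gp m (cb c) τ1 i (fun l => z (some l)) =
            d z - gbar m (cb c) τ0 (fun l => z (some l))} =
      ZE k (insert x T) (XE m c d (τ0 ∪ τ1)) := by
    ext z
    simp only [ZE, XE, hB, Set.mem_ofPred_eq, hun _ _ hd01, hg1, Finset.mem_insert,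
      forall_eq_or_imp]
    constructor
    · rintro ⟨⟨a2, a3, a4⟩, a5, a6, a7⟩
      refine ⟨fun l => ?_, ⟨a6, a3⟩, by linear_combination a7, a4⟩
      by_cases hli : l = i
      · rw [hli]; exact a5
      · by_cases hlk : l = x
        · rw [hlk, a6]; exact one_ne_zero
        · exact a2 l hli hlk
    · rintro ⟨a2, ⟨a6, a3⟩, a7, a4⟩
      exact ⟨⟨fun l _ _ => a2 l, a3, a4⟩, a2 i, a6, by linear_combination a7⟩
  have e3 : {z | z ∈ B ∧ z (some i) = 1 ∧ z (some x) ≠ 0 ∧
        z (some x) * gp m (cb c) τ2 x (fun l => z (some l)) =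
            d z - gbar m (cb c) τ0 (fun l => z (some l))} =
      ZE k (insert i T) (XE m c d (τ0 ∪ τ2)) := by
    ext z
    simp only [ZE, XE, hB, Set.mem_ofPred_eq, hun _ _ hd02, hg2, Finset.mem_insert,
      forall_eq_or_imp]
    constructor
    · rintro ⟨⟨a2, a3, a4⟩, a5, a6, a7⟩
      refine ⟨fun l => ?_, ⟨a5, a3⟩, by linear_combination a7, a4⟩
      by_cases hli : l = i
      · rw [hli, a5]; exact one_ne_zero
      · by_cases hlk : l = x
        · rw [hlk]; exact a6
        · exact a2 l hli hlk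
    · rintro ⟨a2, ⟨a6, a3⟩, a7, a4⟩
      exact ⟨⟨fun l _ _ => a2 l, a3, a4⟩, a6, a2 x, by linear_combination a7⟩
  have e4 : {z | z ∈ B ∧ z (some i) = 1 ∧ z (some x) = 1 ∧
            d z - gbar m (cb c) τ0 (fun l => z (some l)) = 0} =
      ZE k (insert i (insert x T)) (XE m c d τ0) := by
    ext z
    simp only [ZE, XE, hB, Set.mem_ofPred_eq, Finset.mem_insert, forall_eq_or_imp]
    constructor
    · rintro ⟨⟨a2, a3, a4⟩, a5, a6, a7⟩
      refine ⟨fun l => ?_, ⟨a5, a6, a3⟩, by linear_combination -a7, a4⟩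
      by_cases hli : l = i
      · rw [hli, a5]; exact one_ne_zero
      · by_cases hlk : l = x
        · rw [hlk, a6]; exact one_ne_zero
        · exact a2 l hli hlk
    · rintro ⟨a2, ⟨a5, a6, a3⟩, a7, a4⟩
      exact ⟨⟨fun l _ _ => a2 l, a3, a4⟩, a5, a6, by linear_combination -a7⟩
  have e5 : {z | z ∈ B ∧ z (some i) = 1 ∧ z (some x) = 1} =
      ZE k (insert i (insert x T)) {z | z none = 1} := by
    ext z
    simp only [ZE, hB, Set.mem_ofPred_eq, Finset.mem_insert, forall_eq_or_imp]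
    constructor
    · rintro ⟨⟨a2, a3, a4⟩, a5, a6⟩
      refine ⟨fun l => ?_, ⟨a5, a6, a3⟩, a4⟩
      by_cases hli : l = i
      · rw [hli, a5]; exact one_ne_zero
      · by_cases hlk : l = x
        · rw [hlk, a6]; exact one_ne_zero
        · exact a2 l hli hlk
    · rintro ⟨a2, ⟨a5, a6, a3⟩, a4⟩
      exact ⟨⟨fun l _ _ => a2 l, a3, a4⟩, a5, a6⟩
  rw [e1, e2, e3, e4, e5] at key
  -- the normalisations
  have hXinv : ∀ (σ : Finset (Fin r)), ∀ z w : Pt k (Option (Fin n)), w none = z none →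
      (∀ x, x ∉ free 0 m J σ → w (some x) = z (some x)) → z ∈ XE m c d σ →
      w ∈ XE m c d σ := by
    intro σ z w hn hx hz
    refine ⟨?_, ?_⟩
    · rw [hd' z w hn]
      refine Eq.trans ?_ hz.1
      refine gbar_update m (cb c) σ _ _ fun x hx' => hx x fun hx'' => ?_
      obtain ⟨j, hj, hjx⟩ := hx'
      exact hjx (((hmem σ x).1 hx'').2 j hj)
    · rw [hn]
      exact hz.2
  have hcT : T.card = frc m J τ := rfl
  have hcard1 : ∀ x, x ∉ T → (insert x T).card = frc m J τ + 1 := fun x hx => by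
    rw [Finset.card_insert_of_notMem hx, hcT]
  have hcard2 : (insert i (insert x T)).card = frc m J τ + 2 := by
    rw [Finset.card_insert_of_notMem, hcard1 x hxT]
    rw [Finset.mem_insert, not_or]
    exact ⟨hix, hiT⟩
  have hfk : insert x T ⊆ free 0 m J (τ0 ∪ τ1) := by
    intro y hy
    rcases Finset.mem_insert.1 hy with rfl | hy
    · rw [hmem]
      refine ⟨hx, fun j hj => ?_⟩
      rcases Finset.mem_union.1 hj with h | h
      · exact (t0 j h).2
      · exact (t1 j h).2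
    · exact hTs _ (Finset.union_subset_union (Finset.Subset.refl _) Finset.subset_union_left) y hy
  have hfi : insert i T ⊆ free 0 m J (τ0 ∪ τ2) := by
    intro y hy
    rcases Finset.mem_insert.1 hy with rfl | hy
    · rw [hmem]
      refine ⟨hi, fun j hj => ?_⟩
      rcases Finset.mem_union.1 hj with h | h
      · exact (t0 j h).1
      · exact (t2 j h).1
    · exact hTs _ (Finset.union_subset_union (Finset.Subset.refl _) Finset.subset_union_right) y hy
  have hf0 : insert i (insert x T) ⊆ free 0 m J τ0 := by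
    intro y hy
    rcases Finset.mem_insert.1 hy with rfl | hy
    · exact (hmem _ _).2 ⟨hi, fun j hj => (t0 j hj).1⟩
    · rcases Finset.mem_insert.1 hy with rfl | hy
      · exact (hmem _ _).2 ⟨hx, fun j hj => (t0 j hj).2⟩
      · exact hTs _ Finset.subset_union_left y hy
  have hfJ : ∀ σ, free 0 m J σ ⊆ J := fun σ x hx => ((hmem σ x).1 hx).1
  have hfm : ∀ σ, ∀ y ∈ free 0 m J σ, ∀ j ∈ σ, m j y = 0 := fun σ y hy j hj =>
    ((hmem σ y).1 hy).2 j hj
  have hst : ∀ (σ : Finset (Fin r)) (T' : Finset (Fin n)), σ ⊆ τ → (∀ y ∈ T', ∀ j ∈ σ, m j y = 0) →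
      Stb (XE m c d σ) (rw' T' u N) N := fun σ T' hσ hT' =>
    stb_XE m c u N h.N_pos T' d (hdw T') σ (fun j hj => hτu j (hσ hj)) hT'
  have hE0 : Constr {z : Pt k (Option (Fin n)) | z none = 1} := Constr.eq (IsPF.coord none) IsPF.one
  have hsE : ∀ T', Stb {z : Pt k (Option (Fin n)) | z none = 1} (rw' T' u N) N := by
    intro T' l hl z hz
    show l ^ (N : ℤ) * z none = 1
    rw [show z none = 1 from hz, zpow_natCast, hl, one_mul]
  have hu1 : τ0 ∪ τ1 ⊆ τ := Finset.union_subset hs0 hs1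
  have hu2 : τ0 ∪ τ2 ⊆ τ := Finset.union_subset hs0 hs2
  have n2 := ZE_norm hFree M h (insert x T) (free 0 m J (τ0 ∪ τ1)) hfk (hfJ _)
    (constr_XE m c hd (τ0 ∪ τ1)) (hst _ _ hu1 fun y hy j hj => hfm _ y (hfk hy) j hj) (hXinv _)
  have n3 := ZE_norm hFree M h (insert i T) (free 0 m J (τ0 ∪ τ2)) hfi (hfJ _)
    (constr_XE m c hd (τ0 ∪ τ2)) (hst _ _ hu2 fun y hy j hj => hfm _ y (hfi hy) j hj) (hXinv _)
  have n4 := ZE_norm hFree M h (insert i (insert x T)) (free 0 m J τ0) hf0 (hfJ _)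
    (constr_XE m c hd τ0) (hst _ _ hs0 fun y hy j hj => hfm _ y (hf0 hy) j hj) (hXinv _)
  have n5 := ZE_norm hFree M h (insert i (insert x T)) J (hf0.trans (hfJ _))
    (Finset.Subset.refl _) hE0 (hsE _)
    (fun z w hn _ hz => by
      change w none = 1
      rw [hn]
      exact hz)
  rw [hcard1 x hxT] at n2
  rw [hcard1 i hiT] at n3
  rw [hcard2] at n4 n5
  rw [n2, n3, n4, n5] at key
  change cX M J d τ u N + (cX M J d (τ0 ∪ τ1) u N *
    (M.L - 1) ^ (frc m J (τ0 ∪ τ1) - (frc m J τ + 1)) +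
    cX M J d (τ0 ∪ τ2) u N * (M.L - 1) ^ (frc m J (τ0 ∪ τ2) - (frc m J τ + 1))) +
    cX M J d τ0 u N * (M.L - 1) ^ (frc m J τ0 - (frc m J τ + 2)) =
    M.χ _ (ZE k J {z | z none = 1}) (rw' J u N) N (bb1 J) *
      (M.L - 1) ^ (J.card - (frc m J τ + 2)) * M.L at key
  linear_combination key

end Pool.Agent.Y231.N4
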