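import Pool.Agent.Y231.N4.X2
import Pool.Agent.Y231.N4.X4

/-!
# The decomposition of the classes, for the admissible sets; the equivariant classes
-/

set_option autoImplicit false

namespace Pool.Agent.Y231.N4

open Pool.Agent.TH216.MF
open Pool.Agent.W426.SM (gord face)
open Pool.Agent.W428.MOT (amin free)

section
variable {r : ℕ} {R : Type} [CommRing R]

/-- the admissible sets -/
def AdS (m : Fin r → Fin 4 → ℕ) (τ : Finset (Fin r)) : Prop :=
  ∃ u : Fin 4 → ℕ, Pool.Agent.W428.MOT.Adm Finset.univ u ∧ τ ⊆ amin m u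

lemma adS_mono {m : Fin r → Fin 4 → ℕ} (τ τ' : Finset (Fin r)) (h : τ ⊆ τ') (h' : AdS m τ') :
    AdS m τ := by
  obtain ⟨u, h1, h2⟩ := h'
  exact ⟨u, h1, h.trans h2⟩

lemma adm_univ {u : Fin 4 → ℕ} (h : ∀ i, 0 < u i) : Pool.Agent.W428.MOT.Adm Finset.univ u :=
  fun i => ⟨fun _ => Finset.mem_univ i, fun _ => (h i).ne'⟩

lemma fc_adS {m : Fin r → Fin 4 → ℕ} {τ : Finset (Fin r)} (h : Fc m τ) : AdS m τ := by
  rcases h with rfl | ⟨u, hu, rfl⟩
  · exact ⟨fun _ => 1, adm_univ fun _ => one_pos, Finset.empty_subset _⟩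
  · exact ⟨u, adm_univ hu, Finset.Subset.refl _⟩

/-- the relations for the classes, admissible sets -/
structure ClRA (u : Rˣ) (m : Fin r → Fin 4 → ℕ) (w : R) (b : Finset (Fin r) → R) : Prop where
  one : ∀ i, ∀ j0, m j0 i = 1 → ∀ τ, (∀ j ∈ τ, m j i = 0) → AdS m (insert j0 τ) →
      b (insert j0 τ) = w * ((u : R) - 1) ^
        ((Finset.univ : Finset (Fin 4)).card - frc m Finset.univ (insert j0 τ) - 1) -
        ((u : R) - 1) ^ (frc m Finset.univ τ - frc m Finset.univ (insert j0 τ) - 1) * b τ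
  two : ∀ i k : Fin 4, i ≠ k → ∀ τ0 τ1 τ2 : Finset (Fin r),
    (∀ j ∈ τ0, m j i = 0 ∧ m j k = 0) → (∀ j ∈ τ1, m j i = 1 ∧ m j k = 0) →
    (∀ j ∈ τ2, m j i = 0 ∧ m j k = 1) → τ1.Nonempty → τ2.Nonempty →
    (∃ x : Fin 4 → ℕ, (∀ i, 0 < x i) ∧ amin m x = τ0 ∪ (τ1 ∪ τ2)) →
    b (τ0 ∪ (τ1 ∪ τ2)) +
      (((u : R) - 1) ^ (frc m Finset.univ (τ0 ∪ τ1) -
          (frc m Finset.univ (τ0 ∪ (τ1 ∪ τ2)) + 1)) * b (τ0 ∪ τ1) +
      ((u : R) - 1) ^ (frc m Finset.univ (τ0 ∪ τ2) -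
          (frc m Finset.univ (τ0 ∪ (τ1 ∪ τ2)) + 1)) * b (τ0 ∪ τ2)) +
      ((u : R) - 1) ^ (frc m Finset.univ τ0 -
          (frc m Finset.univ (τ0 ∪ (τ1 ∪ τ2)) + 2)) * b τ0 =
      w * ((u : R) - 1) ^ ((Finset.univ : Finset (Fin 4)).card -
        (frc m Finset.univ (τ0 ∪ (τ1 ∪ τ2)) + 2)) * (u : R)

/-- **The decomposition, admissible sets.** -/
theorem decomp4A (u : Rˣ) (m : Fin r → Fin 4 → ℕ) (w : R) (b : Finset (Fin r) → R)
    (hb : ClRA u m w b) (τ : Finset (Fin r))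
    (hτ : Fc m τ) : b τ - cW u w m Finset.univ τ =
      ∑ κ, evL u (pB m κ τ) * (b κ - cW u w m Finset.univ κ) := by
  classical
  set t : R := (u : R) - 1 with ht
  set b' : Finset (Fin r) → R := fun τ => b τ - cW u w m Finset.univ τ with hb'
  have huY : (u : R) * ((u⁻¹ : Rˣ) : R) = 1 := Units.mul_inv u
  -- the first relations
  have hhom : ∀ τ, AdS m τ → b' τ = (-1) ^ (τ.card + (bas m Finset.univ τ).card) *
      t ^ (mx m Finset.univ (bas m Finset.univ τ) - (frc m Finset.univ τ + τ.card)) *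
          b' (bas m Finset.univ τ) := by
    intro τ hA
    refine decomp (u : R) m Finset.univ (AdS m) adS_mono b' ?_ τ hA
    intro i hi j0 hj0 τ hτ hA'
    have h1 := free_step m Finset.univ i hi j0 hj0 τ hτ
    have h2 := frc_le m Finset.univ τ
    simp only [hb', cW]
    rw [hb.one i j0 hj0 τ hτ hA']
    set c4 := (Finset.univ : Finset (Fin 4)).card with hc4
    set a := c4 - frc m Finset.univ (insert j0 τ) - 1 with ha
    set d := frc m Finset.univ τ - frc m Finset.univ (insert j0 τ) - 1 with hd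
    have e1 : c4 - frc m Finset.univ (insert j0 τ) = a + 1 := by omega
    have e2 : d + (c4 - frc m Finset.univ τ) = a := by omega
    rw [e1, ← e2, pow_succ, pow_add]
    linear_combination (-(w * ((u : R) - 1) ^ d *
      ((u : R) - 1) ^ (c4 - frc m Finset.univ τ))) * huY
  -- the second relations
  have htwo : ∀ i k : Fin 4, i ≠ k → ∀ τ0 τ1 τ2 : Finset (Fin r),
      (∀ j ∈ τ0, m j i = 0 ∧ m j k = 0) → (∀ j ∈ τ1, m j i = 1 ∧ m j k = 0) →
      (∀ j ∈ τ2, m j i = 0 ∧ m j k = 1) → τ1.Nonempty → τ2.Nonempty →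
      (∃ x : Fin 4 → ℕ, (∀ i, 0 < x i) ∧ amin m x = τ0 ∪ (τ1 ∪ τ2)) →
      b' (τ0 ∪ (τ1 ∪ τ2)) +
        (t ^ (frc m Finset.univ (τ0 ∪ τ1) -
            (frc m Finset.univ (τ0 ∪ (τ1 ∪ τ2)) + 1)) * b' (τ0 ∪ τ1) +
        t ^ (frc m Finset.univ (τ0 ∪ τ2) -
            (frc m Finset.univ (τ0 ∪ (τ1 ∪ τ2)) + 1)) * b' (τ0 ∪ τ2)) +
        t ^ (frc m Finset.univ τ0 -
            (frc m Finset.univ (τ0 ∪ (τ1 ∪ τ2)) + 2)) * b' τ0 = 0 := by
    intro i k hik τ0 τ1 τ2 t0 t1 t2 hn1 hn2 hx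
    have h1 := hb.two i k hik τ0 τ1 τ2 t0 t1 t2 hn1 hn2 hx
    simp only [hb', cW]
    obtain ⟨j1, hj1⟩ := hn1
    obtain ⟨j2, hj2⟩ := hn2
    have f1 : frc m Finset.univ (τ0 ∪ (τ1 ∪ τ2)) + 1 ≤ frc m Finset.univ (τ0 ∪ τ1) := by
      refine frc_lt m (Finset.union_subset_union (Finset.Subset.refl _)
        Finset.subset_union_left) {k} (fun x hx j hj => ?_) (fun x hx => ?_)
      · rw [Finset.mem_singleton.1 hx]
        rcases Finset.mem_union.1 hj with h | h
        · exact (t0 j h).2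
        · exact (t1 j h).2
      · rw [Finset.mem_singleton.1 hx]
        refine ⟨j2, by simp [hj2], ?_⟩
        rw [(t2 j2 hj2).2]
        exact one_ne_zero
    have f2 : frc m Finset.univ (τ0 ∪ (τ1 ∪ τ2)) + 1 ≤ frc m Finset.univ (τ0 ∪ τ2) := by
      refine frc_lt m (Finset.union_subset_union (Finset.Subset.refl _)
        Finset.subset_union_right) {i} (fun x hx j hj => ?_) (fun x hx => ?_)
      · rw [Finset.mem_singleton.1 hx]
        rcases Finset.mem_union.1 hj with h | h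
        · exact (t0 j h).1
        · exact (t2 j h).1
      · rw [Finset.mem_singleton.1 hx]
        refine ⟨j1, by simp [hj1], ?_⟩
        rw [(t1 j1 hj1).1]
        exact one_ne_zero
    have f3 : frc m Finset.univ (τ0 ∪ (τ1 ∪ τ2)) + 2 ≤ frc m Finset.univ τ0 := by
      have := frc_lt m (σ := τ0) (τ := τ0 ∪ (τ1 ∪ τ2)) Finset.subset_union_left {i, k}
        (fun x hx j hj => ?_) (fun x hx => ?_)
      · rwa [Finset.card_pair hik] at this
      · rcases Finset.mem_insert.1 hx with rfl | hx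
        · exact (t0 j hj).1
        · rw [Finset.mem_singleton.1 hx]
          exact (t0 j hj).2
      · rcases Finset.mem_insert.1 hx with rfl | hx
        · refine ⟨j1, by simp [hj1], ?_⟩
          rw [(t1 j1 hj1).1]
          exact one_ne_zero
        · rw [Finset.mem_singleton.1 hx]
          refine ⟨j2, by simp [hj2], ?_⟩
          rw [(t2 j2 hj2).2]
          exact one_ne_zero
    have g1 := frc_le m Finset.univ (τ0 ∪ τ1)
    have g2 := frc_le m Finset.univ (τ0 ∪ τ2)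
    have g3 := frc_le m Finset.univ τ0
    set c4 := (Finset.univ : Finset (Fin 4)).card with hc4
    set f := frc m Finset.univ (τ0 ∪ (τ1 ∪ τ2)) with hf
    set f01 := frc m Finset.univ (τ0 ∪ τ1) with hf01
    set f02 := frc m Finset.univ (τ0 ∪ τ2) with hf02
    set f0 := frc m Finset.univ τ0 with hf0
    have e0 : c4 - f = (c4 - (f + 2)) + 2 := by omega
    have e1 : t ^ (f01 - (f + 1)) * t ^ (c4 - f01) = t ^ (c4 - (f + 2)) * t := by
      rw [← pow_add, ← pow_succ]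
      congr 1
      omega
    have e2 : t ^ (f02 - (f + 1)) * t ^ (c4 - f02) = t ^ (c4 - (f + 2)) * t := by
      rw [← pow_add, ← pow_succ]
      congr 1
      omega
    have e3 : t ^ (f0 - (f + 2)) * t ^ (c4 - f0) = t ^ (c4 - (f + 2)) := by
      rw [← pow_add]
      congr 1
      omega
    rw [e0, pow_add]
    have ht1 : (u : R) = t + 1 := by rw [ht]; ring
    set Y : R := ((u⁻¹ : Rˣ) : R) with hY
    have h5 : w * Y * t ^ (c4 - (f + 2)) * (t + 1) ^ 2 = w * t ^ (c4 - (f + 2)) * (u : R) := by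
      rw [← ht1]
      linear_combination (w * t ^ (c4 - (f + 2)) * (u : R)) * huY
    linear_combination h1 - w * Y * e1 - w * Y * e2 - w * Y * e3 - h5
  have hAτ := fc_adS hτ
  -- the normal form
  unfold pB
  by_cases hS : ∃ p : Fin 4 × Fin 4, St2 m (bas m Finset.univ τ) p.1 p.2
  swap
  · simp only [dif_neg hS]
    have h1 := sum_PK u m τ (bas m Finset.univ τ) 0 b'
    rw [bas_bas, add_zero, add_zero] at h1
    rw [h1]
    exact hhom τ hAτ
  simp only [dif_pos hS]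
  obtain ⟨hT, hc1, hc2⟩ := hS.choose_spec
  set i := hS.choose.1 with hi
  set l := hS.choose.2 with hl
  set σ := bas m Finset.univ τ with hσ
  have hFσ := fc_bas m τ hτ
  rw [← hσ] at hFσ
  have hAσ := fc_adS hFσ
  obtain ⟨j1, hj1, -⟩ := two_of_card hc1
  obtain ⟨j2, hj2, -⟩ := two_of_card hc2
  have hs0 : P0 m i l σ ⊆ σ := Finset.filter_subset _ _
  have hs1 : P1 m i l σ ⊆ σ := Finset.filter_subset _ _
  have hs2 : P1 m l i σ ⊆ σ := Finset.filter_subset _ _
  have hsplit : σ = P0 m i l σ ∪ (P1 m i l σ ∪ P1 m l i σ) := by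
    ext j
    rw [Finset.mem_union, Finset.mem_union, mem_P0, mem_P1, mem_P1]
    constructor
    · intro hj
      rcases hT.2 j hj with h3 | h3 | h3
      · exact Or.inl ⟨hj, h3⟩
      · exact Or.inr (Or.inl ⟨hj, h3⟩)
      · exact Or.inr (Or.inr ⟨hj, h3.2, h3.1⟩)
    · rintro (h3 | h3 | h3) <;> exact h3.1
  have hface : ∃ x : Fin 4 → ℕ, (∀ i, 0 < x i) ∧
      amin m x = P0 m i l σ ∪ (P1 m i l σ ∪ P1 m l i σ) := by
    rw [← hsplit]
    rcases hFσ with h | h
    · exfalso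
      rw [mem_P1, h] at hj1
      exact absurd hj1.1 (Finset.notMem_empty _)
    · exact h
  have h1 := htwo i l hT.1 (P0 m i l σ) (P1 m i l σ) (P1 m l i σ)
    (fun j hj => ((mem_P0 m).1 hj).2) (fun j hj => ((mem_P1 m).1 hj).2)
    (fun j hj => ⟨((mem_P1 m).1 hj).2.2, ((mem_P1 m).1 hj).2.1⟩) ⟨j1, hj1⟩ ⟨j2, hj2⟩ hface
  rw [← hsplit] at h1
  have hpc := part_card hT
  have hd01 : (P0 m i l σ ∪ P1 m i l σ).card = (P0 m i l σ).card + (P1 m i l σ).card := by
    refine Finset.card_union_of_disjoint ?_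
    rw [Finset.disjoint_left]
    intro j hj hj'
    rw [mem_P0] at hj
    rw [mem_P1] at hj'
    omega
  have hd02 : (P0 m i l σ ∪ P1 m l i σ).card = (P0 m i l σ).card + (P1 m l i σ).card := by
    refine Finset.card_union_of_disjoint ?_
    rw [Finset.disjoint_left]
    intro j hj hj'
    rw [mem_P0] at hj
    rw [mem_P1] at hj'
    omega
  have f1 : frc m Finset.univ σ + 1 ≤ frc m Finset.univ (P0 m i l σ ∪ P1 m i l σ) := by
    refine frc_lt m (Finset.union_subset hs0 hs1)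
      {l} (fun x hx j hj => ?_) (fun x hx => ?_)
    · rw [Finset.mem_singleton.1 hx]
      rcases Finset.mem_union.1 hj with h | h
      · exact ((mem_P0 m).1 h).2.2
      · exact ((mem_P1 m).1 h).2.2
    · rw [Finset.mem_singleton.1 hx]
      rw [mem_P1] at hj2
      refine ⟨j2, hj2.1, ?_⟩
      rw [hj2.2.1]
      exact one_ne_zero
  have f2 : frc m Finset.univ σ + 1 ≤ frc m Finset.univ (P0 m i l σ ∪ P1 m l i σ) := by
    refine frc_lt m (Finset.union_subset hs0 hs2)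
      {i} (fun x hx j hj => ?_) (fun x hx => ?_)
    · rw [Finset.mem_singleton.1 hx]
      rcases Finset.mem_union.1 hj with h | h
      · exact ((mem_P0 m).1 h).2.1
      · exact ((mem_P1 m).1 h).2.2
    · rw [Finset.mem_singleton.1 hx]
      rw [mem_P1] at hj1
      refine ⟨j1, hj1.1, ?_⟩
      rw [hj1.2.1]
      exact one_ne_zero
  have f3 : frc m Finset.univ σ + 2 ≤ frc m Finset.univ (P0 m i l σ) := by
    have := frc_lt m (σ := P0 m i l σ) (τ := σ) (Finset.filter_subset _ _) {i, l}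
      (fun x hx j hj => ?_) (fun x hx => ?_)
    · rwa [Finset.card_pair hT.1] at this
    · rcases Finset.mem_insert.1 hx with rfl | hx
      · exact ((mem_P0 m).1 hj).2.1
      · rw [Finset.mem_singleton.1 hx]
        exact ((mem_P0 m).1 hj).2.2
    · rcases Finset.mem_insert.1 hx with rfl | hx
      · rw [mem_P1] at hj1
        refine ⟨j1, hj1.1, ?_⟩
        rw [hj1.2.1]
        exact one_ne_zero
      · rw [Finset.mem_singleton.1 hx]
        rw [mem_P1] at hj2
        refine ⟨j2, hj2.1, ?_⟩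
        rw [hj2.2.1]
        exact one_ne_zero
  have hc1' : 2 ≤ (P1 m i l σ).card := hc1
  have hc2' : 2 ≤ (P1 m l i σ).card := hc2
  have k1 := coef_eq t m τ (P0 m i l σ ∪ P1 m i l σ) ((P1 m l i σ).card - 1) 1
    (by rw [← hσ, hd01]; omega) (by rw [← hσ]; exact f1)
  have k2 := coef_eq t m τ (P0 m i l σ ∪ P1 m l i σ) ((P1 m i l σ).card - 1) 1
    (by rw [← hσ, hd02]; omega) (by rw [← hσ]; exact f2)
  have k3 := coef_eq t m τ (P0 m i l σ) ((P1 m i l σ).card + (P1 m l i σ).card - 2) 2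
    (by rw [← hσ]; omega) (by rw [← hσ]; exact f3)
  rw [← hσ] at k1 k2 k3
  have s1 := sum_PK u m τ (P0 m i l σ ∪ P1 m i l σ) ((P1 m l i σ).card - 1) b'
  have s2 := sum_PK u m τ (P0 m i l σ ∪ P1 m l i σ) ((P1 m i l σ).card - 1) b'
  have s3 := sum_PK u m τ (P0 m i l σ) ((P1 m i l σ).card + (P1 m l i σ).card - 2) b'
  rw [← ht] at s1 s2 s3
  have hsum : ∑ κ, evL u (valP m κ τ σ i l) * b' κ =
      -(∑ κ, evL u (PK m κ τ (P0 m i l σ) ((P1 m i l σ).card + (P1 m l i σ).card - 2)) * b' κ) +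
      (∑ κ, evL u (PK m κ τ (P0 m i l σ ∪ P1 m i l σ) ((P1 m l i σ).card - 1)) * b' κ) +
      ∑ κ, evL u (PK m κ τ (P0 m i l σ ∪ P1 m l i σ) ((P1 m i l σ).card - 1)) * b' κ := by
    rw [← Finset.sum_neg_distrib, ← Finset.sum_add_distrib, ← Finset.sum_add_distrib]
    refine Finset.sum_congr rfl fun κ _ => ?_
    unfold valP
    rw [map_add, map_add, map_neg]
    ring
  change b' τ = ∑ κ, evL u (valP m κ τ σ i l) * b' κ
  rw [hsum, s1, s2, s3, hhom τ hAτ, ← hσ]
  have h2 := hhom (P0 m i l σ ∪ P1 m i l σ) (adS_mono _ _ (Finset.union_subset hs0 hs1) hAσ)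
  have h3 := hhom (P0 m i l σ ∪ P1 m l i σ) (adS_mono _ _ (Finset.union_subset hs0 hs2) hAσ)
  have h4 := hhom (P0 m i l σ) (adS_mono _ _ hs0 hAσ)
  set cτ := (-1) ^ (τ.card + σ.card) * t ^ (mx m Finset.univ σ -
    (frc m Finset.univ τ + τ.card)) with hcτ
  rw [h2, h3, h4] at h1
  linear_combination cτ * h1 - b' (bas m Finset.univ (P0 m i l σ ∪ P1 m i l σ)) * k1 -
    b' (bas m Finset.univ (P0 m i l σ ∪ P1 m l i σ)) * k2 -
    b' (bas m Finset.univ (P0 m i l σ)) * k3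

end

/-! ### The equivariant classes -/

section
open MvPolynomial
open Pool.Agent.W428.MOT Pool.Agent.W749.MT Pool.Agent.W749.ME
open Pool.Agent.W605.MEInd (dact_gbar dact_prod ne_zero_of_pow)
open Pool.Agent.W426.SM (ford)
open Pool.Agent.TH216.MC
open Pool.Agent.W425.MM
open Pool.Agent.W375.MT (echi_empty)

variable {k : Type} [Field k] {r : ℕ} {R : Type} [CommRing R]

/-- **The classes of the bases and their relations, four variables, `J = univ`.** -/
theorem ex_classes4 (hTw : S_ETw) (hFree : S_EFree) (hSub : S_ESub) [CharZero k]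
    {m : Fin r → Fin 4 → ℕ} {c : Fin r → k} (hNon : Mot.NonG m c) (hc : ∀ j, c j ≠ 0)
    (hJ : ∀ u : Fin 4 → ℕ, Pool.Agent.W428.MOT.Adm Finset.univ u → 0 < gord m u)
    (M : EMeas (sp 0 m c 1) R) (y : Rˣ) (hML : M.L = (y : R)) :
    ∃ (b0 b1 : Finset (Fin r) → R), b0 ∅ = 0 ∧
      (∀ (τ : Finset (Fin r)) (u : Fin 4 → ℕ), Pool.Agent.W428.MOT.Adm Finset.univ u →
        amin m u = τ →
      (0 < ford 0 m 1 u →
        M.χ _ (EB0 0 m c 1 Finset.univ τ) (bw 0 m Finset.univ τ u) (ford 0 m 1 u)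
          (bb Finset.univ) = b0 τ) ∧
      ∀ l, 1 ≤ l →
        M.χ _ (EB1 0 m c 1 Finset.univ τ) (bw1 0 m Finset.univ τ u l) (ford 0 m 1 u + 1 * l)
          (bb1 Finset.univ) = b1 τ) ∧
      ClRA y m (b1 ∅) b0 ∧ ClRA y m (b1 ∅) b1 := by
  classical
  have hK : CharZero (AlgebraicClosure k) :=
    charZero_of_injective_algebraMap (algebraMap k (AlgebraicClosure k)).injective
  set J : Finset (Fin 4) := Finset.univ with hJdef
  have hchoice : ∀ τ, ∃ u : Fin 4 → ℕ, AdS m τ →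
      (Pool.Agent.W428.MOT.Adm J u ∧ τ ⊆ amin m u) := by
    intro τ
    by_cases h : AdS m τ
    · obtain ⟨u, hu⟩ := h
      exact ⟨u, fun _ => hu⟩
    · exact ⟨0, fun h' => absurd h' h⟩
  choose U hU using hchoice
  have hmin : ∀ {τ : Finset (Fin r)} {u : Fin 4 → ℕ}, τ ⊆ amin m u →
      ∀ j ∈ τ, ∑ i, u i * m j i = gord m u := fun h j hj => (mem_amin m _ j).1 (h hj)
  -- independence for the two functions
  have ind1 : ∀ (τ : Finset (Fin r)) (u u' : Fin 4 → ℕ) (N N' : ℕ),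
      Pool.Agent.W428.MOT.Adm J u → Pool.Agent.W428.MOT.Adm J u' →
      τ ⊆ amin m u → τ ⊆ amin m u' → 0 < N → 0 < N' →
      cX M J (fun _ => 0) τ u N = cX M J (fun _ => 0) τ u' N' := by
    intro τ u u' N N' hu hu' hτ hτ' hN hN'
    refine cX_ind hTw M ⟨hu, hJ u hu, hN⟩ ⟨hu', hJ u' hu', hN'⟩ IsPF.zero τ (hmin hτ)
      (hmin hτ') ?_ ?_ ?_
    · intro l _ z
      rw [mul_zero]
    · intro l _ z
      rw [mul_zero]
    · intro l _ z
      rw [mul_zero]
  have ind0 : ∀ (τ : Finset (Fin r)) (u u' : Fin 4 → ℕ), Pool.Agent.W428.MOT.Adm J u →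
      Pool.Agent.W428.MOT.Adm J u' → τ ⊆ amin m u → τ ⊆ amin m u' →
      cX M J (fun z => z none) τ u (gord m u) = cX M J (fun z => z none) τ u' (gord m u') := by
    intro τ u u' hu hu' hτ hτ'
    refine cX_ind hTw M ⟨hu, hJ u hu, hJ u hu⟩ ⟨hu', hJ u' hu', hJ u' hu'⟩ (IsPF.coord none) τ
      (hmin hτ) (hmin hτ') ?_ ?_ ?_
    · intro l _ z
      rfl
    · intro l _ z
      rfl
    · intro l _ z
      rfl
  have hw : ∀ (u : Fin 4 → ℕ) (N : ℕ), cX M J (fun _ => 0) (∅ : Finset (Fin r)) u N =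
      M.χ _ (ZE k J {z | z none = 1}) (rw' J u N) N (bb1 J) := by
    intro u N
    unfold cX
    have e1 : free 0 m J (∅ : Finset (Fin r)) = J := by
      unfold free
      rw [Finset.filter_true_of_mem]
      intro i _
      exact ⟨rfl, fun j hj => absurd hj (Finset.notMem_empty _)⟩
    have e2 : XE m c (fun _ => 0) (∅ : Finset (Fin r)) = {z | z none = 1} := by
      ext z
      simp [XE, gbar]
    rw [e1, e2]
  have hemp : ∀ (u : Fin 4 → ℕ), Pool.Agent.W428.MOT.Adm J u →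
      cX M J (fun z => z none) (∅ : Finset (Fin r)) u (gord m u) = 0 := by
    intro u hu
    unfold cX
    have e2 : ZE k (free 0 m J (∅ : Finset (Fin r)))
        (XE m c (fun z => z none) (∅ : Finset (Fin r))) = ∅ := by
      rw [Set.eq_empty_iff_forall_notMem]
      rintro z ⟨-, -, h1, h2⟩
      rw [show gbar m (cb c) ∅ (fun i => z (some i)) = 0 from Finset.sum_empty] at h1
      beta_reduce at h1
      rw [h2] at h1
      exact zero_ne_one h1
    rw [e2]
    refine echi_empty M (S := ZE k (free 0 m J (∅ : Finset (Fin r)))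
        (XE m c (fun z => z none) (∅ : Finset (Fin r)))) ?_
    exact valid_ZE (c := c) ⟨hu, hJ u hu, hJ u hu⟩ _ (constr_XE m c (IsPF.coord none) _)
      (stb_XE m c u _ (hJ u hu) _ (fun z => z none) (fun l _ z => rfl) _
        (fun j hj => absurd hj (Finset.notMem_empty _)) (free_zero m J _))
  set B0 : Finset (Fin r) → R := fun τ =>
    if AdS m τ then cX M J (fun z => z none) τ (U τ) (gord m (U τ)) else 0 with hB0
  set B1 : Finset (Fin r) → R := fun τ =>
    if AdS m τ then cX M J (fun _ => 0) τ (U τ) (gord m (U τ)) else 0 with hB1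
  -- the values at a common vector
  have v0 : ∀ (u : Fin 4 → ℕ), Pool.Agent.W428.MOT.Adm J u → ∀ τ, τ ⊆ amin m u →
      B0 τ = cX M J (fun z => z none) τ u (gord m u) := by
    intro u hu τ hτ
    have hA : AdS m τ := ⟨u, hu, hτ⟩
    simp only [hB0]
    rw [if_pos hA]
    exact ind0 τ _ _ (hU τ hA).1 hu (hU τ hA).2 hτ
  have v1 : ∀ (u : Fin 4 → ℕ), Pool.Agent.W428.MOT.Adm J u → ∀ τ, τ ⊆ amin m u →
      B1 τ = cX M J (fun _ => 0) τ u (gord m u) := by
    intro u hu τ hτ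
    have hA : AdS m τ := ⟨u, hu, hτ⟩
    simp only [hB1]
    rw [if_pos hA]
    exact ind1 τ _ _ _ _ (hU τ hA).1 hu (hU τ hA).2 hτ (hJ _ (hU τ hA).1) (hJ u hu)
  have vw : ∀ (u : Fin 4 → ℕ), Pool.Agent.W428.MOT.Adm J u →
      B1 ∅ = M.χ _ (ZE k J {z | z none = 1}) (rw' J u (gord m u)) (gord m u) (bb1 J) := by
    intro u hu
    rw [v1 u hu ∅ (Finset.empty_subset _), hw]
  have hzz : ∀ (u : Fin 4 → ℕ) (T : Finset (Fin 4)) (l : AlgebraicClosure k),
      l ^ gord m u = 1 → ∀ z : Pt k (Option (Fin 4)),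
      dact (rw' T u (gord m u)) l z none = l ^ (gord m u : ℤ) * z none := fun u T l _ z => rfl
  refine ⟨B0, B1, ?_, ?_, ⟨?_, ?_⟩, ⟨?_, ?_⟩⟩
  · simp only [hB0]
    by_cases h : AdS m ∅
    · rw [if_pos h]
      exact hemp _ (hU ∅ h).1
    · rw [if_neg h]
  · intro τ u hu hτ
    have hs : τ ⊆ amin m u := by rw [hτ]
    refine ⟨fun _ => ?_, fun l hl => ?_⟩
    · rw [v0 u hu τ hs, ford_eq, EB0_eq M hu (hJ u hu) τ hτ]
    · rw [v1 u hu τ hs, ford_eq, EB1_eq, bw1_eq, one_mul]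
      exact ind1 τ u u _ _ hu hu hs hs (by omega) (hJ _ hu)
  · intro i j0 hj0 τ hτ hA
    obtain ⟨u, hU1, hU2⟩ := hA
    have hg := hJ u hU1
    have hdat : Dat m c J u (gord m u) := ⟨hU1, hg, hg⟩
    have hs : τ ⊆ amin m u := (Finset.subset_insert _ _).trans hU2
    rw [vw u hU1, v0 u hU1 _ hU2, v0 u hU1 _ hs, ← hML]
    exact XE_step hFree hSub hc M hdat (IsPF.coord none) (fun _ _ h => h)
        (fun T l _ z => rfl) i (Finset.mem_univ i) j0 hj0 τ hτ (hmin hU2)
  · intro i x hix τ0 τ1 τ2 t0 t1 t2 hn1 hn2 hx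
    obtain ⟨u, hu, hua⟩ := hx
    have hU1 : Pool.Agent.W428.MOT.Adm J u := adm_univ hu
    have hg := hJ u hU1
    have hdat : Dat m c J u (gord m u) := ⟨hU1, hg, hg⟩
    have hU2 : τ0 ∪ (τ1 ∪ τ2) ⊆ amin m u := by rw [hua]
    have s0 : τ0 ⊆ amin m u := Finset.subset_union_left.trans hU2
    have s1 : τ1 ⊆ amin m u :=
      (Finset.subset_union_left.trans Finset.subset_union_right).trans hU2
    have s2 : τ2 ⊆ amin m u :=
      (Finset.subset_union_right.trans Finset.subset_union_right).trans hU2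
    rw [vw u hU1, v0 u hU1 _ hU2, v0 u hU1 _ (Finset.union_subset s0 s1),
      v0 u hU1 _ (Finset.union_subset s0 s2), v0 u hU1 _ s0, ← hML]
    exact XE_two hFree hSub M hdat (IsPF.coord none) (fun _ _ h => h) (fun T l _ z => rfl)
      i x (Finset.mem_univ i) (Finset.mem_univ x) hix τ0 τ1 τ2 t0 t1 t2 hn1 hn2 (hmin hU2)
      (no_common4 hix (fun u z hz h0 => hNon u z (fun i _ => hz i) h0) u hu τ0 τ1 τ2 hua t0 t1
        t2 hn1 hn2)
  · intro i j0 hj0 τ hτ hA
    obtain ⟨u, hU1, hU2⟩ := hA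
    have hg := hJ u hU1
    have hdat : Dat m c J u (gord m u) := ⟨hU1, hg, hg⟩
    have hs : τ ⊆ amin m u := (Finset.subset_insert _ _).trans hU2
    rw [vw u hU1, v1 u hU1 _ hU2, v1 u hU1 _ hs, ← hML]
    exact XE_step hFree hSub hc M hdat IsPF.zero (fun _ _ _ => rfl)
        (fun T l _ z => by rw [mul_zero]) i (Finset.mem_univ i) j0 hj0 τ hτ (hmin hU2)
  · intro i x hix τ0 τ1 τ2 t0 t1 t2 hn1 hn2 hx
    obtain ⟨u, hu, hua⟩ := hx
    have hU1 : Pool.Agent.W428.MOT.Adm J u := adm_univ hu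
    have hg := hJ u hU1
    have hdat : Dat m c J u (gord m u) := ⟨hU1, hg, hg⟩
    have hU2 : τ0 ∪ (τ1 ∪ τ2) ⊆ amin m u := by rw [hua]
    have s0 : τ0 ⊆ amin m u := Finset.subset_union_left.trans hU2
    have s1 : τ1 ⊆ amin m u :=
      (Finset.subset_union_left.trans Finset.subset_union_right).trans hU2
    have s2 : τ2 ⊆ amin m u :=
      (Finset.subset_union_right.trans Finset.subset_union_right).trans hU2
    rw [vw u hU1, v1 u hU1 _ hU2, v1 u hU1 _ (Finset.union_subset s0 s1),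
      v1 u hU1 _ (Finset.union_subset s0 s2), v1 u hU1 _ s0, ← hML]
    exact XE_two hFree hSub M hdat IsPF.zero (fun _ _ _ => rfl)
      (fun T l _ z => by rw [mul_zero])
      i x (Finset.mem_univ i) (Finset.mem_univ x) hix τ0 τ1 τ2 t0 t1 t2 hn1 hn2 (hmin hU2)
      (no_common4 hix (fun u z hz h0 => hNon u z (fun i _ => hz i) h0) u hu τ0 τ1 τ2 hua t0 t1
        t2 hn1 hn2)

end

end Pool.Agent.Y231.N4
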