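import Pool.Agent.Y231.N4.M4
import Pool.Agent.Y231.N4.X5

/-!
# Motivic zeta functions of nondegenerate polynomials in four variables: all points, and the
equivariant version
-/

set_option autoImplicit false

namespace Pool.Agent.Y231.N4

open Pool.Agent.TH216.MF
open MvPolynomial
open Pool.Agent.W428.MOT Pool.Agent.W749.MT Pool.Agent.W749.ME Pool.Agent.W425.MM
open Pool.Agent.W425.MM.Mot
open Pool.Agent.W375.MG (Good GB0 GB1 constr_W constr_GB1 zetaG)
open Pool.Agent.TH216.MC (b0_empty b0_rel b1_rel pos_of_ray ex_classes eSumP ford_eq cser_zero)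
open Pool.Agent.W426.SM (gord ford IsRay face)
open Pool.Agent.W63.MTFin (mapMeas geo_sum L_mul ev C_mem X_mem)

/-- the coefficients vanish on the strata `J` -/
lemma rec_zero {r N : ℕ} (hr : 0 < r) (q : ℕ) (hq : 2 ≤ q) (v : Fin r → Fin N → ℕ)
    (e : Finset (Fin r) → ℂ)
    (J : Finset (Fin N)) (T0 : ℂ)
    (h : ∃ j, ∀ i ∈ J, v j i = 0) :
    RecJ q v e J T0 := by
  classical
  refine ⟨1, by rw [Polynomial.eval_one]; exact one_ne_zero, ?_⟩
  obtain ⟨j, hj⟩ := h
  rw [Filter.eventually_atTop]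
  refine ⟨2, fun t ht => ?_⟩
  refine Finset.sum_eq_zero fun m hm => ?_
  rw [Polynomial.natDegree_one, Finset.mem_range] at hm
  have hm0 : m = 0 := by omega
  subst hm0
  have h1 : aJ q v e J (t - (0 : ℕ)) = 0 := by
    unfold aJ
    refine (tsum_congr fun x => ?_).trans tsum_zero
    split_ifs with hx
    · have h2 : Wt v e (t - (0 : ℕ)) x = 0 := by
        unfold Wt
        rw [if_neg]
        intro h3
        have h4 := h3 j
        have h5 : ∑ i, x i * v j i = 0 := by
          refine Finset.sum_eq_zero fun i _ => ?_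
          by_cases hi : i ∈ J
          · rw [hj i hi, mul_zero]
          · have : x i = 0 := by
              by_contra h6
              exact hi ((hx i).1 h6)
            rw [this, zero_mul]
        rw [h5] at h4
        push_cast at h4
        omega
      rw [h2, mul_zero]
    · rfl
  rw [h1, mul_zero]

section
variable {k : Type} [Field k] {R : Type} [CommRing R]

/-- the series of the jets -/
noncomputable def serM {n : ℕ} {f : MvPolynomial (Fin n) k} (M : EMeas f R) (y : Rˣ) :
    PowerSeries R :=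
  PowerSeries.mk fun N => if 0 < N then
    M.χ _ (JetE f N) (jw n N) N (jb n N) * ((y⁻¹ : Rˣ) : R) ^ (n * N) else 0

/-- only the arcs with origin `0` count -/
def OrigM {n : ℕ} {f : MvPolynomial (Fin n) k} (M : EMeas f R) : Prop :=
  ∀ (ι : Type) [Fintype ι] (S : Set (Pt k ι)) (ρ : ι → ℤ) (d : ℕ) (β : Fin n → Option ι),
    Valid f S ρ d β → (∀ z ∈ S, cbase β z ≠ 0) → M.χ ι S ρ d β = 0

/-- multiplication by the denominator -/
lemma mem_of_mul (u : Rˣ) {S : Set (ℤ × ℤ)} (hS1 : ((-1 : ℤ), (1 : ℤ)) ∈ S) (F : PowerSeries R)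
    (h : F * (1 - PowerSeries.C ((u⁻¹ : Rˣ) : R) * PowerSeries.X) ∈ ratR u S) : F ∈ ratR u S := by
  have h1 := geoR_mul u (-1) 1 one_pos
  rw [show (1 : ℤ).toNat = 1 from rfl, zpow_neg_one, pow_one] at h1
  have h2 : F = F * (1 - PowerSeries.C ((u⁻¹ : Rˣ) : R) * PowerSeries.X) *
      Pool.Agent.W428.MOT.geoR u (-1) 1 := by
    rw [mul_assoc, h1, mul_one]
  rw [h2]
  exact (ratR u S).mul_mem h (geoR_mem u (p := ((-1 : ℤ), (1 : ℤ))) hS1)

end

/-- the lists of the rays -/
theorem lists4 {r : ℕ} (m : Fin r → Fin 4 → ℕ) (hm : Function.Injective m) (hr0 : 0 < r)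
    (Bad : ℚ → Prop) (Gl : Prop)
    (hB : ∀ q : ℕ, 2 ≤ q → ∀ e : Finset (Fin r) → ℂ,
      KRelJ q m Finset.univ e → KRelB q m e → ∀ T0 : ℂ, T0 ≠ 0 → ∀ σ : ℚ, Bad σ →
      Real.log ‖T0‖ / Real.log q = (σ : ℝ) → RecJ q m e Finset.univ T0)
    (hBJ : Gl → ∀ J : Finset (Fin 4), J ≠ Finset.univ → ∀ q : ℕ, 2 ≤ q →
      ∀ e : Finset (Fin r) → ℂ, KRelJ q m J e →
      ∀ T0 : ℂ, T0 ≠ 0 → ∀ σ : ℚ, Bad σ → Real.log ‖T0‖ / Real.log q = (σ : ℝ) →
      RecJ q m e J T0) :
    ∃ l : Finset (Fin 4) → List (Fin 4 → ℕ), ∀ J,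
      (∀ a ∈ l J, IsRay m a ∧ 0 < gord m a ∧ ¬ Bad (((∑ i, a i : ℕ) : ℚ) / gord m a)) ∧
      (J = Finset.univ → ∀ κ, IsPol (GdP m Finset.univ (pB m κ) * ((l J).map (fac m)).prod)) ∧
      (J ≠ Finset.univ → Gl → ∀ κ, IsPol (Gd m J κ * ((l J).map (fac m)).prod)) := by
  classical
  have h : ∀ J : Finset (Fin 4), ∃ l : List (Fin 4 → ℕ),
      (∀ a ∈ l, IsRay m a ∧ 0 < gord m a ∧ ¬ Bad (((∑ i, a i : ℕ) : ℚ) / gord m a)) ∧
      (J = Finset.univ → ∀ κ, IsPol (GdP m Finset.univ (pB m κ) * (l.map (fac m)).prod)) ∧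
      (J ≠ Finset.univ → Gl → ∀ κ, IsPol (Gd m J κ * (l.map (fac m)).prod)) := by
    intro J
    by_cases hJ : J = Finset.univ
    · obtain ⟨l, hl, hG⟩ := formalP hr0 m Finset.univ Bad (pB m) (fun κ => polS_pB κ)
        (fun q hq κ T0 hT0 σ hσ hlog => hB q hq _ (krelJ_pB q hq κ) (krelB_pB hm q hq κ) T0 hT0
          σ hσ hlog)
      exact ⟨l, hl, fun _ => hG, fun h => absurd hJ h⟩
    · by_cases hGl : Gl
      · obtain ⟨l, hl, hG⟩ := formal hr0 m J Bad (hBJ hGl J hJ)
        exact ⟨l, hl, fun h => absurd h hJ, fun _ _ => hG⟩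
      · exact ⟨[], fun a ha => absurd ha List.not_mem_nil, fun h => absurd h hJ,
          fun _ h => absurd h hGl⟩
  choose l hl using h
  exact ⟨l, hl⟩

/-- **Motivic zeta functions of a nondegenerate polynomial in four variables.** -/
theorem fin4G {r : ℕ} (m : Fin r → Fin 4 → ℕ) (hm : Function.Injective m) (hr0 : 0 < r)
    (Bad : ℚ → Prop) (Gl : Prop)
    (hB : ∀ q : ℕ, 2 ≤ q → ∀ e : Finset (Fin r) → ℂ,
      KRelJ q m Finset.univ e → KRelB q m e → ∀ T0 : ℂ, T0 ≠ 0 → ∀ σ : ℚ, Bad σ →
      Real.log ‖T0‖ / Real.log q = (σ : ℝ) → RecJ q m e Finset.univ T0)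
    (hBJ : Gl → ∀ J : Finset (Fin 4), J ≠ Finset.univ → ∀ q : ℕ, 2 ≤ q →
      ∀ e : Finset (Fin r) → ℂ, KRelJ q m J e →
      ∀ T0 : ℂ, T0 ≠ 0 → ∀ σ : ℚ, Bad σ → Real.log ‖T0‖ / Real.log q = (σ : ℝ) →
      RecJ q m e J T0) :
    ∃ S : Finset (ℤ × ℤ),
      (∀ p ∈ S, p = (-1, 1) ∨ ∃ a : Fin 4 → ℕ, IsRay m a ∧ 0 < gord m a ∧
        ¬ Bad (((∑ i, a i : ℕ) : ℚ) / gord m a) ∧
        p = (-((∑ i, a i : ℕ) : ℤ), (gord m a : ℤ))) ∧
      (∀ (K : Type) [Field K] [CharZero K] (c : Fin r → K), NonG m c → (∀ j, c j ≠ 0) →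
        ∀ (W : Set (Pt K (Fin 4))) (E : Set (AlgebraicClosure K)), Constr W → Good E →
        ((∀ z ∈ W, ∀ i, z i = 0) ∨ Gl) → zetaG (sp 0 m c 1) W E ∈ ratRing K S) ∧
      (∀ (k : Type) [Field k] [CharZero k] (c : Fin r → k), NonG m c → (∀ j, c j ≠ 0) →
        (∀ u : Fin 4 → ℕ, Pool.Agent.W428.MOT.Adm Finset.univ u → 0 < gord m u) →
        ∀ (R : Type) [CommRing R] (y : Rˣ) (M : EMeas (sp 0 m c 1) R), M.L = (y : R) →
        (OrigM M ∨ Gl) → serM M y ∈ ratR y (S : Set (ℤ × ℤ))) := by
  classical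
  obtain ⟨l, hl⟩ := lists4 m hm hr0 Bad Gl hB hBJ
  set S : Finset (ℤ × ℤ) := insert (-1, 1) (Finset.univ.biUnion fun J : Finset (Fin 4) =>
    (l J).toFinset.image fun a => (-((∑ i, a i : ℕ) : ℤ), (gord m a : ℤ))) with hS
  have hS1 : ((-1 : ℤ), (1 : ℤ)) ∈ S := Finset.mem_insert_self _ _
  have hS2 : ∀ J, ∀ a ∈ l J, (-((∑ i, a i : ℕ) : ℤ), (gord m a : ℤ)) ∈ S :=
    fun J a ha => Finset.mem_insert_of_mem (Finset.mem_biUnion.2 ⟨J, Finset.mem_univ _,
      Finset.mem_image.2 ⟨a, List.mem_toFinset.2 ha, rfl⟩⟩)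
  refine ⟨S, fun p hp => ?_, ?_, ?_⟩
  · rcases Finset.mem_insert.1 hp with rfl | hp
    · exact Or.inl rfl
    · right
      obtain ⟨J, -, hp⟩ := Finset.mem_biUnion.1 hp
      obtain ⟨a, ha, rfl⟩ := Finset.mem_image.1 hp
      obtain ⟨ha1, ha2, ha3⟩ := (hl J).1 a (List.mem_toFinset.1 ha)
      exact ⟨a, ha1, ha2, ha3, rfl⟩
  · intro K _ _ c hNon hc W E hW hE hWD
    have h1 : S_K0 := Pool.Agent.W417.MT.K0.main
    have h5 : S_CP1 := Pool.Agent.W346.MTCp1.main
    have hFree : S_Free := Pool.Agent.W417.MT.Free.main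
    have hSub : S_Sub := Pool.Agent.W21.MTSub.main
    have hTay : S_Tay := Pool.Agent.W417.MT.Tay.main
    obtain ⟨M₀, hM₀⟩ := h1 K
    set M := mapMeas M₀ (algebraMap (K0 K) (MK K)) with hM
    set Y : MK K := (((Lu K)⁻¹ : (MK K)ˣ) : MK K) with hY
    have hL : M.L * Y = 1 := L_mul hM₀
    have hML : M.L = ((Lu K : (MK K)ˣ) : MK K) := by
      have h2 : ((Lu K : (MK K)ˣ) : MK K) * Y = 1 := Units.mul_inv _
      calc M.L = M.L * (((Lu K : (MK K)ˣ) : MK K) * Y) := by rw [h2, mul_one]
        _ = (M.L * Y) * ((Lu K : (MK K)ˣ) : MK K) := by ring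
        _ = _ := by rw [hL, one_mul]
    have hsum := sum hFree hSub hTay M 0 m c 1 hW hE hNon one_pos Y hL
    -- the series
    set C : Finset (Fin 4) → Finset (Fin r) → PowerSeries (MK K) := fun J τ =>
      PowerSeries.map (evR (Lu K)) (cser m J τ) with hCdef
    have hCc : ∀ J τ N, PowerSeries.coeff N (C J τ) =
        Polynomial.eval₂ (Int.castRingHom (MK K)) Y (cp 0 m 1 J τ N N) := fun J τ N => by
      simp only [hCdef, cser]
      rw [PowerSeries.coeff_map, PowerSeries.coeff_mk]
      rfl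
    set D : Finset (Fin 4) → Finset (Fin r) → PowerSeries (MK K) := fun J τ =>
      PowerSeries.mk fun N => ∑ l ∈ Finset.Icc 1 N,
        if 1 * l ≤ N then Y ^ l * PowerSeries.coeff (N - 1 * l) (C J τ) else 0
      with hDdef
    have hD : ∀ J τ, D J τ = PowerSeries.C Y * PowerSeries.X * C J τ * geoR (Lu K) (-1) 1 := by
      intro J τ
      have h6 := geo_sum Y (fun N => PowerSeries.coeff N (C J τ)) 1 one_pos
      have h7 := geoR_mul (Lu K) (-1) 1 one_pos
      rw [show (1 : ℤ).toNat = 1 from rfl, zpow_neg_one] at h7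
      have h9 : PowerSeries.mk (fun N => PowerSeries.coeff N (C J τ)) = C J τ := by
        ext N
        rw [PowerSeries.coeff_mk]
      rw [h9] at h6
      have h10 : D J τ * ((1 - PowerSeries.C Y * PowerSeries.X ^ 1) * geoR (Lu K) (-1) 1) =
          PowerSeries.C Y * PowerSeries.X ^ 1 * C J τ * geoR (Lu K) (-1) 1 := by
        rw [← h6, mul_assoc]
      rw [h7, mul_one, pow_one] at h10
      exact h10
    set b0 : Finset (Fin 4) → Finset (Fin r) → MK K := fun J τ => M.χ _ (GB0 0 m c 1 W E J τ)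
      with hb0
    set b1 : Finset (Fin 4) → Finset (Fin r) → MK K := fun J τ => M.χ _ (GB1 0 m c 1 W E J τ)
      with hb1
    set F : PowerSeries (MK K) := ∑ J : Finset (Fin 4), FR (Lu K) m J (b0 J) (b1 J) with hF
    have hFmem : F ∈ ratRing K S := by
      refine (ratRing K S).sum_mem fun J _ => ?_
      by_cases hJ : J = Finset.univ
      · subst hJ
        refine mem_of_mul (Lu K) hS1 _ ?_
        refine inRatP (Lu K) m Finset.univ (l Finset.univ)
          (fun a ha => ⟨((hl _).1 a ha).2.1, hS2 _ a ha⟩) (pB m)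
          (fun κ => polS_pB κ) (fun κ => pB_empty κ) ((hl Finset.univ).2.1 rfl)
          (M.χ _ (GB1 0 m c 1 W E Finset.univ ∅)) (Fc m) (fun τ h => cser_zero4 m τ h)
          (b0 Finset.univ) (b1 Finset.univ) (b0_empty M m c hE Finset.univ) rfl ?_ ?_
        · intro τ hτ
          exact decomp4 (Lu K) m _ _ (clR_b0 hFree hSub M (Lu K) hML m c hNon hc hW hE) τ hτ
        · intro τ hτ
          exact decomp4 (Lu K) m _ _ (clR_b1 hFree hSub M (Lu K) hML m c hNon hc hW hE) τ hτ
      · rcases hWD with hWD | hGl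
        · have hb0z : ∀ τ, b0 J τ = 0 := by
            intro τ
            have h6 : GB0 0 m c 1 W E J τ = ∅ := by
              ext z
              simp only [GB0, Set.mem_ofPred_eq, Set.mem_empty_iff_false, iff_false]
              rintro ⟨h7, h8, -⟩
              apply hJ
              rw [Finset.eq_univ_iff_forall]
              intro i
              by_contra hi'
              have h9 := hWD _ h7 i
              simp only [if_neg hi'] at h9
              exact h8 i h9
            simp only [hb0]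
            rw [h6, χ_empty]
          have hb1z : ∀ τ, b1 J τ = 0 := by
            intro τ
            have h6 : GB1 0 m c 1 W E J τ = ∅ := by
              ext z
              simp only [GB1, Set.mem_ofPred_eq, Set.mem_empty_iff_false, iff_false]
              rintro ⟨h7, h8, -⟩
              apply hJ
              rw [Finset.eq_univ_iff_forall]
              intro i
              by_contra hi'
              have h9 := hWD _ h7 i
              simp only [if_neg hi'] at h9
              exact h8 i h9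
            simp only [hb1]
            rw [h6, χ_empty]
          have h6 : FR (Lu K) m J (b0 J) (b1 J) = 0 := by
            unfold FR
            refine Finset.sum_eq_zero fun τ _ => ?_
            rw [hb0z, hb1z]
            simp
          rw [h6]
          exact (ratRing K S).zero_mem
        · refine inRat_J (Lu K) hS1 m J (l J) (fun a ha => ⟨((hl J).1 a ha).2.1, hS2 J a ha⟩)
            ((hl J).2.2 hJ hGl)
            (b1 J ∅) (fun _ => True)
            (fun _ _ _ _ => trivial) (fun τ h => absurd trivial h) (b0 J) (b1 J)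
            (b0_empty M m c hE J) rfl ?_ ?_
          · intro i hi j0 hj0 τ hτ _
            rw [← hML]
            exact b0_rel hFree hSub M m c hc hW hE J i hi j0 hj0 τ hτ
          · intro i hi j0 hj0 τ hτ _
            rw [← hML]
            exact b1_rel hFree hSub M m c hc hW hE J i hi j0 hj0 τ hτ
    have hz : zetaG (sp 0 m c 1) W E =
        F - PowerSeries.C (PowerSeries.coeff 0 F) + PowerSeries.C (PowerSeries.coeff 0
          (zetaG (sp 0 m c 1) W E)) := by
      ext N
      by_cases hN : N = 0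
      · subst hN
        rw [map_add, map_sub, PowerSeries.coeff_C, if_pos rfl, PowerSeries.coeff_C, if_pos rfl,
          sub_self, zero_add]
      · rw [map_add, map_sub, PowerSeries.coeff_C, if_neg hN, PowerSeries.coeff_C, if_neg hN,
          sub_zero, add_zero, zetaG, PowerSeries.coeff_mk]
        have h6 := hsum N (by omega)
        have h7 : algebraMap (K0 K) (MK K) (cls (Fin 4 × Fin (N + 1))
            (Pool.Agent.W375.MG.JetG (sp 0 m c 1) W E N)) *
            (((Lu K) ^ (-((4 * N : ℕ) : ℤ)) : (MK K)ˣ) : MK K) =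
            M.χ _ (Pool.Agent.W375.MG.JetG (sp 0 m c 1) W E N) * Y ^ (4 * N) := by
          rw [zpow_neg, zpow_natCast, ← inv_pow, Units.val_pow_eq_pow_val, ← hM₀]
          rfl
        rw [h7, h6, hF, map_sum]
        refine Finset.sum_congr rfl fun J _ => ?_
        unfold FR
        rw [map_sum]
        refine Finset.sum_congr rfl fun τ _ => ?_
        change _ = PowerSeries.coeff N (PowerSeries.C (((Lu K : (MK K)ˣ) : MK K) ^ frc m J τ) *
          (PowerSeries.C (b0 J τ) * C J τ + PowerSeries.C (b1 J τ) *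
            (PowerSeries.C Y * PowerSeries.X * C J τ * geoR (Lu K) (-1) 1)))
        rw [← hD, ← hML, PowerSeries.coeff_C_mul, map_add, PowerSeries.coeff_C_mul,
          PowerSeries.coeff_C_mul, hCc, hDdef, PowerSeries.coeff_mk, Finset.mul_sum]
        congr 2
        refine Finset.sum_congr rfl fun i _ => ?_
        split_ifs with hi
        · rw [hCc, h5 0 m 1 J τ hr0 one_pos N (N - 1 * i) (Nat.sub_le _ _), mul_assoc]
        · rw [mul_zero]
    rw [hz]
    exact (ratRing K S).add_mem ((ratRing K S).sub_mem hFmem (C_mem _ _)) (C_mem _ _)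
  · intro k _ _ c hNon hc hpos R _ y M hML hOG
    have h5 : S_CP1 := Pool.Agent.W346.MTCp1.main
    have hFree : S_EFree := Pool.Agent.W230.ME.Free.main
    have hSub : S_ESub := Pool.Agent.W366.MESub.main
    have hTay : S_Tay := Pool.Agent.W417.MT.Tay.main
    have hTw : S_ETw := Pool.Agent.W578.ME.etw
    set Y : R := ((y⁻¹ : Rˣ) : R) with hY
    have hL : M.L * Y = 1 := by rw [hML, Units.mul_inv]
    -- the classes
    have hcls : ∀ J : Finset (Fin 4), ∃ (b0 b1 : Finset (Fin r) → R),
        (∀ (τ : Finset (Fin r)) (u : Fin 4 → ℕ), Pool.Agent.W428.MOT.Adm J u → amin m u = τ →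
        (0 < ford 0 m 1 u →
          M.χ _ (EB0 0 m c 1 J τ) (bw 0 m J τ u) (ford 0 m 1 u) (bb J) = b0 τ) ∧
        ∀ l, 1 ≤ l →
          M.χ _ (EB1 0 m c 1 J τ) (bw1 0 m J τ u l) (ford 0 m 1 u + 1 * l) (bb1 J) = b1 τ) ∧
        FR y m J b0 b1 ∈ ratR y (S : Set (ℤ × ℤ)) := by
      intro J
      by_cases hJ : J = Finset.univ
      · subst hJ
        obtain ⟨b0, b1, h00, hb, hc0, hc1⟩ :=
          ex_classes4 hTw hFree hSub hNon hc hpos M y hML
        refine ⟨b0, b1, hb, mem_of_mul y hS1 _ ?_⟩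
        refine inRatP y m Finset.univ (l Finset.univ)
          (fun a ha => ⟨((hl _).1 a ha).2.1, hS2 _ a ha⟩) (pB m)
          (fun κ => polS_pB κ) (fun κ => pB_empty κ) ((hl Finset.univ).2.1 rfl)
          (b1 ∅) (Fc m) (fun τ h => cser_zero4 m τ h) b0 b1 h00 rfl ?_ ?_
        · intro τ hτ
          exact decomp4A y m _ _ hc0 τ hτ
        · intro τ hτ
          exact decomp4A y m _ _ hc1 τ hτ
      · rcases hOG with hO | hGl
        · obtain ⟨i, hi⟩ : ∃ i, i ∉ J := by
            by_contra hcon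
            push Not at hcon
            exact hJ (Finset.eq_univ_iff_forall.2 hcon)
          refine ⟨fun _ => 0, fun _ => 0, fun τ u hu hτ => ⟨fun hf => ?_, fun l hl => ?_⟩, ?_⟩
          · refine hO _ _ _ _ _
              (Pool.Agent.W605.MEInd.valid0 0 m c 1 one_pos J τ u hu hτ hf) fun z hz h0 => ?_
            have h6 := congrFun h0 i
            have h7 : cbase (bb J) z i = z i := by
              unfold cbase bb
              rw [if_neg hi]
              rfl
            rw [h7] at h6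
            exact hz.1 i h6
          · refine hO _ _ _ _ _
              (Pool.Agent.W605.MEInd.valid1 0 m c 1 one_pos J τ u hu hτ l hl) fun z hz h0 => ?_
            have h6 := congrFun h0 i
            have h7 : cbase (bb1 J) z i = z (some i) := by
              unfold cbase bb1
              rw [if_neg hi]
              rfl
            rw [h7] at h6
            exact hz.1 i h6
          · have h6 : FR y m J (fun _ => (0 : R)) (fun _ => 0) = 0 := by
              unfold FR
              refine Finset.sum_eq_zero fun τ _ => ?_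
              simp
            rw [h6]
            exact (ratR y (S : Set (ℤ × ℤ))).zero_mem
        · obtain ⟨b0, b1, h00, hb, hrel⟩ := ex_classes hTw hFree hSub hc hr0 M J
          refine ⟨b0, b1, hb, ?_⟩
          refine inRat_J y hS1 m J (l J) (fun a ha => ⟨((hl J).1 a ha).2.1, hS2 J a ha⟩)
            ((hl J).2.2 hJ hGl)
            (b1 ∅) (fun τ => ∃ u : Fin 4 → ℕ, Pool.Agent.W428.MOT.Adm J u ∧ τ ⊆ amin m u)
            (fun τ τ' hs h => ?_) (fun τ h => cser_zero m J τ h) b0 b1 h00 rfl ?_ ?_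
          · obtain ⟨u, hu1, hu2⟩ := h
            exact ⟨u, hu1, hs.trans hu2⟩
          · intro i hi j0 hj0 τ hτ hA
            rw [← hML]
            exact (hrel i hi j0 hj0 τ hτ hA).1
          · intro i hi j0 hj0 τ hτ hA
            rw [← hML]
            exact (hrel i hi j0 hj0 τ hτ hA).2
    choose b0 b1 hb hFRm using hcls
    have hsum := eSumP
      (Pool.Agent.W375.MT.EJet.main hFree) Pool.Agent.W375.MT.EShift.main
      (Pool.Agent.W375.MT.ECond.main Pool.Agent.W440.MT.ord)
      (EMot.eStB hFree hTay) (EMot.eStC hFree hSub hTay) 0 m c 1 M hNon hr0 one_pos Y hL b0 b1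
      hb
    -- the series
    set C : Finset (Fin 4) → Finset (Fin r) → PowerSeries R := fun J τ =>
      PowerSeries.map (evR y) (cser m J τ) with hCdef
    have hCc : ∀ J τ N, PowerSeries.coeff N (C J τ) =
        Polynomial.eval₂ (Int.castRingHom R) Y (cp 0 m 1 J τ N N) := fun J τ N => by
      simp only [hCdef, cser]
      rw [PowerSeries.coeff_map, PowerSeries.coeff_mk]
      rfl
    set D : Finset (Fin 4) → Finset (Fin r) → PowerSeries R := fun J τ =>
      PowerSeries.mk fun N => ∑ l ∈ Finset.Icc 1 N,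
        if 1 * l ≤ N then Y ^ l * PowerSeries.coeff (N - 1 * l) (C J τ) else 0
      with hDdef
    have hD : ∀ J τ, D J τ = PowerSeries.C Y * PowerSeries.X * C J τ * geoR y (-1) 1 := by
      intro J τ
      have h6 := geo_sum Y (fun N => PowerSeries.coeff N (C J τ)) 1 one_pos
      have h7 := geoR_mul y (-1) 1 one_pos
      rw [show (1 : ℤ).toNat = 1 from rfl, zpow_neg_one] at h7
      have h9 : PowerSeries.mk (fun N => PowerSeries.coeff N (C J τ)) = C J τ := by
        ext N
        rw [PowerSeries.coeff_mk]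
      rw [h9] at h6
      have h10 : D J τ * ((1 - PowerSeries.C Y * PowerSeries.X ^ 1) * geoR y (-1) 1) =
          PowerSeries.C Y * PowerSeries.X ^ 1 * C J τ * geoR y (-1) 1 := by
        rw [← h6, mul_assoc]
      rw [h7, mul_one, pow_one] at h10
      exact h10
    set F : PowerSeries R := ∑ J : Finset (Fin 4), FR y m J (b0 J) (b1 J) with hF
    have hFmem : F ∈ ratR y (S : Set (ℤ × ℤ)) :=
      (ratR y (S : Set (ℤ × ℤ))).sum_mem fun J _ => hFRm J
    have hz : serM M y = F - PowerSeries.C (PowerSeries.coeff 0 F) := by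
      ext N
      by_cases hN : N = 0
      · subst hN
        rw [serM, PowerSeries.coeff_mk, if_neg (lt_irrefl 0), map_sub, PowerSeries.coeff_C,
          if_pos rfl, sub_self]
      · have hN' : 0 < N := Nat.pos_of_ne_zero hN
        rw [serM, PowerSeries.coeff_mk, if_pos hN', map_sub, PowerSeries.coeff_C, if_neg hN,
          sub_zero]
        have h6 := hsum N hN'
        rw [← hY, h6, hF, map_sum]
        refine Finset.sum_congr rfl fun J _ => ?_
        unfold FR
        rw [map_sum]
        refine Finset.sum_congr rfl fun τ _ => ?_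
        change _ = PowerSeries.coeff N (PowerSeries.C ((y : R) ^ frc m J τ) *
          (PowerSeries.C (b0 J τ) * C J τ + PowerSeries.C (b1 J τ) *
            (PowerSeries.C Y * PowerSeries.X * C J τ * geoR y (-1) 1)))
        rw [← hD, ← hML, PowerSeries.coeff_C_mul, map_add, PowerSeries.coeff_C_mul,
          PowerSeries.coeff_C_mul, hCc, hDdef, PowerSeries.coeff_mk, Finset.mul_sum]
        congr 2
        refine Finset.sum_congr rfl fun i _ => ?_
        split_ifs with hi
        · rw [hCc, h5 0 m 1 J τ hr0 one_pos N (N - 1 * i) (Nat.sub_le _ _), mul_assoc]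
        · rw [mul_zero]
    rw [hz]
    exact (ratR y (S : Set (ℤ × ℤ))).sub_mem hFmem (CR_mem y _ _)

end Pool.Agent.Y231.N4
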