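import Pool.Agent.Y231.N4.Defs2
import Pool.Agent.H628R4.TP.LocDefs

/-!
# Four variables, the level two: definitions and statements of the parts
-/

set_option autoImplicit false

namespace Pool.Agent.Y231.N4

open MvPolynomial
open Pool.Agent.TH216.MF (Pt Forced SimR)
open Pool.Agent.TH216.LX (Vert)
open Pool.Agent.H628R4.TP (IsLocalBFunction)

variable {r N : ℕ}

/-- the condition on the faces at the level two -/
def HypT (v : Fin r → Fin N → ℕ) : Prop :=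
  ∀ (A : Finset (Fin N)) (Z : Finset (Fin r)), (Pt v A Z).Nonempty →
    (∀ a ∈ Pt v A Z, ∑ i, a i = 2) → (∀ i ∈ A, ∃ j, j ∉ Z ∧ 0 < v j i) →
    Forced v A Z ∨
    (∃ i ∈ A, ∃ j0, v j0 i = 1 ∧ (∀ a ∈ Pt v A Z, a i ≠ 0) ∧
      ∀ j, j ≠ j0 → 0 < v j i → ∀ a ∈ Pt v A Z, ∑ i, a i * (v j i : ℚ) ≠ 1) ∨
    ∃ i ∈ A, ∃ l ∈ A, i ≠ l ∧ ∀ a ∈ Pt v A Z, a i = 1 ∧ a l = 1 ∧ ∀ x, x ≠ i → x ≠ l → a x = 0

/-- the monomials `x_i x_(π i)` are among the `x ^ (v j)`, `π` not a cycle of length four -/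
def Quad (v : Fin r → Fin 4 → ℕ) : Prop :=
  ∃ π : Equiv.Perm (Fin 4), π ^ 6 = 1 ∧
    ∀ i, ∃ j, ∀ x, v j x = (if x = i then 1 else 0) + (if x = π i then 1 else 0)

/-- **Part L2.** The faces at the level two. -/
def StL2 : Prop := ∀ {r : ℕ} (v : Fin r → Fin 4 → ℕ), 0 < r → Vert v → HypT v ∨ Quad v

/-- **Part M1.** Functionals `Λ k g = Λ(g f ^ (α + 1 - k))` give a root. -/
def StM1 : Prop := ∀ {N : ℕ} (f : MvPolynomial (Fin N) ℂ) (α : ℂ)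
  (Λ : ℕ → MvPolynomial (Fin N) ℂ →ₗ[ℂ] ℂ) (K : ℕ → ℕ), f ≠ 0 →
  (∀ k g, (∀ d ∈ g.support, K k ≤ ∑ i, d i) → Λ k g = 0) →
  (∀ k g, Λ (k + 1) (g * f) = Λ k g) →
  (∀ (k : ℕ) i g, Λ (k + 1) (f * pderiv i g + C (α + 1 - k) * (g * pderiv i f)) = 0) →
  (∀ g, Λ 0 g = 0) → Λ 1 1 ≠ 0 → ∀ b : Polynomial ℂ, IsLocalBFunction f b → b.eval α = 0

/-- **Part M2.** The functionals for a nondegenerate critical point in four variables. -/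
def StM2 : Prop := ∀ (f : MvPolynomial (Fin 4) ℂ), constantCoeff f = 0 →
  (∀ i, constantCoeff (pderiv i f) = 0) →
  (Matrix.of fun i k => constantCoeff (pderiv i (pderiv k f))).det ≠ 0 →
  ∃ (Λ : ℕ → MvPolynomial (Fin 4) ℂ →ₗ[ℂ] ℂ) (K : ℕ → ℕ),
    (∀ k g, (∀ d ∈ g.support, K k ≤ ∑ i, d i) → Λ k g = 0) ∧
    (∀ k g, Λ (k + 1) (g * f) = Λ k g) ∧
    (∀ (k : ℕ) i g, Λ (k + 1) (f * pderiv i g + C ((-2 : ℂ) + 1 - k) * (g * pderiv i f)) = 0) ∧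
    (∀ g, Λ 0 g = 0) ∧ Λ 1 1 ≠ 0

/-- **Part G.** Generic coefficients: the Hessian. -/
def StG : Prop := ∀ {r : ℕ} {F : Type} [Field F] [Algebra F ℂ] (v : Fin r → Fin 4 → ℕ),
  Function.Injective v → Quad v → ∀ (h : MvPolynomial (Fin 4) F),
  ∃ g : MvPolynomial (Fin r) F, g ≠ 0 ∧ ∀ c : Fin r → ℂ, aeval c g ≠ 0 →
    (Matrix.of fun i k => constantCoeff (pderiv i (pderiv k
      (∑ j, C (c j) * ∏ x, X x ^ v j x + MvPolynomial.map (algebraMap F ℂ) h)))).det ≠ 0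

end Pool.Agent.Y231.N4
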