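import Pool.Agent.Y231.N4.K3
import Pool.Agent.Y231.N4.L2

/-!
# The recurrences for the other strata
-/

set_option autoImplicit false

namespace Pool.Agent.Y231.N4

open MvPolynomial Filter Pool.Agent.W425.SV
open Pool.Agent.TH216.MF
open Pool.Agent.W426.SM (gord face)

variable {r N : ℕ}

/-- a direction outside `J` -/
lemma mem_dir (q : ℕ) (v : Fin r → Fin N → ℕ) (e : Finset (Fin r) → ℂ) (J : Finset (Fin N))
    (t : Fin r → ℂ) (A : Finset (Fin N))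
    (Z : Finset (Fin r)) (hA : ∀ i, i ∈ A ↔ aeval t (elm q v i) = 0)
    (hZ : ∀ j, j ∈ Z ↔ t j = 1) (x : Fin N) (hx : x ∈ A) (hxJ : x ∉ J)
    (hpos : ∀ a ∈ Pt v A Z, a x ≠ 0) :
    ∃ g : MvPolynomial (Fin r) ℂ, aeval t g ≠ 0 ∧ kE e * wJ q v J * g ∈ I1 q v := by
  classical
  obtain ⟨g, hg, hgI⟩ := out_of q v t A Z hA hZ {x} (Finset.singleton_subset_iff.2 hx) ∅ (by
    rintro ⟨a, ha⟩
    rw [Finset.sdiff_empty] at ha
    refine hpos a ⟨ha.1, fun i' hi' => ha.2.1 i' fun h => hi' (Finset.mem_sdiff.1 h).1,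
      ha.2.2.1, ha.2.2.2⟩ (ha.2.1 x fun h => ?_)
    exact (Finset.mem_sdiff.1 h).2 (Finset.mem_singleton_self x))
  rw [Finset.prod_singleton, Finset.prod_empty, mul_one, mem_col] at hgI
  refine ⟨g, hg, ?_⟩
  have e1 : kE e * wJ q v J * g = (kE e * ((∏ i ∈ Jᶜ.erase x, elm q v i) *
      ∏ i ∈ J, (C ((q : ℂ)⁻¹) * ∏ j, X j ^ v j i))) * (elm q v x * g) := by
    unfold wJ
    rw [← Finset.mul_prod_erase _ _ (Finset.mem_compl.2 hxJ)]
    ring
  rw [e1]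
  exact Ideal.mul_mem_left _ _ hgI

/-- the criterion for the strata `J ≠ univ` -/
theorem crit4J (q : ℕ) (hq : 2 ≤ q) (v : Fin r → Fin N → ℕ) (e : Finset (Fin r) → ℂ)
    (J : Finset (Fin N)) (hJ : J ≠ Finset.univ)
    (he1 : KRelJ q v J e) (T0 : ℂ) (hT0 : T0 ≠ 0) (w0 : Fin r → ℕ)
    (hσ : HypS4 v (Real.log ‖T0‖ / Real.log q)) :
    Crit q v (kE e * wJ q v J) T0 w0 := by
  refine crit_of_loc q hq v _ T0 hT0 w0 fun A Z hne hsum hprem => ?_
  rcases hσ A Z hne hsum hprem with hF | hB | ⟨i, hi, l, hl, hil, hpos, -⟩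
  · exact Or.inl hF
  · right
    intro t hA hZ
    exact local_mem q hq v _ (kern_J hq v J e he1) t A Z hA hZ hne hB
  · right
    intro t hA hZ
    obtain ⟨x, hx⟩ : ∃ x, x ∉ J := by
      by_contra hcon
      push Not at hcon
      exact hJ (Finset.eq_univ_iff_forall.2 hcon)
    obtain ⟨a, ha⟩ := hne
    have hxA : x ∈ A := by
      by_contra h
      exact hpos a ha x (ha.2.1 x h)
    exact mem_dir q v e J t A Z hA hZ x hxA hx fun a ha => hpos a ha x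

/-- the criterion for the strata `J ≠ univ`, level two -/
theorem critTJ (q : ℕ) (hq : 2 ≤ q) {v : Fin r → Fin 4 → ℕ} (e : Finset (Fin r) → ℂ)
    (J : Finset (Fin 4)) (hP : ∀ i ∈ J, ∀ l ∈ J, i ≠ l → ∃ j, v j i = 0 ∧ v j l = 0)
    (he1 : KRelJ q v J e) (T0 : ℂ) (hT0 : T0 ≠ 0) (w0 : Fin r → ℕ)
    (hlog : Real.log ‖T0‖ / Real.log q = 2) (hσ : HypT v) :
    Crit q v (kE e * wJ q v J) T0 w0 := by
  refine crit_of_loc q hq v _ T0 hT0 w0 fun A Z hne hsum hprem => ?_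
  rw [hlog] at hsum
  rcases hσ A Z hne (fun a ha => by exact_mod_cast hsum a ha) hprem with
    hF | hB | ⟨i, hi, l, hl, hil, hT⟩
  · exact Or.inl hF
  · right
    intro t hA hZ
    exact local_mem q hq v _ (kern_J hq v J e he1) t A Z hA hZ hne hB
  · right
    intro t hA hZ
    by_cases hiJ : i ∈ J
    · by_cases hlJ : l ∈ J
      · exfalso
        obtain ⟨j, hj1, hj2⟩ := hP i hiJ l hlJ hil
        obtain ⟨a, ha⟩ := hne
        obtain ⟨-, -, h3⟩ := hT a ha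
        have h4 := ha.2.2.1 j
        have h5 : ∑ x, a x * (v j x : ℚ) = 0 := by
          refine Finset.sum_eq_zero fun x _ => ?_
          by_cases h6 : x = i
          · rw [h6, hj1, Nat.cast_zero, mul_zero]
          · by_cases h7 : x = l
            · rw [h7, hj2, Nat.cast_zero, mul_zero]
            · rw [h3 x h6 h7, zero_mul]
        rw [h5] at h4
        norm_num at h4
      · exact mem_dir q v e J t A Z hA hZ l hl hlJ fun a ha => by
          rw [(hT a ha).2.1]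
          exact one_ne_zero
    · exact mem_dir q v e J t A Z hA hZ i hi hiJ fun a ha => by
        rw [(hT a ha).1]
        exact one_ne_zero

/-- the recurrence from the criterion -/
theorem rec_of_crit (q : ℕ) (hq : 2 ≤ q) (v : Fin r → Fin N → ℕ) (p : Polynomial ℂ)
    (θ : Fin r → ℤ) (hrel : RelG v (Kil1 v) (KilU v θ) p)
    (e : Finset (Fin r) → ℂ) (J : Finset (Fin N))
    (he1 : KRelJ q v J e) (T0 : ℂ) (hT0 : T0 ≠ 0)
    (hp : p.eval ((-Real.log ‖T0‖ / Real.log q : ℝ) : ℂ) ≠ 0)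
    (hc : ∀ w0, Crit q v (kE e * wJ q v J) T0 w0) : RecJ q v e J T0 := by
  have hp0 : p ≠ 0 := by
    rintro rfl
    exact hp Polynomial.eval_zero
  set D : ℤ := ∑ j, |θ j| with hD
  have hθD : ∀ j, 0 ≤ D - θ j := by
    intro j
    have h1 := Finset.single_le_sum (f := fun j => |θ j|) (fun j _ => abs_nonneg _)
      (Finset.mem_univ j)
    have h3 := le_abs_self (θ j)
    have h4 : |θ j| ≤ D := h1
    linarith
  obtain ⟨Q, hQ, hZ⟩ := coreU q hq v p θ D (fun j => (D - θ j).toNat)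
    (fun j => Int.toNat_of_nonneg (hθD j)) hrel _ (kern_J hq v J e he1) T0 hT0 hp0
    (hc _)
  have h0 : p.rootMultiplicity ((-Real.log ‖T0‖ / Real.log q : ℝ) : ℂ) = 0 :=
    Polynomial.rootMultiplicity_eq_zero hp
  have hZ := hZ 1
  rw [h0, pow_zero, mul_one, mul_one] at hZ
  exact ⟨Q, hQ, rec_aJ q hq v e _ Q hZ⟩

/-- the recurrence for the strata `J ≠ univ` -/
theorem recJ4J (q : ℕ) (hq : 2 ≤ q) (v : Fin r → Fin N → ℕ) (p : Polynomial ℂ)
    (θ : Fin r → ℤ) (hrel : RelG v (Kil1 v) (KilU v θ) p)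
    (e : Finset (Fin r) → ℂ) (J : Finset (Fin N)) (hJ : J ≠ Finset.univ)
    (he1 : KRelJ q v J e) (T0 : ℂ) (hT0 : T0 ≠ 0)
    (hp : p.eval ((-Real.log ‖T0‖ / Real.log q : ℝ) : ℂ) ≠ 0)
    (hσ : HypS4 v (Real.log ‖T0‖ / Real.log q)) : RecJ q v e J T0 :=
  rec_of_crit q hq v p θ hrel e J he1 T0 hT0 hp
    fun w0 => crit4J q hq v e J hJ he1 T0 hT0 w0 hσ

/-- the recurrence for the strata `J ≠ univ`, level two -/
theorem recTJ (q : ℕ) (hq : 2 ≤ q) {v : Fin r → Fin 4 → ℕ} (p : Polynomial ℂ)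
    (θ : Fin r → ℤ) (hrel : RelG v (Kil1 v) (KilU v θ) p)
    (e : Finset (Fin r) → ℂ) (J : Finset (Fin 4))
    (hP : ∀ i ∈ J, ∀ l ∈ J, i ≠ l → ∃ j, v j i = 0 ∧ v j l = 0)
    (he1 : KRelJ q v J e) (T0 : ℂ) (hT0 : T0 ≠ 0)
    (hp : p.eval ((-Real.log ‖T0‖ / Real.log q : ℝ) : ℂ) ≠ 0)
    (hlog : Real.log ‖T0‖ / Real.log q = 2) (hσ : HypT v) : RecJ q v e J T0 :=
  rec_of_crit q hq v p θ hrel e J he1 T0 hT0 hp
    fun w0 => critTJ q hq e J hP he1 T0 hT0 w0 hlog hσ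

end Pool.Agent.Y231.N4
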