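import Mathlib

/-!
# Facets of Newton polyhedra in four variables: definitions and statements of the parts

The points are `v j : Fin d → ℕ`, all on a hyperplane `∑ a_i x_i = g` with `a_i > 0`, with
heights `z j`.
-/

set_option autoImplicit false

namespace Pool.Agent.Y231.N4

open Classical in
/-- a negative integer -/
def NegI (x : ℚ) : Prop := ∃ m : ℕ, 0 < m ∧ x = -(m : ℚ)

section
variable {ι : Type} [Fintype ι] {d : ℕ}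

/-- no linear relation between the points in `D` -/
def IndOn (v : ι → Fin d → ℕ) (D : Finset ι) : Prop :=
  ∀ w : ι → ℚ, (∀ j, j ∉ D → w j = 0) → (∀ i, ∑ j, w j * (v j i : ℚ) = 0) → ∀ j, w j = 0

/-- all the points lie on or above the hyperplane through the points in `D` -/
def Low (v : ι → Fin d → ℕ) (z : ι → ℚ) (D : Finset ι) : Prop :=
  ∀ (l : ι) (α : ι → ℚ), (∀ j, j ∉ D → α j = 0) → (∀ i, ∑ j, α j * (v j i : ℚ) = (v l i : ℚ)) →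
    ∑ j, α j * z j ≤ z l

/-- exactly one point in `D` has a nonzero coordinate `i`, and this coordinate is one -/
def B1on (v : ι → Fin d → ℕ) (D : Finset ι) (i : Fin d) : Prop :=
  ∃ j0 ∈ D, v j0 i = 1 ∧ ∀ j ∈ D, j ≠ j0 → v j i = 0

/-- there is a lower simplex which is not B1 -/
def NonBS (v : ι → Fin d → ℕ) (z : ι → ℚ) : Prop :=
  ∃ D : Finset ι, D.card = d ∧ IndOn v D ∧ Low v z D ∧ ∀ i, ¬ B1on v D i

/-- the points are in convex position, on a hyperplane -/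
structure Pos (v : ι → Fin d → ℕ) (z : ι → ℚ) (a : Fin d → ℕ) (g : ℕ) : Prop where
  apos : ∀ i, 0 < a i
  gpos : 0 < g
  hyp : ∀ j, ∑ i, a i * v j i = g
  vert : ∀ j, ¬ ∃ l : ι → ℚ, (∀ k, 0 ≤ l k) ∧ l j = 0 ∧ ∑ k, l k = 1 ∧
    (∀ i, ∑ k, l k * (v k i : ℚ) = (v j i : ℚ)) ∧ ∑ k, l k * z k ≤ z j

open Classical in
/-- A circuit: the lower simplex `D`, the further point `k`, the relation `c` between the points
in `D` and `k`, the solution `s` of `∑ s_j v_j = -1`; `G` is a set of `j` with `c_j < 0` for which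
`k` is the first point on the other side of the wall opposite to `j`. -/
def CircS (v : ι → Fin d → ℕ) (z : ι → ℚ) : Prop :=
  ∃ (D : Finset ι) (k : ι) (s c : ι → ℚ) (G : Finset ι),
    k ∉ D ∧ D.card = d ∧ IndOn v D ∧ Low v z D ∧
    (∀ j, j ∉ D → s j = 0) ∧ (∀ i, ∑ j, s j * (v j i : ℚ) = -1) ∧
    (∀ j, j ∉ D → j ≠ k → c j = 0) ∧ c k = -1 ∧ (∀ i, ∑ j, c j * (v j i : ℚ) = 0) ∧
    (∀ j, NegI (s j) → c j ≠ 0) ∧ (∀ j ∈ G, c j < 0) ∧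
    (Finset.univ.filter fun j => NegI (s j) ∧ j ∉ G).card < (G.filter fun j => s j = 0).card ∧
    ∀ (l : ι) (α : ι → ℚ), (∀ j, j ∉ D → α j = 0) → (∀ i, ∑ j, α j * (v j i : ℚ) = (v l i : ℚ)) →
      ∀ j ∈ G, j ≠ k → α j < 0 →
        (-∑ m, c m * z m) * (-α j) ≤ (z l - ∑ m, α m * z m) * (-c j)

/-- the values in the directions `i`, `l` are `(0, 0)`, `(1, 0)` or `(0, 1)` -/
def B2on (v : ι → Fin d → ℕ) (i l : Fin d) : Prop :=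
  i ≠ l ∧ ∀ j, (v j i = 0 ∧ v j l = 0) ∨ (v j i = 1 ∧ v j l = 0) ∨ (v j i = 0 ∧ v j l = 1)

end

/-! ### Four coordinates, no heights -/

/-- **Part C4.** A plane quadrangle and a further point. -/
def StC4 : Prop := ∀ {ι : Type} [Fintype ι] (v : ι → Fin 4 → ℕ) (a : Fin 4 → ℕ)
  (g : ℕ), Pos v (fun _ => 0) a g → ¬ NonBS v (fun _ => 0) → ¬ CircS v (fun _ => 0) →
  ∀ (c : Fin 4 → ι) (t : ι), Function.Injective c → (∀ x, c x ≠ t) →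
  (∃ y : Fin 4 → ℚ, (∃ x, y x ≠ 0) ∧ ∀ i, ∑ x, y x * (v (c x) i : ℚ) = 0) →
  (∀ (y : Fin 4 → ℚ) (u : ℚ), (∀ i, ∑ x, y x * (v (c x) i : ℚ) + u * (v t i : ℚ) = 0) → u = 0) →
  (∃ i, v t i = 1 ∧ ∀ x, v (c x) i = 0) ∨
  ∃ i l, i ≠ l ∧ v t i = 0 ∧ v t l = 0 ∧
    ∀ x, (v (c x) i = 1 ∧ v (c x) l = 0) ∨ (v (c x) i = 0 ∧ v (c x) l = 1)

/-- **Part C5.** There are no five points in general position. -/
def StC5 : Prop := ∀ {ι : Type} [Fintype ι] (v : ι → Fin 4 → ℕ) (a : Fin 4 → ℕ)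
  (g : ℕ), Pos v (fun _ => 0) a g → ¬ NonBS v (fun _ => 0) → ¬ CircS v (fun _ => 0) →
  ∀ (p : Fin 5 → ι), Function.Injective p →
  (∃ y : Fin 5 → ℚ, (∀ x, y x ≠ 0) ∧ ∀ i, ∑ x, y x * (v (p x) i : ℚ) = 0) →
  (∀ y : Fin 5 → ℚ, (∀ i, ∑ x, y x * (v (p x) i : ℚ) = 0) → (∃ x, y x = 0) → ∀ x, y x = 0) →
  False

/-- **Part CA.** Compact facets. -/
def StCA : Prop := ∀ {ι : Type} [Fintype ι] (v : ι → Fin 4 → ℕ) (a : Fin 4 → ℕ)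
  (g : ℕ), Pos v (fun _ => 0) a g → ¬ NonBS v (fun _ => 0) → ¬ CircS v (fun _ => 0) →
  (∃ D : Finset ι, D.card = 4 ∧ IndOn v D) → ∑ i, a i ≠ 2 * g →
  IndOn v Finset.univ ∨ (∃ i, B1on v Finset.univ i) ∨ ∃ i l, B2on v i l

/-! ### Three coordinates and a height -/

/-- **Part H4.** Two adjacent lower triangles. -/
def StH4 : Prop := ∀ {ι : Type} [Fintype ι] [DecidableEq ι] (v : ι → Fin 3 → ℕ) (z : ι → ℚ)
  (a : Fin 3 → ℕ) (g : ℕ), Pos v z a g → ¬ NonBS v z → ¬ CircS v z → ∑ i, a i ≠ 2 * g →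
  ∀ p q x y : ι, p ≠ q → p ≠ x → p ≠ y → q ≠ x → q ≠ y → x ≠ y →
  IndOn v {p, q, x} → Low v z {p, q, x} → IndOn v {p, q, y} → Low v z {p, q, y} →
  ∀ α β γ : ℚ, γ < 0 →
  (∀ i, (v y i : ℚ) = α * (v p i : ℚ) + β * (v q i : ℚ) + γ * (v x i : ℚ)) →
  ∃ i, (v p i = 1 ∧ v q i = 0 ∧ v x i = 0 ∧ v y i = 0) ∨
    (v p i = 0 ∧ v q i = 1 ∧ v x i = 0 ∧ v y i = 0)

/-- **Part HN.** The neighbour of a lower triangle. -/
def StHN : Prop := ∀ {ι : Type} [Fintype ι] [DecidableEq ι] (v : ι → Fin 3 → ℕ) (z : ι → ℚ)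
  (a : Fin 3 → ℕ) (g : ℕ), Pos v z a g →
  ∀ p q x w : ι, p ≠ q → p ≠ x → q ≠ x → IndOn v {p, q, x} → Low v z {p, q, x} →
  ∀ α β γ : ℚ, γ < 0 →
  (∀ i, (v w i : ℚ) = α * (v p i : ℚ) + β * (v q i : ℚ) + γ * (v x i : ℚ)) →
  ∃ (y : ι) (α' β' γ' : ℚ), γ' < 0 ∧ y ≠ p ∧ y ≠ q ∧ y ≠ x ∧
    (∀ i, (v y i : ℚ) = α' * (v p i : ℚ) + β' * (v q i : ℚ) + γ' * (v x i : ℚ)) ∧
    IndOn v {p, q, y} ∧ Low v z {p, q, y}

/-- **Part HA.** Facets with three coordinates. -/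
def StHA : Prop := ∀ {ι : Type} [Fintype ι] (v : ι → Fin 3 → ℕ) (z : ι → ℚ)
  (a : Fin 3 → ℕ) (g : ℕ), Pos v z a g → ¬ NonBS v z → ¬ CircS v z → ∑ i, a i ≠ 2 * g →
  (∃ D : Finset ι, D.card = 3 ∧ IndOn v D ∧ Low v z D) →
  IndOn v Finset.univ ∨ ∃ i, B1on v Finset.univ i

/-! ### Two coordinates and two heights -/

/-- **Part T.** Facets with two coordinates. The point `j` is `(v j, h j)`. -/
def StT : Prop := ∀ {ι : Type} [Fintype ι] (v h : ι → Fin 2 → ℕ) (a : Fin 2 → ℕ) (g : ℕ),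
  (∀ i, 0 < a i) → 0 < g → (∀ j, ∑ i, a i * v j i = g) →
  (∀ j, ¬ ∃ l : ι → ℚ, (∀ k, 0 ≤ l k) ∧ l j = 0 ∧ ∑ k, l k = 1 ∧
    (∀ i, ∑ k, l k * (v k i : ℚ) = (v j i : ℚ)) ∧ ∀ i, ∑ k, l k * (h k i : ℚ) ≤ (h j i : ℚ)) →
  (∃ j j', v j ≠ v j') →
  ¬ NonBS v (fun j => (h j 0 : ℚ) + (h j 1 : ℚ)) → ∑ i, a i ≠ g → ∑ i, a i ≠ 2 * g →
  IndOn v Finset.univ ∨ (∃ i, B1on v Finset.univ i) ∨
  ∃ (E : Finset ι) (s : ι → ℚ) (u w : Fin 2 → ℚ) (κ : ℚ), (∀ i, 0 < w i) ∧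
    (∀ j, j ∉ E → s j = 0) ∧ (∀ j, ¬ NegI (s j)) ∧ (∀ i, ∑ j, s j * (v j i : ℚ) = -1) ∧
    (∀ c : ι → ℚ, (∀ j, j ∉ E → c j = 0) → (∀ i, ∑ j, c j * (v j i : ℚ) = 0) →
      (∀ i, ∑ j, c j * (h j i : ℚ) = 0) → ∀ j, c j = 0) ∧
    (∀ j ∈ E, ∑ i, (u i * (v j i : ℚ) + w i * (h j i : ℚ)) = κ) ∧
    ∀ j, κ ≤ ∑ i, (u i * (v j i : ℚ) + w i * (h j i : ℚ))

end Pool.Agent.Y231.N4
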