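import Pool.Agent.TH216.LX.N1
import Pool.Agent.TH216.MF.MotA
import Pool.Agent.Y231.N4.Defs

/-!
# Four variables: definitions and statements of the parts, in terms of the Newton polyhedron
-/

set_option autoImplicit false

namespace Pool.Agent.Y231.N4

open Pool.Agent.W425.SV (RelV)
open Pool.Agent.W426.SM (gord face IsRay)
open Pool.Agent.W425.BF (B1)
open Pool.Agent.TH216.MF (Pt Forced SimR)
open Pool.Agent.TH216.LX (Vert)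

variable {r N : ℕ}

/-- the sum of the coordinates `i` with `a i = 0` -/
def htA (v : Fin r → Fin N → ℕ) (a : Fin N → ℕ) (j : Fin r) : ℚ :=
  ∑ i, if a i = 0 then (v j i : ℚ) else 0

open Classical in
/-- A circuit of the lower hull of the facet with the normal vector `a`. -/
def CircP (v : Fin r → Fin N → ℕ) (a : Fin N → ℕ) : Prop :=
  ∃ (D : Finset (Fin r)) (k : Fin r) (s c : Fin r → ℚ) (G : Finset (Fin r)),
    k ∉ D ∧ D.card = (Finset.univ.filter fun i => a i ≠ 0).card ∧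
    (∀ j ∈ D, face v a j) ∧ face v a k ∧
    (∀ w : Fin r → ℚ, (∀ j, j ∉ D → w j = 0) →
      (∀ i, a i ≠ 0 → ∑ j, w j * (v j i : ℚ) = 0) → ∀ j, w j = 0) ∧
    (∀ l, face v a l → ∀ α : Fin r → ℚ, (∀ j, j ∉ D → α j = 0) →
      (∀ i, a i ≠ 0 → ∑ j, α j * (v j i : ℚ) = (v l i : ℚ)) →
      ∑ j, α j * htA v a j ≤ htA v a l) ∧
    (∀ j, j ∉ D → s j = 0) ∧ (∀ i, a i ≠ 0 → ∑ j, s j * (v j i : ℚ) = -1) ∧
    (∀ j, j ∉ D → j ≠ k → c j = 0) ∧ c k = -1 ∧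
    (∀ i, a i ≠ 0 → ∑ j, c j * (v j i : ℚ) = 0) ∧
    (∀ j, NegI (s j) → c j ≠ 0) ∧ (∀ j ∈ G, c j < 0) ∧
    (Finset.univ.filter fun j => NegI (s j) ∧ j ∉ G).card < (G.filter fun j => s j = 0).card ∧
    ∀ l, face v a l → ∀ α : Fin r → ℚ, (∀ j, j ∉ D → α j = 0) →
      (∀ i, a i ≠ 0 → ∑ j, α j * (v j i : ℚ) = (v l i : ℚ)) →
      ∀ j ∈ G, j ≠ k → α j < 0 →
        (-∑ m, c m * htA v a m) * (-α j) ≤ (htA v a l - ∑ m, α m * htA v a m) * (-c j)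

/-- A point: `E` is a set of linearly independent vertices of a lower face, `s` is supported on
`E`, a solution of `∑ s_j v_j = -1`, and no `s_j` is a negative integer. -/
def PntP (v : Fin r → Fin N → ℕ) (a : Fin N → ℕ) : Prop :=
  ∃ (E : Finset (Fin r)) (s : Fin r → ℚ) (w : Fin N → ℚ) (κ : ℚ),
    (∀ j ∈ E, face v a j) ∧ (∀ i, a i = 0 → 0 < w i) ∧
    (∀ j ∈ E, ∑ i, w i * (v j i : ℚ) = κ) ∧ (∀ j, face v a j → κ ≤ ∑ i, w i * (v j i : ℚ)) ∧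
    (∀ c : Fin r → ℚ, (∀ j, j ∉ E → c j = 0) → (∀ i, ∑ j, c j * (v j i : ℚ) = 0) →
      ∀ j, c j = 0) ∧
    (∀ j, j ∉ E → s j = 0) ∧ (∀ i, a i ≠ 0 → ∑ j, s j * (v j i : ℚ) = -1) ∧
    ∀ j, ¬ NegI (s j)

/-- **Part R1.** The root of a circuit. -/
def StR1 : Prop := ∀ {r N : ℕ} (v : Fin r → Fin N → ℕ) (a : Fin N → ℕ), 0 < gord v a →
  CircP v a → ∃ θ : Fin r → ℝ, LinearIndependent ℚ θ ∧
    ∀ p : Polynomial ℂ, RelV v θ True p → p.eval (-(((∑ i, a i : ℕ) : ℂ) / gord v a)) = 0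

/-- **Part R2.** The root of a point. -/
def StR2 : Prop := ∀ {r N : ℕ} (v : Fin r → Fin N → ℕ) (a : Fin N → ℕ), 0 < gord v a →
  PntP v a → ∃ θ : Fin r → ℝ, LinearIndependent ℚ θ ∧
    ∀ p : Polynomial ℂ, RelV v θ True p → p.eval (-(((∑ i, a i : ℕ) : ℂ) / gord v a)) = 0

/-- the facet with the normal vector `a` is compact and B2 in the directions `i`, `l` -/
def B2F (v : Fin r → Fin N → ℕ) (a : Fin N → ℕ) (i l : Fin N) : Prop :=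
  (∀ x, a x ≠ 0) ∧ i ≠ l ∧ ∀ j, face v a j →
    (v j i = 0 ∧ v j l = 0) ∨ (v j i = 1 ∧ v j l = 0) ∨ (v j i = 0 ∧ v j l = 1)

/-- the condition on the faces at the level `σ` -/
def HypS4 (v : Fin r → Fin N → ℕ) (σ : ℝ) : Prop :=
  ∀ (A : Finset (Fin N)) (Z : Finset (Fin r)), (Pt v A Z).Nonempty →
    (∀ a ∈ Pt v A Z, ((∑ i, a i : ℚ) : ℝ) = σ) → (∀ i ∈ A, ∃ j, j ∉ Z ∧ 0 < v j i) →
    Forced v A Z ∨
    (∃ i ∈ A, ∃ j0, v j0 i = 1 ∧ (∀ a ∈ Pt v A Z, a i ≠ 0) ∧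
      ∀ j, j ≠ j0 → 0 < v j i → ∀ a ∈ Pt v A Z, ∑ i, a i * (v j i : ℚ) ≠ 1) ∨
    ∃ i ∈ A, ∃ l ∈ A, i ≠ l ∧ (∀ a ∈ Pt v A Z, ∀ x, a x ≠ 0) ∧
      ∃ S1 S2 : Finset (Fin r),
        (∀ j ∈ S1, v j i = 1 ∧ v j l = 0 ∧ ∀ a ∈ Pt v A Z, ∑ x, a x * (v j x : ℚ) = 1) ∧
        (∀ j ∈ S2, v j i = 0 ∧ v j l = 1 ∧ ∀ a ∈ Pt v A Z, ∑ x, a x * (v j x : ℚ) = 1) ∧
        ∀ j, j ∉ S1 → j ∉ S2 → (v j i ≠ 0 ∨ v j l ≠ 0) →
          ∀ a ∈ Pt v A Z, ∑ x, a x * (v j x : ℚ) ≠ 1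

/-- **Part AZ.** From the facets to all faces, four variables. -/
def StAZ : Prop := ∀ {r : ℕ} (v : Fin r → Fin 4 → ℕ), 0 < r → Vert v → ∀ σ : ℝ, σ ≠ 1 → σ ≠ 2 →
  (∀ a : Fin 4 → ℕ, IsRay v a → 0 < gord v a → ((∑ i, a i : ℕ) : ℝ) / gord v a = σ →
    SimR v a ∨ (∃ i, B1 v i a) ∨ ∃ i l, B2F v a i l) → HypS4 v σ

/-- **Part FAC.** The facets in four variables. -/
def StFac : Prop := ∀ {r : ℕ} (v : Fin r → Fin 4 → ℕ), 0 < r → Vert v → ∀ a : Fin 4 → ℕ,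
  IsRay v a → 0 < gord v a → ∑ i, a i ≠ gord v a → ∑ i, a i ≠ 2 * gord v a →
  Pool.Agent.W425.MM.NonB v True a ∨ CircP v a ∨ PntP v a ∨ SimR v a ∨ (∃ i, B1 v i a) ∨
    ∃ i l, B2F v a i l

end Pool.Agent.Y231.N4
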