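import Pool.Agent.Y231.N4.F1

/-!
# Exponents which are not vertices, the strata `J ≠ univ`
-/

set_option autoImplicit false

namespace Pool.Agent.Y231.N4

open Pool.Agent.TH216.MF
open Pool.Agent.TH216.LX
open Pool.Agent.W426.SM (gord)

variable {r s N : ℕ}

/-- the projection of `w` to the coordinates in `J` is a convex combination of the projections of
the points in `τ` -/
def InJ (v : Fin r → Fin N → ℕ) (J : Finset (Fin N)) (τ : Finset (Fin r)) (w : Fin N → ℕ) : Prop :=
  ∃ l : Fin r → ℝ, (∀ j, 0 ≤ l j) ∧ (∀ j, j ∉ τ → l j = 0) ∧ ∑ j, l j = 1 ∧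
    ∀ i ∈ J, ∑ j, l j * (v j i : ℝ) = (w i : ℝ)

open Classical in
/-- the exponents over the convex hull of `τ` -/
noncomputable def PhiJ (v : Fin r → Fin N → ℕ) (w : Fin s → Fin N → ℕ) (J : Finset (Fin N))
    (τ : Finset (Fin r)) : Finset (Fin (r + s)) :=
  Finset.univ.filter fun j => Fin.addCases (motive := fun _ => Prop) (fun j' => j' ∈ τ)
    (fun l => InJ v J τ (w l)) j

lemma phiJ_left (v : Fin r → Fin N → ℕ) (w : Fin s → Fin N → ℕ) (J : Finset (Fin N))
    (τ : Finset (Fin r)) (j : Fin r) : Fin.castAdd s j ∈ PhiJ v w J τ ↔ j ∈ τ := by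
  classical
  unfold PhiJ
  rw [Finset.mem_filter, Fin.addCases_left]
  simp

lemma phiJ_right (v : Fin r → Fin N → ℕ) (w : Fin s → Fin N → ℕ) (J : Finset (Fin N))
    (τ : Finset (Fin r)) (l : Fin s) : Fin.natAdd r l ∈ PhiJ v w J τ ↔ InJ v J τ (w l) := by
  classical
  unfold PhiJ
  rw [Finset.mem_filter, Fin.addCases_right]
  simp

lemma inJ_insert {v : Fin r → Fin N → ℕ} {J : Finset (Fin N)} {i : Fin N} (hi : i ∈ J)
    {j0 : Fin r} {τ : Finset (Fin r)} (hj0 : v j0 i = 1) (hτ : ∀ j ∈ τ, v j i = 0)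
    {w : Fin N → ℕ} (hsep : ∃ x ∈ J, w x ≠ v j0 x) :
    InJ v J (insert j0 τ) w ↔ InJ v J τ w := by
  classical
  constructor
  · rintro ⟨l, h1, h2, h3, h4⟩
    have h5 : l j0 = (w i : ℝ) := by
      rw [← h4 i hi, Finset.sum_eq_single j0]
      · rw [hj0, Nat.cast_one, mul_one]
      · intro j' _ hj'
        by_cases hJ' : j' ∈ τ
        · rw [hτ j' hJ', Nat.cast_zero, mul_zero]
        · rw [h2 j' (by
            rw [Finset.mem_insert, not_or]
            exact ⟨hj', hJ'⟩), zero_mul]
      · simp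
    have h6 : l j0 ≤ 1 := by
      rw [← h3]
      exact Finset.single_le_sum (fun j _ => h1 j) (Finset.mem_univ j0)
    rw [h5] at h6
    have h7 : w i ≤ 1 := by exact_mod_cast h6
    rcases Nat.le_one_iff_eq_zero_or_eq_one.1 h7 with h8 | h8
    · refine ⟨l, h1, fun j' hj' => ?_, h3, h4⟩
      by_cases h9 : j' = j0
      · rw [h9, h5, h8, Nat.cast_zero]
      · exact h2 j' (by
          rw [Finset.mem_insert, not_or]
          exact ⟨h9, hj'⟩)
    · exfalso
      rw [h8, Nat.cast_one] at h5
      have h9 : ∀ j', j' ≠ j0 → l j' = 0 := by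
        intro j' hj'
        have h10 := h3
        rw [← Finset.add_sum_erase _ _ (Finset.mem_univ j0), h5] at h10
        have h11 : ∑ x ∈ Finset.univ.erase j0, l x = 0 := by linarith
        exact (Finset.sum_eq_zero_iff_of_nonneg fun x _ => h1 x).1 h11 j'
          (Finset.mem_erase.2 ⟨hj', Finset.mem_univ _⟩)
      obtain ⟨x, hx, hwx⟩ := hsep
      apply hwx
      have h10 := h4 x hx
      rw [Finset.sum_eq_single j0 (fun j' _ hj' => by rw [h9 j' hj', zero_mul]) (by simp), h5,
        one_mul] at h10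
      exact_mod_cast h10.symm
  · rintro ⟨l, h1, h2, h3, h4⟩
    exact ⟨l, h1, fun j hj => h2 j fun h => hj (Finset.mem_insert_of_mem h), h3, h4⟩

/-- the relations -/
lemma krelJ_phiJ (v : Fin r → Fin N → ℕ) (w : Fin s → Fin N → ℕ) (J : Finset (Fin N))
    (hsep : ∀ l j, ∀ i ∈ J, v j i = 1 → ∃ x ∈ J, w l x ≠ v j x) (q : ℕ)
    (e : Finset (Fin (r + s)) → ℂ) (h : KRelJ q (Fin.append v w) J e) :
    KRelJ q v J (fun τ => e (PhiJ v w J τ)) := by
  classical
  intro i hi j0 τ hj0 hτ
  have h1 : PhiJ v w J (insert j0 τ) = insert (Fin.castAdd s j0) (PhiJ v w J τ) := by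
    ext j
    refine Fin.addCases (fun j => ?_) (fun l => ?_) j
    · rw [phiJ_left, Finset.mem_insert, Finset.mem_insert, phiJ_left]
      constructor
      · rintro (h2 | h2)
        · exact Or.inl (by rw [h2])
        · exact Or.inr h2
      · rintro (h2 | h2)
        · exact Or.inl (Fin.castAdd_injective r s h2)
        · exact Or.inr h2
    · rw [phiJ_right, Finset.mem_insert, phiJ_right, inJ_insert hi hj0 hτ (hsep l j0 i hi hj0)]
      constructor
      · exact Or.inr
      · rintro (h2 | h2)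
        · exfalso
          have h3 := congrArg Fin.val h2
          simp only [Fin.val_natAdd, Fin.val_castAdd] at h3
          have := j0.isLt
          omega
        · exact h2
  simp only [h1]
  refine h i hi (Fin.castAdd s j0) (PhiJ v w J τ) (by rw [Fin.append_left]; exact hj0)
    fun j => ?_
  refine Fin.addCases (fun j hj => ?_) (fun l hl => ?_) j
  · rw [phiJ_left] at hj
    rw [Fin.append_left]
    exact hτ j hj
  · rw [phiJ_right] at hl
    rw [Fin.append_right]
    obtain ⟨c, h2, h3, h4, h5⟩ := hl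
    have h6 : (w l i : ℝ) = 0 := by
      rw [← h5 i hi]
      refine Finset.sum_eq_zero fun j' _ => ?_
      by_cases hj' : j' ∈ τ
      · rw [hτ j' hj', Nat.cast_zero, mul_zero]
      · rw [h3 j' hj', zero_mul]
    exact_mod_cast h6

/-- the coefficients -/
lemma aJ_phiJ (v : Fin r → Fin N → ℕ) (w : Fin s → Fin N → ℕ) (J : Finset (Fin N))
    (hb : ∀ l, InN v Finset.univ (w l)) (q : ℕ) (e : Finset (Fin (r + s)) → ℂ) (t : ℤ) :
    aJ q v (fun τ => e (PhiJ v w J τ)) J t = aJ q (Fin.append v w) e J t := by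
  classical
  unfold aJ
  refine tsum_congr fun x => ?_
  by_cases hxJ : ∀ i, x i ≠ 0 ↔ i ∈ J
  swap
  · rw [if_neg hxJ, if_neg hxJ]
  rw [if_pos hxJ, if_pos hxJ]
  congr 1
  have hpair : ∀ c : Fin r → ℝ, ∑ j, c j * ((∑ i, x i * v j i : ℕ) : ℝ) =
      ∑ i, (x i : ℝ) * ∑ j, c j * (v j i : ℝ) := fun c => inN_pair v c x
  have hle : (∀ j, t ≤ ((∑ i, x i * v j i : ℕ) : ℤ)) → ∀ l,
      t ≤ ((∑ i, x i * w l i : ℕ) : ℤ) := by
    intro h l
    obtain ⟨c, h1, h2, h3, -⟩ := hb l
    have h4 : (t : ℝ) ≤ ((∑ i, x i * w l i : ℕ) : ℝ) := by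
      calc (t : ℝ) = ∑ j, c j * (t : ℝ) := by rw [← Finset.sum_mul, h2, one_mul]
        _ ≤ ∑ j, c j * ((∑ i, x i * v j i : ℕ) : ℝ) := by
            refine Finset.sum_le_sum fun j _ => mul_le_mul_of_nonneg_left ?_ (h1 j)
            exact_mod_cast h j
        _ = ∑ i, (x i : ℝ) * ∑ j, c j * (v j i : ℝ) := hpair c
        _ ≤ ∑ i, (x i : ℝ) * (w l i : ℝ) := Finset.sum_le_sum fun i _ =>
            mul_le_mul_of_nonneg_left (h3 i) (by positivity)
        _ = ((∑ i, x i * w l i : ℕ) : ℝ) := by push_cast; rfl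
    exact_mod_cast h4
  unfold Wt
  by_cases h : ∀ j, t ≤ ((∑ i, x i * v j i : ℕ) : ℤ)
  swap
  · rw [if_neg h, if_neg]
    intro h'
    apply h
    intro j
    have := h' (Fin.castAdd s j)
    rw [Fin.append_left] at this
    exact this
  rw [if_pos h, if_pos]
  swap
  · intro j
    refine Fin.addCases (fun j => ?_) (fun l => ?_) j
    · rw [Fin.append_left]
      exact h j
    · rw [Fin.append_right]
      exact hle h l
  beta_reduce
  congr 1
  ext j
  refine Fin.addCases (fun j => ?_) (fun l => ?_) j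
  · rw [phiJ_left, Finset.mem_filter, Finset.mem_filter, Fin.append_left]
    simp
  · rw [phiJ_right, Finset.mem_filter, Fin.append_right]
    simp only [Finset.mem_univ, true_and]
    constructor
    · rintro ⟨c, h1, h2, h3, h4⟩
      have h5 : ((∑ i, x i * w l i : ℕ) : ℝ) = (t : ℝ) := by
        calc ((∑ i, x i * w l i : ℕ) : ℝ) = ∑ i, (x i : ℝ) * (w l i : ℝ) := by push_cast; rfl
          _ = ∑ i, (x i : ℝ) * ∑ j, c j * (v j i : ℝ) := by
              refine Finset.sum_congr rfl fun i _ => ?_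
              by_cases hi : i ∈ J
              · rw [h4 i hi]
              · have : x i = 0 := by
                  by_contra h6
                  exact hi ((hxJ i).1 h6)
                rw [this, Nat.cast_zero, zero_mul, zero_mul]
          _ = ∑ j, c j * ((∑ i, x i * v j i : ℕ) : ℝ) := (hpair c).symm
          _ = ∑ j, c j * (t : ℝ) := by
              refine Finset.sum_congr rfl fun j _ => ?_
              by_cases hj : j ∈ (Finset.univ.filter fun j : Fin r =>
                ((∑ i, x i * v j i : ℕ) : ℤ) = t)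
              · have h6 := (Finset.mem_filter.1 hj).2
                have h7 : ((∑ i, x i * v j i : ℕ) : ℝ) = (t : ℝ) := by exact_mod_cast h6
                rw [h7]
              · rw [h2 j hj, zero_mul, zero_mul]
          _ = (t : ℝ) := by rw [← Finset.sum_mul, h3, one_mul]
      exact_mod_cast h5
    · intro hl
      obtain ⟨c, h1, h2, h3, -⟩ := hb l
      have hl' : ((∑ i, x i * w l i : ℕ) : ℝ) = (t : ℝ) := by exact_mod_cast hl
      have e1 : (t : ℝ) = ∑ j, c j * (t : ℝ) := by rw [← Finset.sum_mul, h2, one_mul]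
      have e2 : ∑ j, c j * (t : ℝ) ≤ ∑ j, c j * ((∑ i, x i * v j i : ℕ) : ℝ) := by
        refine Finset.sum_le_sum fun j _ => mul_le_mul_of_nonneg_left ?_ (h1 j)
        exact_mod_cast h j
      have e3 : ∑ i, (x i : ℝ) * ∑ j, c j * (v j i : ℝ) ≤ ∑ i, (x i : ℝ) * (w l i : ℝ) :=
        Finset.sum_le_sum fun i _ => mul_le_mul_of_nonneg_left (h3 i) (by positivity)
      have e4 : ∑ i, (x i : ℝ) * (w l i : ℝ) = (t : ℝ) := by
        rw [← hl']
        push_cast
        rfl
      rw [hpair c] at e2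
      have e5 : ∑ j, c j * (((∑ i, x i * v j i : ℕ) : ℝ) - (t : ℝ)) = 0 := by
        simp only [mul_sub]
        rw [Finset.sum_sub_distrib, hpair c, ← e1]
        linarith
      have e6 : ∑ i, (x i : ℝ) * ((w l i : ℝ) - ∑ j, c j * (v j i : ℝ)) = 0 := by
        simp only [mul_sub]
        rw [Finset.sum_sub_distrib, e4]
        linarith
      refine ⟨c, h1, fun j hj => ?_, h2, fun i hi => ?_⟩
      · have h7 := (Finset.sum_eq_zero_iff_of_nonneg fun j _ => mul_nonneg (h1 j) (by
          rw [sub_nonneg]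
          exact_mod_cast h j)).1 e5 j (Finset.mem_univ j)
        rcases mul_eq_zero.1 h7 with h8 | h8
        · exact h8
        · exfalso
          apply hj
          rw [Finset.mem_filter]
          refine ⟨Finset.mem_univ j, ?_⟩
          rw [sub_eq_zero] at h8
          exact_mod_cast h8
      · have h7 := (Finset.sum_eq_zero_iff_of_nonneg fun i _ => mul_nonneg (by positivity)
          (sub_nonneg.2 (h3 i))).1 e6 i (Finset.mem_univ i)
        rcases mul_eq_zero.1 h7 with h8 | h8
        · exfalso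
          exact (hxJ i).2 hi (by exact_mod_cast h8)
        · linarith

end Pool.Agent.Y231.N4
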