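import Pool.Agent.Y231.N4.F6
import Pool.Agent.Y231.N4.M5
import Pool.Agent.Y231.N4.K4
import Pool.Agent.Y231.N4.PJ

/-!
# Four variables: all points, and the equivariant version; the rings
-/

set_option autoImplicit false

namespace Pool.Agent.Y231.N4

open MvPolynomial Filter Pool.Agent.H628R4.TP Pool.Agent.W425.MM Pool.Agent.W425.GN
open Pool.Agent.W425.ND (spa)
open Pool.Agent.W426.SM (gord IsRay face)
open Pool.Agent.W425.BF (B1 BD shf shf_eval shf_ne hz hz_support hz_eq cof spa_add)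
open Pool.Agent.W425.SV (NP RelV Kil1)
open Pool.Agent.TH216.MF
open Pool.Agent.TH216.LX
open Pool.Agent.TH216.MC (pos_of_ray rootsL hpl_nonB)
open Pool.Agent.W428.MOT (Pt Constr ratRing sp Lu MK EMeas)
open Pool.Agent.W375.MG (zetaG Good)

variable {r : ℕ}

/-- the condition on the other exponents -/
def GlobOK (v : Fin r → Fin 4 → ℕ) {F : Type} [Field F] (h : MvPolynomial (Fin 4) F) : Prop :=
  ∀ J : Finset (Fin 4), J ≠ Finset.univ → (∃ j, ∀ i ∈ J, v j i = 0) ∨
    ∀ w ∈ h.support, (∀ j, ¬ ∀ x, w x = v j x) → ∀ j, ∀ i ∈ J, v j i = 1 → ∃ x ∈ J, w x ≠ v j x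

/-- the polynomial does not vanish on a coordinate subspace of codimension two -/
def NoP2 (v : Fin r → Fin 4 → ℕ) : Prop := ∀ i l, i ≠ l → ∃ j, v j i = 0 ∧ v j l = 0

/-- the recurrences at the bad levels for the strata `J ≠ univ` -/
theorem hb_J {F : Type} [Field F] (v : Fin r → Fin 4 → ℕ)
    (h : MvPolynomial (Fin 4) F) (hr : 0 < r)
    (hh : ∀ w ∈ h.support, InN v Finset.univ (fun i => w i))
    (hvh : ∀ w ∈ h.support, ∀ j, ¬ ∀ x, w x = v j x) (hG : GlobOK v h) (P : ℚ → Prop)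
    (hP : ∀ α, ¬ P α → ∃ (θ : Fin r → ℤ) (p : Polynomial ℂ),
      RelG v (Kil1 v) (KilU v θ) p ∧ p.eval (α : ℂ) ≠ 0) (J : Finset (Fin 4))
    (hJ : J ≠ Finset.univ)
    (q : ℕ) (hq : 2 ≤ q)
    (e : Finset (Fin (r + h.support.card)) → ℂ)
    (he : KRelJ q (Fin.append v (we h)) J e)
    (T0 : ℂ) (hT0 : T0 ≠ 0) (σ : ℚ)
    (hσ : HypL v σ ∧ ¬ P (-σ)) (h2 : σ = 2 → NoP2 v)
    (hlog : Real.log ‖T0‖ / Real.log q = (σ : ℝ)) :
    RecJ q (Fin.append v (we h)) e J T0 := by
  classical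
  rcases hG J hJ with ⟨j, hj⟩ | hsep
  · exact rec_zero (by omega) q hq _ e J T0 ⟨Fin.castAdd _ j, fun i hi => by
      rw [Fin.append_left]
      exact hj i hi⟩
  obtain ⟨hL, hPσ⟩ := hσ
  obtain ⟨θ, p, hrel, hp⟩ := hP _ hPσ
  have h1 : ((-Real.log ‖T0‖ / Real.log q : ℝ) : ℂ) = ((-σ : ℚ) : ℂ) := by
    rw [neg_div, hlog]
    push_cast
    rfl
  have he1 : KRelJ q v J (fun τ => e (PhiJ v (we h) J τ)) := by
    refine krelJ_phiJ v (we h) J (fun l j i hi hji => ?_) q e he
    exact hsep _ (h.support.equivFin.symm l).2 (hvh _ (h.support.equivFin.symm l).2) j i hi hji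
  have hrec : RecJ q v (fun τ => e (PhiJ v (we h) J τ)) J T0 := by
    rcases hL with hL | ⟨hσ2, hT⟩
    · exact recJ4J q hq v p θ hrel _ J hJ he1 T0 hT0 (by rw [h1]; exact hp)
        (by rw [hlog]; exact hL)
    · refine recTJ q hq p θ hrel _ J (fun i _ l _ hil => h2 hσ2 i l hil) he1 T0 hT0
        (by rw [h1]; exact hp) ?_ hT
      rw [hlog, hσ2]
      norm_num
  obtain ⟨Q, hQ, hrec⟩ := hrec
  refine ⟨Q, hQ, ?_⟩
  filter_upwards [hrec] with t ht
  rw [← ht]
  refine Finset.sum_congr rfl fun m _ => ?_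
  rw [aJ_phiJ v (we h) J (fun l => hh _ (h.support.equivFin.symm l).2)]

/-- the rings, for all the coefficients -/
theorem base7 (hr : 0 < r) {F : Type} [Field F] (v : Fin r → Fin 4 → ℕ) (hV : Vert v)
    (hv : Function.Injective v) (hv0 : ∀ j, v j ≠ 0) (h : MvPolynomial (Fin 4) F)
    (hh : ∀ w ∈ h.support, InN v Finset.univ (fun i => w i))
    (hvh : ∀ w ∈ h.support, ∀ j, ¬ ∀ x, w x = v j x) (P : ℚ → Prop)
    (hP : ∀ α, ¬ P α → ∃ (θ : Fin r → ℤ) (p : Polynomial ℂ),
      RelG v (Kil1 v) (KilU v θ) p ∧ p.eval (α : ℂ) ≠ 0)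
    (Gl E2 : Prop) (hGl : Gl → GlobOK v h) (hE2 : Gl → ¬ E2 → NoP2 v) :
    ∃ S : Finset (ℤ × ℤ),
      (∀ p ∈ S, p = (-1, 1) ∨ ∃ a : Fin 4 → ℕ, IsRay v a ∧ 0 < gord v a ∧
        (HypL v (((∑ i, a i : ℕ) : ℚ) / gord v a) →
          (E2 → ((∑ i, a i : ℕ) : ℚ) / gord v a ≠ 2) →
          P (-(((∑ i, a i : ℕ) : ℚ) / gord v a))) ∧
        p = (-((∑ i, a i : ℕ) : ℤ), (gord v a : ℤ))) ∧
      ∀ (k : Type) [Field k] [Algebra F k] [Algebra k ℂ] (c : Fin r → k), (∀ j, c j ≠ 0) →
        NonD (Fin.append v (we h)) (fun j => algebraMap k ℂ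
          (Fin.append c (fun l => algebraMap F k (wc h l)) j)) →
        (∀ (K : Type) [Field K] [Algebra k K] (W : Set (Pt K (Fin 4)))
          (E : Set (AlgebraicClosure K)), Constr W → Good E →
          ((∀ z ∈ W, ∀ i, z i = 0) ∨ Gl) →
          zetaG (spa v (fun j => algebraMap k K (c j)) +
            MvPolynomial.map ((algebraMap k K).comp (algebraMap F k)) h) W E ∈
              ratRing K S) ∧
        (∀ f : MvPolynomial (Fin 4) k, f = spa v c + MvPolynomial.map (algebraMap F k) h →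
          ∀ (R : Type) [CommRing R] (y : Rˣ) (M : EMeas f R), M.L = (y : R) →
          (OrigM M ∨ Gl) → serM M y ∈ ratR y (S : Set (ℤ × ℤ))) := by
  classical
  have hray := pRAY v (we h) hr (we_np v h fun w hw => inN_np (hh w hw))
  obtain ⟨S, hS, hz1, hz2⟩ := fin4G (Fin.append v (we h)) (append_inj v hv h hvh) (by omega)
    (fun σ => HypL v σ ∧ ¬ P (-σ) ∧ (E2 → σ ≠ 2)) Gl
    (fun q hq e he he' T0 hT0 σ hσ hlog => hb_5 hr v hV hv h hh hvh P hP q hq e he he' T0
      hT0 σ ⟨hσ.1, hσ.2.1⟩ hlog)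
    (fun hG J hJ q hq e he T0 hT0 σ hσ hlog => hb_J v h hr hh hvh (hGl hG) P hP J hJ q hq e he
      T0 hT0 σ ⟨hσ.1, hσ.2.1⟩ (fun h2 => hE2 hG fun hE => hσ.2.2 hE h2) hlog)
  refine ⟨S, fun p hp => ?_, fun k _ _ _ c hc hnk => ⟨?_, ?_⟩⟩
  · rcases hS p hp with h1 | ⟨a, ha, hg, hn, h1⟩
    · exact Or.inl h1
    right
    obtain ⟨hga, hra⟩ := hray a
    rw [hga] at hg hn h1
    refine ⟨a, hra ha, hg, fun hL hE => ?_, h1⟩
    by_contra hcon
    exact hn ⟨hL, hcon, hE⟩
  · intro K _ _ W E hW hE hWD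
    have hK : CharZero K := by
      have hkc : CharZero k := RingHom.charZero (algebraMap k ℂ)
      exact charZero_of_injective_algebraMap (algebraMap k K).injective
    rw [sp_eq]
    refine hz1 K _ (nonG_of_nonD _ _ ?_) (fun j => ?_) W E hW hE hWD
    · have h4 := nonD_ext (k := k) (L := AlgebraicClosure K) _ _ hnk
      have h5 : (fun j => algebraMap K (AlgebraicClosure K)
          (Fin.append (fun j => algebraMap k K (c j))
            (fun l => (algebraMap k K).comp (algebraMap F k) (wc h l)) j)) =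
          fun j => algebraMap k (AlgebraicClosure K)
            (Fin.append c (fun l => algebraMap F k (wc h l)) j) := by
        rw [append_map, append_map]
        congr 1
      rw [h5]
      exact h4
    · refine Fin.addCases (fun j => ?_) (fun l => ?_) j
      · rw [Fin.append_left]
        exact (map_ne_zero _).2 (hc j)
      · rw [Fin.append_right]
        exact (map_ne_zero _).2 (mem_support_iff.1 (h.support.equivFin.symm l).2)
  · intro f hf R _ y M hML hOG
    have hkc : CharZero k := RingHom.charZero (algebraMap k ℂ)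
    rw [sp_eq] at hf
    subst hf
    refine hz2 k _ (nonG_of_nonD _ _ ?_) (fun j => ?_) ?_ R y M hML hOG
    · exact nonD_ext (k := k) (L := AlgebraicClosure k) _ _ hnk
    · refine Fin.addCases (fun j => ?_) (fun l => ?_) j
      · rw [Fin.append_left]
        exact hc j
      · rw [Fin.append_right]
        exact (map_ne_zero _).2 (mem_support_iff.1 (h.support.equivFin.symm l).2)
    · intro u hu
      rw [(hray u).1]
      obtain ⟨j, hj⟩ := Pool.Agent.W803.SM.exists_gord hr v u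
      rw [← hj]
      obtain ⟨i, hi⟩ : ∃ i, v j i ≠ 0 := by
        by_contra hcon
        push Not at hcon
        exact hv0 j (funext hcon)
      refine lt_of_lt_of_le ?_ (Finset.single_le_sum (f := fun i => u i * v j i)
        (fun _ _ => Nat.zero_le _) (Finset.mem_univ i))
      exact Nat.mul_pos (Nat.pos_of_ne_zero ((hu i).2 (Finset.mem_univ i)))
        (Nat.pos_of_ne_zero hi)

end Pool.Agent.Y231.N4
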