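import Pool.Agent.Y231.N4.F4

/-!
# Four variables: generic coefficients, at the origin, all levels
-/

set_option autoImplicit false

namespace Pool.Agent.Y231.N4

open MvPolynomial Filter Pool.Agent.H628R4.TP Pool.Agent.W425.MM Pool.Agent.W425.GN
open Pool.Agent.W425.ND (spa)
open Pool.Agent.W426.SM (gord IsRay face)
open Pool.Agent.W425.BF (B1 BD shf shf_eval shf_ne hz hz_support hz_eq cof spa_add)
open Pool.Agent.W425.SV (NP RelV Kil1)
open Pool.Agent.TH216.MF
open Pool.Agent.TH216.LX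
open Pool.Agent.TH216.MC (pos_of_ray rootsL hpl_nonB)
open Pool.Agent.W428.MOT (Pt Constr ratRing sp Lu MK)
open Pool.Agent.W375.MG (zetaG Good)

variable {r N : ℕ}

/-- the root of a nondegenerate critical point -/
theorem morse_root (hM1 : StM1) (hM2 : StM2) (f : MvPolynomial (Fin 4) ℂ)
    (h0 : constantCoeff f = 0) (h1 : ∀ i, constantCoeff (pderiv i f) = 0)
    (h2 : (Matrix.of fun i k => constantCoeff (pderiv i (pderiv k f))).det ≠ 0)
    (b : Polynomial ℂ) (hb : IsLocalBFunction f b) : b.eval (-2) = 0 := by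
  obtain ⟨Λ, K, g1, g2, g3, g4, g5⟩ := hM2 f h0 h1 h2
  refine hM1 f (-2) Λ K ?_ g1 g2 g3 g4 g5 b hb
  rintro rfl
  apply h2
  have e : (Matrix.of fun i k : Fin 4 => constantCoeff (pderiv i (pderiv k
      (0 : MvPolynomial (Fin 4) ℂ)))) = 0 := by
    ext i k
    simp
  rw [e]
  exact Matrix.det_zero

/-- the vertices have degree at least two -/
lemma quad_deg {v : Fin r → Fin 4 → ℕ} (hV : Vert v) (hQ : Quad v) (j : Fin r) :
    2 ≤ ∑ x, v j x := by
  obtain ⟨π, -, hπ⟩ := hQ
  by_contra hj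
  have hex : ∃ k, k ≠ j ∧ ∀ x, v j x ≤ v k x := by
    by_cases h0 : ∀ x, v j x = 0
    · obtain ⟨k, hk⟩ := hπ 0
      refine ⟨k, ?_, fun x => by rw [h0 x]; exact Nat.zero_le _⟩
      rintro rfl
      have := hk 0
      rw [h0 0, if_pos rfl] at this
      omega
    · push Not at h0
      obtain ⟨m, hm⟩ := h0
      obtain ⟨k, hk⟩ := hπ m
      have hkm : 1 ≤ v k m := by
        rw [hk m, if_pos rfl]
        omega
      have h5 := Finset.single_le_sum (f := fun x => v j x) (fun _ _ => Nat.zero_le _)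
        (Finset.mem_univ m)
      have h6 : v j m ≤ ∑ x, v j x := h5
      have hothers : ∀ x, x ≠ m → v j x = 0 := by
        intro x hx
        have h5 : v j m + v j x ≤ ∑ y, v j y := by
          rw [← Finset.sum_pair (Ne.symm hx)]
          exact Finset.sum_le_sum_of_subset (Finset.subset_univ _)
        omega
      refine ⟨k, ?_, fun x => ?_⟩
      · rintro rfl
        have h7 : ∑ x, v k x = 2 := by
          rw [Finset.sum_congr rfl fun x _ => hk x, Finset.sum_add_distrib]
          simp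
        omega
      · by_cases hx : x = m
        · subst hx
          omega
        · rw [hothers x hx]
          exact Nat.zero_le _
  obtain ⟨k, hkj, hk⟩ := hex
  exact vert2 hV hkj hk

/-- the points of the Newton polyhedron have degree at least two -/
lemma inN_deg {v : Fin r → Fin 4 → ℕ} (hd : ∀ j, 2 ≤ ∑ x, v j x) {w : Fin 4 → ℕ}
    (hw : InN v Finset.univ w) : 2 ≤ ∑ x, w x := by
  obtain ⟨l, h1, h2, h3, -⟩ := hw
  have h4 : (2 : ℝ) ≤ ∑ x, (w x : ℝ) := by
    calc (2 : ℝ) = ∑ j, l j * 2 := by rw [← Finset.sum_mul, h2, one_mul]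
      _ ≤ ∑ j, l j * ∑ x, (v j x : ℝ) := by
          refine Finset.sum_le_sum fun j _ => mul_le_mul_of_nonneg_left ?_ (h1 j)
          exact_mod_cast hd j
      _ = ∑ x, ∑ j, l j * (v j x : ℝ) := by
          simp only [Finset.mul_sum]
          rw [Finset.sum_comm]
      _ ≤ ∑ x, (w x : ℝ) := Finset.sum_le_sum fun x _ => h3 x
  exact_mod_cast h4

/-- a polynomial whose monomials have degree at least two -/
lemma low_zero {f : MvPolynomial (Fin 4) ℂ} (hf : ∀ d ∈ f.support, 2 ≤ ∑ x, d x) :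
    constantCoeff f = 0 ∧ ∀ i, constantCoeff (pderiv i f) = 0 := by
  classical
  refine ⟨?_, fun i => ?_⟩
  · rw [constantCoeff_eq]
    by_contra h
    have h1 := hf 0 (mem_support_iff.2 h)
    simp at h1
  · have h1 : pderiv i f = ∑ d ∈ f.support, pderiv i (monomial d (coeff d f)) := by
      conv_lhs => rw [f.as_sum]
      rw [map_sum]
    rw [h1, map_sum]
    refine Finset.sum_eq_zero fun d hd => ?_
    rw [pderiv_monomial, constantCoeff_monomial]
    split_ifs with h2
    · by_cases hdi : d i = 0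
      · rw [hdi]
        simp
      · exfalso
        have h3 := hf d hd
        -- `d = e_i`
        have h4 : ∀ x, x ≠ i → d x = 0 := by
          intro x hx
          have h5 := DFunLike.congr_fun h2 x
          rw [Finsupp.tsub_apply, Finsupp.single_eq_of_ne hx, Finsupp.zero_apply] at h5
          omega
        have h5 := DFunLike.congr_fun h2 i
        rw [Finsupp.tsub_apply, Finsupp.single_eq_same, Finsupp.zero_apply] at h5
        rw [Finset.sum_eq_single i (fun x _ hx => h4 x hx)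
          (fun h => absurd (Finset.mem_univ i) h)] at h3
        omega
    · rfl

/-- the conclusion for all the coefficients `c` with `g(c) ≠ 0` -/
def Con5 {F : Type} [Field F] [Algebra F ℂ]
    (v : Fin r → Fin 4 → ℕ) (h : MvPolynomial (Fin 4) F) (g : MvPolynomial (Fin r) F) : Prop :=
  ∀ (k : Type) [Field k] [Algebra F k] [Algebra k ℂ]
      [IsScalarTower F k ℂ] (c : Fin r → k), aeval (fun j => algebraMap k ℂ (c j)) g ≠ 0 →
      ∃ S : Finset (ℤ × ℤ),
        (∀ p ∈ S, p.1 < 0 ∧ 0 < p.2 ∧ ∀ b : Polynomial ℂ, IsLocalBFunction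
          (spa v (fun j => algebraMap k ℂ (c j)) + MvPolynomial.map (algebraMap F ℂ) h) b →
            b.eval ((p.1 : ℂ) / p.2) = 0) ∧
        (∀ (K : Type) [Field K] [Algebra k K] (W : Set (Pt K (Fin 4)))
          (E : Set (AlgebraicClosure K)), Constr W → Good E →
          (∀ z ∈ W, ∀ i, z i = 0) →
          zetaG (spa v (fun j => algebraMap k K (c j)) +
            MvPolynomial.map ((algebraMap k K).comp (algebraMap F k)) h) W E ∈ ratRing K S)

/-- generic coefficients and the level two -/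
theorem quad_root (hM1 : StM1) (hM2 : StM2) (hG : StG)
    {F : Type} [Field F] [Algebra F ℂ] (v : Fin r → Fin 4 → ℕ) (hV : Vert v)
    (hv : Function.Injective v) (h : MvPolynomial (Fin 4) F) (hh : ∀ w ∈ h.support, NP v w) :
    ∃ g : MvPolynomial (Fin r) F, g ≠ 0 ∧ (Quad v → ∀ c : Fin r → ℂ, aeval c g ≠ 0 →
      ∀ b : Polynomial ℂ, IsLocalBFunction (spa v c + MvPolynomial.map (algebraMap F ℂ) h) b →
        b.eval (-2) = 0) := by
  classical
  by_cases hQ : Quad v
  swap
  · exact ⟨1, one_ne_zero, fun h => absurd h hQ⟩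
  obtain ⟨g, hg, hgc⟩ := hG v hv hQ h
  refine ⟨g, hg, fun _ c hc b hb => ?_⟩
  have hd := quad_deg hV hQ
  have hf : ∀ d ∈ (spa v c + MvPolynomial.map (algebraMap F ℂ) h).support,
      2 ≤ ∑ x, d x := by
    intro d hd'
    rcases Finset.mem_union.1 (support_add hd') with h1 | h1
    · unfold spa at h1
      obtain ⟨j, -, hj⟩ := Finset.mem_biUnion.1 (support_sum h1)
      have e : C (c j) * ∏ i, (X i : MvPolynomial (Fin 4) ℂ) ^ v j i =
          monomial (Finsupp.equivFunOnFinite.symm (v j)) (c j) := by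
        rw [monomial_eq, Finsupp.prod_fintype]
        · rfl
        · intro i
          rw [pow_zero]
      rw [e] at hj
      have h2 := Finset.mem_singleton.1 (support_monomial_subset hj)
      rw [h2]
      exact hd j
    · have h2 : d ∈ h.support := by
        rw [mem_support_iff] at h1 ⊢
        intro h3
        apply h1
        rw [coeff_map, h3, map_zero]
      exact inN_deg hd (np_inN (hh d h2))
  obtain ⟨h0, h1⟩ := low_zero hf
  exact morse_root hM1 hM2 _ h0 h1 (hgc c hc) b hb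

theorem gen50 (hL2 : StL2) (hM1 : StM1) (hM2 : StM2) (hG : StG)
    (hR1 : StR1) (hR2 : StR2) (hAZ : StAZ) (hFac : StFac)
    {F : Type} [Field F] [Algebra F ℂ] (hr : 0 < r)
    (v : Fin r → Fin 4 → ℕ) (hV : Vert v) (hv : Function.Injective v)
    (hv0 : ∀ j, v j ≠ 0)
    (h : MvPolynomial (Fin 4) F) (hh : ∀ w ∈ h.support, NP v w)
    (hvh : ∀ w ∈ h.support, ∀ j, ¬ ∀ x, w x = v j x) :
    ∃ g : MvPolynomial (Fin r) F, g ≠ 0 ∧ Con5 v h g := by
  classical
  have hne : NeZero r := ⟨by omega⟩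
  obtain ⟨g1, hg1, h1⟩ := rootsL (F := F) hr v hv hv0 h hh
  obtain ⟨g2, hg2, h2⟩ := gen_nonDF pF4 hr v (we h) (we_np v h hh) (wc h)
  obtain ⟨g4, hg4, h4⟩ := quad_root hM1 hM2 hG v hV hv h hh
  have hg3 : (∏ j : Fin r, (X j : MvPolynomial (Fin r) F)) ≠ 0 :=
    Finset.prod_ne_zero_iff.2 fun j _ => X_ne_zero j
  obtain ⟨S, hS, hz1⟩ := base5 hr v hV hv h (fun w hw => np_inN (hh w hw))
    hvh (fun α => HPL v h α 0) (fun α hα => relLX v hv hv0 h hh α hα)
  refine ⟨g1 * g2 * (∏ j : Fin r, (X j : MvPolynomial (Fin r) F)) * g4,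
    mul_ne_zero (mul_ne_zero (mul_ne_zero hg1 hg2) hg3) hg4, fun k _ _ _ _ c hc => ?_⟩
  rw [map_mul, map_mul, map_mul, map_prod] at hc
  have hcne : ∀ j, c j ≠ 0 := by
    intro j hj
    have h5 := Finset.prod_ne_zero_iff.1 (right_ne_zero_of_mul (left_ne_zero_of_mul hc)) j
      (Finset.mem_univ j)
    rw [aeval_X, hj, map_zero] at h5
    exact h5 rfl
  have hb := h1 _ (left_ne_zero_of_mul (left_ne_zero_of_mul (left_ne_zero_of_mul hc)))
  have hnd := h2 _ (right_ne_zero_of_mul (left_ne_zero_of_mul (left_ne_zero_of_mul hc)))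
  have hnk : NonD (Fin.append v (we h)) (fun j => algebraMap k ℂ
      (Fin.append c (fun l => algebraMap F k (wc h l)) j)) := by
    rw [append_map]
    simp only [← IsScalarTower.algebraMap_apply F k ℂ]
    exact hnd
  refine ⟨insert (-1, 1) S, fun p hp => ?_, fun K _ _ W E hW hE hWD => ?_⟩
  · rcases Finset.mem_insert.1 hp with rfl | hp
    · refine ⟨by norm_num, by norm_num, fun b hb' => ?_⟩
      have e : (((-1 : ℤ) : ℂ) / ((1 : ℤ) : ℂ)) = -1 := by
        push_cast
        ring
      rw [e]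
      exact (hb b hb').1
    obtain ⟨a, ha, hg, hLP, rfl⟩ := hS p hp
    refine ⟨pos_of_ray ha, Int.natCast_pos.2 hg, ?_⟩
    intro b hb'
    have hgc : ((gord v a : ℕ) : ℂ) ≠ 0 := by exact_mod_cast hg.ne'
    have hgq : ((gord v a : ℕ) : ℚ) ≠ 0 := by exact_mod_cast hg.ne'
    by_cases h6 : ∑ i, a i = gord v a
    · have e : (((-((∑ i, a i : ℕ) : ℤ) : ℤ) : ℂ) / ((gord v a : ℤ) : ℂ)) = -1 := by
        rw [h6]
        push_cast
        field_simp
      rw [e]
      exact (hb b hb').1
    have fromα : HPL v h (-(((∑ i, a i : ℕ) : ℚ) / gord v a)) 0 →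
        b.eval (((-((∑ i, a i : ℕ) : ℤ) : ℤ) : ℂ) / ((gord v a : ℤ) : ℂ)) = 0 := by
      intro hα
      have h3 := (hb b hb').2 _ hα
      rw [← h3]
      congr 1
      push_cast
      ring
    by_cases h7 : ∑ i, a i = 2 * gord v a
    · rcases hL2 v hr hV with hT | hQ
      · apply fromα
        apply hLP
        right
        refine ⟨?_, hT⟩
        rw [h7, div_eq_iff hgq]
        push_cast
        ring
      · have e : (((-((∑ i, a i : ℕ) : ℤ) : ℤ) : ℂ) / ((gord v a : ℤ) : ℂ)) = -2 := by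
          rw [h7]
          push_cast
          field_simp
        rw [e]
        exact h4 hQ _ (right_ne_zero_of_mul hc) b hb'
    · apply fromα
      exact levels4 hR1 hR2 hAZ hFac hr v hV hv hv0 h hh a hg h6 h7
        (fun hyp => hLP (Or.inl hyp))
  · exact mem_insert_ring S _ (hz1 k c hcne hnk K W E hW hE fun z hz i => hWD z hz i)

/-- the shift of the coefficients -/
theorem con5_shift {F : Type} [Field F] [Algebra F ℂ] (v : Fin r → Fin 4 → ℕ)
    (h : MvPolynomial (Fin 4) F) (g : MvPolynomial (Fin r) F) (hC : Con5 v (hz v h) g) :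
    Con5 v h (shf (cof v h) g) := by
  intro k _ _ _ _ c hc
  have hmap : ∀ {K : Type} [Field K] (φ : F →+* K) (c' : Fin r → K),
      spa v c' + MvPolynomial.map φ h =
        spa v (fun j => c' j + φ (cof v h j)) + MvPolynomial.map φ (hz v h) := by
    intro K _ φ c'
    rw [spa_add]
    unfold hz
    rw [map_sub, map_spa]
    ring
  rw [shf_eval] at hc
  have e : (fun j => algebraMap k ℂ (c j + algebraMap F k (cof v h j))) =
      fun j => algebraMap k ℂ (c j) + algebraMap F ℂ (cof v h j) := by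
    funext j
    rw [map_add, ← IsScalarTower.algebraMap_apply]
  have hc' : aeval (fun j => algebraMap k ℂ (c j + algebraMap F k (cof v h j))) g ≠ 0 := by
    rw [e]
    exact hc
  obtain ⟨S, hS, hz1⟩ := hC k (fun j => c j + algebraMap F k (cof v h j)) hc'
  refine ⟨S, fun p hp => ?_, fun K _ _ W E hW hE hWD => ?_⟩
  · obtain ⟨h1, h2, h3⟩ := hS p hp
    refine ⟨h1, h2, fun b hb => h3 b ?_⟩
    rw [hmap] at hb
    rw [e]
    exact hb
  · rw [hmap]
    have h3 := hz1 K W E hW hE hWD
    have e : (fun j => algebraMap k K (c j + algebraMap F k (cof v h j))) =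
        fun j => algebraMap k K (c j) + ((algebraMap k K).comp (algebraMap F k)) (cof v h j) := by
      funext j
      rw [map_add]
      rfl
    rw [e] at h3
    exact h3

/-- **Generic coefficients, at the origin.** -/
theorem gen5 (hL2 : StL2) (hM1 : StM1) (hM2 : StM2) (hG : StG)
    (hR1 : StR1) (hR2 : StR2) (hAZ : StAZ) (hFac : StFac)
    {F : Type} [Field F] [Algebra F ℂ] (hr : 0 < r)
    (v : Fin r → Fin 4 → ℕ) (hV : Vert v) (hv : Function.Injective v) (hv0 : ∀ j, v j ≠ 0)
    (h : MvPolynomial (Fin 4) F) (hh : ∀ w ∈ h.support, NP v w) :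
    ∃ g : MvPolynomial (Fin r) F, g ≠ 0 ∧ Con5 v h g := by
  obtain ⟨g, hg, hgc⟩ := gen50 hL2 hM1 hM2 hG hR1 hR2 hAZ hFac hr v hV hv hv0 (hz v h)
    (fun w hw => hh w ((hz_support v hv h).1 w hw)) (hz_support v hv h).2
  exact ⟨shf (cof v h) g, shf_ne _ _ hg, con5_shift v h g hgc⟩

open Pool.Agent.TH216.HD (poly InPoly map_poly)
open Pool.Agent.TH216.HDL (Vertices)

/-- the same with `poly` -/
theorem gen5P (hL2 : StL2) (hM1 : StM1) (hM2 : StM2) (hG : StG)
    (hR1 : StR1) (hR2 : StR2) (hAZ : StAZ) (hFac : StFac)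
    {F : Type} [Field F] [Algebra F ℂ] (hr : 0 < r)
    (v : Fin r → Fin 4 → ℕ) (hV : Vertices v) (hv : Function.Injective v) (hv0 : ∀ j, v j ≠ 0)
    (h : MvPolynomial (Fin 4) F) (hh : ∀ w ∈ h.support, InPoly v w) :
    ∃ g : MvPolynomial (Fin r) F, g ≠ 0 ∧ ∀ (k : Type) [Field k] [Algebra F k] [Algebra k ℂ]
      [IsScalarTower F k ℂ] (c : Fin r → k), aeval c g ≠ 0 →
      ∃ S : Finset (ℤ × ℤ),
        (∀ p ∈ S, p.1 < 0 ∧ 0 < p.2 ∧ ∀ b : Polynomial ℂ,
          IsLocalBFunction (poly v (fun j => algebraMap k ℂ (c j)) h) b →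
            b.eval ((p.1 : ℂ) / p.2) = 0) ∧
        (∀ (K : Type) [Field K] [Algebra k K] (W : Set (Pt K (Fin 4)))
          (E : Set (AlgebraicClosure K)), Constr W → Good E → (∀ z ∈ W, ∀ i, z i = 0) →
          zetaG (MvPolynomial.map (algebraMap k K) (poly v c h)) W E ∈ ratRing K S) := by
  obtain ⟨g, hg, hC⟩ := gen5 (F := F) hL2 hM1 hM2 hG hR1 hR2 hAZ hFac hr v hV hv hv0 h hh
  refine ⟨g, hg, fun k _ _ _ _ c hc => ?_⟩
  obtain ⟨S, hS, hz⟩ := hC k c (fun h0 => hc (by
    have h1 : algebraMap k ℂ (aeval c g) = 0 := by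
      rw [← h0, ← aeval_algebraMap_apply]
      rfl
    exact (map_eq_zero _).1 h1))
  refine ⟨S, hS, fun K _ _ W E hW hE hWD => ?_⟩
  rw [map_poly]
  exact hz K W E hW hE hWD

end Pool.Agent.Y231.N4
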