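import Pool.Agent.Y231.N4.L2
import Pool.Agent.Y231.N4.AZ

/-!
# Part L2: the faces at the level two in four variables
-/

set_option autoImplicit false

namespace Pool.Agent.Y231.N4.L2A

open Pool.Agent.TH216.MF (Pt Forced)
open Pool.Agent.TH216.LX (Vert vert2)
open Pool.Agent.Y231.N4
open Pool.Agent.Y231.N4.AZ

variable {r : ℕ}

/-! ### Finite combinatorics -/

lemma combB : ∀ a b c d e f g h i j : Bool,
    ((a || b || c || d) && (b || e || f || g) && (c || f || h || i) && (d || g || i || j)) = true →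
    ((a && e && h && j) || (b && h && j) || (c && e && j) || (d && e && h) || (f && a && j) ||
      (g && a && h) || (i && a && e) || (b && i) || (c && g) || (d && f) ||
      (b && f && c && j) || (b && g && d && h) || (c && i && d && e) || (f && i && g && a) ||
      (!a && !b && !d && !e && !g) || (!a && !b && !c && !e && !f) ||
      (!a && !c && !d && !h && !i) || (!a && !b && !c && !f && !h) ||
      (!a && !c && !d && !i && !j) || (!a && !b && !d && !g && !j) ||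
      (!e && !f && !g && !h && !i) || (!b && !e && !f && !c && !h) ||
      (!e && !f && !g && !i && !j) || (!b && !e && !g && !d && !j) ||
      (!f && !h && !i && !g && !j) || (!c && !h && !i && !d && !j)) = true := by
  decide

lemma all4 {P : Fin 4 → Prop} (h0 : P 0) (h1 : P 1) (h2 : P 2) (h3 : P 3) : ∀ x, P x := by
  intro x
  fin_cases x
  · exact h0
  · exact h1
  · exact h2
  · exact h3

/-- a symmetric relation on four points without empty row contains a permutation which is not a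
cycle of length four, or two points have the same only neighbour -/
lemma comb (S : Fin 4 → Fin 4 → Prop) (hsym : ∀ x y, S x y → S y x) (hrow : ∀ x, ∃ y, S x y) :
    (∃ π : Equiv.Perm (Fin 4), π ^ 6 = 1 ∧ ∀ x, S x (π x)) ∨
    ∃ p q m : Fin 4, p ≠ q ∧ p ≠ m ∧ q ≠ m ∧ (∀ y, S p y → y = m) ∧ ∀ y, S q y → y = m := by
  classical
  have hs : ∀ x y, decide (S x y) = decide (S y x) := by
    intro x y
    by_cases h : S x y
    · rw [decide_eq_true h, decide_eq_true (hsym _ _ h)]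
    · rw [decide_eq_false h, decide_eq_false fun h' => h (hsym _ _ h')]
  have hr : ∀ x, (decide (S x 0) || decide (S x 1) || decide (S x 2) || decide (S x 3)) = true := by
    intro x
    obtain ⟨y, hy⟩ := hrow x
    have : y = 0 ∨ y = 1 ∨ y = 2 ∨ y = 3 :=
      all4 (P := fun y => y = 0 ∨ y = 1 ∨ y = 2 ∨ y = 3) (by decide) (by decide) (by decide)
        (by decide) y
    simp only [Bool.or_eq_true, decide_eq_true_eq]
    rcases this with rfl | rfl | rfl | rfl
    · exact Or.inl (Or.inl (Or.inl hy))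
    · exact Or.inl (Or.inl (Or.inr hy))
    · exact Or.inl (Or.inr hy)
    · exact Or.inr hy
  have h := combB (decide (S 0 0)) (decide (S 0 1)) (decide (S 0 2)) (decide (S 0 3))
    (decide (S 1 1)) (decide (S 1 2)) (decide (S 1 3)) (decide (S 2 2)) (decide (S 2 3))
    (decide (S 3 3)) (by
      have r0 := hr 0
      have r1 := hr 1
      have r2 := hr 2
      have r3 := hr 3
      rw [hs 1 0] at r1
      rw [hs 2 0, hs 2 1] at r2
      rw [hs 3 0, hs 3 1, hs 3 2] at r3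
      rw [r0, r1, r2, r3]
      rfl)
  simp only [Bool.or_eq_true, Bool.and_eq_true, Bool.not_eq_true', decide_eq_true_eq,
    decide_eq_false_iff_not] at h
  rcases h with (((((((((((((((((((((((((h | h) | h) | h) | h) | h) | h) | h) | h) | h) | h) | h) |
    h) | h) | h) | h) | h) | h) | h) | h) | h) | h) | h) | h) | h) | h)
  · exact Or.inl ⟨1, by decide, all4 h.1.1.1 h.1.1.2 h.1.2 h.2⟩
  · exact Or.inl ⟨Equiv.swap 0 1, by decide, all4 h.1.1 (hsym _ _ h.1.1) h.1.2 h.2⟩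
  · exact Or.inl ⟨Equiv.swap 0 2, by decide, all4 h.1.1 h.1.2 (hsym _ _ h.1.1) h.2⟩
  · exact Or.inl ⟨Equiv.swap 0 3, by decide, all4 h.1.1 h.1.2 h.2 (hsym _ _ h.1.1)⟩
  · exact Or.inl ⟨Equiv.swap 1 2, by decide, all4 h.1.2 h.1.1 (hsym _ _ h.1.1) h.2⟩
  · exact Or.inl ⟨Equiv.swap 1 3, by decide, all4 h.1.2 h.1.1 h.2 (hsym _ _ h.1.1)⟩
  · exact Or.inl ⟨Equiv.swap 2 3, by decide, all4 h.1.2 h.2 h.1.1 (hsym _ _ h.1.1)⟩
  · exact Or.inl ⟨Equiv.swap 0 1 * Equiv.swap 2 3, by decide,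
      all4 h.1 (hsym _ _ h.1) h.2 (hsym _ _ h.2)⟩
  · exact Or.inl ⟨Equiv.swap 0 2 * Equiv.swap 1 3, by decide,
      all4 h.1 h.2 (hsym _ _ h.1) (hsym _ _ h.2)⟩
  · exact Or.inl ⟨Equiv.swap 0 3 * Equiv.swap 1 2, by decide,
      all4 h.1 h.2 (hsym _ _ h.2) (hsym _ _ h.1)⟩
  · -- 0 → 1 → 2 → 0
    exact Or.inl ⟨Equiv.swap 0 1 * Equiv.swap 1 2, by decide,
      all4 h.1.1.1 h.1.1.2 (hsym _ _ h.1.2) h.2⟩
  · -- 0 → 1 → 3 → 0
    exact Or.inl ⟨Equiv.swap 0 1 * Equiv.swap 1 3, by decide,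
      all4 h.1.1.1 h.1.1.2 h.2 (hsym _ _ h.1.2)⟩
  · -- 0 → 2 → 3 → 0
    exact Or.inl ⟨Equiv.swap 0 2 * Equiv.swap 2 3, by decide,
      all4 h.1.1.1 h.2 h.1.1.2 (hsym _ _ h.1.2)⟩
  · -- 1 → 2 → 3 → 1
    exact Or.inl ⟨Equiv.swap 1 2 * Equiv.swap 2 3, by decide,
      all4 h.2 h.1.1.1 h.1.1.2 (hsym _ _ h.1.2)⟩
  · obtain ⟨⟨⟨⟨h1, h2⟩, h3⟩, h4⟩, h5⟩ := h
    refine Or.inr ⟨0, 1, 2, by decide, by decide, by decide, all4 ?_ ?_ ?_ ?_, all4 ?_ ?_ ?_ ?_⟩ <;>
    intro h' <;>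
    first
      | rfl
      | exact absurd h' h1
      | exact absurd h' h2
      | exact absurd h' h3
      | exact absurd h' h4
      | exact absurd h' h5
      | exact absurd (hsym _ _ h') h1
      | exact absurd (hsym _ _ h') h2
      | exact absurd (hsym _ _ h') h3
      | exact absurd (hsym _ _ h') h4
      | exact absurd (hsym _ _ h') h5
  · obtain ⟨⟨⟨⟨h1, h2⟩, h3⟩, h4⟩, h5⟩ := h
    refine Or.inr ⟨0, 1, 3, by decide, by decide, by decide, all4 ?_ ?_ ?_ ?_, all4 ?_ ?_ ?_ ?_⟩ <;>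
    intro h' <;>
    first
      | rfl
      | exact absurd h' h1
      | exact absurd h' h2
      | exact absurd h' h3
      | exact absurd h' h4
      | exact absurd h' h5
      | exact absurd (hsym _ _ h') h1
      | exact absurd (hsym _ _ h') h2
      | exact absurd (hsym _ _ h') h3
      | exact absurd (hsym _ _ h') h4
      | exact absurd (hsym _ _ h') h5
  · obtain ⟨⟨⟨⟨h1, h2⟩, h3⟩, h4⟩, h5⟩ := h
    refine Or.inr ⟨0, 2, 1, by decide, by decide, by decide, all4 ?_ ?_ ?_ ?_, all4 ?_ ?_ ?_ ?_⟩ <;>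
    intro h' <;>
    first
      | rfl
      | exact absurd h' h1
      | exact absurd h' h2
      | exact absurd h' h3
      | exact absurd h' h4
      | exact absurd h' h5
      | exact absurd (hsym _ _ h') h1
      | exact absurd (hsym _ _ h') h2
      | exact absurd (hsym _ _ h') h3
      | exact absurd (hsym _ _ h') h4
      | exact absurd (hsym _ _ h') h5
  · obtain ⟨⟨⟨⟨h1, h2⟩, h3⟩, h4⟩, h5⟩ := h
    refine Or.inr ⟨0, 2, 3, by decide, by decide, by decide, all4 ?_ ?_ ?_ ?_, all4 ?_ ?_ ?_ ?_⟩ <;>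
    intro h' <;>
    first
      | rfl
      | exact absurd h' h1
      | exact absurd h' h2
      | exact absurd h' h3
      | exact absurd h' h4
      | exact absurd h' h5
      | exact absurd (hsym _ _ h') h1
      | exact absurd (hsym _ _ h') h2
      | exact absurd (hsym _ _ h') h3
      | exact absurd (hsym _ _ h') h4
      | exact absurd (hsym _ _ h') h5
  · obtain ⟨⟨⟨⟨h1, h2⟩, h3⟩, h4⟩, h5⟩ := h
    refine Or.inr ⟨0, 3, 1, by decide, by decide, by decide, all4 ?_ ?_ ?_ ?_, all4 ?_ ?_ ?_ ?_⟩ <;>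
    intro h' <;>
    first
      | rfl
      | exact absurd h' h1
      | exact absurd h' h2
      | exact absurd h' h3
      | exact absurd h' h4
      | exact absurd h' h5
      | exact absurd (hsym _ _ h') h1
      | exact absurd (hsym _ _ h') h2
      | exact absurd (hsym _ _ h') h3
      | exact absurd (hsym _ _ h') h4
      | exact absurd (hsym _ _ h') h5
  · obtain ⟨⟨⟨⟨h1, h2⟩, h3⟩, h4⟩, h5⟩ := h
    refine Or.inr ⟨0, 3, 2, by decide, by decide, by decide, all4 ?_ ?_ ?_ ?_, all4 ?_ ?_ ?_ ?_⟩ <;>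
    intro h' <;>
    first
      | rfl
      | exact absurd h' h1
      | exact absurd h' h2
      | exact absurd h' h3
      | exact absurd h' h4
      | exact absurd h' h5
      | exact absurd (hsym _ _ h') h1
      | exact absurd (hsym _ _ h') h2
      | exact absurd (hsym _ _ h') h3
      | exact absurd (hsym _ _ h') h4
      | exact absurd (hsym _ _ h') h5
  · obtain ⟨⟨⟨⟨h1, h2⟩, h3⟩, h4⟩, h5⟩ := h
    refine Or.inr ⟨1, 2, 0, by decide, by decide, by decide, all4 ?_ ?_ ?_ ?_, all4 ?_ ?_ ?_ ?_⟩ <;>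
    intro h' <;>
    first
      | rfl
      | exact absurd h' h1
      | exact absurd h' h2
      | exact absurd h' h3
      | exact absurd h' h4
      | exact absurd h' h5
      | exact absurd (hsym _ _ h') h1
      | exact absurd (hsym _ _ h') h2
      | exact absurd (hsym _ _ h') h3
      | exact absurd (hsym _ _ h') h4
      | exact absurd (hsym _ _ h') h5
  · obtain ⟨⟨⟨⟨h1, h2⟩, h3⟩, h4⟩, h5⟩ := h
    refine Or.inr ⟨1, 2, 3, by decide, by decide, by decide, all4 ?_ ?_ ?_ ?_, all4 ?_ ?_ ?_ ?_⟩ <;>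
    intro h' <;>
    first
      | rfl
      | exact absurd h' h1
      | exact absurd h' h2
      | exact absurd h' h3
      | exact absurd h' h4
      | exact absurd h' h5
      | exact absurd (hsym _ _ h') h1
      | exact absurd (hsym _ _ h') h2
      | exact absurd (hsym _ _ h') h3
      | exact absurd (hsym _ _ h') h4
      | exact absurd (hsym _ _ h') h5
  · obtain ⟨⟨⟨⟨h1, h2⟩, h3⟩, h4⟩, h5⟩ := h
    refine Or.inr ⟨1, 3, 0, by decide, by decide, by decide, all4 ?_ ?_ ?_ ?_, all4 ?_ ?_ ?_ ?_⟩ <;>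
    intro h' <;>
    first
      | rfl
      | exact absurd h' h1
      | exact absurd h' h2
      | exact absurd h' h3
      | exact absurd h' h4
      | exact absurd h' h5
      | exact absurd (hsym _ _ h') h1
      | exact absurd (hsym _ _ h') h2
      | exact absurd (hsym _ _ h') h3
      | exact absurd (hsym _ _ h') h4
      | exact absurd (hsym _ _ h') h5
  · obtain ⟨⟨⟨⟨h1, h2⟩, h3⟩, h4⟩, h5⟩ := h
    refine Or.inr ⟨1, 3, 2, by decide, by decide, by decide, all4 ?_ ?_ ?_ ?_, all4 ?_ ?_ ?_ ?_⟩ <;>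
    intro h' <;>
    first
      | rfl
      | exact absurd h' h1
      | exact absurd h' h2
      | exact absurd h' h3
      | exact absurd h' h4
      | exact absurd h' h5
      | exact absurd (hsym _ _ h') h1
      | exact absurd (hsym _ _ h') h2
      | exact absurd (hsym _ _ h') h3
      | exact absurd (hsym _ _ h') h4
      | exact absurd (hsym _ _ h') h5
  · obtain ⟨⟨⟨⟨h1, h2⟩, h3⟩, h4⟩, h5⟩ := h
    refine Or.inr ⟨2, 3, 0, by decide, by decide, by decide, all4 ?_ ?_ ?_ ?_, all4 ?_ ?_ ?_ ?_⟩ <;>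
    intro h' <;>
    first
      | rfl
      | exact absurd h' h1
      | exact absurd h' h2
      | exact absurd h' h3
      | exact absurd h' h4
      | exact absurd h' h5
      | exact absurd (hsym _ _ h') h1
      | exact absurd (hsym _ _ h') h2
      | exact absurd (hsym _ _ h') h3
      | exact absurd (hsym _ _ h') h4
      | exact absurd (hsym _ _ h') h5
  · obtain ⟨⟨⟨⟨h1, h2⟩, h3⟩, h4⟩, h5⟩ := h
    refine Or.inr ⟨2, 3, 1, by decide, by decide, by decide, all4 ?_ ?_ ?_ ?_, all4 ?_ ?_ ?_ ?_⟩ <;>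
    intro h' <;>
    first
      | rfl
      | exact absurd h' h1
      | exact absurd h' h2
      | exact absurd h' h3
      | exact absurd h' h4
      | exact absurd h' h5
      | exact absurd (hsym _ _ h') h1
      | exact absurd (hsym _ _ h') h2
      | exact absurd (hsym _ _ h') h3
      | exact absurd (hsym _ _ h') h4
      | exact absurd (hsym _ _ h') h5

/-! ### Relations -/

/-- relations and a coordinate in which only one vertex off `Z` is positive -/
lemma lemU {v : Fin r → Fin 4 → ℕ} {A : Finset (Fin 4)} {Z : Finset (Fin r)} {w : Fin r → ℚ}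
    (hw : ∀ i ∈ A, ∑ j, w j * (v j i : ℚ) = 0) (hwZ : ∀ j ∈ Z, w j = 0) {x : Fin 4} (hx : x ∈ A)
    (hu : ∀ j k, j ∉ Z → k ∉ Z → 0 < v j x → 0 < v k x → j = k) :
    ∀ j, w j ≠ 0 → v j x = 0 := by
  intro j hj
  by_contra h0
  have hjZ : j ∉ Z := fun h => hj (hwZ j h)
  have h1 := hw x hx
  rw [Finset.sum_eq_single j] at h1
  · rcases mul_eq_zero.1 h1 with h | h
    · exact hj h
    · exact h0 (by exact_mod_cast h)
  · intro k _ hk
    by_cases hkZ : k ∈ Z
    · rw [hwZ k hkZ, zero_mul]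
    · by_cases hk0 : v k x = 0
      · rw [hk0, Nat.cast_zero, mul_zero]
      · exact absurd (hu k j hkZ hjZ (Nat.pos_of_ne_zero hk0) (Nat.pos_of_ne_zero h0)) hk
  · intro h
    exact absurd (Finset.mem_univ _) h

/-- one vertex which is positive in the coordinate `n` -/
lemma lemS {v : Fin r → Fin 4 → ℕ} (hV : Vert v) {A : Finset (Fin 4)} {Z : Finset (Fin r)}
    {a0 : Fin 4 → ℚ} (ha0 : a0 ∈ Pt v A Z) (hsum : ∀ a ∈ Pt v A Z, ∑ i, a i = 2) {n : Fin 4}
    (hn : n ∈ A) (hn0 : a0 n ≠ 0) {j4 : Fin r} (h1 : v j4 n = 1)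
    (hu : ∀ j, ∑ x, a0 x * (v j x : ℚ) = 1 → 0 < v j n → j = j4) :
    Forced v A Z ∨
    ∃ i ∈ A, ∃ j0, v j0 i = 1 ∧ (∀ a ∈ Pt v A Z, a i ≠ 0) ∧
      ∀ j, j ≠ j0 → 0 < v j i → ∀ a ∈ Pt v A Z, ∑ i, a i * (v j i : ℚ) ≠ 1 := by
  by_cases huni : ∀ a ∈ Pt v A Z, ∀ t, a t = a0 t
  · right
    refine ⟨n, hn, j4, h1, fun a ha => by rw [huni a ha n]; exact hn0, ?_⟩
    intro j hj hpos a ha heq
    apply hj
    apply hu j _ hpos
    rw [← heq]
    exact Finset.sum_congr rfl fun x _ => by rw [huni a ha x]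
  · left
    push Not at huni
    obtain ⟨a', ha', t, ht⟩ := huni
    intro w hw hwZ
    by_contra hcon
    push Not at hcon
    obtain ⟨j1, hj1⟩ := hcon
    have h0 := lemU hw hwZ hn (fun j k hj hk pj pk =>
      (hu j (ha0.2.2.2 j hj) pj).trans (hu k (ha0.2.2.2 k hk) pk).symm)
    exact ht (b1_unique hV ha' ha0 ((hsum a' ha').trans (hsum a0 ha0).symm) hw hwZ hj1 hn h0 t)

/-- a relation between points with two zero coordinates -/
lemma lemT {v : Fin r → Fin 4 → ℕ} (hV : Vert v) {A : Finset (Fin 4)} {Z : Finset (Fin r)}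
    {a0 : Fin 4 → ℚ} (ha0 : a0 ∈ Pt v A Z) (hpos : ∀ x, a0 x ≠ 0) (hA : ∀ x, x ∈ A)
    {w : Fin r → ℚ} (hw : ∀ i ∈ A, ∑ j, w j * (v j i : ℚ) = 0) (hwZ : ∀ j ∈ Z, w j = 0)
    {m n : Fin 4} (hmn : m ≠ n) (hm : ∀ j, w j ≠ 0 → v j m = 0) (hn : ∀ j, w j ≠ 0 → v j n = 0) :
    ∀ j, w j = 0 := by
  by_contra hcon
  push Not at hcon
  obtain ⟨j1, hj1⟩ := hcon
  have hs := sum_w ha0 hw hwZ
  have hZ : ∀ j, w j ≠ 0 → j ∉ Z := fun j hj h => hj (hwZ j h)
  obtain ⟨k, hk, hwk⟩ := other_of_sum hs hj1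
  obtain ⟨p, q, hmp, hmq, hnp, hnq, hpq⟩ := others2 m n hmn
  have h2 : ∀ t, t ≠ j1 → t ≠ k → w t = 0 := by
    intro t htj htk
    by_contra hwt
    exact part_two hV hmn hmp hmq hnp hnq hpq (hpos q) hk.symm htj.symm htk.symm
      (ha0.2.2.2 _ (hZ _ hj1)) (ha0.2.2.2 _ (hZ _ hwk)) (ha0.2.2.2 _ (hZ _ hwt))
      (by rw [hm k hwk, hm j1 hj1]) (by rw [hm t hwt, hm j1 hj1])
      (by rw [hn k hwk, hn j1 hj1]) (by rw [hn t hwt, hn j1 hj1])
  exact vne hV hk.symm fun x => two_supp hw hs hk.symm hj1 h2 (hA x)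

/-! ### Arithmetic -/

lemma arith {α β γ δ : ℚ} (h0 : 0 ≤ α) (h1 : α ≤ β) (h2 : β ≤ γ) (h3 : γ ≤ δ)
    (hs : α + β + γ + δ = 2) (hne : ¬ (α = β ∧ γ = δ)) {o p q s : ℕ}
    (he : α * o + β * p + γ * q + δ * s = 1) (hsp : 0 < s) : s = 1 ∧ q = 0 ∧ p = 0 := by
  have hb : 0 ≤ β := h0.trans h1
  have hc : 0 ≤ γ := hb.trans h2
  have hd : 0 ≤ δ := hc.trans h3
  have hs1 : (1 : ℚ) ≤ s := by exact_mod_cast hsp
  have ho : 0 ≤ α * o := by positivity
  have hp : 0 ≤ β * p := by positivity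
  have hq : 0 ≤ γ * q := by positivity
  have hds : δ * 1 ≤ δ * s := mul_le_mul_of_nonneg_left hs1 hd
  refine ⟨?_, ?_, ?_⟩
  · by_contra hcon
    have h5 : (2 : ℚ) ≤ s := by
      have : 2 ≤ s := by omega
      exact_mod_cast this
    have h6 : δ * 2 ≤ δ * s := mul_le_mul_of_nonneg_left h5 hd
    exact hne ⟨by linarith, by linarith⟩
  · by_contra hcon
    have h5 : (1 : ℚ) ≤ q := by
      have : 1 ≤ q := by omega
      exact_mod_cast this
    have h6 : γ * 1 ≤ γ * q := mul_le_mul_of_nonneg_left h5 hc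
    exact hne ⟨by linarith, by linarith⟩
  · by_contra hcon
    have h5 : (1 : ℚ) ≤ p := by
      have : 1 ≤ p := by omega
      exact_mod_cast this
    have h6 : β * 1 ≤ β * p := mul_le_mul_of_nonneg_left h5 hb
    exact hne ⟨by linarith, by linarith⟩

lemma sort4 (a : Fin 4 → ℚ) : ∃ i l m n : Fin 4, i ≠ l ∧ i ≠ m ∧ i ≠ n ∧ l ≠ m ∧ l ≠ n ∧ m ≠ n ∧
    a i ≤ a l ∧ a l ≤ a m ∧ a m ≤ a n := by
  have hm := Tuple.monotone_sort a
  have hi := (Tuple.sort a).injective
  exact ⟨Tuple.sort a 0, Tuple.sort a 1, Tuple.sort a 2, Tuple.sort a 3,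
    hi.ne (by decide), hi.ne (by decide), hi.ne (by decide), hi.ne (by decide),
    hi.ne (by decide), hi.ne (by decide), hm (by decide : (0 : Fin 4) ≤ 1),
    hm (by decide : (1 : Fin 4) ≤ 2), hm (by decide : (2 : Fin 4) ≤ 3)⟩

/-- vectors with sum two -/
lemma form2 {d : Fin 4 → ℕ} {x p q s : Fin 4} (h1 : x ≠ p) (h2 : x ≠ q) (h3 : x ≠ s) (h4 : p ≠ q)
    (h5 : p ≠ s) (h6 : q ≠ s) (hd : d x + d p + d q + d s = 2) (hx : 0 < d x) :
    ∃ y, ∀ z, d z = (if z = x then 1 else 0) + (if z = y then 1 else 0) := by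
  have hc : (d x = 2 ∧ d p = 0 ∧ d q = 0 ∧ d s = 0) ∨ (d x = 1 ∧ d p = 1 ∧ d q = 0 ∧ d s = 0) ∨
      (d x = 1 ∧ d p = 0 ∧ d q = 1 ∧ d s = 0) ∨ (d x = 1 ∧ d p = 0 ∧ d q = 0 ∧ d s = 1) := by
    omega
  rcases hc with ⟨a, b, c, e⟩ | ⟨a, b, c, e⟩ | ⟨a, b, c, e⟩ | ⟨a, b, c, e⟩
  · refine ⟨x, fun z => ?_⟩
    rcases four_mem h1 h2 h3 h4 h5 h6 z with h | h | h | h <;> subst h
    · rw [a, if_pos rfl]
    · rw [b, if_neg h1.symm]
    · rw [c, if_neg h2.symm]
    · rw [e, if_neg h3.symm]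
  · refine ⟨p, fun z => ?_⟩
    rcases four_mem h1 h2 h3 h4 h5 h6 z with h | h | h | h <;> subst h
    · rw [a, if_pos rfl, if_neg h1]
    · rw [b, if_neg h1.symm, if_pos rfl]
    · rw [c, if_neg h2.symm, if_neg h4.symm]
    · rw [e, if_neg h3.symm, if_neg h5.symm]
  · refine ⟨q, fun z => ?_⟩
    rcases four_mem h1 h2 h3 h4 h5 h6 z with h | h | h | h <;> subst h
    · rw [a, if_pos rfl, if_neg h2]
    · rw [b, if_neg h1.symm, if_neg h4]
    · rw [c, if_neg h2.symm, if_pos rfl]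
    · rw [e, if_neg h3.symm, if_neg h6.symm]
  · refine ⟨s, fun z => ?_⟩
    rcases four_mem h1 h2 h3 h4 h5 h6 z with h | h | h | h <;> subst h
    · rw [a, if_pos rfl, if_neg h3]
    · rw [b, if_neg h1.symm, if_neg h5]
    · rw [c, if_neg h2.symm, if_neg h6]
    · rw [e, if_neg h3.symm, if_pos rfl]

lemma dbl_pow (i l m n : Fin 4) (hil : i ≠ l) (him : i ≠ m) (hin : i ≠ n) (hlm : l ≠ m)
    (hln : l ≠ n) (hmn : m ≠ n) :
    (Equiv.swap i m * Equiv.swap l n) i = m ∧ (Equiv.swap i m * Equiv.swap l n) m = i ∧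
    (Equiv.swap i m * Equiv.swap l n) l = n ∧ (Equiv.swap i m * Equiv.swap l n) n = l ∧
    (Equiv.swap i m * Equiv.swap l n) ^ 6 = 1 := by
  have v1 : (Equiv.swap i m * Equiv.swap l n) i = m := by
    rw [Equiv.Perm.mul_apply, Equiv.swap_apply_of_ne_of_ne hil hin, Equiv.swap_apply_left]
  have v2 : (Equiv.swap i m * Equiv.swap l n) m = i := by
    rw [Equiv.Perm.mul_apply, Equiv.swap_apply_of_ne_of_ne hlm.symm hmn, Equiv.swap_apply_right]
  have v3 : (Equiv.swap i m * Equiv.swap l n) l = n := by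
    rw [Equiv.Perm.mul_apply, Equiv.swap_apply_left,
      Equiv.swap_apply_of_ne_of_ne hin.symm hmn.symm]
  have v4 : (Equiv.swap i m * Equiv.swap l n) n = l := by
    rw [Equiv.Perm.mul_apply, Equiv.swap_apply_right, Equiv.swap_apply_of_ne_of_ne hil.symm hlm]
  refine ⟨v1, v2, v3, v4, ?_⟩
  generalize Equiv.swap i m * Equiv.swap l n = π at v1 v2 v3 v4
  have hsq : π * π = 1 := by
    apply Equiv.ext
    intro x
    rw [Equiv.Perm.mul_apply, Equiv.Perm.one_apply]
    rcases four_mem hil him hin hlm hln hmn x with h | h | h | h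
    · rw [h, v1, v2]
    · rw [h, v3, v4]
    · rw [h, v2, v1]
    · rw [h, v4, v3]
  calc π ^ 6 = (π * π) ^ 3 := by rw [← pow_two, ← pow_mul]
    _ = 1 := by rw [hsq, one_pow]

lemma ne_succ : ∀ x : Fin 4, x ≠ x + 1 := by decide

/-- two monomials which give a nondegenerate quadratic form -/
lemma quad2 {v : Fin r → Fin 4 → ℕ} {i l m n : Fin 4} (hil : i ≠ l) (him : i ≠ m) (hin : i ≠ n)
    (hlm : l ≠ m) (hln : l ≠ n) (hmn : m ≠ n) {j k : Fin r}
    (hj : v j i = 1 ∧ v j m = 1 ∧ v j l = 0 ∧ v j n = 0)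
    (hk : v k l = 1 ∧ v k n = 1 ∧ v k i = 0 ∧ v k m = 0) : Quad v := by
  obtain ⟨p1, p2, p3, p4, p5⟩ := dbl_pow i l m n hil him hin hlm hln hmn
  refine ⟨_, p5, fun x => ?_⟩
  rcases four_mem hil him hin hlm hln hmn x with h | h | h | h <;> subst h
  · refine ⟨j, fun z => ?_⟩
    rw [p1]
    rcases four_mem hil him hin hlm hln hmn z with h | h | h | h <;> subst h
    · rw [hj.1, if_pos rfl, if_neg him]
    · rw [hj.2.2.1, if_neg hil.symm, if_neg hlm]
    · rw [hj.2.1, if_neg him.symm, if_pos rfl]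
    · rw [hj.2.2.2, if_neg hin.symm, if_neg hmn.symm]
  · refine ⟨k, fun z => ?_⟩
    rw [p3]
    rcases four_mem hil him hin hlm hln hmn z with h | h | h | h <;> subst h
    · rw [hk.2.2.1, if_neg hil, if_neg hin]
    · rw [hk.1, if_pos rfl, if_neg hln]
    · rw [hk.2.2.2, if_neg hlm.symm, if_neg hmn]
    · rw [hk.2.1, if_neg hln.symm, if_pos rfl]
  · refine ⟨j, fun z => ?_⟩
    rw [p2]
    rcases four_mem hil him hin hlm hln hmn z with h | h | h | h <;> subst h
    · rw [hj.1, if_neg him, if_pos rfl]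
    · rw [hj.2.2.1, if_neg hlm, if_neg hil.symm]
    · rw [hj.2.1, if_pos rfl, if_neg him.symm]
    · rw [hj.2.2.2, if_neg hmn.symm, if_neg hin.symm]
  · refine ⟨k, fun z => ?_⟩
    rw [p4]
    rcases four_mem hil him hin hlm hln hmn z with h | h | h | h <;> subst h
    · rw [hk.2.2.1, if_neg hin, if_neg hil]
    · rw [hk.1, if_neg hln, if_pos rfl]
    · rw [hk.2.2.2, if_neg hmn, if_neg hlm.symm]
    · rw [hk.2.1, if_pos rfl, if_neg hln.symm]

/-! ### The cases -/

/-- all coordinates are `1/2` -/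
lemma half {v : Fin r → Fin 4 → ℕ} (hV : Vert v) (hQ : ¬ Quad v) {A : Finset (Fin 4)}
    {Z : Finset (Fin r)} {a0 : Fin 4 → ℚ} (ha0 : a0 ∈ Pt v A Z)
    (hprem : ∀ i ∈ A, ∃ j, j ∉ Z ∧ 0 < v j i) (hA : ∀ x, x ∈ A) (hh : ∀ x, a0 x = 1 / 2) :
    Forced v A Z := by
  intro w hw hwZ
  have hform : ∀ j, j ∉ Z → ∀ x, 0 < v j x →
      ∃ y, ∀ z, v j z = (if z = x then 1 else 0) + (if z = y then 1 else 0) := by
    intro j hj x hx
    obtain ⟨p, hxp⟩ : ∃ p : Fin 4, x ≠ p := ⟨x + 1, ne_succ x⟩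
    obtain ⟨q, s, hxq, hxs, hpq, hps, hqs⟩ := others2 x p hxp
    have h1 := ha0.2.2.2 j hj
    rw [four_sum hxp hxq hxs hpq hps hqs] at h1
    simp only [hh] at h1
    have h2 : ((v j x + v j p + v j q + v j s : ℕ) : ℚ) = (2 : ℕ) := by
      push_cast
      linarith
    exact form2 hxp hxq hxs hpq hps hqs (by exact_mod_cast h2) hx
  rcases comb (fun x y => ∃ j, ∀ z, v j z = (if z = x then 1 else 0) + (if z = y then 1 else 0))
    (fun x y ⟨j, hj⟩ => ⟨j, fun z => by rw [hj z, add_comm]⟩)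
    (fun x => by
      obtain ⟨j, hj, hx⟩ := hprem x (hA x)
      obtain ⟨y, hy⟩ := hform j hj x hx
      exact ⟨y, j, hy⟩) with ⟨π, hπ, h⟩ | ⟨p, q, m, hpq, hpm, hqm, hp, hq⟩
  · exact absurd ⟨π, hπ, h⟩ hQ
  · have hU : ∀ p : Fin 4, (∀ y, (∃ j, ∀ z, v j z = (if z = p then 1 else 0) +
        (if z = y then 1 else 0)) → y = m) → ∀ j, w j ≠ 0 → v j p = 0 := by
      intro p hp
      refine lemU hw hwZ (hA p) fun j k hj hk pj pk => ?_
      obtain ⟨y, hy⟩ := hform j hj p pj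
      obtain ⟨y', hy'⟩ := hform k hk p pk
      have e1 := hp y ⟨j, hy⟩
      have e2 := hp y' ⟨k, hy'⟩
      by_contra hne
      apply vert2 hV hne
      intro z
      rw [hy z, hy' z, e1, e2]
    exact lemT hV ha0 (fun x => by rw [hh x]; norm_num) hA hw hwZ hpq (hU p hp) (hU q hq)

/-- two pairs of equal coordinates -/
lemma two {v : Fin r → Fin 4 → ℕ} (hV : Vert v) (hQ : ¬ Quad v) {A : Finset (Fin 4)}
    {Z : Finset (Fin r)} {a0 : Fin 4 → ℚ} (ha0 : a0 ∈ Pt v A Z)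
    (hprem : ∀ i ∈ A, ∃ j, j ∉ Z ∧ 0 < v j i) (hA : ∀ x, x ∈ A) (hpos : ∀ x, a0 x ≠ 0)
    {i l m n : Fin 4} (hil : i ≠ l) (him : i ≠ m) (hin : i ≠ n)
    (hlm : l ≠ m) (hln : l ≠ n) (hmn : m ≠ n) (e1 : a0 i = a0 l) (e2 : a0 m = a0 n)
    (hs : a0 l + a0 n = 1) (hlt : a0 l < a0 n) : Forced v A Z := by
  intro w hw hwZ
  have hl0 : 0 < a0 l := lt_of_le_of_ne (ha0.1 l) (Ne.symm (hpos l))
  have key : ∀ j, j ∉ Z → (0 < v j m ∨ 0 < v j n) → v j m + v j n = 1 ∧ v j i + v j l = 1 := by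
    intro j hj hp
    have h1 := ha0.2.2.2 j hj
    rw [four_sum hil him hin hlm hln hmn, e1, e2] at h1
    have h2 : a0 l * ((v j i + v j l : ℕ) : ℚ) + a0 n * ((v j m + v j n : ℕ) : ℚ) = 1 := by
      push_cast
      linarith
    have h3 : v j m + v j n = 1 := by
      by_contra hcon
      have h5 : (2 : ℚ) ≤ ((v j m + v j n : ℕ) : ℚ) := by
        have : 2 ≤ v j m + v j n := by omega
        exact_mod_cast this
      have h6 : a0 n * 2 ≤ a0 n * ((v j m + v j n : ℕ) : ℚ) :=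
        mul_le_mul_of_nonneg_left h5 (ha0.1 n)
      have h7 : 0 ≤ a0 l * ((v j i + v j l : ℕ) : ℚ) :=
        mul_nonneg hl0.le (Nat.cast_nonneg _)
      linarith
    refine ⟨h3, ?_⟩
    rw [h3, Nat.cast_one, mul_one] at h2
    have h4 : a0 l * ((v j i + v j l : ℕ) : ℚ) = a0 l * ((1 : ℕ) : ℚ) := by
      rw [Nat.cast_one]
      linarith
    exact_mod_cast mul_left_cancel₀ hl0.ne' h4
  -- the vertices on `m` and the vertices on `n` are on the same one of `i`, `l`
  have hsame : ∀ j k, j ∉ Z → k ∉ Z → 0 < v j m → 0 < v k n → v j i = v k i := by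
    intro j k hj hk pj pk
    have kj := key j hj (Or.inl pj)
    have kk := key k hk (Or.inr pk)
    by_contra hne
    apply hQ
    have hc : (v j i = 1 ∧ v j l = 0 ∧ v k i = 0 ∧ v k l = 1) ∨
        (v j i = 0 ∧ v j l = 1 ∧ v k i = 1 ∧ v k l = 0) := by omega
    rcases hc with ⟨c1, c2, c3, c4⟩ | ⟨c1, c2, c3, c4⟩
    · exact quad2 hil him hin hlm hln hmn (j := j) (k := k) ⟨c1, by omega, c2, by omega⟩
        ⟨c4, by omega, c3, by omega⟩
    · exact quad2 hil.symm hlm hln him hin hmn (j := j) (k := k) ⟨c2, by omega, c1, by omega⟩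
        ⟨c3, by omega, c4, by omega⟩
  obtain ⟨jm, hjm, pjm⟩ := hprem m (hA m)
  obtain ⟨jn, hjn, pjn⟩ := hprem n (hA n)
  have heq : ∀ j k, j ∉ Z → k ∉ Z → (0 < v j m ∨ 0 < v j n) → (0 < v k m ∨ 0 < v k n) →
      v j i = v k i → v j m = v k m → j = k := by
    intro j k hj hk pj pk hi hm
    have kj := key j hj pj
    have kk := key k hk pk
    by_contra hne
    apply vert2 hV hne
    intro z
    rcases four_mem hil him hin hlm hln hmn z with h | h | h | h <;> subst h <;> omega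
  have hm : ∀ j, w j ≠ 0 → v j m = 0 := by
    refine lemU hw hwZ (hA m) fun j k hj hk pj pk => ?_
    have kj := key j hj (Or.inl pj)
    have kk := key k hk (Or.inl pk)
    exact heq j k hj hk (Or.inl pj) (Or.inl pk)
      ((hsame j jn hj hjn pj pjn).trans (hsame k jn hk hjn pk pjn).symm) (by omega)
  have hn : ∀ j, w j ≠ 0 → v j n = 0 := by
    refine lemU hw hwZ (hA n) fun j k hj hk pj pk => ?_
    have kj := key j hj (Or.inr pj)
    have kk := key k hk (Or.inr pk)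
    exact heq j k hj hk (Or.inr pj) (Or.inr pk)
      ((hsame jm j hjm hj pjm pj).symm.trans (hsame jm k hjm hk pjm pk)) (by omega)
  exact lemT hV ha0 hpos hA hw hwZ hmn hm hn

lemma main1 {v : Fin r → Fin 4 → ℕ} (hV : Vert v) (hQ : ¬ Quad v) {A : Finset (Fin 4)}
    {Z : Finset (Fin r)} {a0 : Fin 4 → ℚ} (ha0 : a0 ∈ Pt v A Z)
    (hsum : ∀ a ∈ Pt v A Z, ∑ i, a i = 2)
    (hprem : ∀ i ∈ A, ∃ j, j ∉ Z ∧ 0 < v j i) (hT : ¬ ∀ x, a0 x = 0 ∨ a0 x = 1) :
    Forced v A Z ∨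
    ∃ i ∈ A, ∃ j0, v j0 i = 1 ∧ (∀ a ∈ Pt v A Z, a i ≠ 0) ∧
      ∀ j, j ≠ j0 → 0 < v j i → ∀ a ∈ Pt v A Z, ∑ i, a i * (v j i : ℚ) ≠ 1 := by
  obtain ⟨i, l, m, n, hil, him, hin, hlm, hln, hmn, h1, h2, h3⟩ := sort4 a0
  have hs := hsum a0 ha0
  rw [four_sum hil him hin hlm hln hmn] at hs
  have h0 := ha0.1 i
  have hn0 : a0 n ≠ 0 := by
    intro h
    linarith
  have hnA : n ∈ A := by
    by_contra hn
    exact hn0 (ha0.2.1 n hn)
  by_cases hc : a0 i = a0 l ∧ a0 m = a0 n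
  · obtain ⟨e1, e2⟩ := hc
    have hαγ : a0 l + a0 n = 1 := by linarith
    have hi0 : a0 i ≠ 0 := by
      intro h
      apply hT
      intro x
      rcases four_mem hil him hin hlm hln hmn x with h' | h' | h' | h' <;> subst h'
      · exact Or.inl h
      · exact Or.inl (by linarith)
      · exact Or.inr (by linarith)
      · exact Or.inr (by linarith)
    have hi1 : 0 < a0 i := lt_of_le_of_ne h0 (Ne.symm hi0)
    have hpos : ∀ x, a0 x ≠ 0 := by
      intro x
      have : 0 < a0 x := by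
        rcases four_mem hil him hin hlm hln hmn x with h' | h' | h' | h' <;> subst h' <;> linarith
      exact this.ne'
    have hA : ∀ x, x ∈ A := by
      intro x
      by_contra hx
      exact hpos x (ha0.2.1 x hx)
    left
    rcases eq_or_ne (a0 l) (a0 n) with e3 | e3
    · apply half hV hQ ha0 hprem hA
      intro x
      rcases four_mem hil him hin hlm hln hmn x with h' | h' | h' | h' <;> subst h' <;> linarith
    · exact two hV hQ ha0 hprem hA hpos hil him hin hlm hln hmn e1 e2 hαγ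
        (lt_of_le_of_ne (h2.trans h3) e3)
  · obtain ⟨j4, hj4Z, hj4⟩ := hprem n hnA
    have key : ∀ j, ∑ x, a0 x * (v j x : ℚ) = 1 → 0 < v j n →
        v j n = 1 ∧ v j m = 0 ∧ v j l = 0 := by
      intro j hj hp
      rw [four_sum hil him hin hlm hln hmn] at hj
      exact arith h0 h1 h2 h3 hs hc hj hp
    have k4 := key j4 (ha0.2.2.2 _ hj4Z) hj4
    refine lemS hV ha0 hsum hnA hn0 k4.1 ?_
    intro j hj hp
    have kj := key j hj hp
    by_contra hne
    rcases le_total (v j i) (v j4 i) with h | h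
    · apply vert2 hV (Ne.symm hne)
      intro x
      rcases four_mem hil him hin hlm hln hmn x with h' | h' | h' | h' <;> subst h' <;> omega
    · apply vert2 hV hne
      intro x
      rcases four_mem hil him hin hlm hln hmn x with h' | h' | h' | h' <;> subst h' <;> omega

/-- midpoints -/
lemma mid {v : Fin r → Fin 4 → ℕ} {A : Finset (Fin 4)} {Z : Finset (Fin r)} {a a' : Fin 4 → ℚ}
    (ha : a ∈ Pt v A Z) (ha' : a' ∈ Pt v A Z) : (fun x => (a x + a' x) / 2) ∈ Pt v A Z := by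
  have e : ∀ j, ∑ i, ((a i + a' i) / 2) * (v j i : ℚ) =
      (∑ i, a i * (v j i : ℚ) + ∑ i, a' i * (v j i : ℚ)) / 2 := by
    intro j
    rw [← Finset.sum_add_distrib, Finset.sum_div]
    exact Finset.sum_congr rfl fun i _ => by ring
  refine ⟨fun i => ?_, fun i hi => ?_, fun j => ?_, fun j hj => ?_⟩
  · have h1 := ha.1 i
    have h2 := ha'.1 i
    show 0 ≤ (a i + a' i) / 2
    linarith
  · show (a i + a' i) / 2 = 0
    rw [ha.2.1 i hi, ha'.2.1 i hi]
    norm_num
  · have h1 := ha.2.2.1 j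
    have h2 := ha'.2.2.1 j
    rw [e j]
    linarith
  · have h1 := ha.2.2.2 j hj
    have h2 := ha'.2.2.2 j hj
    rw [e j, h1, h2]
    norm_num

lemma main {v : Fin r → Fin 4 → ℕ} (hV : Vert v) (hQ : ¬ Quad v) : HypT v := by
  intro A Z hne hsum hprem
  by_cases hT : ∀ a ∈ Pt v A Z, ∀ x, a x = 0 ∨ a x = 1
  · right
    right
    obtain ⟨a0, ha0⟩ := hne
    have huni : ∀ a ∈ Pt v A Z, ∀ x, a x = a0 x := by
      intro a ha x
      have h1 : (a x + a0 x) / 2 = 0 ∨ (a x + a0 x) / 2 = 1 := hT _ (mid ha ha0) x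
      rcases hT a ha x with h2 | h2 <;> rcases hT a0 ha0 x with h3 | h3 <;>
        rw [h2, h3] at h1 ⊢ <;> rcases h1 with h1 | h1 <;> norm_num at h1
    obtain ⟨i, l, m, n, hil, him, hin, hlm, hln, hmn, h1, h2, h3⟩ := sort4 a0
    have hs := hsum a0 ha0
    rw [four_sum hil him hin hlm hln hmn] at hs
    have hval : a0 i = 0 ∧ a0 l = 0 ∧ a0 m = 1 ∧ a0 n = 1 := by
      rcases hT a0 ha0 i with g1 | g1 <;> rcases hT a0 ha0 l with g2 | g2 <;>
      rcases hT a0 ha0 m with g3 | g3 <;> rcases hT a0 ha0 n with g4 | g4 <;>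
      first
        | exact ⟨g1, g2, g3, g4⟩
        | (exfalso; linarith)
    have hmA : m ∈ A := by
      by_contra h
      have := ha0.2.1 m h
      rw [hval.2.2.1] at this
      exact one_ne_zero this
    have hnA : n ∈ A := by
      by_contra h
      have := ha0.2.1 n h
      rw [hval.2.2.2] at this
      exact one_ne_zero this
    refine ⟨m, hmA, n, hnA, hmn, fun a ha => ⟨?_, ?_, fun x hxm hxn => ?_⟩⟩
    · rw [huni a ha m, hval.2.2.1]
    · rw [huni a ha n, hval.2.2.2]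
    · rw [huni a ha x]
      rcases four_mem hil him hin hlm hln hmn x with h | h | h | h
      · rw [h, hval.1]
      · rw [h, hval.2.1]
      · exact absurd h hxm
      · exact absurd h hxn
  · push Not at hT
    obtain ⟨a0, ha0, x, hx⟩ := hT
    rcases main1 hV hQ ha0 hsum hprem (fun h => (h x).elim hx.1 hx.2) with h | h
    · exact Or.inl h
    · exact Or.inr (Or.inl h)

end Pool.Agent.Y231.N4.L2A

namespace Pool.Agent.Y231.N4

/-- **Part L2.** -/
theorem stL2 : StL2 := by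
  intro r v _ hV
  by_cases hQ : Quad v
  · exact Or.inr hQ
  · exact Or.inl (L2A.main hV hQ)

end Pool.Agent.Y231.N4
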