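import Pool.Agent.Y231.N4.L2

/-!
# Part G of the level two: generic coefficients, the Hessian
-/

set_option autoImplicit false

namespace Pool.Agent.Y231.N4.L2G

open MvPolynomial
open Pool.Agent.Y231.N4

/-- the monomial with the exponent `e_x + e_y` -/
lemma prod_two {K : Type} [CommRing K] (x y : Fin 4) (d : Fin 4 → ℕ)
    (hd : ∀ z, d z = (if z = x then 1 else 0) + (if z = y then 1 else 0)) :
    (∏ z, (X z : MvPolynomial (Fin 4) K) ^ d z) = X x * X y := by
  have h1 : ∀ z, (X z : MvPolynomial (Fin 4) K) ^ d z =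
      (if z = x then X z else 1) * (if z = y then X z else 1) := by
    intro z
    rw [hd z, pow_add]
    split_ifs <;> simp
  rw [Finset.prod_congr rfl fun z _ => h1 z, Finset.prod_mul_distrib]
  simp

lemma hess_two {K : Type} [CommRing K] (x y i k : Fin 4) :
    constantCoeff (pderiv i (pderiv k (X x * X y : MvPolynomial (Fin 4) K))) =
      (if x = k then 1 else 0) * (if y = i then 1 else 0) +
      (if y = k then 1 else 0) * (if x = i then 1 else 0) := by
  have h : ∀ a b : Fin 4, pderiv a (X b : MvPolynomial (Fin 4) K) = if b = a then 1 else 0 := by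
    intro a b
    rw [pderiv_X, Pi.single_apply]
  rw [Derivation.leibniz, h, h]
  simp only [smul_eq_mul, map_add, Derivation.leibniz, h]
  split_ifs <;> simp

/-- permutation matrices -/
def PM (K : Type) [CommRing K] (π : Equiv.Perm (Fin 4)) : Matrix (Fin 4) (Fin 4) K :=
  Matrix.of fun i k => if π i = k then 1 else 0

lemma PM_mul {K : Type} [CommRing K] (σ τ : Equiv.Perm (Fin 4)) :
    PM K σ * PM K τ = PM K (τ * σ) := by
  ext i k
  simp only [PM, Matrix.mul_apply, Matrix.of_apply]
  rw [Finset.sum_eq_single (σ i)]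
  · rw [if_pos rfl, one_mul]
    rfl
  · intro j _ hj
    rw [if_neg (Ne.symm hj), zero_mul]
  · intro hj
    exact absurd (Finset.mem_univ _) hj

lemma PM_one {K : Type} [CommRing K] : PM K 1 = 1 := by
  ext i k
  by_cases h : i = k
  · rw [h, Matrix.one_apply_eq]
    exact if_pos rfl
  · rw [Matrix.one_apply_ne h]
    exact if_neg h

lemma PM_pow {K : Type} [CommRing K] (σ : Equiv.Perm (Fin 4)) (n : ℕ) :
    PM K σ ^ n = PM K (σ ^ n) := by
  induction n with
  | zero => rw [pow_zero, pow_zero, PM_one]
  | succ n ih => rw [pow_succ, ih, PM_mul, pow_succ']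

lemma det_perm {K : Type} [Field K] [CharZero K] (π : Equiv.Perm (Fin 4)) (h : π ^ 6 = 1) :
    (PM K π + PM K π⁻¹).det ≠ 0 := by
  have h1 : PM K π⁻¹ * PM K π = 1 := by rw [PM_mul, mul_inv_cancel, PM_one]
  have h6 : PM K π ^ 6 = 1 := by rw [PM_pow, h, PM_one]
  have h2 : (PM K π + PM K π⁻¹) * (PM K π * (PM K π ^ 4 - PM K π ^ 2 + 1)) =
      (2 : K) • (1 : Matrix (Fin 4) (Fin 4) K) := by
    rw [← mul_assoc, add_mul, h1, two_smul]
    have e : (PM K π * PM K π + 1) * (PM K π ^ 4 - PM K π ^ 2 + 1) = PM K π ^ 6 + 1 := by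
      noncomm_ring
    rw [e, h6]
  intro h0
  have h3 := congrArg Matrix.det h2
  rw [Matrix.det_mul, h0, zero_mul, Matrix.det_smul, Matrix.det_one, mul_one, Fintype.card_fin] at h3
  exact (pow_ne_zero 4 (two_ne_zero (α := K))) h3.symm

lemma stG : StG := by
  classical
  intro r F _ _ v _ hQ h
  obtain ⟨π, hπ, hJ⟩ := hQ
  choose J hJ using hJ
  have hF : CharZero F := (algebraMap F ℂ).charZero
  let E : Fin 4 → Fin 4 → Fin r → F := fun i k j =>
    constantCoeff (pderiv i (pderiv k (∏ x, (X x : MvPolynomial (Fin 4) F) ^ v j x)))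
  let H : Fin 4 → Fin 4 → F := fun i k => constantCoeff (pderiv i (pderiv k h))
  let G : Matrix (Fin 4) (Fin 4) (MvPolynomial (Fin r) F) :=
    Matrix.of fun i k => ∑ j, X j * C (E i k j) + C (H i k)
  refine ⟨G.det, ?_, ?_⟩
  · intro h0
    let c0 : Fin r → F := fun j => ∑ x : Fin 4, if j = J x then 1 else 0
    let φ : MvPolynomial (Fin r) F →ₐ[F] Polynomial F :=
      aeval fun j => Polynomial.C (c0 j) * Polynomial.X
    let A : Matrix (Fin 4) (Fin 4) F := Matrix.of fun i k => ∑ j, c0 j * E i k j
    have hA : A = PM F π + PM F π⁻¹ := by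
      ext i k
      have e1 : ∀ j, c0 j * E i k j = ∑ x : Fin 4, if j = J x then E i k j else 0 := by
        intro j
        simp only [c0, Finset.sum_mul, ite_mul, one_mul, zero_mul]
      have e2 : ∀ x, E i k (J x) = (if x = k then 1 else 0) * (if π x = i then 1 else 0) +
          (if π x = k then 1 else 0) * (if x = i then 1 else 0) := by
        intro x
        simp only [E]
        rw [prod_two x (π x) (v (J x)) (fun z => hJ x z), hess_two]
      simp only [A, Matrix.of_apply, Matrix.add_apply, PM]
      rw [Finset.sum_congr rfl fun j _ => e1 j, Finset.sum_comm]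
      simp only [Finset.sum_ite_eq', Finset.mem_univ, if_true, e2, Finset.sum_add_distrib]
      rw [add_comm]
      congr 1
      · simp
      · simp only [ite_mul, one_mul, zero_mul, Finset.sum_ite_eq', Finset.mem_univ, if_true]
        have : (π k = i) ↔ (π⁻¹ i = k) := by
          rw [Equiv.Perm.inv_eq_iff_eq, eq_comm]
        simp only [this]
    have h1 : φ.mapMatrix G = (Polynomial.X : Polynomial F) • A.map Polynomial.C +
        (Matrix.of H).map Polynomial.C := by
      ext1 i k
      simp only [G, A, φ, AlgHom.mapMatrix_apply, Matrix.map_apply, Matrix.of_apply, map_add,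
        map_sum, map_mul, aeval_X, aeval_C, Matrix.add_apply, Matrix.smul_apply, smul_eq_mul,
        Finset.mul_sum]
      congr 1
      refine Finset.sum_congr rfl fun j _ => ?_
      simp only [Polynomial.algebraMap_eq]
      ring
    have h2 := congrArg φ h0
    rw [map_zero, AlgHom.map_det, h1] at h2
    have h3 := Polynomial.coeff_det_X_add_C_card A (Matrix.of H)
    rw [h2, Polynomial.coeff_zero, hA] at h3
    exact det_perm π hπ h3.symm
  · intro c hc h0
    apply hc
    rw [AlgHom.map_det, ← h0]
    congr 1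
    ext i k
    simp only [G, AlgHom.mapMatrix_apply, Matrix.map_apply, Matrix.of_apply, map_add,
      map_sum, map_mul, aeval_X, aeval_C]
    congr 1
    · refine Finset.sum_congr rfl fun j _ => ?_
      have e1 : pderiv i (pderiv k (C (c j) * ∏ x, (X x : MvPolynomial (Fin 4) ℂ) ^ v j x)) =
          C (c j) * pderiv i (pderiv k (∏ x, (X x : MvPolynomial (Fin 4) ℂ) ^ v j x)) := by
        rw [pderiv_C_mul, pderiv_C_mul]
      have e2 : (∏ x, (X x : MvPolynomial (Fin 4) ℂ) ^ v j x) =
          MvPolynomial.map (algebraMap F ℂ) (∏ x, (X x : MvPolynomial (Fin 4) F) ^ v j x) := by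
        simp [map_prod]
      rw [e1, map_mul, constantCoeff_C, e2, pderiv_map, pderiv_map, constantCoeff_map]
    · rw [pderiv_map, pderiv_map, constantCoeff_map]

end Pool.Agent.Y231.N4.L2G

namespace Pool.Agent.Y231.N4

/-- **Part G.** -/
theorem stG : StG := L2G.stG

end Pool.Agent.Y231.N4
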