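import Pool.Agent.Y231.N4.L2
import Pool.Agent.Y430.N4M1

set_option autoImplicit false

namespace Pool.Agent.Y231.N4

/-- **Part M1.** -/
theorem stM1 : StM1 := fun _ _ _ K hf h1 h2 h3 h4 h5 b hb =>
  Pool.Agent.Y430.N4M1.main hf K h1 h2 h3 h4 h5 b hb

end Pool.Agent.Y231.N4
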