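import Pool.Agent.Y231.N4.L2
import Pool.Agent.Y382.N4M2

/-!
# The functionals of a nondegenerate critical point in four variables (helper382)
-/

set_option autoImplicit false

namespace Pool.Agent.Y231.N4

theorem stM2 : StM2 := Pool.Agent.Y382.N4M2.main

end Pool.Agent.Y231.N4
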