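import Pool.Agent.Y231.N4.M2

/-!
# The normal form: the solutions of the relations
-/

set_option autoImplicit false

namespace Pool.Agent.Y231.N4

open Pool.Agent.TH216.MF
open Pool.Agent.W426.SM (gord face)

variable {r : ℕ} (v : Fin r → Fin 4 → ℕ)

/-- `(-1)^{...} t^{...}` if `ρ` reduces to `κ` -/
noncomputable def PK (κ τ ρ : Finset (Fin r)) (n : ℕ) : Polynomial ℤ :=
  if bas v Finset.univ ρ = κ then (-1) ^ (τ.card + κ.card + n) *
    Polynomial.X ^ (mx v Finset.univ κ + n - (frc v Finset.univ τ + τ.card)) else 0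

/-- the value of a structure -/
noncomputable def valP (κ τ σ : Finset (Fin r)) (i l : Fin 4) : Polynomial ℤ :=
  -PK v κ τ (P0 v i l σ) ((P1 v i l σ).card + (P1 v l i σ).card - 2) +
    PK v κ τ (P0 v i l σ ∪ P1 v i l σ) ((P1 v l i σ).card - 1) +
    PK v κ τ (P0 v i l σ ∪ P1 v l i σ) ((P1 v i l σ).card - 1)

open Classical in
/-- the polynomials -/
noncomputable def pB (κ τ : Finset (Fin r)) : Polynomial ℤ :=
  if h : ∃ p : Fin 4 × Fin 4, St2 v (bas v Finset.univ τ) p.1 p.2 then
    valP v κ τ (bas v Finset.univ τ) h.choose.1 h.choose.2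
  else PK v κ τ (bas v Finset.univ τ) 0

variable {v}

lemma frc_anti {N : ℕ} (w : Fin r → Fin N → ℕ) (J : Finset (Fin N)) {σ τ : Finset (Fin r)}
    (h : σ ⊆ τ) : frc w J τ ≤ frc w J σ := by
  unfold frc
  refine Finset.card_le_card fun i hi => ?_
  unfold Pool.Agent.W428.MOT.free at hi ⊢
  rw [Finset.mem_filter] at hi ⊢
  exact ⟨hi.1, hi.2.1, fun j hj => hi.2.2 j (h hj)⟩

/-- the set of the free coordinates becomes smaller -/
lemma frc_lt {N : ℕ} (w : Fin r → Fin N → ℕ) {σ τ : Finset (Fin r)} (h : σ ⊆ τ)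
    (T : Finset (Fin N)) (h1 : ∀ i ∈ T, ∀ j ∈ σ, w j i = 0) (h2 : ∀ i ∈ T, ∃ j ∈ τ, w j i ≠ 0) :
    frc w Finset.univ τ + T.card ≤ frc w Finset.univ σ := by
  unfold frc
  rw [← Finset.card_union_of_disjoint]
  · refine Finset.card_le_card fun i hi => ?_
    unfold Pool.Agent.W428.MOT.free at hi ⊢
    rw [Finset.mem_filter]
    rcases Finset.mem_union.1 hi with hi | hi
    · rw [Finset.mem_filter] at hi
      exact ⟨hi.1, hi.2.1, fun j hj => hi.2.2 j (h hj)⟩
    · exact ⟨Finset.mem_univ i, rfl, fun j hj => h1 i hi j hj⟩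
  · rw [Finset.disjoint_left]
    intro i hi hi'
    unfold Pool.Agent.W428.MOT.free at hi
    rw [Finset.mem_filter] at hi
    obtain ⟨j, hj, hne⟩ := h2 i hi'
    exact hne (hi.2.2 j hj)

/-- the conditions on the exponents -/
def OKe (v : Fin r → Fin 4 → ℕ) (τ ρ : Finset (Fin r)) (n : ℕ) : Prop :=
  frc v Finset.univ τ + τ.card ≤ mx v Finset.univ (bas v Finset.univ ρ) + n ∧
    ρ.card + n ≤ τ.card

lemma part_card {i l : Fin 4} {σ : Finset (Fin r)} (h : Two v i l σ) :
    (P0 v i l σ).card + (P1 v i l σ).card + (P1 v l i σ).card = σ.card := by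
  classical
  rw [← Finset.card_union_of_disjoint, ← Finset.card_union_of_disjoint]
  · congr 1
    ext j
    rw [Finset.mem_union, Finset.mem_union, mem_P0, mem_P1, mem_P1]
    constructor
    · rintro ((h1 | h1) | h1) <;> exact h1.1
    · intro hj
      rcases h.2 j hj with h1 | h1 | h1
      · exact Or.inl (Or.inl ⟨hj, h1⟩)
      · exact Or.inl (Or.inr ⟨hj, h1⟩)
      · exact Or.inr ⟨hj, h1.2, h1.1⟩
  · rw [Finset.disjoint_left]
    intro j hj hj'
    rw [Finset.mem_union, mem_P0, mem_P1] at hj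
    rw [mem_P1] at hj'
    omega
  · rw [Finset.disjoint_left]
    intro j hj hj'
    rw [mem_P0] at hj
    rw [mem_P1] at hj'
    omega

lemma oke_bas (τ : Finset (Fin r)) : OKe v τ (bas v Finset.univ τ) 0 := by
  refine ⟨?_, ?_⟩
  · rw [bas_bas, add_zero]
    exact le_mx v Finset.univ τ
  · rw [add_zero]
    exact bas_card v Finset.univ τ

lemma bas_frc (τ : Finset (Fin r)) : frc v Finset.univ τ + τ.card ≤
    frc v Finset.univ (bas v Finset.univ τ) + (bas v Finset.univ τ).card := by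
  have := le_mx v Finset.univ τ
  unfold mx at this
  exact this

section
variable {i l : Fin 4} {τ : Finset (Fin r)}

lemma oke_0 (h : St2 v (bas v Finset.univ τ) i l) :
    OKe v τ (P0 v i l (bas v Finset.univ τ))
      ((P1 v i l (bas v Finset.univ τ)).card + (P1 v l i (bas v Finset.univ τ)).card - 2) := by
  set σ := bas v Finset.univ τ with hσ
  have h0 := part_card h.1
  have h1 := bas_frc (v := v) τ
  have h2 := bas_card v Finset.univ τ
  rw [← hσ] at h1 h2
  have h3 := le_mx v Finset.univ (P0 v i l σ)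
  have h4 := h.2.1
  have h5 := h.2.2
  have h6 := frc_lt v (σ := P0 v i l σ) (τ := σ) (Finset.filter_subset _ _) {i, l} (by
    intro x hx j hj
    rw [mem_P0] at hj
    rw [Finset.mem_insert, Finset.mem_singleton] at hx
    rcases hx with rfl | rfl
    · exact hj.2.1
    · exact hj.2.2) (by
    intro x hx
    rw [Finset.mem_insert, Finset.mem_singleton] at hx
    rcases hx with rfl | rfl
    · obtain ⟨j, hj, -⟩ := two_of_card h4
      rw [mem_P1] at hj
      exact ⟨j, hj.1, by omega⟩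
    · obtain ⟨j, hj, -⟩ := two_of_card h5
      rw [mem_P1] at hj
      exact ⟨j, hj.1, by omega⟩)
  rw [Finset.card_pair h.1.1] at h6
  constructor <;> omega

lemma oke_1 (h : St2 v (bas v Finset.univ τ) i l) :
    OKe v τ (P0 v i l (bas v Finset.univ τ) ∪ P1 v i l (bas v Finset.univ τ))
      ((P1 v l i (bas v Finset.univ τ)).card - 1) := by
  classical
  set σ := bas v Finset.univ τ with hσ
  have h0 := part_card h.1
  have h1 := bas_frc (v := v) τ
  have h2 := bas_card v Finset.univ τ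
  rw [← hσ] at h1 h2
  have h3 := le_mx v Finset.univ (P0 v i l σ ∪ P1 v i l σ)
  have h4 := h.2.1
  have h5 := h.2.2
  have hc : (P0 v i l σ ∪ P1 v i l σ).card = (P0 v i l σ).card + (P1 v i l σ).card := by
    refine Finset.card_union_of_disjoint ?_
    rw [Finset.disjoint_left]
    intro j hj hj'
    rw [mem_P0] at hj
    rw [mem_P1] at hj'
    omega
  have h6 := frc_lt v (σ := P0 v i l σ ∪ P1 v i l σ) (τ := σ)
    (Finset.union_subset (Finset.filter_subset _ _) (Finset.filter_subset _ _)) {l} (by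
    intro x hx j hj
    rw [Finset.mem_union, mem_P0, mem_P1] at hj
    rw [Finset.mem_singleton] at hx
    subst hx
    rcases hj with hj | hj
    · exact hj.2.2
    · exact hj.2.2) (by
    intro x hx
    rw [Finset.mem_singleton] at hx
    subst hx
    obtain ⟨j, hj, -⟩ := two_of_card h5
    rw [mem_P1] at hj
    exact ⟨j, hj.1, by omega⟩)
  rw [Finset.card_singleton] at h6
  constructor <;> omega

end

lemma natDegree_PK (κ τ ρ : Finset (Fin r)) (n : ℕ) (h : OKe v τ ρ n) :
    (PK v κ τ ρ n).natDegree + frc v Finset.univ τ ≤ (Finset.univ : Finset (Fin 4)).card := by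
  unfold PK
  have h0 := frc_le v Finset.univ τ
  split_ifs with hκ
  · obtain ⟨h1, h2⟩ := h
    rw [hκ] at h1
    have h3 : ((-1 : Polynomial ℤ) ^ (τ.card + κ.card + n) *
        Polynomial.X ^ (mx v Finset.univ κ + n -
          (frc v Finset.univ τ + τ.card))).natDegree ≤
        mx v Finset.univ κ + n - (frc v Finset.univ τ + τ.card) := by
      rcases neg_one_pow_eq_or (Polynomial ℤ) (τ.card + κ.card + n) with h4 | h4
      · rw [h4, one_mul, Polynomial.natDegree_X_pow]
      · rw [h4, neg_one_mul, Polynomial.natDegree_neg, Polynomial.natDegree_X_pow]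
    have h4 := bas_card v Finset.univ ρ
    rw [hκ] at h4
    have h5 := frc_le v Finset.univ κ
    have h6 : mx v Finset.univ κ = frc v Finset.univ κ + κ.card := rfl
    omega
  · rw [Polynomial.natDegree_zero, zero_add]
    exact h0

lemma natDegree_add3 {a b c : Polynomial ℤ} {n m : ℕ} (ha : a.natDegree + m ≤ n)
    (hb : b.natDegree + m ≤ n) (hc : c.natDegree + m ≤ n) : (-a + b + c).natDegree + m ≤ n := by
  have h1 := Polynomial.natDegree_add_le (-a + b) c
  have h2 := Polynomial.natDegree_add_le (-a) b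
  rw [Polynomial.natDegree_neg] at h2
  have h3 : (-a + b + c).natDegree ≤ max (max a.natDegree b.natDegree) c.natDegree :=
    h1.trans (max_le_max h2 le_rfl)
  have h4 : max (max a.natDegree b.natDegree) c.natDegree + m ≤ n := by
    rcases max_choice (max a.natDegree b.natDegree) c.natDegree with h | h <;> rw [h]
    · rcases max_choice a.natDegree b.natDegree with h' | h' <;> rw [h'] <;> assumption
    · assumption
  omega

lemma polS_pB (κ : Finset (Fin r)) : PolS v Finset.univ (pB v κ) := by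
  classical
  refine ⟨fun τ => ?_, ?_⟩
  · unfold pB
    split_ifs with h
    · have h1 := h.choose_spec
      set p := h.choose
      unfold valP
      refine natDegree_add3 (natDegree_PK κ τ _ _ (oke_0 h1)) (natDegree_PK κ τ _ _ (oke_1 h1)) ?_
      have h2 := oke_1 (st2_symm h1)
      rw [P0_comm] at h2
      exact natDegree_PK κ τ _ _ h2
    · exact natDegree_PK κ τ _ _ (oke_bas τ)
  · unfold pB
    rw [dif_neg]
    · unfold PK
      rw [bas_bas, bas_empty]
      split_ifs with h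
      · right
        subst h
        unfold mx
        simp
      · exact Or.inl rfl
    · rintro ⟨p, -, h1, -⟩
      obtain ⟨j, hj, -⟩ := two_of_card h1
      rw [mem_P1, bas_empty] at hj
      exact absurd hj.1 (Finset.notMem_empty _)

lemma pB_empty (κ : Finset (Fin r)) : pB v κ ∅ = 1 ↔ κ = ∅ := by
  classical
  unfold pB
  rw [dif_neg]
  · unfold PK
    rw [bas_bas, bas_empty]
    constructor
    · intro h
      by_contra hne
      rw [if_neg (Ne.symm hne)] at h
      exact zero_ne_one h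
    · rintro rfl
      rw [if_pos rfl]
      unfold mx
      simp
  · rintro ⟨p, -, h1, -⟩
    obtain ⟨j, hj, -⟩ := two_of_card h1
    rw [mem_P1, bas_empty] at hj
    exact absurd hj.1 (Finset.notMem_empty _)

/-! ### the values -/

/-- `1` if `ρ` reduces to `κ` -/
noncomputable def dl (v : Fin r → Fin 4 → ℕ) (κ ρ : Finset (Fin r)) : ℂ :=
  if bas v Finset.univ ρ = κ then 1 else 0

/-- the value of a structure -/
noncomputable def valE (v : Fin r → Fin 4 → ℕ) (s : ℂ) (κ σ : Finset (Fin r)) (i l : Fin 4) : ℂ :=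
  -s ^ ((P1 v i l σ).card + (P1 v l i σ).card - 2) * dl v κ (P0 v i l σ) +
    s ^ ((P1 v l i σ).card - 1) * dl v κ (P0 v i l σ ∪ P1 v i l σ) +
    s ^ ((P1 v i l σ).card - 1) * dl v κ (P0 v i l σ ∪ P1 v l i σ)

open Classical in
/-- the normalised solution -/
noncomputable def EE (v : Fin r → Fin 4 → ℕ) (s : ℂ) (κ τ : Finset (Fin r)) : ℂ :=
  if h : ∃ p : Fin 4 × Fin 4, St2 v (bas v Finset.univ τ) p.1 p.2 then
    valE v s κ (bas v Finset.univ τ) h.choose.1 h.choose.2
  else dl v κ (bas v Finset.univ τ)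

lemma ev_PK (q : ℕ) (κ τ ρ : Finset (Fin r)) (n : ℕ) (h : OKe v τ ρ n) :
    (-((q : ℂ) - 1)) ^ τ.card * (((q : ℂ) - 1) ^ frc v Finset.univ τ * ev1 q (PK v κ τ ρ n)) =
      (-1) ^ κ.card * ((q : ℂ) - 1) ^ mx v Finset.univ κ * ((-((q : ℂ) - 1)) ^ n * dl v κ ρ) := by
  unfold PK dl
  split_ifs with hκ
  · have h1 := h.1
    rw [hκ] at h1
    have h2 : ev1 q Polynomial.X = (q : ℂ) - 1 := by
      unfold ev1
      simp
    rw [map_mul, map_pow, map_pow, map_neg, map_one, h2]
    obtain ⟨d, hd⟩ : ∃ d, mx v Finset.univ κ + n = frc v Finset.univ τ + τ.card + d :=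
      ⟨mx v Finset.univ κ + n - (frc v Finset.univ τ + τ.card), by omega⟩
    rw [show mx v Finset.univ κ + n - (frc v Finset.univ τ + τ.card) = d by omega]
    rw [neg_pow ((q : ℂ) - 1) τ.card, neg_pow ((q : ℂ) - 1) n, mul_one]
    have h3 : ((q : ℂ) - 1) ^ mx v Finset.univ κ * ((q : ℂ) - 1) ^ n =
        ((q : ℂ) - 1) ^ frc v Finset.univ τ * ((q : ℂ) - 1) ^ τ.card * ((q : ℂ) - 1) ^ d := by
      rw [← pow_add, ← pow_add, ← pow_add, hd]
    have h4 : (-1 : ℂ) ^ τ.card * (-1) ^ (τ.card + κ.card + n) = (-1) ^ κ.card * (-1) ^ n := by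
      rw [pow_add, pow_add]
      have : (-1 : ℂ) ^ τ.card * (-1) ^ τ.card = 1 := by
        rw [← mul_pow, neg_one_mul, neg_neg, one_pow]
      linear_combination ((-1) ^ κ.card * (-1) ^ n) * this
    linear_combination (((q : ℂ) - 1) ^ frc v Finset.univ τ * ((q : ℂ) - 1) ^ τ.card *
      ((q : ℂ) - 1) ^ d) * h4 - ((-1) ^ κ.card * (-1) ^ n) * h3
  · rw [map_zero, mul_zero, mul_zero, mul_zero, mul_zero]

lemma ev_pB (q : ℕ) (κ τ : Finset (Fin r)) :
    (-((q : ℂ) - 1)) ^ τ.card * eP q v Finset.univ (pB v κ) τ =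
      (-1) ^ κ.card * ((q : ℂ) - 1) ^ mx v Finset.univ κ * EE v (-((q : ℂ) - 1)) κ τ := by
  classical
  unfold eP pB EE
  split_ifs with h
  · have h1 := h.choose_spec
    set p := h.choose
    unfold valP valE
    have e0 := ev_PK q κ τ _ _ (oke_0 h1)
    have e1 := ev_PK q κ τ _ _ (oke_1 h1)
    have h2 := oke_1 (st2_symm h1)
    rw [P0_comm] at h2
    have e2 := ev_PK q κ τ _ _ h2
    rw [map_add, map_add, map_neg]
    linear_combination -e0 + e1 + e2
  · have := ev_PK q κ τ _ _ (oke_bas (v := v) τ)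
    rw [pow_zero, one_mul] at this
    exact this

lemma EE_congr (s : ℂ) (κ : Finset (Fin r)) {τ τ' : Finset (Fin r)}
    (h : bas v Finset.univ τ = bas v Finset.univ τ') : EE v s κ τ = EE v s κ τ' := by
  unfold EE
  rw [h]

lemma dl_congr (κ : Finset (Fin r)) {τ τ' : Finset (Fin r)}
    (h : bas v Finset.univ τ = bas v Finset.univ τ') : dl v κ τ = dl v κ τ' := by
  unfold dl
  rw [h]

lemma krelJ_pB (q : ℕ) (hq : 2 ≤ q) (κ : Finset (Fin r)) :
    KRelJ q v Finset.univ (eP q v Finset.univ (pB v κ)) := by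
  classical
  intro i hi j0 τ hj0 hτ
  have hs : (-((q : ℂ) - 1)) ≠ 0 := by
    rw [neg_ne_zero, sub_ne_zero]
    have : q ≠ 1 := by omega
    exact_mod_cast this
  have h1 := ev_pB (v := v) q κ τ
  have h2 := ev_pB (v := v) q κ (insert j0 τ)
  rw [EE_congr (v := v) _ κ (bas_step v Finset.univ i hi j0 hj0 τ hτ),
    Finset.card_insert_of_notMem (notMem_step v i j0 hj0 τ hτ), pow_succ] at h2
  have h3 : (-((q : ℂ) - 1)) ^ τ.card ≠ 0 := pow_ne_zero _ hs
  refine mul_left_cancel₀ h3 ?_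
  linear_combination -h2 + h1

/-- the uniqueness of the value -/
lemma valE_uniq (hv : Function.Injective v) (s : ℂ) (κ : Finset (Fin r)) {σ : Finset (Fin r)}
    (hσ : Hyp v σ) {i l i' l' : Fin 4} (h : St2 v σ i l) (h' : St2 v σ i' l') :
    valE v s κ σ i' l' = valE v s κ σ i l := by
  have par : ∀ i l : Fin 4, Par σ v i l →
      valE v s κ σ i l = -s ^ 2 * dl v κ ∅ + s * dl v κ ∅ + s * dl v κ ∅ := by
    rintro i l ⟨h1, h2, h3, h4, h5⟩
    unfold valE
    rw [h1, h2, h3, Finset.empty_union, Finset.empty_union,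
      dl_congr κ (show bas v Finset.univ (P1 v i l σ) = bas v Finset.univ ∅ by
        rw [h4, bas_empty]),
      dl_congr κ (show bas v Finset.univ (P1 v l i σ) = bas v Finset.univ ∅ by
        rw [h5, bas_empty])]
    norm_num
  rcases two_str hv hσ h h' with ⟨rfl, rfl⟩ | ⟨rfl, rfl⟩ | ⟨h1, h2⟩
  · rfl
  · unfold valE
    rw [P0_comm v l' i', add_comm (P1 v i' l' σ).card (P1 v l' i' σ).card]
    ring
  · rw [par i l h1, par i' l' h2]

lemma EE_of_st2 (hv : Function.Injective v) (s : ℂ) (κ : Finset (Fin r)) {τ : Finset (Fin r)}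
    (hτ : Hyp v τ) {i l : Fin 4} (h : St2 v (bas v Finset.univ τ) i l) :
    EE v s κ τ = valE v s κ (bas v Finset.univ τ) i l := by
  classical
  unfold EE
  have hex : ∃ p : Fin 4 × Fin 4, St2 v (bas v Finset.univ τ) p.1 p.2 := ⟨(i, l), h⟩
  rw [dif_pos hex]
  exact valE_uniq hv s κ (hyp_sub (bas_sub v Finset.univ τ) hτ) h hex.choose_spec

lemma EE_of_zero (hv : Function.Injective v) (s : ℂ) (κ : Finset (Fin r)) {τ : Finset (Fin r)}
    (hτ : Hyp v τ) (l0 : Fin 4) (h0 : ∀ j ∈ τ, v j l0 = 0) : EE v s κ τ = dl v κ τ := by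
  classical
  unfold EE
  rw [dif_neg]
  · exact dl_congr κ (bas_bas v Finset.univ τ)
  · rintro ⟨p, hp⟩
    exact no_st2 hv (hyp_sub (bas_sub v Finset.univ τ) hτ) l0
      (fun j hj => h0 j (bas_sub v Finset.univ τ hj)) _ _ hp

/-- the relation for two directions -/
lemma EE_two (hv : Function.Injective v) (s : ℂ) (κ : Finset (Fin r)) {τ : Finset (Fin r)}
    (hτ : Hyp v τ) {i l : Fin 4} (h : Two v i l τ) (h1 : (P1 v i l τ).Nonempty)
    (h2 : (P1 v l i τ).Nonempty) :
    s ^ 2 * EE v s κ τ = -s ^ ((P1 v i l τ).card + (P1 v l i τ).card) * EE v s κ (P0 v i l τ) +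
      s ^ ((P1 v l i τ).card + 1) * EE v s κ (P0 v i l τ ∪ P1 v i l τ) +
      s ^ ((P1 v i l τ).card + 1) * EE v s κ (P0 v i l τ ∪ P1 v l i τ) := by
  classical
  have hsplit : τ = P0 v i l τ ∪ (P1 v i l τ ∪ P1 v l i τ) := by
    ext j
    rw [Finset.mem_union, Finset.mem_union, mem_P0, mem_P1, mem_P1]
    constructor
    · intro hj
      rcases h.2 j hj with h3 | h3 | h3
      · exact Or.inl ⟨hj, h3⟩
      · exact Or.inr (Or.inl ⟨hj, h3⟩)
      · exact Or.inr (Or.inr ⟨hj, h3.2, h3.1⟩)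
    · rintro (h3 | h3 | h3) <;> exact h3.1
  -- one point in a part
  have one : ∀ i l : Fin 4, (P1 v i l τ).card = 1 →
      τ = P0 v i l τ ∪ (P1 v i l τ ∪ P1 v l i τ) →
      EE v s κ τ = EE v s κ (P0 v i l τ ∪ P1 v l i τ) ∧
      EE v s κ (P0 v i l τ ∪ P1 v i l τ) = EE v s κ (P0 v i l τ) := by
    intro i l hc hs
    obtain ⟨j0, hj0⟩ := Finset.card_eq_one.1 hc
    have hj0' : j0 ∈ P1 v i l τ := by
      rw [hj0]
      exact Finset.mem_singleton_self j0
    rw [mem_P1] at hj0'
    constructor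
    · have e : τ = insert j0 (P0 v i l τ ∪ P1 v l i τ) := by
        rw [hj0] at hs
        rw [Finset.insert_eq, Finset.union_left_comm]
        exact hs
      refine EE_congr s κ ?_
      conv_lhs => rw [e]
      refine bas_step v Finset.univ i (Finset.mem_univ i) j0 hj0'.2.1 _ fun j hj => ?_
      rw [Finset.mem_union, mem_P0, mem_P1] at hj
      rcases hj with hj | hj
      · exact hj.2.1
      · exact hj.2.2
    · have e : P0 v i l τ ∪ P1 v i l τ = insert j0 (P0 v i l τ) := by
        rw [hj0, Finset.insert_eq, Finset.union_comm]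
      refine EE_congr s κ ?_
      rw [e]
      refine bas_step v Finset.univ i (Finset.mem_univ i) j0 hj0'.2.1 _ fun j hj => ?_
      rw [mem_P0] at hj
      exact hj.2.1
  have hc1 := h1.card_pos
  have hc2 := h2.card_pos
  by_cases ha : (P1 v i l τ).card = 1
  · obtain ⟨e1, e2⟩ := one i l ha hsplit
    rw [e1, e2, ha, add_comm 1]
    ring
  by_cases hb : (P1 v l i τ).card = 1
  · obtain ⟨e1, e2⟩ := one l i hb (by
      rw [P0_comm, Finset.union_comm (P1 v l i τ)]
      exact hsplit)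
    rw [P0_comm] at e1 e2
    rw [e1, e2, hb]
    ring
  -- both parts have at least two points
  have hS : St2 v τ i l := ⟨h, by omega, by omega⟩
  set σ := bas v Finset.univ τ with hσ
  have hin : P1 v i l τ ∪ P1 v l i τ ⊆ σ :=
    sub_bas v _ (Finset.union_subset (Finset.filter_subset _ _) (Finset.filter_subset _ _))
      (apf_two hv hτ hS _)
  have hσP1 : ∀ i l : Fin 4, P1 v i l τ ⊆ σ → P1 v i l σ = P1 v i l τ := by
    intro i l hsub
    ext j
    rw [mem_P1, mem_P1]
    constructor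
    · exact fun h' => ⟨bas_sub v Finset.univ τ h'.1, h'.2⟩
    · exact fun h' => ⟨hsub ((mem_P1 v).2 h'), h'.2⟩
  have hp1 := hσP1 i l (Finset.subset_union_left.trans hin)
  have hp2 := hσP1 l i (Finset.subset_union_right.trans hin)
  have hp0 : P0 v i l σ = P0 v i l τ ∩ σ := by
    ext j
    rw [mem_P0, Finset.mem_inter, mem_P0]
    constructor
    · exact fun h' => ⟨⟨bas_sub v Finset.univ τ h'.1, h'.2⟩, h'.1⟩
    · exact fun h' => ⟨h'.2, h'.1.2⟩
  have hσS : St2 v σ i l := ⟨two_sub (bas_sub v Finset.univ τ) h, by rw [hp1]; omega,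
    by rw [hp2]; omega⟩
  have hd0 : dl v κ (P0 v i l σ) = dl v κ (P0 v i l τ) := by
    rw [hp0]
    exact dl_congr κ (bas_inter v _ (Finset.filter_subset _ _))
  have hd1 : ∀ i' l' : Fin 4, P1 v i' l' τ ⊆ σ → dl v κ (P0 v i l σ ∪ P1 v i' l' τ) =
      dl v κ (P0 v i l τ ∪ P1 v i' l' τ) := by
    intro i' l' hsub
    refine dl_congr κ ?_
    have e : P0 v i l σ ∪ P1 v i' l' τ = (P0 v i l τ ∪ P1 v i' l' τ) ∩ σ := by
      rw [Finset.union_inter_distrib_right, hp0, Finset.inter_eq_left.2 hsub]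
    rw [e]
    exact bas_inter v _ (Finset.union_subset (Finset.filter_subset _ _)
      (Finset.filter_subset _ _))
  have hz0 := EE_of_zero hv s κ (hyp_sub (Finset.filter_subset _ _) hτ) i
    (τ := P0 v i l τ) fun j hj => ((mem_P0 v).1 hj).2.1
  have hz1 := EE_of_zero hv s κ (hyp_sub (Finset.union_subset (Finset.filter_subset _ _)
    (Finset.filter_subset _ _)) hτ) l (τ := P0 v i l τ ∪ P1 v i l τ) fun j hj => by
      rw [Finset.mem_union, mem_P0, mem_P1] at hj
      rcases hj with hj | hj <;> exact hj.2.2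
  have hz2 := EE_of_zero hv s κ (hyp_sub (Finset.union_subset (Finset.filter_subset _ _)
    (Finset.filter_subset _ _)) hτ) i (τ := P0 v i l τ ∪ P1 v l i τ) fun j hj => by
      rw [Finset.mem_union, mem_P0, mem_P1] at hj
      rcases hj with hj | hj
      · exact hj.2.1
      · exact hj.2.2
  rw [EE_of_st2 hv s κ hτ hσS, hz0, hz1, hz2]
  unfold valE
  rw [← hσ, hp1, hp2, hd0, hd1 i l (Finset.subset_union_left.trans hin),
    hd1 l i (Finset.subset_union_right.trans hin)]
  obtain ⟨a, ha'⟩ : ∃ a, (P1 v i l τ).card = a + 1 := ⟨(P1 v i l τ).card - 1, by omega⟩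
  obtain ⟨b, hb'⟩ : ∃ b, (P1 v l i τ).card = b + 1 := ⟨(P1 v l i τ).card - 1, by omega⟩
  rw [ha', hb', show a + 1 + (b + 1) - 2 = a + b by omega, Nat.add_sub_cancel,
    Nat.add_sub_cancel]
  ring

lemma krelB_pB (hv : Function.Injective v) (q : ℕ) (hq : 2 ≤ q) (κ : Finset (Fin r)) :
    KRelB q v (eP q v Finset.univ (pB v κ)) := by
  classical
  intro i l hil τ0 τ1 τ2 h0 h1 h2 hn1 hn2 hadm
  set τ := τ0 ∪ (τ1 ∪ τ2) with hτ
  have hp0 : P0 v i l τ = τ0 := by
    ext j
    rw [mem_P0, hτ, Finset.mem_union, Finset.mem_union]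
    constructor
    · rintro ⟨h3 | h3 | h3, h4⟩
      · exact h3
      · have := h1 j h3
        omega
      · have := h2 j h3
        omega
    · exact fun h3 => ⟨Or.inl h3, h0 j h3⟩
  have hp1 : P1 v i l τ = τ1 := by
    ext j
    rw [mem_P1, hτ, Finset.mem_union, Finset.mem_union]
    constructor
    · rintro ⟨h3 | h3 | h3, h4⟩
      · have := h0 j h3
        omega
      · exact h3
      · have := h2 j h3
        omega
    · exact fun h3 => ⟨Or.inr (Or.inl h3), h1 j h3⟩
  have hp2 : P1 v l i τ = τ2 := by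
    ext j
    rw [mem_P1, hτ, Finset.mem_union, Finset.mem_union]
    constructor
    · rintro ⟨h3 | h3 | h3, h4⟩
      · have := h0 j h3
        omega
      · have := h1 j h3
        omega
      · exact h3
    · exact fun h3 => ⟨Or.inr (Or.inr h3), (h2 j h3).2, (h2 j h3).1⟩
  have htwo : Two v i l τ := by
    refine ⟨hil, fun j hj => ?_⟩
    rw [hτ, Finset.mem_union, Finset.mem_union] at hj
    rcases hj with h3 | h3 | h3
    · exact Or.inl (h0 j h3)
    · exact Or.inr (Or.inl (h1 j h3))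
    · exact Or.inr (Or.inr (h2 j h3))
  set s : ℂ := -((q : ℂ) - 1) with hs'
  have hs : s ≠ 0 := by
    rw [hs', neg_ne_zero, sub_ne_zero]
    have : q ≠ 1 := by omega
    exact_mod_cast this
  have hE := EE_two hv s κ (hyp_of_adm hadm) htwo (by rw [hp1]; exact hn1) (by rw [hp2]; exact hn2)
  rw [hp0, hp1, hp2] at hE
  have e0 := ev_pB (v := v) q κ τ0
  have e1 := ev_pB (v := v) q κ (τ0 ∪ τ1)
  have e2 := ev_pB (v := v) q κ (τ0 ∪ τ2)
  have e3 := ev_pB (v := v) q κ τ
  rw [← hs'] at e0 e1 e2 e3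
  have d1 : Disjoint τ0 τ1 := by
    rw [Finset.disjoint_left]
    intro j hj hj'
    have a1 := h0 j hj
    have a2 := h1 j hj'
    omega
  have d2 : Disjoint τ0 τ2 := by
    rw [Finset.disjoint_left]
    intro j hj hj'
    have a1 := h0 j hj
    have a2 := h2 j hj'
    omega
  have d3 : Disjoint τ1 τ2 := by
    rw [Finset.disjoint_left]
    intro j hj hj'
    have a1 := h1 j hj
    have a2 := h2 j hj'
    omega
  rw [Finset.card_union_of_disjoint d1, pow_add] at e1
  rw [Finset.card_union_of_disjoint d2, pow_add] at e2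
  rw [hτ, Finset.card_union_of_disjoint (Finset.disjoint_union_right.2 ⟨d1, d2⟩),
    Finset.card_union_of_disjoint d3, ← hτ, pow_add, pow_add] at e3
  have hq1 : (q : ℂ) - 1 = -s := by rw [hs', neg_neg]
  have hne : s ^ τ0.card * (s ^ τ1.card * s ^ τ2.card) ≠ 0 :=
    mul_ne_zero (pow_ne_zero _ hs) (mul_ne_zero (pow_ne_zero _ hs) (pow_ne_zero _ hs))
  refine mul_left_cancel₀ hne ?_
  rw [hq1] at e0 e1 e2 e3 ⊢
  rw [pow_add, pow_succ, pow_succ] at hE
  linear_combination (s ^ τ1.card * s ^ τ2.card) * e0 - s * s ^ τ2.card * e1 -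
    s * s ^ τ1.card * e2 + s ^ 2 * e3 + ((-1) ^ κ.card * (-s) ^ mx v Finset.univ κ) * hE

end Pool.Agent.Y231.N4
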