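import Pool.Agent.TH216.G3.Q5
import Pool.Agent.Y231.N4.M3

/-!
# The classes: the relation for two directions
-/

set_option autoImplicit false

namespace Pool.Agent.Y231.N4

open MvPolynomial
open Pool.Agent.W428.MOT Pool.Agent.W749.MT
open Pool.Agent.W375.MG (Good GB0 GB1 constr_W constr_GB1)
open Pool.Agent.W426.SM (gord face)
open Pool.Agent.W803.SM (filt)
open Pool.Agent.TH216.MC
open Pool.Agent.TH216.G3 (AbM abM_meas)
open Pool.Agent.TH216.MF (frc frc_le)

/-! ### faces of faces -/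

section
variable {r N : ℕ}

lemma mem_am (m : Fin r → Fin N → ℕ) (u : Fin N → ℕ) (x : Fin r) :
    x ∈ amin m u ↔ ∑ l, u l * m x l = gord m u := by
  unfold amin
  rw [Finset.mem_filter]
  exact ⟨fun h => h.2, fun h => ⟨Finset.mem_univ _, h⟩⟩

/-- a face of a face -/
lemma sub_face (m : Fin r → Fin N → ℕ) (u : Fin N → ℕ) (hu : ∀ i, 0 < u i) (w : Fin N → ℤ)
    (κ : ℤ) (τ' : Finset (Fin r)) (hsub : τ' ⊆ amin m u) (hne : τ'.Nonempty)
    (h1 : ∀ j ∈ τ', ∑ i, w i * (m j i : ℤ) = κ)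
    (h2 : ∀ j ∈ amin m u, j ∉ τ' → κ < ∑ i, w i * (m j i : ℤ)) :
    ∃ u' : Fin N → ℕ, (∀ i, 0 < u' i) ∧ amin m u' = τ' := by
  classical
  obtain ⟨j0, hj0⟩ := hne
  have hr : 0 < r := Fin.pos j0
  set Mz : ℤ := 1 + ∑ i, |w i| + ∑ j, |∑ i, w i * (m j i : ℤ)| + |κ| with hMz
  have hA : ∀ i, |w i| ≤ ∑ i, |w i| := fun i =>
    Finset.single_le_sum (f := fun i => |w i|) (fun i _ => abs_nonneg _) (Finset.mem_univ i)
  have hB : ∀ j, |∑ i, w i * (m j i : ℤ)| ≤ ∑ j, |∑ i, w i * (m j i : ℤ)| := fun j =>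
    Finset.single_le_sum (f := fun j => |∑ i, w i * (m j i : ℤ)|) (fun i _ => abs_nonneg _)
      (Finset.mem_univ j)
  have hS1 : 0 ≤ ∑ i, |w i| := Finset.sum_nonneg fun _ _ => abs_nonneg _
  have hS2 : 0 ≤ ∑ j, |∑ i, w i * (m j i : ℤ)| := Finset.sum_nonneg fun _ _ => abs_nonneg _
  have hκ := abs_nonneg κ
  have hM1 : 1 ≤ Mz := by omega
  have hpos : ∀ i, 0 < Mz * (u i : ℤ) + w i := by
    intro i
    have h3 : (1 : ℤ) ≤ u i := by exact_mod_cast hu i
    have h4 : Mz ≤ Mz * (u i : ℤ) := le_mul_of_one_le_right (by omega) h3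
    have h5 := hA i
    have h6 := neg_abs_le (w i)
    omega
  set u' : Fin N → ℕ := fun i => (Mz * (u i : ℤ) + w i).toNat with hu'
  have hcast : ∀ i, ((u' i : ℕ) : ℤ) = Mz * (u i : ℤ) + w i := fun i =>
    Int.toNat_of_nonneg (hpos i).le
  have hval : ∀ j, ((∑ i, u' i * m j i : ℕ) : ℤ) = Mz * ((∑ i, u i * m j i : ℕ) : ℤ) +
      ∑ i, w i * (m j i : ℤ) := by
    intro j
    push_cast
    rw [Finset.mul_sum, ← Finset.sum_add_distrib]
    refine Finset.sum_congr rfl fun i _ => ?_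
    rw [hcast]
    ring
  have hmin : ∀ j, Mz * (gord m u : ℤ) + κ ≤ ((∑ i, u' i * m j i : ℕ) : ℤ) := by
    intro j
    rw [hval]
    by_cases hj : j ∈ amin m u
    · rw [(mem_am m u j).1 hj]
      by_cases hj' : j ∈ τ'
      · rw [h1 j hj']
      · have := h2 j hj hj'
        omega
    · have h3 : gord m u + 1 ≤ ∑ i, u i * m j i := by
        have h4 := Pool.Agent.W803.SM.gord_le m u j
        have h5 : ∑ i, u i * m j i ≠ gord m u := fun h => hj ((mem_am m u j).2 h)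
        omega
      have h4 : Mz * ((gord m u : ℤ) + 1) ≤ Mz * ((∑ i, u i * m j i : ℕ) : ℤ) :=
        mul_le_mul_of_nonneg_left (by exact_mod_cast h3) (by omega)
      have h5 := hB j
      have h6 := neg_abs_le (∑ i, w i * (m j i : ℤ))
      have h7 := le_abs_self κ
      rw [mul_add, mul_one] at h4
      omega
  have heq : ∀ j ∈ τ', ((∑ i, u' i * m j i : ℕ) : ℤ) = Mz * (gord m u : ℤ) + κ := by
    intro j hj
    rw [hval, (mem_am m u j).1 (hsub hj), h1 j hj]
  have hg : (gord m u' : ℤ) = Mz * (gord m u : ℤ) + κ := by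
    refine le_antisymm ?_ ?_
    · rw [← heq j0 hj0]
      exact_mod_cast Pool.Agent.W803.SM.gord_le m u' j0
    · obtain ⟨j, hj⟩ := Pool.Agent.W803.SM.exists_gord hr m u'
      rw [← hj]
      exact hmin j
  refine ⟨u', fun i => ?_, ?_⟩
  · have h3 := hpos i
    rw [← hcast] at h3
    exact_mod_cast h3
  · ext j
    rw [mem_am]
    constructor
    · intro hj
      have hj' : ((∑ i, u' i * m j i : ℕ) : ℤ) = (gord m u' : ℤ) := by rw [hj]
      rw [hg, hval] at hj'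
      by_contra hne
      by_cases hjm : j ∈ amin m u
      · have h3 := h2 j hjm hne
        rw [(mem_am m u j).1 hjm] at hj'
        omega
      · have h3 : gord m u + 1 ≤ ∑ i, u i * m j i := by
          have h4 := Pool.Agent.W803.SM.gord_le m u j
          have h5 : ∑ i, u i * m j i ≠ gord m u := fun h => hjm ((mem_am m u j).2 h)
          omega
        have h4 : Mz * ((gord m u : ℤ) + 1) ≤ Mz * ((∑ i, u i * m j i : ℕ) : ℤ) :=
          mul_le_mul_of_nonneg_left (by exact_mod_cast h3) (by omega)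
        have h5 := hB j
        have h6 := neg_abs_le (∑ i, w i * (m j i : ℤ))
        have h7 := le_abs_self κ
        rw [mul_add, mul_one] at h4
        omega
    · intro hj
      have h3 := heq j hj
      rw [← hg] at h3
      exact_mod_cast h3

lemma sum_two {F : Type*} [CommRing F] (i k : Fin N) (hik : i ≠ k) (a b : F) (g : Fin N → F) :
    ∑ l, ((if l = i then a else 0) + (if l = k then b else 0)) * g l = a * g i + b * g k := by
  classical
  simp only [add_mul, ite_mul, zero_mul, Finset.sum_add_distrib, Finset.sum_ite_eq',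
    Finset.mem_univ, if_true]

end

/-! ### no common zeros -/

section
variable {F : Type} [Field F] {r : ℕ}

/-- `z_l ∂_l` -/
noncomputable def TT {n : ℕ} (m : Fin r → Fin n → ℕ) (c : Fin r → F) (τ : Finset (Fin r))
    (l : Fin n) (z : Fin n → F) : F :=
  ∑ j ∈ τ, c j * ((m j l : F) * ∏ i, z i ^ m j i)

lemma TT_eq {n : ℕ} (m : Fin r → Fin n → ℕ) (c : Fin r → F) (τ : Finset (Fin r))
    (l : Fin n) (z : Fin n → F) : TT m c τ l z = z l * dgbar m c τ l z := by
  classical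
  unfold TT dgbar
  rw [Finset.mul_sum]
  refine Finset.sum_congr rfl fun j _ => ?_
  rcases Nat.eq_zero_or_pos (m j l) with h | h
  · rw [h]
    simp
  · rw [← Finset.mul_prod_erase _ _ (Finset.mem_univ l),
      ← Finset.mul_prod_erase _ (fun i => z i ^ (m j i - if i = l then 1 else 0))
        (Finset.mem_univ l), if_pos rfl]
    have e1 : z l ^ m j l = z l * z l ^ (m j l - 1) := by
      rw [← pow_succ', Nat.sub_add_cancel h]
    have e2 : ∏ i ∈ Finset.univ.erase l, z i ^ (m j i - if i = l then 1 else 0) =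
        ∏ i ∈ Finset.univ.erase l, z i ^ m j i := by
      refine Finset.prod_congr rfl fun i hi => ?_
      rw [if_neg (Finset.ne_of_mem_erase hi), Nat.sub_zero]
    rw [e1, e2]
    ring

/-- the coefficient of `z_i` -/
noncomputable def gp {n : ℕ} (m : Fin r → Fin n → ℕ) (c : Fin r → F) (τ : Finset (Fin r))
    (i : Fin n) (z : Fin n → F) : F :=
  ∑ j ∈ τ, c j * ∏ l ∈ Finset.univ.erase i, z l ^ m j l

lemma gp_inv {n : ℕ} (m : Fin r → Fin n → ℕ) (c : Fin r → F) (τ : Finset (Fin r)) (i k : Fin n)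
    (h0 : ∀ j ∈ τ, m j k = 0) (z w : Fin n → F) (h : ∀ l, l ≠ i → l ≠ k → w l = z l) :
    gp m c τ i w = gp m c τ i z := by
  unfold gp
  refine Finset.sum_congr rfl fun j hj => ?_
  congr 1
  refine Finset.prod_congr rfl fun l hl => ?_
  by_cases hk : l = k
  · rw [hk, h0 j hj, pow_zero, pow_zero]
  · rw [h l (Finset.ne_of_mem_erase hl) hk]

lemma gbar_gp {n : ℕ} (m : Fin r → Fin n → ℕ) (c : Fin r → F) (τ : Finset (Fin r)) (i : Fin n)
    (h1 : ∀ j ∈ τ, m j i = 1) (z : Fin n → F) : gbar m c τ z = z i * gp m c τ i z := by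
  classical
  unfold gbar gp
  rw [Finset.mul_sum]
  refine Finset.sum_congr rfl fun j hj => ?_
  rw [← Finset.mul_prod_erase Finset.univ _ (Finset.mem_univ i), h1 j hj, pow_one]
  ring

/-- the scaling -/
lemma TT_scale {n : ℕ} (m : Fin r → Fin n → ℕ) (c : Fin r → F) (τ : Finset (Fin r))
    (i k l : Fin n) (h1 : ∀ j ∈ τ, m j i = 1) (h0 : ∀ j ∈ τ, m j k = 0)
    (z w : Fin n → F) (h : ∀ l, l ≠ i → l ≠ k → w l = z l) (hz : z i = 1) :
    TT m c τ l w = w i * TT m c τ l z := by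
  classical
  unfold TT
  rw [Finset.mul_sum]
  refine Finset.sum_congr rfl fun j hj => ?_
  have e1 : ∏ l, w l ^ m j l = w i * ∏ l, z l ^ m j l := by
    rw [← Finset.mul_prod_erase _ _ (Finset.mem_univ i),
      ← Finset.mul_prod_erase _ (fun l => z l ^ m j l) (Finset.mem_univ i), h1 j hj, pow_one,
      hz, one_pow, one_mul]
    congr 1
    refine Finset.prod_congr rfl fun l hl => ?_
    by_cases hk : l = k
    · rw [hk, h0 j hj, pow_zero, pow_zero]
    · rw [h l (Finset.ne_of_mem_erase hl) hk]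
  rw [e1]
  ring

/-- Euler -/
lemma TT_euler {n : ℕ} (m : Fin r → Fin n → ℕ) (c : Fin r → F) (τ : Finset (Fin r))
    (u : Fin n → ℕ) (g : ℕ) (hg : ∀ j ∈ τ, ∑ l, u l * m j l = g) (z : Fin n → F) :
    ∑ l, (u l : F) * TT m c τ l z = (g : F) * gbar m c τ z := by
  unfold TT gbar
  simp only [Finset.mul_sum]
  rw [Finset.sum_comm]
  refine Finset.sum_congr rfl fun j hj => ?_
  have e1 : (g : F) = ∑ l, (u l : F) * (m j l : F) := by
    rw [← hg j hj]
    push_cast
    rfl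
  rw [e1, Finset.sum_mul]
  refine Finset.sum_congr rfl fun l _ => ?_
  ring

/-- the coefficients of `x_i` and `x_k` have no common zeros, four variables -/
theorem no_common4 [CharZero F] {m : Fin r → Fin 4 → ℕ} {c : Fin r → F} {i k : Fin 4}
    (hik : i ≠ k)
    (hN : ∀ (u : Fin 4 → ℕ) (z : Fin 4 → F),
      (∀ i, z i ≠ 0) → gbar m c (amin m u) z = 0 → ∃ i, dgbar m c (amin m u) i z ≠ 0)
    (u : Fin 4 → ℕ) (hu : ∀ i, 0 < u i) (τ0 τ1 τ2 : Finset (Fin r))
    (hτ : amin m u = τ0 ∪ (τ1 ∪ τ2)) (h0 : ∀ j ∈ τ0, m j i = 0 ∧ m j k = 0)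
    (h1 : ∀ j ∈ τ1, m j i = 1 ∧ m j k = 0) (h2 : ∀ j ∈ τ2, m j i = 0 ∧ m j k = 1)
    (hn1 : τ1.Nonempty) (hn2 : τ2.Nonempty)
    (z : Fin 4 → F) (hz : ∀ l, l ≠ i → l ≠ k → z l ≠ 0) :
    gp m c τ1 i z ≠ 0 ∨ gp m c τ2 k z ≠ 0 := by
  classical
  by_contra hcon
  push Not at hcon
  obtain ⟨ha, hb⟩ := hcon
  obtain ⟨x, y, hxy, hxi, hxk, hyi, hyk, hall⟩ := rest i k hik
  -- the faces
  have hlin : ∀ (a b : ℤ) (j : Fin r), ∑ l, ((if l = i then a else 0) +
      (if l = k then b else 0)) * (m j l : ℤ) = a * (m j i : ℤ) + b * (m j k : ℤ) :=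
    fun a b j => sum_two i k hik a b fun l => (m j l : ℤ)
  have hmem : ∀ j, j ∈ amin m u → j ∈ τ0 ∨ j ∈ τ1 ∨ j ∈ τ2 := by
    intro j hj
    rw [hτ, Finset.mem_union, Finset.mem_union] at hj
    exact hj
  have hs1 : τ1 ⊆ amin m u := by
    rw [hτ]
    exact Finset.subset_union_left.trans Finset.subset_union_right
  have hs2 : τ2 ⊆ amin m u := by
    rw [hτ]
    exact Finset.subset_union_right.trans Finset.subset_union_right
  have hs3 : τ1 ∪ τ2 ⊆ amin m u := Finset.union_subset hs1 hs2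
  obtain ⟨u1, hu1, hu1'⟩ := sub_face m u hu
    (fun l => (if l = i then (-1 : ℤ) else 0) + (if l = k then 2 else 0)) (-1) τ1 hs1 hn1
    (fun j hj => by
      rw [hlin, (h1 j hj).1, (h1 j hj).2]
      norm_num) (fun j hj hj' => by
      rw [hlin]
      rcases hmem j hj with h | h | h
      · rw [(h0 j h).1, (h0 j h).2]
        norm_num
      · exact absurd h hj'
      · rw [(h2 j h).1, (h2 j h).2]
        norm_num)
  obtain ⟨u2, hu2, hu2'⟩ := sub_face m u hu
    (fun l => (if l = i then (2 : ℤ) else 0) + (if l = k then -1 else 0)) (-1) τ2 hs2 hn2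
    (fun j hj => by
      rw [hlin, (h2 j hj).1, (h2 j hj).2]
      norm_num) (fun j hj hj' => by
      rw [hlin]
      rcases hmem j hj with h | h | h
      · rw [(h0 j h).1, (h0 j h).2]
        norm_num
      · rw [(h1 j h).1, (h1 j h).2]
        norm_num
      · exact absurd h hj')
  obtain ⟨u3, hu3, hu3'⟩ := sub_face m u hu
    (fun l => (if l = i then (-1 : ℤ) else 0) + (if l = k then -1 else 0)) (-1) (τ1 ∪ τ2) hs3
    (hn1.mono Finset.subset_union_left)
    (fun j hj => by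
      rw [hlin]
      rcases Finset.mem_union.1 hj with h | h
      · rw [(h1 j h).1, (h1 j h).2]
        norm_num
      · rw [(h2 j h).1, (h2 j h).2]
        norm_num) (fun j hj hj' => by
      rw [hlin]
      rcases hmem j hj with h | h | h
      · rw [(h0 j h).1, (h0 j h).2]
        norm_num
      · exact absurd (Finset.mem_union_left _ h) hj'
      · exact absurd (Finset.mem_union_right _ h) hj')
  -- the points
  set Z : F → F → Fin 4 → F := fun s t l => if l = i then s else if l = k then t else z l with hZ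
  have hZi : ∀ s t, Z s t i = s := fun s t => if_pos rfl
  have hZk : ∀ s t, Z s t k = t := fun s t => by
    show (if k = i then s else if k = k then t else z k) = t
    rw [if_neg hik.symm, if_pos rfl]
  have hZo : ∀ s t l, l ≠ i → l ≠ k → Z s t l = z l := fun s t l h1 h2 => by
    simp only [hZ]
    rw [if_neg h1, if_neg h2]
  have hZ0 : ∀ s t, s ≠ 0 → t ≠ 0 → ∀ l, Z s t l ≠ 0 := by
    intro s t hs ht l
    by_cases h1 : l = i
    · rw [h1, hZi]
      exact hs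
    · by_cases h2 : l = k
      · rw [h2, hZk]
        exact ht
      · rw [hZo s t l h1 h2]
        exact hz l h1 h2
  have ga : gbar m c τ1 (Z 1 1) = 0 := by
    rw [gbar_gp m c τ1 i (fun j hj => (h1 j hj).1), gp_inv m c τ1 i k (fun j hj => (h1 j hj).2) z
      _ (hZo 1 1), ha, mul_zero]
  have gb : gbar m c τ2 (Z 1 1) = 0 := by
    rw [gbar_gp m c τ2 k (fun j hj => (h2 j hj).2), gp_inv m c τ2 k i (fun j hj => (h2 j hj).1) z
      _ (fun l h1 h2 => hZo 1 1 l h2 h1), hb, mul_zero]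
  -- the derivatives in the directions `i`, `k`
  have hT1i : TT m c τ1 i (Z 1 1) = 0 := by
    rw [← ga]
    unfold TT gbar
    refine Finset.sum_congr rfl fun j hj => ?_
    rw [(h1 j hj).1, Nat.cast_one, one_mul]
  have hT1k : TT m c τ1 k (Z 1 1) = 0 := by
    unfold TT
    refine Finset.sum_eq_zero fun j hj => ?_
    rw [(h1 j hj).2, Nat.cast_zero, zero_mul, mul_zero]
  have hT2k : TT m c τ2 k (Z 1 1) = 0 := by
    rw [← gb]
    unfold TT gbar
    refine Finset.sum_congr rfl fun j hj => ?_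
    rw [(h2 j hj).2, Nat.cast_one, one_mul]
  have hT2i : TT m c τ2 i (Z 1 1) = 0 := by
    unfold TT
    refine Finset.sum_eq_zero fun j hj => ?_
    rw [(h2 j hj).1, Nat.cast_zero, zero_mul, mul_zero]
  have hsum : ∀ g : Fin 4 → F, ∑ l, g l = g i + g k + g x + g y := by
    intro g
    have e : (Finset.univ : Finset (Fin 4)) = {i, k, x, y} := by
      ext t
      simp only [Finset.mem_univ, Finset.mem_insert, Finset.mem_singleton, true_iff]
      exact hall t
    rw [e, Finset.sum_insert, Finset.sum_insert, Finset.sum_insert, Finset.sum_singleton]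
    · ring
    · simp [hxy]
    · simp [hxk.symm, hyk.symm]
    · simp [hik, hxi.symm, hyi.symm]
  have hE1 : (u x : F) * TT m c τ1 x (Z 1 1) + (u y : F) * TT m c τ1 y (Z 1 1) = 0 := by
    have h3 := TT_euler m c τ1 u (gord m u) (fun j hj => (mem_am m u j).1 (hs1 hj)) (Z 1 1)
    rw [ga, mul_zero, hsum, hT1i, hT1k] at h3
    linear_combination h3
  have hE2 : (u x : F) * TT m c τ2 x (Z 1 1) + (u y : F) * TT m c τ2 y (Z 1 1) = 0 := by
    have h3 := TT_euler m c τ2 u (gord m u) (fun j hj => (mem_am m u j).1 (hs2 hj)) (Z 1 1)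
    rw [gb, mul_zero, hsum, hT2i, hT2k] at h3
    linear_combination h3
  have hux : (u x : F) ≠ 0 := by exact_mod_cast (hu x).ne'
  have huy : (u y : F) ≠ 0 := by exact_mod_cast (hu y).ne'
  -- the derivatives do not vanish
  have hA : TT m c τ1 x (Z 1 1) ≠ 0 := by
    intro hA
    rw [hA, mul_zero, zero_add] at hE1
    have hAy := (mul_eq_zero.1 hE1).resolve_left huy
    have h3 := hN u1 (Z 1 1) (hZ0 1 1 one_ne_zero one_ne_zero)
    rw [hu1'] at h3
    obtain ⟨l, hl⟩ := h3 ga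
    have h4 : TT m c τ1 l (Z 1 1) ≠ 0 := by
      rw [TT_eq]
      exact mul_ne_zero (hZ0 1 1 one_ne_zero one_ne_zero l) hl
    rcases hall l with rfl | rfl | rfl | rfl
    · exact h4 hT1i
    · exact h4 hT1k
    · exact h4 hA
    · exact h4 hAy
  have hB : TT m c τ2 x (Z 1 1) ≠ 0 := by
    intro hB
    rw [hB, mul_zero, zero_add] at hE2
    have hBy := (mul_eq_zero.1 hE2).resolve_left huy
    have h3 := hN u2 (Z 1 1) (hZ0 1 1 one_ne_zero one_ne_zero)
    rw [hu2'] at h3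
    obtain ⟨l, hl⟩ := h3 gb
    have h4 : TT m c τ2 l (Z 1 1) ≠ 0 := by
      rw [TT_eq]
      exact mul_ne_zero (hZ0 1 1 one_ne_zero one_ne_zero l) hl
    rcases hall l with rfl | rfl | rfl | rfl
    · exact h4 hT2i
    · exact h4 hT2k
    · exact h4 hB
    · exact h4 hBy
  -- the point
  set A := TT m c τ1 x (Z 1 1) with hAd
  set B := TT m c τ2 x (Z 1 1) with hBd
  have hd : Disjoint τ1 τ2 := by
    rw [Finset.disjoint_left]
    intro j hj hj'
    have a1 := h1 j hj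
    have a2 := h2 j hj'
    omega
  have hsc1 : ∀ l, TT m c τ1 l (Z B (-A)) = B * TT m c τ1 l (Z 1 1) := by
    intro l
    have := TT_scale m c τ1 i k l (fun j hj => (h1 j hj).1) (fun j hj => (h1 j hj).2) (Z 1 1)
      (Z B (-A)) (fun l h3 h4 => by rw [hZo _ _ l h3 h4, hZo _ _ l h3 h4]) (hZi 1 1)
    rw [hZi] at this
    exact this
  have hsc2 : ∀ l, TT m c τ2 l (Z B (-A)) = -A * TT m c τ2 l (Z 1 1) := by
    intro l
    have := TT_scale m c τ2 k i l (fun j hj => (h2 j hj).2) (fun j hj => (h2 j hj).1) (Z 1 1)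
      (Z B (-A)) (fun l h3 h4 => by rw [hZo _ _ l h4 h3, hZo _ _ l h4 h3]) (hZk 1 1)
    rw [hZk] at this
    exact this
  have hgb : gbar m c (τ1 ∪ τ2) (Z B (-A)) = 0 := by
    have e1 : gbar m c (τ1 ∪ τ2) (Z B (-A)) = gbar m c τ1 (Z B (-A)) + gbar m c τ2 (Z B (-A)) := by
      unfold gbar
      exact Finset.sum_union hd
    rw [e1, gbar_gp m c τ1 i (fun j hj => (h1 j hj).1), gbar_gp m c τ2 k
      (fun j hj => (h2 j hj).2), gp_inv m c τ1 i k (fun j hj => (h1 j hj).2) z _ (hZo _ _),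
      gp_inv m c τ2 k i (fun j hj => (h2 j hj).1) z _ (fun l h1 h2 => hZo _ _ l h2 h1), ha, hb]
    ring
  have h3 := hN u3 (Z B (-A)) (hZ0 _ _ hB (neg_ne_zero.2 hA))
  rw [hu3'] at h3
  obtain ⟨l, hl⟩ := h3 hgb
  have h4 : TT m c (τ1 ∪ τ2) l (Z B (-A)) ≠ 0 := by
    rw [TT_eq]
    exact mul_ne_zero (hZ0 _ _ hB (neg_ne_zero.2 hA) l) hl
  have h5 : TT m c (τ1 ∪ τ2) l (Z B (-A)) =
      B * TT m c τ1 l (Z 1 1) - A * TT m c τ2 l (Z 1 1) := by
    have e1 : TT m c (τ1 ∪ τ2) l (Z B (-A)) = TT m c τ1 l (Z B (-A)) + TT m c τ2 l (Z B (-A)) := by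
      unfold TT
      exact Finset.sum_union hd
    rw [e1, hsc1, hsc2]
    ring
  rw [h5] at h4
  rcases hall l with rfl | rfl | rfl | rfl
  · exact h4 (by rw [hT1i, hT2i]; ring)
  · exact h4 (by rw [hT1k, hT2k]; ring)
  · exact h4 (by rw [← hAd, ← hBd]; ring)
  · apply h4
    have h6 : (u l : F) * (B * TT m c τ1 l (Z 1 1) - A * TT m c τ2 l (Z 1 1)) = 0 := by
      linear_combination B * hE1 - A * hE2
    exact (mul_eq_zero.1 h6).resolve_left huy

end

/-! ### the relation -/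

section
variable {K : Type} [Field K] {n r : ℕ} {R : Type} [CommRing R]

lemma mem_free0 (m : Fin r → Fin n → ℕ) (J : Finset (Fin n)) (σ : Finset (Fin r)) (k : Fin n) :
    k ∈ free 0 m J σ ↔ k ∈ J ∧ ∀ j ∈ σ, m j k = 0 := by
  unfold free
  rw [Finset.mem_filter]
  simp

theorem X_two (h1 : S_Free) (h2 : S_Sub) (M : Meas K R) (m : Fin r → Fin n → ℕ) (c : Fin r → K)
    {W : Set (Pt K (Fin n))} (hW : Constr W)
    {E : Set (AlgebraicClosure K)} (hE : Good E) (J : Finset (Fin n))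
    {d : Pt K (Option (Fin n)) → AlgebraicClosure K} (hd : IsPF d)
    (hd' : ∀ z w : Pt K (Option (Fin n)), w none = z none → d w = d z)
    (i k : Fin n) (hi : i ∈ J) (hk : k ∈ J) (hik : i ≠ k) (τ0 τ1 τ2 : Finset (Fin r))
    (t0 : ∀ j ∈ τ0, m j i = 0 ∧ m j k = 0)
    (t1 : ∀ j ∈ τ1, m j i = 1 ∧ m j k = 0) (t2 : ∀ j ∈ τ2, m j i = 0 ∧ m j k = 1)
    (hn1 : τ1.Nonempty) (hn2 : τ2.Nonempty)
    (hnc : ∀ z : Fin n → AlgebraicClosure K, (∀ l, l ≠ i → l ≠ k → z l ≠ 0) →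
      gp m (cb c) τ1 i z ≠ 0 ∨ gp m (cb c) τ2 k z ≠ 0) :
    M.χ _ (ZS W J (free 0 m J (τ0 ∪ (τ1 ∪ τ2))) (XS m c W E J d (τ0 ∪ (τ1 ∪ τ2)))) +
      ((M.L - 1) ^ (frc m J (τ0 ∪ τ1) - (frc m J (τ0 ∪ (τ1 ∪ τ2)) + 1)) *
        M.χ _ (ZS W J (free 0 m J (τ0 ∪ τ1)) (XS m c W E J d (τ0 ∪ τ1))) +
      (M.L - 1) ^ (frc m J (τ0 ∪ τ2) - (frc m J (τ0 ∪ (τ1 ∪ τ2)) + 1)) *
        M.χ _ (ZS W J (free 0 m J (τ0 ∪ τ2)) (XS m c W E J d (τ0 ∪ τ2)))) +
      (M.L - 1) ^ (frc m J τ0 - (frc m J (τ0 ∪ (τ1 ∪ τ2)) + 2)) *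
        M.χ _ (ZS W J (free 0 m J τ0) (XS m c W E J d τ0)) =
      M.χ _ (ZS W J J {z | z none ∈ E}) *
        (M.L - 1) ^ (J.card - (frc m J (τ0 ∪ (τ1 ∪ τ2)) + 2)) * M.L := by
  classical
  set τ := τ0 ∪ (τ1 ∪ τ2) with hτ
  set T := free 0 m J τ with hT
  have hmem := mem_free0 m J
  obtain ⟨j1, hj1⟩ := hn1
  obtain ⟨j2, hj2⟩ := hn2
  have hiT : i ∉ T := by
    rw [hT, hmem]
    rintro ⟨-, h⟩
    have h3 := h j1 (by rw [hτ]; simp [hj1])
    have h4 := t1 j1 hj1
    omega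
  have hkT : k ∉ T := by
    rw [hT, hmem]
    rintro ⟨-, h⟩
    have h3 := h j2 (by rw [hτ]; simp [hj2])
    have h4 := t2 j2 hj2
    omega
  have hTJ : ∀ x ∈ T, x ∈ J := fun x hx => ((hmem _ x).1 hx).1
  have hTs : ∀ σ, σ ⊆ τ → ∀ x ∈ T, x ∈ free 0 m J σ := fun σ hσ x hx =>
    (hmem _ x).2 ⟨hTJ x hx, fun j hj => ((hmem _ x).1 hx).2 j (hσ hj)⟩
  -- the functions
  have hskey : ∀ z w : Pt K (Option (Fin n)), (∀ o, o ≠ some i → o ≠ some k → w o = z o) →
      w none = z none ∧ ∀ l, l ≠ i → l ≠ k → w (some l) = z (some l) := by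
    intro z w hw
    refine ⟨hw none (fun h => Option.some_ne_none _ h.symm) (fun h => Option.some_ne_none _ h.symm),
      fun l h1 h2 => ?_⟩
    exact hw _ (fun h => h1 (Option.some_injective _ h)) (fun h => h2 (Option.some_injective _ h))
  have hgpPF : ∀ (σ : Finset (Fin r)) (i : Fin n), IsPF (fun z : Pt K (Option (Fin n)) =>
      gp m (cb c) σ i (fun l => z (some l))) := by
    intro σ i
    unfold gp
    exact IsPF.sum _ _ fun x _ => (IsPF_cb c x).mul
      (IsPF.prod _ _ fun l _ => (IsPF.coord _).pow _)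
  set B : Set (Pt K (Option (Fin n))) :=
    {z | (fun l => if l ∈ J then 0 else z (some l)) ∈ W ∧ (∀ l, l ≠ i → l ≠ k → z (some l) ≠ 0) ∧
      (∀ l ∈ T, z (some l) = 1) ∧ z none ∈ E} with hB
  have hBc : Constr B := Constr.and (constr_base hW J) (Constr.and (Constr.all fun l =>
    Constr.imp' fun _ => Constr.imp' fun _ => Constr.ne (IsPF.coord _) IsPF.zero) (Constr.and
    (Constr.ballFinset _ fun _ _ => Constr.eq (IsPF.coord _) IsPF.one)
      (hE.constr _ (IsPF.coord none))))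
  have hbase : ∀ z w : Pt K (Option (Fin n)), (∀ l, l ≠ i → l ≠ k → w (some l) = z (some l)) →
      (fun l => if l ∈ J then 0 else w (some l)) = fun l => if l ∈ J then 0 else z (some l) := by
    intro z w h4
    funext l
    by_cases hl : l ∈ J
    · rw [if_pos hl, if_pos hl]
    · rw [if_neg hl, if_neg hl, h4 l (fun h => hl (h ▸ hi)) (fun h => hl (h ▸ hk))]
  have hinv : ∀ z w : Pt K (Option (Fin n)), (∀ o, o ≠ some i → o ≠ some k → w o = z o) →
      z ∈ B → w ∈ B := by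
    rintro z w hw ⟨a1, a2, a3, a4⟩
    obtain ⟨h3, h4⟩ := hskey z w hw
    refine ⟨?_, fun l h5 h6 => ?_, fun l hl => ?_, ?_⟩
    · rw [hbase z w h4]
      exact a1
    · rw [h4 l h5 h6]
      exact a2 l h5 h6
    · rw [h4 l (fun h => hiT (h ▸ hl)) (fun h => hkT (h ▸ hl))]
      exact a3 l hl
    · rw [h3]
      exact a4
  have hg0inv : ∀ z w : Pt K (Option (Fin n)), (∀ l, l ≠ i → l ≠ k → w (some l) = z (some l)) →
      gbar m (cb c) τ0 (fun l => w (some l)) = gbar m (cb c) τ0 (fun l => z (some l)) := by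
    intro z w h4
    refine gbar_update m (cb c) τ0 _ _ fun l hl => ?_
    obtain ⟨j, hj, hjl⟩ := hl
    refine h4 l ?_ ?_
    · rintro rfl
      exact hjl (t0 j hj).1
    · rintro rfl
      exact hjl (t0 j hj).2
  have hab := abM_meas h1 h2 M ({some i, some k} : Finset (Option (Fin n)))
  have key := hab.rel (i := some i) (k := some k) (by simp) (by simp)
    (fun h' => hik (Option.some_injective _ h')) B hBc hinv
    (fun z => gp m (cb c) τ1 i (fun l => z (some l)))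
    (fun z => gp m (cb c) τ2 k (fun l => z (some l)))
    (fun z => d z - gbar m (cb c) τ0 (fun l => z (some l))) (hgpPF τ1 i) (hgpPF τ2 k)
    (hd.sub (IsPF_gbar m c τ0 some))
    (fun z w hw => gp_inv m (cb c) τ1 i k (fun j hj => (t1 j hj).2) _ _ (hskey z w hw).2)
    (fun z w hw => gp_inv m (cb c) τ2 k i (fun j hj => (t2 j hj).1) _ _
      fun l h3 h4 => (hskey z w hw).2 l h4 h3)
    (fun z w hw => by
      beta_reduce
      rw [hd' z w (hskey z w hw).1, hg0inv z w (hskey z w hw).2])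
    (fun z hz => hnc (fun l => z (some l)) hz.2.1)
  beta_reduce at key
  -- the sums
  have hd01 : Disjoint τ0 τ1 := by
    rw [Finset.disjoint_left]
    intro j hj hj'
    have a1 := t0 j hj
    have a2 := t1 j hj'
    omega
  have hd02 : Disjoint τ0 τ2 := by
    rw [Finset.disjoint_left]
    intro j hj hj'
    have a1 := t0 j hj
    have a2 := t2 j hj'
    omega
  have hd12 : Disjoint τ1 τ2 := by
    rw [Finset.disjoint_left]
    intro j hj hj'
    have a1 := t1 j hj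
    have a2 := t2 j hj'
    omega
  have hun : ∀ (σ σ' : Finset (Fin r)), Disjoint σ σ' → ∀ z : Fin n → AlgebraicClosure K,
      gbar m (cb c) (σ ∪ σ') z = gbar m (cb c) σ z + gbar m (cb c) σ' z := by
    intro σ σ' h z
    unfold gbar
    exact Finset.sum_union h
  have hg1 : ∀ z : Fin n → AlgebraicClosure K, gbar m (cb c) τ1 z =
      z i * gp m (cb c) τ1 i z := gbar_gp m (cb c) τ1 i fun j hj => (t1 j hj).1
  have hg2 : ∀ z : Fin n → AlgebraicClosure K, gbar m (cb c) τ2 z =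
      z k * gp m (cb c) τ2 k z := gbar_gp m (cb c) τ2 k fun j hj => (t2 j hj).2
  have e1 : {z | z ∈ B ∧ z (some i) ≠ 0 ∧ z (some k) ≠ 0 ∧
        z (some i) * gp m (cb c) τ1 i (fun l => z (some l)) +
          z (some k) * gp m (cb c) τ2 k (fun l => z (some l)) =
            d z - gbar m (cb c) τ0 (fun l => z (some l))} =
      ZS W J T (XS m c W E J d τ) := by
    ext z
    simp only [ZS, XS, hB, Set.mem_ofPred_eq, hτ, hun _ _ (Finset.disjoint_union_right.2 ⟨hd01, hd02⟩),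
      hun _ _ hd12, hg1, hg2]
    constructor
    · rintro ⟨⟨a1, a2, a3, a4⟩, a5, a6, a7⟩
      refine ⟨a1, fun l => ?_, a3, by linear_combination a7, a4⟩
      by_cases hli : l = i
      · rw [hli]; exact a5
      · by_cases hlk : l = k
        · rw [hlk]; exact a6
        · exact a2 l hli hlk
    · rintro ⟨a1, a2, a3, a7, a4⟩
      exact ⟨⟨a1, fun l _ _ => a2 l, a3, a4⟩, a2 i, a2 k, by linear_combination a7⟩
  have e2 : {z | z ∈ B ∧ z (some i) ≠ 0 ∧ z (some k) = 1 ∧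
        z (some i) * gp m (cb c) τ1 i (fun l => z (some l)) =
            d z - gbar m (cb c) τ0 (fun l => z (some l))} =
      ZS W J (insert k T) (XS m c W E J d (τ0 ∪ τ1)) := by
    ext z
    simp only [ZS, XS, hB, Set.mem_ofPred_eq, hun _ _ hd01, hg1, Finset.mem_insert,
      forall_eq_or_imp]
    constructor
    · rintro ⟨⟨a1, a2, a3, a4⟩, a5, a6, a7⟩
      refine ⟨a1, fun l => ?_, ⟨a6, a3⟩, by linear_combination a7, a4⟩
      by_cases hli : l = i
      · rw [hli]; exact a5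
      · by_cases hlk : l = k
        · rw [hlk, a6]; exact one_ne_zero
        · exact a2 l hli hlk
    · rintro ⟨a1, a2, ⟨a6, a3⟩, a7, a4⟩
      exact ⟨⟨a1, fun l _ _ => a2 l, a3, a4⟩, a2 i, a6, by linear_combination a7⟩
  have e3 : {z | z ∈ B ∧ z (some i) = 1 ∧ z (some k) ≠ 0 ∧
        z (some k) * gp m (cb c) τ2 k (fun l => z (some l)) =
            d z - gbar m (cb c) τ0 (fun l => z (some l))} =
      ZS W J (insert i T) (XS m c W E J d (τ0 ∪ τ2)) := by
    ext z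
    simp only [ZS, XS, hB, Set.mem_ofPred_eq, hun _ _ hd02, hg2, Finset.mem_insert,
      forall_eq_or_imp]
    constructor
    · rintro ⟨⟨a1, a2, a3, a4⟩, a5, a6, a7⟩
      refine ⟨a1, fun l => ?_, ⟨a5, a3⟩, by linear_combination a7, a4⟩
      by_cases hli : l = i
      · rw [hli, a5]; exact one_ne_zero
      · by_cases hlk : l = k
        · rw [hlk]; exact a6
        · exact a2 l hli hlk
    · rintro ⟨a1, a2, ⟨a6, a3⟩, a7, a4⟩
      exact ⟨⟨a1, fun l _ _ => a2 l, a3, a4⟩, a6, a2 k, by linear_combination a7⟩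
  have e4 : {z | z ∈ B ∧ z (some i) = 1 ∧ z (some k) = 1 ∧
            d z - gbar m (cb c) τ0 (fun l => z (some l)) = 0} =
      ZS W J (insert i (insert k T)) (XS m c W E J d τ0) := by
    ext z
    simp only [ZS, XS, hB, Set.mem_ofPred_eq, Finset.mem_insert, forall_eq_or_imp]
    constructor
    · rintro ⟨⟨a1, a2, a3, a4⟩, a5, a6, a7⟩
      refine ⟨a1, fun l => ?_, ⟨a5, a6, a3⟩, by linear_combination -a7, a4⟩
      by_cases hli : l = i
      · rw [hli, a5]; exact one_ne_zero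
      · by_cases hlk : l = k
        · rw [hlk, a6]; exact one_ne_zero
        · exact a2 l hli hlk
    · rintro ⟨a1, a2, ⟨a5, a6, a3⟩, a7, a4⟩
      exact ⟨⟨a1, fun l _ _ => a2 l, a3, a4⟩, a5, a6, by linear_combination -a7⟩
  have e5 : {z | z ∈ B ∧ z (some i) = 1 ∧ z (some k) = 1} =
      ZS W J (insert i (insert k T)) {z | z none ∈ E} := by
    ext z
    simp only [ZS, hB, Set.mem_ofPred_eq, Finset.mem_insert, forall_eq_or_imp]
    constructor
    · rintro ⟨⟨a1, a2, a3, a4⟩, a5, a6⟩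
      refine ⟨a1, fun l => ?_, ⟨a5, a6, a3⟩, a4⟩
      by_cases hli : l = i
      · rw [hli, a5]; exact one_ne_zero
      · by_cases hlk : l = k
        · rw [hlk, a6]; exact one_ne_zero
        · exact a2 l hli hlk
    · rintro ⟨a1, a2, ⟨a5, a6, a3⟩, a4⟩
      exact ⟨⟨a1, fun l _ _ => a2 l, a3, a4⟩, a5, a6⟩
  rw [e1, e2, e3, e4, e5] at key
  -- the normalisations
  have hXinv : ∀ (σ : Finset (Fin r)), ∀ z w : Pt K (Option (Fin n)), w none = z none →
      (∀ x, x ∉ free 0 m J σ → w (some x) = z (some x)) → z ∈ XS m c W E J d σ →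
      w ∈ XS m c W E J d σ := by
    intro σ z w hn hx hz
    refine ⟨?_, ?_⟩
    · rw [hd' z w hn]
      refine Eq.trans ?_ hz.1
      refine gbar_update m (cb c) σ _ _ fun x hx' => hx x fun hx'' => ?_
      obtain ⟨j, hj, hjx⟩ := hx'
      exact hjx (((hmem σ x).1 hx'').2 j hj)
    · rw [hn]
      exact hz.2
  have hcT : T.card = frc m J τ := rfl
  have hcard1 : ∀ x, x ∉ T → (insert x T).card = frc m J τ + 1 := fun x hx => by
    rw [Finset.card_insert_of_notMem hx, hcT]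
  have hcard2 : (insert i (insert k T)).card = frc m J τ + 2 := by
    rw [Finset.card_insert_of_notMem, hcard1 k hkT]
    rw [Finset.mem_insert, not_or]
    exact ⟨hik, hiT⟩
  have hfk : insert k T ⊆ free 0 m J (τ0 ∪ τ1) := by
    intro x hx
    rcases Finset.mem_insert.1 hx with rfl | hx
    · rw [hmem]
      refine ⟨hk, fun j hj => ?_⟩
      rcases Finset.mem_union.1 hj with h | h
      · exact (t0 j h).2
      · exact (t1 j h).2
    · exact hTs _ (Finset.union_subset_union (Finset.Subset.refl _) Finset.subset_union_left) x hx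
  have hfi : insert i T ⊆ free 0 m J (τ0 ∪ τ2) := by
    intro x hx
    rcases Finset.mem_insert.1 hx with rfl | hx
    · rw [hmem]
      refine ⟨hi, fun j hj => ?_⟩
      rcases Finset.mem_union.1 hj with h | h
      · exact (t0 j h).1
      · exact (t2 j h).1
    · exact hTs _ (Finset.union_subset_union (Finset.Subset.refl _) Finset.subset_union_right) x hx
  have hf0 : insert i (insert k T) ⊆ free 0 m J τ0 := by
    intro x hx
    rcases Finset.mem_insert.1 hx with rfl | hx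
    · exact (hmem _ _).2 ⟨hi, fun j hj => (t0 j hj).1⟩
    · rcases Finset.mem_insert.1 hx with rfl | hx
      · exact (hmem _ _).2 ⟨hk, fun j hj => (t0 j hj).2⟩
      · exact hTs _ Finset.subset_union_left x hx
  have hfJ : ∀ σ, free 0 m J σ ⊆ J := fun σ x hx => ((hmem σ x).1 hx).1
  have n2 := ZS_norm h1 M hW J (insert k T) (free 0 m J (τ0 ∪ τ1)) hfk (hfJ _)
    (constr_XS m c hE J hd (τ0 ∪ τ1)) (hXinv _)
  have n3 := ZS_norm h1 M hW J (insert i T) (free 0 m J (τ0 ∪ τ2)) hfi (hfJ _)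
    (constr_XS m c hE J hd (τ0 ∪ τ2)) (hXinv _)
  have n4 := ZS_norm h1 M hW J (insert i (insert k T)) (free 0 m J τ0) hf0 (hfJ _)
    (constr_XS m c hE J hd τ0) (hXinv _)
  have n5 := ZS_norm h1 M hW J (insert i (insert k T)) J (hf0.trans (hfJ _))
    (Finset.Subset.refl _) (hE.constr (fun z : Pt K (Option (Fin n)) => z none) (IsPF.coord none))
    (fun z w hn _ hz => by
      change w none ∈ E
      rw [hn]
      exact hz)
  rw [hcard1 k hkT] at n2
  rw [hcard1 i hiT] at n3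
  rw [hcard2] at n4 n5
  rw [n2, n3, n4, n5] at key
  change M.χ _ (ZS W J T (XS m c W E J d τ)) + (M.χ _ (ZS W J (free 0 m J (τ0 ∪ τ1))
    (XS m c W E J d (τ0 ∪ τ1))) * (M.L - 1) ^ (frc m J (τ0 ∪ τ1) - (frc m J τ + 1)) +
    M.χ _ (ZS W J (free 0 m J (τ0 ∪ τ2)) (XS m c W E J d (τ0 ∪ τ2))) *
      (M.L - 1) ^ (frc m J (τ0 ∪ τ2) - (frc m J τ + 1))) +
    M.χ _ (ZS W J (free 0 m J τ0) (XS m c W E J d τ0)) *
      (M.L - 1) ^ (frc m J τ0 - (frc m J τ + 2)) =
    M.χ _ (ZS W J J {z | z none ∈ E}) * (M.L - 1) ^ (J.card - (frc m J τ + 2)) * M.L at key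
  linear_combination key

/-- the relation for `GB1` -/
theorem b1_two (h1 : S_Free) (h2 : S_Sub) (M : Meas K R) (m : Fin r → Fin n → ℕ) (c : Fin r → K)
    {W : Set (Pt K (Fin n))} (hW : Constr W)
    {E : Set (AlgebraicClosure K)} (hE : Good E) (J : Finset (Fin n))
    (i k : Fin n) (hi : i ∈ J) (hk : k ∈ J) (hik : i ≠ k) (τ0 τ1 τ2 : Finset (Fin r))
    (t0 : ∀ j ∈ τ0, m j i = 0 ∧ m j k = 0)
    (t1 : ∀ j ∈ τ1, m j i = 1 ∧ m j k = 0) (t2 : ∀ j ∈ τ2, m j i = 0 ∧ m j k = 1)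
    (hn1 : τ1.Nonempty) (hn2 : τ2.Nonempty)
    (hnc : ∀ z : Fin n → AlgebraicClosure K, (∀ l, l ≠ i → l ≠ k → z l ≠ 0) →
      gp m (cb c) τ1 i z ≠ 0 ∨ gp m (cb c) τ2 k z ≠ 0) :
    M.χ _ (GB1 0 m c 1 W E J (τ0 ∪ (τ1 ∪ τ2))) +
      ((M.L - 1) ^ (frc m J (τ0 ∪ τ1) - (frc m J (τ0 ∪ (τ1 ∪ τ2)) + 1)) *
        M.χ _ (GB1 0 m c 1 W E J (τ0 ∪ τ1)) +
      (M.L - 1) ^ (frc m J (τ0 ∪ τ2) - (frc m J (τ0 ∪ (τ1 ∪ τ2)) + 1)) *
        M.χ _ (GB1 0 m c 1 W E J (τ0 ∪ τ2))) +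
      (M.L - 1) ^ (frc m J τ0 - (frc m J (τ0 ∪ (τ1 ∪ τ2)) + 2)) *
        M.χ _ (GB1 0 m c 1 W E J τ0) =
      M.χ _ (GB1 0 m c 1 W E J ∅) *
        (M.L - 1) ^ (J.card - (frc m J (τ0 ∪ (τ1 ∪ τ2)) + 2)) * M.L := by
  have e1 : ZS W J (free 0 m J ∅) (XS m c W E J (fun _ => 0) ∅) = ZS W J J {z | z none ∈ E} := by
    ext z
    simp only [ZS, XS, Set.mem_ofPred_eq, free, gbar, Finset.sum_empty, Finset.notMem_empty,
      Pi.zero_apply, true_and, false_implies, implies_true, Finset.filter_true]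
  rw [chi_GB1, chi_GB1, chi_GB1, chi_GB1, chi_GB1, e1]
  exact X_two h1 h2 M m c hW hE J IsPF.zero (fun _ _ _ => rfl) i k hi hk hik τ0 τ1 τ2 t0 t1 t2
    hn1 hn2 hnc

/-- the relation for `GB0` -/
theorem b0_two (h1 : S_Free) (h2 : S_Sub) (M : Meas K R) (m : Fin r → Fin n → ℕ) (c : Fin r → K)
    {W : Set (Pt K (Fin n))} (hW : Constr W)
    {E : Set (AlgebraicClosure K)} (hE : Good E) (J : Finset (Fin n))
    (i k : Fin n) (hi : i ∈ J) (hk : k ∈ J) (hik : i ≠ k) (τ0 τ1 τ2 : Finset (Fin r))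
    (t0 : ∀ j ∈ τ0, m j i = 0 ∧ m j k = 0)
    (t1 : ∀ j ∈ τ1, m j i = 1 ∧ m j k = 0) (t2 : ∀ j ∈ τ2, m j i = 0 ∧ m j k = 1)
    (hn1 : τ1.Nonempty) (hn2 : τ2.Nonempty)
    (hnc : ∀ z : Fin n → AlgebraicClosure K, (∀ l, l ≠ i → l ≠ k → z l ≠ 0) →
      gp m (cb c) τ1 i z ≠ 0 ∨ gp m (cb c) τ2 k z ≠ 0) :
    M.χ _ (GB0 0 m c 1 W E J (τ0 ∪ (τ1 ∪ τ2))) +
      ((M.L - 1) ^ (frc m J (τ0 ∪ τ1) - (frc m J (τ0 ∪ (τ1 ∪ τ2)) + 1)) *
        M.χ _ (GB0 0 m c 1 W E J (τ0 ∪ τ1)) +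
      (M.L - 1) ^ (frc m J (τ0 ∪ τ2) - (frc m J (τ0 ∪ (τ1 ∪ τ2)) + 1)) *
        M.χ _ (GB0 0 m c 1 W E J (τ0 ∪ τ2))) +
      (M.L - 1) ^ (frc m J τ0 - (frc m J (τ0 ∪ (τ1 ∪ τ2)) + 2)) *
        M.χ _ (GB0 0 m c 1 W E J τ0) =
      M.χ _ (GB1 0 m c 1 W E J ∅) *
        (M.L - 1) ^ (J.card - (frc m J (τ0 ∪ (τ1 ∪ τ2)) + 2)) * M.L := by
  have e1 : ZS W J (free 0 m J ∅) (XS m c W E J (fun _ => 0) ∅) = ZS W J J {z | z none ∈ E} := by
    ext z
    simp only [ZS, XS, Set.mem_ofPred_eq, free, gbar, Finset.sum_empty, Finset.notMem_empty,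
      Pi.zero_apply, true_and, false_implies, implies_true, Finset.filter_true]
  rw [chi_GB0 M m c hW hE, chi_GB0 M m c hW hE, chi_GB0 M m c hW hE, chi_GB0 M m c hW hE,
    chi_GB1, e1]
  exact X_two h1 h2 M m c hW hE J (IsPF.coord none) (fun _ _ h => h) i k hi hk hik τ0 τ1 τ2 t0 t1
    t2 hn1 hn2 hnc

end

end Pool.Agent.Y231.N4
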