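import Pool.Agent.TH216.LX.Lx3
import Pool.Agent.Y231.N4.M4

/-!
# Four variables: the exponents `v j` only, the rings
-/

set_option autoImplicit false

namespace Pool.Agent.Y231.N4

open MvPolynomial Filter Pool.Agent.H628R4.TP Pool.Agent.W425.MM Pool.Agent.W425.GN
open Pool.Agent.W425.ND (spa)
open Pool.Agent.W426.SM (gord IsRay face)
open Pool.Agent.W425.BF (B1 BD shf shf_eval shf_ne hz hz_support hz_eq cof spa_add)
open Pool.Agent.W425.SV (NP RelV Kil1)
open Pool.Agent.TH216.MF
open Pool.Agent.TH216.LX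
open Pool.Agent.TH216.MC (pos_of_ray rootsL hpl_nonB)
open Pool.Agent.W428.MOT (Pt Constr ratRing sp Lu MK)
open Pool.Agent.W375.MG (zetaG Good)

section
variable {R R' N : ℕ} (m : Fin R → Fin N → ℕ) (m' : Fin R' → Fin N → ℕ)

lemma phi_sub {σ τ : Finset (Fin R')} (h : σ ⊆ τ) : PhiC m m' σ ⊆ PhiC m m' τ := by
  intro j hj
  rw [mem_PhiC] at hj ⊢
  exact inC_mono h hj

/-- the convex hulls, two directions -/
lemma phi_two (i k : Fin N) (hik : i ≠ k) (τ0 τ1 τ2 : Finset (Fin R'))
    (t0 : ∀ j ∈ τ0, m' j i = 0 ∧ m' j k = 0) (t1 : ∀ j ∈ τ1, m' j i = 1 ∧ m' j k = 0)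
    (t2 : ∀ j ∈ τ2, m' j i = 0 ∧ m' j k = 1) :
    PhiC m m' (τ0 ∪ (τ1 ∪ τ2)) = PhiC m m' τ0 ∪ (PhiC m m' τ1 ∪ PhiC m m' τ2) := by
  classical
  have d01 : ∀ j ∈ τ1, j ∉ τ0 := fun j h h' => by
    have a1 := t0 j h'
    have a2 := t1 j h
    omega
  have d02 : ∀ j ∈ τ2, j ∉ τ0 := fun j h h' => by
    have a1 := t0 j h'
    have a2 := t2 j h
    omega
  have d12 : ∀ j ∈ τ2, j ∉ τ1 := fun j h h' => by
    have a1 := t1 j h'
    have a2 := t2 j h
    omega
  refine Finset.Subset.antisymm (fun j hj => ?_) ?_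
  · rw [mem_PhiC] at hj
    obtain ⟨l, l1, l2, l3, l4⟩ := hj
    have hmem : ∀ x, x ∉ τ0 → x ∉ τ1 → x ∉ τ2 → l x = 0 := fun x h0 h1 h2 =>
      l2 x (by simp [h0, h1, h2])
    -- the sums
    have hi : ∑ x ∈ τ1, l x = (m j i : ℝ) := by
      rw [← l4 i]
      symm
      have e1 : ∑ x, l x * (m' x i : ℝ) = ∑ x ∈ τ1, l x * (m' x i : ℝ) := by
        symm
        refine Finset.sum_subset (Finset.subset_univ _) fun x _ hx => ?_
        by_cases h0 : x ∈ τ0
        · rw [(t0 x h0).1, Nat.cast_zero, mul_zero]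
        · by_cases h2 : x ∈ τ2
          · rw [(t2 x h2).1, Nat.cast_zero, mul_zero]
          · rw [hmem x h0 hx h2, zero_mul]
      rw [e1]
      refine Finset.sum_congr rfl fun x hx => ?_
      rw [(t1 x hx).1, Nat.cast_one, mul_one]
    have hk : ∑ x ∈ τ2, l x = (m j k : ℝ) := by
      rw [← l4 k]
      symm
      have e1 : ∑ x, l x * (m' x k : ℝ) = ∑ x ∈ τ2, l x * (m' x k : ℝ) := by
        symm
        refine Finset.sum_subset (Finset.subset_univ _) fun x _ hx => ?_
        by_cases h0 : x ∈ τ0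
        · rw [(t0 x h0).2, Nat.cast_zero, mul_zero]
        · by_cases h2 : x ∈ τ1
          · rw [(t1 x h2).2, Nat.cast_zero, mul_zero]
          · rw [hmem x h0 h2 hx, zero_mul]
      rw [e1]
      refine Finset.sum_congr rfl fun x hx => ?_
      rw [(t2 x hx).2, Nat.cast_one, mul_one]
    have htot : ∑ x, l x = ∑ x ∈ τ0, l x + (∑ x ∈ τ1, l x + ∑ x ∈ τ2, l x) := by
      rw [← Finset.sum_union (by
        rw [Finset.disjoint_left]
        exact fun x h h' => d12 x h' h), ← Finset.sum_union (by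
        rw [Finset.disjoint_left]
        intro x h h'
        rcases Finset.mem_union.1 h' with h' | h'
        · exact d01 x h' h
        · exact d02 x h' h)]
      symm
      refine Finset.sum_subset (Finset.subset_univ _) fun x _ hx => ?_
      rw [Finset.mem_union, Finset.mem_union, not_or, not_or] at hx
      exact hmem x hx.1 hx.2.1 hx.2.2
    rw [l3, hi, hk] at htot
    have h0 : 0 ≤ ∑ x ∈ τ0, l x := Finset.sum_nonneg fun x _ => l1 x
    have hle : (m j i : ℝ) + m j k ≤ 1 := by linarith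
    have hle' : m j i + m j k ≤ 1 := by exact_mod_cast hle
    have hz : ∀ σ : Finset (Fin R'), ∑ x ∈ σ, l x = 0 → ∀ x ∈ σ, l x = 0 := fun σ h =>
      (Finset.sum_eq_zero_iff_of_nonneg fun x _ => l1 x).1 h
    rw [Finset.mem_union, Finset.mem_union, mem_PhiC, mem_PhiC, mem_PhiC]
    rcases Nat.eq_zero_or_pos (m j i) with hi0 | hi0
    · rcases Nat.eq_zero_or_pos (m j k) with hk0 | hk0
      · left
        rw [hi0, Nat.cast_zero] at hi
        rw [hk0, Nat.cast_zero] at hk
        refine ⟨l, l1, fun x hx => ?_, l3, l4⟩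
        by_cases h1 : x ∈ τ1
        · exact hz _ hi x h1
        · by_cases h2 : x ∈ τ2
          · exact hz _ hk x h2
          · exact hmem x hx h1 h2
      · right; right
        have hk1 : m j k = 1 := by omega
        rw [hi0, Nat.cast_zero] at hi
        rw [hi0, hk1, Nat.cast_zero, Nat.cast_one] at htot
        have h00 : ∑ x ∈ τ0, l x = 0 := by linarith
        refine ⟨l, l1, fun x hx => ?_, l3, l4⟩
        by_cases h1 : x ∈ τ1
        · exact hz _ hi x h1
        · by_cases h2 : x ∈ τ0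
          · exact hz _ h00 x h2
          · exact hmem x h2 h1 hx
    · right; left
      have hi1 : m j i = 1 := by omega
      have hk0 : m j k = 0 := by omega
      rw [hk0, Nat.cast_zero] at hk
      rw [hi1, hk0, Nat.cast_zero, Nat.cast_one] at htot
      have h00 : ∑ x ∈ τ0, l x = 0 := by linarith
      refine ⟨l, l1, fun x hx => ?_, l3, l4⟩
      by_cases h1 : x ∈ τ2
      · exact hz _ hk x h1
      · by_cases h2 : x ∈ τ0
        · exact hz _ h00 x h2
        · exact hmem x h2 hx h1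
  · refine Finset.union_subset (phi_sub m m' Finset.subset_union_left)
      (Finset.union_subset (phi_sub m m' ?_) (phi_sub m m' ?_))
    · exact Finset.subset_union_left.trans Finset.subset_union_right
    · exact Finset.subset_union_right.trans Finset.subset_union_right

/-- the coordinates of the convex combinations -/
lemma phi_coord (i : Fin N) (a : ℕ) (τ : Finset (Fin R')) (h : ∀ j ∈ τ, m' j i = a) :
    ∀ j ∈ PhiC m m' τ, m j i = a := by
  intro j hj
  rw [mem_PhiC] at hj
  obtain ⟨l, l1, l2, l3, l4⟩ := hj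
  have h1 : (m j i : ℝ) = a := by
    rw [← l4 i]
    have e1 : ∀ x, l x * (m' x i : ℝ) = l x * a := by
      intro x
      by_cases hx : x ∈ τ
      · rw [h x hx]
      · rw [l2 x hx, zero_mul, zero_mul]
    rw [Finset.sum_congr rfl fun x _ => e1 x, ← Finset.sum_mul, l3, one_mul]
  exact_mod_cast h1

/-- the faces of the convex combinations -/
lemma phi_adm (hR : 0 < R) (hR' : 0 < R') (ha : ∀ j', ∃ j, m j = m' j')
    (hb : ∀ j, InN m' Finset.univ (m j)) (τ : Finset (Fin R')) (h : Adm m' τ) :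
    Adm m (PhiC m m' τ) := by
  obtain ⟨x, hx, hf⟩ := h
  refine ⟨x, hx, fun j hj => ?_⟩
  rw [mem_PhiC] at hj
  obtain ⟨l, l1, l2, l3, l4⟩ := hj
  have h5 := inC_pair l4 x
  have h6 : ∑ j, l j * ((∑ i, x i * m' j i : ℕ) : ℝ) = gord m' x := by
    have h7 : ∀ j, l j * ((∑ i, x i * m' j i : ℕ) : ℝ) = l j * gord m' x := by
      intro j
      by_cases hj : j ∈ τ
      · rw [hf j hj]
      · rw [l2 j hj, zero_mul, zero_mul]
    simp only [h7]
    rw [← Finset.sum_mul, l3, one_mul]
  rw [h6] at h5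
  unfold face
  rw [gord_np m m' Finset.univ hR hR' ha hb x]
  exact_mod_cast h5

/-- the relations for the convex hulls -/
lemma krelB_phi (hR : 0 < R) (hR' : 0 < R') (ha : ∀ j', ∃ j, m j = m' j')
    (hb : ∀ j, InN m' Finset.univ (m j)) (q : ℕ) (e : Finset (Fin R) → ℂ)
    (h : KRelB q m e) : KRelB q m' (fun τ => e (PhiC m m' τ)) := by
  classical
  intro i k hik τ0 τ1 τ2 t0 t1 t2 hn1 hn2 hadm
  have e0 := phi_two m m' i k hik τ0 τ1 τ2 t0 t1 t2
  have e1 := phi_two m m' i k hik τ0 τ1 ∅ t0 t1 (fun j hj => absurd hj (Finset.notMem_empty j))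
  have e2 := phi_two m m' i k hik τ0 ∅ τ2 t0 (fun j hj => absurd hj (Finset.notMem_empty j)) t2
  rw [phi_empty, Finset.union_empty, Finset.union_empty] at e1
  rw [phi_empty, Finset.empty_union, Finset.empty_union] at e2
  have hA := phi_adm m m' hR hR' ha hb _ hadm
  rw [e0] at hA
  have hne : ∀ τ : Finset (Fin R'), τ.Nonempty → (PhiC m m' τ).Nonempty := by
    rintro τ ⟨j', hj'⟩
    obtain ⟨j, hj⟩ := ha j'
    refine ⟨j, (mem_PhiC m m' τ j).2 ?_⟩
    rw [hj]
    exact inC_self m' τ j' hj'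
  beta_reduce
  rw [e0, e1, e2]
  exact h i k hik _ _ _
    (fun j hj => ⟨phi_coord m m' i 0 τ0 (fun j hj => (t0 j hj).1) j hj,
      phi_coord m m' k 0 τ0 (fun j hj => (t0 j hj).2) j hj⟩)
    (fun j hj => ⟨phi_coord m m' i 1 τ1 (fun j hj => (t1 j hj).1) j hj,
      phi_coord m m' k 0 τ1 (fun j hj => (t1 j hj).2) j hj⟩)
    (fun j hj => ⟨phi_coord m m' i 0 τ2 (fun j hj => (t2 j hj).1) j hj,
      phi_coord m m' k 1 τ2 (fun j hj => (t2 j hj).2) j hj⟩)
    (hne _ hn1) (hne _ hn2) hA

end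

variable {r : ℕ}

/-- the exponents are different -/
lemma append_inj {N : ℕ} {F : Type} [Field F] (v : Fin r → Fin N → ℕ)
    (hv : Function.Injective v)
    (h : MvPolynomial (Fin N) F) (hvh : ∀ w ∈ h.support, ∀ j, ¬ ∀ x, w x = v j x) :
    Function.Injective (Fin.append v (we h)) := by
  intro j j'
  refine Fin.addCases (fun j => ?_) (fun l => ?_) j <;>
    refine Fin.addCases (fun j' => ?_) (fun l' => ?_) j'
  · rw [Fin.append_left, Fin.append_left]
    intro h3
    rw [hv h3]
  · rw [Fin.append_left, Fin.append_right]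
    intro h3
    exact absurd (fun x => (congrFun h3 x).symm)
      (hvh _ (h.support.equivFin.symm l').2 j)
  · rw [Fin.append_left, Fin.append_right]
    intro h3
    exact absurd (fun x => congrFun h3 x) (hvh _ (h.support.equivFin.symm l).2 j')
  · rw [Fin.append_right, Fin.append_right]
    intro h3
    have h4 : (h.support.equivFin.symm l) = (h.support.equivFin.symm l') :=
      Subtype.ext (Finsupp.ext fun x => congrFun h3 x)
    rw [h.support.equivFin.symm.injective h4]

/-- the recurrences at the bad levels -/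
theorem hb_4 (hr : 0 < r) {F : Type} [Field F] (v : Fin r → Fin 4 → ℕ)
    (hv : Function.Injective v) (h : MvPolynomial (Fin 4) F)
    (hh : ∀ w ∈ h.support, InN v Finset.univ (fun i => w i))
    (hvh : ∀ w ∈ h.support, ∀ j, ¬ ∀ x, w x = v j x) (P : ℚ → Prop)
    (hP : ∀ α, ¬ P α → ∃ (θ : Fin r → ℤ) (p : Polynomial ℂ),
      RelG v (Kil1 v) (KilU v θ) p ∧ p.eval (α : ℂ) ≠ 0)
    (q : ℕ) (hq : 2 ≤ q)
    (e : Finset (Fin (r + h.support.card)) → ℂ)
    (he : KRelJ q (Fin.append v (we h)) Finset.univ e) (he' : KRelB q (Fin.append v (we h)) e)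
    (T0 : ℂ) (hT0 : T0 ≠ 0) (σ : ℚ)
    (hσ : HypS4 v (σ : ℝ) ∧ ¬ P (-σ)) (hlog : Real.log ‖T0‖ / Real.log q = (σ : ℝ)) :
    RecJ q (Fin.append v (we h)) e Finset.univ T0 := by
  classical
  have hminj := append_inj v hv h hvh
  have hma : ∀ j', ∃ j, Fin.append v (we h) j = v j' := fun j' =>
    ⟨Fin.castAdd _ j', by rw [Fin.append_left]⟩
  have hmb : ∀ j, InN v Finset.univ (Fin.append v (we h) j) := by
    intro j
    refine Fin.addCases (fun j => ?_) (fun l => ?_) j
    · rw [Fin.append_left]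
      exact inN_self v Finset.univ j
    · rw [Fin.append_right]
      exact hh _ (h.support.equivFin.symm l).2
  obtain ⟨hL, hPσ⟩ := hσ
  obtain ⟨θ, p, hrel, hp⟩ := hP _ hPσ
  have he1 := krelJ_phi (Fin.append v (we h)) v hminj hma q Finset.univ e he
  have he2 := krelB_phi (Fin.append v (we h)) v (by omega) hr hma hmb q e he'
  have h1 : ((-Real.log ‖T0‖ / Real.log q : ℝ) : ℂ) = ((-σ : ℚ) : ℂ) := by
    rw [neg_div, hlog]
    push_cast
    rfl
  obtain ⟨Q, hQ, hrec⟩ := recJ4 q hq v p θ hrel _ he1 he2 T0 hT0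
    (by rw [h1]; exact hp) (by rw [hlog]; exact hL)
  refine ⟨Q, hQ, ?_⟩
  filter_upwards [hrec] with t ht
  rw [← ht]
  refine Finset.sum_congr rfl fun m _ => ?_
  rw [aJ_phiN (Fin.append v (we h)) v Finset.univ (by omega) hr hma hmb]

/-- the rings, for all the coefficients -/
theorem base4 (hr : 0 < r) {F : Type} [Field F] (v : Fin r → Fin 4 → ℕ)
    (hv : Function.Injective v) (h : MvPolynomial (Fin 4) F)
    (hh : ∀ w ∈ h.support, InN v Finset.univ (fun i => w i))
    (hvh : ∀ w ∈ h.support, ∀ j, ¬ ∀ x, w x = v j x) (P : ℚ → Prop)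
    (hP : ∀ α, ¬ P α → ∃ (θ : Fin r → ℤ) (p : Polynomial ℂ),
      RelG v (Kil1 v) (KilU v θ) p ∧ p.eval (α : ℂ) ≠ 0) :
    ∃ S : Finset (ℤ × ℤ),
      (∀ p ∈ S, ∃ a : Fin 4 → ℕ, IsRay v a ∧ 0 < gord v a ∧
        (HypS4 v (((((∑ i, a i : ℕ) : ℚ) / gord v a : ℚ)) : ℝ) →
          P (-(((∑ i, a i : ℕ) : ℚ) / gord v a))) ∧
        p = (-((∑ i, a i : ℕ) : ℤ), (gord v a : ℤ))) ∧
      ∀ (k : Type) [Field k] [Algebra F k] [Algebra k ℂ] (c : Fin r → k), (∀ j, c j ≠ 0) →
        NonD (Fin.append v (we h)) (fun j => algebraMap k ℂ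
          (Fin.append c (fun l => algebraMap F k (wc h l)) j)) →
        ∀ (K : Type) [Field K] [Algebra k K] (W : Set (Pt K (Fin 4)))
          (E : Set (AlgebraicClosure K)), Constr W → Good E →
          (∀ z ∈ W, ∀ i, z i = 0) →
          zetaG (spa v (fun j => algebraMap k K (c j)) +
            MvPolynomial.map ((algebraMap k K).comp (algebraMap F k)) h) W E *
            (1 - PowerSeries.C (((Lu K)⁻¹ : (MK K)ˣ) : MK K) * PowerSeries.X) ∈
              ratRing K S := by
  classical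
  have hray := pRAY v (we h) hr (we_np v h fun w hw => inN_np (hh w hw))
  obtain ⟨S, hS, hz1⟩ := fin4 (Fin.append v (we h)) (append_inj v hv h hvh) (by omega)
    (fun σ => HypS4 v (σ : ℝ) ∧ ¬ P (-σ))
    (fun q hq e he he' T0 hT0 σ hσ hlog => hb_4 hr v hv h hh hvh P hP q hq e he he' T0
      hT0 σ hσ hlog)
  refine ⟨S, fun p hp => ?_, fun k _ _ _ c hc hnk K _ _ W E hW hE hWD => ?_⟩
  · obtain ⟨a, ha, hg, hn, h1⟩ := hS p hp
    obtain ⟨hga, hra⟩ := hray a
    rw [hga] at hg hn h1
    refine ⟨a, hra ha, hg, fun hL => ?_, h1⟩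
    by_contra hcon
    exact hn ⟨hL, hcon⟩
  · have hK : CharZero K := by
      have hkc : CharZero k := RingHom.charZero (algebraMap k ℂ)
      exact charZero_of_injective_algebraMap (algebraMap k K).injective
    rw [sp_eq]
    refine hz1 K _ (nonG_of_nonD _ _ ?_) (fun j => ?_) W E hW hE hWD
    · have h4 := nonD_ext (k := k) (L := AlgebraicClosure K) _ _ hnk
      have h5 : (fun j => algebraMap K (AlgebraicClosure K)
          (Fin.append (fun j => algebraMap k K (c j))
            (fun l => (algebraMap k K).comp (algebraMap F k) (wc h l)) j)) =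
          fun j => algebraMap k (AlgebraicClosure K)
            (Fin.append c (fun l => algebraMap F k (wc h l)) j) := by
        rw [append_map, append_map]
        congr 1
      rw [h5]
      exact h4
    · refine Fin.addCases (fun j => ?_) (fun l => ?_) j
      · rw [Fin.append_left]
        exact (map_ne_zero _).2 (hc j)
      · rw [Fin.append_right]
        exact (map_ne_zero _).2 (mem_support_iff.1 (h.support.equivFin.symm l).2)

end Pool.Agent.Y231.N4
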