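import Pool.Agent.Y231.N4.F1

/-!
# Four variables: generic coefficients, at the origin
-/

set_option autoImplicit false

namespace Pool.Agent.Y231.N4

open MvPolynomial Filter Pool.Agent.H628R4.TP Pool.Agent.W425.MM Pool.Agent.W425.GN
open Pool.Agent.W425.ND (spa)
open Pool.Agent.W426.SM (gord IsRay face)
open Pool.Agent.W425.BF (B1 BD shf shf_eval shf_ne hz hz_support hz_eq cof spa_add)
open Pool.Agent.W425.SV (NP RelV Kil1)
open Pool.Agent.TH216.MF
open Pool.Agent.TH216.LX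
open Pool.Agent.TH216.MC (pos_of_ray rootsL hpl_nonB)
open Pool.Agent.W428.MOT (Pt Constr ratRing sp Lu MK)
open Pool.Agent.W375.MG (zetaG Good)

variable {r N : ℕ}

/-- a root for all the relations is a root of the `b`-functions -/
theorem hpl_of_root [NeZero r] {F : Type} [Field F] (v : Fin r → Fin N → ℕ)
    (hv : Function.Injective v) (hv0 : ∀ j, v j ≠ 0) (h : MvPolynomial (Fin N) F)
    (hh : ∀ w ∈ h.support, NP v w)
    (u : Fin N → ℕ)
    (hu : ∃ θ : Fin r → ℝ, LinearIndependent ℚ θ ∧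
      ∀ p : Polynomial ℂ, RelV v θ True p → p.eval (-(((∑ i, u i : ℕ) : ℂ) / gord v u)) = 0) :
    HPL v h (-(((∑ i, u i : ℕ) : ℚ) / gord v u)) 0 := by
  intro F' _ _ a h' ha hs b hb
  have hh' : ∀ w ∈ h'.support, NP v w := fun w hw => hh w (hs w hw)
  by_cases hb0 : b = 0
  · rw [hb0]
    exact dvd_zero _
  have hJ := (feqL_iff _ b).2 hb
  obtain ⟨θ, hθ, hR⟩ := hu
  obtain ⟨p, q, hbp, hp⟩ := Pool.Agent.W422.GC.rel_of_unit True _ unit_cond v a hv hv0 ha h' hh'
    θ hθ b hb0 hJ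
  have h1 := hR p hp
  rw [zero_add, pow_one, hbp]
  refine Dvd.dvd.mul_right (Dvd.dvd.mul_left ?_ _) _
  rw [Polynomial.dvd_iff_isRoot]
  show p.eval _ = 0
  rw [← h1]
  congr 1
  push_cast
  ring

/-- the conclusion for all the coefficients `c` with `g(c) ≠ 0` -/
def Con4 {F : Type} [Field F] [Algebra F ℂ]
    (v : Fin r → Fin 4 → ℕ) (h : MvPolynomial (Fin 4) F) (g : MvPolynomial (Fin r) F) : Prop :=
  ∀ (k : Type) [Field k] [Algebra F k] [Algebra k ℂ]
      [IsScalarTower F k ℂ] (c : Fin r → k), aeval (fun j => algebraMap k ℂ (c j)) g ≠ 0 →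
      ∃ S : Finset (ℤ × ℤ),
        (∀ p ∈ S, p.1 < 0 ∧ 0 < p.2 ∧ (p.1 = -2 * p.2 ∨ ∀ b : Polynomial ℂ, IsLocalBFunction
          (spa v (fun j => algebraMap k ℂ (c j)) + MvPolynomial.map (algebraMap F ℂ) h) b →
            b.eval ((p.1 : ℂ) / p.2) = 0)) ∧
        (∀ (K : Type) [Field K] [Algebra k K] (W : Set (Pt K (Fin 4)))
          (E : Set (AlgebraicClosure K)), Constr W → Good E →
          (∀ z ∈ W, ∀ i, z i = 0) →
          zetaG (spa v (fun j => algebraMap k K (c j)) +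
            MvPolynomial.map ((algebraMap k K).comp (algebraMap F k)) h) W E ∈ ratRing K S)

/-- the levels -/
theorem levels4 (hR1 : StR1) (hR2 : StR2) (hAZ : StAZ) (hFac : StFac)
    {F : Type} [Field F] (hr : 0 < r) (v : Fin r → Fin 4 → ℕ) (hV : Vert v)
    (hv : Function.Injective v) (hv0 : ∀ j, v j ≠ 0)
    (h : MvPolynomial (Fin 4) F) (hh : ∀ w ∈ h.support, NP v w)
    (a : Fin 4 → ℕ) (hg : 0 < gord v a)
    (h1 : ∑ i, a i ≠ gord v a) (h2 : ∑ i, a i ≠ 2 * gord v a)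
    (hP : HypS4 v (((((∑ i, a i : ℕ) : ℚ) / gord v a : ℚ)) : ℝ) →
          HPL v h (-(((∑ i, a i : ℕ) : ℚ) / gord v a)) 0) :
    HPL v h (-(((∑ i, a i : ℕ) : ℚ) / gord v a)) 0 := by
  have hne : NeZero r := ⟨by omega⟩
  by_contra hcon
  apply hcon
  apply hP
  set σ : ℚ := ((∑ i, a i : ℕ) : ℚ) / gord v a with hσ
  have hgq : ((gord v a : ℕ) : ℚ) ≠ 0 := by exact_mod_cast hg.ne'
  have hσ1 : σ ≠ 1 := by
    intro h3
    apply h1
    rw [hσ, div_eq_one_iff_eq hgq] at h3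
    exact_mod_cast h3
  have hσ2 : σ ≠ 2 := by
    intro h3
    apply h2
    rw [hσ, div_eq_iff hgq] at h3
    exact_mod_cast h3
  refine hAZ v hr hV (σ : ℝ) (by exact_mod_cast hσ1) (by exact_mod_cast hσ2)
    fun a' ha' hg' hl => ?_
  have hgq' : ((gord v a' : ℕ) : ℚ) ≠ 0 := by exact_mod_cast hg'.ne'
  have hl' : ((∑ i, a' i : ℕ) : ℚ) / gord v a' = σ := by
    apply Rat.cast_injective (α := ℝ)
    push_cast
    push_cast at hl
    exact hl
  have h3 : ∑ i, a' i ≠ gord v a' := by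
    intro h3
    apply hσ1
    rw [← hl', h3, div_self hgq']
  have h4 : ∑ i, a' i ≠ 2 * gord v a' := by
    intro h4
    apply hσ2
    rw [← hl', h4]
    push_cast
    rw [mul_div_assoc, div_self hgq', mul_one]
  rcases hFac v hr hV a' ha' hg' h3 h4 with h5 | h5 | h5 | h5
  · exfalso
    apply hcon
    rw [← hl']
    exact hpl_nonB v hv hv0 h hh a' hg' h5
  · exfalso
    apply hcon
    rw [← hl']
    exact hpl_of_root v hv hv0 h hh a' (hR1 v a' hg' h5)
  · exfalso
    apply hcon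
    rw [← hl']
    exact hpl_of_root v hv hv0 h hh a' (hR2 v a' hg' h5)
  · exact h5

theorem gen40 (hR1 : StR1) (hR2 : StR2) (hAZ : StAZ) (hFac : StFac)
    {F : Type} [Field F] [Algebra F ℂ] (hr : 0 < r)
    (v : Fin r → Fin 4 → ℕ) (hV : Vert v) (hv : Function.Injective v)
    (hv0 : ∀ j, v j ≠ 0)
    (h : MvPolynomial (Fin 4) F) (hh : ∀ w ∈ h.support, NP v w)
    (hvh : ∀ w ∈ h.support, ∀ j, ¬ ∀ x, w x = v j x) :
    ∃ g : MvPolynomial (Fin r) F, g ≠ 0 ∧ Con4 v h g := by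
  classical
  have hne : NeZero r := ⟨by omega⟩
  obtain ⟨g1, hg1, h1⟩ := rootsL (F := F) hr v hv hv0 h hh
  obtain ⟨g2, hg2, h2⟩ := gen_nonDF pF4 hr v (we h) (we_np v h hh) (wc h)
  have hg3 : (∏ j : Fin r, (X j : MvPolynomial (Fin r) F)) ≠ 0 :=
    Finset.prod_ne_zero_iff.2 fun j _ => X_ne_zero j
  obtain ⟨S, hS, hz1⟩ := base4 hr v hv h (fun w hw => np_inN (hh w hw))
    hvh (fun α => HPL v h α 0) (fun α hα => relLX v hv hv0 h hh α hα)
  refine ⟨g1 * g2 * ∏ j : Fin r, (X j : MvPolynomial (Fin r) F),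
    mul_ne_zero (mul_ne_zero hg1 hg2) hg3, fun k _ _ _ _ c hc => ?_⟩
  rw [map_mul, map_mul, map_prod] at hc
  have hcne : ∀ j, c j ≠ 0 := by
    intro j hj
    have h5 := Finset.prod_ne_zero_iff.1 (right_ne_zero_of_mul hc) j (Finset.mem_univ j)
    rw [aeval_X, hj, map_zero] at h5
    exact h5 rfl
  have hb := h1 _ (left_ne_zero_of_mul (left_ne_zero_of_mul hc))
  have hnd := h2 _ (right_ne_zero_of_mul (left_ne_zero_of_mul hc))
  have hnk : NonD (Fin.append v (we h)) (fun j => algebraMap k ℂ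
      (Fin.append c (fun l => algebraMap F k (wc h l)) j)) := by
    rw [append_map]
    simp only [← IsScalarTower.algebraMap_apply F k ℂ]
    exact hnd
  refine ⟨insert (-1, 1) S, fun p hp => ?_, fun K _ _ W E hW hE hWD => ?_⟩
  · rcases Finset.mem_insert.1 hp with rfl | hp
    · refine ⟨by norm_num, by norm_num, Or.inr fun b hb' => ?_⟩
      have e : (((-1 : ℤ) : ℂ) / ((1 : ℤ) : ℂ)) = -1 := by
        push_cast
        ring
      rw [e]
      exact (hb b hb').1
    obtain ⟨a, ha, hg, hLP, rfl⟩ := hS p hp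
    refine ⟨pos_of_ray ha, Int.natCast_pos.2 hg, ?_⟩
    by_cases h6 : ∑ i, a i = gord v a
    · right
      intro b hb'
      have e : (((-((∑ i, a i : ℕ) : ℤ) : ℤ) : ℂ) / ((gord v a : ℤ) : ℂ)) = -1 := by
        rw [h6]
        have : ((gord v a : ℕ) : ℂ) ≠ 0 := by exact_mod_cast hg.ne'
        push_cast
        field_simp
      rw [e]
      exact (hb b hb').1
    by_cases h7 : ∑ i, a i = 2 * gord v a
    · left
      change -((∑ i, a i : ℕ) : ℤ) = -2 * (gord v a : ℤ)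
      rw [h7]
      push_cast
      ring
    · right
      intro b hb'
      have hα := levels4 hR1 hR2 hAZ hFac hr v hV hv hv0 h hh a hg h6 h7 hLP
      have h3 := (hb b hb').2 _ hα
      rw [← h3]
      congr 1
      push_cast
      ring
  · exact mem_insert_ring S _ (hz1 k c hcne hnk K W E hW hE fun z hz i => hWD z hz i)

/-- the shift of the coefficients -/
theorem con4_shift {F : Type} [Field F] [Algebra F ℂ] (v : Fin r → Fin 4 → ℕ)
    (h : MvPolynomial (Fin 4) F) (g : MvPolynomial (Fin r) F) (hC : Con4 v (hz v h) g) :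
    Con4 v h (shf (cof v h) g) := by
  intro k _ _ _ _ c hc
  have hmap : ∀ {K : Type} [Field K] (φ : F →+* K) (c' : Fin r → K),
      spa v c' + MvPolynomial.map φ h =
        spa v (fun j => c' j + φ (cof v h j)) + MvPolynomial.map φ (hz v h) := by
    intro K _ φ c'
    rw [spa_add]
    unfold hz
    rw [map_sub, map_spa]
    ring
  rw [shf_eval] at hc
  have e : (fun j => algebraMap k ℂ (c j + algebraMap F k (cof v h j))) =
      fun j => algebraMap k ℂ (c j) + algebraMap F ℂ (cof v h j) := by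
    funext j
    rw [map_add, ← IsScalarTower.algebraMap_apply]
  have hc' : aeval (fun j => algebraMap k ℂ (c j + algebraMap F k (cof v h j))) g ≠ 0 := by
    rw [e]
    exact hc
  obtain ⟨S, hS, hz1⟩ := hC k (fun j => c j + algebraMap F k (cof v h j)) hc'
  refine ⟨S, fun p hp => ?_, fun K _ _ W E hW hE hWD => ?_⟩
  · obtain ⟨h1, h2, h3⟩ := hS p hp
    refine ⟨h1, h2, h3.imp_right fun h3 b hb => h3 b ?_⟩
    rw [hmap] at hb
    rw [e]
    exact hb
  · rw [hmap]
    have h3 := hz1 K W E hW hE hWD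
    have e : (fun j => algebraMap k K (c j + algebraMap F k (cof v h j))) =
        fun j => algebraMap k K (c j) + ((algebraMap k K).comp (algebraMap F k)) (cof v h j) := by
      funext j
      rw [map_add]
      rfl
    rw [e] at h3
    exact h3

/-- **Generic coefficients, at the origin.** -/
theorem gen4 (hR1 : StR1) (hR2 : StR2) (hAZ : StAZ) (hFac : StFac)
    {F : Type} [Field F] [Algebra F ℂ] (hr : 0 < r)
    (v : Fin r → Fin 4 → ℕ) (hV : Vert v) (hv : Function.Injective v) (hv0 : ∀ j, v j ≠ 0)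
    (h : MvPolynomial (Fin 4) F) (hh : ∀ w ∈ h.support, NP v w) :
    ∃ g : MvPolynomial (Fin r) F, g ≠ 0 ∧ Con4 v h g := by
  obtain ⟨g, hg, hgc⟩ := gen40 hR1 hR2 hAZ hFac hr v hV hv hv0 (hz v h)
    (fun w hw => hh w ((hz_support v hv h).1 w hw)) (hz_support v hv h).2
  exact ⟨shf (cof v h) g, shf_ne _ _ hg, con4_shift v h g hgc⟩

open Pool.Agent.TH216.HD (poly InPoly map_poly)
open Pool.Agent.TH216.HDL (Vertices)

/-- the same with `poly` -/
theorem gen4P (hR1 : StR1) (hR2 : StR2) (hAZ : StAZ) (hFac : StFac)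
    {F : Type} [Field F] [Algebra F ℂ] (hr : 0 < r)
    (v : Fin r → Fin 4 → ℕ) (hV : Vertices v) (hv : Function.Injective v) (hv0 : ∀ j, v j ≠ 0)
    (h : MvPolynomial (Fin 4) F) (hh : ∀ w ∈ h.support, InPoly v w) :
    ∃ g : MvPolynomial (Fin r) F, g ≠ 0 ∧ ∀ (k : Type) [Field k] [Algebra F k] [Algebra k ℂ]
      [IsScalarTower F k ℂ] (c : Fin r → k), aeval c g ≠ 0 →
      ∃ S : Finset (ℤ × ℤ),
        (∀ p ∈ S, p.1 < 0 ∧ 0 < p.2 ∧ (p.1 = -2 * p.2 ∨ ∀ b : Polynomial ℂ,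
          IsLocalBFunction (poly v (fun j => algebraMap k ℂ (c j)) h) b →
            b.eval ((p.1 : ℂ) / p.2) = 0)) ∧
        (∀ (K : Type) [Field K] [Algebra k K] (W : Set (Pt K (Fin 4)))
          (E : Set (AlgebraicClosure K)), Constr W → Good E → (∀ z ∈ W, ∀ i, z i = 0) →
          zetaG (MvPolynomial.map (algebraMap k K) (poly v c h)) W E ∈ ratRing K S) := by
  obtain ⟨g, hg, hC⟩ := gen4 (F := F) hR1 hR2 hAZ hFac hr v hV hv hv0 h hh
  refine ⟨g, hg, fun k _ _ _ _ c hc => ?_⟩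
  obtain ⟨S, hS, hz⟩ := hC k c (fun h0 => hc (by
    have h1 : algebraMap k ℂ (aeval c g) = 0 := by
      rw [← h0, ← aeval_algebraMap_apply]
      rfl
    exact (map_eq_zero _).1 h1))
  refine ⟨S, hS, fun K _ _ W E hW hE hWD => ?_⟩
  rw [map_poly]
  exact hz K W E hW hE hWD

end Pool.Agent.Y231.N4
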