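import Pool.Agent.Y231.N4.L2K2

/-!
# The level two: the recurrence
-/

set_option autoImplicit false

namespace Pool.Agent.Y231.N4

open MvPolynomial Filter Pool.Agent.W425.SV
open Pool.Agent.TH216.MF
open Pool.Agent.W426.SM (gord face)
open Pool.Agent.TH216.LX (Vert vert2)

variable {r N : ℕ}

/-- at the rays with two coordinates the kernel is in the ideal -/
lemma local_memT (q : ℕ) (hq : 2 ≤ q) {v : Fin r → Fin 4 → ℕ} (hV : Vert v)
    (e : Finset (Fin r) → ℂ) (he1 : KRelJ q v Finset.univ e) (he2 : KRelB q v e) (t : Fin r → ℂ)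
    (A : Finset (Fin 4)) (Z : Finset (Fin r)) (hA : ∀ i, i ∈ A ↔ aeval t (elm q v i) = 0)
    (hZ : ∀ j, j ∈ Z ↔ t j = 1) (i l : Fin 4) (hi : i ∈ A) (hl : l ∈ A) (hil : i ≠ l)
    (hT : ∀ a ∈ Pt v A Z, a i = 1 ∧ a l = 1 ∧ ∀ x, x ≠ i → x ≠ l → a x = 0) :
    ∃ g : MvPolynomial (Fin r) ℂ, aeval t g ≠ 0 ∧ kE (eT q v e) * g ∈ I1 q v := by
  classical
  have hsum : ∀ a ∈ Pt v A Z, ∀ j, ∑ x, a x * (v j x : ℚ) = v j i + v j l := by
    intro a ha j
    obtain ⟨h1, h2, h3⟩ := hT a ha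
    rw [← Finset.sum_subset (Finset.subset_univ {i, l}), Finset.sum_pair hil, h1, h2, one_mul,
      one_mul]
    intro x _ hx
    rw [Finset.mem_insert, Finset.mem_singleton, not_or] at hx
    rw [h3 x hx.1 hx.2, zero_mul]
  refine local_memG q hq v (eT q v e) t A Z hA hZ i l hi hl
    (fun a ha => ⟨by rw [(hT a ha).1]; exact one_ne_zero,
      by rw [(hT a ha).2.1]; exact one_ne_zero⟩)
    (Finset.univ.filter fun j => v j i = 1 ∧ v j l = 0)
    (Finset.univ.filter fun j => v j i = 0 ∧ v j l = 1)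
    (fun j hj => (Finset.mem_filter.1 hj).2) (fun j hj => (Finset.mem_filter.1 hj).2) ?_ ?_
  · intro j h1 h2 h3 a ha
    rw [hsum a ha]
    rw [Finset.mem_filter, not_and] at h1 h2
    have g1 := h1 (Finset.mem_univ j)
    have g2 := h2 (Finset.mem_univ j)
    intro h4
    have h5 : v j i + v j l = 1 := by exact_mod_cast h4
    omega
  · rintro τ0 τ1 τ2 h0 ⟨a, ha, haτ⟩ h1 h2 hn1 hn2
    have hτ0 : τ0 = ∅ := by
      by_contra hne
      obtain ⟨j, hj⟩ := Finset.nonempty_iff_ne_empty.2 hne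
      have h3 := haτ j hj
      rw [hsum a ha, (h0 j hj).1, (h0 j hj).2] at h3
      norm_num at h3
    subst hτ0
    rw [Finset.empty_union, Finset.empty_union, Finset.empty_union]
    exact krelT hV q hq e he1 he2 i l hil τ1 τ2
      (fun j hj => (Finset.mem_filter.1 (h1 hj)).2) (fun j hj => (Finset.mem_filter.1 (h2 hj)).2)
      hn1 hn2

/-- the criterion at the level two -/
theorem critT (q : ℕ) (hq : 2 ≤ q) {v : Fin r → Fin 4 → ℕ} (hV : Vert v)
    (e : Finset (Fin r) → ℂ)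
    (he1 : KRelJ q v Finset.univ e) (he2 : KRelB q v e) (T0 : ℂ) (hT0 : T0 ≠ 0) (w0 : Fin r → ℕ)
    (hlog : Real.log ‖T0‖ / Real.log q = 2) (hσ : HypT v) :
    Crit q v (kE (eT q v e) * wJ q v Finset.univ) T0 w0 := by
  refine crit_of_loc q hq v _ T0 hT0 w0 fun A Z hne hsum hprem => ?_
  rw [hlog] at hsum
  rcases hσ A Z hne (fun a ha => by exact_mod_cast hsum a ha) hprem with
    hF | hB | ⟨i, hi, l, hl, hil, hT⟩
  · exact Or.inl hF
  · right
    intro t hA hZ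
    exact local_mem q hq v _ (kern_univ hq v _ (krelJ_eT hV q e he1)) t A Z hA hZ hne hB
  · right
    intro t hA hZ
    obtain ⟨g, hg, hgI⟩ := local_memT q hq hV e he1 he2 t A Z hA hZ i l hi hl hil hT
    refine ⟨g, hg, ?_⟩
    have e1 : kE (eT q v e) * wJ q v Finset.univ * g =
        wJ q v Finset.univ * (kE (eT q v e) * g) := by ring
    rw [e1]
    exact Ideal.mul_mem_left _ _ hgI

/-- only the faces with positive normal vectors -/
lemma aJ_adm (q : ℕ) (v : Fin r → Fin N → ℕ) (hr : 0 < r) (e e' : Finset (Fin r) → ℂ)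
    (h : ∀ τ, Adm v τ → e τ = e' τ) (t : ℤ) :
    aJ q v e Finset.univ t = aJ q v e' Finset.univ t := by
  classical
  unfold aJ
  refine tsum_congr fun x => ?_
  by_cases hx : ∀ i, x i ≠ 0 ↔ i ∈ (Finset.univ : Finset (Fin N))
  swap
  · rw [if_neg hx, if_neg hx]
  rw [if_pos hx, if_pos hx]
  congr 1
  unfold Wt
  by_cases h1 : ∀ j, t ≤ ((∑ i, x i * v j i : ℕ) : ℤ)
  swap
  · rw [if_neg h1, if_neg h1]
  rw [if_pos h1, if_pos h1]
  refine h _ ⟨x, fun i => Nat.pos_of_ne_zero ((hx i).2 (Finset.mem_univ i)), fun j hj => ?_⟩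
  have h2 := (Finset.mem_filter.1 hj).2
  unfold face
  refine le_antisymm ?_ (Pool.Agent.W803.SM.gord_le v x j)
  obtain ⟨k, hk⟩ := Pool.Agent.W803.SM.exists_gord hr v x
  rw [← hk]
  have h3 := h1 k
  rw [← h2] at h3
  exact_mod_cast h3

/-- the recurrence at the level two -/
theorem recT (q : ℕ) (hq : 2 ≤ q) (hr : 0 < r) {v : Fin r → Fin 4 → ℕ} (hV : Vert v)
    (p : Polynomial ℂ)
    (θ : Fin r → ℤ) (hrel : RelG v (Kil1 v) (KilU v θ) p)
    (e : Finset (Fin r) → ℂ)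
    (he1 : KRelJ q v Finset.univ e) (he2 : KRelB q v e) (T0 : ℂ) (hT0 : T0 ≠ 0)
    (hp : p.eval ((-Real.log ‖T0‖ / Real.log q : ℝ) : ℂ) ≠ 0)
    (hlog : Real.log ‖T0‖ / Real.log q = 2) (hσ : HypT v) : RecJ q v e Finset.univ T0 := by
  have hp0 : p ≠ 0 := by
    rintro rfl
    exact hp Polynomial.eval_zero
  set D : ℤ := ∑ j, |θ j| with hD
  have hθD : ∀ j, 0 ≤ D - θ j := by
    intro j
    have h1 := Finset.single_le_sum (f := fun j => |θ j|) (fun j _ => abs_nonneg _)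
      (Finset.mem_univ j)
    have h3 := le_abs_self (θ j)
    have h4 : |θ j| ≤ D := h1
    linarith
  obtain ⟨Q, hQ, hZ⟩ := coreU q hq v p θ D (fun j => (D - θ j).toNat)
    (fun j => Int.toNat_of_nonneg (hθD j)) hrel _ (kern_univ hq v _ (krelJ_eT hV q e he1)) T0 hT0
    hp0 (critT q hq hV e he1 he2 T0 hT0 _ hlog hσ)
  have h0 : p.rootMultiplicity ((-Real.log ‖T0‖ / Real.log q : ℝ) : ℂ) = 0 :=
    Polynomial.rootMultiplicity_eq_zero hp
  have hZ := hZ 1
  rw [h0, pow_zero, mul_one, mul_one] at hZ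
  refine ⟨Q, hQ, ?_⟩
  have h1 := rec_aJ q hq v (eT q v e) _ Q hZ
  filter_upwards [h1] with t ht
  rw [← ht]
  refine Finset.sum_congr rfl fun m _ => ?_
  rw [aJ_adm q v hr e (eT q v e) fun τ hτ => (eT_adm q v e τ hτ).symm]

end Pool.Agent.Y231.N4
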