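import Pool.Agent.Y231.N4.F2
import Pool.Agent.Y231.N4.L2K3

/-!
# Four variables: the rings, with the level two
-/

set_option autoImplicit false

namespace Pool.Agent.Y231.N4

open MvPolynomial Filter Pool.Agent.H628R4.TP Pool.Agent.W425.MM Pool.Agent.W425.GN
open Pool.Agent.W425.ND (spa)
open Pool.Agent.W426.SM (gord IsRay face)
open Pool.Agent.W425.BF (B1 BD shf shf_eval shf_ne hz hz_support hz_eq cof spa_add)
open Pool.Agent.W425.SV (NP RelV Kil1)
open Pool.Agent.TH216.MF
open Pool.Agent.TH216.LX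
open Pool.Agent.TH216.MC (pos_of_ray rootsL hpl_nonB)
open Pool.Agent.W428.MOT (Pt Constr ratRing sp Lu MK)
open Pool.Agent.W375.MG (zetaG Good)

variable {r N : ℕ}

/-- the levels for which there is a recurrence -/
def HypL (v : Fin r → Fin 4 → ℕ) (σ : ℚ) : Prop := HypS4 v (σ : ℝ) ∨ (σ = 2 ∧ HypT v)

/-- the recurrences at the bad levels -/
theorem hb_5 (hr : 0 < r) {F : Type} [Field F] (v : Fin r → Fin 4 → ℕ) (hV : Vert v)
    (hv : Function.Injective v) (h : MvPolynomial (Fin 4) F)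
    (hh : ∀ w ∈ h.support, InN v Finset.univ (fun i => w i))
    (hvh : ∀ w ∈ h.support, ∀ j, ¬ ∀ x, w x = v j x) (P : ℚ → Prop)
    (hP : ∀ α, ¬ P α → ∃ (θ : Fin r → ℤ) (p : Polynomial ℂ),
      RelG v (Kil1 v) (KilU v θ) p ∧ p.eval (α : ℂ) ≠ 0)
    (q : ℕ) (hq : 2 ≤ q)
    (e : Finset (Fin (r + h.support.card)) → ℂ)
    (he : KRelJ q (Fin.append v (we h)) Finset.univ e) (he' : KRelB q (Fin.append v (we h)) e)
    (T0 : ℂ) (hT0 : T0 ≠ 0) (σ : ℚ)
    (hσ : HypL v σ ∧ ¬ P (-σ)) (hlog : Real.log ‖T0‖ / Real.log q = (σ : ℝ)) :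
    RecJ q (Fin.append v (we h)) e Finset.univ T0 := by
  classical
  obtain ⟨hL | ⟨hσ2, hT⟩, hPσ⟩ := hσ
  · exact hb_4 hr v hv h hh hvh P hP q hq e he he' T0 hT0 σ ⟨hL, hPσ⟩ hlog
  have hminj := append_inj v hv h hvh
  have hma : ∀ j', ∃ j, Fin.append v (we h) j = v j' := fun j' =>
    ⟨Fin.castAdd _ j', by rw [Fin.append_left]⟩
  have hmb : ∀ j, InN v Finset.univ (Fin.append v (we h) j) := by
    intro j
    refine Fin.addCases (fun j => ?_) (fun l => ?_) j
    · rw [Fin.append_left]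
      exact inN_self v Finset.univ j
    · rw [Fin.append_right]
      exact hh _ (h.support.equivFin.symm l).2
  obtain ⟨θ, p, hrel, hp⟩ := hP _ hPσ
  have he1 := krelJ_phi (Fin.append v (we h)) v hminj hma q Finset.univ e he
  have he2 := krelB_phi (Fin.append v (we h)) v (by omega) hr hma hmb q e he'
  have h1 : ((-Real.log ‖T0‖ / Real.log q : ℝ) : ℂ) = ((-σ : ℚ) : ℂ) := by
    rw [neg_div, hlog]
    push_cast
    rfl
  have hlog2 : Real.log ‖T0‖ / Real.log q = 2 := by
    rw [hlog, hσ2]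
    norm_num
  obtain ⟨Q, hQ, hrec⟩ := recT q hq hr hV p θ hrel _ he1 he2 T0 hT0
    (by rw [h1]; exact hp) hlog2 hT
  refine ⟨Q, hQ, ?_⟩
  filter_upwards [hrec] with t ht
  rw [← ht]
  refine Finset.sum_congr rfl fun m _ => ?_
  rw [aJ_phiN (Fin.append v (we h)) v Finset.univ (by omega) hr hma hmb]

/-- the rings, for all the coefficients -/
theorem base5 (hr : 0 < r) {F : Type} [Field F] (v : Fin r → Fin 4 → ℕ) (hV : Vert v)
    (hv : Function.Injective v) (h : MvPolynomial (Fin 4) F)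
    (hh : ∀ w ∈ h.support, InN v Finset.univ (fun i => w i))
    (hvh : ∀ w ∈ h.support, ∀ j, ¬ ∀ x, w x = v j x) (P : ℚ → Prop)
    (hP : ∀ α, ¬ P α → ∃ (θ : Fin r → ℤ) (p : Polynomial ℂ),
      RelG v (Kil1 v) (KilU v θ) p ∧ p.eval (α : ℂ) ≠ 0) :
    ∃ S : Finset (ℤ × ℤ),
      (∀ p ∈ S, ∃ a : Fin 4 → ℕ, IsRay v a ∧ 0 < gord v a ∧
        (HypL v (((∑ i, a i : ℕ) : ℚ) / gord v a) →
          P (-(((∑ i, a i : ℕ) : ℚ) / gord v a))) ∧
        p = (-((∑ i, a i : ℕ) : ℤ), (gord v a : ℤ))) ∧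
      ∀ (k : Type) [Field k] [Algebra F k] [Algebra k ℂ] (c : Fin r → k), (∀ j, c j ≠ 0) →
        NonD (Fin.append v (we h)) (fun j => algebraMap k ℂ
          (Fin.append c (fun l => algebraMap F k (wc h l)) j)) →
        ∀ (K : Type) [Field K] [Algebra k K] (W : Set (Pt K (Fin 4)))
          (E : Set (AlgebraicClosure K)), Constr W → Good E →
          (∀ z ∈ W, ∀ i, z i = 0) →
          zetaG (spa v (fun j => algebraMap k K (c j)) +
            MvPolynomial.map ((algebraMap k K).comp (algebraMap F k)) h) W E *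
            (1 - PowerSeries.C (((Lu K)⁻¹ : (MK K)ˣ) : MK K) * PowerSeries.X) ∈
              ratRing K S := by
  classical
  have hray := pRAY v (we h) hr (we_np v h fun w hw => inN_np (hh w hw))
  obtain ⟨S, hS, hz1⟩ := fin4 (Fin.append v (we h)) (append_inj v hv h hvh) (by omega)
    (fun σ => HypL v σ ∧ ¬ P (-σ))
    (fun q hq e he he' T0 hT0 σ hσ hlog => hb_5 hr v hV hv h hh hvh P hP q hq e he he' T0
      hT0 σ hσ hlog)
  refine ⟨S, fun p hp => ?_, fun k _ _ _ c hc hnk K _ _ W E hW hE hWD => ?_⟩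
  · obtain ⟨a, ha, hg, hn, h1⟩ := hS p hp
    obtain ⟨hga, hra⟩ := hray a
    rw [hga] at hg hn h1
    refine ⟨a, hra ha, hg, fun hL => ?_, h1⟩
    by_contra hcon
    exact hn ⟨hL, hcon⟩
  · have hK : CharZero K := by
      have hkc : CharZero k := RingHom.charZero (algebraMap k ℂ)
      exact charZero_of_injective_algebraMap (algebraMap k K).injective
    rw [sp_eq]
    refine hz1 K _ (nonG_of_nonD _ _ ?_) (fun j => ?_) W E hW hE hWD
    · have h4 := nonD_ext (k := k) (L := AlgebraicClosure K) _ _ hnk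
      have h5 : (fun j => algebraMap K (AlgebraicClosure K)
          (Fin.append (fun j => algebraMap k K (c j))
            (fun l => (algebraMap k K).comp (algebraMap F k) (wc h l)) j)) =
          fun j => algebraMap k (AlgebraicClosure K)
            (Fin.append c (fun l => algebraMap F k (wc h l)) j) := by
        rw [append_map, append_map]
        congr 1
      rw [h5]
      exact h4
    · refine Fin.addCases (fun j => ?_) (fun l => ?_) j
      · rw [Fin.append_left]
        exact (map_ne_zero _).2 (hc j)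
      · rw [Fin.append_right]
        exact (map_ne_zero _).2 (mem_support_iff.1 (h.support.equivFin.symm l).2)

end Pool.Agent.Y231.N4
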