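import Pool.Agent.Y231.N4.F7

/-!
# Four variables: generic coefficients, all points and the equivariant version
-/

set_option autoImplicit false

namespace Pool.Agent.Y231.N4

open MvPolynomial Filter Pool.Agent.H628R4.TP Pool.Agent.W425.MM Pool.Agent.W425.GN
open Pool.Agent.W425.ND (spa)
open Pool.Agent.W426.SM (gord IsRay face)
open Pool.Agent.W425.BF (B1 BD shf shf_eval shf_ne hz hz_support hz_eq cof spa_add)
open Pool.Agent.W425.SV (NP RelV Kil1)
open Pool.Agent.TH216.MF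
open Pool.Agent.TH216.LX
open Pool.Agent.TH216.MC (pos_of_ray rootsL hpl_nonB)
open Pool.Agent.W428.MOT (Pt Constr ratRing sp Lu MK EMeas)
open Pool.Agent.W375.MG (zetaG Good)

variable {r : ℕ}

/-- the conclusion for all the coefficients `c` with `g(c) ≠ 0` -/
def Con7 {F : Type} [Field F] [Algebra F ℂ]
    (v : Fin r → Fin 4 → ℕ) (h : MvPolynomial (Fin 4) F) (g : MvPolynomial (Fin r) F)
    (Gl E2 : Prop) : Prop :=
  ∀ (k : Type) [Field k] [Algebra F k] [Algebra k ℂ]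
      [IsScalarTower F k ℂ] (c : Fin r → k), aeval (fun j => algebraMap k ℂ (c j)) g ≠ 0 →
      ∃ S : Finset (ℤ × ℤ),
        (∀ p ∈ S, p.1 < 0 ∧ 0 < p.2 ∧ ((E2 ∧ p.1 = -2 * p.2) ∨
          ∀ b : Polynomial ℂ, IsLocalBFunction
          (spa v (fun j => algebraMap k ℂ (c j)) + MvPolynomial.map (algebraMap F ℂ) h) b →
            b.eval ((p.1 : ℂ) / p.2) = 0)) ∧
        (∀ (K : Type) [Field K] [Algebra k K] (W : Set (Pt K (Fin 4)))
          (E : Set (AlgebraicClosure K)), Constr W → Good E →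
          ((∀ z ∈ W, ∀ i, z i = 0) ∨ Gl) →
          zetaG (spa v (fun j => algebraMap k K (c j)) +
            MvPolynomial.map ((algebraMap k K).comp (algebraMap F k)) h) W E ∈ ratRing K S) ∧
        (∀ f : MvPolynomial (Fin 4) k, f = spa v c + MvPolynomial.map (algebraMap F k) h →
          ∀ (R : Type) [CommRing R] (y : Rˣ) (M : EMeas f R), M.L = (y : R) →
          (OrigM M ∨ Gl) → serM M y ∈ ratR y (S : Set (ℤ × ℤ)))

theorem gen70 {F : Type} [Field F] [Algebra F ℂ] (hr : 0 < r)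
    (v : Fin r → Fin 4 → ℕ) (hV : Vert v) (hv : Function.Injective v)
    (hv0 : ∀ j, v j ≠ 0)
    (h : MvPolynomial (Fin 4) F) (hh : ∀ w ∈ h.support, NP v w)
    (hvh : ∀ w ∈ h.support, ∀ j, ¬ ∀ x, w x = v j x) :
    ∃ g : MvPolynomial (Fin r) F, g ≠ 0 ∧ ∀ Gl E2 : Prop, (Gl → GlobOK v h) →
      (Gl → ¬ E2 → NoP2 v) → Con7 v h g Gl E2 := by
  classical
  have hne : NeZero r := ⟨by omega⟩
  obtain ⟨g1, hg1, h1⟩ := rootsL (F := F) hr v hv hv0 h hh
  obtain ⟨g2, hg2, h2⟩ := gen_nonDF pF4 hr v (we h) (we_np v h hh) (wc h)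
  obtain ⟨g4, hg4, h4⟩ := quad_root stM1 stM2 stG v hV hv h hh
  have hg3 : (∏ j : Fin r, (X j : MvPolynomial (Fin r) F)) ≠ 0 :=
    Finset.prod_ne_zero_iff.2 fun j _ => X_ne_zero j
  refine ⟨g1 * g2 * (∏ j : Fin r, (X j : MvPolynomial (Fin r) F)) * g4,
    mul_ne_zero (mul_ne_zero (mul_ne_zero hg1 hg2) hg3) hg4, fun Gl E2 hGl hE2 => ?_⟩
  obtain ⟨S, hS, hz1⟩ := base7 hr v hV hv hv0 h (fun w hw => np_inN (hh w hw))
    hvh (fun α => HPL v h α 0) (fun α hα => relLX v hv hv0 h hh α hα) Gl E2 hGl hE2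
  intro k _ _ _ _ c hc
  rw [map_mul, map_mul, map_mul, map_prod] at hc
  have hcne : ∀ j, c j ≠ 0 := by
    intro j hj
    have h5 := Finset.prod_ne_zero_iff.1 (right_ne_zero_of_mul (left_ne_zero_of_mul hc)) j
      (Finset.mem_univ j)
    rw [aeval_X, hj, map_zero] at h5
    exact h5 rfl
  have hb := h1 _ (left_ne_zero_of_mul (left_ne_zero_of_mul (left_ne_zero_of_mul hc)))
  have hnd := h2 _ (right_ne_zero_of_mul (left_ne_zero_of_mul (left_ne_zero_of_mul hc)))
  have hnk : NonD (Fin.append v (we h)) (fun j => algebraMap k ℂ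
      (Fin.append c (fun l => algebraMap F k (wc h l)) j)) := by
    rw [append_map]
    simp only [← IsScalarTower.algebraMap_apply F k ℂ]
    exact hnd
  obtain ⟨hz2, hz3⟩ := hz1 k c hcne hnk
  refine ⟨S, fun p hp => ?_, hz2, hz3⟩
  rcases hS p hp with rfl | ⟨a, ha, hg, hLP, rfl⟩
  · refine ⟨by norm_num, by norm_num, Or.inr fun b hb' => ?_⟩
    have e : (((-1 : ℤ) : ℂ) / ((1 : ℤ) : ℂ)) = -1 := by
      push_cast
      ring
    rw [e]
    exact (hb b hb').1
  refine ⟨pos_of_ray ha, Int.natCast_pos.2 hg, ?_⟩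
  have hgc : ((gord v a : ℕ) : ℂ) ≠ 0 := by exact_mod_cast hg.ne'
  have hgq : ((gord v a : ℕ) : ℚ) ≠ 0 := by exact_mod_cast hg.ne'
  by_cases h6 : ∑ i, a i = gord v a
  · right
    intro b hb'
    have e : (((-((∑ i, a i : ℕ) : ℤ) : ℤ) : ℂ) / ((gord v a : ℤ) : ℂ)) = -1 := by
      rw [h6]
      push_cast
      field_simp
    rw [e]
    exact (hb b hb').1
  have fromα : HPL v h (-(((∑ i, a i : ℕ) : ℚ) / gord v a)) 0 →
      ∀ b : Polynomial ℂ, IsLocalBFunction
        (spa v (fun j => algebraMap k ℂ (c j)) + MvPolynomial.map (algebraMap F ℂ) h) b →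
      b.eval (((-((∑ i, a i : ℕ) : ℤ) : ℤ) : ℂ) / ((gord v a : ℤ) : ℂ)) = 0 := by
    intro hα b hb'
    have h3 := (hb b hb').2 _ hα
    rw [← h3]
    congr 1
    push_cast
    ring
  by_cases h7 : ∑ i, a i = 2 * gord v a
  · have h72 : ((∑ i, a i : ℕ) : ℚ) / gord v a = 2 := by
      rw [h7, div_eq_iff hgq]
      push_cast
      ring
    rcases stL2 v hr hV with hT | hQ
    · by_cases hE : E2
      · left
        refine ⟨hE, ?_⟩
        change -((∑ i, a i : ℕ) : ℤ) = -2 * (gord v a : ℤ)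
        rw [h7]
        push_cast
        ring
      · right
        apply fromα
        exact hLP (Or.inr ⟨h72, hT⟩) fun h => absurd h hE
    · right
      intro b hb'
      have e : (((-((∑ i, a i : ℕ) : ℤ) : ℤ) : ℂ) / ((gord v a : ℤ) : ℂ)) = -2 := by
        rw [h7]
        push_cast
        field_simp
      rw [e]
      exact h4 hQ _ (right_ne_zero_of_mul hc) b hb'
  · right
    apply fromα
    refine levels4 stR1 stR2 AZ.main fac hr v hV hv hv0 h hh a hg h6 h7
      (fun hyp => hLP (Or.inl hyp) fun _ h8 => h7 ?_)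
    rw [div_eq_iff hgq] at h8
    exact_mod_cast h8

/-- the shift of the coefficients -/
theorem con7_shift {F : Type} [Field F] [Algebra F ℂ] (v : Fin r → Fin 4 → ℕ)
    (h : MvPolynomial (Fin 4) F) (g : MvPolynomial (Fin r) F) (Gl E2 : Prop)
    (hC : Con7 v (hz v h) g Gl E2) :
    Con7 v h (shf (cof v h) g) Gl E2 := by
  intro k _ _ _ _ c hc
  have hmap : ∀ {K : Type} [Field K] (φ : F →+* K) (c' : Fin r → K),
      spa v c' + MvPolynomial.map φ h =
        spa v (fun j => c' j + φ (cof v h j)) + MvPolynomial.map φ (hz v h) := by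
    intro K _ φ c'
    rw [spa_add]
    unfold hz
    rw [map_sub, map_spa]
    ring
  rw [shf_eval] at hc
  have e : (fun j => algebraMap k ℂ (c j + algebraMap F k (cof v h j))) =
      fun j => algebraMap k ℂ (c j) + algebraMap F ℂ (cof v h j) := by
    funext j
    rw [map_add, ← IsScalarTower.algebraMap_apply]
  have hc' : aeval (fun j => algebraMap k ℂ (c j + algebraMap F k (cof v h j))) g ≠ 0 := by
    rw [e]
    exact hc
  obtain ⟨S, hS, hz1, hz2⟩ := hC k (fun j => c j + algebraMap F k (cof v h j)) hc'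
  refine ⟨S, fun p hp => ?_, fun K _ _ W E hW hE hWD => ?_, fun f hf => ?_⟩
  · obtain ⟨h1, h2, h3⟩ := hS p hp
    refine ⟨h1, h2, h3.imp_right fun h3 b hb => h3 b ?_⟩
    rw [hmap] at hb
    rw [e]
    exact hb
  · rw [hmap]
    have h3 := hz1 K W E hW hE hWD
    have e : (fun j => algebraMap k K (c j + algebraMap F k (cof v h j))) =
        fun j => algebraMap k K (c j) + ((algebraMap k K).comp (algebraMap F k)) (cof v h j) := by
      funext j
      rw [map_add]
      rfl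
    rw [e] at h3
    exact h3
  · rw [hmap] at hf
    exact hz2 f hf

/-- **Generic coefficients.** -/
theorem gen7 {F : Type} [Field F] [Algebra F ℂ] (hr : 0 < r)
    (v : Fin r → Fin 4 → ℕ) (hV : Vert v) (hv : Function.Injective v) (hv0 : ∀ j, v j ≠ 0)
    (h : MvPolynomial (Fin 4) F) (hh : ∀ w ∈ h.support, NP v w) :
    ∃ g : MvPolynomial (Fin r) F, g ≠ 0 ∧ ∀ Gl E2 : Prop, (Gl → GlobOK v h) →
      (Gl → ¬ E2 → NoP2 v) → Con7 v h g Gl E2 := by
  obtain ⟨g, hg, hgc⟩ := gen70 hr v hV hv hv0 (hz v h)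
    (fun w hw => hh w ((hz_support v hv h).1 w hw)) (hz_support v hv h).2
  refine ⟨shf (cof v h) g, shf_ne _ _ hg, fun Gl E2 hGl hE2 => con7_shift v h g Gl E2
    (hgc Gl E2 (fun hG J hJ => ?_) hE2)⟩
  rcases hGl hG J hJ with h1 | h1
  · exact Or.inl h1
  · exact Or.inr fun w hw => h1 w ((hz_support v hv h).1 w hw)

open Pool.Agent.TH216.HD (poly InPoly map_poly)
open Pool.Agent.TH216.HDL (Vertices)

/-- **The theorem in four variables: the origin, all points, and the equivariant classes.** -/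
theorem main7 {F : Type} [Field F] [Algebra F ℂ] (hr : 0 < r)
    (v : Fin r → Fin 4 → ℕ) (hV : Vertices v) (hv : Function.Injective v) (hv0 : ∀ j, v j ≠ 0)
    (h : MvPolynomial (Fin 4) F) (hh : ∀ w ∈ h.support, InPoly v w) :
    ∃ g : MvPolynomial (Fin r) F, g ≠ 0 ∧ ∀ Gl E2 : Prop, (Gl → GlobOK v h) →
      (Gl → ¬ E2 → NoP2 v) → ∀ (k : Type) [Field k] [Algebra F k] [Algebra k ℂ]
      [IsScalarTower F k ℂ] (c : Fin r → k), aeval c g ≠ 0 →
      ∃ S : Finset (ℤ × ℤ),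
        (∀ p ∈ S, p.1 < 0 ∧ 0 < p.2 ∧ ((E2 ∧ p.1 = -2 * p.2) ∨ ∀ b : Polynomial ℂ,
          IsLocalBFunction (poly v (fun j => algebraMap k ℂ (c j)) h) b →
            b.eval ((p.1 : ℂ) / p.2) = 0)) ∧
        (∀ (K : Type) [Field K] [Algebra k K] (W : Set (Pt K (Fin 4)))
          (E : Set (AlgebraicClosure K)), Constr W → Good E →
          ((∀ z ∈ W, ∀ i, z i = 0) ∨ Gl) →
          zetaG (MvPolynomial.map (algebraMap k K) (poly v c h)) W E ∈ ratRing K S) ∧
        (∀ (R : Type) [CommRing R] (y : Rˣ) (M : EMeas (poly v c h) R), M.L = (y : R) →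
          (OrigM M ∨ Gl) → serM M y ∈ ratR y (S : Set (ℤ × ℤ))) := by
  obtain ⟨g, hg, hC⟩ := gen7 (F := F) hr v hV hv hv0 h hh
  refine ⟨g, hg, fun Gl E2 hGl hE2 k _ _ _ _ c hc => ?_⟩
  obtain ⟨S, hS, hz, hz2⟩ := hC Gl E2 hGl hE2 k c (fun h0 => hc (by
    have h1 : algebraMap k ℂ (aeval c g) = 0 := by
      rw [← h0, ← aeval_algebraMap_apply]
      rfl
    exact (map_eq_zero _).1 h1))
  refine ⟨S, hS, fun K _ _ W E hW hE hWD => ?_, fun R _ y M hML hOG => ?_⟩
  · rw [map_poly]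
    exact hz K W E hW hE hWD
  · exact hz2 (poly v c h) rfl R y M hML hOG

end Pool.Agent.Y231.N4
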