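import Pool.Agent.TH216.MF.Crit
import Pool.Agent.Y231.N4.Defs2

/-!
# The kernel, with the relations for two directions
-/

set_option autoImplicit false

namespace Pool.Agent.Y231.N4

open MvPolynomial Filter Pool.Agent.W425.SV
open Pool.Agent.TH216.MF
open Pool.Agent.W426.SM (gord face)

variable {r N : ℕ}

/-- the points in `τ` lie on a face with a normal vector with positive entries -/
def Adm (v : Fin r → Fin N → ℕ) (τ : Finset (Fin r)) : Prop :=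
  ∃ x : Fin N → ℕ, (∀ i, 0 < x i) ∧ ∀ j ∈ τ, face v x j

/-- the relations for two directions -/
def KRelB (q : ℕ) (v : Fin r → Fin N → ℕ) (e : Finset (Fin r) → ℂ) : Prop :=
  ∀ (i l : Fin N), i ≠ l → ∀ τ0 τ1 τ2 : Finset (Fin r),
    (∀ j ∈ τ0, v j i = 0 ∧ v j l = 0) → (∀ j ∈ τ1, v j i = 1 ∧ v j l = 0) →
    (∀ j ∈ τ2, v j i = 0 ∧ v j l = 1) → τ1.Nonempty → τ2.Nonempty → Adm v (τ0 ∪ (τ1 ∪ τ2)) →
    e τ0 + ((q : ℂ) - 1) * e (τ0 ∪ τ1) + ((q : ℂ) - 1) * e (τ0 ∪ τ2) +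
      ((q : ℂ) - 1) ^ 2 * e (τ0 ∪ (τ1 ∪ τ2)) = 0

/-- the colon ideal -/
def col (I : Ideal (MvPolynomial (Fin r) ℂ)) (g : MvPolynomial (Fin r) ℂ) :
    Ideal (MvPolynomial (Fin r) ℂ) where
  carrier := {y | y * g ∈ I}
  add_mem' := by
    intro a b ha hb
    simp only [Set.mem_ofPred_eq, add_mul] at *
    exact I.add_mem ha hb
  zero_mem' := by simp
  smul_mem' := by
    intro c a ha
    simp only [Set.mem_ofPred_eq, smul_eq_mul, mul_assoc] at *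
    exact I.mul_mem_left _ ha

lemma mem_col (I : Ideal (MvPolynomial (Fin r) ℂ)) (g y : MvPolynomial (Fin r) ℂ) :
    y ∈ col I g ↔ y * g ∈ I := Iff.rfl

lemma col_dvd {I : Ideal (MvPolynomial (Fin r) ℂ)} {g g' y : MvPolynomial (Fin r) ℂ}
    (h : g ∣ g') (hy : y ∈ col I g) : y ∈ col I g' := by
  obtain ⟨d, rfl⟩ := h
  rw [mem_col, ← mul_assoc]
  exact Ideal.mul_mem_right _ _ hy

/-- an empty polyhedron -/
lemma out_of (q : ℕ) (v : Fin r → Fin N → ℕ) (t : Fin r → ℂ) (A : Finset (Fin N))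
    (Z : Finset (Fin r)) (hA : ∀ i, i ∈ A ↔ aeval t (elm q v i) = 0)
    (hZ : ∀ j, j ∈ Z ↔ t j = 1) (B : Finset (Fin N)) (hB : B ⊆ A) (T : Finset (Fin r))
    (h : ¬ (Pt v (A \ B) (Z \ T)).Nonempty) :
    ∃ g : MvPolynomial (Fin r) ℂ, aeval t g ≠ 0 ∧
      (∏ i ∈ B, elm q v i) * ∏ j ∈ T, (1 - X j) ∈ col (I1 q v) g := by
  classical
  obtain ⟨c, hc, hcZ⟩ := kil1_of_empty v (A \ B) (Z \ T) h
  refine ⟨(∏ i ∈ Finset.univ \ A, elm q v i) *
    ∏ j ∈ Finset.univ \ T, (if c j < 0 then (1 - X j) else 1), ?_, ?_⟩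
  · rw [map_mul, map_prod, map_prod]
    refine mul_ne_zero (Finset.prod_ne_zero_iff.2 fun i' hi' => ?_)
      (Finset.prod_ne_zero_iff.2 fun j hj => ?_)
    · rw [Finset.mem_sdiff] at hi'
      exact fun h => hi'.2 ((hA i').2 h)
    · split_ifs with hj'
      · rw [map_sub, map_one, aeval_X, sub_ne_zero]
        intro h
        refine hcZ j hj' (Finset.mem_sdiff.2 ⟨(hZ j).2 h.symm, ?_⟩)
        exact (Finset.mem_sdiff.1 hj).2
      · rw [map_one]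
        exact one_ne_zero
  · rw [mem_col]
    have h1 : (∏ i' ∈ Finset.univ \ (A \ B), elm q v i') *
        ∏ j', (if c j' < 0 then (1 - X j') else 1) ∈ I1 q v :=
      Ideal.subset_span ⟨c, _, hc, rfl⟩
    have h2 : ∏ i' ∈ Finset.univ \ (A \ B), elm q v i' =
        (∏ i ∈ B, elm q v i) * ∏ i ∈ Finset.univ \ A, elm q v i := by
      rw [← Finset.prod_union]
      · refine Finset.prod_congr ?_ fun _ _ => rfl
        ext x
        simp only [Finset.mem_sdiff, Finset.mem_univ, true_and, Finset.mem_union]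
        have := @hB x
        tauto
      · rw [Finset.disjoint_left]
        intro x hx hx'
        exact (Finset.mem_sdiff.1 hx').2 (hB hx)
    have h3 : ∏ j', (if c j' < 0 then (1 - X j') else 1 : MvPolynomial (Fin r) ℂ) =
        (∏ j ∈ T, (if c j < 0 then (1 - X j) else 1)) *
        ∏ j ∈ Finset.univ \ T, (if c j < 0 then (1 - X j) else 1) := by
      rw [mul_comm, Finset.prod_sdiff (Finset.subset_univ T)]
    have h4 : ∏ j ∈ T, (1 - X j : MvPolynomial (Fin r) ℂ) =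
        (∏ j ∈ T, (if c j < 0 then (1 - X j) else 1)) *
        ∏ j ∈ T, (if c j < 0 then 1 else (1 - X j)) := by
      rw [← Finset.prod_mul_distrib]
      refine Finset.prod_congr rfl fun j _ => ?_
      split_ifs <;> ring
    rw [h2, h3] at h1
    rw [h4]
    have h5 := Ideal.mul_mem_right
      (∏ j ∈ T, (if c j < 0 then 1 else (1 - X j) : MvPolynomial (Fin r) ℂ)) _ h1
    refine cast (congrArg (· ∈ I1 q v) ?_) h5
    ring

/-- finitely many elements -/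
lemma out_many (q : ℕ) (v : Fin r → Fin N → ℕ) (t : Fin r → ℂ) {ι : Type*} [Fintype ι]
    (y : ι → MvPolynomial (Fin r) ℂ)
    (h : ∀ x, ∃ g : MvPolynomial (Fin r) ℂ, aeval t g ≠ 0 ∧ y x ∈ col (I1 q v) g) :
    ∃ g : MvPolynomial (Fin r) ℂ, aeval t g ≠ 0 ∧ ∀ x, y x ∈ col (I1 q v) g := by
  classical
  choose g hg hgI using h
  refine ⟨∏ x, g x, ?_, fun x => col_dvd (Finset.dvd_prod_of_mem _ (Finset.mem_univ x)) (hgI x)⟩
  rw [map_prod]
  exact Finset.prod_ne_zero_iff.2 fun x _ => hg x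

/-- the sum over the subsets, in a quotient -/
lemma two_sum {R : Type*} [CommRing R] (x : Fin r → R) (Q : R) (S1 S2 : Finset (Fin r))
    (h1 : ∏ j ∈ S1, x j = Q) (h2 : ∏ j ∈ S2, x j = Q)
    (hQ : IsUnit (Q - 1)) (E : Finset (Fin r) → Finset (Fin r) → R)
    (hE : ∀ τ1 ⊆ S1, ∀ τ2 ⊆ S2, τ1.Nonempty → τ2.Nonempty →
      E ∅ ∅ + (Q - 1) * E τ1 ∅ + (Q - 1) * E ∅ τ2 + (Q - 1) ^ 2 * E τ1 τ2 = 0) :
    ∑ τ1 ∈ S1.powerset, ∑ τ2 ∈ S2.powerset,
      E τ1 τ2 * ((∏ j ∈ τ1, (x j - 1)) * ∏ j ∈ τ2, (x j - 1)) = 0 := by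
  classical
  have hsub : ∀ S : Finset (Fin r), ∏ j ∈ S, x j = Q →
      ∑ τ ∈ S.powerset.erase ∅, ∏ j ∈ τ, (x j - 1) = Q - 1 := by
    intro S hS
    have e1 : ∏ j ∈ S, x j = ∏ j ∈ S, ((x j - 1) + 1) := by
      refine Finset.prod_congr rfl fun j _ => ?_
      ring
    rw [e1, Finset.prod_add] at hS
    simp only [Finset.prod_const_one, mul_one] at hS
    rw [← Finset.add_sum_erase _ _ (Finset.empty_mem_powerset S), Finset.prod_empty] at hS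
    rw [← hS]
    ring
  have hs1 := hsub S1 h1
  have hs2 := hsub S2 h2
  set P : Finset (Fin r) → R := fun τ => ∏ j ∈ τ, (x j - 1) with hP
  have hP0 : P ∅ = 1 := by rw [hP]; exact Finset.prod_empty
  change ∑ τ1 ∈ S1.powerset, ∑ τ2 ∈ S2.powerset, E τ1 τ2 * (P τ1 * P τ2) = 0
  rw [← Finset.add_sum_erase _ _ (Finset.empty_mem_powerset S1)]
  have e2 : ∀ τ1, ∑ τ2 ∈ S2.powerset, E τ1 τ2 * (P τ1 * P τ2) =
      E τ1 ∅ * P τ1 + ∑ τ2 ∈ S2.powerset.erase ∅, E τ1 τ2 * (P τ1 * P τ2) := by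
    intro τ1
    rw [← Finset.add_sum_erase _ _ (Finset.empty_mem_powerset S2), hP0, mul_one]
  have e4 : ∑ τ2 ∈ S2.powerset, E ∅ τ2 * (P ∅ * P τ2) =
      E ∅ ∅ + ∑ τ2 ∈ S2.powerset.erase ∅, E ∅ τ2 * P τ2 := by
    rw [e2, hP0, mul_one]
    simp only [one_mul]
  rw [e4, Finset.sum_congr rfl fun τ1 _ => e2 τ1, Finset.sum_add_distrib]
  have key : (Q - 1) ^ 2 * ∑ τ1 ∈ S1.powerset.erase ∅, ∑ τ2 ∈ S2.powerset.erase ∅,
      E τ1 τ2 * (P τ1 * P τ2) = - ((Q - 1) ^ 2 * E ∅ ∅) -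
        (Q - 1) ^ 2 * (∑ τ1 ∈ S1.powerset.erase ∅, E τ1 ∅ * P τ1) -
        (Q - 1) ^ 2 * ∑ τ2 ∈ S2.powerset.erase ∅, E ∅ τ2 * P τ2 := by
    have e3 : (Q - 1) ^ 2 * ∑ τ1 ∈ S1.powerset.erase ∅, ∑ τ2 ∈ S2.powerset.erase ∅,
        E τ1 τ2 * (P τ1 * P τ2) = ∑ τ1 ∈ S1.powerset.erase ∅, ∑ τ2 ∈ S2.powerset.erase ∅,
        (- (E ∅ ∅ * (P τ1 * P τ2)) - (Q - 1) * ((E τ1 ∅ * P τ1) * P τ2) -
          (Q - 1) * (P τ1 * (E ∅ τ2 * P τ2))) := by
      rw [Finset.mul_sum]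
      refine Finset.sum_congr rfl fun τ1 hτ1 => ?_
      rw [Finset.mul_sum]
      refine Finset.sum_congr rfl fun τ2 hτ2 => ?_
      rw [Finset.mem_erase, Finset.mem_powerset] at hτ1 hτ2
      have h3 := hE τ1 hτ1.2 τ2 hτ2.2 (Finset.nonempty_iff_ne_empty.2 hτ1.1)
        (Finset.nonempty_iff_ne_empty.2 hτ2.1)
      linear_combination (P τ1 * P τ2) * h3
    rw [e3]
    simp only [Finset.sum_sub_distrib, Finset.sum_neg_distrib, ← Finset.mul_sum,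
      ← Finset.sum_mul]
    have hs1' : ∑ τ ∈ S1.powerset.erase ∅, P τ = Q - 1 := hs1
    have hs2' : ∑ τ ∈ S2.powerset.erase ∅, P τ = Q - 1 := hs2
    rw [hs1', hs2']
    ring
  have hu : IsUnit ((Q - 1) ^ 2) := hQ.pow 2
  refine hu.mul_left_cancel ?_
  linear_combination key

end Pool.Agent.Y231.N4
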