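import Pool.Agent.Y231.N4.K1

/-!
# The criterion, with the relations for two directions
-/

set_option autoImplicit false

namespace Pool.Agent.Y231.N4

open MvPolynomial Filter Pool.Agent.W425.SV
open Pool.Agent.TH216.MF
open Pool.Agent.W426.SM (gord face)

variable {r N : ℕ}

/-- the subsets of a disjoint union -/
lemma sum_powerset_disj {α M : Type*} [DecidableEq α] [AddCommMonoid M] (U W : Finset α)
    (h : Disjoint U W) (f : Finset α → M) :
    ∑ τ ∈ (U ∪ W).powerset, f τ = ∑ τ0 ∈ U.powerset, ∑ τ1 ∈ W.powerset, f (τ0 ∪ τ1) := by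
  rw [← Finset.sum_product']
  symm
  rw [Finset.disjoint_left] at h
  refine Finset.sum_nbij' (fun p => p.1 ∪ p.2) (fun τ => (τ ∩ U, τ ∩ W)) ?_ ?_ ?_ ?_ ?_
  · rintro ⟨a, b⟩ hp
    rw [Finset.mem_product, Finset.mem_powerset, Finset.mem_powerset] at hp
    exact Finset.mem_powerset.2 (Finset.union_subset_union hp.1 hp.2)
  · intro τ _
    rw [Finset.mem_product, Finset.mem_powerset, Finset.mem_powerset]
    exact ⟨Finset.inter_subset_right, Finset.inter_subset_right⟩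
  · rintro ⟨a, b⟩ hp
    rw [Finset.mem_product, Finset.mem_powerset, Finset.mem_powerset] at hp
    obtain ⟨h1, h2⟩ := hp
    dsimp only at h1 h2
    rw [Prod.mk.injEq]
    constructor
    · ext x
      rw [Finset.mem_inter, Finset.mem_union]
      constructor
      · rintro ⟨h3 | h3, h4⟩
        · exact h3
        · exact absurd (h2 h3) (h h4)
      · exact fun h3 => ⟨Or.inl h3, h1 h3⟩
    · ext x
      rw [Finset.mem_inter, Finset.mem_union]
      constructor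
      · rintro ⟨h3 | h3, h4⟩
        · exact absurd h4 (h (h1 h3))
        · exact h3
      · exact fun h3 => ⟨Or.inr h3, h2 h3⟩
  · intro τ hτ
    rw [Finset.mem_powerset] at hτ
    dsimp only
    rw [← Finset.inter_union_distrib_left]
    exact Finset.inter_eq_left.2 hτ
  · rintro ⟨a, b⟩ _
    rfl

/-- a point in the polyhedron gives an integral vector -/
lemma adm_of_pt (v : Fin r → Fin N → ℕ) (A : Finset (Fin N)) (Z : Finset (Fin r))
    (a : Fin N → ℚ) (ha : a ∈ Pt v A Z) (hpos : ∀ x, a x ≠ 0) (τ : Finset (Fin r))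
    (hτ : ∀ j ∈ τ, ∑ x, a x * (v j x : ℚ) = 1) : Adm v τ := by
  classical
  rcases τ.eq_empty_or_nonempty with h0 | ⟨j0, hj0⟩
  · rw [h0]
    exact ⟨fun _ => 1, fun _ => one_pos, fun j hj => absurd hj (Finset.notMem_empty j)⟩
  obtain ⟨s, b, hs, hb1, hb2⟩ := pair_int' v A Z a ha.1 ha.2.1 ha.2.2.2
  have hr : 0 < r := Fin.pos j0
  have hsq : (0 : ℚ) < s := by exact_mod_cast hs
  have hval : ∀ j, ((∑ i, b i * v j i : ℕ) : ℚ) = (∑ i, a i * (v j i : ℚ)) * s := by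
    intro j
    push_cast
    simp only [hb1.2]
    rw [Finset.sum_mul]
    exact Finset.sum_congr rfl fun i _ => by ring
  have hge : ∀ j, s ≤ ∑ i, b i * v j i := by
    intro j
    have h1 := ha.2.2.1 j
    have h2 : (s : ℚ) ≤ ((∑ i, b i * v j i : ℕ) : ℚ) := by
      rw [hval]
      nlinarith
    exact_mod_cast h2
  have heq : ∀ j ∈ τ, ∑ i, b i * v j i = s := by
    intro j hj
    have h2 : ((∑ i, b i * v j i : ℕ) : ℚ) = s := by rw [hval, hτ j hj, one_mul]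
    exact_mod_cast h2
  have hg : gord v b = s := by
    refine le_antisymm ?_ ?_
    · have := Pool.Agent.W803.SM.gord_le v b j0
      rw [heq j0 hj0] at this
      exact this
    · obtain ⟨j, hj⟩ := Pool.Agent.W803.SM.exists_gord hr v b
      rw [← hj]
      exact hge j
  refine ⟨b, fun i => ?_, fun j hj => ?_⟩
  · have h1 := hb1.2 i
    have h2 : 0 < a i := lt_of_le_of_ne (ha.1 i) (hpos i).symm
    have h3 : (0 : ℚ) < b i := by
      rw [h1]
      exact mul_pos h2 hsq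
    exact_mod_cast h3
  · unfold face
    rw [hg]
    exact heq j hj

/-- at the points of the third kind the kernel is in the ideal -/
lemma local_mem2 (q : ℕ) (hq : 2 ≤ q) (v : Fin r → Fin N → ℕ) (e : Finset (Fin r) → ℂ)
    (he1 : KRelJ q v Finset.univ e) (he2 : KRelB q v e) (t : Fin r → ℂ) (A : Finset (Fin N))
    (Z : Finset (Fin r)) (hA : ∀ i, i ∈ A ↔ aeval t (elm q v i) = 0)
    (hZ : ∀ j, j ∈ Z ↔ t j = 1) (i l : Fin N) (hi : i ∈ A) (hl : l ∈ A)
    (hil : i ≠ l) (hpos : ∀ a ∈ Pt v A Z, ∀ x, a x ≠ 0) (S1 S2 : Finset (Fin r))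
    (hS1 : ∀ j ∈ S1, v j i = 1 ∧ v j l = 0 ∧ ∀ a ∈ Pt v A Z, ∑ x, a x * (v j x : ℚ) = 1)
    (hS2 : ∀ j ∈ S2, v j i = 0 ∧ v j l = 1 ∧ ∀ a ∈ Pt v A Z, ∑ x, a x * (v j x : ℚ) = 1)
    (hS : ∀ j, j ∉ S1 → j ∉ S2 → (v j i ≠ 0 ∨ v j l ≠ 0) →
      ∀ a ∈ Pt v A Z, ∑ x, a x * (v j x : ℚ) ≠ 1) :
    ∃ g : MvPolynomial (Fin r) ℂ, aeval t g ≠ 0 ∧ kE e * g ∈ I1 q v := by
  classical
  have hq0 : (q : ℂ) ≠ 0 := by
    have : q ≠ 0 := by omega
    exact_mod_cast this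
  have hq1 : (q : ℂ) - 1 ≠ 0 := by
    rw [sub_ne_zero]
    have : q ≠ 1 := by omega
    exact_mod_cast this
  -- the directions
  have hdir : ∀ x, x ∈ A → ∃ g : MvPolynomial (Fin r) ℂ, aeval t g ≠ 0 ∧
      elm q v x ∈ col (I1 q v) g := by
    intro x hx
    obtain ⟨g, hg, hgI⟩ := out_of q v t A Z hA hZ {x} (Finset.singleton_subset_iff.2 hx) ∅ (by
      rintro ⟨a, ha⟩
      rw [Finset.sdiff_empty] at ha
      refine hpos a ⟨ha.1, fun i' hi' => ha.2.1 i' fun h => hi' (Finset.mem_sdiff.1 h).1,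
        ha.2.2.1, ha.2.2.2⟩ x (ha.2.1 x fun h => ?_)
      exact (Finset.mem_sdiff.1 h).2 (Finset.mem_singleton_self x))
    rw [Finset.prod_singleton, Finset.prod_empty, mul_one] at hgI
    exact ⟨g, hg, hgI⟩
  -- the sets
  have hset : ∀ τ : Finset (Fin r), ∃ g : MvPolynomial (Fin r) ℂ, aeval t g ≠ 0 ∧
      (if ∃ a ∈ Pt v A Z, ∀ j ∈ τ, ∑ x, a x * (v j x : ℚ) = 1 then 0 else
        ∏ j ∈ τ, (1 - X j : MvPolynomial (Fin r) ℂ)) ∈ col (I1 q v) g := by
    intro τ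
    by_cases h : ∃ a ∈ Pt v A Z, ∀ j ∈ τ, ∑ x, a x * (v j x : ℚ) = 1
    · refine ⟨1, by rw [map_one]; exact one_ne_zero, ?_⟩
      rw [if_pos h]
      exact Ideal.zero_mem _
    · rw [if_neg h]
      obtain ⟨g, hg, hgI⟩ := out_of q v t A Z hA hZ ∅ (Finset.empty_subset _) τ (by
        rintro ⟨a, ha⟩
        rw [Finset.sdiff_empty] at ha
        apply h
        refine ⟨a, ⟨ha.1, ha.2.1, ha.2.2.1, fun j hj => ha.2.2.2 j fun h =>
          hj (Finset.mem_sdiff.1 h).1⟩, fun j hj => ha.2.2.2 j fun h => ?_⟩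
        exact (Finset.mem_sdiff.1 h).2 hj)
      rw [Finset.prod_empty, one_mul] at hgI
      exact ⟨g, hg, hgI⟩
  obtain ⟨g1, hg1, hg1I⟩ := hdir i hi
  obtain ⟨g2, hg2, hg2I⟩ := hdir l hl
  obtain ⟨g3, hg3, hg3I⟩ := out_many q v t _ hset
  refine ⟨g1 * g2 * g3, by
    rw [map_mul, map_mul]
    exact mul_ne_zero (mul_ne_zero hg1 hg2) hg3, ?_⟩
  rw [← mem_col]
  set J := col (I1 q v) (g1 * g2 * g3) with hJ
  have hJi : elm q v i ∈ J := col_dvd ⟨g2 * g3, by ring⟩ hg1I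
  have hJl : elm q v l ∈ J := col_dvd ⟨g1 * g3, by ring⟩ hg2I
  have hJτ : ∀ τ : Finset (Fin r), (¬ ∃ a ∈ Pt v A Z, ∀ j ∈ τ, ∑ x, a x * (v j x : ℚ) = 1) →
      ∏ j ∈ τ, (1 - X j : MvPolynomial (Fin r) ℂ) ∈ J := by
    intro τ h
    have h1 := hg3I τ
    rw [if_neg h] at h1
    exact col_dvd ⟨g1 * g2, by ring⟩ h1
  rw [← Ideal.Quotient.eq_zero_iff_mem]
  set φ := Ideal.Quotient.mk J with hφ
  -- the variables outside
  have hout : ∀ j, j ∉ S1 → j ∉ S2 → (v j i ≠ 0 ∨ v j l ≠ 0) → φ (X j) = 1 := by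
    intro j h1 h2 h3
    have h4 := hJτ {j} (by
      rintro ⟨a, ha, h4⟩
      exact hS j h1 h2 h3 a ha (h4 j (Finset.mem_singleton_self j)))
    rw [Finset.prod_singleton] at h4
    have h5 := Ideal.Quotient.eq_zero_iff_mem.2 h4
    rw [map_sub, map_one, sub_eq_zero] at h5
    exact h5.symm
  -- the products
  have hprod : ∀ (x : Fin N) (S : Finset (Fin r)), elm q v x ∈ J → (∀ j ∈ S, v j x = 1) →
      (∀ j, j ∉ S → v j x ≠ 0 → φ (X j) = 1) → ∏ j ∈ S, φ (X j) = φ (C (q : ℂ)) := by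
    intro x S hx h1 h2
    have h3 := Ideal.Quotient.eq_zero_iff_mem.2 hx
    unfold elm at h3
    rw [map_sub, map_one, map_mul, map_prod] at h3
    have h4 : ∏ j, φ (X j ^ v j x) = ∏ j ∈ S, φ (X j) := by
      symm
      have h5 : ∏ j ∈ S, φ (X j) = ∏ j ∈ S, φ (X j ^ v j x) := by
        refine Finset.prod_congr rfl fun j hj => ?_
        rw [h1 j hj, pow_one]
      rw [h5]
      refine Finset.prod_subset (Finset.subset_univ S) fun j _ hj => ?_
      by_cases h6 : v j x = 0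
      · rw [h6, pow_zero, map_one]
      · rw [map_pow, h2 j hj h6, one_pow]
    have h3' : (1 : MvPolynomial (Fin r) ℂ ⧸ J) - φ (C (q : ℂ)⁻¹) * ∏ j, φ (X j ^ v j x) = 0 := h3
    rw [h4, sub_eq_zero] at h3'
    have h8 : φ (C (q : ℂ)) * φ (C ((q : ℂ)⁻¹)) = 1 := by
      rw [← map_mul, ← C_mul, mul_inv_cancel₀ hq0, C_1, map_one]
    calc ∏ j ∈ S, φ (X j) = (φ (C (q : ℂ)) * φ (C ((q : ℂ)⁻¹))) * ∏ j ∈ S, φ (X j) := by
          rw [h8, one_mul]
      _ = φ (C (q : ℂ)) * (φ (C ((q : ℂ)⁻¹)) * ∏ j ∈ S, φ (X j)) := by ring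
      _ = φ (C (q : ℂ)) := by rw [← h3', mul_one]
  have hP1 : ∏ j ∈ S1, φ (X j) = φ (C (q : ℂ)) :=
    hprod i S1 hJi (fun j hj => (hS1 j hj).1) fun j hj hv => by
      by_cases h2 : j ∈ S2
      · exact absurd (hS2 j h2).1 hv
      · exact hout j hj h2 (Or.inl hv)
  have hP2 : ∏ j ∈ S2, φ (X j) = φ (C (q : ℂ)) :=
    hprod l S2 hJl (fun j hj => (hS2 j hj).2.1) fun j hj hv => by
      by_cases h2 : j ∈ S1
      · exact absurd (hS1 j h2).2.1 hv
      · exact hout j h2 hj (Or.inr hv)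
  have hu : IsUnit (φ (C (q : ℂ)) - 1) := by
    have h1 : φ (C (q : ℂ)) - 1 = φ (C ((q : ℂ) - 1)) := by
      rw [C_sub, map_sub, C_1, map_one]
    rw [h1]
    exact ((IsUnit.mk0 _ hq1).map C).map φ
  -- the sum
  set O : Finset (Fin r) := Finset.univ.filter fun j => v j i = 0 ∧ v j l = 0 with hO
  have hO1 : Disjoint O (S1 ∪ S2) := by
    rw [Finset.disjoint_left]
    intro j hj hj'
    rw [hO, Finset.mem_filter] at hj
    rcases Finset.mem_union.1 hj' with h | h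
    · have := (hS1 j h).1
      omega
    · have := (hS2 j h).2.1
      omega
  have hO2 : Disjoint S1 S2 := by
    rw [Finset.disjoint_left]
    intro j hj hj'
    have h1 := (hS1 j hj).1
    have h2 := (hS2 j hj').1
    omega
  have hsum : φ (kE e) = ∑ τ ∈ (O ∪ (S1 ∪ S2)).powerset, φ (C (e τ)) *
      ∏ j ∈ τ, (φ (X j) - 1) := by
    unfold kE
    rw [map_sum]
    have h1 : ∀ τ : Finset (Fin r), φ (C (e τ) * ∏ j ∈ τ, (X j - 1)) =
        φ (C (e τ)) * ∏ j ∈ τ, (φ (X j) - 1) := by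
      intro τ
      rw [map_mul, map_prod]
      congr 1
    rw [Finset.sum_congr rfl fun τ _ => h1 τ]
    symm
    refine Finset.sum_subset (Finset.subset_univ _) fun τ _ hτ => ?_
    rw [Finset.mem_powerset, Finset.not_subset] at hτ
    obtain ⟨j, hj, hj'⟩ := hτ
    rw [Finset.mem_union, Finset.mem_union, not_or, not_or, hO, Finset.mem_filter, not_and] at hj'
    have h2 : φ (X j) = 1 := by
      refine hout j hj'.2.1 hj'.2.2 ?_
      have := hj'.1 (Finset.mem_univ j)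
      tauto
    rw [Finset.prod_eq_zero hj (by rw [h2, sub_self]), mul_zero]
  rw [hsum, sum_powerset_disj _ _ hO1]
  refine Finset.sum_eq_zero fun τ0 hτ0 => ?_
  rw [sum_powerset_disj _ _ hO2]
  rw [Finset.mem_powerset] at hτ0
  have hτ0' : ∀ j ∈ τ0, v j i = 0 ∧ v j l = 0 := fun j hj => by
    have := hτ0 hj
    rw [hO, Finset.mem_filter] at this
    exact this.2
  have hfac : ∀ τ1 ∈ S1.powerset, ∀ τ2 ∈ S2.powerset,
      φ (C (e (τ0 ∪ (τ1 ∪ τ2)))) * ∏ j ∈ τ0 ∪ (τ1 ∪ τ2), (φ (X j) - 1) =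
      (∏ j ∈ τ0, (φ (X j) - 1)) * (φ (C (e (τ0 ∪ (τ1 ∪ τ2)))) *
        ((∏ j ∈ τ1, (φ (X j) - 1)) * ∏ j ∈ τ2, (φ (X j) - 1))) := by
    intro τ1 h1 τ2 h2
    rw [Finset.mem_powerset] at h1 h2
    rw [Finset.prod_union, Finset.prod_union]
    · ring
    · exact Finset.disjoint_of_subset_left h1 (Finset.disjoint_of_subset_right h2 hO2)
    · exact Finset.disjoint_of_subset_left hτ0 (Finset.disjoint_of_subset_right
        (Finset.union_subset_union h1 h2) hO1)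
  rw [Finset.sum_congr rfl fun τ1 h1 => Finset.sum_congr rfl fun τ2 h2 => hfac τ1 h1 τ2 h2]
  simp only [← Finset.mul_sum]
  by_cases hc : ∃ a ∈ Pt v A Z, ∀ j ∈ τ0, ∑ x, a x * (v j x : ℚ) = 1
  swap
  · have h1 := Ideal.Quotient.eq_zero_iff_mem.2 (hJτ τ0 hc)
    have h2 : ∏ j ∈ τ0, (φ (X j) - 1) = 0 := by
      have h3 : ∏ j ∈ τ0, (φ (X j) - 1) = (-1) ^ τ0.card * φ (∏ j ∈ τ0, (1 - X j)) := by
        rw [map_prod, ← Finset.prod_const, ← Finset.prod_mul_distrib]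
        refine Finset.prod_congr rfl fun j _ => ?_
        rw [map_sub, map_one]
        ring
      rw [h3]
      have h1' : φ (∏ j ∈ τ0, (1 - X j)) = 0 := h1
      rw [h1', mul_zero]
    rw [h2, zero_mul]
  obtain ⟨a, ha, haτ⟩ := hc
  rw [two_sum (fun j => φ (X j)) (φ (C (q : ℂ))) S1 S2 hP1 hP2 hu
    (fun τ1 τ2 => φ (C (e (τ0 ∪ (τ1 ∪ τ2))))), mul_zero]
  intro τ1 h1 τ2 h2 hn1 hn2
  have hadm : Adm v (τ0 ∪ (τ1 ∪ τ2)) := by
    refine adm_of_pt v A Z a ha (hpos a ha) _ fun j hj => ?_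
    rcases Finset.mem_union.1 hj with h3 | h3
    · exact haτ j h3
    rcases Finset.mem_union.1 h3 with h4 | h4
    · exact (hS1 j (h1 h4)).2.2 a ha
    · exact (hS2 j (h2 h4)).2.2 a ha
  have h3 := he2 i l hil τ0 τ1 τ2 hτ0' (fun j hj => ⟨(hS1 j (h1 hj)).1, (hS1 j (h1 hj)).2.1⟩)
    (fun j hj => ⟨(hS2 j (h2 hj)).1, (hS2 j (h2 hj)).2.1⟩) hn1 hn2 hadm
  have h4 := congrArg (fun z : ℂ => φ (C z)) h3
  simp only [Finset.union_empty, Finset.empty_union]
  simp only [C_add, C_mul, C_sub, C_pow, C_1, C_0, map_add, map_mul, map_sub, map_pow, map_one,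
    map_zero] at h4
  exact h4

end Pool.Agent.Y231.N4
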