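import Pool.Agent.Y231.N4.K2
import Pool.Agent.TH216.MF.MotA

/-!
# The criterion and the recurrence
-/

set_option autoImplicit false

namespace Pool.Agent.Y231.N4

open MvPolynomial Filter Pool.Agent.W425.SV
open Pool.Agent.TH216.MF
open Pool.Agent.W426.SM (gord face)

variable {r N : ℕ}

/-- **The criterion.** -/
theorem crit_of_loc (q : ℕ) (hq : 2 ≤ q) (v : Fin r → Fin N → ℕ) (k : MvPolynomial (Fin r) ℂ)
    (T0 : ℂ) (hT0 : T0 ≠ 0) (w0 : Fin r → ℕ)
    (hσ : ∀ (A : Finset (Fin N)) (Z : Finset (Fin r)), (Pt v A Z).Nonempty →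
      (∀ a ∈ Pt v A Z, ((∑ i, a i : ℚ) : ℝ) = Real.log ‖T0‖ / Real.log q) →
      (∀ i ∈ A, ∃ j, j ∉ Z ∧ 0 < v j i) → Forced v A Z ∨
      ∀ t : Fin r → ℂ, (∀ i, i ∈ A ↔ aeval t (elm q v i) = 0) → (∀ j, j ∈ Z ↔ t j = 1) →
        ∃ g : MvPolynomial (Fin r) ℂ, aeval t g ≠ 0 ∧ k * g ∈ I1 q v) : Crit q v k T0 w0 := by
  classical
  obtain ⟨G, hG, hGG⟩ := exG v
  obtain ⟨E, Q, hQ, hQI⟩ := stepC q hq v T0
  have hq0 : (q : ℂ) ≠ 0 := by
    have : q ≠ 0 := by omega
    exact_mod_cast this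
  have hq1 : (1 : ℝ) < q := by exact_mod_cast (by omega : 1 < q)
  have hlog : Real.log q ≠ 0 := (Real.log_pos hq1).ne'
  -- the finitely many values
  have hκ : ∀ p : Finset (Fin N) × Finset (Fin r), ∃ κ : ℤ, Forced v p.1 p.2 →
      ∀ t : Fin r → ℂ, (∀ j, t j ≠ 0) → (∀ i ∈ p.1, aeval t (elm q v i) = 0) →
      (∀ j ∈ p.2, t j = 1) → (∏ j, t j ^ w0 j) ^ G = (q : ℂ) ^ κ := by
    intro p
    by_cases hp : Forced v p.1 p.2
    · obtain ⟨κ, hκ⟩ := forced_value q hq v G hGG p.1 p.2 hp w0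
      exact ⟨κ, fun _ => hκ⟩
    · exact ⟨0, fun h => absurd h hp⟩
  choose κ hκ using hκ
  let J : Ideal (MvPolynomial (Fin r) ℂ) :=
    { carrier := {y | k * y ∈ I1 q v}
      add_mem' := by
        intro a b ha hb
        simp only [Set.mem_ofPred_eq, mul_add] at *
        exact (I1 q v).add_mem ha hb
      zero_mem' := by simp
      smul_mem' := by
        intro c a ha
        simp only [Set.mem_ofPred_eq, smul_eq_mul] at *
        have e : k * (c * a) = c * (k * a) := by ring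
        rw [e]
        exact (I1 q v).mul_mem_left _ ha }
  have hIJ : I1 q v ≤ J := fun x hx => (I1 q v).mul_mem_left _ hx
  set K : Ideal (MvPolynomial (Fin r) ℂ) := J ⊔ Ideal.span {tau r - C T0} with hK
  set Pi : MvPolynomial (Fin r) ℂ := ∏ p : Finset (Fin N) × Finset (Fin r),
    (um w0 ^ G - C ((q : ℂ) ^ κ p)) with hPi
  have hrad : Pi ∈ K.radical := by
    rw [← vanishingIdeal_zeroLocus_eq_radical (K := ℂ), mem_vanishingIdeal_iff]
    intro t ht
    have htau : ∏ j, t j = T0 := by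
      have h3 := (mem_zeroLocus_iff.1 ht) (tau r - C T0)
        (Ideal.mem_sup_right (Ideal.subset_span rfl))
      unfold tau at h3
      rw [map_sub, map_prod, sub_eq_zero] at h3
      simpa [algHom_C] using h3
    have ht0 : ∀ j, t j ≠ 0 := by
      intro j hj
      apply hT0
      rw [← htau]
      exact Finset.prod_eq_zero (Finset.mem_univ j) hj
    have htJ : ∀ g ∈ J, aeval t g = 0 := fun g hg =>
      (mem_zeroLocus_iff.1 ht) g (Ideal.mem_sup_left hg)
    have htI : t ∈ zeroLocus ℂ (I1 q v) := mem_zeroLocus_iff.2 fun g hg => htJ g (hIJ hg)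
    set A : Finset (Fin N) := Finset.univ.filter fun i => aeval t (elm q v i) = 0 with hA
    set Z : Finset (Fin r) := Finset.univ.filter fun j => t j = 1 with hZ
    have hA' : ∀ i, i ∈ A ↔ aeval t (elm q v i) = 0 := fun i => by
      rw [hA, Finset.mem_filter]
      exact ⟨fun h => h.2, fun h => ⟨Finset.mem_univ _, h⟩⟩
    have hZ' : ∀ j, j ∈ Z ↔ t j = 1 := fun j => by
      rw [hZ, Finset.mem_filter]
      exact ⟨fun h => h.2, fun h => ⟨Finset.mem_univ _, h⟩⟩
    obtain ⟨a, ha, haA, haj, haZ⟩ := zero_pair q v t htI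
    have hne : (Pt v A Z).Nonempty := ⟨a, ha, fun i hi => haA i fun h => hi ((hA' i).2 h), haj,
      fun j hj => haZ j fun h => hj ((hZ' j).2 h)⟩
    have hsum : ∀ a ∈ Pt v A Z, ((∑ i, a i : ℚ) : ℝ) = Real.log ‖T0‖ / Real.log q := by
      rintro a ⟨h1, h2, h3, h4⟩
      obtain ⟨s, b, hs, hb1, hb2⟩ := pair_int' v A Z a h1 h2 h4
      have h5 := tau_pow q hq v t s b (fun i hi => hb1.1 i fun h => hi ((hA' i).1 h))
        (fun j hj => hb2 j fun h => hj ((hZ' j).1 h))
      rw [htau] at h5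
      have h6 := congrArg (fun z : ℂ => Real.log ‖z‖) h5
      simp only [norm_pow, Complex.norm_natCast, Real.log_pow] at h6
      have h7 : ((∑ i, b i : ℕ) : ℝ) = (s : ℝ) * ((∑ i, a i : ℚ) : ℝ) := by
        have h8 : ((∑ i, b i : ℕ) : ℚ) = (s : ℚ) * ∑ i, a i := by
          push_cast
          rw [Finset.mul_sum]
          exact Finset.sum_congr rfl fun i _ => by rw [hb1.2 i, mul_comm]
        have h9 := congrArg (fun z : ℚ => (z : ℝ)) h8
        push_cast at h9 ⊢
        exact h9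
      rw [h7] at h6
      have hs' : (s : ℝ) ≠ 0 := by exact_mod_cast hs.ne'
      rw [eq_div_iff hlog]
      apply mul_left_cancel₀ hs'
      linarith
    have hprem : ∀ i ∈ A, ∃ j, j ∉ Z ∧ 0 < v j i := by
      intro i hi
      by_contra hcon
      push Not at hcon
      have h1 := (norm_rel q hq v t i ht0 ((hA' i).1 hi)).1
      have h2 : ∏ j, t j ^ v j i = 1 := by
        refine Finset.prod_eq_one fun j _ => ?_
        by_cases hj : j ∈ Z
        · rw [(hZ' j).1 hj, one_pow]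
        · rw [Nat.le_zero.1 (hcon j hj), pow_zero]
      rw [h2] at h1
      have h3 : (q : ℕ) = 1 := by exact_mod_cast h1.symm
      omega
    rcases hσ A Z hne hsum hprem with hF | hB
    · have h1 := hκ (A, Z) hF t ht0 (fun i hi => (hA' i).1 hi) (fun j hj => (hZ' j).1 hj)
      rw [hPi, map_prod]
      refine Finset.prod_eq_zero (Finset.mem_univ (A, Z)) ?_
      have h2 : aeval t (um w0 : MvPolynomial (Fin r) ℂ) = ∏ j, t j ^ w0 j := by
        unfold um
        rw [map_prod]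
        simp
      rw [map_sub, map_pow, h2, h1]
      simp [algHom_C]
    · exfalso
      obtain ⟨g, hg, hgI⟩ := hB t hA' hZ'
      exact hg (htJ g hgI)
  obtain ⟨n, hn⟩ := Ideal.mem_radical_iff.1 hrad
  obtain ⟨b, hb, x, hx, hbx⟩ := Submodule.mem_sup.1 hn
  obtain ⟨y, hy⟩ := Ideal.mem_span_singleton'.1 hx
  obtain ⟨d, hd⟩ : b ∣ (b + x) ^ E - x ^ E := by
    have := sub_dvd_pow_sub_pow (b + x) x E
    rwa [add_sub_cancel_right] at this
  refine ⟨(∏ p : Finset (Fin N) × Finset (Fin r),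
    (Polynomial.X ^ G - Polynomial.C ((q : ℂ) ^ κ p))) ^ (n * E), Q, ?_, hQ, ?_⟩
  · rw [Polynomial.eval_pow, Polynomial.eval_prod]
    refine pow_ne_zero _ (Finset.prod_ne_zero_iff.2 fun p _ => ?_)
    rw [Polynomial.eval_sub, Polynomial.eval_pow, Polynomial.eval_X, Polynomial.eval_C,
      zero_pow hG.ne', zero_sub]
    exact neg_ne_zero.2 (zpow_ne_zero _ hq0)
  · have h1 : Polynomial.aeval (um w0) ((∏ p : Finset (Fin N) × Finset (Fin r),
        (Polynomial.X ^ G - Polynomial.C ((q : ℂ) ^ κ p))) ^ (n * E)) = Pi ^ (n * E) := by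
      rw [map_pow, map_prod, hPi]
      congr 1
      refine Finset.prod_congr rfl fun p _ => ?_
      rw [map_sub, map_pow, Polynomial.aeval_X, Polynomial.aeval_C]
      rfl
    have e2 : ∀ n, Polynomial.aeval (tau r) ((Polynomial.X - Polynomial.C T0) ^ n) =
        (tau r - C T0) ^ n := by
      intro n
      rw [map_pow, map_sub, Polynomial.aeval_X, Polynomial.aeval_C]
      rfl
    rw [map_mul, e2] at hQI
    have h2 : k * (Polynomial.aeval (tau r) Q * Pi ^ (n * E)) =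
        (k * b) * (d * Polynomial.aeval (tau r) Q) +
          (k * y ^ E) * ((tau r - C T0) ^ E * Polynomial.aeval (tau r) Q) := by
      have h3 : Pi ^ (n * E) = b * d + (y * (tau r - C T0)) ^ E := by
        rw [pow_mul, ← hbx, ← hd, hy]
        ring
      rw [h3, mul_pow]
      ring
    rw [h1, h2]
    exact (I1 q v).add_mem ((I1 q v).mul_mem_right _ hb) ((I1 q v).mul_mem_left _ hQI)


lemma kern_univ {q : ℕ} (hq : 2 ≤ q) (v : Fin r → Fin N → ℕ) (e : Finset (Fin r) → ℂ)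
    (he : KRelJ q v Finset.univ e) : Kern q v (kE e * wJ q v Finset.univ) := kern_J hq v _ e he

/-- the criterion, with the relations for two directions -/
theorem crit4 (q : ℕ) (hq : 2 ≤ q) (v : Fin r → Fin N → ℕ) (e : Finset (Fin r) → ℂ)
    (he1 : KRelJ q v Finset.univ e) (he2 : KRelB q v e) (T0 : ℂ) (hT0 : T0 ≠ 0) (w0 : Fin r → ℕ)
    (hσ : HypS4 v (Real.log ‖T0‖ / Real.log q)) :
    Crit q v (kE e * wJ q v Finset.univ) T0 w0 := by
  refine crit_of_loc q hq v _ T0 hT0 w0 fun A Z hne hsum hprem => ?_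
  rcases hσ A Z hne hsum hprem with hF | hB | ⟨i, hi, l, hl, hil, hpos, S1, S2, h1, h2, h3⟩
  · exact Or.inl hF
  · right
    intro t hA hZ
    exact local_mem q hq v _ (kern_univ hq v e he1) t A Z hA hZ hne hB
  · right
    intro t hA hZ
    obtain ⟨g, hg, hgI⟩ := local_mem2 q hq v e he1 he2 t A Z hA hZ i l hi hl hil hpos S1 S2 h1 h2 h3
    refine ⟨g, hg, ?_⟩
    have e1 : kE e * wJ q v Finset.univ * g = wJ q v Finset.univ * (kE e * g) := by ring
    rw [e1]
    exact Ideal.mul_mem_left _ _ hgI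

/-- the recurrence, with the relations for two directions -/
theorem recJ4 (q : ℕ) (hq : 2 ≤ q) (v : Fin r → Fin N → ℕ) (p : Polynomial ℂ)
    (θ : Fin r → ℤ) (hrel : RelG v (Kil1 v) (KilU v θ) p)
    (e : Finset (Fin r) → ℂ)
    (he1 : KRelJ q v Finset.univ e) (he2 : KRelB q v e) (T0 : ℂ) (hT0 : T0 ≠ 0)
    (hp : p.eval ((-Real.log ‖T0‖ / Real.log q : ℝ) : ℂ) ≠ 0)
    (hσ : HypS4 v (Real.log ‖T0‖ / Real.log q)) : RecJ q v e Finset.univ T0 := by
  have hp0 : p ≠ 0 := by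
    rintro rfl
    exact hp Polynomial.eval_zero
  set D : ℤ := ∑ j, |θ j| with hD
  have hθD : ∀ j, 0 ≤ D - θ j := by
    intro j
    have h1 := Finset.single_le_sum (f := fun j => |θ j|) (fun j _ => abs_nonneg _)
      (Finset.mem_univ j)
    have h3 := le_abs_self (θ j)
    have h4 : |θ j| ≤ D := h1
    linarith
  obtain ⟨Q, hQ, hZ⟩ := coreU q hq v p θ D (fun j => (D - θ j).toNat)
    (fun j => Int.toNat_of_nonneg (hθD j)) hrel _ (kern_univ hq v e he1) T0 hT0 hp0
    (crit4 q hq v e he1 he2 T0 hT0 _ hσ)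
  have h0 : p.rootMultiplicity ((-Real.log ‖T0‖ / Real.log q : ℝ) : ℂ) = 0 :=
    Polynomial.rootMultiplicity_eq_zero hp
  have hZ := hZ 1
  rw [h0, pow_zero, mul_one, mul_one] at hZ
  exact ⟨Q, hQ, rec_aJ q hq v e _ Q hZ⟩

end Pool.Agent.Y231.N4
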