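import Pool.Agent.Y231.N4.K3
import Pool.Agent.Y231.N4.L2

/-!
# The level two: the kernel
-/

set_option autoImplicit false

namespace Pool.Agent.Y231.N4

open MvPolynomial Filter Pool.Agent.W425.SV
open Pool.Agent.TH216.MF
open Pool.Agent.W426.SM (gord face)
open Pool.Agent.TH216.LX (Vert vert2)

variable {r N : ℕ}

/-- at the points of the third kind the kernel is in the ideal -/
lemma local_memG (q : ℕ) (hq : 2 ≤ q) (v : Fin r → Fin N → ℕ) (e : Finset (Fin r) → ℂ)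
    (t : Fin r → ℂ) (A : Finset (Fin N))
    (Z : Finset (Fin r)) (hA : ∀ i, i ∈ A ↔ aeval t (elm q v i) = 0)
    (hZ : ∀ j, j ∈ Z ↔ t j = 1) (i l : Fin N) (hi : i ∈ A) (hl : l ∈ A)
    (hpos : ∀ a ∈ Pt v A Z, a i ≠ 0 ∧ a l ≠ 0) (S1 S2 : Finset (Fin r))
    (hS1 : ∀ j ∈ S1, v j i = 1 ∧ v j l = 0)
    (hS2 : ∀ j ∈ S2, v j i = 0 ∧ v j l = 1)
    (hS : ∀ j, j ∉ S1 → j ∉ S2 → (v j i ≠ 0 ∨ v j l ≠ 0) →
      ∀ a ∈ Pt v A Z, ∑ x, a x * (v j x : ℚ) ≠ 1)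
    (hrel : ∀ τ0 τ1 τ2 : Finset (Fin r), (∀ j ∈ τ0, v j i = 0 ∧ v j l = 0) →
      (∃ a ∈ Pt v A Z, ∀ j ∈ τ0, ∑ x, a x * (v j x : ℚ) = 1) → τ1 ⊆ S1 → τ2 ⊆ S2 →
      τ1.Nonempty → τ2.Nonempty →
      e τ0 + ((q : ℂ) - 1) * e (τ0 ∪ τ1) + ((q : ℂ) - 1) * e (τ0 ∪ τ2) +
        ((q : ℂ) - 1) ^ 2 * e (τ0 ∪ (τ1 ∪ τ2)) = 0) :
    ∃ g : MvPolynomial (Fin r) ℂ, aeval t g ≠ 0 ∧ kE e * g ∈ I1 q v := by
  classical
  have hq0 : (q : ℂ) ≠ 0 := by
    have : q ≠ 0 := by omega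
    exact_mod_cast this
  have hq1 : (q : ℂ) - 1 ≠ 0 := by
    rw [sub_ne_zero]
    have : q ≠ 1 := by omega
    exact_mod_cast this
  -- the directions
  have hdir : ∀ x, x ∈ A → (∀ a ∈ Pt v A Z, a x ≠ 0) → ∃ g : MvPolynomial (Fin r) ℂ,
      aeval t g ≠ 0 ∧ elm q v x ∈ col (I1 q v) g := by
    intro x hx hpx
    obtain ⟨g, hg, hgI⟩ := out_of q v t A Z hA hZ {x} (Finset.singleton_subset_iff.2 hx) ∅ (by
      rintro ⟨a, ha⟩
      rw [Finset.sdiff_empty] at ha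
      refine hpx a ⟨ha.1, fun i' hi' => ha.2.1 i' fun h => hi' (Finset.mem_sdiff.1 h).1,
        ha.2.2.1, ha.2.2.2⟩ (ha.2.1 x fun h => ?_)
      exact (Finset.mem_sdiff.1 h).2 (Finset.mem_singleton_self x))
    rw [Finset.prod_singleton, Finset.prod_empty, mul_one] at hgI
    exact ⟨g, hg, hgI⟩
  -- the sets
  have hset : ∀ τ : Finset (Fin r), ∃ g : MvPolynomial (Fin r) ℂ, aeval t g ≠ 0 ∧
      (if ∃ a ∈ Pt v A Z, ∀ j ∈ τ, ∑ x, a x * (v j x : ℚ) = 1 then 0 else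
        ∏ j ∈ τ, (1 - X j : MvPolynomial (Fin r) ℂ)) ∈ col (I1 q v) g := by
    intro τ
    by_cases h : ∃ a ∈ Pt v A Z, ∀ j ∈ τ, ∑ x, a x * (v j x : ℚ) = 1
    · refine ⟨1, by rw [map_one]; exact one_ne_zero, ?_⟩
      rw [if_pos h]
      exact Ideal.zero_mem _
    · rw [if_neg h]
      obtain ⟨g, hg, hgI⟩ := out_of q v t A Z hA hZ ∅ (Finset.empty_subset _) τ (by
        rintro ⟨a, ha⟩
        rw [Finset.sdiff_empty] at ha
        apply h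
        refine ⟨a, ⟨ha.1, ha.2.1, ha.2.2.1, fun j hj => ha.2.2.2 j fun h =>
          hj (Finset.mem_sdiff.1 h).1⟩, fun j hj => ha.2.2.2 j fun h => ?_⟩
        exact (Finset.mem_sdiff.1 h).2 hj)
      rw [Finset.prod_empty, one_mul] at hgI
      exact ⟨g, hg, hgI⟩
  obtain ⟨g1, hg1, hg1I⟩ := hdir i hi fun a ha => (hpos a ha).1
  obtain ⟨g2, hg2, hg2I⟩ := hdir l hl fun a ha => (hpos a ha).2
  obtain ⟨g3, hg3, hg3I⟩ := out_many q v t _ hset
  refine ⟨g1 * g2 * g3, by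
    rw [map_mul, map_mul]
    exact mul_ne_zero (mul_ne_zero hg1 hg2) hg3, ?_⟩
  rw [← mem_col]
  set J := col (I1 q v) (g1 * g2 * g3) with hJ
  have hJi : elm q v i ∈ J := col_dvd ⟨g2 * g3, by ring⟩ hg1I
  have hJl : elm q v l ∈ J := col_dvd ⟨g1 * g3, by ring⟩ hg2I
  have hJτ : ∀ τ : Finset (Fin r), (¬ ∃ a ∈ Pt v A Z, ∀ j ∈ τ, ∑ x, a x * (v j x : ℚ) = 1) →
      ∏ j ∈ τ, (1 - X j : MvPolynomial (Fin r) ℂ) ∈ J := by
    intro τ h
    have h1 := hg3I τ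
    rw [if_neg h] at h1
    exact col_dvd ⟨g1 * g2, by ring⟩ h1
  rw [← Ideal.Quotient.eq_zero_iff_mem]
  set φ := Ideal.Quotient.mk J with hφ
  -- the variables outside
  have hout : ∀ j, j ∉ S1 → j ∉ S2 → (v j i ≠ 0 ∨ v j l ≠ 0) → φ (X j) = 1 := by
    intro j h1 h2 h3
    have h4 := hJτ {j} (by
      rintro ⟨a, ha, h4⟩
      exact hS j h1 h2 h3 a ha (h4 j (Finset.mem_singleton_self j)))
    rw [Finset.prod_singleton] at h4
    have h5 := Ideal.Quotient.eq_zero_iff_mem.2 h4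
    rw [map_sub, map_one, sub_eq_zero] at h5
    exact h5.symm
  -- the products
  have hprod : ∀ (x : Fin N) (S : Finset (Fin r)), elm q v x ∈ J → (∀ j ∈ S, v j x = 1) →
      (∀ j, j ∉ S → v j x ≠ 0 → φ (X j) = 1) → ∏ j ∈ S, φ (X j) = φ (C (q : ℂ)) := by
    intro x S hx h1 h2
    have h3 := Ideal.Quotient.eq_zero_iff_mem.2 hx
    unfold elm at h3
    rw [map_sub, map_one, map_mul, map_prod] at h3
    have h4 : ∏ j, φ (X j ^ v j x) = ∏ j ∈ S, φ (X j) := by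
      symm
      have h5 : ∏ j ∈ S, φ (X j) = ∏ j ∈ S, φ (X j ^ v j x) := by
        refine Finset.prod_congr rfl fun j hj => ?_
        rw [h1 j hj, pow_one]
      rw [h5]
      refine Finset.prod_subset (Finset.subset_univ S) fun j _ hj => ?_
      by_cases h6 : v j x = 0
      · rw [h6, pow_zero, map_one]
      · rw [map_pow, h2 j hj h6, one_pow]
    have h3' : (1 : MvPolynomial (Fin r) ℂ ⧸ J) - φ (C (q : ℂ)⁻¹) * ∏ j, φ (X j ^ v j x) = 0 := h3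
    rw [h4, sub_eq_zero] at h3'
    have h8 : φ (C (q : ℂ)) * φ (C ((q : ℂ)⁻¹)) = 1 := by
      rw [← map_mul, ← C_mul, mul_inv_cancel₀ hq0, C_1, map_one]
    calc ∏ j ∈ S, φ (X j) = (φ (C (q : ℂ)) * φ (C ((q : ℂ)⁻¹))) * ∏ j ∈ S, φ (X j) := by
          rw [h8, one_mul]
      _ = φ (C (q : ℂ)) * (φ (C ((q : ℂ)⁻¹)) * ∏ j ∈ S, φ (X j)) := by ring
      _ = φ (C (q : ℂ)) := by rw [← h3', mul_one]
  have hP1 : ∏ j ∈ S1, φ (X j) = φ (C (q : ℂ)) :=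
    hprod i S1 hJi (fun j hj => (hS1 j hj).1) fun j hj hv => by
      by_cases h2 : j ∈ S2
      · exact absurd (hS2 j h2).1 hv
      · exact hout j hj h2 (Or.inl hv)
  have hP2 : ∏ j ∈ S2, φ (X j) = φ (C (q : ℂ)) :=
    hprod l S2 hJl (fun j hj => (hS2 j hj).2) fun j hj hv => by
      by_cases h2 : j ∈ S1
      · exact absurd (hS1 j h2).2 hv
      · exact hout j h2 hj (Or.inr hv)
  have hu : IsUnit (φ (C (q : ℂ)) - 1) := by
    have h1 : φ (C (q : ℂ)) - 1 = φ (C ((q : ℂ) - 1)) := by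
      rw [C_sub, map_sub, C_1, map_one]
    rw [h1]
    exact ((IsUnit.mk0 _ hq1).map C).map φ
  -- the sum
  set O : Finset (Fin r) := Finset.univ.filter fun j => v j i = 0 ∧ v j l = 0 with hO
  have hO1 : Disjoint O (S1 ∪ S2) := by
    rw [Finset.disjoint_left]
    intro j hj hj'
    rw [hO, Finset.mem_filter] at hj
    rcases Finset.mem_union.1 hj' with h | h
    · have := (hS1 j h).1
      omega
    · have := (hS2 j h).2
      omega
  have hO2 : Disjoint S1 S2 := by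
    rw [Finset.disjoint_left]
    intro j hj hj'
    have h1 := (hS1 j hj).1
    have h2 := (hS2 j hj').1
    omega
  have hsum : φ (kE e) = ∑ τ ∈ (O ∪ (S1 ∪ S2)).powerset, φ (C (e τ)) *
      ∏ j ∈ τ, (φ (X j) - 1) := by
    unfold kE
    rw [map_sum]
    have h1 : ∀ τ : Finset (Fin r), φ (C (e τ) * ∏ j ∈ τ, (X j - 1)) =
        φ (C (e τ)) * ∏ j ∈ τ, (φ (X j) - 1) := by
      intro τ
      rw [map_mul, map_prod]
      congr 1
    rw [Finset.sum_congr rfl fun τ _ => h1 τ]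
    symm
    refine Finset.sum_subset (Finset.subset_univ _) fun τ _ hτ => ?_
    rw [Finset.mem_powerset, Finset.not_subset] at hτ
    obtain ⟨j, hj, hj'⟩ := hτ
    rw [Finset.mem_union, Finset.mem_union, not_or, not_or, hO, Finset.mem_filter, not_and] at hj'
    have h2 : φ (X j) = 1 := by
      refine hout j hj'.2.1 hj'.2.2 ?_
      have := hj'.1 (Finset.mem_univ j)
      tauto
    rw [Finset.prod_eq_zero hj (by rw [h2, sub_self]), mul_zero]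
  rw [hsum, sum_powerset_disj _ _ hO1]
  refine Finset.sum_eq_zero fun τ0 hτ0 => ?_
  rw [sum_powerset_disj _ _ hO2]
  rw [Finset.mem_powerset] at hτ0
  have hτ0' : ∀ j ∈ τ0, v j i = 0 ∧ v j l = 0 := fun j hj => by
    have := hτ0 hj
    rw [hO, Finset.mem_filter] at this
    exact this.2
  have hfac : ∀ τ1 ∈ S1.powerset, ∀ τ2 ∈ S2.powerset,
      φ (C (e (τ0 ∪ (τ1 ∪ τ2)))) * ∏ j ∈ τ0 ∪ (τ1 ∪ τ2), (φ (X j) - 1) =
      (∏ j ∈ τ0, (φ (X j) - 1)) * (φ (C (e (τ0 ∪ (τ1 ∪ τ2)))) *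
        ((∏ j ∈ τ1, (φ (X j) - 1)) * ∏ j ∈ τ2, (φ (X j) - 1))) := by
    intro τ1 h1 τ2 h2
    rw [Finset.mem_powerset] at h1 h2
    rw [Finset.prod_union, Finset.prod_union]
    · ring
    · exact Finset.disjoint_of_subset_left h1 (Finset.disjoint_of_subset_right h2 hO2)
    · exact Finset.disjoint_of_subset_left hτ0 (Finset.disjoint_of_subset_right
        (Finset.union_subset_union h1 h2) hO1)
  rw [Finset.sum_congr rfl fun τ1 h1 => Finset.sum_congr rfl fun τ2 h2 => hfac τ1 h1 τ2 h2]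
  simp only [← Finset.mul_sum]
  by_cases hc : ∃ a ∈ Pt v A Z, ∀ j ∈ τ0, ∑ x, a x * (v j x : ℚ) = 1
  swap
  · have h1 := Ideal.Quotient.eq_zero_iff_mem.2 (hJτ τ0 hc)
    have h2 : ∏ j ∈ τ0, (φ (X j) - 1) = 0 := by
      have h3 : ∏ j ∈ τ0, (φ (X j) - 1) = (-1) ^ τ0.card * φ (∏ j ∈ τ0, (1 - X j)) := by
        rw [map_prod, ← Finset.prod_const, ← Finset.prod_mul_distrib]
        refine Finset.prod_congr rfl fun j _ => ?_
        rw [map_sub, map_one]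
        ring
      rw [h3]
      have h1' : φ (∏ j ∈ τ0, (1 - X j)) = 0 := h1
      rw [h1', mul_zero]
    rw [h2, zero_mul]
  obtain ⟨a, ha, haτ⟩ := hc
  rw [two_sum (fun j => φ (X j)) (φ (C (q : ℂ))) S1 S2 hP1 hP2 hu
    (fun τ1 τ2 => φ (C (e (τ0 ∪ (τ1 ∪ τ2))))), mul_zero]
  intro τ1 h1 τ2 h2 hn1 hn2
  have h3 := hrel τ0 τ1 τ2 hτ0' ⟨a, ha, haτ⟩ h1 h2 hn1 hn2
  have h4 := congrArg (fun z : ℂ => φ (C z)) h3
  simp only [Finset.union_empty, Finset.empty_union]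
  simp only [C_add, C_mul, C_sub, C_pow, C_1, C_0, map_add, map_mul, map_sub, map_pow, map_one,
    map_zero] at h4
  exact h4

end Pool.Agent.Y231.N4
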