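import Pool.Agent.Y231.N4.L2K1

/-!
# The level two: the modified coefficients
-/

set_option autoImplicit false

namespace Pool.Agent.Y231.N4

open MvPolynomial Filter Pool.Agent.W425.SV
open Pool.Agent.TH216.MF
open Pool.Agent.W426.SM (gord face)
open Pool.Agent.TH216.LX (Vert vert2)

variable {r N : ℕ}

lemma adm_sub {v : Fin r → Fin N → ℕ} {τ τ' : Finset (Fin r)} (h : τ ⊆ τ') (ha : Adm v τ') :
    Adm v τ := by
  obtain ⟨x, hx, hf⟩ := ha
  exact ⟨x, hx, fun j hj => hf j (h hj)⟩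

/-- the sets with a new coefficient -/
def TS (v : Fin r → Fin N → ℕ) (i l : Fin N) (κ : Finset (Fin r)) : Prop :=
  i ≠ l ∧ (∀ j ∈ κ, (v j i = 1 ∧ v j l = 0) ∨ (v j i = 0 ∧ v j l = 1)) ∧
    1 < (κ.filter fun j => v j i = 1).card ∧ 1 < (κ.filter fun j => v j l = 1).card ∧ ¬ Adm v κ

lemma TS.symm {v : Fin r → Fin N → ℕ} {i l : Fin N} {κ : Finset (Fin r)} (h : TS v i l κ) :
    TS v l i κ := by
  obtain ⟨h1, h2, h3, h4, h5⟩ := h
  exact ⟨h1.symm, fun j hj => (h2 j hj).symm.imp (fun h => ⟨h.2, h.1⟩) (fun h => ⟨h.2, h.1⟩),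
    h4, h3, h5⟩

/-- the fourth index -/
lemma fourth : ∀ i l m : Fin 4, i ≠ l → i ≠ m → l ≠ m →
    ∃ n : Fin 4, ∀ x : Fin 4, x = i ∨ x = l ∨ x = m ∨ x = n := by
  decide

lemma four_all : ∀ i l m n : Fin 4, i ≠ l → m ≠ n → ¬ m = i → ¬ m = l → ¬ n = i → ¬ n = l →
    ∀ x : Fin 4, x = i ∨ x = l ∨ x = m ∨ x = n := by
  decide

/-- vertices which agree in three coordinates are equal -/
lemma agree3 {v : Fin r → Fin 4 → ℕ} (hV : Vert v) {i l m : Fin 4} (hil : i ≠ l)
    (him : i ≠ m) (hlm : l ≠ m) {j k : Fin r} (hi : v j i = v k i) (hl : v j l = v k l) (hm : v j m = v k m) : j = k := by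
  by_contra hjk
  obtain ⟨n, hn⟩ := fourth i l m hil him hlm
  rcases le_total (v j n) (v k n) with h | h
  · refine vert2 hV (Ne.symm hjk) fun x => ?_
    rcases hn x with rfl | rfl | rfl | rfl
    · exact hi.le
    · exact hl.le
    · exact hm.le
    · exact h
  · refine vert2 hV hjk fun x => ?_
    rcases hn x with rfl | rfl | rfl | rfl
    · exact hi.ge
    · exact hl.ge
    · exact hm.ge
    · exact h

/-- two elements with a nonzero coordinate -/
lemma TS.one {v : Fin r → Fin 4 → ℕ} (hV : Vert v) {i l : Fin 4} {κ : Finset (Fin r)}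
    (h : TS v i l κ) (m : Fin 4) (hm : m ≠ i) (hm' : m ≠ l) :
    ∃ j ∈ κ, v j i = 1 ∧ v j l = 0 ∧ 0 < v j m := by
  classical
  obtain ⟨h1, h2, h3, h4, h5⟩ := h
  obtain ⟨x, hx, y, hy, hxy⟩ := Finset.one_lt_card.1 h3
  rw [Finset.mem_filter] at hx hy
  have hx0 : v x l = 0 := by
    rcases h2 x hx.1 with h | h
    · exact h.2
    · omega
  have hy0 : v y l = 0 := by
    rcases h2 y hy.1 with h | h
    · exact h.2
    · omega
  by_cases hxm : 0 < v x m
  · exact ⟨x, hx.1, hx.2, hx0, hxm⟩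
  by_cases hym : 0 < v y m
  · exact ⟨y, hy.1, hy.2, hy0, hym⟩
  exfalso
  exact hxy (agree3 hV h1 (Ne.symm hm) (Ne.symm hm') (by omega) (by omega) (by omega))

lemma TS.two {v : Fin r → Fin 4 → ℕ} (hV : Vert v) {i l : Fin 4} {κ : Finset (Fin r)}
    (h : TS v i l κ) (m : Fin 4) : ∃ x ∈ κ, ∃ y ∈ κ, x ≠ y ∧ 0 < v x m ∧ 0 < v y m := by
  classical
  by_cases hm : m = i
  · obtain ⟨h1, h2, h3, h4, h5⟩ := h
    obtain ⟨x, hx, y, hy, hxy⟩ := Finset.one_lt_card.1 h3
    rw [Finset.mem_filter] at hx hy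
    exact ⟨x, hx.1, y, hy.1, hxy, by rw [hm]; omega, by rw [hm]; omega⟩
  by_cases hm' : m = l
  · obtain ⟨h1, h2, h3, h4, h5⟩ := h
    obtain ⟨x, hx, y, hy, hxy⟩ := Finset.one_lt_card.1 h4
    rw [Finset.mem_filter] at hx hy
    exact ⟨x, hx.1, y, hy.1, hxy, by rw [hm']; omega, by rw [hm']; omega⟩
  obtain ⟨x, hx, hx1, hx2, hx3⟩ := h.one hV m hm hm'
  obtain ⟨y, hy, hy1, hy2, hy3⟩ := h.symm.one hV m hm' hm
  refine ⟨x, hx, y, hy, ?_, hx3, hy3⟩
  rintro rfl
  omega

/-- a set with a direction in which at most one element is nonzero -/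
lemma not_ts {v : Fin r → Fin 4 → ℕ} (hV : Vert v) {κ : Finset (Fin r)} (m : Fin 4) (j0 : Fin r)
    (h : ∀ j ∈ κ, j ≠ j0 → v j m = 0) (i l : Fin 4) : ¬ TS v i l κ := by
  intro hT
  obtain ⟨x, hx, y, hy, hxy, hx1, hy1⟩ := hT.two hV m
  by_cases hx0 : x = j0
  · have := h y hy (fun h => hxy (hx0.trans h.symm))
    omega
  · have := h x hx hx0
    omega

/-- the pair is unique -/
lemma TS.unique {v : Fin r → Fin 4 → ℕ} (hV : Vert v) {i l i' l' : Fin 4} {κ : Finset (Fin r)}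
    (h : TS v i l κ) (h' : TS v i' l' κ) : (i' = i ∧ l' = l) ∨ (i' = l ∧ l' = i) := by
  classical
  -- one common index
  have key : ∀ {i l i' l' : Fin 4}, TS v i l κ → TS v i' l' κ → i' = i → l' = l := by
    intro i l i' l' h h' hi
    subst hi
    by_contra hl
    obtain ⟨h1, h2, h3, h4, h5⟩ := h
    obtain ⟨x, hx, y, hy, hxy⟩ := Finset.one_lt_card.1 h4
    rw [Finset.mem_filter] at hx hy
    have e1 : ∀ z ∈ κ, v z l = 1 → v z i' = 0 ∧ v z l' = 1 := by
      intro z hz hz1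
      have a1 := h2 z hz
      have a2 := h'.2.1 z hz
      omega
    have b1 := e1 x hx.1 hx.2
    have b2 := e1 y hy.1 hy.2
    exact hxy (agree3 hV h1 h'.1 (Ne.symm hl) (by omega) (by omega) (by omega))
  by_cases h1 : i' = i
  · exact Or.inl ⟨h1, key h h' h1⟩
  by_cases h2 : i' = l
  · exact Or.inr ⟨h2, key h.symm h' h2⟩
  by_cases h3 : l' = i
  · exact absurd (key h h'.symm h3) h2
  by_cases h4 : l' = l
  · exact absurd (key h.symm h'.symm h4) h1
  -- disjoint
  exfalso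
  apply h.2.2.2.2
  have hall : ∀ x : Fin 4, x = i ∨ x = l ∨ x = i' ∨ x = l' :=
    four_all i l i' l' h.1 h'.1 h1 h2 h3 h4
  have hs : ∀ g : Fin 4 → ℕ, ∑ x, g x = g i + g l + g i' + g l' := by
    intro g
    have hu : (Finset.univ : Finset (Fin 4)) = {i, l, i', l'} := by
      ext x
      simp only [Finset.mem_univ, Finset.mem_insert, Finset.mem_singleton, true_iff]
      exact hall x
    rw [hu, Finset.sum_insert, Finset.sum_insert, Finset.sum_insert, Finset.sum_singleton]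
    · ring
    · rw [Finset.mem_singleton]
      exact h'.1
    · rw [Finset.mem_insert, Finset.mem_singleton]
      rintro (h | h)
      · exact h2 h.symm
      · exact h4 h.symm
    · rw [Finset.mem_insert, Finset.mem_insert, Finset.mem_singleton]
      rintro (h5 | h5 | h5)
      · exact h.1 h5
      · exact h1 h5.symm
      · exact h3 h5.symm
  have hdeg : ∀ j ∈ κ, ∑ x, v j x = 2 := by
    intro j hj
    have a1 := h.2.1 j hj
    have a2 := h'.2.1 j hj
    rw [hs]
    omega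
  have hmin : ∀ k, 2 ≤ ∑ x, v k x := by
    intro k
    by_contra hk
    -- `v k` is below an element of `κ`
    have hex : ∃ j ∈ κ, ∀ x, v k x ≤ v j x := by
      by_cases h0 : ∀ x, v k x = 0
      · obtain ⟨j, hj, -⟩ := h.two hV i
        exact ⟨j, hj, fun x => by rw [h0 x]; exact Nat.zero_le _⟩
      · push Not at h0
        obtain ⟨m, hm⟩ := h0
        obtain ⟨j, hj, -, -, -, hjm, -⟩ := h.two hV m
        refine ⟨j, hj, fun x => ?_⟩
        by_cases hx : x = m
        · subst hx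
          have h5 := Finset.single_le_sum (f := fun x => v k x) (fun _ _ => Nat.zero_le _)
            (Finset.mem_univ x)
          have h6 : v k x ≤ ∑ x, v k x := h5
          omega
        · have h5 : v k m + v k x ≤ ∑ y, v k y := by
            rw [← Finset.sum_pair (Ne.symm hx)]
            exact Finset.sum_le_sum_of_subset (Finset.subset_univ _)
          omega
    obtain ⟨j, hj, hjx⟩ := hex
    by_cases hjk : j = k
    · rw [← hjk, hdeg j hj] at hk
      exact hk le_rfl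
    · exact vert2 hV hjk hjx
  refine ⟨fun _ => 1, fun _ => one_pos, fun j hj => ?_⟩
  have hr : 0 < r := Fin.pos j
  have hg : gord v (fun _ => 1) = 2 := by
    refine le_antisymm ?_ ?_
    · have h5 := Pool.Agent.W803.SM.gord_le v (fun _ => 1) j
      simp only [one_mul] at h5
      rw [hdeg j hj] at h5
      exact h5
    · obtain ⟨k, hk⟩ := Pool.Agent.W803.SM.exists_gord hr v (fun _ => 1)
      rw [← hk]
      simp only [one_mul]
      exact hmin k
  unfold face
  rw [hg]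
  simp only [one_mul]
  exact hdeg j hj

open Classical in
/-- the modified coefficients -/
noncomputable def eT (q : ℕ) (v : Fin r → Fin N → ℕ) (e : Finset (Fin r) → ℂ)
    (κ : Finset (Fin r)) : ℂ :=
  if h : ∃ p : Fin N × Fin N, TS v p.1 p.2 κ then
    -(e ∅ + ((q : ℂ) - 1) * e (κ.filter fun j => v j h.choose.1 = 1) +
      ((q : ℂ) - 1) * e (κ.filter fun j => v j h.choose.2 = 1)) / ((q : ℂ) - 1) ^ 2
  else e κ

lemma eT_not (q : ℕ) (v : Fin r → Fin N → ℕ) (e : Finset (Fin r) → ℂ) (κ : Finset (Fin r))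
    (h : ∀ i l, ¬ TS v i l κ) : eT q v e κ = e κ := by
  unfold eT
  rw [dif_neg]
  rintro ⟨p, hp⟩
  exact h _ _ hp

lemma eT_adm (q : ℕ) (v : Fin r → Fin N → ℕ) (e : Finset (Fin r) → ℂ) (κ : Finset (Fin r))
    (h : Adm v κ) : eT q v e κ = e κ :=
  eT_not q v e κ fun _ _ hT => hT.2.2.2.2 h

lemma eT_ts {v : Fin r → Fin 4 → ℕ} (hV : Vert v) (q : ℕ) (e : Finset (Fin r) → ℂ)
    (κ : Finset (Fin r)) {i l : Fin 4} (h : TS v i l κ) : eT q v e κ =
    -(e ∅ + ((q : ℂ) - 1) * e (κ.filter fun j => v j i = 1) +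
      ((q : ℂ) - 1) * e (κ.filter fun j => v j l = 1)) / ((q : ℂ) - 1) ^ 2 := by
  classical
  have hex : ∃ p : Fin 4 × Fin 4, TS v p.1 p.2 κ := ⟨(i, l), h⟩
  unfold eT
  rw [dif_pos hex]
  rcases h.unique hV hex.choose_spec with ⟨h1, h2⟩ | ⟨h1, h2⟩
  · rw [h1, h2]
  · rw [h1, h2]
    ring

/-- the relations for one direction -/
lemma krelJ_eT {v : Fin r → Fin 4 → ℕ} (hV : Vert v) (q : ℕ) (e : Finset (Fin r) → ℂ)
    (he : KRelJ q v Finset.univ e) : KRelJ q v Finset.univ (eT q v e) := by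
  classical
  intro i hi j0 τ hj0 hτ
  rw [eT_not q v e τ (not_ts hV i j0 fun j hj _ => hτ j hj),
    eT_not q v e (insert j0 τ) (not_ts hV i j0 fun j hj hne => by
      rcases Finset.mem_insert.1 hj with h | h
      · exact absurd h hne
      · exact hτ j h)]
  exact he i hi j0 τ hj0 hτ

/-- the relations for two directions -/
lemma krelT {v : Fin r → Fin 4 → ℕ} (hV : Vert v) (q : ℕ) (hq : 2 ≤ q) (e : Finset (Fin r) → ℂ)
    (he : KRelJ q v Finset.univ e) (he2 : KRelB q v e) (i l : Fin 4) (hil : i ≠ l)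
    (τ1 τ2 : Finset (Fin r)) (h1 : ∀ j ∈ τ1, v j i = 1 ∧ v j l = 0)
    (h2 : ∀ j ∈ τ2, v j i = 0 ∧ v j l = 1) (hn1 : τ1.Nonempty) (hn2 : τ2.Nonempty) :
    eT q v e ∅ + ((q : ℂ) - 1) * eT q v e τ1 + ((q : ℂ) - 1) * eT q v e τ2 +
      ((q : ℂ) - 1) ^ 2 * eT q v e (τ1 ∪ τ2) = 0 := by
  classical
  have hq1 : (q : ℂ) - 1 ≠ 0 := by
    rw [sub_ne_zero]
    have : q ≠ 1 := by omega
    exact_mod_cast this
  have heT := krelJ_eT hV q e he
  -- one element
  have single : ∀ (i l : Fin 4) (τ1 τ2 : Finset (Fin r)), (∀ j ∈ τ1, v j i = 1 ∧ v j l = 0) →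
      (∀ j ∈ τ2, v j i = 0 ∧ v j l = 1) → τ1.card = 1 →
      eT q v e ∅ + ((q : ℂ) - 1) * eT q v e τ1 + ((q : ℂ) - 1) * eT q v e τ2 +
      ((q : ℂ) - 1) ^ 2 * eT q v e (τ1 ∪ τ2) = 0 := by
    intro i l τ1 τ2 h1 h2 hc
    obtain ⟨j0, rfl⟩ := Finset.card_eq_one.1 hc
    have g1 := heT i (Finset.mem_univ i) j0 ∅ (h1 j0 (Finset.mem_singleton_self j0)).1
      (fun j hj => absurd hj (Finset.notMem_empty j))
    have g2 := heT i (Finset.mem_univ i) j0 τ2 (h1 j0 (Finset.mem_singleton_self j0)).1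
      (fun j hj => (h2 j hj).1)
    rw [insert_empty_eq] at g1
    rw [← Finset.insert_eq]
    linear_combination g1 + ((q : ℂ) - 1) * g2
  by_cases hc1 : τ1.card = 1
  · exact single i l τ1 τ2 h1 h2 hc1
  by_cases hc2 : τ2.card = 1
  · have g := single l i τ2 τ1 (fun j hj => ⟨(h2 j hj).2, (h2 j hj).1⟩)
      (fun j hj => ⟨(h1 j hj).2, (h1 j hj).1⟩) hc2
    rw [Finset.union_comm τ1 τ2]
    linear_combination g
  have hcard1 : 1 < τ1.card := by
    have := Finset.card_pos.2 hn1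
    omega
  have hcard2 : 1 < τ2.card := by
    have := Finset.card_pos.2 hn2
    omega
  by_cases hA : Adm v (τ1 ∪ τ2)
  · rw [eT_adm q v e ∅ (adm_sub (Finset.empty_subset _) hA),
      eT_adm q v e τ1 (adm_sub Finset.subset_union_left hA),
      eT_adm q v e τ2 (adm_sub Finset.subset_union_right hA), eT_adm q v e _ hA]
    have g := he2 i l hil ∅ τ1 τ2 (fun j hj => absurd hj (Finset.notMem_empty j)) h1 h2 hn1 hn2
      (by rwa [Finset.empty_union])
    rwa [Finset.empty_union, Finset.empty_union, Finset.empty_union] at g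
  have hf1 : ((τ1 ∪ τ2).filter fun j => v j i = 1) = τ1 := by
    ext j
    rw [Finset.mem_filter, Finset.mem_union]
    constructor
    · rintro ⟨h | h, h'⟩
      · exact h
      · have := h2 j h
        omega
    · exact fun h => ⟨Or.inl h, (h1 j h).1⟩
  have hf2 : ((τ1 ∪ τ2).filter fun j => v j l = 1) = τ2 := by
    ext j
    rw [Finset.mem_filter, Finset.mem_union]
    constructor
    · rintro ⟨h | h, h'⟩
      · have := h1 j h
        omega
      · exact h
    · exact fun h => ⟨Or.inr h, (h2 j h).2⟩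
  have hT : TS v i l (τ1 ∪ τ2) := by
    refine ⟨hil, fun j hj => ?_, ?_, ?_, hA⟩
    · rcases Finset.mem_union.1 hj with h | h
      · exact Or.inl (h1 j h)
      · exact Or.inr (h2 j h)
    · rw [hf1]
      exact hcard1
    · rw [hf2]
      exact hcard2
  rw [eT_ts hV q e _ hT]
  rw [hf1, hf2]
  have hj0 : ∃ j0 : Fin r, j0 ∈ τ1 := hn1
  obtain ⟨j0, -⟩ := hj0
  rw [eT_not q v e ∅ (not_ts hV i j0 fun j hj => absurd hj (Finset.notMem_empty j)),
    eT_not q v e τ1 (not_ts hV l j0 fun j hj _ => (h1 j hj).2),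
    eT_not q v e τ2 (not_ts hV i j0 fun j hj _ => (h2 j hj).1)]
  field_simp
  ring

end Pool.Agent.Y231.N4
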