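import Pool.Agent.TH216.MF.MotE

/-!
# Motivic transfer, for a general system of relations
-/

set_option autoImplicit false

namespace Pool.Agent.Y231.N4

open Filter
open Pool.Agent.TH216.MF
open Pool.Agent.W426.SM (gord ford IsRay)
open Pool.Agent.W803.SM (filt summable_half)
open Pool.Agent.W428.MOT (amin free Adm cp Phi S_CP2 S_RAT geoR InRat)

variable {r N : ℕ}

/-- the value at `q - 1` -/
noncomputable def ev1 (q : ℕ) : Polynomial ℤ →+* ℂ :=
  Polynomial.eval₂RingHom (Int.castRingHom ℂ) ((q : ℂ) - 1)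

/-- the solution of the relations -/
noncomputable def eP (q : ℕ) (v : Fin r → Fin N → ℕ) (J : Finset (Fin N))
    (p : Finset (Fin r) → Polynomial ℤ) (τ : Finset (Fin r)) : ℂ :=
  ((q : ℂ) - 1) ^ frc v J τ * ev1 q (p τ)

/-- the coefficients of the universal series -/
noncomputable def cfP (v : Fin r → Fin N → ℕ) (J : Finset (Fin N))
    (p : Finset (Fin r) → Polynomial ℤ) (τ : Finset (Fin r)) : Polynomial ℤ :=
  ∑ m ∈ Finset.range ((p τ).natDegree + 1), Polynomial.C ((p τ).coeff m) *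
    (1 - Polynomial.X) ^ m * Polynomial.X ^ (J.card - frc v J τ - m)

/-- the universal series -/
noncomputable def PsiP (v : Fin r → Fin N → ℕ) (J : Finset (Fin N))
    (p : Finset (Fin r) → Polynomial ℤ) : PowerSeries (Polynomial ℤ) :=
  ∑ τ, PowerSeries.C (cfP v J p τ) * cser v J τ

open Classical in
/-- the regular series -/
noncomputable def GdP (v : Fin r → Fin N → ℕ) (J : Finset (Fin N))
    (p : Finset (Fin r) → Polynomial ℤ) : PowerSeries (Polynomial ℤ) :=
  if p ∅ = 0 then PsiP v J p else (PowerSeries.X - 1) * PsiP v J p + Omg v J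

/-- the conditions on the degrees -/
structure PolS (v : Fin r → Fin N → ℕ) (J : Finset (Fin N))
    (p : Finset (Fin r) → Polynomial ℤ) : Prop where
  deg : ∀ τ, (p τ).natDegree + frc v J τ ≤ J.card
  emp : p ∅ = 0 ∨ p ∅ = 1

lemma evq_cfP {q : ℕ} (hq : 2 ≤ q) (v : Fin r → Fin N → ℕ) (J : Finset (Fin N))
    (p : Finset (Fin r) → Polynomial ℤ) (hp : PolS v J p) (τ : Finset (Fin r)) :
    evq q (cfP v J p τ) * (1 - (q : ℂ)⁻¹) ^ frc v J τ = (q : ℂ)⁻¹ ^ J.card * eP q v J p τ := by
  unfold cfP eP ev1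
  rw [map_sum, Polynomial.coe_eval₂RingHom, Polynomial.eval₂_eq_sum_range, Finset.mul_sum,
    Finset.mul_sum, Finset.sum_mul]
  refine Finset.sum_congr rfl fun m hm => ?_
  have hm' : m ≤ (p τ).natDegree := Nat.lt_succ_iff.1 (Finset.mem_range.1 hm)
  have h1 := hp.deg τ
  rw [map_mul, map_mul, map_pow, map_pow, map_sub, map_one, evq_X]
  have h2 : evq q (Polynomial.C ((p τ).coeff m)) = (Int.castRingHom ℂ) ((p τ).coeff m) := by
    unfold evq
    rw [Polynomial.coe_eval₂RingHom, Polynomial.eval₂_C]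
  rw [h2]
  obtain ⟨d, hd⟩ : ∃ d, J.card = (m + frc v J τ) + d := ⟨J.card - (m + frc v J τ), by omega⟩
  rw [show J.card - frc v J τ - m = d by omega, hd, pow_add _ _ d]
  have h5 := one_sub_inv hq (m + frc v J τ)
  rw [pow_add (1 - (q : ℂ)⁻¹)] at h5
  linear_combination ((Int.castRingHom ℂ) ((p τ).coeff m) * (q : ℂ)⁻¹ ^ d) * h5

lemma coeff_PsiP {q : ℕ} (hr : 0 < r) (hq : 2 ≤ q) (v : Fin r → Fin N → ℕ)
    (J : Finset (Fin N)) (p : Finset (Fin r) → Polynomial ℤ) (hp : PolS v J p) (M : ℕ) :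
    evq q (PowerSeries.coeff M (PsiP v J p)) = (q : ℂ)⁻¹ ^ J.card * Sm q v J (eP q v J p) M := by
  unfold PsiP
  rw [map_sum, map_sum]
  have h1 : ∀ τ, evq q (PowerSeries.coeff M (PowerSeries.C (cfP v J p τ) * cser v J τ)) =
      evq q (cfP v J p τ) * evq q (cp 0 v 1 J τ M M) := by
    intro τ
    rw [PowerSeries.coeff_C_mul, map_mul]
    unfold cser
    rw [PowerSeries.coeff_mk]
  rw [Finset.sum_congr rfl fun τ _ => h1 τ, sum_cp_eval hr q hq]
  unfold Sm
  rw [← tsum_mul_left]
  refine tsum_congr fun x => ?_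
  rw [evq_cfP hq v J p hp, mul_comm ((q : ℂ)⁻¹ ^ J.card) (iv _ _), iv_mul]
  congr 1
  ring

lemma eP_zero (q : ℕ) (v : Fin r → Fin N → ℕ) (J : Finset (Fin N))
    (p : Finset (Fin r) → Polynomial ℤ) (h : p ∅ = 0) : eP q v J p ∅ = 0 := by
  unfold eP
  rw [h, map_zero, mul_zero]

lemma eP_one (q : ℕ) (v : Fin r → Fin N → ℕ) (J : Finset (Fin N))
    (p : Finset (Fin r) → Polynomial ℤ) (h : p ∅ = 1) :
    eP q v J p ∅ = ((q : ℂ) - 1) ^ J.card := by
  unfold eP
  rw [h, map_one, mul_one, frc_empty]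

/-- **The universal series at `y = 1 / q`.** -/
lemma gdP_rec (hr : 0 < r) (q : ℕ) (hq : 2 ≤ q) (v : Fin r → Fin N → ℕ) (J : Finset (Fin N))
    (p : Finset (Fin r) → Polynomial ℤ) (hp : PolS v J p) (T0 : ℂ)
    (h : RecJ q v (eP q v J p) J T0) :
    ∃ Q A : Polynomial ℂ, Q.eval T0 ≠ 0 ∧
      (Q : PowerSeries ℂ) * PowerSeries.map (evq q) (GdP v J p) = (A : PowerSeries ℂ) := by
  classical
  obtain ⟨Q, hQ, hrec⟩ := h
  obtain ⟨A, hA⟩ := rec_poly _ Q hrec
  rcases hp.emp with h0 | h0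
  · refine ⟨Q, Polynomial.C ((q : ℂ)⁻¹ ^ J.card) * A, hQ, ?_⟩
    have he : eP q v J p ∅ = 0 := eP_zero q v J p h0
    have h1 : PowerSeries.map (evq q) (GdP v J p) = PowerSeries.C ((q : ℂ)⁻¹ ^ J.card) *
          PowerSeries.mk (fun t : ℕ => aJ q v (eP q v J p) J t) := by
      ext M
      unfold GdP
      rw [if_pos h0, PowerSeries.coeff_map, PowerSeries.coeff_C_mul, PowerSeries.coeff_mk,
        coeff_PsiP hr hq v J p hp, aJ_eq hr q v J _ he]
    rw [h1]
    push_cast
    rw [← hA]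
    ring
  · have hne : p ∅ ≠ 0 := by
      rw [h0]
      exact one_ne_zero
    obtain ⟨B, hB0, hB⟩ := aJ_diff hr q hq v J (eP q v J p)
    rw [eP_one q v J p h0] at hB0 hB
    have h1 : PowerSeries.map (evq q) (GdP v J p) = PowerSeries.C ((q : ℂ)⁻¹ ^ J.card) *
        (PowerSeries.C B + (PowerSeries.X - 1) *
          PowerSeries.mk (fun t : ℕ => aJ q v (eP q v J p) J t)) := by
      ext M
      unfold GdP
      rw [if_neg hne, PowerSeries.coeff_map, PowerSeries.coeff_C_mul, sub_mul, sub_mul, one_mul,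
        one_mul, map_add, map_add, map_sub, map_sub, map_add, map_sub]
      rcases M with _ | M
      · rw [PowerSeries.coeff_zero_X_mul, PowerSeries.coeff_zero_X_mul, coeff_PsiP hr hq v J p hp,
          coeff_Omg hr hq, PowerSeries.coeff_zero_C, PowerSeries.coeff_mk, hB0, map_zero]
        ring
      · rw [PowerSeries.coeff_succ_X_mul, PowerSeries.coeff_succ_X_mul,
          coeff_PsiP hr hq v J p hp, coeff_PsiP hr hq v J p hp, coeff_Omg hr hq,
          PowerSeries.coeff_C, if_neg (Nat.succ_ne_zero M),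
          PowerSeries.coeff_mk, PowerSeries.coeff_mk, hB M]
        ring
    refine ⟨Q, Polynomial.C ((q : ℂ)⁻¹ ^ J.card) * (Polynomial.C B * Q +
      (Polynomial.X - 1) * A), hQ, ?_⟩
    rw [h1]
    push_cast
    rw [← hA]
    ring

/-- **The formal theorem.** -/
theorem formalP (hr : 0 < r) (v : Fin r → Fin N → ℕ) (J : Finset (Fin N)) (Bad : ℚ → Prop)
    (p : Finset (Fin r) → Finset (Fin r) → Polynomial ℤ) (hp : ∀ κ, PolS v J (p κ))
    (hB : ∀ q : ℕ, 2 ≤ q → ∀ κ, ∀ T0 : ℂ, T0 ≠ 0 →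
      ∀ σ : ℚ, Bad σ → Real.log ‖T0‖ / Real.log q = (σ : ℝ) →
      RecJ q v (eP q v J (p κ)) J T0) :
    ∃ l : List (Fin N → ℕ), (∀ a ∈ l, IsRay v a ∧ 0 < gord v a ∧
        ¬ Bad (((∑ i, a i : ℕ) : ℚ) / gord v a)) ∧
      ∀ κ, IsPol (GdP v J (p κ) * (l.map (fac v)).prod) := by
  classical
  have hford : ∀ a : Fin N → ℕ, ford 0 v 1 a = gord v a := fun a => by
    unfold ford
    simp
  have h3 : S_RAT := Pool.Agent.W29.MTRat.main Pool.Agent.W346.MTCp2.main
    Pool.Agent.W230.MTZCF.main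
  choose l P hl hP using fun τ : Finset (Fin r) => h3 (0 : Fin N → ℕ) v 1 J τ hr one_pos
  simp only [hford] at hl hP
  set L := (Finset.univ : Finset (Finset (Fin r))).toList.flatMap l with hL
  have hLm : ∀ a ∈ L, IsRay v a ∧ 0 < gord v a := by
    intro a ha
    rw [hL, List.mem_flatMap] at ha
    obtain ⟨τ, -, ha⟩ := ha
    exact hl τ a ha
  have hprod : (L.map (fac v)).prod = ∏ τ, ((l τ).map (fac v)).prod := by
    rw [hL, prod_flat, Finset.prod_map_toList]
  have hc : ∀ τ, IsPol (cser v J τ * (L.map (fac v)).prod) := by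
    intro τ
    rw [hprod, ← Finset.mul_prod_erase _ _ (Finset.mem_univ τ), ← mul_assoc]
    have h4 : IsPol (cser v J τ * ((l τ).map (fac v)).prod) := ⟨P τ, hP τ⟩
    refine h4.mul ?_
    have h5 : ∀ s : Finset (Finset (Fin r)), IsPol (∏ τ ∈ s, ((l τ).map (fac v)).prod) := by
      intro s
      induction s using Finset.induction_on with
      | empty => simpa using IsPol.one
      | insert a s ha ih =>
        rw [Finset.prod_insert ha]
        exact (IsPol.facs v _).mul ih
    exact h5 _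
  have hsum : ∀ c : Finset (Fin r) → Polynomial ℤ,
      IsPol ((∑ τ, PowerSeries.C (c τ) * cser v J τ) * (L.map (fac v)).prod) := by
    intro c
    rw [Finset.sum_mul]
    refine IsPol.sum _ _ fun τ _ => ?_
    rw [mul_assoc]
    exact (IsPol.C _).mul (hc τ)
  have hG : ∀ κ, IsPol (GdP v J (p κ) * (L.map (fac v)).prod) := by
    intro κ
    unfold GdP
    split_ifs
    · exact hsum _
    · rw [add_mul, mul_assoc]
      exact ((IsPol.X.sub IsPol.one).mul (hsum _)).add (hsum _)
  set P0 : (Fin N → ℕ) → Prop := fun a => Bad (((∑ i, a i : ℕ) : ℚ) / gord v a) with hP0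
  refine ⟨L.filter fun a => ¬ P0 a, fun a ha => ?_, fun κ => ?_⟩
  · rw [List.mem_filter] at ha
    obtain ⟨h4, h5⟩ := hLm a ha.1
    have h6 : ¬ P0 a := by simpa using ha.2
    exact ⟨h4, h5, h6⟩
  · obtain ⟨P', hP'⟩ := hG κ
    rw [prod_split v P0 L] at hP'
    refine univ_good v _ _ _ P' hP' (fun a ha => (hLm a (List.mem_filter.1 ha).1).2) ?_
    intro q hq T0 a ha h0
    have ha1 := hLm a (List.mem_filter.1 ha).1
    have hpa : P0 a := by simpa using (List.mem_filter.1 ha).2
    refine gdP_rec hr q hq v J (p κ) (hp κ) T0 (hB q hq κ T0 ?_ _ hpa ?_)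
    · rintro rfl
      unfold fq at h0
      simp [ha1.2.ne'] at h0
    · have h1 : (q : ℂ)⁻¹ ^ (∑ i, a i) * T0 ^ gord v a = 1 := by
        unfold fq at h0
        rw [Polynomial.eval_sub, Polynomial.eval_one, Polynomial.eval_mul, Polynomial.eval_C,
          Polynomial.eval_pow, Polynomial.eval_X] at h0
        linear_combination -h0
      have h2 := congrArg norm h1
      rw [norm_mul, norm_pow, norm_pow, norm_inv, Complex.norm_natCast, norm_one] at h2
      have hq0 : (0 : ℝ) < q := by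
        have : 0 < q := by omega
        exact_mod_cast this
      have hT : ‖T0‖ ^ gord v a = (q : ℝ) ^ (∑ i, a i) := by
        rw [inv_pow] at h2
        field_simp at h2
        linarith
      have hlog := congrArg Real.log hT
      rw [Real.log_pow, Real.log_pow] at hlog
      have hg : ((gord v a : ℕ) : ℝ) ≠ 0 := by exact_mod_cast ha1.2.ne'
      have hlq : Real.log q ≠ 0 := (Real.log_pos (by exact_mod_cast (by omega : 1 < q))).ne'
      push_cast at hlog ⊢
      field_simp
      linarith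

section
variable {R : Type} [CommRing R] (u : Rˣ)

/-- the value at `𝕃 - 1` -/
noncomputable def evL : Polynomial ℤ →+* R :=
  Polynomial.eval₂RingHom (Int.castRingHom R) ((u : R) - 1)

lemma evR_cfP (v : Fin r → Fin N → ℕ) (J : Finset (Fin N))
    (p : Finset (Fin r) → Polynomial ℤ) (hp : PolS v J p) (τ : Finset (Fin r)) :
    (u : R) ^ J.card * evR u (cfP v J p τ) = (u : R) ^ frc v J τ * evL u (p τ) := by
  unfold cfP evL
  rw [map_sum, Polynomial.coe_eval₂RingHom, Polynomial.eval₂_eq_sum_range, Finset.mul_sum,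
    Finset.mul_sum]
  refine Finset.sum_congr rfl fun m hm => ?_
  have hm' : m ≤ (p τ).natDegree := Nat.lt_succ_iff.1 (Finset.mem_range.1 hm)
  have h1 := hp.deg τ
  rw [map_mul, map_mul, map_pow, map_pow, map_sub, map_one, evR_X]
  have h2 : evR u (Polynomial.C ((p τ).coeff m)) = (Int.castRingHom R) ((p τ).coeff m) := by
    unfold evR
    rw [Polynomial.coe_eval₂RingHom, Polynomial.eval₂_C]
  rw [h2]
  obtain ⟨d, hd⟩ : ∃ d, J.card = (m + frc v J τ) + d := ⟨J.card - (m + frc v J τ), by omega⟩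
  rw [show J.card - frc v J τ - m = d by omega, hd, pow_add _ _ d, pow_add _ m]
  have h5 : (1 - ((u⁻¹ : Rˣ) : R)) ^ m * (u : R) ^ m = ((u : R) - 1) ^ m := by
    rw [← mul_pow, sub_mul, one_mul, Units.inv_mul]
  have h6 := evR_pow u d
  linear_combination ((Int.castRingHom R) ((p τ).coeff m) * (u : R) ^ frc v J τ *
      ((1 - ((u⁻¹ : Rˣ) : R)) ^ m * (u : R) ^ m)) * h6 +
      ((Int.castRingHom R) ((p τ).coeff m) * (u : R) ^ frc v J τ) * h5

/-- the constant solution -/
noncomputable def cW (w : R) (v : Fin r → Fin N → ℕ) (J : Finset (Fin N))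
    (τ : Finset (Fin r)) : R :=
  w * ((u⁻¹ : Rˣ) : R) * ((u : R) - 1) ^ (J.card - frc v J τ)

/-- **From classes with relations to rationality.** -/
theorem inRatP {S : Set (ℤ × ℤ)} (v : Fin r → Fin N → ℕ)
    (J : Finset (Fin N)) (l : List (Fin N → ℕ))
    (hl : ∀ a ∈ l, 0 < gord v a ∧ (-((∑ i, a i : ℕ) : ℤ), (gord v a : ℤ)) ∈ S)
    (p : Finset (Fin r) → Finset (Fin r) → Polynomial ℤ) (hp : ∀ κ, PolS v J (p κ))
    (hpe : ∀ κ, p κ ∅ = 1 ↔ κ = ∅)
    (hG : ∀ κ, IsPol (GdP v J (p κ) * (l.map (fac v)).prod)) (w : R)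
    (Ad : Finset (Fin r) → Prop)
    (hAd0 : ∀ τ, ¬ Ad τ → cser v J τ = 0) (b0 b1 : Finset (Fin r) → R) (h00 : b0 ∅ = 0)
    (h10 : b1 ∅ = w)
    (hb0 : ∀ τ, Ad τ → b0 τ - cW u w v J τ = ∑ κ, evL u (p κ τ) * (b0 κ - cW u w v J κ))
    (hb1 : ∀ τ, Ad τ → b1 τ - cW u w v J τ = ∑ κ, evL u (p κ τ) * (b1 κ - cW u w v J κ)) :
    FR u v J b0 b1 * (1 - PowerSeries.C ((u⁻¹ : Rˣ) : R) * PowerSeries.X) ∈ ratR u S := by
  classical
  set Y : R := ((u⁻¹ : Rˣ) : R) with hY
  have huY : (u : R) * Y = 1 := Units.mul_inv u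
  set c : Finset (Fin r) → R := cW u w v J with hc
  set Cs : Finset (Fin r) → PowerSeries R := fun τ => PowerSeries.map (evR u) (cser v J τ)
    with hCs
  have hCs0 : ∀ τ, ¬ Ad τ → Cs τ = 0 := fun τ h => by
    simp only [hCs]
    rw [hAd0 τ h, map_zero]
  -- the images of the universal series
  have hPsi : ∀ κ, PowerSeries.C ((u : R) ^ J.card) * PowerSeries.map (evR u) (PsiP v J (p κ)) =
      ∑ τ, PowerSeries.C ((u : R) ^ frc v J τ * evL u (p κ τ)) * Cs τ := by
    intro κ
    unfold PsiP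
    rw [map_sum, Finset.mul_sum]
    refine Finset.sum_congr rfl fun τ _ => ?_
    rw [map_mul, PowerSeries.map_C, ← mul_assoc, ← map_mul, evR_cfP u v J (p κ) (hp κ)]
  have hOmg : PowerSeries.C ((u : R) ^ J.card) * PowerSeries.map (evR u) (Omg v J) =
      ∑ τ, PowerSeries.C ((u : R) ^ frc v J τ * ((u : R) - 1) ^ (J.card - frc v J τ)) *
        Cs τ := by
    unfold Omg
    rw [map_sum, Finset.mul_sum]
    refine Finset.sum_congr rfl fun τ _ => ?_
    rw [map_mul, PowerSeries.map_C, ← mul_assoc, ← map_mul, map_pow, map_sub, map_one, evR_X]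
    congr 2
    obtain ⟨d, hd⟩ : ∃ d, J.card = frc v J τ + d := ⟨J.card - frc v J τ, by
      have := frc_le v J τ
      omega⟩
    rw [hd, show frc v J τ + d - frc v J τ = d by omega, pow_add, mul_assoc, ← mul_pow, mul_sub,
      mul_one, Units.mul_inv]
  -- `B_κ`
  set B : Finset (Fin r) → PowerSeries R := fun κ =>
    PowerSeries.C (b0 κ - c κ) * (1 - PowerSeries.C Y * PowerSeries.X) +
      PowerSeries.C (b1 κ - c κ) * (PowerSeries.C Y * PowerSeries.X) with hB
  have hgeo : (1 - PowerSeries.C Y * PowerSeries.X) * geoR u (-1) 1 = 1 := by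
    have h1 := geoR_mul u (-1) 1 one_pos
    rw [zpow_neg_one] at h1
    have h2 : (1 : ℤ).toNat = 1 := rfl
    rw [h2, pow_one] at h1
    exact h1
  -- the total
  have htot : FR u v J b0 b1 * (1 - PowerSeries.C Y * PowerSeries.X) =
      PowerSeries.C ((u : R) ^ J.card) * (PowerSeries.C (w * Y) *
        PowerSeries.map (evR u) (Omg v J) +
          ∑ κ, B κ * PowerSeries.map (evR u) (PsiP v J (p κ))) := by
    rw [mul_add, Finset.mul_sum]
    have e1 : PowerSeries.C ((u : R) ^ J.card) * (PowerSeries.C (w * Y) *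
        PowerSeries.map (evR u) (Omg v J)) = PowerSeries.C (w * Y) *
          ∑ τ, PowerSeries.C ((u : R) ^ frc v J τ * ((u : R) - 1) ^ (J.card - frc v J τ)) *
            Cs τ := by
      rw [← hOmg]
      ring
    have e2 : ∀ κ, PowerSeries.C ((u : R) ^ J.card) * (B κ *
        PowerSeries.map (evR u) (PsiP v J (p κ))) = ∑ τ, B κ *
          (PowerSeries.C ((u : R) ^ frc v J τ * evL u (p κ τ)) * Cs τ) := by
      intro κ
      rw [← Finset.mul_sum, ← hPsi κ]
      ring
    rw [e1, Finset.sum_congr rfl fun κ _ => e2 κ, Finset.sum_comm, Finset.mul_sum,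
      ← Finset.sum_add_distrib]
    unfold FR
    rw [Finset.sum_mul]
    refine Finset.sum_congr rfl fun τ _ => ?_
    change PowerSeries.C ((u : R) ^ frc v J τ) * (PowerSeries.C (b0 τ) * Cs τ +
        PowerSeries.C (b1 τ) * (PowerSeries.C Y * PowerSeries.X * Cs τ * geoR u (-1) 1)) *
          (1 - PowerSeries.C Y * PowerSeries.X) = _
    by_cases hA : Ad τ
    · have h0 := hb0 τ hA
      have h1 := hb1 τ hA
      have h0' : PowerSeries.C (b0 τ) = PowerSeries.C (c τ) +
          ∑ κ, PowerSeries.C (evL u (p κ τ)) * PowerSeries.C (b0 κ - c κ) := by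
        simp only [← map_mul]
        rw [← map_sum, ← h0, ← map_add]
        congr 1
        ring
      have h1' : PowerSeries.C (b1 τ) = PowerSeries.C (c τ) +
          ∑ κ, PowerSeries.C (evL u (p κ τ)) * PowerSeries.C (b1 κ - c κ) := by
        simp only [← map_mul]
        rw [← map_sum, ← h1, ← map_add]
        congr 1
        ring
      have hcτ : PowerSeries.C (c τ) = PowerSeries.C (w * Y) *
          PowerSeries.C (((u : R) - 1) ^ (J.card - frc v J τ)) := by
        rw [← map_mul]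
        rfl
      have h2 : ∑ κ, B κ * (PowerSeries.C ((u : R) ^ frc v J τ * evL u (p κ τ)) * Cs τ) =
          PowerSeries.C ((u : R) ^ frc v J τ) * Cs τ *
            ((∑ κ, PowerSeries.C (evL u (p κ τ)) * PowerSeries.C (b0 κ - c κ)) *
              (1 - PowerSeries.C Y * PowerSeries.X) +
            (∑ κ, PowerSeries.C (evL u (p κ τ)) * PowerSeries.C (b1 κ - c κ)) *
              (PowerSeries.C Y * PowerSeries.X)) := by
        rw [Finset.sum_mul, Finset.sum_mul, ← Finset.sum_add_distrib, Finset.mul_sum]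
        refine Finset.sum_congr rfl fun κ _ => ?_
        simp only [hB]
        rw [map_mul PowerSeries.C ((u : R) ^ frc v J τ)]
        ring
      rw [h2, h0', h1', hcτ, map_mul PowerSeries.C ((u : R) ^ frc v J τ)]
      linear_combination (PowerSeries.C ((u : R) ^ frc v J τ) *
        (PowerSeries.C (w * Y) * PowerSeries.C (((u : R) - 1) ^ (J.card - frc v J τ)) +
          ∑ κ, PowerSeries.C (evL u (p κ τ)) * PowerSeries.C (b1 κ - c κ)) *
          (PowerSeries.C Y * PowerSeries.X * Cs τ)) * hgeo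
    · have h2 : ∑ κ, B κ * (PowerSeries.C ((u : R) ^ frc v J τ * evL u (p κ τ)) * Cs τ) = 0 := by
        refine Finset.sum_eq_zero fun κ _ => ?_
        rw [hCs0 τ hA, mul_zero, mul_zero]
      rw [h2, hCs0 τ hA]
      ring
  -- the component of `∅`
  have hB0 : B ∅ = PowerSeries.C (w * Y) * (PowerSeries.X - 1) := by
    simp only [hB, hc, h00, h10, cW]
    rw [frc_empty, Nat.sub_self, pow_zero, mul_one, zero_sub, map_neg, map_sub, map_mul]
    ring
  have hne0 : ∀ κ, κ ≠ ∅ → p κ ∅ = 0 := by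
    intro κ hκ
    rcases (hp κ).emp with h | h
    · exact h
    · exact absurd ((hpe κ).1 h) hκ
  have htot2 : PowerSeries.C (w * Y) * PowerSeries.map (evR u) (Omg v J) +
      ∑ κ, B κ * PowerSeries.map (evR u) (PsiP v J (p κ)) =
      PowerSeries.C (w * Y) * PowerSeries.map (evR u) (GdP v J (p ∅)) +
        ∑ κ ∈ Finset.univ.erase ∅, B κ * PowerSeries.map (evR u) (GdP v J (p κ)) := by
    rw [← Finset.add_sum_erase _ _ (Finset.mem_univ (∅ : Finset (Fin r))), hB0, ← add_assoc]
    congr 1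
    · have e0 : PowerSeries.map (evR u) (GdP v J (p ∅)) = (PowerSeries.X - 1) *
          PowerSeries.map (evR u) (PsiP v J (p ∅)) + PowerSeries.map (evR u) (Omg v J) := by
        unfold GdP
        have h3 : p ∅ ∅ = 1 := (hpe ∅).2 rfl
        rw [if_neg (by rw [h3]; exact one_ne_zero), map_add, map_mul, map_sub, map_one,
          PowerSeries.map_X]
      rw [e0]
      ring
    · refine Finset.sum_congr rfl fun κ hκ => ?_
      unfold GdP
      rw [if_pos (hne0 κ (Finset.ne_of_mem_erase hκ))]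
  have hmem : FR u v J b0 b1 * (1 - PowerSeries.C Y * PowerSeries.X) ∈ ratR u S := by
    rw [htot, htot2]
    have hBm : ∀ κ, B κ ∈ ratR u S := fun κ =>
      (ratR u S).add_mem ((ratR u S).mul_mem (CR_mem u S _) ((ratR u S).sub_mem
        (ratR u S).one_mem ((ratR u S).mul_mem (CR_mem u S _) (XR_mem u S))))
        ((ratR u S).mul_mem (CR_mem u S _) ((ratR u S).mul_mem (CR_mem u S _) (XR_mem u S)))
    have hGm : ∀ κ, PowerSeries.map (evR u) (GdP v J (p κ)) ∈ ratR u S := fun κ =>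
      ratR_mem u v l hl _ (hG κ)
    exact (ratR u S).mul_mem (CR_mem u S _) ((ratR u S).add_mem
      ((ratR u S).mul_mem (CR_mem u S _) (hGm ∅))
      ((ratR u S).sum_mem fun κ _ => (ratR u S).mul_mem (hBm κ) (hGm κ)))
  exact hmem

end

end Pool.Agent.Y231.N4
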