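import Pool.Agent.Y231.N4.K3
import Pool.Agent.Y231.N4.M1

/-!
# The normal form: combinatorics
-/

set_option autoImplicit false

namespace Pool.Agent.Y231.N4

open Pool.Agent.TH216.MF
open Pool.Agent.W426.SM (gord face)

section
variable {r N : ℕ} (v : Fin r → Fin N → ℕ) (J : Finset (Fin N))

lemma apf_bas (τ : Finset (Fin r)) : ApF v J (bas v J τ) := by
  intro i hi j0 hj0 hv
  obtain ⟨σ, h1, h2, h3⟩ := (mem_bas v J τ j0).1 hj0
  obtain ⟨j, hj, hne, h4⟩ := h2 i hi j0 h3 hv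
  exact ⟨j, (mem_bas v J τ j).2 ⟨σ, h1, h2, hj⟩, hne, h4⟩

lemma sub_bas {σ τ : Finset (Fin r)} (h : σ ⊆ τ) (h1 : ApF v J σ) : σ ⊆ bas v J τ :=
  fun j hj => (mem_bas v J τ j).2 ⟨σ, h, h1, hj⟩

lemma bas_mono {σ τ : Finset (Fin r)} (h : σ ⊆ τ) : bas v J σ ⊆ bas v J τ := by
  intro j hj
  obtain ⟨ρ, h1, h2, h3⟩ := (mem_bas v J σ j).1 hj
  exact (mem_bas v J τ j).2 ⟨ρ, h1.trans h, h2, h3⟩

lemma bas_bas (τ : Finset (Fin r)) : bas v J (bas v J τ) = bas v J τ :=
  bas_apf v J _ (apf_bas v J τ)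

lemma bas_inter {ρ τ : Finset (Fin r)} (h : ρ ⊆ τ) : bas v J (ρ ∩ bas v J τ) = bas v J ρ := by
  refine Finset.Subset.antisymm (bas_mono v J Finset.inter_subset_left) ?_
  exact sub_bas v J (Finset.subset_inter (bas_sub v J ρ) (bas_mono v J h)) (apf_bas v J ρ)

end

variable {r : ℕ} (v : Fin r → Fin 4 → ℕ)

/-- both coordinates vanish -/
def P0 (i l : Fin 4) (σ : Finset (Fin r)) : Finset (Fin r) :=
  σ.filter fun j => v j i = 0 ∧ v j l = 0

/-- the coordinates are `1` and `0` -/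
def P1 (i l : Fin 4) (σ : Finset (Fin r)) : Finset (Fin r) :=
  σ.filter fun j => v j i = 1 ∧ v j l = 0

lemma mem_P0 {i l : Fin 4} {σ : Finset (Fin r)} {j : Fin r} :
    j ∈ P0 v i l σ ↔ j ∈ σ ∧ v j i = 0 ∧ v j l = 0 := Finset.mem_filter

lemma mem_P1 {i l : Fin 4} {σ : Finset (Fin r)} {j : Fin r} :
    j ∈ P1 v i l σ ↔ j ∈ σ ∧ v j i = 1 ∧ v j l = 0 := Finset.mem_filter

lemma P0_comm (i l : Fin 4) (σ : Finset (Fin r)) : P0 v l i σ = P0 v i l σ := by
  ext j
  rw [mem_P0, mem_P0, and_comm (a := v j l = 0)]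

/-- the condition on the two directions, with values -/
def Two (i l : Fin 4) (σ : Finset (Fin r)) : Prop :=
  i ≠ l ∧ ∀ j ∈ σ, (v j i = 0 ∧ v j l = 0) ∨ (v j i = 1 ∧ v j l = 0) ∨ (v j i = 0 ∧ v j l = 1)

/-- a structure on `σ` -/
def St2 (σ : Finset (Fin r)) (i l : Fin 4) : Prop :=
  Two v i l σ ∧ 2 ≤ (P1 v i l σ).card ∧ 2 ≤ (P1 v l i σ).card

/-- the points are on a hyperplane with positive coefficients -/
def Hyp (σ : Finset (Fin r)) : Prop :=
  ∃ (x : Fin 4 → ℕ) (g : ℕ), (∀ i, 0 < x i) ∧ ∀ j ∈ σ, ∑ i, x i * v j i = g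

variable {v}

lemma hyp_sub {σ τ : Finset (Fin r)} (h : σ ⊆ τ) (hτ : Hyp v τ) : Hyp v σ := by
  obtain ⟨x, g, h1, h2⟩ := hτ
  exact ⟨x, g, h1, fun j hj => h2 j (h hj)⟩

lemma hyp_of_adm {τ : Finset (Fin r)} (h : Adm v τ) : Hyp v τ := by
  obtain ⟨x, h1, h2⟩ := h
  exact ⟨x, gord v x, h1, h2⟩

lemma two_symm {i l : Fin 4} {σ : Finset (Fin r)} (h : Two v i l σ) : Two v l i σ := by
  refine ⟨h.1.symm, fun j hj => ?_⟩
  rcases h.2 j hj with h1 | h1 | h1
  · exact Or.inl ⟨h1.2, h1.1⟩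
  · exact Or.inr (Or.inr ⟨h1.2, h1.1⟩)
  · exact Or.inr (Or.inl ⟨h1.2, h1.1⟩)

lemma two_sub {i l : Fin 4} {σ τ : Finset (Fin r)} (hs : σ ⊆ τ) (h : Two v i l τ) :
    Two v i l σ := ⟨h.1, fun j hj => h.2 j (hs hj)⟩

lemma st2_symm {i l : Fin 4} {σ : Finset (Fin r)} (h : St2 v σ i l) : St2 v σ l i :=
  ⟨two_symm h.1, h.2.2, h.2.1⟩

/-- the remaining coordinates -/
lemma rest (i l : Fin 4) (h : i ≠ l) : ∃ x y : Fin 4, x ≠ y ∧ x ≠ i ∧ x ≠ l ∧ y ≠ i ∧ y ≠ l ∧
    ∀ t, t = i ∨ t = l ∨ t = x ∨ t = y := by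
  revert i l
  decide

lemma rest3 : ∀ i l x : Fin 4, i ≠ l → x ≠ i → x ≠ l →
    ∃ y : Fin 4, ∀ t, t ≠ y → t = i ∨ t = l ∨ t = x := by
  decide

lemma rest4 : ∀ i l x y : Fin 4, i ≠ l → x ≠ y → x ≠ i → x ≠ l → y ≠ i → y ≠ l →
    ∀ t : Fin 4, t = i ∨ t = l ∨ t = x ∨ t = y := by
  decide

/-- three coordinates determine the point -/
lemma det3 (hv : Function.Injective v) {σ : Finset (Fin r)} (hσ : Hyp v σ) {j j' : Fin r}
    (hj : j ∈ σ) (hj' : j' ∈ σ) (i0 : Fin 4) (h : ∀ i, i ≠ i0 → v j i = v j' i) : j = j' := by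
  obtain ⟨x, g, hx, hg⟩ := hσ
  apply hv
  funext i
  by_cases hi : i = i0
  · subst hi
    have h1 := hg j hj
    have h2 := hg j' hj'
    rw [← Finset.add_sum_erase _ _ (Finset.mem_univ i)] at h1 h2
    have h3 : ∑ i' ∈ Finset.univ.erase i, x i' * v j i' =
        ∑ i' ∈ Finset.univ.erase i, x i' * v j' i' :=
      Finset.sum_congr rfl fun i' hi' => by rw [h i' (Finset.ne_of_mem_erase hi')]
    rw [h3] at h1
    have h4 : x i * v j i = x i * v j' i := by omega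
    exact Nat.eq_of_mul_eq_mul_left (hx i) h4
  · exact h i hi

lemma det3' (hv : Function.Injective v) {σ : Finset (Fin r)} (hσ : Hyp v σ) {j j' : Fin r}
    (hj : j ∈ σ) (hj' : j' ∈ σ) (i l x : Fin 4) (hil : i ≠ l) (hxi : x ≠ i) (hxl : x ≠ l)
    (h1 : v j i = v j' i) (h2 : v j l = v j' l) (h3 : v j x = v j' x) : j = j' := by
  obtain ⟨y, hy⟩ := rest3 i l x hil hxi hxl
  refine det3 hv hσ hj hj' y fun t ht => ?_
  rcases hy t ht with rfl | rfl | rfl
  · exact h1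
  · exact h2
  · exact h3

lemma two_of_card {σ : Finset (Fin r)} (h : 2 ≤ σ.card) : ∃ j ∈ σ, ∃ j' ∈ σ, j ≠ j' := by
  obtain ⟨a, b, ha, hb, hab⟩ := Finset.one_lt_card_iff.1 (by omega : 1 < σ.card)
  exact ⟨a, ha, b, hb, hab⟩

/-- (F3) -/
lemma no_st2 (hv : Function.Injective v) {σ : Finset (Fin r)} (hσ : Hyp v σ) (l0 : Fin 4)
    (h0 : ∀ j ∈ σ, v j l0 = 0) (i l : Fin 4) : ¬ St2 v σ i l := by
  rintro ⟨⟨hil, -⟩, h1, h2⟩
  obtain ⟨j, hj, j', hj', hne⟩ := two_of_card h1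
  obtain ⟨k, hk, -, -, -⟩ := two_of_card h2
  rw [mem_P1] at hj hj' hk
  apply hne
  have hl0i : l0 ≠ i := by
    rintro rfl
    have := h0 j hj.1
    omega
  have hl0l : l0 ≠ l := by
    rintro rfl
    have := h0 k hk.1
    omega
  exact det3' hv hσ hj.1 hj'.1 i l l0 hil hl0i hl0l (by omega) (by omega)
    (by rw [h0 j hj.1, h0 j' hj'.1])

/-- (F1) -/
lemma apf_two (hv : Function.Injective v) {i l : Fin 4} {σ : Finset (Fin r)} (hσ : Hyp v σ)
    (hS : St2 v σ i l) (J : Finset (Fin 4)) : ApF v J (P1 v i l σ ∪ P1 v l i σ) := by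
  have key : ∀ i l : Fin 4, St2 v σ i l → ∀ i0 : Fin 4, ∀ j0 ∈ P1 v i l σ, v j0 i0 = 1 →
      ∃ j ∈ P1 v i l σ ∪ P1 v l i σ, j ≠ j0 ∧ v j i0 ≠ 0 := by
    rintro i l ⟨⟨hil, -⟩, h1, h2⟩ i0 j0 hj0 hv0
    by_contra hcon
    push Not at hcon
    rw [mem_P1] at hj0
    by_cases hi0 : i0 = i
    · -- another point in the same part
      subst hi0
      obtain ⟨a, ha, b, hb, hab⟩ := two_of_card h1
      by_cases ha0 : a = j0
      · have h3 := hcon b (Finset.mem_union_left _ hb) (fun h => hab (ha0.trans h.symm))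
        rw [mem_P1] at hb
        omega
      · have h3 := hcon a (Finset.mem_union_left _ ha) ha0
        rw [mem_P1] at ha
        omega
    · by_cases hl0 : i0 = l
      · subst hl0
        omega
      · obtain ⟨a, ha, b, hb, hab⟩ := two_of_card h2
        apply hab
        have hne : ∀ c, c ∈ P1 v l i σ → c ≠ j0 := by
          rintro c hc rfl
          rw [mem_P1] at hc
          omega
        have h3 := hcon a (Finset.mem_union_right _ ha) (hne a ha)
        have h4 := hcon b (Finset.mem_union_right _ hb) (hne b hb)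
        rw [mem_P1] at ha hb
        exact det3' hv hσ ha.1 hb.1 i l i0 hil hi0 hl0 (by omega) (by omega) (by omega)
  intro i0 _ j0 hj0 hv0
  rcases Finset.mem_union.1 hj0 with h | h
  · exact key i l hS i0 j0 h hv0
  · obtain ⟨j, hj, h1⟩ := key l i (st2_symm hS) i0 j0 h hv0
    exact ⟨j, by rwa [Finset.union_comm], h1⟩

/-- the parallelogram -/
def Par (σ : Finset (Fin r)) (v : Fin r → Fin 4 → ℕ) (i l : Fin 4) : Prop :=
  P0 v i l σ = ∅ ∧ (P1 v i l σ).card = 2 ∧ (P1 v l i σ).card = 2 ∧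
    bas v Finset.univ (P1 v i l σ) = ∅ ∧ bas v Finset.univ (P1 v l i σ) = ∅

lemma par_half (hv : Function.Injective v) {i l x y : Fin 4} {σ : Finset (Fin r)}
    (hσ : Hyp v σ) (hS : St2 v σ i l) (hT : Two v x y σ) (hxi : x ≠ i) (hxl : x ≠ l) (hyi : y ≠ i)
    (hyl : y ≠ l) : P0 v i l σ = ∅ ∧ (P1 v i l σ).card = 2 ∧
      bas v Finset.univ (P1 v i l σ) = ∅ := by
  classical
  obtain ⟨w, g, hw, hg⟩ := hσ
  obtain ⟨⟨hil, hall⟩, h1, h2⟩ := hS
  obtain ⟨hxy, hT⟩ := hT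
  have hex := rest4 i l x y hil hxy hxi hxl hyi hyl
  have hsum : ∀ j, ∑ t, w t * v j t = w i * v j i + w l * v j l + w x * v j x + w y * v j y := by
    intro j
    have e : (Finset.univ : Finset (Fin 4)) = {i, l, x, y} := by
      ext t
      simp only [Finset.mem_univ, Finset.mem_insert, Finset.mem_singleton, true_iff]
      exact hex t
    rw [e, Finset.sum_insert, Finset.sum_insert, Finset.sum_insert, Finset.sum_singleton]
    · ring
    · simp [hxy]
    · simp [hxl.symm, hyl.symm]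
    · simp [hil, hxi.symm, hyi.symm]
  have hwi := hw i
  have hwl := hw l
  have hwx := hw x
  have hwy := hw y
  -- the values
  have hval : ∀ j ∈ σ, g = w i * v j i + w l * v j l + w x * v j x + w y * v j y := by
    intro j hj
    rw [← hsum, hg j hj]
  -- two points in the first part
  obtain ⟨a, ha, b, hb, hab⟩ := two_of_card h1
  have ha' := (mem_P1 v).1 ha
  have hb' := (mem_P1 v).1 hb
  have hdist : ∀ j j', j ∈ σ → j' ∈ σ → v j i = v j' i → v j l = v j' l → v j x = v j' x →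
      j = j' := fun j j' hj hj' e1 e2 e3 =>
    det3' hv ⟨w, g, hw, hg⟩ hj hj' i l x hil hxi hxl e1 e2 e3
  have hga := hval a ha'.1
  have hgb := hval b hb'.1
  rw [ha'.2.1, ha'.2.2] at hga
  rw [hb'.2.1, hb'.2.2] at hgb
  have hpos : g = w i + w x ∧ g = w i + w y ∧ ((v a x = 1 ∧ v a y = 0 ∧ v b x = 0 ∧ v b y = 1) ∨
      (v b x = 1 ∧ v b y = 0 ∧ v a x = 0 ∧ v a y = 1)) := by
    rcases hT a ha'.1 with h3 | h3 | h3 <;> rcases hT b hb'.1 with h4 | h4 | h4 <;>
      rw [h3.1, h3.2] at hga <;> rw [h4.1, h4.2] at hgb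
    · exact absurd (hdist a b ha'.1 hb'.1 (by omega) (by omega) (by omega)) hab
    · omega
    · omega
    · omega
    · exact absurd (hdist a b ha'.1 hb'.1 (by omega) (by omega) (by omega)) hab
    · refine ⟨by omega, by omega, Or.inl ⟨h3.1, h3.2, h4.1, h4.2⟩⟩
    · omega
    · refine ⟨by omega, by omega, Or.inr ⟨h4.1, h4.2, h3.1, h3.2⟩⟩
    · exact absurd (hdist a b ha'.1 hb'.1 (by omega) (by omega) (by omega)) hab
  obtain ⟨hgx, hgy, hpts⟩ := hpos
  have hP0 : P0 v i l σ = ∅ := by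
    rw [Finset.eq_empty_iff_forall_notMem]
    intro j hj
    rw [mem_P0] at hj
    have h3 := hval j hj.1
    rw [hj.2.1, hj.2.2] at h3
    rcases hT j hj.1 with h4 | h4 | h4 <;> rw [h4.1, h4.2] at h3 <;> omega
  have hP1 : P1 v i l σ = {a, b} := by
    ext j
    rw [mem_P1, Finset.mem_insert, Finset.mem_singleton]
    constructor
    · intro hj
      have h3 := hval j hj.1
      rw [hj.2.1, hj.2.2] at h3
      rcases hT j hj.1 with h4 | h4 | h4
      · rw [h4.1, h4.2] at h3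
        omega
      · rcases hpts with h5 | h5
        · exact Or.inl (hdist j a hj.1 ha'.1 (by omega) (by omega) (by omega))
        · exact Or.inr (hdist j b hj.1 hb'.1 (by omega) (by omega) (by omega))
      · rcases hpts with h5 | h5
        · exact Or.inr (hdist j b hj.1 hb'.1 (by omega) (by omega) (by omega))
        · exact Or.inl (hdist j a hj.1 ha'.1 (by omega) (by omega) (by omega))
    · rintro (rfl | rfl)
      · exact ha'
      · exact hb'
  refine ⟨hP0, by rw [hP1, Finset.card_pair hab], ?_⟩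
  rw [hP1]
  have hb0 : bas v Finset.univ {b} = ∅ := by
    have := bas_step v Finset.univ i (Finset.mem_univ i) b hb'.2.1 ∅ (by simp)
    rw [bas_empty] at this
    simpa using this
  have ha0 : bas v Finset.univ {a} = ∅ := by
    have := bas_step v Finset.univ i (Finset.mem_univ i) a ha'.2.1 ∅ (by simp)
    rw [bas_empty] at this
    simpa using this
  rcases hpts with h5 | h5
  · have := bas_step v Finset.univ x (Finset.mem_univ x) a h5.1 {b} (by
      intro j hj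
      rw [Finset.mem_singleton.1 hj]
      exact h5.2.2.1)
    rw [this, hb0]
  · have := bas_step v Finset.univ x (Finset.mem_univ x) b h5.1 {a} (by
      intro j hj
      rw [Finset.mem_singleton.1 hj]
      exact h5.2.2.1)
    rw [Finset.pair_comm, this, ha0]

/-- (F2) two structures -/
lemma two_str (hv : Function.Injective v) {i l i' l' : Fin 4} {σ : Finset (Fin r)}
    (hσ : Hyp v σ) (hS : St2 v σ i l) (hS' : St2 v σ i' l') :
    (i' = i ∧ l' = l) ∨ (i' = l ∧ l' = i) ∨ (Par σ v i l ∧ Par σ v i' l') := by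
  -- a common direction
  have common : ∀ {i l i' l' : Fin 4}, St2 v σ i l → St2 v σ i' l' → i' = i → l' = l := by
    rintro i l i' l' hS hS' rfl
    by_contra hne
    obtain ⟨a, ha, b, hb, hab⟩ := two_of_card hS'.2.1
    rw [mem_P1] at ha hb
    apply hab
    have h1 : v a l = 0 := by
      rcases hS.1.2 a ha.1 with h | h | h <;> omega
    have h2 : v b l = 0 := by
      rcases hS.1.2 b hb.1 with h | h | h <;> omega
    exact det3' hv hσ ha.1 hb.1 i' l l' hS.1.1 hS'.1.1.symm hne (by omega) (by omega) (by omega)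
  by_cases h1 : i' = i
  · exact Or.inl ⟨h1, common hS hS' h1⟩
  by_cases h2 : i' = l
  · exact Or.inr (Or.inl ⟨h2, common (st2_symm hS) hS' h2⟩)
  by_cases h3 : l' = i
  · exact absurd (common hS (st2_symm hS') h3) h2
  by_cases h4 : l' = l
  · exact absurd (common (st2_symm hS) (st2_symm hS') h4) h1
  right
  right
  obtain ⟨a1, a2, a3⟩ := par_half hv hσ hS hS'.1 h1 h2 h3 h4
  obtain ⟨-, b2, b3⟩ := par_half hv hσ (st2_symm hS) hS'.1 h2 h1 h4 h3
  obtain ⟨c1, c2, c3⟩ := par_half hv hσ hS' hS.1 (Ne.symm h1) (Ne.symm h3) (Ne.symm h2)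
    (Ne.symm h4)
  obtain ⟨-, d2, d3⟩ := par_half hv hσ (st2_symm hS') hS.1 (Ne.symm h3) (Ne.symm h1)
    (Ne.symm h4) (Ne.symm h2)
  exact ⟨⟨a1, a2, b2, a3, b3⟩, ⟨c1, c2, d2, c3, d3⟩⟩

end Pool.Agent.Y231.N4
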