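import Pool.Agent.TH216.LX.Cc2
import Pool.Agent.Y231.N4.Defs2

/-!
# Two root certificates: common part

Dual functionals of an independent set of points, the coordinates of the other points, real
numbers (heights) with prescribed signs on the relations.
-/

set_option autoImplicit false

namespace Pool.Agent.Y231.N4

open MvPolynomial Pool.Agent.W571.MM
open Pool.Agent.W426.SM (gord face)
open Pool.Agent.H628R4.TZ (el)
open Pool.Agent.W425.SM (dm)

section
variable {r : ℕ} {J : Type} [Fintype J]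

/-- dual functionals -/
theorem dualF (V : Fin r → J → ℚ) (D : Finset (Fin r))
    (hind : ∀ w : Fin r → ℚ, (∀ j, j ∉ D → w j = 0) → (∀ i, ∑ j, w j * V j i = 0) →
      ∀ j, w j = 0) :
    ∃ f : Fin r → J → ℚ, ∀ j ∈ D, ∀ j' ∈ D, ∑ i, f j i * V j' i = if j' = j then 1 else 0 := by
  classical
  let T : (D → ℚ) →ₗ[ℚ] (J → ℚ) := Fintype.linearCombination ℚ (fun j : D => V j)
  have hT : ∀ (y : D → ℚ) (i : J), T y i = ∑ j : D, y j * V j i := by
    intro y i
    simp only [T, Fintype.linearCombination_apply, Finset.sum_apply, Pi.smul_apply, smul_eq_mul]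
  have hinj : LinearMap.ker T = ⊥ := by
    rw [LinearMap.ker_eq_bot']
    intro y hy
    have h1 := hind (fun j => if hj : j ∈ D then y ⟨j, hj⟩ else 0)
      (fun j hj => by simp [hj]) (fun i => by
        have h2 := congrFun hy i
        rw [hT, Pi.zero_apply] at h2
        refine Eq.trans ?_ h2
        rw [← Finset.sum_subset (Finset.subset_univ D) (fun j _ hj => by
          simp only [dif_neg hj, zero_mul])]
        rw [← Finset.sum_attach D, Finset.univ_eq_attach]
        refine Finset.sum_congr rfl fun j _ => ?_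
        simp)
    funext j
    have := h1 j
    simpa using this
  obtain ⟨g, hg⟩ := LinearMap.exists_leftInverse_of_injective T hinj
  refine ⟨fun j i => if hj : j ∈ D then g (Pi.single i 1) ⟨j, hj⟩ else 0, ?_⟩
  intro j hj j' hj'
  simp only [dif_pos hj]
  have h1 : g (V j') = Pi.single (⟨j', hj'⟩ : D) 1 := by
    have h2 : T (Pi.single (⟨j', hj'⟩ : D) 1) = V j' := by
      simp only [T]
      rw [Fintype.linearCombination_apply_single, one_smul]
    rw [← h2]
    exact LinearMap.congr_fun hg _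
  have h3 : V j' = ∑ i, V j' i • (Pi.single i (1 : ℚ) : J → ℚ) := by
    funext i
    simp [Finset.sum_apply, Pi.single_apply]
  have h4 : g (V j') = ∑ i, V j' i • g (Pi.single i 1) := by
    conv_lhs => rw [h3]
    rw [map_sum]
    simp only [map_smul]
  have h5 := congrFun (h4.symm.trans h1) ⟨j, hj⟩
  rw [Finset.sum_apply] at h5
  simp only [Pi.smul_apply, smul_eq_mul] at h5
  rw [Finset.sum_congr rfl fun i _ => mul_comm _ _, h5, Pi.single_apply]
  simp only [Subtype.mk.injEq]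
  by_cases h : j' = j
  · rw [if_pos h, if_pos h.symm]
  · rw [if_neg h, if_neg fun h' => h h'.symm]

open Classical in
/-- the coordinates of `V l` -/
noncomputable def cf (V f : Fin r → J → ℚ) (D : Finset (Fin r)) (l j : Fin r) : ℚ :=
  if j ∈ D then ∑ i, f j i * V l i else 0

theorem cf_off (V f : Fin r → J → ℚ) (D : Finset (Fin r)) (l j : Fin r) (hj : j ∉ D) :
    cf V f D l j = 0 := if_neg hj

theorem cf_on (V f : Fin r → J → ℚ) (D : Finset (Fin r)) (l j : Fin r) (hj : j ∈ D) :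
    cf V f D l j = ∑ i, f j i * V l i := if_pos hj

theorem rel_real (V f : Fin r → J → ℚ) (D : Finset (Fin r))
    (hf : ∀ j ∈ D, ∀ j' ∈ D, ∑ i, f j i * V j' i = if j' = j then 1 else 0)
    (w : Fin r → ℝ) (hw : ∀ i, ∑ j, w j * (V j i : ℝ) = 0) :
    ∀ j ∈ D, w j = -∑ l ∈ Dᶜ, w l * (cf V f D l j : ℝ) := by
  classical
  intro j hj
  have h1 : ∑ l, w l * ((∑ i, f j i * V l i : ℚ) : ℝ) = 0 := by
    have h2 : ∑ i, (f j i : ℝ) * ∑ l, w l * (V l i : ℝ) = 0 :=
      Finset.sum_eq_zero fun i _ => by rw [hw i, mul_zero]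
    rw [← h2]
    simp only [Finset.mul_sum]
    rw [Finset.sum_comm]
    refine Finset.sum_congr rfl fun l _ => ?_
    push_cast
    rw [Finset.mul_sum]
    exact Finset.sum_congr rfl fun i _ => by ring
  rw [← Finset.sum_add_sum_compl D] at h1
  have h3 : ∑ l ∈ D, w l * ((∑ i, f j i * V l i : ℚ) : ℝ) = w j := by
    rw [Finset.sum_eq_single j]
    · rw [hf j hj j hj, if_pos rfl]; simp
    · intro l hl hlj
      rw [hf j hj l hl, if_neg hlj]; simp
    · intro h; exact absurd hj h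
  have h4 : ∑ l ∈ Dᶜ, w l * (cf V f D l j : ℝ) = ∑ l ∈ Dᶜ, w l * ((∑ i, f j i * V l i : ℚ) : ℝ) :=
    Finset.sum_congr rfl fun l _ => by rw [cf_on V f D l j hj]
  rw [h4]
  linarith

theorem cf_full (V f : Fin r → J → ℚ) (D : Finset (Fin r)) (hD : D.card = Fintype.card J)
    (hind : ∀ w : Fin r → ℚ, (∀ j, j ∉ D → w j = 0) → (∀ i, ∑ j, w j * V j i = 0) →
      ∀ j, w j = 0)
    (hf : ∀ j ∈ D, ∀ j' ∈ D, ∑ i, f j i * V j' i = if j' = j then 1 else 0) (l : Fin r) (i : J) :
    ∑ j, cf V f D l j * V j i = V l i := by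
  classical
  have hli : LinearIndependent ℚ (fun j : D => V j) := by
    rw [Fintype.linearIndependent_iff]
    intro y hy j
    have h1 := hind (fun j => if hj : j ∈ D then y ⟨j, hj⟩ else 0)
      (fun j hj => by simp [hj]) (fun i => by
        have h2 := congrFun hy i
        rw [Finset.sum_apply] at h2
        simp only [Pi.smul_apply, smul_eq_mul, Pi.zero_apply] at h2
        refine Eq.trans ?_ h2
        rw [← Finset.sum_subset (Finset.subset_univ D) (fun j _ hj => by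
          simp only [dif_neg hj, zero_mul])]
        rw [← Finset.sum_attach D, Finset.univ_eq_attach]
        refine Finset.sum_congr rfl fun j _ => ?_
        simp)
    have := h1 j
    simpa using this
  have hspan : Submodule.span ℚ (Set.range fun j : D => V j) = ⊤ := by
    apply Submodule.eq_top_of_finrank_eq
    rw [finrank_span_eq_card hli]
    simp [hD]
  have hx : V l ∈ Submodule.span ℚ (Set.range fun j : D => V j) := by
    rw [hspan]
    trivial
  obtain ⟨β, hβ⟩ := (Submodule.mem_span_range_iff_exists_fun ℚ).1 hx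
  have hβ' : ∀ i, ∑ j : D, β j * V j i = V l i := by
    intro i
    have h2 := congrFun hβ i
    rw [Finset.sum_apply] at h2
    simpa only [Pi.smul_apply, smul_eq_mul] using h2
  have hcf : ∀ j : D, cf V f D l j = β j := by
    intro j
    rw [cf_on V f D l j j.2]
    simp only [← hβ']
    simp only [Finset.mul_sum]
    rw [Finset.sum_comm]
    have h3 : ∀ j' : D, ∑ i, f j i * (β j' * V j' i) = β j' * (if (j' : Fin r) = j then 1 else 0) := by
      intro j'
      rw [← hf j j.2 j' j'.2, Finset.mul_sum]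
      exact Finset.sum_congr rfl fun i _ => by ring
    rw [Finset.sum_congr rfl fun j' _ => h3 j', Finset.sum_eq_single j]
    · simp
    · intro j' _ hj'
      rw [if_neg fun h => hj' (Subtype.ext h), mul_zero]
    · intro h
      exact absurd (Finset.mem_univ j) h
  rw [← hβ' i, ← Finset.sum_subset (Finset.subset_univ D) (fun j _ hj => by
    rw [cf_off V f D l j hj, zero_mul]), ← Finset.sum_attach D, Finset.univ_eq_attach]
  exact Finset.sum_congr rfl fun j _ => by rw [hcf j]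

end

section
variable {r : ℕ}

theorem hval (D : Finset (Fin r)) (α : Fin r → Fin r → ℚ) (hα0 : ∀ l j, j ∉ D → α l j = 0)
    (θ0 : Fin r → ℝ) (n : Fin r → ℕ) (hn : ∀ j ∈ D, n j = 0) (c0 : Fin r → ℤ)
    (hD1 : ∀ j ∈ D, (c0 j : ℝ) = -∑ l ∈ Dᶜ, (c0 l : ℝ) * (α l j : ℝ)) :
    ∑ j, (c0 j : ℝ) * (θ0 j - (((n j : ℚ)) : ℝ)) =
      ∑ l ∈ Dᶜ, (c0 l : ℝ) * ((θ0 l - ∑ j, (α l j : ℝ) * θ0 j) - (n l : ℝ)) := by
  classical
  rw [← Finset.sum_add_sum_compl D]
  have h1 : ∑ j ∈ D, (c0 j : ℝ) * (θ0 j - (((n j : ℚ)) : ℝ)) =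
      -∑ l ∈ Dᶜ, (c0 l : ℝ) * ∑ j, (α l j : ℝ) * θ0 j := by
    have h2 : ∀ j ∈ D, (c0 j : ℝ) * (θ0 j - (((n j : ℚ)) : ℝ)) =
        -∑ l ∈ Dᶜ, (c0 l : ℝ) * ((α l j : ℝ) * θ0 j) := by
      intro j hj
      rw [hD1 j hj, hn j hj]
      simp only [Nat.cast_zero, Rat.cast_zero, sub_zero]
      rw [neg_mul, Finset.sum_mul]
      congr 1
      exact Finset.sum_congr rfl fun l _ => by ring
    rw [Finset.sum_congr rfl h2, Finset.sum_neg_distrib, Finset.sum_comm]
    congr 1
    refine Finset.sum_congr rfl fun l _ => ?_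
    rw [← Finset.mul_sum]
    congr 1
    refine Finset.sum_subset (Finset.subset_univ D) fun j _ hj => ?_
    rw [hα0 l j hj]
    simp
  rw [h1, neg_add_eq_sub, ← Finset.sum_sub_distrib]
  refine Finset.sum_congr rfl fun l _ => ?_
  push_cast
  ring

/-- **Heights for a circuit.** -/
theorem heightsA (D : Finset (Fin r)) (α : Fin r → Fin r → ℚ) (hα0 : ∀ l j, j ∉ D → α l j = 0)
    (k : Fin r) (hk : k ∉ D) :
    ∃ θ : Fin r → ℝ, LinearIndependent ℚ θ ∧ ∀ c0 : Fin r → ℤ,
      (∀ j ∈ D, (c0 j : ℝ) = -∑ l ∈ Dᶜ, (c0 l : ℝ) * (α l j : ℝ)) →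
      0 < ∑ j, (c0 j : ℝ) * θ j →
      (∀ j, j ∉ D → j ≠ k → 0 ≤ c0 j) → c0 k < 0 ∧ ∀ j ∈ D, α k j < 0 → c0 j < 0 := by
  classical
  -- the constants
  set A : ℝ := ∑ l, ∑ j, |(α l j : ℝ)| with hA
  have hA0 : 0 ≤ A := Finset.sum_nonneg fun l _ => Finset.sum_nonneg fun j _ => abs_nonneg _
  have hAle : ∀ l j, |(α l j : ℝ)| ≤ A := by
    intro l j
    refine (Finset.single_le_sum (f := fun j => |(α l j : ℝ)|) (fun j _ => abs_nonneg _)
      (Finset.mem_univ j)).trans ?_
    exact Finset.single_le_sum (f := fun l => ∑ j, |(α l j : ℝ)|)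
      (fun l _ => Finset.sum_nonneg fun j _ => abs_nonneg _) (Finset.mem_univ l)
  set K : ℝ := 1 + ∑ j, A / |(α k j : ℝ)| with hK
  have hK0 : 0 < K := by
    have : 0 ≤ ∑ j, A / |(α k j : ℝ)| := Finset.sum_nonneg fun j _ => by positivity
    rw [hK]
    linarith
  have hKle : ∀ j, α k j ≠ 0 → A ≤ K * |(α k j : ℝ)| := by
    intro j hj
    have hp : 0 < |(α k j : ℝ)| := abs_pos.2 (by exact_mod_cast hj)
    rw [← div_le_iff₀ hp, hK]
    have := Finset.single_le_sum (f := fun j => A / |(α k j : ℝ)|) (fun j _ => by positivity)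
      (Finset.mem_univ j)
    have h2 : A / |(α k j : ℝ)| ≤ ∑ j, A / |(α k j : ℝ)| := this
    linarith
  -- the heights
  obtain ⟨θ0, hθ0⟩ := exists_theta r
  set h0 : Fin r → ℝ := fun l => θ0 l - ∑ j, (α l j : ℝ) * θ0 j with hh0
  obtain ⟨nk, hnk⟩ := exists_nat_gt (h0 k)
  have hnl : ∀ l, ∃ n : ℕ, h0 l - n ≤ K * (h0 k - nk) := by
    intro l
    obtain ⟨n, hn⟩ := exists_nat_gt (h0 l - K * (h0 k - nk))
    exact ⟨n, by linarith⟩
  choose nl hnl using hnl
  set n : Fin r → ℕ := fun l => if l ∈ D then 0 else if l = k then nk else nl l with hn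
  have hθli : LinearIndependent ℚ fun j => θ0 j - (((n j : ℚ)) : ℝ) := li_of hθ0 fun j => (n j : ℚ)
  refine ⟨_, hθli, fun c0 hD1 hpos hnn => ?_⟩
  have hval' : ∑ j, (c0 j : ℝ) * (θ0 j - (((n j : ℚ)) : ℝ)) =
      ∑ l ∈ Dᶜ, (c0 l : ℝ) * (h0 l - (n l : ℝ)) :=
    hval D α hα0 θ0 n (fun j hj => by rw [hn]; simp only; rw [if_pos hj]) c0 hD1
  rw [hval'] at hpos
  have hkc : k ∈ Dᶜ := Finset.mem_compl.2 hk
  set S : ℝ := ∑ l ∈ Dᶜ.erase k, (c0 l : ℝ) with hS
  have hS0 : 0 ≤ S := Finset.sum_nonneg fun l hl => by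
    exact_mod_cast hnn l (Finset.mem_compl.1 (Finset.mem_of_mem_erase hl))
      (Finset.ne_of_mem_erase hl)
  have hnkk : n k = nk := by
    rw [hn]
    simp [hk]
  have hneg : h0 k - (nk : ℝ) < 0 := by linarith
  have h1 : ∑ l ∈ Dᶜ, (c0 l : ℝ) * (h0 l - (n l : ℝ)) ≤
      (h0 k - nk) * ((c0 k : ℝ) + K * S) := by
    rw [← Finset.add_sum_erase _ _ hkc, hnkk]
    have h2 : ∑ l ∈ Dᶜ.erase k, (c0 l : ℝ) * (h0 l - (n l : ℝ)) ≤
        ∑ l ∈ Dᶜ.erase k, (c0 l : ℝ) * (K * (h0 k - nk)) := by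
      refine Finset.sum_le_sum fun l hl => ?_
      have hlD := Finset.mem_compl.1 (Finset.mem_of_mem_erase hl)
      have hlk := Finset.ne_of_mem_erase hl
      have h3 : n l = nl l := by
        rw [hn]
        simp only
        rw [if_neg hlD, if_neg hlk]
      rw [h3]
      exact mul_le_mul_of_nonneg_left (hnl l) (by exact_mod_cast hnn l hlD hlk)
    rw [← Finset.sum_mul] at h2
    have h4 : (h0 k - nk) * ((c0 k : ℝ) + K * S) =
        (c0 k : ℝ) * (h0 k - nk) + S * (K * (h0 k - nk)) := by ring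
    rw [h4]
    linarith
  have h2 : (c0 k : ℝ) + K * S < 0 := by
    by_contra hcon
    push Not at hcon
    have := mul_nonpos_of_nonpos_of_nonneg hneg.le hcon
    linarith
  have hKS : 0 ≤ K * S := mul_nonneg hK0.le hS0
  constructor
  · have : (c0 k : ℝ) < 0 := by linarith
    exact_mod_cast this
  intro j hjD h3
  have h3' : (α k j : ℝ) < 0 := by exact_mod_cast h3
  have h4 := hD1 j hjD
  rw [← Finset.add_sum_erase _ _ hkc] at h4
  have h5 : -∑ l ∈ Dᶜ.erase k, (c0 l : ℝ) * (α l j : ℝ) ≤ A * S := by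
    rw [← Finset.sum_neg_distrib, hS, Finset.mul_sum]
    refine Finset.sum_le_sum fun l hl => ?_
    have h6 : (0 : ℝ) ≤ (c0 l : ℝ) := by
      exact_mod_cast hnn l (Finset.mem_compl.1 (Finset.mem_of_mem_erase hl))
        (Finset.ne_of_mem_erase hl)
    have h7 := hAle l j
    have h8 := neg_abs_le (α l j : ℝ)
    nlinarith
  have h6 := hKle j h3.ne
  rw [abs_of_neg h3'] at h6
  have h7 : -((c0 k : ℝ) * (α k j : ℝ)) < K * S * (α k j : ℝ) := by
    nlinarith
  have h8 : K * S * (α k j : ℝ) ≤ -(A * S) := by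
    have := mul_le_mul_of_nonneg_right h6 hS0
    nlinarith
  have h9 : (c0 j : ℝ) < 0 := by
    rw [h4]
    linarith
  exact_mod_cast h9

/-- **Heights for an independent set.** -/
theorem heightsE (D : Finset (Fin r)) (α : Fin r → Fin r → ℚ) (hα0 : ∀ l j, j ∉ D → α l j = 0) :
    ∃ θ : Fin r → ℝ, LinearIndependent ℚ θ ∧ ∀ c0 : Fin r → ℤ,
      (∀ j ∈ D, (c0 j : ℝ) = -∑ l ∈ Dᶜ, (c0 l : ℝ) * (α l j : ℝ)) →
      0 < ∑ j, (c0 j : ℝ) * θ j → ∃ j, j ∉ D ∧ c0 j < 0 := by
  classical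
  obtain ⟨θ0, hθ0⟩ := exists_theta r
  have hnl : ∀ l, ∃ n : ℕ, (θ0 l - ∑ j, (α l j : ℝ) * θ0 j) - n ≤ 0 := by
    intro l
    obtain ⟨n, hn⟩ := exists_nat_gt (θ0 l - ∑ j, (α l j : ℝ) * θ0 j)
    exact ⟨n, by linarith⟩
  choose nl hnl using hnl
  set n : Fin r → ℕ := fun l => if l ∈ D then 0 else nl l with hn
  have hθli : LinearIndependent ℚ fun j => θ0 j - (((n j : ℚ)) : ℝ) := li_of hθ0 fun j => (n j : ℚ)
  refine ⟨_, hθli, fun c0 hD1 hpos => ?_⟩
  rw [hval D α hα0 θ0 n (fun j hj => by rw [hn]; simp only; rw [if_pos hj]) c0 hD1] at hpos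
  by_contra hcon
  push Not at hcon
  apply absurd hpos
  rw [not_lt]
  refine Finset.sum_nonpos fun l hl => ?_
  have hlD := Finset.mem_compl.1 hl
  have h3 : n l = nl l := by
    rw [hn]
    simp only
    rw [if_neg hlD]
  rw [h3]
  exact mul_nonpos_of_nonneg_of_nonpos (by exact_mod_cast hcon l hlD) (hnl l)

end

section
variable {r N : ℕ}

/-- the sum of the coefficients, from a linear form which is constant on the support -/
theorem sum_of_faceA (v : Fin r → Fin N → ℕ) (a : Fin N → ℕ) (s : Fin r → ℚ)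
    (hf : ∀ j, s j ≠ 0 → face v a j) (t : ℚ)
    (hs : ∀ i, a i ≠ 0 → ∑ j, s j * (v j i : ℚ) = t) :
    (∑ j, s j) * (gord v a : ℚ) = t * ((∑ i, a i : ℕ) : ℚ) := by
  have h1 : ∑ i, (a i : ℚ) * ∑ j, s j * (v j i : ℚ) = t * ((∑ i, a i : ℕ) : ℚ) := by
    push_cast
    rw [Finset.mul_sum]
    refine Finset.sum_congr rfl fun i _ => ?_
    by_cases hi : a i = 0
    · rw [hi]; simp
    · rw [hs i hi]; ring
  rw [← h1]
  simp only [Finset.mul_sum]
  rw [Finset.sum_comm, Finset.sum_mul]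
  refine Finset.sum_congr rfl fun j _ => ?_
  by_cases hj : s j = 0
  · rw [hj]
    simp
  · have h2 : ((∑ i, a i * v j i : ℕ) : ℚ) = gord v a := by
      have := hf j hj
      unfold face at this
      exact_mod_cast this
    rw [← h2]
    push_cast
    rw [Finset.mul_sum]
    exact Finset.sum_congr rfl fun i _ => by ring

theorem gord_le (v : Fin r → Fin N → ℕ) (a : Fin N → ℕ) (j : Fin r) :
    gord v a ≤ ∑ i, a i * v j i := ciInf_le' _ j

/-- the weighted sum -/
theorem wsum (v : Fin r → Fin N → ℕ) (b : Fin N → ℝ) (w : Fin r → ℝ) :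
    ∑ i, b i * ∑ j, w j * (v j i : ℝ) = ∑ j, w j * ∑ i, b i * (v j i : ℝ) := by
  simp only [Finset.mul_sum]
  rw [Finset.sum_comm]
  refine Finset.sum_congr rfl fun j _ => Finset.sum_congr rfl fun i _ => by ring

end

end Pool.Agent.Y231.N4
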