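import Pool.Agent.TH216.MF.MotK
import Pool.Agent.Y231.N4.X1

/-!
# The relation for two directions, equivariant classes
-/

set_option autoImplicit false

namespace Pool.Agent.Y231.N4

open MvPolynomial
open Pool.Agent.W428.MOT Pool.Agent.W749.MT Pool.Agent.W749.ME
open Pool.Agent.W605.MEInd (dact_gbar dact_prod ne_zero_of_pow)
open Pool.Agent.W426.SM (gord ford face)
open Pool.Agent.TH216.MC
open Pool.Agent.TH216.MF (frc frc_le)

section
variable {k : Type} [Field k] {n : ℕ} {R : Type} [CommRing R] {ι : Type} [Fintype ι]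
  [DecidableEq ι]

/-- the weights `ρ` with the values `p`, `s` at `i`, `j` -/
def wgt (ρ : ι → ℤ) (i j : ι) (p s : ℤ) : ι → ℤ :=
  Function.update (Function.update ρ i p) j s

omit [Fintype ι] in
lemma wgt_j (ρ : ι → ℤ) (i j : ι) (p s : ℤ) : wgt ρ i j p s j = s := Function.update_self _ _ _

omit [Fintype ι] in
lemma wgt_i (ρ : ι → ℤ) {i j : ι} (h : i ≠ j) (p s : ℤ) : wgt ρ i j p s i = p := by
  unfold wgt
  rw [Function.update_of_ne h, Function.update_self]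

omit [Fintype ι] in
lemma wgt_o (ρ : ι → ℤ) {i j o : ι} (h : o ≠ i) (h' : o ≠ j) (p s : ℤ) :
    wgt ρ i j p s o = ρ o := by
  unfold wgt
  rw [Function.update_of_ne h', Function.update_of_ne h]

omit [Fintype ι] in
lemma wgt_comm (ρ : ι → ℤ) {i j : ι} (h : i ≠ j) (p s : ℤ) : wgt ρ j i s p = wgt ρ i j p s := by
  unfold wgt
  rw [Function.update_comm h.symm]

/-- the standing data -/
structure Ctx (f : MvPolynomial (Fin n) k) (ρ : ι → ℤ) (N : ℕ) (β : Fin n → Option ι)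
    (i j : ι) : Prop where
  ne : i ≠ j
  pos : 0 < N
  bi : ∀ x, β x ≠ some i
  bj : ∀ x, β x ≠ some j
  inv : ∀ x o, β x = some o → ρ o = 0

omit [Fintype ι] in
lemma Ctx.symm {f : MvPolynomial (Fin n) k} {ρ : ι → ℤ} {N : ℕ} {β : Fin n → Option ι}
    {i j : ι} (h : Ctx f ρ N β i j) : Ctx f ρ N β j i :=
  ⟨h.ne.symm, h.pos, h.bj, h.bi, h.inv⟩

/-- the data for a set -/
structure Stab (f : MvPolynomial (Fin n) k) (ρ : ι → ℤ) (N : ℕ) (β : Fin n → Option ι)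
    (S : Set (Pt k ι)) : Prop where
  constr : Constr S
  base : ∀ z ∈ S, aeval (cbase β z) f = 0
  stb : ∀ l : AlgebraicClosure k, l ^ N = 1 → ∀ z ∈ S, dact ρ l z ∈ S

omit [Fintype ι] in
lemma Ctx.valid {f : MvPolynomial (Fin n) k} {ρ : ι → ℤ} {N : ℕ} {β : Fin n → Option ι}
    {i j : ι} (h : Ctx f ρ N β i j) {S : Set (Pt k ι)} (p s : ℤ)
    (hS : Stab f (wgt ρ i j p s) N β S) : Valid f S (wgt ρ i j p s) N β where
  constr := hS.constr
  pos := h.pos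
  stable := hS.stb
  base := hS.base
  inv := fun x o hx => by
    have h1 : o ≠ i := by
      rintro rfl
      exact h.bi x hx
    have h2 : o ≠ j := by
      rintro rfl
      exact h.bj x hx
    rw [wgt_o ρ h1 h2]
    exact h.inv x o hx

omit [Fintype ι] [DecidableEq ι] in
lemma dact_ap (ρ : ι → ℤ) (l : AlgebraicClosure k) (z : Pt k ι) (o : ι) :
    dact ρ l z o = l ^ ρ o * z o := rfl

/-- the independence of the coordinates `i`, `j` -/
def Ind2 {α : Type*} (i j : ι) (g : Pt k ι → α) : Prop :=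
  ∀ z w : Pt k ι, (∀ o, o ≠ i → o ≠ j → w o = z o) → g w = g z

omit [Fintype ι] in
lemma Ind2.dact {α : Type*} {i j : ι} {g : Pt k ι → α} (h : Ind2 i j g) (ρ : ι → ℤ)
    (l : AlgebraicClosure k) (p s : ℤ) (z : Pt k ι) :
    g (dact (wgt ρ i j p s) l z) = g (Pool.Agent.W428.MOT.dact ρ l z) := by
  refine h _ _ fun o h1 h2 => ?_
  rw [dact_ap, dact_ap, wgt_o ρ h1 h2]

omit [Fintype ι] in
lemma upd_ne (z : Pt k ι) (x : AlgebraicClosure k) {i o : ι} (ho : o ≠ i) :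
    Function.update z i x o = z o := Function.update_of_ne ho _ _

/-- a coordinate equal to zero -/
theorem ezero {f : MvPolynomial (Fin n) k} (M : EMeas f R) {ρ : ι → ℤ} {N : ℕ}
    {β : Fin n → Option ι} {i j : ι} (h : Ctx f ρ N β i j) (H : Set (Pt k ι)) (p s : ℤ)
    (hH : Stab f (wgt ρ i j p s) N β H)
    (hinv : ∀ z w : Pt k ι, (∀ o, o ≠ i → w o = z o) → z ∈ H → w ∈ H) :
    M.χ _ {z | z ∈ H ∧ z i = 0} (wgt ρ i j p s) N β =
      M.χ _ {z | z ∈ H ∧ z i = 1} (wgt ρ i j 0 s) N β := by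
  have hs0 : ∀ l : AlgebraicClosure k, l ^ N = 1 → ∀ z ∈ H, dact (wgt ρ i j 0 s) l z ∈ H := by
    intro l hl z hz
    refine hinv _ _ (fun o ho => ?_) (hH.stb l hl z hz)
    rw [dact_ap, dact_ap]
    by_cases hj : o = j
    · rw [hj, wgt_j, wgt_j]
    · rw [wgt_o ρ ho hj, wgt_o ρ ho hj]
  have v1 : Valid f {z | z ∈ H ∧ z i = 0} (wgt ρ i j p s) N β := h.valid p s
    ⟨Constr.and hH.constr (Constr.eqz (IsPF.coord i)), fun z hz => hH.base z hz.1,
      fun l hl z hz => ⟨hH.stb l hl z hz.1, by rw [dact_ap, hz.2, mul_zero]⟩⟩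
  have v2 : Valid f {z | z ∈ H ∧ z i = 1} (wgt ρ i j 0 s) N β := h.valid 0 s
    ⟨Constr.and hH.constr (Constr.eq (IsPF.coord i) IsPF.one), fun z hz => hH.base z hz.1,
      fun l hl z hz => ⟨hs0 l hl z hz.1, by
        rw [dact_ap, hz.2, wgt_i ρ h.ne, zpow_zero, mul_one]⟩⟩
  refine M.iso _ _ _ _ _ _ _ _ v1 v2
    (fun z => Function.update z i 1) (fun z => Function.update z i 0)
    (regularOn_poly (fun o => IsPF_update _ _ IsPF.one) _)
    (regularOn_poly (fun o => IsPF_update _ _ IsPF.zero) _) ?_ ?_ ?_ ?_ ?_ ?_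
  · rintro z ⟨h1, h2⟩
    exact ⟨hinv _ _ (fun o ho => upd_ne z _ ho) h1, Function.update_self _ _ _⟩
  · rintro z ⟨h1, h2⟩
    exact ⟨hinv _ _ (fun o ho => upd_ne z _ ho) h1, Function.update_self _ _ _⟩
  · rintro z ⟨h1, h2⟩
    simp only [Function.update_idem]
    rw [← h2, Function.update_eq_self]
  · rintro z ⟨h1, h2⟩
    simp only [Function.update_idem]
    rw [← h2, Function.update_eq_self]
  · intro z _
    funext x
    unfold cbase
    cases hx : β x with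
    | none => rfl
    | some o => exact upd_ne z _ fun h' => h.bi x (h' ▸ hx)
  · intro l _ z _
    funext o
    by_cases ho : o = i
    · subst ho
      rw [Function.update_self, dact_ap, wgt_i ρ h.ne, zpow_zero, one_mul, Function.update_self]
    · rw [upd_ne _ _ ho, dact_ap, dact_ap, upd_ne _ _ ho]
      by_cases hj : o = j
      · rw [hj, wgt_j, wgt_j]
      · rw [wgt_o ρ ho hj, wgt_o ρ ho hj]

/-- the first computation -/
theorem ehalf (hFree : S_EFree) (hSub : S_ESub) {f : MvPolynomial (Fin n) k} (M : EMeas f R)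
    {ρ : ι → ℤ} {N : ℕ} {β : Fin n → Option ι} {i j : ι} (h : Ctx f ρ N β i j)
    (H : Set (Pt k ι)) (hH : Stab f ρ N β H)
    (hinv : ∀ z w : Pt k ι, (∀ o, o ≠ i → o ≠ j → w o = z o) → z ∈ H → w ∈ H)
    (a b : Pt k ι → AlgebraicClosure k) (ha : IsPF a) (hb : IsPF b)
    (hai : Ind2 i j a) (hbi : ∀ z w : Pt k ι, (∀ o, o ≠ i → w o = z o) → b w = b z)
    (ha0 : ∀ z ∈ H, a z ≠ 0) (p s w : ℤ)
    (haw : ∀ l : AlgebraicClosure k, l ^ N = 1 → ∀ z, a (dact ρ l z) = l ^ (w - p) * a z)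
    (hbw : ∀ l : AlgebraicClosure k, l ^ N = 1 → ∀ z,
      b (dact (wgt ρ i j p s) l z) = l ^ w * b z) :
    M.χ _ {z | z ∈ H ∧ a z * z i + b z = 0} (wgt ρ i j p s) N β =
      M.χ _ {z | z ∈ H ∧ z i = 1 ∧ z j = 1} (wgt ρ i j 0 0) N β * M.L := by
  have hsH : ∀ (p s : ℤ) (l : AlgebraicClosure k), l ^ N = 1 → ∀ z ∈ H,
      dact (wgt ρ i j p s) l z ∈ H := by
    intro p s l hl z hz
    refine hinv _ _ (fun o h1 h2 => ?_) (hH.stb l hl z hz)
    rw [dact_ap, dact_ap, wgt_o ρ h1 h2]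
  have v1 : Valid f {z | z ∈ H ∧ a z * z i + b z = 0} (wgt ρ i j p s) N β := h.valid p s
    ⟨Constr.and hH.constr (Constr.eqz ((ha.mul (IsPF.coord i)).add hb)),
      fun z hz => hH.base z hz.1, fun l hl z hz => ⟨hsH p s l hl z hz.1, by
        have hl0 := ne_zero_of_pow h.pos hl
        rw [hai.dact ρ l p s z, haw l hl z, hbw l hl z, dact_ap, wgt_i ρ h.ne]
        have e : l ^ w = l ^ (w - p) * l ^ p := by
          rw [← zpow_add₀ hl0, sub_add_cancel]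
        rw [e]
        linear_combination (l ^ (w - p) * l ^ p) * hz.2⟩⟩
  have v2 : Valid f {z | z ∈ H ∧ z i = 0} (wgt ρ i j w s) N β := h.valid w s
    ⟨Constr.and hH.constr (Constr.eqz (IsPF.coord i)), fun z hz => hH.base z hz.1,
      fun l hl z hz => ⟨hsH w s l hl z hz.1, by rw [dact_ap, hz.2, mul_zero]⟩⟩
  have e1 : M.χ _ {z | z ∈ H ∧ a z * z i + b z = 0} (wgt ρ i j p s) N β =
      M.χ _ {z | z ∈ H ∧ z i = 0} (wgt ρ i j w s) N β := by
    refine hSub M _ _ _ _ N β i a b v1 v2 (fun o ho => ?_) h.bi ha hb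
      (fun z x => hai _ _ fun o ho _ => upd_ne z x ho)
      (fun z x => hbi _ _ fun o ho => upd_ne z x ho) ?_ ?_ (fun z hz => ha0 z hz.1)
      (fun z hz => ha0 z hz.1) fun z _ => ?_
    · by_cases hj : o = j
      · rw [hj, wgt_j, wgt_j]
      · rw [wgt_o ρ ho hj, wgt_o ρ ho hj]
    · intro l hl z
      rw [hai.dact ρ l p s z, haw l hl z, wgt_i ρ h.ne, wgt_i ρ h.ne]
    · intro l hl z
      rw [hbw l hl z, wgt_i ρ h.ne]
    · constructor
      · rintro ⟨h1, h2⟩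
        refine ⟨hinv _ _ (fun o ho _ => upd_ne z _ ho) h1, ?_⟩
        show Function.update z i (a z * z i + b z) i = 0
        rw [Function.update_self, h2]
      · rintro ⟨h1, h2⟩
        have h2' : Function.update z i (a z * z i + b z) i = 0 := h2
        rw [Function.update_self] at h2'
        exact ⟨hinv _ _ (fun o ho _ => (upd_ne z _ ho).symm) h1, h2'⟩
  have e2 := hFree M {z | z ∈ H ∧ z i = 0} (wgt ρ i j w s) N β ∅ {j} (fun _ => 1)
    (Finset.disjoint_empty_left _) v2 (fun x o hx => by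
      refine ⟨Finset.notMem_empty _, fun ho => ?_⟩
      rw [Finset.mem_singleton] at ho
      exact h.bj x (ho ▸ hx)) (fun z w' hw hz => by
      have hw' : ∀ o, o ≠ j → w' o = z o := fun o ho =>
        hw o (Finset.notMem_empty _) (by rw [Finset.mem_singleton]; exact ho)
      refine ⟨hinv _ _ (fun o _ ho => hw' o ho) hz.1, ?_⟩
      show w' i = 0
      rw [hw' i h.ne]
      exact hz.2)
  rw [Finset.card_empty, pow_zero, mul_one, Finset.card_singleton, pow_one] at e2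
  have f1 : {z : Pt k ι | z ∈ H ∧ z i = 0} ∩ {z | ∀ o ∈ (∅ : Finset ι), z o ≠ 0} =
      {z | z ∈ H ∧ z i = 0} := by
    ext z
    simp
  have f2 : {z : Pt k ι | z ∈ H ∧ z i = 0} ∩ {z | ∀ o ∈ ∅ ∪ ({j} : Finset ι), z o =
      algebraMap k _ (1 : k)} = {z | z ∈ {z | z ∈ H ∧ z j = 1} ∧ z i = 0} := by
    ext z
    simp only [Set.mem_inter_iff, Set.mem_ofPred_eq, Finset.empty_union, Finset.mem_singleton,
      forall_eq, map_one]
    tauto
  have f3 : (fun o => if o ∈ ∅ ∪ ({j} : Finset ι) then (0 : ℤ) else wgt ρ i j w s o) =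
      wgt ρ i j w 0 := by
    funext o
    by_cases ho : o = j
    · rw [if_pos (by rw [ho]; simp), ho, wgt_j]
    · rw [if_neg (by simpa using ho)]
      by_cases hi : o = i
      · rw [hi, wgt_i ρ h.ne, wgt_i ρ h.ne]
      · rw [wgt_o ρ hi ho, wgt_o ρ hi ho]
  rw [f1, f2, f3] at e2
  rw [e1, e2]
  congr 1
  have e3 := ezero M h {z | z ∈ H ∧ z j = 1} w 0
    ⟨Constr.and hH.constr (Constr.eq (IsPF.coord j) IsPF.one), fun z hz => hH.base z hz.1,
      fun l hl z hz => ⟨hsH w 0 l hl z hz.1, by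
        rw [dact_ap, hz.2, wgt_j, zpow_zero, mul_one]⟩⟩
    (fun z w' hw hz => ⟨hinv _ _ (fun o ho _ => hw o ho) hz.1, by
      show w' j = 1
      rw [hw j h.ne.symm]
      exact hz.2⟩)
  rw [e3]
  congr 1
  ext z
  simp only [Set.mem_ofPred_eq]
  tauto

/-- a union of two disjoint sets -/
theorem esplit {f : MvPolynomial (Fin n) k} (M : EMeas f R) {ρ : ι → ℤ} {N : ℕ}
    {β : Fin n → Option ι} (S : Set (Pt k ι)) (P : Pt k ι → Prop)
    (h1 : Valid f {z | z ∈ S ∧ P z} ρ N β) (h2 : Valid f {z | z ∈ S ∧ ¬ P z} ρ N β) :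
    M.χ _ S ρ N β = M.χ _ {z | z ∈ S ∧ P z} ρ N β + M.χ _ {z | z ∈ S ∧ ¬ P z} ρ N β := by
  classical
  rw [← M.add _ _ ρ N β h1 h2]
  · congr 1
    ext z
    simp only [Set.mem_union, Set.mem_ofPred_eq]
    tauto
  · rw [Set.disjoint_left]
    rintro z ⟨-, h1⟩ ⟨-, h2⟩
    exact h2 h1

/-- **The equivariant relation.** -/
theorem erel (hFree : S_EFree) (hSub : S_ESub) {f : MvPolynomial (Fin n) k} (M : EMeas f R)
    {ρ : ι → ℤ} {N : ℕ} {β : Fin n → Option ι} {i j : ι} (h : Ctx f ρ N β i j)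
    (B : Set (Pt k ι)) (hB : Stab f ρ N β B)
    (hinv : ∀ z w : Pt k ι, (∀ o, o ≠ i → o ≠ j → w o = z o) → z ∈ B → w ∈ B)
    (g g' d : Pt k ι → AlgebraicClosure k) (hg : IsPF g) (hg' : IsPF g') (hd : IsPF d)
    (gi : Ind2 i j g) (gi' : Ind2 i j g') (di : Ind2 i j d)
    (hn : ∀ z ∈ B, g z ≠ 0 ∨ g' z ≠ 0) (p s w : ℤ)
    (hgw : ∀ l : AlgebraicClosure k, l ^ N = 1 → ∀ z, g (dact ρ l z) = l ^ (w - p) * g z)
    (hgw' : ∀ l : AlgebraicClosure k, l ^ N = 1 → ∀ z, g' (dact ρ l z) = l ^ (w - s) * g' z)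
    (hdw : ∀ l : AlgebraicClosure k, l ^ N = 1 → ∀ z, d (dact ρ l z) = l ^ w * d z) :
    M.χ _ {z | z ∈ B ∧ z i ≠ 0 ∧ z j ≠ 0 ∧ z i * g z + z j * g' z = d z} (wgt ρ i j p s) N β +
      (M.χ _ {z | z ∈ B ∧ z i ≠ 0 ∧ z j = 1 ∧ z i * g z = d z} (wgt ρ i j p 0) N β +
        M.χ _ {z | z ∈ B ∧ z i = 1 ∧ z j ≠ 0 ∧ z j * g' z = d z} (wgt ρ i j 0 s) N β) +
      M.χ _ {z | z ∈ B ∧ z i = 1 ∧ z j = 1 ∧ d z = 0} (wgt ρ i j 0 0) N β =
      M.χ _ {z | z ∈ B ∧ z i = 1 ∧ z j = 1} (wgt ρ i j 0 0) N β * M.L := by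
  have hij := h.ne
  have hzi : IsPF (fun z : Pt k ι => z i) := IsPF.coord i
  have hzj : IsPF (fun z : Pt k ι => z j) := IsPF.coord j
  have hsB : ∀ (p s : ℤ) (l : AlgebraicClosure k), l ^ N = 1 → ∀ z ∈ B,
      dact (wgt ρ i j p s) l z ∈ B := by
    intro p s l hl z hz
    refine hinv _ _ (fun o h1 h2 => ?_) (hB.stb l hl z hz)
    rw [dact_ap, dact_ap, wgt_o ρ h1 h2]
  have hgd : ∀ (p' s' : ℤ) (l : AlgebraicClosure k), l ^ N = 1 → ∀ z,
      g (dact (wgt ρ i j p' s') l z) = l ^ (w - p) * g z := fun p' s' l hl z => by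
    rw [gi.dact ρ l p' s' z, hgw l hl z]
  have hgd' : ∀ (p' s' : ℤ) (l : AlgebraicClosure k), l ^ N = 1 → ∀ z,
      g' (dact (wgt ρ i j p' s') l z) = l ^ (w - s) * g' z := fun p' s' l hl z => by
    rw [gi'.dact ρ l p' s' z, hgw' l hl z]
  have hdd : ∀ (p' s' : ℤ) (l : AlgebraicClosure k), l ^ N = 1 → ∀ z,
      d (dact (wgt ρ i j p' s') l z) = l ^ w * d z := fun p' s' l hl z => by
    rw [di.dact ρ l p' s' z, hdw l hl z]
  have hci : ∀ (p' s' : ℤ) (l : AlgebraicClosure k) (z : Pt k ι),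
      dact (wgt ρ i j p' s') l z i = l ^ p' * z i := fun p' s' l z => by
    rw [dact_ap, wgt_i ρ hij]
  have hcj : ∀ (p' s' : ℤ) (l : AlgebraicClosure k) (z : Pt k ι),
      dact (wgt ρ i j p' s') l z j = l ^ s' * z j := fun p' s' l z => by
    rw [dact_ap, wgt_j]
  have hwp : ∀ l : AlgebraicClosure k, l ^ N = 1 → l ^ p * l ^ (w - p) = l ^ w := by
    intro l hl
    rw [← zpow_add₀ (ne_zero_of_pow h.pos hl), add_sub_cancel]
  have hws : ∀ l : AlgebraicClosure k, l ^ N = 1 → l ^ s * l ^ (w - s) = l ^ w := by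
    intro l hl
    rw [← zpow_add₀ (ne_zero_of_pow h.pos hl), add_sub_cancel]
  have hnz : ∀ (e : ℤ) (l : AlgebraicClosure k), l ^ N = 1 → l ^ e ≠ 0 := fun e l hl =>
    zpow_ne_zero _ (ne_zero_of_pow h.pos hl)
  set P : Set (Pt k ι) := {z | z ∈ B ∧ z i * g z + z j * g' z = d z} with hP
  have hPs : Stab f (wgt ρ i j p s) N β P := ⟨Constr.and hB.constr
    (Constr.eq ((hzi.mul hg).add (hzj.mul hg')) hd), fun z hz => hB.base z hz.1,
    fun l hl z hz => ⟨hsB p s l hl z hz.1, by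
      rw [hci, hcj, hgd _ _ l hl, hgd' _ _ l hl, hdd _ _ l hl]
      linear_combination (z i * g z) * hwp l hl + (z j * g' z) * hws l hl + l ^ w * hz.2⟩⟩
  have sub : ∀ (p' s' : ℤ) (S : Set (Pt k ι)), Stab f (wgt ρ i j p' s') N β S →
      ∀ Q : Pt k ι → Prop, Constr {z | Q z} → (∀ l : AlgebraicClosure k, l ^ N = 1 → ∀ z,
        Q z → Q (dact (wgt ρ i j p' s') l z)) →
      Stab f (wgt ρ i j p' s') N β {z | z ∈ S ∧ Q z} := fun p' s' S hS Q hQ hQ' =>
    ⟨Constr.and hS.constr hQ, fun z hz => hS.base z hz.1, fun l hl z hz =>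
      ⟨hS.stb l hl z hz.1, hQ' l hl z hz.2⟩⟩
  have sB : ∀ p' s', Stab f (wgt ρ i j p' s') N β B := fun p' s' =>
    ⟨hB.constr, hB.base, hsB p' s'⟩
  have qg : ∀ (p' s' : ℤ) (l : AlgebraicClosure k), l ^ N = 1 → ∀ z,
      g z ≠ 0 → g (dact (wgt ρ i j p' s') l z) ≠ 0 := fun p' s' l hl z hz => by
    rw [hgd _ _ l hl]
    exact mul_ne_zero (hnz _ l hl) hz
  have qg0 : ∀ (p' s' : ℤ) (l : AlgebraicClosure k), l ^ N = 1 → ∀ z,
      ¬ g z ≠ 0 → ¬ g (dact (wgt ρ i j p' s') l z) ≠ 0 := fun p' s' l hl z hz => by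
    rw [hgd _ _ l hl, not_not.1 hz, mul_zero]
    exact fun h => h rfl
  have qi : ∀ (p' s' : ℤ) (l : AlgebraicClosure k), l ^ N = 1 → ∀ z : Pt k ι,
      z i ≠ 0 → dact (wgt ρ i j p' s') l z i ≠ 0 := fun p' s' l hl z hz => by
    rw [hci]
    exact mul_ne_zero (hnz _ l hl) hz
  have qi0 : ∀ (p' s' : ℤ) (l : AlgebraicClosure k), l ^ N = 1 → ∀ z : Pt k ι,
      ¬ z i ≠ 0 → ¬ dact (wgt ρ i j p' s') l z i ≠ 0 := fun p' s' l hl z hz => by
    rw [hci, not_not.1 hz, mul_zero]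
    exact fun h => h rfl
  have qj : ∀ (p' s' : ℤ) (l : AlgebraicClosure k), l ^ N = 1 → ∀ z : Pt k ι,
      z j ≠ 0 → dact (wgt ρ i j p' s') l z j ≠ 0 := fun p' s' l hl z hz => by
    rw [hcj]
    exact mul_ne_zero (hnz _ l hl) hz
  have qj0 : ∀ (p' s' : ℤ) (l : AlgebraicClosure k), l ^ N = 1 → ∀ z : Pt k ι,
      ¬ z j ≠ 0 → ¬ dact (wgt ρ i j p' s') l z j ≠ 0 := fun p' s' l hl z hz => by
    rw [hcj, not_not.1 hz, mul_zero]
    exact fun h => h rfl
  have cg : Constr {z : Pt k ι | g z ≠ 0} := Constr.ne hg IsPF.zero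
  have ci : Constr {z : Pt k ι | z i ≠ 0} := Constr.ne hzi IsPF.zero
  have cj : Constr {z : Pt k ι | z j ≠ 0} := Constr.ne hzj IsPF.zero
  -- first computation
  have hA : M.χ _ P (wgt ρ i j p s) N β =
      M.χ _ {z | z ∈ B ∧ z i = 1 ∧ z j = 1} (wgt ρ i j 0 0) N β * M.L := by
    have h1 := ehalf hFree hSub M h {z | z ∈ B ∧ g z ≠ 0}
      ⟨Constr.and hB.constr cg, fun z hz => hB.base z hz.1, fun l hl z hz =>
        ⟨hB.stb l hl z hz.1, by
          show g (dact ρ l z) ≠ 0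
          rw [hgw l hl]
          exact mul_ne_zero (hnz _ l hl) hz.2⟩⟩
      (fun z w' hw hz => ⟨hinv z w' hw hz.1, by
        show g w' ≠ 0
        rw [gi z w' hw]
        exact hz.2⟩) g (fun z => z j * g' z - d z) hg
      ((hzj.mul hg').sub hd) gi (fun z w' hw => by
        beta_reduce
        rw [hw j hij.symm, gi' z w' (fun o ho _ => hw o ho), di z w' (fun o ho _ => hw o ho)])
      (fun z hz => hz.2) p s w hgw (fun l hl z => by
        beta_reduce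
        rw [hcj, hgd' _ _ l hl, hdd _ _ l hl]
        linear_combination (z j * g' z) * hws l hl)
    have h2 := ehalf hFree hSub M h.symm {z | z ∈ B ∧ ¬ g z ≠ 0}
      ⟨Constr.and hB.constr cg.not, fun z hz => hB.base z hz.1, fun l hl z hz =>
        ⟨hB.stb l hl z hz.1, by
          show ¬ g (dact ρ l z) ≠ 0
          rw [hgw l hl, not_not.1 hz.2, mul_zero]
          exact fun h => h rfl⟩⟩
      (fun z w' hw hz => ⟨hinv z w' (fun o h1 h2 => hw o h2 h1) hz.1, by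
        show ¬ g w' ≠ 0
        rw [gi z w' fun o h1 h2 => hw o h2 h1]
        exact hz.2⟩) g' (fun z => z i * g z - d z) hg'
      ((hzi.mul hg).sub hd) (fun z w' hw => gi' z w' fun o h1 h2 => hw o h2 h1)
      (fun z w' hw => by
        beta_reduce
        rw [hw i hij, gi z w' (fun o _ ho => hw o ho), di z w' (fun o _ ho => hw o ho)])
      (fun z hz => (hn z hz.1).resolve_left hz.2) s p w hgw' (fun l hl z => by
        rw [wgt_comm ρ hij]
        beta_reduce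
        rw [hci, hgd _ _ l hl, hdd _ _ l hl]
        linear_combination (z i * g z) * hwp l hl)
    rw [wgt_comm ρ hij, wgt_comm ρ hij] at h2
    have h3 := esplit M P (fun z => g z ≠ 0) (h.valid _ _ (sub p s P hPs _ cg (qg p s)))
      (h.valid _ _ (sub p s P hPs _ cg.not (qg0 p s)))
    have sB11 : Stab f (wgt ρ i j 0 0) N β {z | z ∈ B ∧ z i = 1 ∧ z j = 1} :=
      sub 0 0 B (sB 0 0) _ (Constr.and (Constr.eq hzi IsPF.one) (Constr.eq hzj IsPF.one))
        (fun l hl z hz => ⟨by rw [hci, hz.1, zpow_zero, mul_one],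
          by rw [hcj, hz.2, zpow_zero, mul_one]⟩)
    have h4 := esplit M {z | z ∈ B ∧ z i = 1 ∧ z j = 1} (fun z => g z ≠ 0)
      (h.valid _ _ (sub 0 0 _ sB11 _ cg (qg 0 0)))
      (h.valid _ _ (sub 0 0 _ sB11 _ cg.not (qg0 0 0)))
    have e1 : {z : Pt k ι | z ∈ P ∧ g z ≠ 0} = {z | z ∈ {z | z ∈ B ∧ g z ≠ 0} ∧
        g z * z i + (z j * g' z - d z) = 0} := by
      ext z
      simp only [hP, Set.mem_ofPred_eq]
      constructor
      · rintro ⟨⟨a1, a2⟩, a3⟩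
        exact ⟨⟨a1, a3⟩, by linear_combination a2⟩
      · rintro ⟨⟨a1, a2⟩, a3⟩
        exact ⟨⟨a1, by linear_combination a3⟩, a2⟩
    have e2 : {z : Pt k ι | z ∈ P ∧ ¬ g z ≠ 0} = {z | z ∈ {z | z ∈ B ∧ ¬ g z ≠ 0} ∧
        g' z * z j + (z i * g z - d z) = 0} := by
      ext z
      simp only [hP, Set.mem_ofPred_eq]
      constructor
      · rintro ⟨⟨a1, a2⟩, a3⟩
        exact ⟨⟨a1, a3⟩, by linear_combination a2⟩
      · rintro ⟨⟨a1, a2⟩, a3⟩
        exact ⟨⟨a1, by linear_combination a3⟩, a2⟩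
    have e3 : {z : Pt k ι | z ∈ {z | z ∈ B ∧ z i = 1 ∧ z j = 1} ∧ g z ≠ 0} =
        {z | z ∈ {z | z ∈ B ∧ g z ≠ 0} ∧ z i = 1 ∧ z j = 1} := by
      ext z
      simp only [Set.mem_ofPred_eq]
      tauto
    have e4 : {z : Pt k ι | z ∈ {z | z ∈ B ∧ z i = 1 ∧ z j = 1} ∧ ¬ g z ≠ 0} =
        {z | z ∈ {z | z ∈ B ∧ ¬ g z ≠ 0} ∧ z j = 1 ∧ z i = 1} := by
      ext z
      simp only [Set.mem_ofPred_eq]
      tauto
    rw [h3, h4, e1, e2, e3, e4, h1, h2]
    ring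
  -- second computation
  have s1 := sub p s P hPs _ ci (qi p s)
  have s2 := sub p s P hPs _ ci.not (qi0 p s)
  have h1 := esplit M P (fun z => z i ≠ 0) (h.valid _ _ s1) (h.valid _ _ s2)
  have h2 := esplit M _ (fun z => z j ≠ 0) (h.valid _ _ (sub p s _ s1 _ cj (qj p s)))
    (h.valid _ _ (sub p s _ s1 _ cj.not (qj0 p s)))
  have h3 := esplit M _ (fun z => z j ≠ 0) (h.valid _ _ (sub p s _ s2 _ cj (qj p s)))
    (h.valid _ _ (sub p s _ s2 _ cj.not (qj0 p s)))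
  have e11 : {z : Pt k ι | z ∈ {z | z ∈ P ∧ z i ≠ 0} ∧ z j ≠ 0} =
      {z | z ∈ B ∧ z i ≠ 0 ∧ z j ≠ 0 ∧ z i * g z + z j * g' z = d z} := by
    ext z
    simp only [hP, Set.mem_ofPred_eq]
    tauto
  have e10 : M.χ _ {z : Pt k ι | z ∈ {z | z ∈ P ∧ z i ≠ 0} ∧ ¬ z j ≠ 0} (wgt ρ i j p s) N β =
      M.χ _ {z | z ∈ B ∧ z i ≠ 0 ∧ z j = 1 ∧ z i * g z = d z} (wgt ρ i j p 0) N β := by
    have h4 := ezero M h.symm {z : Pt k ι | z ∈ B ∧ z i ≠ 0 ∧ z i * g z = d z} s p (by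
        rw [wgt_comm ρ hij]
        refine sub p s B (sB p s) _ (Constr.and ci (Constr.eq (hzi.mul hg) hd))
          fun l hl z hz => ⟨qi p s l hl z hz.1, ?_⟩
        rw [hci, hgd _ _ l hl, hdd _ _ l hl]
        linear_combination (z i * g z) * hwp l hl + l ^ w * hz.2)
      (fun z w' hw hz => ⟨hinv z w' (fun o _ ho => hw o ho) hz.1, by
        show w' i ≠ 0
        rw [hw i hij]
        exact hz.2.1, by
        show w' i * g w' = d w'
        rw [hw i hij, gi z w' (fun o _ ho => hw o ho), di z w' (fun o _ ho => hw o ho)]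
        exact hz.2.2⟩)
    rw [wgt_comm ρ hij, wgt_comm ρ hij] at h4
    have e5 : {z : Pt k ι | z ∈ {z | z ∈ P ∧ z i ≠ 0} ∧ ¬ z j ≠ 0} =
        {z | z ∈ {z : Pt k ι | z ∈ B ∧ z i ≠ 0 ∧ z i * g z = d z} ∧ z j = 0} := by
      ext z
      simp only [hP, Set.mem_ofPred_eq, not_not]
      constructor
      · rintro ⟨⟨⟨a1, a2⟩, a3⟩, a4⟩
        rw [a4, zero_mul, add_zero] at a2
        exact ⟨⟨a1, a3, a2⟩, a4⟩
      · rintro ⟨⟨a1, a3, a2⟩, a4⟩
        refine ⟨⟨⟨a1, ?_⟩, a3⟩, a4⟩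
        rw [a4, zero_mul, add_zero]
        exact a2
    rw [e5, h4]
    congr 1
    ext z
    simp only [Set.mem_ofPred_eq]
    tauto
  have e01 : M.χ _ {z : Pt k ι | z ∈ {z | z ∈ P ∧ ¬ z i ≠ 0} ∧ z j ≠ 0} (wgt ρ i j p s) N β =
      M.χ _ {z | z ∈ B ∧ z i = 1 ∧ z j ≠ 0 ∧ z j * g' z = d z} (wgt ρ i j 0 s) N β := by
    have h4 := ezero M h {z : Pt k ι | z ∈ B ∧ z j ≠ 0 ∧ z j * g' z = d z} p s (by
        refine sub p s B (sB p s) _ (Constr.and cj (Constr.eq (hzj.mul hg') hd))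
          fun l hl z hz => ⟨qj p s l hl z hz.1, ?_⟩
        rw [hcj, hgd' _ _ l hl, hdd _ _ l hl]
        linear_combination (z j * g' z) * hws l hl + l ^ w * hz.2)
      (fun z w' hw hz => ⟨hinv z w' (fun o ho _ => hw o ho) hz.1, by
        show w' j ≠ 0
        rw [hw j hij.symm]
        exact hz.2.1, by
        show w' j * g' w' = d w'
        rw [hw j hij.symm, gi' z w' (fun o ho _ => hw o ho), di z w' (fun o ho _ => hw o ho)]
        exact hz.2.2⟩)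
    have e5 : {z : Pt k ι | z ∈ {z | z ∈ P ∧ ¬ z i ≠ 0} ∧ z j ≠ 0} =
        {z | z ∈ {z : Pt k ι | z ∈ B ∧ z j ≠ 0 ∧ z j * g' z = d z} ∧ z i = 0} := by
      ext z
      simp only [hP, Set.mem_ofPred_eq, not_not]
      constructor
      · rintro ⟨⟨⟨a1, a2⟩, a3⟩, a4⟩
        rw [a3, zero_mul, zero_add] at a2
        exact ⟨⟨a1, a4, a2⟩, a3⟩
      · rintro ⟨⟨a1, a4, a2⟩, a3⟩
        refine ⟨⟨⟨a1, ?_⟩, a3⟩, a4⟩
        rw [a3, zero_mul, zero_add]
        exact a2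
    rw [e5, h4]
    congr 1
    ext z
    simp only [Set.mem_ofPred_eq]
    tauto
  have e00 : M.χ _ {z : Pt k ι | z ∈ {z | z ∈ P ∧ ¬ z i ≠ 0} ∧ ¬ z j ≠ 0} (wgt ρ i j p s) N β =
      M.χ _ {z | z ∈ B ∧ z i = 1 ∧ z j = 1 ∧ d z = 0} (wgt ρ i j 0 0) N β := by
    have qd : ∀ (p' s' : ℤ) (l : AlgebraicClosure k), l ^ N = 1 → ∀ z,
        d z = 0 → d (dact (wgt ρ i j p' s') l z) = 0 := fun p' s' l hl z hz => by
      rw [hdd _ _ l hl, hz, mul_zero]
    have h4 := ezero M h {z : Pt k ι | z ∈ B ∧ z j = 0 ∧ d z = 0} p s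
      (sub p s B (sB p s) _ (Constr.and (Constr.eqz hzj) (Constr.eqz hd))
        fun l hl z hz => ⟨by rw [hcj, hz.1, mul_zero], qd p s l hl z hz.2⟩)
      (fun z w' hw hz => ⟨hinv z w' (fun o ho _ => hw o ho) hz.1, by
        show w' j = 0
        rw [hw j hij.symm]
        exact hz.2.1, by
        show d w' = 0
        rw [di z w' (fun o ho _ => hw o ho)]
        exact hz.2.2⟩)
    have h5 := ezero M h.symm {z : Pt k ι | z ∈ B ∧ z i = 1 ∧ d z = 0} s 0 (by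
        rw [wgt_comm ρ hij]
        exact sub 0 s B (sB 0 s) _ (Constr.and (Constr.eq hzi IsPF.one) (Constr.eqz hd))
          fun l hl z hz => ⟨by rw [hci, hz.1, zpow_zero, mul_one], qd 0 s l hl z hz.2⟩)
      (fun z w' hw hz => ⟨hinv z w' (fun o _ ho => hw o ho) hz.1, by
        show w' i = 1
        rw [hw i hij]
        exact hz.2.1, by
        show d w' = 0
        rw [di z w' (fun o _ ho => hw o ho)]
        exact hz.2.2⟩)
    rw [wgt_comm ρ hij, wgt_comm ρ hij] at h5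
    have e5 : {z : Pt k ι | z ∈ {z | z ∈ P ∧ ¬ z i ≠ 0} ∧ ¬ z j ≠ 0} =
        {z | z ∈ {z : Pt k ι | z ∈ B ∧ z j = 0 ∧ d z = 0} ∧ z i = 0} := by
      ext z
      simp only [hP, Set.mem_ofPred_eq, not_not]
      constructor
      · rintro ⟨⟨⟨a1, a2⟩, a3⟩, a4⟩
        rw [a3, a4, zero_mul, zero_mul, add_zero] at a2
        exact ⟨⟨a1, a4, a2.symm⟩, a3⟩
      · rintro ⟨⟨a1, a4, a2⟩, a3⟩
        refine ⟨⟨⟨a1, ?_⟩, a3⟩, a4⟩
        rw [a3, a4, zero_mul, zero_mul, add_zero, a2]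
    have e6 : {z : Pt k ι | z ∈ {z : Pt k ι | z ∈ B ∧ z j = 0 ∧ d z = 0} ∧ z i = 1} =
        {z | z ∈ {z : Pt k ι | z ∈ B ∧ z i = 1 ∧ d z = 0} ∧ z j = 0} := by
      ext z
      simp only [Set.mem_ofPred_eq]
      tauto
    rw [e5, h4, e6, h5]
    congr 1
    ext z
    simp only [Set.mem_ofPred_eq]
    tauto
  rw [← hA, h1, h2, h3, e11, e10, e01, e00]
  ring

end

end Pool.Agent.Y231.N4
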